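import Pool.Agent.Lib.MP_dd827d_co.Outline

/-!
Realizability on an arbitrary ground set, reindexing, merging of groups, and the converse half
of Hilton's theorem.
-/

namespace Pool.Agent.MP_dd827d_co

open Finset Function

/-- a latin square on `X` in which all fibres of `c` are closed -/
def Good {X ι : Type*} (c : X → ι) : Prop :=
  ∃ op : X → X → X, Latin op ∧ ∀ x y, c x = c y → c (op x y) = c x

theorem Realizable.good {I X : Type} [Fintype I] [Fintype X] {n : I → ℕ}
    (h : Realizable n) (c : X → I) (hc : ∀ i, Nat.card {x // c x = i} = n i) : Good c := by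
  classical
  obtain ⟨Q, _, op, hop, hcard, S, hS, hcov⟩ := h
  have he : ∀ i : I, Nonempty ({x // c x = i} ≃ S i) := by
    intro i
    refine ⟨(Fintype.equivOfCardEq ?_)⟩
    have h1 : (S i).ncard = n i := (hS i).2
    rw [← Nat.card_eq_fintype_card, hc i, ← h1, ← Nat.card_coe_set_eq, Nat.card_eq_fintype_card]
  let e : ∀ i : I, {x // c x = i} ≃ S i := fun i => (he i).some
  let F : X → Q := fun x => (e (c x) ⟨x, rfl⟩).1
  have hFi : ∀ i x (h : c x = i), F x = (e i ⟨x, h⟩).1 := by
    intro i x h
    subst h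
    rfl
  have hFS : ∀ x, F x ∈ S (c x) := fun x => (e (c x) ⟨x, rfl⟩).2
  have hF : ∀ (i : I) (q : Q) (_ : q ∈ S i), ∃ x, c x = i ∧ F x = q := by
    intro i q hq
    refine ⟨((e i).symm ⟨q, hq⟩).1, ((e i).symm ⟨q, hq⟩).2, ?_⟩
    rw [hFi i _ ((e i).symm ⟨q, hq⟩).2]
    exact congrArg Subtype.val (Equiv.apply_symm_apply (e i) ⟨q, hq⟩)
  have hFs : Surjective F := by
    intro q
    have hq : q ∈ ⋃ i, S i := by rw [hcov]; trivial
    obtain ⟨i, hi⟩ := Set.mem_iUnion.1 hq
    obtain ⟨t, -, ht⟩ := hF i q hi
    exact ⟨_, ht⟩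
  have hFb : Bijective F := by
    rw [Fintype.bijective_iff_surjective_and_card]
    refine ⟨hFs, ?_⟩
    rw [hcard, ← Fintype.card_congr (Equiv.sigmaFiberEquiv c), Fintype.card_sigma]
    exact Finset.sum_congr rfl fun i _ => by rw [← hc i, Nat.card_eq_fintype_card]
  let E := Equiv.ofBijective F hFb
  have hEF : ∀ x, E x = F x := fun x => rfl
  refine ⟨fun x y => E.symm (op (E x) (E y)), ⟨fun x y y' h => ?_, fun y x x' h => ?_⟩, ?_⟩
  · have h1 := E.symm.injective h
    exact E.injective ((hop.1 (E x) (op (E x) (E y))).unique rfl h1.symm)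
  · have h1 := E.symm.injective h
    exact E.injective ((hop.2 (E y) (op (E x) (E y))).unique rfl h1.symm)
  · intro x y hxy
    have h1 : op (E x) (E y) ∈ S (c x) := by
      refine (hS (c x)).1.2 _ (hFS x) _ ?_
      rw [hxy]
      exact hFS y
    obtain ⟨w, hw, hw'⟩ := hF _ _ h1
    beta_reduce
    rw [← hw', ← hEF, Equiv.symm_apply_apply, hw]

theorem Realizable.of_good {I X : Type} [Fintype I] [Fintype X] {n : I → ℕ}
    (hn : ∀ i, 0 < n i) (c : X → I) (hc : ∀ i, Nat.card {x // c x = i} = n i) (h : Good c) :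
    Realizable n := by
  classical
  obtain ⟨g, hg, hgc⟩ := h
  have hr : ∀ a, Bijective (g a) := fun a => Finite.injective_iff_bijective.1 (hg.1 a)
  have hcb : ∀ a, Bijective (fun y => g y a) := fun a => Finite.injective_iff_bijective.1 (hg.2 a)
  refine ⟨X, inferInstance, g, ⟨fun a b => (hr a).existsUnique b,
    fun a b => (hcb a).existsUnique b⟩, ?_, fun i => {x | c x = i}, fun i => ⟨⟨?_, ?_⟩, ?_⟩, ?_⟩
  · rw [← Fintype.card_congr (Equiv.sigmaFiberEquiv c), Fintype.card_sigma]
    exact Finset.sum_congr rfl fun i _ => by rw [← hc i, Nat.card_eq_fintype_card]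
  · have h1 : 0 < Nat.card {x // c x = i} := by rw [hc]; exact hn i
    obtain ⟨⟨x, hx⟩⟩ := (Nat.card_pos_iff.1 h1).1
    exact ⟨x, hx⟩
  · intro x hx y hy
    have hx' : c x = i := hx
    have hy' : c y = i := hy
    exact (hgc x y (hx'.trans hy'.symm)).trans hx'
  · rw [← hc i, ← Nat.card_coe_set_eq]
    rfl
  · ext x
    simp

theorem natCard_fiber {I : Type} [Fintype I] (n : I → ℕ) (i : I) :
    Nat.card {x : Pt n // x.1 = i} = n i := by
  classical
  rw [Nat.card_eq_fintype_card, Fintype.card_subtype, card_pt n (fun t => t = i),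
    Finset.filter_eq' univ i, if_pos (mem_univ i), Finset.sum_singleton]

theorem Realizable.reindex {I J : Type} [Fintype I] [Fintype J] {n : I → ℕ} (e : J ≃ I)
    (h : Realizable fun j => n (e j)) : Realizable n := by
  obtain ⟨Q, _, op, hop, hcard, S, hS, hcov⟩ := h
  refine ⟨Q, inferInstance, op, hop, ?_, fun i => S (e.symm i), fun i => ⟨(hS _).1, ?_⟩, ?_⟩
  · rw [hcard]
    exact Equiv.sum_comp e n
  · rw [(hS _).2]
    exact congrArg n (Equiv.apply_symm_apply e i)
  · rw [← hcov]
    exact Equiv.iSup_comp e.symm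

/-- A single part is realizable. -/
theorem realizable_unique {I : Type} [Fintype I] [Unique I] {n : I → ℕ} (hn : ∀ i, 0 < n i) :
    Realizable n := by
  obtain ⟨L, hL⟩ := exists_latin (Pt n)
  exact Realizable.of_good hn (fun x => x.1) (natCard_fiber n)
    ⟨L, hL, fun x y _ => Subsingleton.elim _ _⟩

/-- Merging: if the family of group sums is realizable and each group is realizable, then the
whole family is realizable. -/
theorem Realizable.merge {I J : Type} [Fintype I] [Fintype J] [DecidableEq J] {n : I → ℕ}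
    (hn : ∀ i, 0 < n i) (f : I → J)
    (hJ : Realizable fun a : J => ∑ i ∈ univ.filter (fun i => f i = a), n i)
    (hI : ∀ a, Realizable fun i : {i // f i = a} => n i.1) : Realizable n := by
  classical
  obtain ⟨op, hop, hopc⟩ := hJ.good (X := Pt n) (fun x => f x.1) (by
    intro a
    rw [Nat.card_eq_fintype_card, Fintype.card_subtype, card_pt n (fun t => f t = a)])
  have hgr : ∀ a, Good (X := {x : Pt n // f x.1 = a})
      (fun x => (⟨x.1.1, x.2⟩ : {i // f i = a})) := by
    intro a
    refine (hI a).good _ ?_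
    intro i
    rw [← natCard_fiber n i.1]
    refine Nat.card_congr ⟨fun x => ⟨x.1.1, congrArg Subtype.val x.2⟩,
      fun x => ⟨⟨x.1, by rw [x.2]; exact i.2⟩, Subtype.ext x.2⟩, fun x => rfl, fun x => rfl⟩
  choose g hg hgc using hgr
  -- the combined operation
  let o : Pt n → Pt n → Pt n := fun x y =>
    if h : f x.1 = f y.1 then (g (f y.1) ⟨x, h⟩ ⟨y, rfl⟩).1 else op x y
  have ho : ∀ a x y (hx : f x.1 = a) (hy : f y.1 = a), o x y = (g a ⟨x, hx⟩ ⟨y, hy⟩).1 := by
    intro a x y hx hy
    subst hy
    exact dif_pos hx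
  have ho' : ∀ x y, f x.1 ≠ f y.1 → o x y = op x y := fun x y h => dif_neg h
  have hog : ∀ x y, f x.1 = f y.1 → f (o x y).1 = f x.1 := by
    intro x y h
    rw [ho (f x.1) x y rfl h.symm]
    exact (g (f x.1) ⟨x, rfl⟩ ⟨y, h.symm⟩).2
  -- `op` leaves the group if exactly one factor lies in it
  have hfin : ∀ a : J, ∀ F : {x : Pt n // f x.1 = a} → {x : Pt n // f x.1 = a}, Injective F →
      Surjective F := fun a F hF => Finite.injective_iff_surjective.1 hF
  have h1 : ∀ x y, f x.1 ≠ f y.1 → f (op x y).1 ≠ f x.1 := by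
    intro x y hxy hcon
    obtain ⟨⟨z, hz⟩, hz'⟩ := hfin (f x.1)
      (fun z => ⟨op x z.1, hopc x z.1 z.2.symm⟩)
      (fun z z' h => Subtype.ext (hop.1 x (congrArg Subtype.val h))) ⟨op x y, hcon⟩
    have : z = y := hop.1 x (congrArg Subtype.val hz')
    subst this
    exact hxy hz.symm
  have h2 : ∀ x y, f x.1 ≠ f y.1 → f (op x y).1 ≠ f y.1 := by
    intro x y hxy hcon
    obtain ⟨⟨z, hz⟩, hz'⟩ := hfin (f y.1)
      (fun z => ⟨op z.1 y, (hopc z.1 y z.2).trans z.2⟩)
      (fun z z' h => Subtype.ext (hop.2 y (congrArg Subtype.val h))) ⟨op x y, hcon⟩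
    have : z = x := hop.2 y (congrArg Subtype.val hz')
    subst this
    exact hxy hz
  refine Realizable.of_good hn (fun x : Pt n => x.1) (natCard_fiber n) ⟨o, ⟨?_, ?_⟩, ?_⟩
  · intro x y y' h
    by_cases hy : f x.1 = f y.1 <;> by_cases hy' : f x.1 = f y'.1
    · rw [ho (f x.1) x y rfl hy.symm, ho (f x.1) x y' rfl hy'.symm] at h
      exact congrArg Subtype.val ((hg (f x.1)).1 _ (Subtype.ext h))
    · have h3 := hog x y hy
      rw [h, ho' x y' hy'] at h3
      exact absurd h3 (h1 x y' hy')
    · have h3 := hog x y' hy'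
      rw [← h, ho' x y hy] at h3
      exact absurd h3 (h1 x y hy)
    · rw [ho' x y hy, ho' x y' hy'] at h
      exact hop.1 x h
  · intro y x x' h
    beta_reduce at h
    by_cases hx : f x.1 = f y.1 <;> by_cases hx' : f x'.1 = f y.1
    · rw [ho (f y.1) x y hx rfl, ho (f y.1) x' y hx' rfl] at h
      exact congrArg Subtype.val ((hg (f y.1)).2 _ (Subtype.ext h))
    · have h3 := hog x y hx
      rw [h, ho' x' y hx', hx] at h3
      exact absurd h3 (h2 x' y hx')
    · have h3 := hog x' y hx'
      rw [← h, ho' x y hx, hx'] at h3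
      exact absurd h3 (h2 x y hx)
    · rw [ho' x y hx, ho' x' y hx'] at h
      exact hop.2 y h
  · intro x y hxy
    have hfx : f x.1 = f y.1 := congrArg f hxy
    beta_reduce
    rw [ho (f x.1) x y rfl hfx.symm]
    have := hgc (f x.1) ⟨x, rfl⟩ ⟨y, hfx.symm⟩ (Subtype.ext hxy)
    exact congrArg Subtype.val this

/-- The outline of a realization. -/
theorem Realizable.exists_outline {I : Type} [Fintype I] [DecidableEq I] {n : I → ℕ}
    (h : Realizable n) : ∃ x : I → I → I → ℕ, IsOutline n x := by
  classical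
  obtain ⟨op, hop, hopc⟩ := h.good (X := Pt n) (fun x => x.1) (natCard_fiber n)
  have hfin : ∀ a : I, ∀ F : {x : Pt n // x.1 = a} → {x : Pt n // x.1 = a}, Injective F →
      Surjective F := fun a F hF => Finite.injective_iff_surjective.1 hF
  have h1 : ∀ x y : Pt n, x.1 ≠ y.1 → (op x y).1 ≠ x.1 := by
    intro x y hxy hcon
    obtain ⟨⟨z, hz⟩, hz'⟩ := hfin (x.1)
      (fun z => ⟨op x z.1, hopc x z.1 z.2.symm⟩)
      (fun z z' h => Subtype.ext (hop.1 x (congrArg Subtype.val h))) ⟨op x y, hcon⟩
    have : z = y := hop.1 x (congrArg Subtype.val hz')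
    subst this
    exact hxy hz.symm
  have h2 : ∀ x y : Pt n, x.1 ≠ y.1 → (op x y).1 ≠ y.1 := by
    intro x y hxy hcon
    obtain ⟨⟨z, hz⟩, hz'⟩ := hfin (y.1)
      (fun z => ⟨op z.1 y, (hopc z.1 y z.2).trans z.2⟩)
      (fun z z' h => Subtype.ext (hop.2 y (congrArg Subtype.val h))) ⟨op x y, hcon⟩
    have : z = x := hop.2 y (congrArg Subtype.val hz')
    subst this
    exact hxy hz
  let T : I → I → I → Finset (Pt n × Pt n) := fun a b c =>
    univ.filter fun z => z.1.1 = a ∧ z.2.1 = b ∧ (op z.1 z.2).1 = c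
  have hT : ∀ a b c z, z ∈ T a b c ↔ z.1.1 = a ∧ z.2.1 = b ∧ (op z.1 z.2).1 = c := by
    intro a b c z; simp [T]
  have hprod : ∀ a b, ((univ : Finset (Pt n)).filter (fun x => x.1 = a)).card *
      ((univ : Finset (Pt n)).filter (fun x => x.1 = b)).card = n a * n b := by
    intro a b
    have : ∀ a, ((univ : Finset (Pt n)).filter (fun x => x.1 = a)).card = n a := by
      intro a
      rw [← natCard_fiber n a, Nat.card_eq_fintype_card, Fintype.card_subtype]
    rw [this, this]
  have hrs : ∀ x : Pt n, Surjective (op x) := fun x =>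
    Finite.injective_iff_surjective.1 (hop.1 x)
  have hcs : ∀ y : Pt n, Surjective (fun x => op x y) := fun y =>
    Finite.injective_iff_surjective.1 (hop.2 y)
  refine ⟨fun a b c => if a = b then 0 else (T a b c).card, ?_, ?_, ?_, ?_, ?_, ?_⟩
  · intro a c; simp
  · intro a b
    split_ifs with hab
    · rfl
    · rw [Finset.card_eq_zero, Finset.eq_empty_iff_forall_notMem]
      intro z hz
      rw [hT] at hz
      exact h2 z.1 z.2 (by rw [hz.1, hz.2.1]; exact hab) (hz.2.2.trans hz.2.1.symm)
  · intro a b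
    split_ifs with hab
    · rfl
    · rw [Finset.card_eq_zero, Finset.eq_empty_iff_forall_notMem]
      intro z hz
      rw [hT] at hz
      exact h1 z.1 z.2 (by rw [hz.1, hz.2.1]; exact hab) (hz.2.2.trans hz.1.symm)
  · intro a b hab
    simp only [if_neg hab]
    rw [← hprod a b, ← Finset.card_product,
      Finset.card_eq_sum_card_fiberwise (f := fun z => (op z.1 z.2).1) (t := univ)
        (fun _ _ => by simp)]
    refine Finset.sum_congr rfl fun c _ => congrArg Finset.card ?_
    ext z
    rw [hT]
    simp only [mem_filter, mem_product, mem_univ, true_and]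
    tauto
  · intro a c hac
    rw [← hprod a c, ← Finset.card_product]
    have hb : ∀ b, (if a = b then 0 else (T a b c).card) = (T a b c).card := by
      intro b
      split_ifs with hab
      · symm
        rw [Finset.card_eq_zero, Finset.eq_empty_iff_forall_notMem]
        intro z hz
        rw [hT] at hz
        have := hopc z.1 z.2 (hz.1.trans (hab.trans hz.2.1.symm))
        exact hac (hz.1.symm.trans (this.symm.trans hz.2.2))
      · rfl
    rw [Finset.sum_congr rfl fun b _ => hb b]
    have h3 : ∑ b, (T a b c).card =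
        (univ.filter fun z : Pt n × Pt n => z.1.1 = a ∧ (op z.1 z.2).1 = c).card := by
      rw [Finset.card_eq_sum_card_fiberwise (f := fun z => z.2.1) (t := univ)
        (fun _ _ => by simp)]
      refine Finset.sum_congr rfl fun b _ => congrArg Finset.card ?_
      ext z
      rw [hT]
      simp only [mem_filter, mem_univ, true_and]
      tauto
    rw [h3]
    refine Finset.card_bij (fun z _ => (z.1, op z.1 z.2)) ?_ ?_ ?_
    · intro z hz
      simp only [mem_filter, mem_univ, true_and, mem_product] at hz ⊢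
      exact hz
    · intro z _ z' _ h
      rw [Prod.ext_iff] at h
      obtain ⟨h3, h4⟩ := h
      have h5 : z.1 = z'.1 := h3
      have h6 : op z.1 z.2 = op z'.1 z'.2 := h4
      rw [h5] at h6
      exact Prod.ext h5 (hop.1 _ h6)
    · intro z hz
      simp only [mem_filter, mem_univ, true_and, mem_product] at hz
      obtain ⟨y, hy⟩ := hrs z.1 z.2
      refine ⟨(z.1, y), ?_, ?_⟩
      · simp only [mem_filter, mem_univ, true_and]
        rw [hy]
        exact hz
      · simp only [hy]
  · intro b c hbc
    rw [← hprod b c, ← Finset.card_product]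
    have hb : ∀ a, (if a = b then 0 else (T a b c).card) = (T a b c).card := by
      intro a
      split_ifs with hab
      · symm
        rw [Finset.card_eq_zero, Finset.eq_empty_iff_forall_notMem]
        intro z hz
        rw [hT] at hz
        have := hopc z.1 z.2 (hz.1.trans (hab.trans hz.2.1.symm))
        exact hbc (hab.symm.trans (hz.1.symm.trans (this.symm.trans hz.2.2)))
      · rfl
    rw [Finset.sum_congr rfl fun b _ => hb b]
    have h3 : ∑ a, (T a b c).card =
        (univ.filter fun z : Pt n × Pt n => z.2.1 = b ∧ (op z.1 z.2).1 = c).card := by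
      rw [Finset.card_eq_sum_card_fiberwise (f := fun z => z.1.1) (t := univ)
        (fun _ _ => by simp)]
      refine Finset.sum_congr rfl fun a _ => congrArg Finset.card ?_
      ext z
      rw [hT]
      simp only [mem_filter, mem_univ, true_and]
      tauto
    rw [h3]
    refine Finset.card_bij (fun z _ => (z.2, op z.1 z.2)) ?_ ?_ ?_
    · intro z hz
      simp only [mem_filter, mem_univ, true_and, mem_product] at hz ⊢
      exact hz
    · intro z _ z' _ h
      rw [Prod.ext_iff] at h
      obtain ⟨h3, h4⟩ := h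
      have h5 : z.2 = z'.2 := h3
      have h6 : op z.1 z.2 = op z'.1 z'.2 := h4
      rw [h5] at h6
      exact Prod.ext (hop.2 _ h6) h5
    · intro z hz
      simp only [mem_filter, mem_univ, true_and, mem_product] at hz
      obtain ⟨y, hy⟩ := hcs z.1 z.2
      beta_reduce at hy
      refine ⟨(y, z.1), ?_, ?_⟩
      · simp only [mem_filter, mem_univ, true_and]
        rw [hy]
        exact hz
      · simp only [hy]

end Pool.Agent.MP_dd827d_co
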