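import Pool.Agent.Lib.MP_dd827d_co.Round3

/-!
Refining one class of an integral outline into arbitrary parts, with the help of three other
classes.
-/

namespace Pool.Agent.MP_dd827d_co

open Finset Function

variable {J K : Type*} [Fintype J] [Fintype K] [DecidableEq J] [DecidableEq K]

omit [DecidableEq K] in
theorem refine_slice (n : J → ℕ) (d : K → ℕ) (m : J → J → ℕ)
    (hr : ∀ a, ∑ b, m a b = (∑ k, d k) * n a) (hc : ∀ b, ∑ a, m a b = (∑ k, d k) * n b)
    (u w : J) (hm : (∑ k, d k) * (∑ k, d k) ≤ m u w) :
    ∃ Y : K → J → J → ℤ, (∀ k a, ∑ b, Y k a b = d k * n a) ∧ (∀ k b, ∑ a, Y k a b = d k * n b) ∧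
      (∀ a b, ∑ k, Y k a b = m a b) ∧ (∀ k a b, 0 ≤ Y k a b) ∧
      ∀ k, (d k : ℤ) * ∑ k, (d k : ℤ) ≤ Y k u w := by
  classical
  have hT : Fintype.card (Σ k, Fin (d k)) = ∑ k, d k := by simp [Fintype.card_sigma]
  obtain ⟨X, h1, h2, h3, h4⟩ := exists_split (T := Σ k, Fin (d k)) m
    (fun a b => if a = u ∧ b = w then ∑ k, d k else 0) n n
    (by rw [hT]; exact hr) (by rw [hT]; exact hc) (by
      intro a b
      rw [hT]
      split_ifs with h
      · rw [h.1, h.2]; exact hm
      · simp)
  refine ⟨fun k a b => ∑ t : Fin (d k), (X ⟨k, t⟩ a b : ℤ), fun k a => ?_, fun k b => ?_,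
    fun a b => ?_, fun k a b => Finset.sum_nonneg fun t _ => Int.natCast_nonneg _, fun k => ?_⟩
  · rw [Finset.sum_comm]
    have : ∀ t : Fin (d k), ∑ b, (X ⟨k, t⟩ a b : ℤ) = n a := fun t => by exact_mod_cast h1 ⟨k, t⟩ a
    rw [Finset.sum_congr rfl fun t _ => this t]
    simp
  · rw [Finset.sum_comm]
    have : ∀ t : Fin (d k), ∑ a, (X ⟨k, t⟩ a b : ℤ) = n b := fun t => by exact_mod_cast h2 ⟨k, t⟩ b
    rw [Finset.sum_congr rfl fun t _ => this t]
    simp
  · have := h3 a b
    rw [Fintype.sum_sigma] at this
    beta_reduce
    exact_mod_cast this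
  · have : ∀ t : Fin (d k), ∑ k, (d k : ℤ) ≤ (X ⟨k, t⟩ u w : ℤ) := by
      intro t
      have := h4 ⟨k, t⟩ u w
      rw [if_pos ⟨rfl, rfl⟩] at this
      exact_mod_cast this
    calc (d k : ℤ) * ∑ k, (d k : ℤ) = ∑ _t : Fin (d k), ∑ k, (d k : ℤ) := by simp
      _ ≤ _ := Finset.sum_le_sum fun t _ => this t

theorem sum_off (d : K → ℕ) (k : K) :
    ∑ k', (if k = k' then (0 : ℤ) else d k * d k') = d k * (∑ k, (d k : ℤ) - d k) := by
  have : ∀ k', (if k = k' then (0 : ℤ) else d k * d k') =
      d k * d k' - if k = k' then (d k : ℤ) * d k else 0 := by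
    intro k'
    by_cases h : k = k'
    · subst h; simp
    · simp [h]
  rw [Finset.sum_congr rfl fun k' _ => this k', Finset.sum_sub_distrib, ← Finset.mul_sum]
  simp
  ring

theorem sum_off' (d : K → ℕ) (k : K) :
    ∑ k', (if k' = k then (0 : ℤ) else d k' * d k) = d k * (∑ k, (d k : ℤ) - d k) := by
  rw [← sum_off d k]
  refine Finset.sum_congr rfl fun k' _ => ?_
  by_cases h : k = k'
  · subst h; simp
  · simp [h, Ne.symm h, mul_comm]

/-- **Refinement.** -/
theorem refine_class (n : J → ℕ) (d : K → ℕ) (x : Option J → Option J → Option J → ℕ)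
    (hx : IsOutline (fun a => a.elim (∑ k, d k) n) x) (u v w : J) (huv : u ≠ v) (hvw : v ≠ w)
    (huw : u ≠ w)
    (h1 : (∑ k, d k) * (∑ k, d k) ≤ x none (some v) (some w))
    (h2 : (∑ k, d k) * (∑ k, d k) ≤ x (some u) none (some w))
    (h3 : (∑ k, d k) * (∑ k, d k) ≤ x (some u) (some v) none) :
    ∃ x' : J ⊕ K → J ⊕ K → J ⊕ K → ℕ, IsOutline (Sum.elim n d) x' := by
  classical
  obtain ⟨Y1, r1, c1, s1, p1, b1⟩ := refine_slice n d (fun b c => x none (some b) (some c))
    (fun b => by
      have := hx.s3 none (some b) (by simp)
      rw [Fintype.sum_option, hx.off13] at this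
      simpa using this)
    (fun c => by
      have := hx.s2 none (some c) (by simp)
      rw [Fintype.sum_option, hx.off12] at this
      simpa using this) v w h1
  obtain ⟨Y2, r2, c2, s2, p2, b2⟩ := refine_slice n d (fun a c => x (some a) none (some c))
    (fun a => by
      have := hx.s3 (some a) none (by simp)
      rw [Fintype.sum_option, hx.off23] at this
      simpa [mul_comm] using this)
    (fun c => by
      have := hx.s1 none (some c) (by simp)
      rw [Fintype.sum_option, hx.off12] at this
      simpa using this) u w h2
  obtain ⟨Y3, r3, c3, s3, p3, b3⟩ := refine_slice n d (fun a b => x (some a) (some b) none)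
    (fun a => by
      have := hx.s2 (some a) none (by simp)
      rw [Fintype.sum_option, hx.off23] at this
      simpa [mul_comm] using this)
    (fun b => by
      have := hx.s1 (some b) none (by simp)
      rw [Fintype.sum_option, hx.off13] at this
      simpa [mul_comm] using this) u v h3
  set S : ℤ := ∑ k, (d k : ℤ) with hS
  have z0 : ∀ (Y : K → ℤ), (∀ k, 0 ≤ Y k) → ∑ k, Y k = 0 → ∀ k, Y k = 0 := fun Y h0 h k =>
    (Finset.sum_eq_zero_iff_of_nonneg fun k _ => h0 k).1 h k (mem_univ k)
  have z1 : ∀ k b, Y1 k b b = 0 := fun k b =>
    z0 (fun k => Y1 k b b) (fun k => p1 k b b) (by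
      have h := s1 b b
      rw [hx.off23] at h
      exact_mod_cast h) k
  have z2 : ∀ k b, Y2 k b b = 0 := fun k b =>
    z0 (fun k => Y2 k b b) (fun k => p2 k b b) (by
      have h := s2 b b
      rw [hx.off13] at h
      exact_mod_cast h) k
  have z3 : ∀ k b, Y3 k b b = 0 := fun k b =>
    z0 (fun k => Y3 k b b) (fun k => p3 k b b) (by
      have h := s3 b b
      rw [hx.off12] at h
      exact_mod_cast h) k
  let e : K → ℤ := fun k => d k * (S - d k)
  have he : ∀ k, e k ≤ d k * S := by
    intro k
    have : (0 : ℤ) ≤ (d k : ℤ) * d k := by positivity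
    simp only [e]
    linarith
  let o : K → K → ℤ := fun k k' => if k = k' then (0 : ℤ) else d k * d k'
  have ho : ∀ k, ∑ k', o k k' = e k := fun k => sum_off d k
  have ho' : ∀ k, ∑ k', o k' k = e k := fun k => by
    rw [← ho k]
    refine Finset.sum_congr rfl fun k' _ => ?_
    by_cases h : k = k'
    · subst h; rfl
    · simp [o, h, Ne.symm h, mul_comm]
  have hod : ∀ k, o k k = 0 := fun k => if_pos rfl
  have ho0 : ∀ k k', 0 ≤ o k k' := by
    intro k k'
    simp only [o]
    split_ifs
    · exact le_rfl
    · positivity
  let x' : J ⊕ K → J ⊕ K → J ⊕ K → ℤ := fun α β γ =>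
    match α, β, γ with
    | .inl a, .inl b, .inl c => x (some a) (some b) (some c) +
        if a = u ∧ b = v ∧ c = w then ∑ k, e k else 0
    | .inr k, .inl b, .inl c => Y1 k b c - if b = v ∧ c = w then e k else 0
    | .inl a, .inr k, .inl c => Y2 k a c - if a = u ∧ c = w then e k else 0
    | .inl a, .inl b, .inr k => Y3 k a b - if a = u ∧ b = v then e k else 0
    | .inr k, .inr k', .inl c => if c = w then o k k' else 0
    | .inr k, .inl b, .inr k' => if b = v then o k k' else 0
    | .inl a, .inr k, .inr k' => if a = u then o k k' else 0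
    | .inr _, .inr _, .inr _ => 0
  have key : IsOutline (fun a => ((Sum.elim n d a : ℕ) : ℤ)) x' := by
    refine ⟨?_, ?_, ?_, ?_, ?_, ?_⟩
    · rintro (a | k) (c | k')
      · have : ¬ (a = u ∧ a = v ∧ c = w) := fun h => huv (h.1.symm.trans h.2.1)
        simp [x', hx.off12, this]
      · have : ¬ (a = u ∧ a = v) := fun h => huv (h.1.symm.trans h.2)
        simp [x', z3, this]
      · simp [x', hod]
      · simp [x']
    · rintro (a | k) (c | k')
      · have : ¬ (a = u ∧ c = v ∧ c = w) := fun h => hvw (h.2.1.symm.trans h.2.2)
        simp [x', hx.off23, this]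
      · simp [x', hod]
      · have : ¬ (c = v ∧ c = w) := fun h => hvw (h.1.symm.trans h.2)
        simp [x', z1, this]
      · simp [x']
    · rintro (a | k) (c | k')
      · have : ¬ (a = u ∧ c = v ∧ a = w) := fun h => huw (h.1.symm.trans h.2.2)
        simp [x', hx.off13, this]
      · have : ¬ (a = u ∧ a = w) := fun h => huw (h.1.symm.trans h.2)
        simp [x', z2, this]
      · simp [x', hod]
      · simp [x']
    · rintro (a | k) (b | k') hab
      · have hab' : a ≠ b := fun h => hab (by rw [h])
        have h4 := hx.s3 (some a) (some b) (by simpa using hab')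
        rw [Fintype.sum_option] at h4
        simp only [Option.elim] at h4
        have h4' : (x (some a) (some b) none : ℤ) + ∑ c, (x (some a) (some b) (some c) : ℤ) =
          n a * n b := by exact_mod_cast h4
        rw [Fintype.sum_sum_type]
        simp only [x', Sum.elim_inl, Finset.sum_add_distrib, Finset.sum_sub_distrib]
        rw [s3]
        by_cases h : a = u ∧ b = v
        · simp only [h, true_and, and_self, if_true, Finset.sum_ite_eq', mem_univ] at h4' ⊢
          linarith
        · have h5 : ∀ c, ¬ (a = u ∧ b = v ∧ c = w) := fun c h' => h ⟨h'.1, h'.2.1⟩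
          simp only [h, h5, if_false, Finset.sum_const_zero]
          linarith
      · rw [Fintype.sum_sum_type]
        simp only [x', Sum.elim_inl, Sum.elim_inr, Finset.sum_sub_distrib, r2]
        by_cases h : a = u
        · simp only [h, true_and, if_true, Finset.sum_ite_eq', mem_univ, ho]
          ring
        · simp only [h, false_and, if_false, Finset.sum_const_zero]
          ring
      · rw [Fintype.sum_sum_type]
        simp only [x', Sum.elim_inl, Sum.elim_inr, Finset.sum_sub_distrib, r1]
        by_cases h : b = v
        · simp only [h, true_and, if_true, Finset.sum_ite_eq', mem_univ, ho]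
          ring
        · simp only [h, false_and, if_false, Finset.sum_const_zero]
          ring
      · have hab' : k ≠ k' := fun h => hab (by rw [h])
        rw [Fintype.sum_sum_type]
        simp only [x', Sum.elim_inr, Finset.sum_ite_eq', mem_univ, if_true, Finset.sum_const_zero,
          add_zero]
        simp only [o, if_neg hab']
    · rintro (a | k) (c | k') hac
      · have hac' : a ≠ c := fun h => hac (by rw [h])
        have h4 := hx.s2 (some a) (some c) (by simpa using hac')
        rw [Fintype.sum_option] at h4
        simp only [Option.elim] at h4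
        have h4' : (x (some a) none (some c) : ℤ) + ∑ b, (x (some a) (some b) (some c) : ℤ) =
          n a * n c := by exact_mod_cast h4
        rw [Fintype.sum_sum_type]
        simp only [x', Sum.elim_inl, Finset.sum_add_distrib, Finset.sum_sub_distrib]
        rw [s2]
        by_cases h : a = u ∧ c = w
        · simp only [h, true_and, and_true, and_self, if_true, Finset.sum_ite_eq', mem_univ]
            at h4' ⊢
          linarith
        · have h5 : ∀ b, ¬ (a = u ∧ b = v ∧ c = w) := fun c h' => h ⟨h'.1, h'.2.2⟩
          simp only [h, h5, if_false, Finset.sum_const_zero]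
          linarith
      · rw [Fintype.sum_sum_type]
        simp only [x', Sum.elim_inl, Sum.elim_inr, Finset.sum_sub_distrib, r3]
        by_cases h : a = u
        · simp only [h, true_and, if_true, Finset.sum_ite_eq', mem_univ, ho']
          ring
        · simp only [h, false_and, if_false, Finset.sum_const_zero]
          ring
      · rw [Fintype.sum_sum_type]
        simp only [x', Sum.elim_inl, Sum.elim_inr, Finset.sum_sub_distrib, c1]
        by_cases h : c = w
        · simp only [h, and_true, if_true, Finset.sum_ite_eq', mem_univ, ho]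
          ring
        · simp only [h, and_false, if_false, Finset.sum_const_zero]
          ring
      · have hab' : k ≠ k' := fun h => hac (by rw [h])
        rw [Fintype.sum_sum_type]
        simp only [x', Sum.elim_inr, Finset.sum_ite_eq', mem_univ, if_true, Finset.sum_const_zero,
          add_zero]
        simp only [o, if_neg hab']
    · rintro (b | k) (c | k') hbc
      · have hbc' : b ≠ c := fun h => hbc (by rw [h])
        have h4 := hx.s1 (some b) (some c) (by simpa using hbc')
        rw [Fintype.sum_option] at h4
        simp only [Option.elim] at h4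
        have h4' : (x none (some b) (some c) : ℤ) + ∑ a, (x (some a) (some b) (some c) : ℤ) =
          n b * n c := by exact_mod_cast h4
        rw [Fintype.sum_sum_type]
        simp only [x', Sum.elim_inl, Finset.sum_add_distrib, Finset.sum_sub_distrib]
        rw [s1]
        by_cases h : b = v ∧ c = w
        · simp only [h, and_true, and_self, if_true, Finset.sum_ite_eq', mem_univ]
            at h4' ⊢
          linarith
        · simp only [h, and_false, if_false, Finset.sum_const_zero]
          linarith
      · rw [Fintype.sum_sum_type]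
        simp only [x', Sum.elim_inl, Sum.elim_inr, Finset.sum_sub_distrib, c3]
        by_cases h : b = v
        · simp only [h, and_true, if_true, Finset.sum_ite_eq', mem_univ, ho']
          ring
        · simp only [h, and_false, if_false, Finset.sum_const_zero]
          ring
      · rw [Fintype.sum_sum_type]
        simp only [x', Sum.elim_inl, Sum.elim_inr, Finset.sum_sub_distrib, c2]
        by_cases h : c = w
        · simp only [h, and_true, if_true, Finset.sum_ite_eq', mem_univ, ho']
          ring
        · simp only [h, and_false, if_false, Finset.sum_const_zero]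
          ring
      · have hab' : k ≠ k' := fun h => hbc (by rw [h])
        rw [Fintype.sum_sum_type]
        simp only [x', Sum.elim_inr, Finset.sum_ite_eq', mem_univ, if_true, Finset.sum_const_zero,
          add_zero]
        simp only [o, if_neg hab']
  refine ⟨_, isOutline_toNat key ?_⟩
  have he0 : ∀ k, 0 ≤ e k := fun k => by
    rw [← ho k]
    exact Finset.sum_nonneg fun k' _ => ho0 k k'
  rintro (a | k) (b | k') (c | k'')
  · simp only [x']
    have := Finset.sum_nonneg fun k (_ : k ∈ univ) => he0 k
    split_ifs <;> positivity
  · simp only [x']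
    split_ifs with h
    · rw [h.1, h.2]
      have := b3 k''
      have := he k''
      linarith
    · rw [sub_zero]; exact p3 _ _ _
  · simp only [x']
    split_ifs with h
    · rw [h.1, h.2]
      have := b2 k'
      have := he k'
      linarith
    · rw [sub_zero]; exact p2 _ _ _
  · simp only [x']
    split_ifs
    · exact ho0 _ _
    · exact le_rfl
  · simp only [x']
    split_ifs with h
    · rw [h.1, h.2]
      have := b1 k
      have := he k
      linarith
    · rw [sub_zero]; exact p1 _ _ _
  · simp only [x']
    split_ifs
    · exact ho0 _ _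
    · exact le_rfl
  · simp only [x']
    split_ifs
    · exact ho0 _ _
    · exact le_rfl
  · simp only [x']
    exact le_rfl

end Pool.Agent.MP_dd827d_co
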