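import Pool.Agent.Lib.MP_dd827d_co.LP
import Pool.Agent.Lib.MP_dd827d_co.Refine
import Pool.Agent.Lib.MP_dd827d_co.Merge

/-!
The core theorem for a given real outline of the classes with relative slack.
-/

namespace Pool.Agent.MP_dd827d_co

open Finset Function

theorem core3 {I J : Type} [Fintype I] [DecidableEq I] [Fintype J] [DecidableEq J] (n : I → ℕ)
    (hn : ∀ i, 0 < n i) (f : I → Option J) (ε Λ h : ℝ) (hε0 : 0 < ε) (hε : ε ≤ 1)
    (hΛ : 1 ≤ Λ) (h0 : 0 < h) (S : ℕ) (hS : ∑ i, n i = S)
    (hcard4 : 4 ≤ Fintype.card J) (hcard5 : (∃ i, f i = none) ∨ 5 ≤ Fintype.card J)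
    (hgrp : ∀ a : J, Realizable fun i : {i // f i = some a} => n i.1)
    (y : Option J → Option J → Option J → ℝ)
    (hy : IsOutline (fun a : Option J => a.elim
      ((∑ i ∈ univ.filter (fun i => f i = none), n i : ℕ) : ℝ)
      fun a => ((∑ i ∈ univ.filter (fun i => f i = some a), n i : ℕ) : ℝ)) y)
    (hyl : ∀ a b d, a ≠ b → b ≠ d → a ≠ d → ε / S *
      ((a.elim ((∑ i ∈ univ.filter (fun i => f i = none), n i : ℕ) : ℝ)
        fun a => ((∑ i ∈ univ.filter (fun i => f i = some a), n i : ℕ) : ℝ)) *
      (b.elim ((∑ i ∈ univ.filter (fun i => f i = none), n i : ℕ) : ℝ)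
        fun a => ((∑ i ∈ univ.filter (fun i => f i = some a), n i : ℕ) : ℝ)) *
      (d.elim ((∑ i ∈ univ.filter (fun i => f i = none), n i : ℕ) : ℝ)
        fun a => ((∑ i ∈ univ.filter (fun i => f i = some a), n i : ℕ) : ℝ))) ≤ y a b d)
    (hge : ∀ a : J, (S : ℝ) / Λ ≤ ((∑ i ∈ univ.filter (fun i => f i = some a), n i : ℕ) : ℝ))
    (u v w : J) (huv : u ≠ v) (hvw : v ≠ w) (huw : u ≠ w)
    (hu : h ≤ ((∑ i ∈ univ.filter (fun i => f i = some u), n i : ℕ) : ℝ))
    (hv : h ≤ ((∑ i ∈ univ.filter (fun i => f i = some v), n i : ℕ) : ℝ))
    (hw : h ≤ ((∑ i ∈ univ.filter (fun i => f i = some w), n i : ℕ) : ℝ))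
    (hs : ((∑ i ∈ univ.filter (fun i => f i = none), n i : ℕ) : ℝ) ≤ ε / 2 * h ^ 2 / S)
    (hbig : 26 * Λ ^ 3 / ε ≤ S) : Realizable n := by
  classical
  set N : J → ℕ := fun a => ∑ i ∈ univ.filter (fun i => f i = some a), n i with hN
  set s : ℕ := ∑ i ∈ univ.filter (fun i => f i = none), n i with hsdef
  have hΛ0 : 0 < Λ := by linarith
  have hSr : (0 : ℝ) < S := lt_of_lt_of_le (by positivity) hbig
  have hS0 : 0 < S := by exact_mod_cast hSr
  have hNs : s + ∑ a, N a = S := by
    rw [← hS, ← Finset.sum_fiberwise_of_maps_to (t := univ) (g := f) (fun _ _ => mem_univ _),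
      Fintype.sum_option]
  -- number of classes
  have hcardJ : (Fintype.card J : ℝ) ≤ Λ := by
    have h1 : (Fintype.card J : ℝ) * (S / Λ) ≤ S := by
      calc (Fintype.card J : ℝ) * (S / Λ) = ∑ _a : J, (S : ℝ) / Λ := by simp
        _ ≤ ∑ a, (N a : ℝ) := Finset.sum_le_sum fun a _ => hge a
        _ ≤ (S : ℝ) := by
          have : ∑ a, N a ≤ S := by omega
          exact_mod_cast this
    rw [mul_div_assoc', div_le_iff₀ (by linarith)] at h1
    exact le_of_mul_le_mul_right (by linarith) hSr
  have hbig' : 26 * Λ ^ 3 ≤ S * ε := (div_le_iff₀ hε0).1 hbig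
  have hN0 : ∀ a, 0 < N a := fun a => by
    have h1 : (0 : ℝ) < N a := lt_of_lt_of_le (by positivity) (hge a)
    exact_mod_cast h1
  have hΛS : Λ ≤ S := by
    have h6 : Λ ≤ Λ ^ 3 := by
      calc Λ = Λ ^ 1 := (pow_one _).symm
        _ ≤ Λ ^ 3 := pow_le_pow_right₀ hΛ (by norm_num)
    nlinarith
  have hmixpre : 26 * Λ ≤ ε / S * (((S : ℝ) / Λ) * (S / Λ)) := by
    have e : ε / S * (((S : ℝ) / Λ) * (S / Λ)) = (1 / Λ ^ 2) * (S * ε) := by field_simp
    rw [e]
    have h4 : 1 / Λ ^ 2 * (26 * Λ ^ 3) ≤ 1 / Λ ^ 2 * (S * ε) :=
      mul_le_mul_of_nonneg_left hbig' (by positivity)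
    have e2 : 1 / Λ ^ 2 * (26 * Λ ^ 3) = 26 * Λ := by
      field_simp
    linarith
  have hΛ26 : 2 * (2 * (Λ + 1) + 9) ≤ 26 * Λ := by linarith
  have hpair : ∀ a b, 26 * Λ ≤ ε / S * ((N a : ℝ) * N b) := by
    intro a b
    refine hmixpre.trans (mul_le_mul_of_nonneg_left ?_ (by positivity))
    exact mul_le_mul (hge a) (hge b) (by positivity) (Nat.cast_nonneg _)
  have hNbig : ∀ a b d, 2 * (2 * (Λ + 1) + 9) ≤ ε / S * ((N a : ℝ) * N b * N d) := by
    intro a b d
    have h1 : (1 : ℝ) ≤ N d := by exact_mod_cast hN0 d
    have h2 := hpair a b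
    have h3 : 0 ≤ ε / S * ((N a : ℝ) * N b) := by positivity
    have h4 : ε / S * ((N a : ℝ) * N b) * 1 ≤ ε / S * ((N a : ℝ) * N b) * N d :=
      mul_le_mul_of_nonneg_left h1 h3
    have h5 : ε / S * ((N a : ℝ) * N b * N d) = ε / S * ((N a : ℝ) * N b) * N d := by ring
    rw [h5]
    linarith
  -- realizability of the coarse family
  have hcoarse : Realizable (Sum.elim N (fun k : {i // f i = none} => n k.1)) := by
    rcases Nat.eq_zero_or_pos s with hs0 | hs0
    · -- no rest
      have hnone : ∀ i, f i ≠ none := by
        intro i hi
        have h1 : n i ≤ s := Finset.single_le_sum (f := n) (fun i _ => Nat.zero_le _)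
          (by simp [hi])
        have := hn i
        omega
      have hemp : IsEmpty {i // f i = none} := ⟨fun k => hnone k.1 k.2⟩
      have hc5 : 5 ≤ Fintype.card J := by
        rcases hcard5 with ⟨i, hi⟩ | h5
        · exact absurd hi (hnone i)
        · exact h5
      refine Realizable.reindex (Equiv.sumEmpty J {i // f i = none}).symm ?_
      show Realizable N
      rw [hs0] at hy hyl
      simp only [Nat.cast_zero] at hy hyl
      have hy0 : ∀ a b d, 0 ≤ y a b d := by
        intro a b d
        by_cases hD : Dist3 a b d
        · refine le_trans ?_ (hyl a b d hD.1 hD.2.1 hD.2.2)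
          have hk : ∀ a : Option J, 0 ≤ a.elim (0 : ℝ) fun a => (N a : ℝ) := by
            rintro (_ | a)
            · exact le_rfl
            · exact Nat.cast_nonneg _
          have := hk a
          have := hk b
          have := hk d
          positivity
        · unfold Dist3 at hD
          by_cases h1 : a = b
          · subst h1
            rw [hy.off12]
          · by_cases h2 : b = d
            · subst h2
              rw [hy.off23]
            · have h3 : a = d := by
                by_contra h3
                exact hD ⟨h1, h2, h3⟩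
              subst h3
              rw [hy.off13]
      have z3 : ∀ a b : J, a ≠ b → y (some a) (some b) none = 0 := by
        intro a b hab
        have h1 := hy.s2 (some a) none (by simp)
        simp only [Option.elim, mul_zero] at h1
        exact (Finset.sum_eq_zero_iff_of_nonneg fun b _ => hy0 _ _ _).1 h1 (some b) (mem_univ _)
      have z2 : ∀ a b : J, a ≠ b → y (some a) none (some b) = 0 := by
        intro a b hab
        have h1 := hy.s3 (some a) none (by simp)
        simp only [Option.elim, mul_zero] at h1
        exact (Finset.sum_eq_zero_iff_of_nonneg fun b _ => hy0 _ _ _).1 h1 (some b) (mem_univ _)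
      have z1 : ∀ a b : J, a ≠ b → y none (some a) (some b) = 0 := by
        intro a b hab
        have h1 := hy.s3 none (some a) (by simp)
        simp only [Option.elim, zero_mul] at h1
        exact (Finset.sum_eq_zero_iff_of_nonneg fun b _ => hy0 _ _ _).1 h1 (some b) (mem_univ _)
      obtain ⟨x, hx, -⟩ := round3 hc5 N (fun a b d => y (some a) (some b) (some d))
        ⟨fun a c => hy.off12 _ _, fun a b => hy.off23 _ _, fun a b => hy.off13 _ _,
          fun a b hab => by
            have h1 := hy.s3 (some a) (some b) (by simpa using hab)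
            rw [Fintype.sum_option, z3 a b hab, zero_add] at h1
            exact h1,
          fun a c hac => by
            have h1 := hy.s2 (some a) (some c) (by simpa using hac)
            rw [Fintype.sum_option, z2 a c hac, zero_add] at h1
            exact h1,
          fun b c hbc => by
            have h1 := hy.s1 (some b) (some c) (by simpa using hbc)
            rw [Fintype.sum_option, z1 b c hbc, zero_add] at h1
            exact h1⟩
        fun a b d h1 h2 h3 => by
          have h4 := hyl (some a) (some b) (some d) (by simpa using h1) (by simpa using h2)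
            (by simpa using h3)
          have h5 := hNbig a b d
          simp only [Option.elim] at h4
          linarith
      exact Realizable.of_outline N hN0 x hx
    · -- with rest
      have hs1 : (1 : ℝ) ≤ s := by exact_mod_cast hs0
      let N' : Option J → ℕ := fun a => a.elim s N
      have hN'r : (fun a : Option J => (N' a : ℝ)) = fun a => a.elim (s : ℝ) fun a => (N a : ℝ) := by
        funext a
        rcases a with _ | a <;> rfl
      have hcardO : (Fintype.card (Option J) : ℝ) ≤ Λ + 1 := by
        rw [Fintype.card_option]
        push_cast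
        linarith
      have hc5 : 5 ≤ Fintype.card (Option J) := by
        rw [Fintype.card_option]
        omega
      have hy' : IsOutline (fun a : Option J => (N' a : ℝ)) y := by
        rw [hN'r]
        exact hy
      have hyl' : ∀ a b d : Option J, a ≠ b → b ≠ d → a ≠ d →
          ε / S * ((N' a : ℝ) * N' b * N' d) ≤ y a b d := by
        intro a b d h1 h2 h3
        refine le_trans (le_of_eq ?_) (hyl a b d h1 h2 h3)
        have e : ∀ a : Option J, (N' a : ℝ) = a.elim (s : ℝ) fun a => (N a : ℝ) := fun a =>
          congrFun hN'r a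
        rw [e a, e b, e d]
      -- slack for triples with the rest class
      have hmix : ∀ a b : J, 2 * (2 * (Λ + 1) + 9) ≤ ε / S * ((s : ℝ) * N a * N b) := by
        intro a b
        have h2 := hpair a b
        have h3 : 0 ≤ ε / S * ((N a : ℝ) * N b) := by positivity
        have h4 : ε / S * ((N a : ℝ) * N b) * 1 ≤ ε / S * ((N a : ℝ) * N b) * s :=
          mul_le_mul_of_nonneg_left hs1 h3
        have h5 : ε / S * ((s : ℝ) * N a * N b) = ε / S * ((N a : ℝ) * N b) * s := by ring
        rw [h5]
        linarith
      have hsl : ∀ a b d : Option J, a ≠ b → b ≠ d → a ≠ d → 2 * (2 * (Λ + 1) + 9) ≤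
          ε / S * ((N' a : ℝ) * N' b * N' d) := by
        intro a b d hab hbd had
        rcases a with _ | a <;> rcases b with _ | b <;> rcases d with _ | d
        · exact absurd rfl hab
        · exact absurd rfl hab
        · exact absurd rfl had
        · exact hmix b d
        · exact absurd rfl hbd
        · refine (hmix a d).trans (le_of_eq ?_)
          simp only [N', Option.elim]
          ring
        · refine (hmix a b).trans (le_of_eq ?_)
          simp only [N', Option.elim]
          ring
        · exact hNbig a b d
      obtain ⟨x, hx, hxl⟩ := round3 hc5 N' y hy' fun a b d h1 h2 h3 => by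
        have h4 := hyl' a b d h1 h2 h3
        have h5 := hsl a b d h1 h2 h3
        linarith
      have hsK : ∑ k : {i // f i = none}, n k.1 = s := by
        rw [hsdef]
        exact (Finset.sum_subtype _ (fun i => by simp) _).symm
      have hsS : (s : ℝ) * S ≤ ε / 2 * h ^ 2 := (le_div_iff₀ hSr).1 hs
      -- the corner entries
      have hcorner : ∀ a b : J, h ≤ N a → h ≤ N b → ((s * s : ℕ) : ℝ) ≤
          ε / S * ((s : ℝ) * N a * N b) - (2 * Fintype.card (Option J) + 9) := by
        intro a b ha hb
        have h1 : 2 * ((s : ℝ) * s) ≤ ε / S * ((s : ℝ) * N a * N b) := by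
          have e : ε / S * ((s : ℝ) * N a * N b) = s * (ε * ((N a : ℝ) * N b)) / S := by
            field_simp
          rw [e, le_div_iff₀ hSr]
          have h2 : h ^ 2 ≤ (N a : ℝ) * N b := by
            rw [pow_two]
            exact mul_le_mul ha hb h0.le (Nat.cast_nonneg _)
          have h3 : (s : ℝ) * S ≤ ε / 2 * ((N a : ℝ) * N b) :=
            hsS.trans (mul_le_mul_of_nonneg_left h2 (by positivity))
          have h4 := mul_le_mul_of_nonneg_left h3 (by linarith : (0 : ℝ) ≤ s)
          linarith
        have h2 := hmix a b
        push_cast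
        linarith
      obtain ⟨x', hx'⟩ := refine_class N (fun k : {i // f i = none} => n k.1) x (by
          rw [hsK]
          exact hx) u v w huv hvw huw (by
          rw [hsK]
          have h1 := hxl none (some v) (some w) (by simp) (by simpa using hvw) (by simp)
          have h1' := hyl' none (some v) (some w) (by simp) (by simpa using hvw) (by simp)
          have h2 := hcorner v w hv hw
          simp only [N', Option.elim] at h1'
          have h3 : ((s * s : ℕ) : ℝ) ≤ x none (some v) (some w) := by
            refine h2.trans (le_trans ?_ h1)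
            linarith
          exact_mod_cast h3) (by
          rw [hsK]
          have h1 := hxl (some u) none (some w) (by simp) (by simp) (by simpa using huw)
          have h1' := hyl' (some u) none (some w) (by simp) (by simp) (by simpa using huw)
          have h2 := hcorner u w hu hw
          simp only [N', Option.elim] at h1'
          have h3 : ((s * s : ℕ) : ℝ) ≤ x (some u) none (some w) := by
            refine h2.trans (le_trans ?_ h1)
            linarith
          exact_mod_cast h3) (by
          rw [hsK]
          have h1 := hxl (some u) (some v) none (by simpa using huv) (by simp) (by simp)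
          have h1' := hyl' (some u) (some v) none (by simpa using huv) (by simp) (by simp)
          have h2 := hcorner u v hu hv
          simp only [N', Option.elim] at h1'
          have h3 : ((s * s : ℕ) : ℝ) ≤ x (some u) (some v) none := by
            refine h2.trans (le_trans ?_ h1)
            linarith
          exact_mod_cast h3)
      refine Realizable.of_outline _ ?_ x' hx'
      rintro (a | k)
      · exact hN0 a
      · exact hn k.1
  -- merge
  let φ : I → J ⊕ {i // f i = none} := fun i =>
    if hi : f i = none then Sum.inr ⟨i, hi⟩ else Sum.inl ((f i).get (Option.ne_none_iff_isSome.1 hi))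
  have hφ1 : ∀ i a, φ i = Sum.inl a ↔ f i = some a := by
    intro i a
    simp only [φ]
    by_cases hi : f i = none
    · rw [dif_pos hi, hi]
      simp
    · rw [dif_neg hi, Sum.inl.injEq]
      constructor
      · intro h1
        rw [← h1, Option.some_get]
      · intro h1
        simp [h1]
  have hφ2 : ∀ i k, φ i = Sum.inr k ↔ i = k.1 := by
    intro i k
    simp only [φ]
    by_cases hi : f i = none
    · rw [dif_pos hi]
      constructor
      · intro h1
        exact congrArg Subtype.val (Sum.inr_injective h1)
      · rintro rfl
        rfl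
    · rw [dif_neg hi]
      constructor
      · intro h1
        exact absurd h1 (by simp)
      · rintro rfl
        exact absurd k.2 hi
  refine Realizable.merge hn φ ?_ ?_
  · have he : (fun a : J ⊕ {i // f i = none} => ∑ i ∈ univ.filter (fun i => φ i = a), n i) =
        Sum.elim N (fun k : {i // f i = none} => n k.1) := by
      funext a
      rcases a with a | k
      · simp only [Sum.elim_inl, hφ1, hN]
      · simp only [Sum.elim_inr, hφ2]
        rw [Finset.filter_eq' univ k.1, if_pos (mem_univ _), Finset.sum_singleton]
    rw [he]
    exact hcoarse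
  · rintro (a | k)
    · exact realizable_congr n (fun i => (hφ1 i a).symm) (hgrp a)
    · have : Unique {i // φ i = Sum.inr k} :=
        { default := ⟨k.1, (hφ2 _ _).2 rfl⟩
          uniq := fun i => Subtype.ext ((hφ2 _ _).1 i.2) }
      exact realizable_unique fun i => hn i.1

end Pool.Agent.MP_dd827d_co
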