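import Pool.Agent.Lib.MP_dd827d_co.Classes

/-!
All large partitions with parts at most `(1/4 - ε) n` are realizable.
-/

namespace Pool.Agent.MP_dd827d_co

open Finset Function

section
variable {I : Type} [Fintype I] [DecidableEq I] (n : I → ℕ)

theorem sum_of_iff_eq {p : I → Prop} [DecidablePred p] (i : I) (h : ∀ j, p j ↔ j = i) :
    ∑ j ∈ univ.filter p, n j = n i := by
  have : univ.filter p = {i} := by
    ext j
    simp [h]
  rw [this, Finset.sum_singleton]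

omit [DecidableEq I] in
theorem realizable_of_iff_eq (hn : ∀ i, 0 < n i) {p : I → Prop} [DecidablePred p] (i : I)
    (h : ∀ j, p j ↔ j = i) : Realizable (fun j : {j // p j} => n j.1) := by
  have : Unique {j // p j} :=
    { default := ⟨i, (h i).2 rfl⟩
      uniq := fun j => Subtype.ext ((h j.1).1 j.2) }
  exact realizable_unique fun j => hn j.1

/-- Few large parts. -/
theorem quarter_few (hn : ∀ i, 0 < n i) (ε : ℝ) (hε0 : 0 < ε) (hε : ε ≤ 1 / 16) (S : ℕ)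
    (hS : ∑ i, n i = S) (hle : ∀ i, (n i : ℝ) ≤ (1 / 4 - ε) * S) (L : ℕ) (hL : S + 1 < 2 ^ L)
    (Λ : ℝ) (hΛ : 3000 * ((L : ℝ) * L) / ε ^ 2 = Λ) (hL1 : 1 ≤ L)
    (hbig : 117 * Λ ^ 3 / ε ^ 2 ≤ S)
    (hfew : (univ.filter fun i => (S : ℝ) / Λ ≤ n i).card ≤ 2) : Realizable n := by
  classical
  have hε2 : 0 < ε ^ 2 := by positivity
  have hε2' : ε ^ 2 ≤ 1 / 256 := by nlinarith
  have hK : (1 : ℝ) ≤ (L : ℝ) * L := by
    have : (1 : ℝ) ≤ L := by exact_mod_cast hL1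
    nlinarith
  have hΛ1 : 3000 ≤ Λ := by
    rw [← hΛ, le_div_iff₀ hε2]
    nlinarith
  have hΛ0 : 0 < Λ := by linarith
  have hKS : ((L : ℝ) * L) * (S / Λ) = ε ^ 2 * S / 3000 := by
    rw [← hΛ]
    field_simp
  have hSΛ : Λ ≤ S := by
    refine le_trans ?_ hbig
    rw [le_div_iff₀ hε2]
    have h1 : Λ ≤ Λ ^ 3 := by
      calc Λ = Λ ^ 1 := (pow_one _).symm
        _ ≤ Λ ^ 3 := pow_le_pow_right₀ (by linarith) (by norm_num)
    nlinarith
  have hSr : (3000 : ℝ) ≤ S := by linarith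
  have hS0 : (0 : ℝ) < S := by linarith
  set D : Finset I := univ.filter fun i => ¬ (S : ℝ) / Λ ≤ n i with hD
  have hmD : ∀ i, i ∉ D ↔ (S : ℝ) / Λ ≤ n i := fun i => by simp [hD]
  have hsplit : ∑ i ∈ univ.filter (fun i => (S : ℝ) / Λ ≤ n i), n i + ∑ i ∈ D, n i = S := by
    rw [hD, ← hS]
    exact Finset.sum_filter_add_sum_filter_not univ _ _
  have hH : ((∑ i ∈ univ.filter (fun i => (S : ℝ) / Λ ≤ n i), n i : ℕ) : ℝ) ≤ S / 2 := by
    push_cast
    calc ∑ i ∈ univ.filter (fun i => (S : ℝ) / Λ ≤ n i), (n i : ℝ)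
        ≤ ∑ _i ∈ univ.filter (fun i => (S : ℝ) / Λ ≤ n i), ((S : ℝ) / 4) :=
          Finset.sum_le_sum fun i _ => (hle i).trans (by nlinarith)
      _ = ((univ.filter (fun i => (S : ℝ) / Λ ≤ n i)).card : ℝ) * (S / 4) := by
          rw [Finset.sum_const, nsmul_eq_mul]
      _ ≤ 2 * (S / 4) := by
          have : ((univ.filter (fun i => (S : ℝ) / Λ ≤ n i)).card : ℝ) ≤ 2 := by
            exact_mod_cast hfew
          exact mul_le_mul_of_nonneg_right this (by positivity)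
      _ = S / 2 := by ring
  have hDmass : (S : ℝ) / 2 ≤ ((∑ i ∈ D, n i : ℕ) : ℝ) := by
    have h1 : ((∑ i ∈ univ.filter (fun i => (S : ℝ) / Λ ≤ n i), n i : ℕ) : ℝ) +
      ((∑ i ∈ D, n i : ℕ) : ℝ) = S := by exact_mod_cast hsplit
    linarith
  set T : ℕ := ⌊(S : ℝ) / Λ⌋₊ with hT
  have hTle : (T : ℝ) ≤ S / Λ := Nat.floor_le (by positivity)
  set A : ℕ := S / 16 with hA
  have hA1 : (A : ℝ) ≤ S / 16 := by
    rw [le_div_iff₀ (by norm_num)]
    have : A * 16 ≤ S := by omega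
    exact_mod_cast this
  have hA2 : (S : ℝ) / 17 ≤ A := by
    have h1 : S ≤ 16 * A + 15 := by omega
    have h2 : (S : ℝ) ≤ 16 * A + 15 := by exact_mod_cast h1
    rw [div_le_iff₀ (by norm_num)]
    linarith
  have hKT : ((L * L * T : ℕ) : ℝ) ≤ ε ^ 2 * S / 3000 := by
    rw [← hKS]
    push_cast
    exact mul_le_mul_of_nonneg_left hTle (by positivity)
  have hKTA : L * L * T ≤ A := by
    have : ((L * L * T : ℕ) : ℝ) ≤ A := by
      refine hKT.trans (le_trans ?_ hA2)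
      nlinarith
    exact_mod_cast this
  have hA0 : 0 < A := by
    have : (0 : ℝ) < A := lt_of_lt_of_le (by positivity) hA2
    exact_mod_cast this
  obtain ⟨ρ, _, _, f, f1, f2, f3, f4, f5, f6⟩ := exists_classes n hn L S T A hL hS.le D
    (fun i hi => Nat.le_floor (by
      have : ¬ (S : ℝ) / Λ ≤ n i := fun h => (hmD i).2 h hi
      exact (not_le.1 this).le)) hKTA hA0
  have hs : ((∑ i ∈ univ.filter (fun i => f i = none), n i : ℕ) : ℝ) ≤ ε ^ 2 * S / 3000 :=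
    le_trans (by exact_mod_cast f4) hKT
  have h3A : ∀ p, ((∑ i ∈ univ.filter (fun i => f i = some (Sum.inr p)), n i : ℕ) : ℝ) ≤
      3 * S / 16 := by
    intro p
    have h1 : ((∑ i ∈ univ.filter (fun i => f i = some (Sum.inr p)), n i : ℕ) : ℝ) ≤
      ((3 * A : ℕ) : ℝ) := by exact_mod_cast f3 p
    push_cast at h1 ⊢
    linarith
  have hpA : ∀ p, (S : ℝ) / 17 ≤
      ((∑ i ∈ univ.filter (fun i => f i = some (Sum.inr p)), n i : ℕ) : ℝ) := by
    intro p
    rcases f5 p with h | h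
    · refine hA2.trans ?_
      exact_mod_cast h
    · exfalso
      have h1 : ((∑ i ∈ univ.filter (fun i => f i = some (Sum.inr p)), n i : ℕ) : ℝ) +
          ((∑ i ∈ univ.filter (fun i => f i = none), n i : ℕ) : ℝ) =
          ((∑ i ∈ D, n i : ℕ) : ℝ) := by exact_mod_cast h
      have h2 := h3A p
      nlinarith
  have hcard : 2 < Fintype.card ρ := by
    by_contra hcon
    push Not at hcon
    have h1 : ((∑ p, ∑ i ∈ univ.filter (fun i => f i = some (Sum.inr p)), n i : ℕ) : ℝ) +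
        ((∑ i ∈ univ.filter (fun i => f i = none), n i : ℕ) : ℝ) =
        ((∑ i ∈ D, n i : ℕ) : ℝ) := by exact_mod_cast f6
    have h2 : ((∑ p, ∑ i ∈ univ.filter (fun i => f i = some (Sum.inr p)), n i : ℕ) : ℝ) ≤
        2 * (3 * S / 16) := by
      rw [Nat.cast_sum]
      calc ∑ p, ((∑ i ∈ univ.filter (fun i => f i = some (Sum.inr p)), n i : ℕ) : ℝ)
          ≤ ∑ _p : ρ, (3 * (S : ℝ) / 16) := Finset.sum_le_sum fun p _ => h3A p
        _ = (Fintype.card ρ : ℝ) * (3 * S / 16) := by simp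
        _ ≤ 2 * (3 * S / 16) := by
          have : (Fintype.card ρ : ℝ) ≤ 2 := by exact_mod_cast hcon
          exact mul_le_mul_of_nonneg_right this (by positivity)
    nlinarith
  obtain ⟨p1, p2, p3, h12, h13, h23⟩ := Fintype.two_lt_card_iff.1 hcard
  refine core n hn f ε Λ (S / 17) hε0 (by linarith) (by linarith) (by positivity) S hS ?_ ?_ ?_
    (Sum.inr p1) (Sum.inr p2) (Sum.inr p3) (by simpa using h12) (by simpa using h23)
    (by simpa using h13) (hpA p1) (hpA p2) (hpA p3) ?_ hbig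
  · rintro (i | p)
    · exact realizable_of_iff_eq n hn i.1 (f1 i)
    · exact f2 p
  · rintro (i | p)
    · rw [sum_of_iff_eq n i.1 (f1 i)]
      exact hle i.1
    · refine (h3A p).trans ?_
      have h2 := mul_le_mul_of_nonneg_right (show (3 / 16 : ℝ) ≤ 1 / 4 - ε by linarith) hS0.le
      linarith
  · rintro (i | p)
    · rw [sum_of_iff_eq n i.1 (f1 i)]
      exact (hmD i.1).1 i.2
    · refine le_trans ?_ (hpA p)
      exact div_le_div_of_nonneg_left hS0.le (by norm_num) (by linarith)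
  · refine hs.trans ?_
    rw [le_div_iff₀ hS0]
    have e1 : ε ^ 2 / 9 * ((S : ℝ) / 17) ^ 2 = ε ^ 2 * ((S : ℝ) * S) / 2601 := by ring
    have e2 : ε ^ 2 * (S : ℝ) / 3000 * S = ε ^ 2 * ((S : ℝ) * S) / 3000 := by ring
    have h1 := mul_pos hε2 (mul_pos hS0 hS0)
    rw [e1, e2]
    linarith

/-- At least three large parts. -/
theorem quarter_many (hn : ∀ i, 0 < n i) (ε : ℝ) (hε0 : 0 < ε) (hε : ε ≤ 1 / 16) (S : ℕ)
    (hS : ∑ i, n i = S) (hle : ∀ i, (n i : ℝ) ≤ (1 / 4 - ε) * S) (L : ℕ) (hL : S + 1 < 2 ^ L)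
    (Λ Λ' : ℝ) (hΛ : 3000 * ((L : ℝ) * L) / ε ^ 2 = Λ) (hΛ' : 18 * ((L : ℝ) * L) * Λ ^ 2 / ε ^ 2 = Λ')
    (hL1 : 1 ≤ L) (hbig : 117 * Λ' ^ 3 / ε ^ 2 ≤ S)
    (hmany : 2 < (univ.filter fun i => (S : ℝ) / Λ ≤ n i).card) : Realizable n := by
  classical
  have hε2 : 0 < ε ^ 2 := by positivity
  have hε2' : ε ^ 2 ≤ 1 / 256 := by nlinarith
  have hK : (1 : ℝ) ≤ (L : ℝ) * L := by
    have : (1 : ℝ) ≤ L := by exact_mod_cast hL1
    nlinarith
  have hΛ1 : 3000 ≤ Λ := by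
    rw [← hΛ, le_div_iff₀ hε2]
    nlinarith
  have hΛ0 : 0 < Λ := by linarith
  have hΛ2 : 18 * Λ ^ 2 / ε ^ 2 ≤ Λ' := by
    rw [← hΛ']
    refine div_le_div_of_nonneg_right ?_ hε2.le
    nlinarith [sq_nonneg Λ]
  have hΛ3 : Λ ≤ Λ' := by
    refine le_trans ?_ hΛ2
    rw [le_div_iff₀ hε2]
    nlinarith
  have hΛ'0 : 0 < Λ' := by linarith
  have hKS : ((L : ℝ) * L) * (S / Λ') = ε ^ 2 * S / (18 * Λ ^ 2) := by
    rw [← hΛ']
    field_simp
  have hSΛ : Λ' ≤ S := by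
    refine le_trans ?_ hbig
    rw [le_div_iff₀ hε2]
    have h1 : Λ' ≤ Λ' ^ 3 := by
      calc Λ' = Λ' ^ 1 := (pow_one _).symm
        _ ≤ Λ' ^ 3 := pow_le_pow_right₀ (by linarith) (by norm_num)
    nlinarith
  have hSr : (3000 : ℝ) ≤ S := by linarith
  have hS0 : (0 : ℝ) < S := by linarith
  set D : Finset I := univ.filter fun i => ¬ (S : ℝ) / Λ' ≤ n i with hD
  have hmD : ∀ i, i ∉ D ↔ (S : ℝ) / Λ' ≤ n i := fun i => by simp [hD]
  obtain ⟨u, hu, v, hv, w, hw, huv, huw, hvw⟩ := Finset.two_lt_card.1 hmany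
  simp only [mem_filter, mem_univ, true_and] at hu hv hw
  have hmono : (S : ℝ) / Λ' ≤ S / Λ := div_le_div_of_nonneg_left hS0.le hΛ0 hΛ3
  have huD : u ∉ D := (hmD u).2 (hmono.trans hu)
  have hvD : v ∉ D := (hmD v).2 (hmono.trans hv)
  have hwD : w ∉ D := (hmD w).2 (hmono.trans hw)
  have hΘ : ε ^ 2 / 9 * ((S : ℝ) / Λ) ^ 2 / S = ε ^ 2 * S / (9 * Λ ^ 2) := by
    field_simp
  by_cases hDm : ((∑ i ∈ D, n i : ℕ) : ℝ) ≤ ε ^ 2 * S / (9 * Λ ^ 2)
  · -- small total mass of the small parts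
    let f : I → Option {i // i ∉ D} := fun i => if hi : i ∉ D then some ⟨i, hi⟩ else none
    have f1 : ∀ (i : {i // i ∉ D}) j, f j = some i ↔ j = i.1 := by
      intro i j
      simp only [f]
      by_cases hj : j ∈ D
      · rw [dif_neg (not_not.2 hj)]
        constructor
        · intro h
          exact absurd h (by simp)
        · intro h
          exact absurd (h ▸ hj) i.2
      · rw [dif_pos hj]
        constructor
        · intro h
          exact congrArg Subtype.val (Option.some_injective _ h)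
        · rintro rfl
          rfl
    have fn : ∀ i, f i = none ↔ i ∈ D := by
      intro i
      simp only [f]
      by_cases hi : i ∈ D
      · rw [dif_neg (not_not.2 hi)]
        simp [hi]
      · rw [dif_pos hi]
        simp [hi]
    have hfn : univ.filter (fun i => f i = none) = D := by
      ext i
      simp [fn]
    refine core n hn f ε Λ' (S / Λ) hε0 (by linarith) (by linarith) (by positivity) S hS ?_ ?_ ?_
      ⟨u, huD⟩ ⟨v, hvD⟩ ⟨w, hwD⟩ (by simpa using huv) (by simpa using hvw)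
      (by simpa using huw) ?_ ?_ ?_ ?_ hbig
    · exact fun i => realizable_of_iff_eq n hn i.1 (f1 i)
    · intro i
      rw [sum_of_iff_eq n i.1 (f1 i)]
      exact hle i.1
    · intro i
      rw [sum_of_iff_eq n i.1 (f1 i)]
      exact (hmD i.1).1 i.2
    · rw [sum_of_iff_eq n u (f1 ⟨u, huD⟩)]
      exact hu
    · rw [sum_of_iff_eq n v (f1 ⟨v, hvD⟩)]
      exact hv
    · rw [sum_of_iff_eq n w (f1 ⟨w, hwD⟩)]
      exact hw
    · rw [hfn, hΘ]
      exact hDm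
  · push Not at hDm
    set T : ℕ := ⌊(S : ℝ) / Λ'⌋₊ with hT
    have hTle : (T : ℝ) ≤ S / Λ' := Nat.floor_le (by positivity)
    set A : ℕ := S / 16 with hA
    have hA1 : (A : ℝ) ≤ S / 16 := by
      rw [le_div_iff₀ (by norm_num)]
      have : A * 16 ≤ S := by omega
      exact_mod_cast this
    have hA2 : (S : ℝ) / 17 ≤ A := by
      have h1 : S ≤ 16 * A + 15 := by omega
      have h2 : (S : ℝ) ≤ 16 * A + 15 := by exact_mod_cast h1
      rw [div_le_iff₀ (by norm_num)]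
      linarith
    have hKT : ((L * L * T : ℕ) : ℝ) ≤ ε ^ 2 * S / (18 * Λ ^ 2) := by
      rw [← hKS]
      push_cast
      exact mul_le_mul_of_nonneg_left hTle (by positivity)
    have hsmall : ε ^ 2 * S / (18 * Λ ^ 2) ≤ S / 17 := by
      rw [div_le_div_iff₀ (by positivity) (by norm_num)]
      have h1 : (1 : ℝ) ≤ Λ ^ 2 := by nlinarith
      nlinarith
    have hKTA : L * L * T ≤ A := by
      have : ((L * L * T : ℕ) : ℝ) ≤ A := hKT.trans (hsmall.trans hA2)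
      exact_mod_cast this
    have hA0 : 0 < A := by
      have : (0 : ℝ) < A := lt_of_lt_of_le (by positivity) hA2
      exact_mod_cast this
    obtain ⟨ρ, _, _, f, f1, f2, f3, f4, f5, f6⟩ := exists_classes n hn L S T A hL hS.le D
      (fun i hi => Nat.le_floor (by
        have : ¬ (S : ℝ) / Λ' ≤ n i := fun h => (hmD i).2 h hi
        exact (not_le.1 this).le)) hKTA hA0
    have hs : ((∑ i ∈ univ.filter (fun i => f i = none), n i : ℕ) : ℝ) ≤
        ε ^ 2 * S / (18 * Λ ^ 2) := le_trans (by exact_mod_cast f4) hKT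
    have hhalf : ε ^ 2 * (S : ℝ) / (9 * Λ ^ 2) = 2 * (ε ^ 2 * S / (18 * Λ ^ 2)) := by
      field_simp
      ring
    have hΛS : (S : ℝ) / Λ' ≤ ε ^ 2 * S / (18 * Λ ^ 2) := by
      rw [← hKS]
      have h1 : 0 ≤ (S : ℝ) / Λ' := by positivity
      calc (S : ℝ) / Λ' = 1 * (S / Λ') := (one_mul _).symm
        _ ≤ ((L : ℝ) * L) * (S / Λ') := mul_le_mul_of_nonneg_right hK h1
    refine core n hn f ε Λ' (S / Λ) hε0 (by linarith) (by linarith) (by positivity) S hS ?_ ?_ ?_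
      (Sum.inl ⟨u, huD⟩) (Sum.inl ⟨v, hvD⟩) (Sum.inl ⟨w, hwD⟩) (by simpa using huv)
      (by simpa using hvw) (by simpa using huw) ?_ ?_ ?_ ?_ hbig
    · rintro (i | p)
      · exact realizable_of_iff_eq n hn i.1 (f1 i)
      · exact f2 p
    · rintro (i | p)
      · rw [sum_of_iff_eq n i.1 (f1 i)]
        exact hle i.1
      · have h1 : ((∑ i ∈ univ.filter (fun i => f i = some (Sum.inr p)), n i : ℕ) : ℝ) ≤
          ((3 * A : ℕ) : ℝ) := by exact_mod_cast f3 p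
        have h2 := mul_le_mul_of_nonneg_right (show (3 / 16 : ℝ) ≤ 1 / 4 - ε by linarith) hS0.le
        push_cast at h1 ⊢
        linarith
    · rintro (i | p)
      · rw [sum_of_iff_eq n i.1 (f1 i)]
        exact (hmD i.1).1 i.2
      · refine hΛS.trans ?_
        rcases f5 p with h | h
        · refine hsmall.trans (hA2.trans ?_)
          exact_mod_cast h
        · have h1 : ((∑ i ∈ univ.filter (fun i => f i = some (Sum.inr p)), n i : ℕ) : ℝ) +
              ((∑ i ∈ univ.filter (fun i => f i = none), n i : ℕ) : ℝ) =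
              ((∑ i ∈ D, n i : ℕ) : ℝ) := by exact_mod_cast h
          linarith
    · rw [sum_of_iff_eq n u (f1 ⟨u, huD⟩)]
      exact hu
    · rw [sum_of_iff_eq n v (f1 ⟨v, hvD⟩)]
      exact hv
    · rw [sum_of_iff_eq n w (f1 ⟨w, hwD⟩)]
      exact hw
    · rw [hΘ]
      have h1 : 0 ≤ ε ^ 2 * (S : ℝ) / (18 * Λ ^ 2) := by positivity
      linarith

end

/-- **Quarter theorem.** -/
theorem quarter (ε : ℝ) (hε : 0 < ε) : ∃ n₀ : ℕ, ∀ (I : Type) [Fintype I] (n : I → ℕ),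
    (∀ i, 0 < n i) → n₀ ≤ ∑ i, n i → (∀ i, (n i : ℝ) ≤ (1 / 4 - ε) * ((∑ j, n j : ℕ) : ℝ)) →
    Realizable n := by
  classical
  -- reduce to small `ε`
  wlog hε' : ε ≤ 1 / 16 with H
  · obtain ⟨n₀, h⟩ := H (1 / 16) (by norm_num) le_rfl
    refine ⟨n₀, fun I _ n hn h0 hle => h I n hn h0 fun i => (hle i).trans ?_⟩
    push Not at hε'
    exact mul_le_mul_of_nonneg_right (by linarith) (Nat.cast_nonneg _)
  have hε2 : 0 < ε ^ 2 := by positivity
  set C : ℝ := 117 * (18 * (3000 / ε ^ 2) ^ 2 / ε ^ 2) ^ 3 / ε ^ 2 with hC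
  have hlim := tendsto_pow_const_div_const_pow_of_one_lt 18 (one_lt_two : (1 : ℝ) < 2)
  have hev : ∀ᶠ L : ℕ in Filter.atTop, 4 * C * (L : ℝ) ^ 18 ≤ 2 ^ L := by
    have h1 : ∀ᶠ L : ℕ in Filter.atTop, (L : ℝ) ^ 18 / 2 ^ L < 1 / (4 * C) := by
      refine hlim.eventually_lt_const ?_
      positivity
    filter_upwards [h1] with L hL
    have h2 : 0 < 4 * C := by positivity
    rw [div_lt_div_iff₀ (by positivity) h2] at hL
    linarith
  obtain ⟨L0, hL0⟩ := Filter.eventually_atTop.1 hev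
  refine ⟨2 ^ L0, fun I _ n hn h0 hle => ?_⟩
  set S : ℕ := ∑ j, n j with hS
  set L : ℕ := Nat.log 2 S + 2 with hL
  have hSpos : 0 < S := lt_of_lt_of_le (by positivity) h0
  have hlog : L0 ≤ Nat.log 2 S := by
    rw [Nat.le_log_iff_pow_le (by norm_num) hSpos.ne']
    exact h0
  have hSL : 2 ^ (Nat.log 2 S) ≤ S := Nat.pow_log_le_self 2 hSpos.ne'
  have hSL2 : S + 1 < 2 ^ L := by
    have h1 : S < 2 ^ (Nat.log 2 S + 1) := Nat.lt_pow_succ_log_self (by norm_num) S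
    have h2 : 2 ^ L = 2 * 2 ^ (Nat.log 2 S + 1) := by rw [hL]; ring
    omega
  have hbig1 : C * (L : ℝ) ^ 18 ≤ S := by
    have h1 := hL0 L (by omega)
    have h2 : (2 : ℝ) ^ L = 4 * 2 ^ (Nat.log 2 S) := by rw [hL]; ring
    have h3 : (2 : ℝ) ^ (Nat.log 2 S) ≤ S := by exact_mod_cast hSL
    linarith
  have hL1 : 1 ≤ L := by omega
  have hLr : (1 : ℝ) ≤ L := by exact_mod_cast hL1
  have hbig : 117 * (18 * ((L : ℝ) * L) * (3000 * ((L : ℝ) * L) / ε ^ 2) ^ 2 / ε ^ 2) ^ 3 /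
      ε ^ 2 ≤ S := by
    refine le_trans (le_of_eq ?_) hbig1
    rw [hC]
    field_simp
  by_cases hcase : (univ.filter fun i =>
      (S : ℝ) / (3000 * ((L : ℝ) * L) / ε ^ 2) ≤ n i).card ≤ 2
  · refine quarter_few n hn ε hε hε' S rfl hle L hSL2 _ rfl hL1 (le_trans ?_ hbig) hcase
    have hK : (1 : ℝ) ≤ (L : ℝ) * L := by nlinarith
    set Λ : ℝ := 3000 * ((L : ℝ) * L) / ε ^ 2 with hΛ
    have hε2' : ε ^ 2 ≤ 1 / 256 := by nlinarith
    have hΛ1 : 3000 ≤ Λ := by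
      rw [hΛ, le_div_iff₀ hε2]
      nlinarith
    have h1 : Λ ≤ 18 * ((L : ℝ) * L) * Λ ^ 2 / ε ^ 2 := by
      rw [le_div_iff₀ hε2]
      have h2 : Λ ≤ Λ ^ 2 := by nlinarith
      have h3 : Λ ^ 2 ≤ ((L : ℝ) * L) * Λ ^ 2 := by nlinarith [sq_nonneg Λ]
      nlinarith
    have h4 : Λ ^ 3 ≤ (18 * ((L : ℝ) * L) * Λ ^ 2 / ε ^ 2) ^ 3 :=
      pow_le_pow_left₀ (by linarith) h1 3
    exact div_le_div_of_nonneg_right (by linarith) hε2.le
  · push Not at hcase
    exact quarter_many n hn ε hε hε' S rfl hle L hSL2 _ _ rfl rfl hL1 hbig hcase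

end Pool.Agent.MP_dd827d_co
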