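import Pool.Agent.Lib.MP_dd827d_co.SlkB
import Pool.Agent.Lib.MP_dd827d_co.Core3
import Pool.Agent.Lib.MP_dd827d_co.Quarter

/-!
Assembly of the merged classes.
-/

namespace Pool.Agent.MP_dd827d_co

open Finset Function

section gen
variable {J : Type*} [Fintype J] [DecidableEq J]

theorem Slk.mono {N : J → ℝ} (N0 : ∀ j, 0 ≤ N j) {β β' : ℝ} (h : Slk N β) (hβ : β' ≤ β) :
    Slk N β' := by
  intro c hs hd hT
  have h1 := h c hs hd hT
  have h2 : 0 ≤ tri3 (tau c) N N N := tri3_nonneg (tau_nonneg hT) N0 N0 N0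
  have h3 := mul_le_mul_of_nonneg_right hβ h2
  linarith

/-- helpers from a bound on quadruples -/
theorem helpers_ge' (N : J → ℝ) (h0 : ∀ a, 0 ≤ N a) (S : ℝ) (hS : ∑ a, N a = S) (a b : J)
    (t : ℝ) (ht : 0 ≤ t) (hcard : 4 ≤ Fintype.card J)
    (h3 : ∀ x y, x ≠ a → x ≠ b → y ≠ a → y ≠ b → x ≠ y → N a + N b + N x + N y ≤ S - t) :
    t ^ 3 ≤ helpers N a b := by
  have hex1 : ∀ x : J, ∃ y, y ≠ a ∧ y ≠ b ∧ y ≠ x := by
    intro x
    by_contra hcon
    push Not at hcon
    have h1 : (univ : Finset J) ⊆ {a, b, x} := by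
      intro y _
      simp only [mem_insert, mem_singleton]
      by_cases hya : y = a
      · exact Or.inl hya
      · by_cases hyb : y = b
        · exact Or.inr (Or.inl hyb)
        · exact Or.inr (Or.inr (hcon y hya hyb))
    have h2 := Finset.card_le_card h1
    rw [Finset.card_univ] at h2
    have h4 : ({a, b, x} : Finset J).card ≤ 3 := Finset.card_le_three
    omega
  have h2 : ∀ x, x ≠ a → x ≠ b → N a + N b + N x ≤ S - t := by
    intro x hxa hxb
    obtain ⟨y, hya, hyb, hyx⟩ := hex1 x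
    have := h3 x y hxa hxb hya hyb (Ne.symm hyx)
    have := h0 y
    linarith
  refine helpers_ge N h0 S hS a b t ht ?_ h2 h3
  obtain ⟨x, hxa, hxb, -⟩ := hex1 a
  have := h2 x hxa hxb
  have := h0 x
  linarith

end gen

/-- Merging a tiny rest and passing to the primal side. -/
theorem outline_of_slk {K R : Type*} [Fintype K] [DecidableEq K] [Fintype R] [DecidableEq R]
    (N : K → ℝ) (m : R → ℝ) (N0 : ∀ k, 0 < N k) (m0 : ∀ d, 0 ≤ m d)
    (s : ℝ) (hsum : ∑ d, m d = s) (ε S : ℝ) (hε0 : 0 < ε) (hε : ε ≤ 1) (hS0 : 0 < S)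
    (h : Slk (Sum.elim N m) (ε / (6 * S))) (hS : ∑ k, N k + s = S)
    (hcard : 4 ≤ Fintype.card K)
    (h3 : ∀ k x y, x ≠ k → y ≠ k → x ≠ y → s + N k + N x + N y ≤ S - ε * S / 2)
    (hbig : ∀ k, s + s ^ 2 / N k ≤ ε ^ 4 * S / 96) :
    ∃ y : Option K → Option K → Option K → ℝ, IsOutline (fun a : Option K => a.elim s N) y ∧
      ∀ a b d, a ≠ b → b ≠ d → a ≠ d →
        ε / 4 / S * ((a.elim s N) * (b.elim s N) * (d.elim s N)) ≤ y a b d := by
  have hs0 : 0 ≤ s := by rw [← hsum]; exact Finset.sum_nonneg fun d _ => m0 d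
  have : Nonempty K := Fintype.card_pos_iff.1 (by omega)
  have hN1 : ∀ x, 0 ≤ Sum.elim N (fun _ : Unit => s) x := by
    rintro (x | x)
    · exact (N0 x).le
    · exact hs0
  have hS1 : ∑ x, Sum.elim N (fun _ : Unit => s) x = S := by
    rw [Fintype.sum_sum_type]
    simp only [Sum.elim_inl, Sum.elim_inr, Finset.univ_unique, Finset.sum_singleton]
    exact hS
  have hB := h.mergeB N0 m0 hsum (by positivity) hS (κ := (ε * S / 2) ^ 3) (by positivity)
    (fun k => helpers_ge' _ hN1 S hS1 _ _ _ (by positivity) (by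
      rw [Fintype.card_sum]
      omega) (by
      rintro (x | x) (y | y) h1 h2 h4 h5 h6
      · exact h3 k x y (by simpa using h2) (by simpa using h5) (by simpa using h6)
      · exact absurd rfl h4
      · exact absurd rfl h1
      · exact absurd rfl h1)) (fun k => by
      have h4 := mul_le_mul_of_nonneg_left (hbig k) (by positivity : 0 ≤ 2 * S)
      refine h4.trans (le_of_eq ?_)
      field_simp
      ring)
  have hO := hB.reindex (Equiv.optionEquivSumPUnit.{0} K)
  have hfun : (fun a : Option K => Sum.elim N (fun _ : Unit => s)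
      (Equiv.optionEquivSumPUnit.{0} K a)) = fun a => a.elim s N := by
    funext a
    rcases a with _ | a <;> simp
  rw [hfun] at hO
  have hN' : ∀ a : Option K, 0 ≤ a.elim s N := by
    rintro (_ | a)
    · exact hs0
    · exact (N0 a).le
  have hsumO : ∑ a : Option K, a.elim s N = S := by
    rw [Fintype.sum_option]
    simp only [Option.elim]
    linarith
  refine exists_real_outline_of (fun a : Option K => a.elim s N) (fun a : Option K => a.elim s N)
    hN' (ε / 4 / S) (by positivity) (fun a b => ?_) fun c hcs hcd hcT => ?_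
  · rw [hsumO]
    have h4 : 0 ≤ a.elim s N * b.elim s N := mul_nonneg (hN' a) (hN' b)
    have e : ε / 4 / S * (a.elim s N * b.elim s N) * S = ε / 4 * (a.elim s N * b.elim s N) := by
      field_simp
    rw [e]
    nlinarith
  · refine le_trans (le_of_eq ?_) (hO c hcs hcd hcT)
    congr 1
    field_simp
    ring

section
variable {I : Type} [Fintype I] [DecidableEq I] (n : I → ℕ)

omit [DecidableEq I] in
theorem pair_le {t : ℝ} (hI : 5 ≤ Fintype.card I)
    (htri : ∀ i j k, i ≠ j → j ≠ k → i ≠ k → (n i : ℝ) + n j + n k ≤ t) :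
    ∀ i j, i ≠ j → (n i : ℝ) + n j ≤ t := by
  classical
  intro i j hij
  obtain ⟨k, hk⟩ : ∃ k, k ∉ ({i, j} : Finset I) := by
    by_contra hcon
    push Not at hcon
    have h1 : (univ : Finset I) ⊆ {i, j} := fun k _ => hcon k
    have h2 := Finset.card_le_card h1
    rw [Finset.card_univ] at h2
    have h4 : ({i, j} : Finset I).card ≤ 2 := Finset.card_le_two
    omega
  simp only [mem_insert, mem_singleton, not_or] at hk
  have h1 := htri i j k hij (Ne.symm hk.2) (Ne.symm hk.1)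
  have h2 : (0 : ℝ) ≤ n k := Nat.cast_nonneg _
  linarith

omit [DecidableEq I] in
theorem single_le {t : ℝ} (hI : 5 ≤ Fintype.card I)
    (htri : ∀ i j k, i ≠ j → j ≠ k → i ≠ k → (n i : ℝ) + n j + n k ≤ t) :
    ∀ i, (n i : ℝ) ≤ t := by
  classical
  intro i
  obtain ⟨j, hj⟩ : ∃ j, j ≠ i := by
    by_contra hcon
    push Not at hcon
    have h1 : (univ : Finset I) ⊆ {i} := fun k _ => by simpa using hcon k
    have h2 := Finset.card_le_card h1
    rw [Finset.card_univ, Finset.card_singleton] at h2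
    omega
  have h1 := pair_le n hI htri i j hj.symm
  have h2 : (0 : ℝ) ≤ n j := Nat.cast_nonneg _
  linarith

/-- no merged classes -/
theorem asmB (hn : ∀ i, 0 < n i) (S : ℕ) (hS : ∑ i, n i = S) (hI : 5 ≤ Fintype.card I) (ε : ℝ)
    (hε0 : 0 < ε) (hε : ε ≤ 1)
    (htri : ∀ i j k, i ≠ j → j ≠ k → i ≠ k → (n i : ℝ) + n j + n k ≤ (1 - ε) * S)
    (hslk : Slk (fun i => (n i : ℝ)) (ε / (3 * S))) (D : Finset I) (Λ h : ℝ) (hΛ : 1 ≤ Λ)
    (h0 : 0 < h) (hD : ∀ i, i ∉ D → (S : ℝ) / Λ ≤ n i)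
    (hs1 : ((∑ i ∈ D, n i : ℕ) : ℝ) + ((∑ i ∈ D, n i : ℕ) : ℝ) ^ 2 * Λ / S ≤ ε ^ 4 * S / 96)
    (hs2 : ((∑ i ∈ D, n i : ℕ) : ℝ) ≤ ε * h ^ 2 / (8 * S)) (hbig : 104 * Λ ^ 3 / ε ≤ S)
    (u v w : {i // i ∉ D}) (huv : u ≠ v) (hvw : v ≠ w) (huw : u ≠ w) (hu : h ≤ n u.1)
    (hv : h ≤ n v.1) (hw : h ≤ n w.1) : Realizable n := by
  classical
  have hΛ0 : 0 < Λ := by linarith
  have hSr : (0 : ℝ) < S := lt_of_lt_of_le (by positivity) hbig
  have hεS : 0 < ε * S := mul_pos hε0 hSr
  set s : ℕ := ∑ i ∈ D, n i with hs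
  have hs8 : (s : ℝ) ≤ ε * S / 8 := by
    have h1 : 0 ≤ (s : ℝ) ^ 2 * Λ / S := by positivity
    have h2 : ε ^ 4 ≤ ε := by
      calc ε ^ 4 = ε ^ 3 * ε := by ring
        _ ≤ 1 * ε := mul_le_mul_of_nonneg_right (pow_le_one₀ hε0.le hε) hε0.le
        _ = ε := one_mul _
    have h3 : ε ^ 4 * S ≤ ε * S := mul_le_mul_of_nonneg_right h2 hSr.le
    linarith
  let e1 : {i // i ∉ D} ⊕ {i // i ∈ D} ≃ I :=
    (Equiv.sumComm _ _).trans (Equiv.sumCompl fun i => i ∈ D)
  have h1 := hslk.reindex e1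
  have hfun : (fun j => (n (e1 j) : ℝ)) = Sum.elim (fun i : {i // i ∉ D} => (n i.1 : ℝ))
      fun i : {i // i ∈ D} => (n i.1 : ℝ) := by
    funext j
    rcases j with j | j <;> simp [e1]
  rw [hfun] at h1
  have hDsum : ∑ i : {i // i ∈ D}, (n i.1 : ℝ) = s := by
    rw [hs, Nat.cast_sum]
    exact (Finset.sum_subtype D (fun _ => Iff.rfl) fun i => (n i : ℝ)).symm
  have hBsum : ∑ i : {i // i ∉ D}, (n i.1 : ℝ) + s = S := by
    have h2 : ∑ i : {i // i ∉ D}, (n i.1 : ℝ) = ∑ i ∈ univ.filter (fun i => i ∉ D), (n i : ℝ) :=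
      (Finset.sum_subtype _ (fun i => by simp) fun i => (n i : ℝ)).symm
    have h3 : (s : ℝ) = ∑ i ∈ univ.filter (fun i => i ∈ D), (n i : ℝ) := by
      rw [Finset.filter_mem_eq_inter, Finset.univ_inter, hs, Nat.cast_sum]
    rw [h2, h3, add_comm, Finset.sum_filter_add_sum_filter_not, ← hS, Nat.cast_sum]
  have hcard4 : 4 ≤ Fintype.card {i // i ∉ D} := by
    by_contra hcon
    push Not at hcon
    have h2 : ∑ i : {i // i ∉ D}, (n i.1 : ℝ) ≤ (1 - ε) * S := by
      have hu' : Fintype.card {i // i ∉ D} = 3 := by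
        have h4 : ({u, v, w} : Finset {i // i ∉ D}).card ≤ Fintype.card {i // i ∉ D} :=
          Finset.card_le_univ _
        have h5 : ({u, v, w} : Finset {i // i ∉ D}).card = 3 :=
          Finset.card_eq_three.2 ⟨u, v, w, huv, huw, hvw, rfl⟩
        omega
      have h4 : (univ : Finset {i // i ∉ D}) = {u, v, w} := by
        symm
        rw [← Finset.card_eq_iff_eq_univ, hu']
        exact Finset.card_eq_three.2 ⟨u, v, w, huv, huw, hvw, rfl⟩
      rw [h4, Finset.sum_insert (by simp [huv, huw]), Finset.sum_pair hvw, ← add_assoc]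
      exact htri _ _ _ (fun h => huv (Subtype.ext h)) (fun h => hvw (Subtype.ext h))
        (fun h => huw (Subtype.ext h))
    linarith
  have hmono : ε / (6 * S) ≤ ε / (3 * S) :=
    div_le_div_of_nonneg_left hε0.le (by positivity) (by linarith)
  obtain ⟨y, hy, hyl⟩ := outline_of_slk (fun i : {i // i ∉ D} => (n i.1 : ℝ))
    (fun i : {i // i ∈ D} => (n i.1 : ℝ)) (fun k => by exact_mod_cast hn k.1)
    (fun d => Nat.cast_nonneg _) s hDsum ε S hε0 hε hSr
    (h1.mono (by rintro (j | j) <;> exact Nat.cast_nonneg _) hmono) hBsum hcard4 (by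
      intro k x y h2 h3 h4
      have h5 := htri k.1 x.1 y.1 (fun h => h2 (Subtype.ext h.symm))
        (fun h => h4 (Subtype.ext h)) (fun h => h3 (Subtype.ext h.symm))
      linarith) (by
      intro k
      have hk : (0 : ℝ) < n k.1 := by exact_mod_cast hn k.1
      refine le_trans ?_ hs1
      have h2 : (s : ℝ) ^ 2 / n k.1 ≤ (s : ℝ) ^ 2 * Λ / S := by
        rw [div_le_div_iff₀ hk hSr]
        have h3 := hD k.1 k.2
        rw [div_le_iff₀ hΛ0] at h3
        have h4 := mul_le_mul_of_nonneg_left h3 (sq_nonneg (s : ℝ))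
        linarith
      linarith)
  -- the class map
  let f : I → Option {i // i ∉ D} := fun i => if hi : i ∉ D then some ⟨i, hi⟩ else none
  have f1 : ∀ (i : {i // i ∉ D}) j, f j = some i ↔ j = i.1 := by
    intro i j
    simp only [f]
    by_cases hj : j ∈ D
    · rw [dif_neg (not_not.2 hj)]
      constructor
      · intro h
        exact absurd h (by simp)
      · intro h
        exact absurd (h ▸ hj) i.2
    · rw [dif_pos hj]
      constructor
      · intro h
        exact congrArg Subtype.val (Option.some_injective _ h)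
      · rintro rfl
        rfl
  have fn : ∀ i, f i = none ↔ i ∈ D := by
    intro i
    simp only [f]
    by_cases hi : i ∈ D
    · rw [dif_neg (not_not.2 hi)]
      simp [hi]
    · rw [dif_pos hi]
      simp [hi]
  have hfn : univ.filter (fun i => f i = none) = D := by
    ext i
    simp [fn]
  have hN : ∀ a : {i // i ∉ D}, ∑ i ∈ univ.filter (fun i => f i = some a), n i = n a.1 :=
    fun a => sum_of_iff_eq n a.1 (f1 a)
  refine core3 n hn f (ε / 4) Λ h (by positivity) (by linarith) hΛ h0 S hS hcard4 ?_ ?_ y ?_ ?_ ?_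
    u v w huv hvw huw ?_ ?_ ?_ ?_ ?_
  · by_cases hDe : D = ∅
    · right
      have h2 : Fintype.card {i // i ∉ D} = Fintype.card I := by
        rw [hDe]
        simp
      omega
    · left
      obtain ⟨i, hi⟩ := Finset.nonempty_iff_ne_empty.2 hDe
      exact ⟨i, (fn i).2 hi⟩
  · exact fun a => realizable_of_iff_eq n hn a.1 (f1 a)
  · rw [hfn]
    simp only [hN]
    exact hy
  · rw [hfn]
    simp only [hN]
    exact hyl
  · intro a
    rw [hN]
    exact hD a.1 a.2
  · rw [hN]
    exact hu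
  · rw [hN]
    exact hv
  · rw [hN]
    exact hw
  · rw [hfn]
    refine hs2.trans (le_of_eq ?_)
    field_simp
    ring
  · refine le_trans (le_of_eq ?_) hbig
    field_simp
    ring

end

end Pool.Agent.MP_dd827d_co
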