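import Pool.Agent.Lib.MP_dd827d_co.Equal

/-!
Division of many small parts into `2 ^ r` groups of the same sum and a small rest.
-/

namespace Pool.Agent.MP_dd827d_co

open Finset Function

theorem hasTuple_pow (L M : ℕ) (h : M + 1 < 2 ^ L) (r : ℕ) :
    ∃ (κ R : Type) (_ : Fintype κ) (_ : Fintype R) (_ : DecidableEq R) (_ : Nonempty R),
      Fintype.card κ = L ^ (r + 1) ∧ Fintype.card R = 2 ^ (r + 1) ∧ HasTuple κ R M := by
  induction r with
  | zero =>
    exact ⟨Fin L, Bool, inferInstance, inferInstance, inferInstance, inferInstance, by simp,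
      by simp, hasTuple_bool L M h⟩
  | succ r ih =>
    obtain ⟨κ, R, _, _, _, _, h1, h2, h3⟩ := ih
    refine ⟨Fin L × κ, R × Bool, inferInstance, inferInstance, inferInstance, inferInstance, ?_,
      ?_, h3.double (hasTuple_bool L M h)⟩
    · rw [Fintype.card_prod, h1, Fintype.card_fin]
      ring
    · rw [Fintype.card_prod, h2, Fintype.card_bool]
      ring

theorem exists_equal_groups {I : Type} [Fintype I] [DecidableEq I] (n : I → ℕ) (M : ℕ)
    (hn : ∀ i, 0 < n i) (hM : ∑ i, n i ≤ M) {κ R : Type} [Fintype κ] [DecidableEq R]
    [Nonempty R] (hT : HasTuple κ R M) (q : ℕ) (hq : Fintype.card κ = q) :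
    ∀ (k : ℕ) (D : Finset I), D.card = k →
      ∃ (c : I → Option R) (g : ℕ), (∀ i, c i ≠ none → i ∈ D) ∧
        (D.filter fun i => c i = none).card < q ∧
        ∀ a, ∑ i ∈ univ.filter (fun i => c i = some a), n i = g := by
  classical
  intro k
  induction k using Nat.strong_induction_on with
  | _ k ih =>
    intro D hD
    by_cases hk : k < q
    · refine ⟨fun _ => none, 0, ?_, ?_, ?_⟩
      · intro i h
        exact absurd rfl h
      · refine lt_of_le_of_lt (Finset.card_filter_le _ _) ?_
        rw [hD]
        exact hk
      · intro a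
        simp
    · push Not at hk
      have hcard : Fintype.card κ ≤ Fintype.card {i // i ∈ D} := by
        rw [hq, Fintype.card_coe, hD]
        exact hk
      obtain ⟨φ⟩ := Function.Embedding.nonempty_of_card_le hcard
      have hφ : Injective fun x => (φ x).1 := fun x y h => φ.injective (Subtype.ext h)
      have hsumle : ∀ (A : Finset κ), ∑ x ∈ A, n (φ x).1 =
          ∑ i ∈ A.image (fun x => (φ x).1), n i := fun A =>
        (Finset.sum_image fun x _ y _ h => hφ h).symm
      obtain ⟨c0, g0, hg0, hc0⟩ := hT (fun x => n (φ x).1) (fun x => hn _) (by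
        rw [hsumle]
        exact (Finset.sum_le_sum_of_subset (Finset.subset_univ _)).trans hM)
      let c1 : I → Option R := fun i => if h : ∃ x, (φ x).1 = i then c0 h.choose else none
      have hc1 : ∀ x, c1 (φ x).1 = c0 x := by
        intro x
        have h : ∃ y, (φ y).1 = (φ x).1 := ⟨x, rfl⟩
        have h2 : h.choose = x := hφ h.choose_spec
        simp only [c1]
        rw [dif_pos h, h2]
      have hc1n : ∀ i, c1 i ≠ none → ∃ x, (φ x).1 = i := by
        intro i h
        by_contra hcon
        exact h (dif_neg hcon)
      have hc1D : ∀ i, c1 i ≠ none → i ∈ D := by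
        intro i h
        obtain ⟨x, rfl⟩ := hc1n i h
        exact (φ x).2
      have hc1s : ∀ a, ∑ i ∈ univ.filter (fun i => c1 i = some a), n i = g0 := by
        intro a
        rw [← hc0 a, hsumle]
        refine Finset.sum_congr ?_ fun _ _ => rfl
        ext i
        simp only [mem_filter, mem_univ, true_and, mem_image]
        constructor
        · intro h
          obtain ⟨x, rfl⟩ := hc1n i (by rw [h]; simp)
          rw [hc1] at h
          exact ⟨x, h, rfl⟩
        · rintro ⟨x, hx, rfl⟩
          rw [hc1, hx]
      set D' := D.filter fun i => c1 i = none with hD'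
      obtain ⟨a0⟩ := ‹Nonempty R›
      have hD'lt : D'.card < k := by
        rw [← hD]
        refine Finset.card_lt_card ?_
        rw [Finset.ssubset_iff_of_subset (Finset.filter_subset _ _)]
        have h1 := hc1s a0
        obtain ⟨i, hi, -⟩ : ∃ i ∈ univ.filter (fun i => c1 i = some a0), n i ≠ 0 := by
          by_contra hcon
          push Not at hcon
          rw [Finset.sum_eq_zero hcon] at h1
          omega
        simp only [mem_filter, mem_univ, true_and] at hi
        refine ⟨i, hc1D i (by rw [hi]; simp), ?_⟩
        rw [Finset.mem_filter, hi]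
        simp
      obtain ⟨c, g, h1, h2, h4⟩ := ih D'.card hD'lt D' rfl
      have hcc : ∀ i, c i ≠ none → c1 i = none := fun i h => (Finset.mem_filter.1 (h1 i h)).2
      let c2 : I → Option R := fun i =>
        match c1 i with
        | some a => some a
        | none => c i
      have hc2a : ∀ i a, c1 i = some a → c2 i = some a := by
        intro i a h
        simp only [c2, h]
      have hc2b : ∀ i, c1 i = none → c2 i = c i := by
        intro i h
        simp only [c2, h]
      refine ⟨c2, g0 + g, ?_, ?_, ?_⟩
      · intro i h
        cases hi : c1 i with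
        | some a => exact hc1D i (by rw [hi]; simp)
        | none =>
          rw [hc2b i hi] at h
          exact (Finset.mem_filter.1 (h1 i h)).1
      · refine lt_of_le_of_lt (Finset.card_le_card ?_) h2
        intro i hi
        rw [Finset.mem_filter] at hi
        rw [Finset.mem_filter, hD', Finset.mem_filter]
        cases hi' : c1 i with
        | some a =>
          rw [hc2a i a hi'] at hi
          exact absurd hi.2 (by simp)
        | none =>
          rw [hc2b i hi'] at hi
          exact ⟨⟨hi.1, rfl⟩, hi.2⟩
      · intro a
        rw [← hc1s a, ← h4 a, ← Finset.sum_union]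
        · refine Finset.sum_congr ?_ fun _ _ => rfl
          ext i
          simp only [mem_filter, mem_univ, true_and, mem_union]
          cases hi' : c1 i with
          | some b =>
            rw [hc2a i b hi']
            have : c i = none := by
              by_contra hcon
              rw [hcc i hcon] at hi'
              exact absurd hi' (by simp)
            rw [this]
            simp
          | none => rw [hc2b i hi']; simp
        · rw [Finset.disjoint_left]
          intro i h5 h6
          simp only [mem_filter, mem_univ, true_and] at h5 h6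
          have h7 := hcc i (by rw [h6]; simp)
          rw [h7] at h5
          exact absurd h5 (by simp)

/-- `4 * 2 ^ r` groups of the same sum. -/
theorem exists_fourfold {I : Type} [Fintype I] [DecidableEq I] (n : I → ℕ) (M L r : ℕ)
    (hn : ∀ i, 0 < n i) (hM : ∑ i, n i ≤ M) (hL : M + 1 < 2 ^ L) (D : Finset I) :
    ∃ (c : I → Option (Fin (2 ^ r) × Fin 4)) (g : ℕ), (∀ i, c i ≠ none → i ∈ D) ∧
      (D.filter fun i => c i = none).card < L ^ (r + 2) ∧
      ∀ a, ∑ i ∈ univ.filter (fun i => c i = some a), n i = g := by
  classical
  obtain ⟨κ, R, _, _, _, _, h1, h2, h3⟩ := hasTuple_pow L M hL (r + 1)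
  obtain ⟨c, g, c1, c2, c3⟩ := exists_equal_groups n M hn hM h3 (L ^ (r + 1 + 1)) h1
    D.card D rfl
  let e : R ≃ Fin (2 ^ r) × Fin 4 := Fintype.equivOfCardEq (by
    rw [h2, Fintype.card_prod, Fintype.card_fin, Fintype.card_fin]
    ring)
  refine ⟨fun i => (c i).map e, g, ?_, ?_, ?_⟩
  · intro i h
    refine c1 i fun h' => h ?_
    show (c i).map e = none
    rw [h']
    rfl
  · refine lt_of_le_of_lt (Finset.card_le_card ?_) c2
    intro i hi
    rw [Finset.mem_filter] at hi ⊢
    exact ⟨hi.1, Option.map_eq_none_iff.1 hi.2⟩
  · intro a
    rw [← c3 (e.symm a)]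
    refine Finset.sum_congr ?_ fun _ _ => rfl
    ext i
    simp only [mem_filter, mem_univ, true_and, Option.map_eq_some_iff]
    constructor
    · rintro ⟨b, hb, hb'⟩
      rw [hb, ← hb', Equiv.symm_apply_apply]
    · intro hi
      exact ⟨e.symm a, hi, Equiv.apply_symm_apply e a⟩

end Pool.Agent.MP_dd827d_co
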