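import Pool.Agent.Lib.MP_dd827d_co.Asm
import Pool.Agent.Lib.MP_dd827d_co.Equal2

/-!
Assembly with `M` equal merged classes.
-/

namespace Pool.Agent.MP_dd827d_co

open Finset Function

section
variable {I : Type} [Fintype I] [DecidableEq I] (n : I → ℕ)

omit [DecidableEq I] in
/-- bound on triples of classes -/
theorem tri_classes {M : ℕ} (D : Finset I) {t ν : ℝ} (hI : 5 ≤ Fintype.card I) (hν : 0 ≤ ν)
    (htri : ∀ i j k, i ≠ j → j ≠ k → i ≠ k → (n i : ℝ) + n j + n k ≤ t)
    (k x y : {i // i ∉ D} ⊕ Fin M) (h1 : x ≠ k) (h2 : y ≠ k) (h3 : x ≠ y) :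
    Sum.elim (fun i : {i // i ∉ D} => (n i.1 : ℝ)) (fun _ => ν) k +
      Sum.elim (fun i : {i // i ∉ D} => (n i.1 : ℝ)) (fun _ => ν) x +
      Sum.elim (fun i : {i // i ∉ D} => (n i.1 : ℝ)) (fun _ => ν) y ≤ t + 3 * ν := by
  have hp := pair_le n hI htri
  have hs := single_le n hI htri
  have ht : 0 ≤ t := by
    obtain ⟨i⟩ : Nonempty I := Fintype.card_pos_iff.1 (by omega)
    have := hs i
    have h0 : (0 : ℝ) ≤ n i := Nat.cast_nonneg _
    linarith
  have hv : ∀ {a b : {i // i ∉ D}}, (Sum.inl a : {i // i ∉ D} ⊕ Fin M) ≠ Sum.inl b → a.1 ≠ b.1 :=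
    fun h h' => h (congrArg Sum.inl (Subtype.ext h'))
  rcases k with k | k <;> rcases x with x | x <;> rcases y with y | y <;>
    simp only [Sum.elim_inl, Sum.elim_inr]
  · have := htri k.1 x.1 y.1 (hv h1.symm) (hv h3) (hv h2.symm)
    linarith
  · have := hp k.1 x.1 (hv h1.symm)
    linarith
  · have := hp k.1 y.1 (hv h2.symm)
    linarith
  · have := hs k.1
    linarith
  · have := hp x.1 y.1 (hv h3)
    linarith
  · have := hs x.1
    linarith
  · have := hs y.1
    linarith
  · linarith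

/-- merged classes -/
theorem asmAB (hn : ∀ i, 0 < n i) (S : ℕ) (hS : ∑ i, n i = S) (hI : 5 ≤ Fintype.card I) (ε : ℝ)
    (hε0 : 0 < ε) (hε : ε ≤ 1)
    (htri : ∀ i j k, i ≠ j → j ≠ k → i ≠ k → (n i : ℝ) + n j + n k ≤ (1 - ε) * S)
    (hslk : Slk (fun i => (n i : ℝ)) (ε / (3 * S))) (M : ℕ) (hMbig : 65 / ε ^ 4 ≤ M)
    (D : Finset I) (c : I → Option (Fin M × Fin 4)) (g : ℕ) (hg0 : 0 < g)
    (c1 : ∀ i, c i ≠ none → i ∈ D)
    (c3 : ∀ a, ∑ i ∈ univ.filter (fun i => c i = some a), n i = g) (Λ h : ℝ) (hΛ : 1 ≤ Λ)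
    (h0 : 0 < h) (hD : ∀ i, i ∉ D → (S : ℝ) / Λ ≤ n i) (hνΛ : (S : ℝ) / Λ ≤ 4 * g)
    (hsmall : ∀ i ∈ D, (n i : ℝ) ≤ 2 * g)
    (hs1 : ((∑ i ∈ D.filter (fun i => c i = none), n i : ℕ) : ℝ) +
      ((∑ i ∈ D.filter (fun i => c i = none), n i : ℕ) : ℝ) ^ 2 * Λ / S ≤ ε ^ 4 * S / 96)
    (hs2 : ((∑ i ∈ D.filter (fun i => c i = none), n i : ℕ) : ℝ) ≤ ε * h ^ 2 / (8 * S))
    (hbig : 104 * Λ ^ 3 / ε ≤ S)
    (u v w : {i // i ∉ D} ⊕ Fin M) (huv : u ≠ v) (hvw : v ≠ w) (huw : u ≠ w)
    (hu : h ≤ Sum.elim (fun i : {i // i ∉ D} => (n i.1 : ℝ)) (fun _ => 4 * (g : ℝ)) u)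
    (hv : h ≤ Sum.elim (fun i : {i // i ∉ D} => (n i.1 : ℝ)) (fun _ => 4 * (g : ℝ)) v)
    (hw : h ≤ Sum.elim (fun i : {i // i ∉ D} => (n i.1 : ℝ)) (fun _ => 4 * (g : ℝ)) w) :
    Realizable n := by
  classical
  have hΛ0 : 0 < Λ := by linarith
  have hSr : (0 : ℝ) < S := lt_of_lt_of_le (by positivity) hbig
  have hεS : 0 < ε * S := mul_pos hε0 hSr
  have hε4 : ε ^ 4 ≤ ε := by
    calc ε ^ 4 = ε ^ 3 * ε := by ring
      _ ≤ 1 * ε := mul_le_mul_of_nonneg_right (pow_le_one₀ hε0.le hε) hε0.le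
      _ = ε := one_mul _
  have hε41 : ε ^ 4 ≤ 1 := hε4.trans hε
  have hMε : 65 ≤ M * ε ^ 4 := (div_le_iff₀ (by positivity)).1 hMbig
  have hM65 : (65 : ℝ) ≤ M := by
    have : (0 : ℝ) ≤ M := Nat.cast_nonneg _
    nlinarith
  have hM5 : 5 ≤ M := by
    have : (5 : ℝ) ≤ M := by linarith
    exact_mod_cast this
  have hgr : (0 : ℝ) < g := by exact_mod_cast hg0
  set ν : ℝ := 4 * (g : ℝ) with hν
  have hν0 : 0 < ν := by positivity
  set R : Finset I := D.filter fun i => c i = none with hR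
  set s : ℕ := ∑ i ∈ R, n i with hs
  have hs8 : (s : ℝ) ≤ ε * S / 8 := by
    have h1 : 0 ≤ (s : ℝ) ^ 2 * Λ / S := by positivity
    have h3 : ε ^ 4 * S ≤ ε * S := mul_le_mul_of_nonneg_right hε4 hSr.le
    linarith
  -- the three types
  let E : ({i // i ∉ D} ⊕ {i // i ∈ R}) ⊕ {i // c i ≠ none} → I := fun x =>
    match x with
    | .inl (.inl i) => i.1
    | .inl (.inr i) => i.1
    | .inr i => i.1
  have hEinj : Injective E := by
    rintro ((x | x) | x) ((y | y) | y) hxy
    · exact congrArg (Sum.inl ∘ Sum.inl) (Subtype.ext hxy)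
    · have h1 : x.1 = y.1 := hxy
      exact absurd (Finset.mem_filter.1 y.2).1 (h1 ▸ x.2)
    · have h1 : x.1 = y.1 := hxy
      exact absurd (c1 _ y.2) (h1 ▸ x.2)
    · have h1 : x.1 = y.1 := hxy
      exact absurd (Finset.mem_filter.1 x.2).1 (h1 ▸ y.2)
    · exact congrArg (Sum.inl ∘ Sum.inr) (Subtype.ext hxy)
    · have h1 : x.1 = y.1 := hxy
      exact absurd (Finset.mem_filter.1 x.2).2 (h1 ▸ y.2)
    · have h1 : x.1 = y.1 := hxy
      exact absurd (c1 _ x.2) (h1 ▸ y.2)
    · have h1 : x.1 = y.1 := hxy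
      exact absurd (Finset.mem_filter.1 y.2).2 (h1 ▸ x.2)
    · exact congrArg Sum.inr (Subtype.ext hxy)
  have hEsur : Surjective E := by
    intro i
    by_cases h1 : i ∈ D
    · by_cases h2 : c i = none
      · exact ⟨.inl (.inr ⟨i, Finset.mem_filter.2 ⟨h1, h2⟩⟩), rfl⟩
      · exact ⟨.inr ⟨i, h2⟩, rfl⟩
    · exact ⟨.inl (.inl ⟨i, h1⟩), rfl⟩
  let e1 : ({i // i ∉ D} ⊕ {i // i ∈ R}) ⊕ {i // c i ≠ none} ≃ I :=
    Equiv.ofBijective E ⟨hEinj, hEsur⟩
  have h1 := hslk.reindex e1
  have hfun : (fun j => (n (e1 j) : ℝ)) = Sum.elim (Sum.elim (fun i : {i // i ∉ D} => (n i.1 : ℝ))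
      fun i : {i // i ∈ R} => (n i.1 : ℝ)) fun i : {i // c i ≠ none} => (n i.1 : ℝ) := by
    funext j
    rcases j with (j | j) | j <;> rfl
  rw [hfun] at h1
  -- sums
  have hRsum : ∑ i : {i // i ∈ R}, (n i.1 : ℝ) = s := by
    rw [hs, Nat.cast_sum]
    exact (Finset.sum_subtype R (fun _ => Iff.rfl) fun i => (n i : ℝ)).symm
  have hCsum : ∑ i : {i // c i ≠ none}, (n i.1 : ℝ) = M * ν := by
    have h2 : ∑ i : {i // c i ≠ none}, (n i.1 : ℝ) =
        ∑ i ∈ univ.filter (fun i => c i ≠ none), (n i : ℝ) :=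
      (Finset.sum_subtype _ (fun i => by simp) fun i => (n i : ℝ)).symm
    have h3 : ∑ i ∈ univ.filter (fun i => c i ≠ none), n i =
        ∑ a : Fin M × Fin 4, ∑ i ∈ univ.filter (fun i => c i = some a), n i := by
      rw [← Finset.sum_biUnion]
      · refine Finset.sum_congr ?_ fun _ _ => rfl
        ext i
        simp only [mem_filter, mem_univ, true_and, mem_biUnion]
        exact Option.ne_none_iff_exists'
      · intro a _ b _ hab
        rw [Function.onFun, Finset.disjoint_left]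
        intro i h5 h6
        simp only [mem_filter, mem_univ, true_and] at h5 h6
        exact hab (Option.some_injective _ (h5.symm.trans h6))
    rw [h2, ← Nat.cast_sum, h3]
    simp only [c3, Finset.sum_const, Finset.card_univ, Fintype.card_prod, Fintype.card_fin,
      smul_eq_mul]
    push_cast
    rw [hν]
    ring
  have hBsum : ∑ i : {i // i ∉ D}, (n i.1 : ℝ) + s + M * ν = S := by
    have h2 : ∑ j, Sum.elim (Sum.elim (fun i : {i // i ∉ D} => (n i.1 : ℝ))
      (fun i : {i // i ∈ R} => (n i.1 : ℝ))) (fun i : {i // c i ≠ none} => (n i.1 : ℝ)) j = S := by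
      rw [← hfun, Equiv.sum_comp e1 (fun i => (n i : ℝ)), ← hS, Nat.cast_sum]
    rw [Fintype.sum_sum_type, Fintype.sum_sum_type] at h2
    simp only [Sum.elim_inl, Sum.elim_inr] at h2
    rw [hRsum, hCsum] at h2
    exact h2
  have hνS : ν ≤ ε * S / 16 := by
    have h2 : (M : ℝ) * ν ≤ S := by
      have h3 : 0 ≤ ∑ i : {i // i ∉ D}, (n i.1 : ℝ) := Finset.sum_nonneg fun i _ => Nat.cast_nonneg _
      have h4 : (0 : ℝ) ≤ s := Nat.cast_nonneg _
      linarith
    have h3 : 16 ≤ M * ε := by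
      have h4 : (M : ℝ) * ε ^ 4 ≤ M * ε := mul_le_mul_of_nonneg_left hε4 (by linarith)
      linarith
    have h4 : 16 * ν ≤ ε * S := by
      calc 16 * ν ≤ (M * ε) * ν := mul_le_mul_of_nonneg_right h3 hν0.le
        _ = ε * (M * ν) := by ring
        _ ≤ ε * S := mul_le_mul_of_nonneg_left h2 hε0.le
    linarith
  have hpair := pair_le n hI htri
  have hsingle := single_le n hI htri
  have hRS : ∀ x : {i // i ∉ D} ⊕ {i // i ∈ R}, 0 ≤ Sum.elim (fun i : {i // i ∉ D} => (n i.1 : ℝ))
      (fun i : {i // i ∈ R} => (n i.1 : ℝ)) x := by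
    rintro (x | x) <;> exact Nat.cast_nonneg _
  -- Lemma A
  have hA := h1.mergeA (M := M) (ν := ν) hRS (fun d => Nat.cast_nonneg _) (by omega) hν0 hCsum (by
      rintro ⟨d, hd⟩
      have h2 := hsmall d (c1 d hd)
      rw [hν]
      show 2 * (n d : ℝ) ≤ 4 * g
      linarith) (by positivity) (S := S) (by
      rw [Fintype.sum_sum_type]
      simp only [Sum.elim_inl, Sum.elim_inr]
      rw [hRsum]
      exact hBsum) (κ := (ε * S / 2) ^ 3) (by positivity) (by
      intro j j' hjj
      have hN1 : ∀ x, 0 ≤ Sum.elim (Sum.elim (fun i : {i // i ∉ D} => (n i.1 : ℝ))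
          (fun i : {i // i ∈ R} => (n i.1 : ℝ))) (fun _ : Fin M => ν) x := by
        rintro (x | x)
        · exact hRS x
        · exact hν0.le
      refine helpers_ge' _ hN1 S ?_ _ _ _ (by positivity) ?_ ?_
      · rw [Fintype.sum_sum_type, Fintype.sum_sum_type]
        simp only [Sum.elim_inl, Sum.elim_inr, Finset.sum_const, Finset.card_univ,
          Fintype.card_fin, nsmul_eq_mul]
        rw [hRsum]
        exact hBsum
      · rw [Fintype.card_sum, Fintype.card_fin]
        omega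
      · have hval : ∀ x : {i // i ∉ D} ⊕ {i // i ∈ R}, ∃ i : I,
            Sum.elim (fun i : {i // i ∉ D} => (n i.1 : ℝ))
              (fun i : {i // i ∈ R} => (n i.1 : ℝ)) x = n i ∧ E (.inl x) = i := by
          rintro (x | x)
          · exact ⟨x.1, rfl, rfl⟩
          · exact ⟨x.1, rfl, rfl⟩
        rintro (x | x) (y | y) - - - - hxy
        · obtain ⟨i, hi, hi'⟩ := hval x
          obtain ⟨k, hk, hk'⟩ := hval y
          have hik : i ≠ k := by
            rintro rfl
            exact hxy (congrArg Sum.inl (Sum.inl_injective (hEinj (hi'.trans hk'.symm))))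
          simp only [Sum.elim_inl, Sum.elim_inr] at hi hk ⊢
          rw [hi, hk]
          have := hpair i k hik
          linarith
        · obtain ⟨i, hi, hi'⟩ := hval x
          simp only [Sum.elim_inl, Sum.elim_inr] at hi ⊢
          rw [hi]
          have := hsingle i
          linarith
        · obtain ⟨i, hi, hi'⟩ := hval y
          simp only [Sum.elim_inl, Sum.elim_inr] at hi ⊢
          rw [hi]
          have := hsingle i
          linarith
        · simp only [Sum.elim_inr]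
          have h2 : ε * S ≤ S := by nlinarith
          linarith) (by
      have e : 3 * (ε * S / 2) ^ 3 * (ε / (3 * S)) * ((M : ℝ) - 1) =
          (M * ε ^ 4 - ε ^ 4) * S ^ 2 / 8 := by
        field_simp
        ring
      rw [e]
      have h2 : 64 ≤ (M : ℝ) * ε ^ 4 - ε ^ 4 := by linarith
      have h3 : 0 < (S : ℝ) ^ 2 := by positivity
      have h4 := mul_le_mul_of_nonneg_right h2 h3.le
      linarith)
  -- reorder
  let F : ({i // i ∉ D} ⊕ Fin M) ⊕ {i // i ∈ R} ≃ ({i // i ∉ D} ⊕ {i // i ∈ R}) ⊕ Fin M :=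
    { toFun := fun x => match x with
        | .inl (.inl b) => .inl (.inl b)
        | .inl (.inr j) => .inr j
        | .inr r => .inl (.inr r)
      invFun := fun x => match x with
        | .inl (.inl b) => .inl (.inl b)
        | .inl (.inr r) => .inr r
        | .inr j => .inl (.inr j)
      left_inv := by rintro ((x | x) | x) <;> rfl
      right_inv := by rintro ((x | x) | x) <;> rfl }
  have h2 := hA.reindex F
  have hfun2 : (fun j => Sum.elim (Sum.elim (fun i : {i // i ∉ D} => (n i.1 : ℝ))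
      fun i : {i // i ∈ R} => (n i.1 : ℝ)) (fun _ : Fin M => ν) (F j)) =
      Sum.elim (Sum.elim (fun i : {i // i ∉ D} => (n i.1 : ℝ)) fun _ : Fin M => ν)
        fun i : {i // i ∈ R} => (n i.1 : ℝ) := by
    funext j
    rcases j with (j | j) | j <;> rfl
  rw [hfun2] at h2
  have e6 : ε / (3 * (S : ℝ)) / 2 = ε / (6 * S) := by
    field_simp
    ring
  rw [e6] at h2
  have hNpos : ∀ k : {i // i ∉ D} ⊕ Fin M,
      0 < Sum.elim (fun i : {i // i ∉ D} => (n i.1 : ℝ)) (fun _ : Fin M => ν) k := by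
    rintro (k | k)
    · show (0 : ℝ) < n k.1
      exact_mod_cast hn k.1
    · exact hν0
  have hNΛ : ∀ k : {i // i ∉ D} ⊕ Fin M,
      (S : ℝ) / Λ ≤ Sum.elim (fun i : {i // i ∉ D} => (n i.1 : ℝ)) (fun _ : Fin M => ν) k := by
    rintro (k | k)
    · exact hD k.1 k.2
    · exact hνΛ
  have hcard5 : 5 ≤ Fintype.card ({i // i ∉ D} ⊕ Fin M) := by
    rw [Fintype.card_sum, Fintype.card_fin]
    omega
  obtain ⟨y, hy, hyl⟩ := outline_of_slk _ _ hNpos (fun d => Nat.cast_nonneg _) s hRsum ε S hε0 hε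
    hSr h2 (by
      rw [Fintype.sum_sum_type]
      simp only [Sum.elim_inl, Sum.elim_inr, Finset.sum_const, Finset.card_univ, Fintype.card_fin,
        nsmul_eq_mul]
      linarith) (by omega) (by
      intro k x y h3 h4 h5
      have h6 := tri_classes n (M := M) D hI hν0.le htri k x y h3 h4 h5
      linarith) (by
      intro k
      have hk := hNpos k
      refine le_trans ?_ hs1
      have h3 : (s : ℝ) ^ 2 / Sum.elim (fun i : {i // i ∉ D} => (n i.1 : ℝ))
          (fun _ : Fin M => ν) k ≤ (s : ℝ) ^ 2 * Λ / S := by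
        rw [div_le_div_iff₀ hk hSr]
        have h4 := hNΛ k
        rw [div_le_iff₀ hΛ0] at h4
        have h5 := mul_le_mul_of_nonneg_left h4 (sq_nonneg (s : ℝ))
        linarith
      linarith)
  -- the class map
  let f : I → Option ({i // i ∉ D} ⊕ Fin M) := fun i =>
    if hi : i ∉ D then some (.inl ⟨i, hi⟩) else (c i).map fun x => .inr x.1
  have f1 : ∀ (i : {i // i ∉ D}) j, f j = some (.inl i) ↔ j = i.1 := by
    intro i j
    simp only [f]
    by_cases hj : j ∈ D
    · rw [dif_neg (not_not.2 hj)]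
      constructor
      · intro h
        rw [Option.map_eq_some_iff] at h
        obtain ⟨a, -, ha⟩ := h
        exact absurd ha (by simp)
      · intro h
        exact absurd (h ▸ hj) i.2
    · rw [dif_pos hj]
      constructor
      · intro h
        exact congrArg Subtype.val (Sum.inl_injective (Option.some_injective _ h))
      · rintro rfl
        rfl
  have f2 : ∀ (j : Fin M) i, f i = some (.inr j) ↔ ∃ x, c i = some x ∧ x.1 = j := by
    intro j i
    simp only [f]
    by_cases hi : i ∈ D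
    · rw [dif_neg (not_not.2 hi), Option.map_eq_some_iff]
      constructor
      · rintro ⟨x, hx, hx'⟩
        exact ⟨x, hx, Sum.inr_injective hx'⟩
      · rintro ⟨x, hx, hx'⟩
        exact ⟨x, hx, by rw [hx']⟩
    · rw [dif_pos hi]
      constructor
      · intro h
        exact absurd (Option.some_injective _ h) (by simp)
      · rintro ⟨x, hx, -⟩
        exact absurd (c1 i (by rw [hx]; simp)) hi
  have fn : ∀ i, f i = none ↔ i ∈ R := by
    intro i
    simp only [f]
    rw [hR, Finset.mem_filter]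
    by_cases hi : i ∈ D
    · rw [dif_neg (not_not.2 hi), Option.map_eq_none_iff]
      simp [hi]
    · rw [dif_pos hi]
      simp [hi]
  have hfn : univ.filter (fun i => f i = none) = R := by
    ext i
    simp [fn]
  -- group sums
  have hpa : ∀ (j : Fin M) (a : Fin 4), ∑ i ∈ univ.filter (fun i => f i = some (.inr j) ∧
      (c i).map Prod.snd = some a), n i = g := by
    intro j a
    rw [← c3 (j, a)]
    refine Finset.sum_congr ?_ fun _ _ => rfl
    ext i
    simp only [mem_filter, mem_univ, true_and, f2, Option.map_eq_some_iff]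
    constructor
    · rintro ⟨⟨x, hx, hx'⟩, z, hz, hz'⟩
      rw [hx] at hz
      obtain rfl := Option.some_injective _ hz
      rw [hx, ← hx', ← hz']
    · intro hi
      exact ⟨⟨(j, a), hi, rfl⟩, (j, a), hi, rfl⟩
  have hcls : ∀ j : Fin M, ∑ i ∈ univ.filter (fun i => f i = some (.inr j)), n i = 4 * g := by
    intro j
    have h3 : ∑ i ∈ univ.filter (fun i => f i = some (.inr j)), n i =
        ∑ a : Fin 4, ∑ i ∈ univ.filter (fun i => f i = some (.inr j) ∧
          (c i).map Prod.snd = some a), n i := by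
      rw [← Finset.sum_biUnion]
      · refine Finset.sum_congr ?_ fun _ _ => rfl
        ext i
        simp only [mem_filter, mem_univ, true_and, mem_biUnion, f2, Option.map_eq_some_iff]
        constructor
        · rintro ⟨x, hx, hx'⟩
          exact ⟨x.2, ⟨x, hx, hx'⟩, x, hx, rfl⟩
        · rintro ⟨a, h3, -⟩
          exact h3
      · intro a _ b _ hab
        rw [Function.onFun, Finset.disjoint_left]
        intro i h3 h4
        simp only [mem_filter, mem_univ, true_and] at h3 h4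
        exact hab (Option.some_injective _ (h3.2.symm.trans h4.2))
    rw [h3, Finset.sum_congr rfl fun a _ => hpa j a]
    simp
  have hN : ∀ a : {i // i ∉ D} ⊕ Fin M,
      ((∑ i ∈ univ.filter (fun i => f i = some a), n i : ℕ) : ℝ) =
      Sum.elim (fun i : {i // i ∉ D} => (n i.1 : ℝ)) (fun _ : Fin M => ν) a := by
    rintro (a | a)
    · rw [sum_of_iff_eq n a.1 (f1 a)]
      rfl
    · rw [hcls a]
      push_cast
      rfl
  refine core3 n hn f (ε / 4) Λ h (by positivity) (by linarith) hΛ h0 S hS (by omega)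
    (Or.inr hcard5) ?_ y ?_ ?_ ?_ u v w huv hvw huw ?_ ?_ ?_ ?_ ?_
  · rintro (a | j)
    · exact realizable_of_iff_eq n hn a.1 (f1 a)
    · refine four_groups (I := {i // f i = some (Sum.inr j)}) (fun i => n i.1) (fun i => hn i.1)
        (fun i => (c i.1).map Prod.snd) g 0 (Nat.zero_le _) (fun a => ?_) ?_ ?_
      · rw [sum_subtype_filter n (fun i => f i = some (Sum.inr j))
          (fun i => (c i).map Prod.snd = some a)]
        exact hpa j a
      · rw [Nat.mul_zero]
        refine Finset.sum_eq_zero fun i hi => ?_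
        simp only [mem_filter, mem_univ, true_and, Option.map_eq_none_iff] at hi
        obtain ⟨x, hx, -⟩ := (f2 j i.1).1 i.2
        rw [hx] at hi
        exact absurd hi (by simp)
      · refine realizable_empty (I := {i // f i = some (Sum.inr j)}) (fun i => n i.1)
          (p := fun i => (c i.1).map Prod.snd = none) fun i hi => ?_
        rw [Option.map_eq_none_iff] at hi
        obtain ⟨x, hx, -⟩ := (f2 j i.1).1 i.2
        rw [hx] at hi
        exact absurd hi (by simp)
  · rw [hfn]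
    simp only [hN]
    exact hy
  · rw [hfn]
    simp only [hN]
    exact hyl
  · intro a
    rw [hN]
    exact hNΛ a
  · rw [hN]
    exact hu
  · rw [hN]
    exact hv
  · rw [hN]
    exact hw
  · rw [hfn]
    refine hs2.trans (le_of_eq ?_)
    field_simp
    ring
  · refine le_trans (le_of_eq ?_) hbig
    field_simp
    ring

end

end Pool.Agent.MP_dd827d_co
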