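import Pool.Agent.Lib.MP_dd827d_co.Asm2

/-!
The asymptotic criterion: a linear programming solution with relative slack suffices.
-/

namespace Pool.Agent.MP_dd827d_co

open Finset Function

section
variable {I : Type} [Fintype I] [DecidableEq I] (n : I → ℕ)

/-- sizes of the extracted part and of the rest -/
theorem extraction_sums (D : Finset I) {M : ℕ} (c : I → Option (Fin M × Fin 4)) (g q : ℕ)
    (c1 : ∀ i, c i ≠ none → i ∈ D) (c2 : (D.filter fun i => c i = none).card < q)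
    (c3 : ∀ a, ∑ i ∈ univ.filter (fun i => c i = some a), n i = g) (T : ℝ) (hT0 : 0 ≤ T)
    (hT : ∀ i ∈ D, (n i : ℝ) ≤ T) :
    ((∑ i ∈ D.filter (fun i => c i = none), n i : ℕ) : ℝ) ≤ q * T ∧
      ((∑ i ∈ D, n i : ℕ) : ℝ) = ((∑ i ∈ D.filter (fun i => c i = none), n i : ℕ) : ℝ) +
        M * (4 * (g : ℝ)) := by
  constructor
  · push_cast
    calc ∑ i ∈ D.filter (fun i => c i = none), (n i : ℝ)
        ≤ ∑ _i ∈ D.filter (fun i => c i = none), T :=
          Finset.sum_le_sum fun i hi => hT i (Finset.mem_filter.1 hi).1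
      _ = ((D.filter fun i => c i = none).card : ℝ) * T := by
          rw [Finset.sum_const, nsmul_eq_mul]
      _ ≤ q * T := by
          have : ((D.filter fun i => c i = none).card : ℝ) ≤ q := by exact_mod_cast c2.le
          exact mul_le_mul_of_nonneg_right this hT0
  · have h1 : ∑ i ∈ D, n i = ∑ i ∈ D.filter (fun i => c i = none), n i +
        ∑ i ∈ D.filter (fun i => ¬ c i = none), n i :=
      (Finset.sum_filter_add_sum_filter_not D _ _).symm
    have h2 : ∑ i ∈ D.filter (fun i => ¬ c i = none), n i =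
        ∑ a : Fin M × Fin 4, ∑ i ∈ univ.filter (fun i => c i = some a), n i := by
      rw [← Finset.sum_biUnion]
      · refine Finset.sum_congr ?_ fun _ _ => rfl
        ext i
        simp only [mem_filter, mem_univ, true_and, mem_biUnion]
        constructor
        · rintro ⟨-, h⟩
          exact Option.ne_none_iff_exists'.1 h
        · rintro ⟨a, ha⟩
          have : c i ≠ none := by rw [ha]; simp
          exact ⟨c1 i this, this⟩
      · intro a _ b _ hab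
        rw [Function.onFun, Finset.disjoint_left]
        intro i h5 h6
        simp only [mem_filter, mem_univ, true_and] at h5 h6
        exact hab (Option.some_injective _ (h5.symm.trans h6))
    have h3 : ∑ i ∈ D, n i = ∑ i ∈ D.filter (fun i => c i = none), n i + M * (4 * g) := by
      rw [h1, h2]
      simp only [c3, Finset.sum_const, Finset.card_univ, Fintype.card_prod, Fintype.card_fin,
        smul_eq_mul]
      ring
    rw [h3]
    push_cast
    ring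

/-- few large parts -/
theorem asy_few (hn : ∀ i, 0 < n i) (S : ℕ) (hS : ∑ i, n i = S) (hI : 5 ≤ Fintype.card I) (ε : ℝ)
    (hε0 : 0 < ε) (hε : ε ≤ 1)
    (htri : ∀ i j k, i ≠ j → j ≠ k → i ≠ k → (n i : ℝ) + n j + n k ≤ (1 - ε) * S)
    (hslk : Slk (fun i => (n i : ℝ)) (ε / (3 * S))) (L r : ℕ) (hL : S + 1 < 2 ^ L) (hL1 : 1 ≤ L)
    (hMbig : 65 / ε ^ 4 ≤ ((2 ^ r : ℕ) : ℝ)) (K M Λ : ℝ) (hK : ((L ^ (r + 2) : ℕ) : ℝ) = K)
    (hM : ((2 ^ r : ℕ) : ℝ) = M) (hΛ : 200 * M ^ 2 * K ^ 2 / ε ^ 4 = Λ)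
    (hbig : 104 * Λ ^ 3 / ε ≤ S)
    (hfew : (univ.filter fun i => (S : ℝ) / Λ ≤ n i).card ≤ 2) : Realizable n := by
  classical
  have hK1 : 1 ≤ K := by
    rw [← hK]
    have : 1 ≤ L ^ (r + 2) := Nat.one_le_pow _ _ hL1
    exact_mod_cast this
  have hM1 : 1 ≤ M := by
    rw [← hM]
    have : 1 ≤ 2 ^ r := Nat.one_le_two_pow
    exact_mod_cast this
  have hε4 : 0 < ε ^ 4 := by positivity
  have hε41 : ε ^ 4 ≤ 1 := pow_le_one₀ hε0.le hε
  have hε4ε : ε ^ 4 ≤ ε := by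
    calc ε ^ 4 = ε ^ 3 * ε := by ring
      _ ≤ 1 * ε := mul_le_mul_of_nonneg_right (pow_le_one₀ hε0.le hε) hε0.le
      _ = ε := one_mul _
  have hε43 : ε ^ 4 ≤ ε ^ 3 := by
    calc ε ^ 4 = ε * ε ^ 3 := by ring
      _ ≤ 1 * ε ^ 3 := mul_le_mul_of_nonneg_right hε (by positivity)
      _ = ε ^ 3 := one_mul _
  have hM2 : 1 ≤ M ^ 2 := one_le_pow₀ hM1
  have hMM : M ≤ M ^ 2 := by nlinarith
  have hK2 : K ≤ K ^ 2 := by nlinarith
  have hK21 : 1 ≤ K ^ 2 := one_le_pow₀ hK1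
  have hΛe : Λ * ε ^ 4 = 200 * M ^ 2 * K ^ 2 := by
    rw [← hΛ]
    field_simp
  have hΛpos : 0 < Λ := by
    rw [← hΛ]
    positivity
  have hΛ200 : 200 ≤ Λ := by
    rw [← hΛ, le_div_iff₀ hε4]
    have : 1 ≤ M ^ 2 * K ^ 2 := by nlinarith
    nlinarith
  have hSr : (0 : ℝ) < S := lt_of_lt_of_le (by positivity) hbig
  have hεS : 0 < ε * S := mul_pos hε0 hSr
  have hSΛ : 0 < (S : ℝ) / Λ := by positivity
  -- numerical facts, all of the form `x / Λ ≤ y`
  have num : ∀ x y : ℝ, x * ε ^ 4 ≤ y * (200 * M ^ 2 * K ^ 2) → x * (S / Λ) ≤ y * S := by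
    intro x y h
    have h1 : x * (S / Λ) = (x * ε ^ 4) * (S / (Λ * ε ^ 4)) := by field_simp
    have h2 : y * S = (y * (200 * M ^ 2 * K ^ 2)) * (S / (Λ * ε ^ 4)) := by
      rw [hΛe]
      field_simp
    rw [h1, h2]
    exact mul_le_mul_of_nonneg_right h (by positivity)
  set D : Finset I := univ.filter fun i => ¬ (S : ℝ) / Λ ≤ n i with hD
  have hmD : ∀ i, i ∉ D ↔ (S : ℝ) / Λ ≤ n i := fun i => by simp [hD]
  have hDT : ∀ i ∈ D, (n i : ℝ) ≤ S / Λ := fun i hi => by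
    have : ¬ (S : ℝ) / Λ ≤ n i := fun h => (hmD i).2 h hi
    exact (not_le.1 this).le
  obtain ⟨c, g, c1, c2, c3⟩ := exists_fourfold n S L r hn hS.le hL D
  obtain ⟨e1, e2⟩ := extraction_sums n D c g _ c1 c2 c3 (S / Λ) hSΛ.le hDT
  rw [hK] at e1
  rw [hM] at e2
  set s : ℝ := ((∑ i ∈ D.filter (fun i => c i = none), n i : ℕ) : ℝ) with hs
  have hs0 : 0 ≤ s := Nat.cast_nonneg _
  -- mass of the large parts
  have hsplit : ∑ i ∈ univ.filter (fun i => (S : ℝ) / Λ ≤ n i), n i + ∑ i ∈ D, n i = S := by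
    rw [hD, ← hS]
    exact Finset.sum_filter_add_sum_filter_not univ _ _
  have hpair := pair_le n hI htri
  have hsingle := single_le n hI htri
  have hnn : 0 ≤ (1 - ε) * S := mul_nonneg (by linarith) hSr.le
  have hH : ((∑ i ∈ univ.filter (fun i => (S : ℝ) / Λ ≤ n i), n i : ℕ) : ℝ) ≤ (1 - ε) * S := by
    set F : Finset I := univ.filter fun i => (S : ℝ) / Λ ≤ n i with hF
    have hc : F.card = 0 ∨ F.card = 1 ∨ F.card = 2 := by omega
    rcases hc with h | h | h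
    · rw [Finset.card_eq_zero.1 h]
      simpa using hnn
    · obtain ⟨i, hi⟩ := Finset.card_eq_one.1 h
      rw [hi, Finset.sum_singleton]
      exact hsingle i
    · obtain ⟨i, j, hij, hi⟩ := Finset.card_eq_two.1 h
      rw [hi, Finset.sum_pair hij]
      push_cast
      exact hpair i j hij
  have hDmass : ε * S ≤ ((∑ i ∈ D, n i : ℕ) : ℝ) := by
    have h1 : ((∑ i ∈ univ.filter (fun i => (S : ℝ) / Λ ≤ n i), n i : ℕ) : ℝ) +
      ((∑ i ∈ D, n i : ℕ) : ℝ) = S := by exact_mod_cast hsplit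
    linarith
  have hsle : s ≤ ε / 2 * S := by
    refine e1.trans (num K (ε / 2) ?_)
    have h1 : K * ε ^ 4 ≤ K ^ 2 * ε := mul_le_mul hK2 hε4ε hε4.le (by positivity)
    have h2 : K ^ 2 * ε ≤ M ^ 2 * (K ^ 2 * ε) := le_mul_of_one_le_left (by positivity) hM2
    have h3 : 0 ≤ M ^ 2 * (K ^ 2 * ε) := by positivity
    linarith
  have hMg : ε / 2 * S ≤ M * (4 * (g : ℝ)) := by
    rw [e2] at hDmass
    linarith
  have hM0 : 0 < M := by linarith
  have h4g : ε * S / (2 * M) ≤ 4 * (g : ℝ) := by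
    rw [div_le_iff₀ (by positivity)]
    linarith
  have hgpos : 0 < g := by
    have h1 : (0 : ℝ) < 4 * (g : ℝ) := lt_of_lt_of_le (by positivity) h4g
    have h2 : (0 : ℝ) < g := by linarith
    exact_mod_cast h2
  have hMlarge : (65 : ℝ) ≤ M := by
    rw [hM] at hMbig
    rw [div_le_iff₀ hε4] at hMbig
    nlinarith
  have hMnat : 3 ≤ 2 ^ r := by
    have h1 : (3 : ℝ) ≤ ((2 ^ r : ℕ) : ℝ) := by
      rw [hM]
      linarith
    exact_mod_cast h1
  have hSM : S / Λ ≤ ε * S / (4 * M) := by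
    have h1 := num 1 (ε / (4 * M)) (by
      have h2 : ε / (4 * M) * (200 * M ^ 2 * K ^ 2) = 50 * ε * M * K ^ 2 := by
        field_simp
        ring
      rw [h2, one_mul]
      have h3 : ε ≤ ε * M := le_mul_of_one_le_right hε0.le hM1
      have h4 : ε * M ≤ ε * M * K ^ 2 := le_mul_of_one_le_right (by positivity) hK21
      nlinarith)
    rw [one_mul] at h1
    refine h1.trans (le_of_eq ?_)
    ring
  have hhalf : ε * (S : ℝ) / (4 * M) = (ε * S / (2 * M)) / 2 := by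
    field_simp
    ring
  refine asmAB n hn S hS hI ε hε0 hε htri hslk (2 ^ r) hMbig D c g hgpos c1 c3 Λ
    (ε * S / (2 * M)) (by linarith) (by positivity) (fun i hi => (hmD i).1 hi) ?_ ?_ ?_ ?_ hbig
    (Sum.inr ⟨0, by omega⟩) (Sum.inr ⟨1, by omega⟩) (Sum.inr ⟨2, by omega⟩) (by simp) (by simp)
    (by simp) ?_ ?_ ?_
  · linarith
  · intro i hi
    have := hDT i hi
    linarith
  · rw [← hs]
    have h1 : s + s ^ 2 * Λ / S ≤ K * (S / Λ) + K ^ 2 * (S / Λ) := by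
      have h2 : s ^ 2 ≤ (K * (S / Λ)) ^ 2 := pow_le_pow_left₀ hs0 e1 2
      have h3 : s ^ 2 * Λ / S ≤ (K * (S / Λ)) ^ 2 * Λ / S := by gcongr
      have h4 : (K * ((S : ℝ) / Λ)) ^ 2 * Λ / S = K ^ 2 * (S / Λ) := by field_simp
      linarith
    have h2 : K * ((S : ℝ) / Λ) ≤ K ^ 2 * (S / Λ) := mul_le_mul_of_nonneg_right hK2 hSΛ.le
    have h3 := num (2 * K ^ 2) (ε ^ 4 / 96) (by
      have h4 : K ^ 2 * ε ^ 4 ≤ M ^ 2 * (K ^ 2 * ε ^ 4) := le_mul_of_one_le_left (by positivity) hM2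
      have h5 : 0 ≤ M ^ 2 * (K ^ 2 * ε ^ 4) := by positivity
      linarith)
    linarith
  · rw [← hs]
    have h1 : ε * (ε * S / (2 * M)) ^ 2 / (8 * S) = (ε ^ 3 / (32 * M ^ 2)) * S := by
      field_simp
      ring
    rw [h1]
    refine e1.trans (num K _ ?_)
    have h2 : ε ^ 3 / (32 * M ^ 2) * (200 * M ^ 2 * K ^ 2) = 25 / 4 * (K ^ 2 * ε ^ 3) := by
      field_simp
      ring
    rw [h2]
    have h3 : K * ε ^ 4 ≤ K ^ 2 * ε ^ 3 := mul_le_mul hK2 hε43 hε4.le (by positivity)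
    have h4 : 0 ≤ K ^ 2 * ε ^ 3 := by positivity
    linarith
  · exact h4g
  · exact h4g
  · exact h4g

/-- many large parts -/
theorem asy_many (hn : ∀ i, 0 < n i) (S : ℕ) (hS : ∑ i, n i = S) (hI : 5 ≤ Fintype.card I) (ε : ℝ)
    (hε0 : 0 < ε) (hε : ε ≤ 1)
    (htri : ∀ i j k, i ≠ j → j ≠ k → i ≠ k → (n i : ℝ) + n j + n k ≤ (1 - ε) * S)
    (hslk : Slk (fun i => (n i : ℝ)) (ε / (3 * S))) (L r : ℕ) (hL : S + 1 < 2 ^ L) (hL1 : 1 ≤ L)
    (hMbig : 65 / ε ^ 4 ≤ ((2 ^ r : ℕ) : ℝ)) (K M Λ G Γ : ℝ) (hK : ((L ^ (r + 2) : ℕ) : ℝ) = K)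
    (hM : ((2 ^ r : ℕ) : ℝ) = M) (hΛ : 200 * M ^ 2 * K ^ 2 / ε ^ 4 = Λ)
    (hG : 56 * M * K * Λ ^ 2 = G) (hΓ : G ^ 2 / ε ^ 4 = Γ)
    (hbig : 104 * Γ ^ 3 / ε ≤ S)
    (hmany : 2 < (univ.filter fun i => (S : ℝ) / Λ ≤ n i).card) : Realizable n := by
  classical
  have hK1 : 1 ≤ K := by
    rw [← hK]
    have : 1 ≤ L ^ (r + 2) := Nat.one_le_pow _ _ hL1
    exact_mod_cast this
  have hM1 : 1 ≤ M := by
    rw [← hM]
    have : 1 ≤ 2 ^ r := Nat.one_le_two_pow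
    exact_mod_cast this
  have hε4 : 0 < ε ^ 4 := by positivity
  have hε41 : ε ^ 4 ≤ 1 := pow_le_one₀ hε0.le hε
  have hε4ε : ε ^ 4 ≤ ε := by
    calc ε ^ 4 = ε ^ 3 * ε := by ring
      _ ≤ 1 * ε := mul_le_mul_of_nonneg_right (pow_le_one₀ hε0.le hε) hε0.le
      _ = ε := one_mul _
  have hM2 : 1 ≤ M ^ 2 := one_le_pow₀ hM1
  have hK2 : K ≤ K ^ 2 := by nlinarith
  have hK21 : 1 ≤ K ^ 2 := one_le_pow₀ hK1
  have hΛpos : 0 < Λ := by
    rw [← hΛ]
    positivity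
  have hΛ200 : 200 ≤ Λ := by
    rw [← hΛ, le_div_iff₀ hε4]
    have : 1 ≤ M ^ 2 * K ^ 2 := by nlinarith
    nlinarith
  have hΛ1 : 1 ≤ Λ := by linarith
  have hΛ2 : Λ ≤ Λ ^ 2 := by nlinarith
  have hΛ21 : 1 ≤ Λ ^ 2 := one_le_pow₀ hΛ1
  have hMK1 : 1 ≤ M * K := by nlinarith
  have hMK : K ≤ M * K := le_mul_of_one_le_left (by linarith) hM1
  have hGΛ : 56 * Λ ^ 2 ≤ G := by
    rw [← hG]
    have : Λ ^ 2 ≤ (M * K) * Λ ^ 2 := le_mul_of_one_le_left (by positivity) hMK1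
    nlinarith
  have hGK : 56 * K ≤ G := by
    rw [← hG]
    have : M * K ≤ (M * K) * Λ ^ 2 := le_mul_of_one_le_right (by linarith) hΛ21
    nlinarith
  have hGM : G / (56 * M) = K * Λ ^ 2 := by
    rw [← hG]
    field_simp
  have hKΛ : 1 ≤ K * Λ ^ 2 := by nlinarith
  have hGpos : 0 < G := by linarith
  have hG1 : 1 ≤ G := by linarith
  have hG2 : G ≤ G ^ 2 := by nlinarith
  have hΓpos : 0 < Γ := by
    rw [← hΓ]
    positivity
  have hΓG : Γ * ε ^ 4 = G ^ 2 := by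
    rw [← hΓ]
    field_simp
  have hΓΛ : Λ ≤ Γ := by
    have h1 : Γ * ε ^ 4 ≤ Γ := mul_le_of_le_one_right hΓpos.le hε41
    linarith
  have hΓ1 : 1 ≤ Γ := by linarith
  have hSr : (0 : ℝ) < S := lt_of_lt_of_le (by positivity) hbig
  have hεS : 0 < ε * S := mul_pos hε0 hSr
  set T : ℝ := S / Γ with hT
  have hT0 : 0 < T := by positivity
  have hST : ε ^ 4 * S = G ^ 2 * T := by
    rw [hT, ← hΓG]
    field_simp
  have hΓS : ∀ x : ℝ, x * Γ / S = x / T := by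
    intro x
    rw [hT]
    field_simp
  set h : ℝ := S / Λ with hh
  have hh0 : 0 < h := by positivity
  have hh2 : G ^ 2 * T / (8 * Λ ^ 2) ≤ ε * h ^ 2 / (8 * S) := by
    have h1 : ε * h ^ 2 / (8 * S) = ε * S / (8 * Λ ^ 2) := by
      rw [hh]
      field_simp
    rw [h1, ← hST]
    exact div_le_div_of_nonneg_right (mul_le_mul_of_nonneg_right hε4ε hSr.le) (by positivity)
  have hGT : 7 * G * T ≤ G ^ 2 * T / (8 * Λ ^ 2) := by
    rw [le_div_iff₀ (by positivity)]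
    have h1 : G * T * (56 * Λ ^ 2) ≤ G * T * G := mul_le_mul_of_nonneg_left hGΛ (by positivity)
    calc 7 * G * T * (8 * Λ ^ 2) = G * T * (56 * Λ ^ 2) := by ring
      _ ≤ G * T * G := h1
      _ = G ^ 2 * T := by ring
  set D : Finset I := univ.filter fun i => ¬ T ≤ n i with hD
  have hmD : ∀ i, i ∉ D ↔ T ≤ n i := fun i => by simp [hD]
  have hDT : ∀ i ∈ D, (n i : ℝ) ≤ T := fun i hi => by
    have : ¬ T ≤ n i := fun h => (hmD i).2 h hi
    exact (not_le.1 this).le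
  have hTh : T ≤ h := by
    rw [hT, hh]
    exact div_le_div_of_nonneg_left hSr.le hΛpos hΓΛ
  obtain ⟨u, hu, v, hv, w, hw, huv, huw, hvw⟩ := Finset.two_lt_card.1 hmany
  simp only [mem_filter, mem_univ, true_and] at hu hv hw
  have huD : u ∉ D := (hmD u).2 (hTh.trans hu)
  have hvD : v ∉ D := (hmD v).2 (hTh.trans hv)
  have hwD : w ∉ D := (hmD w).2 (hTh.trans hw)
  by_cases hcase : ((∑ i ∈ D, n i : ℕ) : ℝ) ≤ G * T / 14
  · -- the small parts are negligible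
    set s : ℝ := ((∑ i ∈ D, n i : ℕ) : ℝ) with hs
    have hs0 : 0 ≤ s := Nat.cast_nonneg _
    refine asmB n hn S hS hI ε hε0 hε htri hslk D Γ h hΓ1 hh0 (fun i hi => (hmD i).1 hi) ?_ ?_
      hbig ⟨u, huD⟩ ⟨v, hvD⟩ ⟨w, hwD⟩ (fun e => huv (congrArg Subtype.val e))
      (fun e => hvw (congrArg Subtype.val e)) (fun e => huw (congrArg Subtype.val e)) hu hv hw
    · rw [← hs, hΓS, hST]
      have h1 : s ^ 2 / T ≤ G ^ 2 * T / 196 := by
        rw [div_le_iff₀ hT0]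
        have h2 : s ^ 2 ≤ (G * T / 14) ^ 2 := pow_le_pow_left₀ hs0 hcase 2
        refine h2.trans (le_of_eq ?_)
        ring
      have h2 : 56 * G ≤ G ^ 2 := by nlinarith
      have h3 : 56 * G * T ≤ G ^ 2 * T := mul_le_mul_of_nonneg_right h2 hT0.le
      have h4 : 0 < G ^ 2 * T := by positivity
      linarith
    · rw [← hs]
      have h1 : 0 < G * T := by positivity
      linarith
  · push Not at hcase
    obtain ⟨c, g, c1, c2, c3⟩ := exists_fourfold n S L r hn hS.le hL D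
    obtain ⟨e1, e2⟩ := extraction_sums n D c g _ c1 c2 c3 T hT0.le hDT
    rw [hK] at e1
    rw [hM] at e2
    set s : ℝ := ((∑ i ∈ D.filter (fun i => c i = none), n i : ℕ) : ℝ) with hs
    have hs0 : 0 ≤ s := Nat.cast_nonneg _
    have hM0 : 0 < M := by linarith
    have hKT : 56 * (K * T) ≤ G * T := by
      have := mul_le_mul_of_nonneg_right hGK hT0.le
      linarith
    have hMg : G * T / 28 ≤ M * (4 * (g : ℝ)) := by
      rw [e2] at hcase
      linarith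
    have h2g : T ≤ 2 * (g : ℝ) := by
      have h1 : G * T / 28 = 2 * M * (G / (56 * M) * T) := by
        field_simp
        ring
      rw [h1, hGM] at hMg
      have h2 : T ≤ K * Λ ^ 2 * T := le_mul_of_one_le_left hT0.le hKΛ
      have h3 : 2 * M * (K * Λ ^ 2 * T) ≤ 2 * M * (2 * (g : ℝ)) := by linarith
      have h4 := le_of_mul_le_mul_left h3 (by positivity)
      linarith
    have hgpos : 0 < g := by
      have h1 : (0 : ℝ) < 2 * (g : ℝ) := lt_of_lt_of_le hT0 h2g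
      have h2 : (0 : ℝ) < g := by linarith
      exact_mod_cast h2
    refine asmAB n hn S hS hI ε hε0 hε htri hslk (2 ^ r) hMbig D c g hgpos c1 c3 Γ
      h hΓ1 hh0 (fun i hi => (hmD i).1 hi) ?_ ?_ ?_ ?_ hbig
      (Sum.inl ⟨u, huD⟩) (Sum.inl ⟨v, hvD⟩) (Sum.inl ⟨w, hwD⟩) ?_ ?_ ?_ hu hv hw
    · rw [← hT]
      linarith
    · intro i hi
      have := hDT i hi
      linarith
    · rw [← hs, hΓS, hST]
      have h1 : s ^ 2 / T ≤ K ^ 2 * T := by
        rw [div_le_iff₀ hT0]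
        have h2 : s ^ 2 ≤ (K * T) ^ 2 := pow_le_pow_left₀ hs0 e1 2
        refine h2.trans (le_of_eq ?_)
        ring
      have h2 : 3136 * K ^ 2 ≤ G ^ 2 := by
        have := pow_le_pow_left₀ (by positivity) hGK 2
        linarith
      have h3 : 3136 * K ^ 2 * T ≤ G ^ 2 * T := mul_le_mul_of_nonneg_right h2 hT0.le
      have h4 : K * T ≤ K ^ 2 * T := mul_le_mul_of_nonneg_right hK2 hT0.le
      have h5 : 0 < K ^ 2 * T := by positivity
      linarith
    · rw [← hs]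
      have h1 : 0 < G * T := by positivity
      linarith
    · exact fun e => huv (congrArg Subtype.val (Sum.inl_injective e))
    · exact fun e => hvw (congrArg Subtype.val (Sum.inl_injective e))
    · exact fun e => huw (congrArg Subtype.val (Sum.inl_injective e))

end

/-- **The asymptotic criterion.** -/
theorem asymptotic (ε : ℝ) (hε0 : 0 < ε) : ∃ n₀ : ℕ, ∀ (I : Type) [Fintype I] (n : I → ℕ),
    (∀ i, 0 < n i) → 5 ≤ Fintype.card I → n₀ ≤ ∑ i, n i →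
    (∀ i j k, i ≠ j → j ≠ k → i ≠ k →
      (n i : ℝ) + n j + n k ≤ (1 - ε) * ((∑ i, n i : ℕ) : ℝ)) →
    (∃ y : I → I → I → ℝ, IsOutline (fun i => (n i : ℝ)) y ∧
      ∀ a b c, a ≠ b → b ≠ c → a ≠ c →
        ε * ((n a : ℝ) * n b * n c) / ((∑ i, n i : ℕ) : ℝ) ≤ y a b c) → Realizable n := by
  classical
  wlog hε : ε ≤ 1 with H
  · obtain ⟨n₀, h⟩ := H 1 one_pos le_rfl
    refine ⟨n₀, fun I _ n hn hI h0 htri ⟨y, hy, hl⟩ => h I n hn hI h0 ?_ ⟨y, hy, ?_⟩⟩
    · intro i j k h1 h2 h3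
      refine (htri i j k h1 h2 h3).trans ?_
      push Not at hε
      exact mul_le_mul_of_nonneg_right (by linarith) (Nat.cast_nonneg _)
    · intro a b c h1 h2 h3
      refine le_trans ?_ (hl a b c h1 h2 h3)
      push Not at hε
      have h4 : (0 : ℝ) ≤ (n a : ℝ) * n b * n c := by positivity
      exact div_le_div_of_nonneg_right (mul_le_mul_of_nonneg_right hε.le h4) (Nat.cast_nonneg _)
  obtain ⟨r, hr⟩ : ∃ r : ℕ, 65 / ε ^ 4 ≤ ((2 ^ r : ℕ) : ℝ) := by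
    obtain ⟨r, hr⟩ := pow_unbounded_of_one_lt (65 / ε ^ 4) (one_lt_two : (1 : ℝ) < 2)
    exact ⟨r, by push_cast; exact hr.le⟩
  set M : ℝ := ((2 ^ r : ℕ) : ℝ) with hM
  have hM0 : 0 < M := lt_of_lt_of_le (by positivity) hr
  set C : ℝ := 104 * ((56 * M * (200 * M ^ 2 / ε ^ 4) ^ 2) ^ 2 / ε ^ 4) ^ 3 / ε with hC
  have hC0 : 0 < C := by positivity
  have hlim := tendsto_pow_const_div_const_pow_of_one_lt ((r + 2) * 30)
    (one_lt_two : (1 : ℝ) < 2)
  have hev : ∀ᶠ L : ℕ in Filter.atTop, 4 * C * (L : ℝ) ^ ((r + 2) * 30) ≤ 2 ^ L := by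
    have h1 : ∀ᶠ L : ℕ in Filter.atTop, (L : ℝ) ^ ((r + 2) * 30) / 2 ^ L < 1 / (4 * C) := by
      refine hlim.eventually_lt_const ?_
      positivity
    filter_upwards [h1] with L hL
    have h2 : 0 < 4 * C := by positivity
    rw [div_lt_div_iff₀ (by positivity) h2] at hL
    linarith
  obtain ⟨L0, hL0⟩ := Filter.eventually_atTop.1 hev
  refine ⟨2 ^ L0, fun I _ n hn hI h0 htri ⟨y, hy, hl⟩ => ?_⟩
  set S : ℕ := ∑ j, n j with hS
  set L : ℕ := Nat.log 2 S + 2 with hL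
  have hSpos : 0 < S := lt_of_lt_of_le (by positivity) h0
  have hSr : (0 : ℝ) < S := by exact_mod_cast hSpos
  have hlog : L0 ≤ Nat.log 2 S := by
    rw [Nat.le_log_iff_pow_le (by norm_num) hSpos.ne']
    exact h0
  have hSL : 2 ^ (Nat.log 2 S) ≤ S := Nat.pow_log_le_self 2 hSpos.ne'
  have hSL2 : S + 1 < 2 ^ L := by
    have h1 : S < 2 ^ (Nat.log 2 S + 1) := Nat.lt_pow_succ_log_self (by norm_num) S
    have h2 : 2 ^ L = 2 * 2 ^ (Nat.log 2 S + 1) := by rw [hL]; ring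
    omega
  set K : ℝ := ((L ^ (r + 2) : ℕ) : ℝ) with hK
  have hbig1 : C * K ^ 30 ≤ S := by
    have h1 := hL0 L (by omega)
    have h2 : (2 : ℝ) ^ L = 4 * 2 ^ (Nat.log 2 S) := by rw [hL]; ring
    have h3 : (2 : ℝ) ^ (Nat.log 2 S) ≤ S := by exact_mod_cast hSL
    have h4 : K ^ 30 = (L : ℝ) ^ ((r + 2) * 30) := by
      rw [hK]
      push_cast
      rw [← pow_mul]
    rw [h4]
    linarith
  have hL1 : 1 ≤ L := by omega
  have hK1 : (1 : ℝ) ≤ K := by
    rw [hK]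
    have : 1 ≤ L ^ (r + 2) := Nat.one_le_pow _ _ hL1
    exact_mod_cast this
  set Λ : ℝ := 200 * M ^ 2 * K ^ 2 / ε ^ 4 with hΛ
  set G : ℝ := 56 * M * K * Λ ^ 2 with hG
  set Γ : ℝ := G ^ 2 / ε ^ 4 with hΓ
  have hbig : 104 * Γ ^ 3 / ε ≤ S := by
    refine le_trans (le_of_eq ?_) hbig1
    rw [hC, hΓ, hG, hΛ]
    field_simp
  have hslk : Slk (fun i => (n i : ℝ)) (ε / (3 * S)) := by
    have h1 := slk_of_outline (β := ε / S) hy fun a b d h1 h2 h3 => by
      refine le_trans (le_of_eq ?_) (hl a b d h1 h2 h3)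
      ring
    have h2 : ε / (S : ℝ) / 3 = ε / (3 * S) := by
      field_simp
    rwa [h2] at h1
  by_cases hcase : (univ.filter fun i => (S : ℝ) / Λ ≤ n i).card ≤ 2
  · refine asy_few n hn S rfl hI ε hε0 hε htri hslk L r hSL2 hL1 hr K M Λ rfl rfl rfl
      (le_trans ?_ hbig) hcase
    have hε4 : 0 < ε ^ 4 := by positivity
    have hε41 : ε ^ 4 ≤ 1 := pow_le_one₀ hε0.le hε
    have hM1 : 1 ≤ M := by
      rw [hM]
      have : 1 ≤ 2 ^ r := Nat.one_le_two_pow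
      exact_mod_cast this
    have hΛ1 : 1 ≤ Λ := by
      rw [hΛ, le_div_iff₀ hε4]
      have h1 : 1 ≤ M ^ 2 := one_le_pow₀ hM1
      have h2 : 1 ≤ K ^ 2 := one_le_pow₀ hK1
      have : 1 ≤ M ^ 2 * K ^ 2 := by nlinarith
      nlinarith
    have hG1 : Λ ≤ G := by
      rw [hG]
      have h1 : 1 ≤ M * K := by nlinarith
      have h2 : Λ ≤ Λ ^ 2 := by nlinarith
      have h3 : Λ ^ 2 ≤ (M * K) * Λ ^ 2 := le_mul_of_one_le_left (by positivity) h1
      nlinarith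
    have hΓ1 : Λ ≤ Γ := by
      rw [hΓ, le_div_iff₀ hε4]
      have h1 : G ≤ G ^ 2 := by nlinarith
      have h2 : Λ * ε ^ 4 ≤ Λ := mul_le_of_le_one_right (by linarith) hε41
      linarith
    have h4 : Λ ^ 3 ≤ Γ ^ 3 := pow_le_pow_left₀ (by linarith) hΓ1 3
    exact div_le_div_of_nonneg_right (by linarith) hε0.le
  · push Not at hcase
    exact asy_many n hn S rfl hI ε hε0 hε htri hslk L r hSL2 hL1 hr K M Λ G Γ rfl rfl rfl rfl
      rfl hbig hcase

end Pool.Agent.MP_dd827d_co
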