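import Mathlib

/-!
Disjoint subfamilies of equal sum (pigeonhole), exhaustive extraction, and grouping of small items.
-/

namespace Pool.Agent.MP_dd827d_co

open Finset Function

/-- Every family of positive weights on `κ` with sum at most `M` contains disjoint subfamilies of
equal positive sum, indexed by `R`. -/
def HasTuple (κ R : Type) [Fintype κ] [DecidableEq R] (M : ℕ) : Prop :=
  ∀ w : κ → ℕ, (∀ i, 0 < w i) → ∑ i, w i ≤ M →
    ∃ (c : κ → Option R) (g : ℕ), 0 < g ∧ ∀ a : R, ∑ i ∈ univ.filter (fun i => c i = some a), w i = g

theorem hasTuple_bool (L M : ℕ) (h : M + 1 < 2 ^ L) : HasTuple (Fin L) Bool M := by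
  classical
  intro w hw hM
  obtain ⟨A, -, B, -, hAB, hs⟩ := Finset.exists_ne_map_eq_of_card_lt_of_maps_to
    (s := (univ : Finset (Finset (Fin L)))) (t := Finset.range (M + 1))
    (f := fun A => ∑ i ∈ A, w i) (by
      rw [Finset.card_range, Finset.card_univ, Fintype.card_finset, Fintype.card_fin]
      exact h) (by
      intro A _
      rw [Finset.mem_coe, Finset.mem_range]
      have : ∑ i ∈ A, w i ≤ ∑ i, w i := Finset.sum_le_sum_of_subset (Finset.subset_univ _)
      beta_reduce
      omega)
  have h1 : ∑ i ∈ A \ B, w i + ∑ i ∈ A ∩ B, w i = ∑ i ∈ A, w i := by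
    rw [← Finset.sum_union (Finset.disjoint_sdiff_inter A B), Finset.sdiff_union_inter]
  have h2 : ∑ i ∈ B \ A, w i + ∑ i ∈ B ∩ A, w i = ∑ i ∈ B, w i := by
    rw [← Finset.sum_union (Finset.disjoint_sdiff_inter B A), Finset.sdiff_union_inter]
  rw [Finset.inter_comm B A] at h2
  have h3 : ∑ i ∈ A \ B, w i = ∑ i ∈ B \ A, w i := by omega
  have h4 : 0 < ∑ i ∈ A \ B, w i := by
    by_contra h0
    have h5 : ∑ i ∈ A \ B, w i = 0 := by omega
    have h6 : ∑ i ∈ B \ A, w i = 0 := by omega
    rw [Finset.sum_eq_zero_iff] at h5 h6
    apply hAB
    ext i
    by_contra hne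
    by_cases hA : i ∈ A
    · have hB : i ∉ B := fun hB => hne ⟨fun _ => hB, fun _ => hA⟩
      have := h5 i (Finset.mem_sdiff.2 ⟨hA, hB⟩)
      have := hw i
      omega
    · by_cases hB : i ∈ B
      · have := h6 i (Finset.mem_sdiff.2 ⟨hB, hA⟩)
        have := hw i
        omega
      · exact hne ⟨fun h => absurd h hA, fun h => absurd h hB⟩
  refine ⟨fun i => if i ∈ A \ B then some true else if i ∈ B \ A then some false else none,
    ∑ i ∈ A \ B, w i, h4, ?_⟩
  rintro (_ | _)
  · rw [h3]
    refine Finset.sum_congr ?_ fun _ _ => rfl
    ext i
    simp only [mem_filter, mem_univ, true_and, mem_sdiff]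
    by_cases hA : i ∈ A <;> by_cases hB : i ∈ B <;> simp [hA, hB]
  · refine Finset.sum_congr ?_ fun _ _ => rfl
    ext i
    simp only [mem_filter, mem_univ, true_and, mem_sdiff]
    by_cases hA : i ∈ A <;> by_cases hB : i ∈ B <;> simp [hA, hB]

theorem HasTuple.double {κ lam R : Type} [Fintype κ] [Fintype lam] [DecidableEq R] [Nonempty R]
    {M : ℕ} (h1 : HasTuple κ R M) (h2 : HasTuple lam Bool M) :
    HasTuple (lam × κ) (R × Bool) M := by
  classical
  intro w hw hM
  rw [Fintype.sum_prod_type] at hM
  have h3 : ∀ t : lam, ∃ (c : κ → Option R) (g : ℕ), 0 < g ∧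
      ∀ a : R, ∑ k ∈ univ.filter (fun k => c k = some a), w (t, k) = g := fun t =>
    h1 (fun k => w (t, k)) (fun k => hw _) ((Finset.single_le_sum
      (f := fun t => ∑ k, w (t, k)) (fun _ _ => Nat.zero_le _) (mem_univ t)).trans hM)
  choose c g hg hc using h3
  obtain ⟨a0⟩ := ‹Nonempty R›
  obtain ⟨d, g', hg', hd⟩ := h2 g hg (by
    refine le_trans (Finset.sum_le_sum fun t _ => ?_) hM
    rw [← hc t a0]
    exact Finset.sum_le_sum_of_subset (Finset.subset_univ _))
  refine ⟨fun x => (c x.1 x.2).bind fun a => (d x.1).map fun b => (a, b), g', hg', ?_⟩
  rintro ⟨a, b⟩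
  rw [← hd b, Finset.sum_filter, Fintype.sum_prod_type, Finset.sum_filter]
  refine Finset.sum_congr rfl fun t _ => ?_
  by_cases hb : d t = some b
  · rw [if_pos hb, ← hc t a, Finset.sum_filter]
    refine Finset.sum_congr rfl fun k _ => ?_
    cases hk : c t k <;> simp [hb, hk]
  · rw [if_neg hb]
    refine Finset.sum_eq_zero fun k _ => ?_
    rw [if_neg]
    intro h4
    beta_reduce at h4
    simp only at h4
    cases hk : c t k with
    | none => rw [hk] at h4; simp at h4
    | some a' =>
      rw [hk] at h4
      simp only [Option.bind_some, Option.map_eq_some_iff, Prod.mk.injEq] at h4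
      obtain ⟨b', hb', -, h5⟩ := h4
      exact hb (by rw [hb', h5])

theorem hasTuple_four (L M : ℕ) (h : M + 1 < 2 ^ L) :
    HasTuple (Fin L × Fin L) (Bool × Bool) M :=
  (hasTuple_bool L M h).double (hasTuple_bool L M h)

/-- Exhaustive extraction of quadruples. -/
theorem exists_extraction {I : Type} [Fintype I] [DecidableEq I] (n : I → ℕ) (hn : ∀ i, 0 < n i)
    (L M T : ℕ) (hL : M + 1 < 2 ^ L) (hM : ∑ i, n i ≤ M) :
    ∀ (k : ℕ) (D : Finset I), D.card = k → (∀ i ∈ D, n i ≤ T) →
      ∃ (τ : Type) (_ : Fintype τ) (_ : DecidableEq τ) (c : I → Option (τ × Fin 4)) (g : τ → ℕ),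
        (∀ i, c i ≠ none → i ∈ D) ∧ (D.filter fun i => c i = none).card < L * L ∧
        (∀ t, 0 < g t ∧ 4 * g t ≤ L * L * T) ∧
        ∀ t a, ∑ i ∈ univ.filter (fun i => c i = some (t, a)), n i = g t := by
  classical
  intro k
  induction k using Nat.strong_induction_on with
  | _ k ih =>
    intro D hD hT
    by_cases hk : k < L * L
    · refine ⟨Empty, inferInstance, inferInstance, fun _ => none, fun t => t.elim, ?_, ?_, ?_, ?_⟩
      · intro i h
        exact absurd rfl h
      · refine lt_of_le_of_lt (Finset.card_filter_le _ _) ?_
        rw [hD]
        exact hk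
      · rintro ⟨⟩
      · rintro ⟨⟩
    · push Not at hk
      -- choose `L * L` elements of `D`
      have hcard : Fintype.card (Fin L × Fin L) ≤ Fintype.card {i // i ∈ D} := by
        simp only [Fintype.card_prod, Fintype.card_fin, Fintype.card_coe]
        omega
      obtain ⟨φ⟩ := Function.Embedding.nonempty_of_card_le hcard
      have hφ : Injective fun x => (φ x).1 := fun x y h => φ.injective (Subtype.ext h)
      have hsumle : ∀ (A : Finset (Fin L × Fin L)), ∑ x ∈ A, n (φ x).1 =
          ∑ i ∈ A.image (fun x => (φ x).1), n i := fun A =>
        (Finset.sum_image fun x _ y _ h => hφ h).symm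
      obtain ⟨c0, g0, hg0, hc0⟩ := hasTuple_four L M hL (fun x => n (φ x).1) (fun x => hn _) (by
        rw [hsumle]
        exact (Finset.sum_le_sum_of_subset (Finset.subset_univ _)).trans hM)
      -- quadruple on `I`
      let e4 : Bool × Bool ≃ Fin 4 := Fintype.equivOfCardEq (by simp)
      let c1 : I → Option (Fin 4) := fun i =>
        if h : ∃ x, (φ x).1 = i then (c0 h.choose).map e4 else none
      have hc1 : ∀ x, c1 (φ x).1 = (c0 x).map e4 := by
        intro x
        have h : ∃ y, (φ y).1 = (φ x).1 := ⟨x, rfl⟩
        have h2 : h.choose = x := hφ h.choose_spec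
        simp only [c1]
        rw [dif_pos h, h2]
      have hc1n : ∀ i, c1 i ≠ none → ∃ x, (φ x).1 = i := by
        intro i h
        by_contra hcon
        exact h (dif_neg hcon)
      have hc1D : ∀ i, c1 i ≠ none → i ∈ D := by
        intro i h
        obtain ⟨x, rfl⟩ := hc1n i h
        exact (φ x).2
      have hc1s : ∀ a, ∑ i ∈ univ.filter (fun i => c1 i = some a), n i = g0 := by
        intro a
        rw [← hc0 (e4.symm a), hsumle]
        refine Finset.sum_congr ?_ fun _ _ => rfl
        ext i
        simp only [mem_filter, mem_univ, true_and, mem_image]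
        constructor
        · intro h
          obtain ⟨x, rfl⟩ := hc1n i (by rw [h]; simp)
          rw [hc1, Option.map_eq_some_iff] at h
          obtain ⟨b, hb, hb'⟩ := h
          refine ⟨x, ?_, rfl⟩
          rw [hb, ← hb', Equiv.symm_apply_apply]
        · rintro ⟨x, hx, rfl⟩
          rw [hc1, hx]
          simp
      have hg0T : 4 * g0 ≤ L * L * T := by
        have h1 : 4 * g0 = ∑ a : Fin 4, ∑ i ∈ univ.filter (fun i => c1 i = some a), n i := by
          simp [hc1s]
        have h2 : ∑ a : Fin 4, ∑ i ∈ univ.filter (fun i => c1 i = some a), n i ≤
            ∑ i ∈ (univ : Finset (Fin L × Fin L)).image (fun x => (φ x).1), n i := by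
          rw [← Finset.sum_biUnion]
          · refine Finset.sum_le_sum_of_subset ?_
            intro i hi
            simp only [mem_biUnion, mem_filter, mem_univ, true_and] at hi
            obtain ⟨a, ha⟩ := hi
            obtain ⟨x, hx⟩ := hc1n i (by rw [ha]; simp)
            exact Finset.mem_image.2 ⟨x, mem_univ _, hx⟩
          · intro a _ b _ hab
            rw [Function.onFun, Finset.disjoint_left]
            intro i h1 h2
            simp only [mem_filter, mem_univ, true_and] at h1 h2
            rw [h1] at h2
            exact hab (Option.some_injective _ h2)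
        have h3 : ∑ i ∈ (univ : Finset (Fin L × Fin L)).image (fun x => (φ x).1), n i ≤
            L * L * T := by
          rw [← hsumle]
          calc ∑ x : Fin L × Fin L, n (φ x).1 ≤ ∑ _x : Fin L × Fin L, T :=
                Finset.sum_le_sum fun x _ => hT _ (φ x).2
            _ = _ := by simp
        omega
      -- the rest
      set D' := D.filter fun i => c1 i = none with hD'
      have hD'lt : D'.card < k := by
        rw [← hD]
        refine Finset.card_lt_card ?_
        rw [Finset.ssubset_iff_of_subset (Finset.filter_subset _ _)]
        have h1 := hc1s 0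
        obtain ⟨i, hi, -⟩ : ∃ i ∈ univ.filter (fun i => c1 i = some 0), n i ≠ 0 := by
          by_contra hcon
          push Not at hcon
          rw [Finset.sum_eq_zero hcon] at h1
          omega
        simp only [mem_filter, mem_univ, true_and] at hi
        refine ⟨i, hc1D i (by rw [hi]; simp), ?_⟩
        rw [Finset.mem_filter, hi]
        simp
      obtain ⟨τ, _, _, c, g, h1, h2, h3, h4⟩ := ih D'.card hD'lt D' rfl
        (fun i hi => hT i (Finset.mem_filter.1 hi).1)
      have hcc : ∀ i, c i ≠ none → c1 i = none := fun i h => (Finset.mem_filter.1 (h1 i h)).2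
      let c2 : I → Option (Option τ × Fin 4) := fun i =>
        match c1 i with
        | some a => some (none, a)
        | none => (c i).map fun x => (some x.1, x.2)
      have hc2a : ∀ i a, c1 i = some a → c2 i = some (none, a) := by
        intro i a h
        simp only [c2, h]
      have hc2b : ∀ i, c1 i = none → c2 i = (c i).map fun x => (some x.1, x.2) := by
        intro i h
        simp only [c2, h]
      refine ⟨Option τ, inferInstance, inferInstance, c2, fun t => t.elim g0 g, ?_, ?_, ?_, ?_⟩
      · intro i h
        cases hi : c1 i with
        | some a => exact hc1D i (by rw [hi]; simp)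
        | none =>
          rw [hc2b i hi] at h
          have : c i ≠ none := fun h' => h (by rw [h']; rfl)
          exact (Finset.mem_filter.1 (h1 i this)).1
      · refine lt_of_le_of_lt (Finset.card_le_card ?_) h2
        intro i hi
        rw [Finset.mem_filter] at hi
        rw [Finset.mem_filter, hD', Finset.mem_filter]
        cases hi' : c1 i with
        | some a =>
          rw [hc2a i a hi'] at hi
          exact absurd hi.2 (by simp)
        | none =>
          rw [hc2b i hi', Option.map_eq_none_iff] at hi
          exact ⟨⟨hi.1, rfl⟩, hi.2⟩
      · rintro (_ | t)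
        · exact ⟨hg0, hg0T⟩
        · exact h3 t
      · rintro (_ | t) a
        · simp only [Option.elim]
          rw [← hc1s a]
          refine Finset.sum_congr ?_ fun _ _ => rfl
          ext i
          simp only [mem_filter, mem_univ, true_and]
          cases hi' : c1 i with
          | some b => rw [hc2a i b hi']; simp
          | none => rw [hc2b i hi']; simp
        · simp only [Option.elim]
          rw [← h4 t a]
          refine Finset.sum_congr ?_ fun _ _ => rfl
          ext i
          simp only [mem_filter, mem_univ, true_and]
          cases hi' : c1 i with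
          | some b =>
            rw [hc2a i b hi']
            have : c i = none := by
              by_contra hcon
              rw [hcc i hcon] at hi'
              exact absurd hi' (by simp)
            simp [this]
          | none =>
            rw [hc2b i hi']
            simp only [Option.map_eq_some_iff, Prod.mk.injEq, Option.some.injEq]
            constructor
            · rintro ⟨x, hx, h5, h6⟩
              rw [hx, ← h5, ← h6]
            · intro h5
              exact ⟨(t, a), h5, rfl, rfl⟩

/-- Greedy grouping. -/
theorem exists_grouping_aux {τ : Type} [DecidableEq τ] (v : τ → ℕ) (A : ℕ) (hA : 0 < A)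
    (hv : ∀ t, v t ≤ A) (s : Finset τ) :
    ∃ (ρ : Type) (_ : Fintype ρ) (_ : DecidableEq ρ) (h : τ → Option ρ),
      (∀ p, A ≤ ∑ t ∈ s.filter (fun t => h t = some p), v t ∧
        ∑ t ∈ s.filter (fun t => h t = some p), v t ≤ 2 * A) ∧
      ∑ t ∈ s.filter (fun t => h t = none), v t < A := by
  classical
  induction s using Finset.induction_on with
  | empty =>
    refine ⟨Empty, inferInstance, inferInstance, fun _ => none, ?_, by simpa using hA⟩
    rintro ⟨⟩
  | insert a s ha ih =>
    obtain ⟨ρ, _, _, h, h1, h2⟩ := ih
    by_cases hlt : ∑ t ∈ s.filter (fun t => h t = none), v t + v a < A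
    · refine ⟨ρ, inferInstance, inferInstance, fun t => if t = a then none else h t, ?_, ?_⟩
      · intro p
        have : (insert a s).filter (fun t => (if t = a then none else h t) = some p) =
            s.filter (fun t => h t = some p) := by
          ext t
          simp only [mem_filter, mem_insert]
          by_cases hta : t = a
          · subst hta
            simp [ha]
          · simp [hta]
        rw [this]
        exact h1 p
      · have : (insert a s).filter (fun t => (if t = a then none else h t) = none) =
            insert a (s.filter (fun t => h t = none)) := by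
          ext t
          simp only [mem_filter, mem_insert]
          by_cases hta : t = a
          · subst hta
            simp
          · simp [hta]
        rw [this, Finset.sum_insert (by simp [ha])]
        omega
    · push Not at hlt
      refine ⟨Option ρ, inferInstance, inferInstance,
        fun t => some (if t = a then none else h t), ?_, ?_⟩
      · rintro (_ | p)
        · have : (insert a s).filter (fun t => some (if t = a then none else h t) = some none) =
              insert a (s.filter (fun t => h t = none)) := by
            ext t
            simp only [mem_filter, mem_insert]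
            by_cases hta : t = a
            · subst hta
              simp
            · simp [hta]
          rw [this, Finset.sum_insert (by simp [ha])]
          have := hv a
          constructor <;> omega
        · have : (insert a s).filter (fun t => some (if t = a then none else h t) =
              some (some p)) = s.filter (fun t => h t = some p) := by
            ext t
            simp only [mem_filter, mem_insert]
            by_cases hta : t = a
            · subst hta
              simp [ha]
            · simp [hta]
          rw [this]
          exact h1 p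
      · have : (insert a s).filter (fun t => some (if t = a then none else h t) = none) = ∅ := by
          ext t
          simp
        rw [this]
        simpa using hA

theorem exists_grouping {τ : Type} [Fintype τ] [DecidableEq τ] (v : τ → ℕ) (A : ℕ) (hA : 0 < A)
    (hv : ∀ t, v t ≤ A) :
    ∃ (ρ : Type) (_ : Fintype ρ) (_ : DecidableEq ρ) (h : τ → ρ),
      ∀ p, ∑ t ∈ univ.filter (fun t => h t = p), v t ≤ 3 * A ∧
        (A ≤ ∑ t ∈ univ.filter (fun t => h t = p), v t ∨ ∀ t, h t = p) := by
  classical
  obtain ⟨ρ, _, _, h, h1, h2⟩ := exists_grouping_aux v A hA hv univ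
  rcases isEmpty_or_nonempty ρ with hE | ⟨⟨p0⟩⟩
  · refine ⟨Unit, inferInstance, inferInstance, fun _ => (), fun p => ⟨?_, Or.inr fun _ => rfl⟩⟩
    have : univ.filter (fun t => h t = none) = univ.filter (fun _ : τ => () = p) := by
      ext t
      simp only [mem_filter, mem_univ, true_and]
      cases h t with
      | none => simp
      | some q => exact (hE.false q).elim
    rw [this] at h2
    beta_reduce
    omega
  · refine ⟨ρ, inferInstance, inferInstance, fun t => (h t).getD p0, fun p => ?_⟩
    obtain ⟨h3, h4⟩ := h1 p
    have hsub : univ.filter (fun t => h t = some p) ⊆ univ.filter (fun t => (h t).getD p0 = p) := by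
      intro t ht
      simp only [mem_filter, mem_univ, true_and] at ht ⊢
      rw [ht]
      rfl
    have hsub2 : univ.filter (fun t => (h t).getD p0 = p) ⊆
        univ.filter (fun t => h t = some p) ∪ univ.filter (fun t => h t = none) := by
      intro t ht
      simp only [mem_filter, mem_univ, true_and, mem_union] at ht ⊢
      cases ht' : h t with
      | none => right; rfl
      | some q =>
        left
        rw [ht'] at ht
        simpa using ht
    refine ⟨?_, Or.inl (h3.trans (Finset.sum_le_sum_of_subset hsub))⟩
    refine (Finset.sum_le_sum_of_subset hsub2).trans ?_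
    rw [Finset.sum_union]
    · omega
    · rw [Finset.disjoint_left]
      intro t h5 h6
      simp only [mem_filter, mem_univ, true_and] at h5 h6
      rw [h5] at h6
      exact absurd h6 (by simp)

end Pool.Agent.MP_dd827d_co
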