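import Pool.Agent.Lib.MP_dd827d_co.Core
import Pool.Agent.Lib.MP_dd827d_co.Equal

/-!
Division of the small parts into realizable classes and a small rest.
-/

namespace Pool.Agent.MP_dd827d_co

open Finset Function

theorem sum_subtype_filter {I : Type} [Fintype I] (n : I → ℕ) (p q : I → Prop)
    [DecidablePred p] [DecidablePred q] :
    ∑ i ∈ (univ : Finset {i // p i}).filter (fun i => q i.1), n i.1 =
      ∑ i ∈ univ.filter (fun i => p i ∧ q i), n i := by
  classical
  rw [Finset.sum_filter, ← Finset.filter_filter, Finset.sum_filter]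
  exact (Finset.sum_subtype (univ.filter p) (fun i => by simp)
    (fun i => if q i then n i else 0)).symm

theorem exists_classes {I : Type} [Fintype I] [DecidableEq I] (n : I → ℕ) (hn : ∀ i, 0 < n i)
    (L M T A : ℕ) (hL : M + 1 < 2 ^ L) (hM : ∑ i, n i ≤ M) (D : Finset I)
    (hT : ∀ i ∈ D, n i ≤ T) (hA : L * L * T ≤ A) (hA0 : 0 < A) :
    ∃ (ρ : Type) (_ : Fintype ρ) (_ : DecidableEq ρ) (f : I → Option ({i // i ∉ D} ⊕ ρ)),
      (∀ (i : {i // i ∉ D}) j, f j = some (Sum.inl i) ↔ j = i.1) ∧
      (∀ p, Realizable (fun i : {i // f i = some (Sum.inr p)} => n i.1)) ∧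
      (∀ p, ∑ i ∈ univ.filter (fun i => f i = some (Sum.inr p)), n i ≤ 3 * A) ∧
      (∑ i ∈ univ.filter (fun i => f i = none), n i ≤ L * L * T) ∧
      (∀ p, A ≤ ∑ i ∈ univ.filter (fun i => f i = some (Sum.inr p)), n i ∨
        ∑ i ∈ univ.filter (fun i => f i = some (Sum.inr p)), n i +
          ∑ i ∈ univ.filter (fun i => f i = none), n i = ∑ i ∈ D, n i) ∧
      ∑ p, ∑ i ∈ univ.filter (fun i => f i = some (Sum.inr p)), n i +
          ∑ i ∈ univ.filter (fun i => f i = none), n i = ∑ i ∈ D, n i := by
  classical
  obtain ⟨τ, _, _, c, g, c1, c2, c3, c4⟩ := exists_extraction n hn L M T hL hM D.card D rfl hT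
  obtain ⟨ρ, _, _, h, hh⟩ := exists_grouping (fun t => 4 * g t) A hA0
    (fun t => (c3 t).2.trans hA)
  let f : I → Option ({i // i ∉ D} ⊕ ρ) := fun i =>
    if hi : i ∉ D then some (Sum.inl ⟨i, hi⟩) else (c i).map fun x => Sum.inr (h x.1)
  have f1 : ∀ i (hi : i ∉ D), f i = some (Sum.inl ⟨i, hi⟩) := fun i hi => dif_pos hi
  have f2 : ∀ i, i ∈ D → f i = (c i).map fun x => Sum.inr (h x.1) := fun i hi =>
    dif_neg (not_not.2 hi)
  have hfp : ∀ i p, f i = some (Sum.inr p) ↔ ∃ x, c i = some x ∧ h x.1 = p := by
    intro i p
    by_cases hi : i ∈ D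
    · rw [f2 i hi, Option.map_eq_some_iff]
      constructor
      · rintro ⟨x, hx, hx'⟩
        exact ⟨x, hx, Sum.inr_injective hx'⟩
      · rintro ⟨x, hx, hx'⟩
        exact ⟨x, hx, by rw [hx']⟩
    · rw [f1 i hi]
      constructor
      · intro h0
        exact absurd (Option.some_injective _ h0) (by simp)
      · rintro ⟨x, hx, -⟩
        exact absurd (c1 i (by rw [hx]; simp)) hi
  have hfn : ∀ i, f i = none ↔ i ∈ D ∧ c i = none := by
    intro i
    by_cases hi : i ∈ D
    · rw [f2 i hi, Option.map_eq_none_iff]
      simp [hi]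
    · rw [f1 i hi]
      simp [hi]
  -- group sums
  have hpa : ∀ p (a : Fin 4), ∑ i ∈ univ.filter (fun i => f i = some (Sum.inr p) ∧
      (c i).map Prod.snd = some a), n i = ∑ t ∈ univ.filter (fun t => h t = p), g t := by
    intro p a
    rw [Finset.sum_congr rfl fun t _ => (c4 t a).symm, ← Finset.sum_biUnion]
    · refine Finset.sum_congr ?_ fun _ _ => rfl
      ext i
      simp only [mem_filter, mem_univ, true_and, mem_biUnion, hfp, Option.map_eq_some_iff]
      constructor
      · rintro ⟨⟨x, hx, hx'⟩, y, hy, hy'⟩
        rw [hx] at hy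
        obtain rfl := Option.some_injective _ hy
        exact ⟨x.1, hx', by rw [hx, ← hy']⟩
      · rintro ⟨t, ht, ht'⟩
        exact ⟨⟨(t, a), ht', ht⟩, (t, a), ht', rfl⟩
    · intro t _ t' _ htt
      rw [Function.onFun, Finset.disjoint_left]
      intro i h1 h2
      simp only [mem_filter, mem_univ, true_and] at h1 h2
      rw [h1] at h2
      exact htt (congrArg Prod.fst (Option.some_injective _ h2))
  have hp : ∀ p, ∑ i ∈ univ.filter (fun i => f i = some (Sum.inr p)), n i =
      ∑ t ∈ univ.filter (fun t => h t = p), 4 * g t := by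
    intro p
    have h1 : ∑ i ∈ univ.filter (fun i => f i = some (Sum.inr p)), n i =
        ∑ a : Fin 4, ∑ i ∈ univ.filter (fun i => f i = some (Sum.inr p) ∧
          (c i).map Prod.snd = some a), n i := by
      rw [← Finset.sum_biUnion]
      · refine Finset.sum_congr ?_ fun _ _ => rfl
        ext i
        simp only [mem_filter, mem_univ, true_and, mem_biUnion, hfp, Option.map_eq_some_iff]
        constructor
        · rintro ⟨x, hx, hx'⟩
          exact ⟨x.2, ⟨x, hx, hx'⟩, x, hx, rfl⟩
        · rintro ⟨a, h1, -⟩
          exact h1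
      · intro a _ b _ hab
        rw [Function.onFun, Finset.disjoint_left]
        intro i h1 h2
        simp only [mem_filter, mem_univ, true_and] at h1 h2
        exact hab (Option.some_injective _ (h1.2.symm.trans h2.2))
    rw [h1, Finset.sum_congr rfl fun a _ => hpa p a, ← Finset.mul_sum]
    simp
  have htot : ∑ p, ∑ i ∈ univ.filter (fun i => f i = some (Sum.inr p)), n i +
      ∑ i ∈ univ.filter (fun i => f i = none), n i = ∑ i ∈ D, n i := by
    rw [← Finset.sum_filter_add_sum_filter_not D (fun i => c i ≠ none)]
    congr 1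
    · rw [← Finset.sum_biUnion]
      · refine Finset.sum_congr ?_ fun _ _ => rfl
        ext i
        simp only [mem_filter, mem_univ, true_and, mem_biUnion, hfp]
        constructor
        · rintro ⟨p, x, hx, -⟩
          have : c i ≠ none := by rw [hx]; simp
          exact ⟨c1 i this, this⟩
        · rintro ⟨-, h2⟩
          obtain ⟨x, hx⟩ := Option.ne_none_iff_exists'.1 h2
          exact ⟨h x.1, x, hx, rfl⟩
      · intro p _ p' _ hpp
        rw [Function.onFun, Finset.disjoint_left]
        intro i h1 h2
        simp only [mem_filter, mem_univ, true_and] at h1 h2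
        rw [h1] at h2
        exact hpp (Sum.inr_injective (Option.some_injective _ h2))
    · refine Finset.sum_congr ?_ fun _ _ => rfl
      ext i
      simp only [mem_filter, mem_univ, true_and, hfn, not_not]
  refine ⟨ρ, inferInstance, inferInstance, f, fun i j => ?_, fun p => ?_, fun p => ?_, ?_,
    fun p => ?_, htot⟩
  · by_cases hj : j ∈ D
    · rw [f2 j hj, Option.map_eq_some_iff]
      constructor
      · rintro ⟨x, -, hx⟩
        exact absurd hx (by simp)
      · intro h0
        exact absurd (h0 ▸ hj) i.2
    · rw [f1 j hj]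
      constructor
      · intro h0
        exact congrArg Subtype.val (Sum.inl_injective (Option.some_injective _ h0))
      · rintro rfl
        rfl
  · -- four groups
    refine four_groups (I := {i // f i = some (Sum.inr p)}) (fun i => n i.1) (fun i => hn i.1)
      (fun i => (c i.1).map Prod.snd) (∑ t ∈ univ.filter (fun t => h t = p), g t) 0
      (Nat.zero_le _) (fun a => ?_) ?_ ?_
    · rw [sum_subtype_filter n (fun i => f i = some (Sum.inr p))
        (fun i => (c i).map Prod.snd = some a)]
      exact hpa p a
    · rw [Nat.mul_zero]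
      refine Finset.sum_eq_zero fun i hi => ?_
      simp only [mem_filter, mem_univ, true_and, Option.map_eq_none_iff] at hi
      obtain ⟨x, hx, -⟩ := (hfp i.1 p).1 i.2
      rw [hx] at hi
      exact absurd hi (by simp)
    · refine realizable_empty (I := {i // f i = some (Sum.inr p)}) (fun i => n i.1)
        (p := fun i => (c i.1).map Prod.snd = none) fun i hi => ?_
      rw [Option.map_eq_none_iff] at hi
      obtain ⟨x, hx, -⟩ := (hfp i.1 p).1 i.2
      rw [hx] at hi
      exact absurd hi (by simp)
  · rw [hp]
    exact (hh p).1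
  · calc ∑ i ∈ univ.filter (fun i => f i = none), n i
        ≤ ∑ _i ∈ univ.filter (fun i => f i = none), T := Finset.sum_le_sum fun i hi => by
          simp only [mem_filter, mem_univ, true_and, hfn] at hi
          exact hT i hi.1
      _ = (univ.filter (fun i => f i = none)).card * T := by simp
      _ ≤ L * L * T := by
        refine Nat.mul_le_mul_right T (le_trans (Finset.card_le_card ?_) c2.le)
        intro i hi
        simp only [mem_filter, mem_univ, true_and, hfn] at hi ⊢
        exact hi
  · rcases (hh p).2 with h1 | h1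
    · left
      rw [hp]
      exact h1
    · right
      rw [← htot]
      congr 1
      symm
      refine Finset.sum_eq_single p (fun q _ hq => ?_) (by simp)
      rw [hp]
      refine Finset.sum_eq_zero fun t ht => ?_
      simp only [mem_filter, mem_univ, true_and] at ht
      exact absurd (ht.symm.trans (h1 t)) hq

end Pool.Agent.MP_dd827d_co
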