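import Pool.Agent.Lib.MP_dd827d_co.Main

/-!
Explicit families of realizable partitions.
-/

namespace Pool.Agent.MP_dd827d_co

open Finset Function

variable {I : Type} [Fintype I] [DecidableEq I] (n : I → ℕ)

theorem realizable_inst {J : Type} (m : J → ℕ) (i1 i2 : Fintype J)
    (h : @Realizable J i1 m) : @Realizable J i2 m := by
  obtain rfl : i1 = i2 := Subsingleton.elim _ _
  exact h

theorem realizable_congr {p q : I → Prop} [DecidablePred p] [DecidablePred q]
    (h : ∀ i, p i ↔ q i) (hr : Realizable (fun i : {i // p i} => n i.1)) :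
    Realizable (fun i : {i // q i} => n i.1) := by
  obtain rfl : p = q := funext fun i => propext (h i)
  exact realizable_inst _ _ _ hr

theorem realizable_empty {p : I → Prop} [DecidablePred p] (h : ∀ i, ¬ p i) :
    Realizable (fun i : {i // p i} => n i.1) := by
  have : IsEmpty {i // p i} := ⟨fun i => h i.1 i.2⟩
  refine ⟨Empty, inferInstance, fun a => a.elim, ⟨fun a => a.elim, fun a => a.elim⟩, by simp,
    fun i => isEmptyElim i, fun i => isEmptyElim i, ?_⟩
  ext x
  exact x.elim

theorem sum_fiber {T : Type} [Fintype T] [DecidableEq T] (f : I → T) (P : T → Prop)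
    [DecidablePred P] : ∑ i ∈ univ.filter (fun i => P (f i)), n i =
      ∑ t ∈ univ.filter P, ∑ i ∈ univ.filter (fun i => f i = t), n i := by
  rw [← Finset.sum_fiberwise_of_maps_to (t := univ.filter P) (g := f)]
  · refine Finset.sum_congr rfl fun t ht => ?_
    refine Finset.sum_congr ?_ fun _ _ => rfl
    ext i
    simp only [mem_filter, mem_univ, true_and] at ht ⊢
    exact ⟨fun h => h.2, fun h => ⟨h ▸ ht, h⟩⟩
  · intro i hi
    simpa using hi

/-- Four groups of equal sum `m`, and a realizable group of even sum `2 ρ ≤ 2 m`. -/
theorem four_groups (hn : ∀ i, 0 < n i) (f : I → Option (Fin 4)) (m ρ : ℕ) (hρ : ρ ≤ m)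
    (hf : ∀ a : Fin 4, ∑ i ∈ univ.filter (fun i => f i = some a), n i = m)
    (hf' : ∑ i ∈ univ.filter (fun i => f i = none), n i = 2 * ρ)
    (hr : Realizable (fun i : {i // f i = none} => n i.1)) : Realizable n := by
  let φ : Fin 4 → Bool × Bool := ![(false, false), (false, true), (true, false), (true, true)]
  have hφ : Injective φ := by decide
  have key : ∀ (u : Bool × Bool → Bool) (a : Bool),
      ((univ : Finset (Option (Fin 4))).filter (fun t => (t.map φ).map u = some a)).card = 2 →
      ∑ i ∈ univ.filter (fun i => ((f i).map φ).map u = some a), n i + ρ = 2 * m + ρ := by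
    intro u a hc
    rw [sum_fiber n f (fun t => (t.map φ).map u = some a)]
    congr 1
    rw [← hc, ← smul_eq_mul, ← Finset.sum_const]
    refine Finset.sum_congr rfl fun t ht => ?_
    cases t with
    | none => simp at ht
    | some t => exact hf t
  have hbin : ∀ a b, ∑ i ∈ univ.filter (fun i => (f i).map φ = some (a, b)), n i ≤ m := by
    intro a b
    obtain ⟨t, ht⟩ : ∃ t, φ t = (a, b) := by
      revert a b; decide
    rw [← hf t]
    refine Finset.sum_le_sum_of_subset fun i hi => ?_
    simp only [mem_filter, mem_univ, true_and, Option.map_eq_some_iff] at hi ⊢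
    obtain ⟨t', ht', h2⟩ := hi
    rw [ht', hφ (h2.trans ht.symm)]
  refine frames_hole n hn (S := Bool) (Λ := xor) (by unfold Latin; decide)
    (fun i => (f i).map φ) (2 * m + ρ) ρ (fun a => key _ a ?_) (fun a => key _ a ?_)
    (fun a => key (fun p => xor p.1 p.2) a ?_) ?_ ?_ ?_ ?_
  · revert a; decide
  · revert a; decide
  · revert a; decide
  · intro a b
    have := hbin a b
    omega
  · intro a b
    have := hbin a b
    omega
  · simp only [Option.map_eq_none_iff]
    rw [hf']
    simp
  · exact realizable_congr n (fun i => by simp) hr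

/-- Six groups of equal sum `g`, and an arbitrary group of sum at most `2 g`. -/
theorem six_groups (hn : ∀ i, 0 < n i) (f : I → Option (Fin 6)) (g : ℕ)
    (hf : ∀ a : Fin 6, ∑ i ∈ univ.filter (fun i => f i = some a), n i = g)
    (hf' : ∑ i ∈ univ.filter (fun i => f i = none), n i ≤ 2 * g) : Realizable n := by
  let φ : Fin 6 → Fin 3 × Fin 3 := ![(0, 1), (1, 2), (2, 0), (0, 2), (1, 0), (2, 1)]
  have hφ : Injective φ := by decide
  have key : ∀ (u : Fin 3 × Fin 3 → Fin 3) (a : Fin 3),
      ((univ : Finset (Option (Fin 6))).filter (fun t => (t.map φ).map u = some a)).card = 2 →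
      ∑ i ∈ univ.filter (fun i => ((f i).map φ).map u = some a), n i = 2 * g := by
    intro u a hc
    rw [sum_fiber n f (fun t => (t.map φ).map u = some a), ← hc, ← smul_eq_mul,
      ← Finset.sum_const]
    refine Finset.sum_congr rfl fun t ht => ?_
    cases t with
    | none => simp at ht
    | some t => exact hf t
  refine frames_transversal n hn (S := Fin 3) (Λ := fun a b => a + b) (by unfold Latin; decide)
    (Equiv.refl _) (by decide) 0 (fun i => (f i).map φ) (2 * g) (fun a => key _ a ?_)
    (fun a => key _ a ?_) (fun a => key (fun p => p.1 + p.2) a ?_) ?_ ?_ ?_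
  · revert a; decide
  · revert a; decide
  · revert a; decide
  · simpa using hf'
  · intro i a h
    simp only [Option.map_eq_some_iff] at h
    obtain ⟨t, -, ht⟩ := h
    revert ht
    revert a t
    decide
  · intro a b hab
    left
    have : ∃ t, φ t = (a, b) := by
      revert a b; decide
    obtain ⟨t, ht⟩ := this
    rw [← hf t]
    refine Nat.mul_le_mul_left 2 (Finset.sum_le_sum_of_subset fun i hi => ?_)
    simp only [mem_filter, mem_univ, true_and, Option.map_eq_some_iff] at hi ⊢
    obtain ⟨t', ht', h2⟩ := hi
    rw [ht', hφ (h2.trans ht.symm)]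

/-- `s` realizable groups of equal sum `N` (`s ≥ 3` odd), and an arbitrary group of sum at
most `N`. -/
theorem odd_groups (hn : ∀ i, 0 < n i) (s : ℕ) (hs : Odd s) (hs3 : 3 ≤ s)
    (f : I → Option (ZMod s)) (N : ℕ)
    (hf : ∀ a : ZMod s, ∑ i ∈ univ.filter (fun i => f i = some a), n i = N)
    (hr : ∀ a : ZMod s, Realizable (fun i : {i // f i = some a} => n i.1))
    (hf' : ∑ i ∈ univ.filter (fun i => f i = none), n i ≤ N) : Realizable n := by
  have : Fact (1 < s) := ⟨by omega⟩
  have : NeZero s := ⟨by omega⟩
  have h2 : Injective fun a : ZMod s => a + a := by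
    intro a b hab
    have h2u : IsUnit (2 : ZMod s) := by
      have := (ZMod.unitOfCoprime 2 (Nat.coprime_two_left.2 hs)).isUnit
      simpa using this
    simp only [← two_mul] at hab
    exact h2u.mul_left_cancel hab
  have h01 : (1 : ZMod s) ≠ 0 := one_ne_zero
  refine frames_transversal n hn (S := ZMod s) (Λ := fun a b => a + b)
    ⟨fun a b c h => add_left_cancel h, fun b a c h => add_right_cancel h⟩
    (Equiv.refl _) h2 0 (fun i => (f i).map fun a => (a, a + 1)) N ?_ ?_ ?_ ?_ ?_ ?_
  · intro a
    rw [← hf a]
    refine Finset.sum_congr ?_ fun _ _ => rfl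
    ext i
    simp only [mem_filter, mem_univ, true_and]
    cases f i <;> simp
  · intro a
    rw [← hf (a - 1)]
    refine Finset.sum_congr ?_ fun _ _ => rfl
    ext i
    simp only [mem_filter, mem_univ, true_and]
    cases f i <;> simp [eq_sub_iff_add_eq]
  · intro a
    obtain ⟨c, hc⟩ := (Finite.injective_iff_surjective.1 h2) (a - 1)
    simp only at hc
    rw [← hf c]
    refine Finset.sum_congr ?_ fun _ _ => rfl
    ext i
    simp only [mem_filter, mem_univ, true_and]
    cases f i with
    | none => simp
    | some b =>
      simp only [Option.map_some, Option.some.injEq]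
      rw [← add_assoc, ← eq_sub_iff_add_eq, ← hc]
      exact ⟨fun h => h2 h, fun h => by rw [h]⟩
  · simpa using hf'
  · intro i a h
    simp only [Option.map_eq_some_iff, Prod.mk.injEq, Equiv.refl_apply] at h
    obtain ⟨t, -, rfl, ht⟩ := h
    simp at ht
  · intro a b hab
    by_cases hb : b = a + 1
    · right
      have he : ∀ i, f i = some a ↔ (f i).map (fun a => (a, a + 1)) = some (a, b) := by
        intro i
        cases f i <;> simp [hb]
      refine ⟨?_, realizable_congr n he (hr a)⟩
      rw [← hf a]
      refine Finset.sum_congr ?_ fun _ _ => rfl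
      ext i
      simp only [mem_filter, mem_univ, true_and]
      exact (he i).symm
    · left
      have : univ.filter (fun i => (f i).map (fun a => (a, a + 1)) = some (a, b)) = ∅ := by
        ext i
        simp only [mem_filter, mem_univ, true_and, notMem_empty, iff_false]
        cases f i with
        | none => simp
        | some c =>
          simp only [Option.map_some, Option.some.injEq, Prod.mk.injEq, not_and]
          rintro rfl h
          exact hb h.symm
      rw [this]
      simp

end Pool.Agent.MP_dd827d_co
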