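import Pool.Agent.Lib.MP_dd827d_co.LP
import Pool.Agent.Lib.MP_dd827d_co.Refine
import Pool.Agent.Lib.MP_dd827d_co.Merge

/-!
The core theorem: few large realizable groups and a very small arbitrary rest.
-/

namespace Pool.Agent.MP_dd827d_co

open Finset Function

/-- Integral outlines from sizes at most `(1/4 - θ) S`, with slack. -/
theorem exists_nat_outline {J : Type*} [Fintype J] [DecidableEq J] (N : J → ℕ) (S : ℕ)
    (hS : ∑ a, N a = S) (hS0 : 0 < S) (θ : ℝ) (hθ0 : 0 < θ) (hθ : θ ≤ 1 / 4)
    (hle : ∀ a, (N a : ℝ) ≤ (1 / 4 - θ) * S)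
    (hsl : ∀ a b d, a ≠ b → b ≠ d → a ≠ d →
      2 * (Fintype.card J : ℝ) + 9 ≤ 2 * θ ^ 2 / 9 * ((N a : ℝ) * N b * N d) / S) :
    ∃ x : J → J → J → ℕ, IsOutline N x ∧ ∀ a b d, a ≠ b → b ≠ d → a ≠ d →
      2 * θ ^ 2 / 9 * ((N a : ℝ) * N b * N d) / S - (2 * Fintype.card J + 9) ≤ x a b d := by
  have hSr : (0 : ℝ) < S := by exact_mod_cast hS0
  have hSsum : ∑ a, (N a : ℝ) = S := by exact_mod_cast hS
  obtain ⟨y, hy, hyl⟩ := exists_real_outline (fun a => (N a : ℝ)) (fun a => Nat.cast_nonneg _) S
    hSsum hSr θ hθ0.le hθ hle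
  have hcard : 5 ≤ Fintype.card J := by
    have h1 : (S : ℝ) ≤ Fintype.card J * ((1 / 4 - θ) * S) := by
      calc (S : ℝ) = ∑ a, (N a : ℝ) := hSsum.symm
        _ ≤ ∑ _a : J, (1 / 4 - θ) * (S : ℝ) := Finset.sum_le_sum fun a _ => hle a
        _ = _ := by simp
    by_contra h
    push Not at h
    have h2 : (Fintype.card J : ℝ) ≤ 4 := by
      have : Fintype.card J ≤ 4 := by omega
      exact_mod_cast this
    have h3 : 0 ≤ (Fintype.card J : ℝ) := Nat.cast_nonneg _
    have h4 : (Fintype.card J : ℝ) * ((1 / 4 - θ) * S) ≤ 4 * ((1 / 4 - θ) * S) := by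
      refine mul_le_mul_of_nonneg_right h2 (mul_nonneg (by linarith) hSr.le)
    have h5 : 0 < θ * S := mul_pos hθ0 hSr
    nlinarith
  obtain ⟨x, hx, hxl⟩ := round3 hcard N y hy fun a b d h1 h2 h3 =>
    (hsl a b d h1 h2 h3).trans (hyl a b d h1 h2 h3)
  refine ⟨x, hx, fun a b d h1 h2 h3 => ?_⟩
  have := hxl a b d h1 h2 h3
  have := hyl a b d h1 h2 h3
  linarith

/-- **Core theorem.** -/
theorem core {I J : Type} [Fintype I] [DecidableEq I] [Fintype J] [DecidableEq J] (n : I → ℕ)
    (hn : ∀ i, 0 < n i) (f : I → Option J) (θ Λ h : ℝ) (hθ0 : 0 < θ) (hθ : θ ≤ 1 / 4)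
    (hΛ : 1 ≤ Λ) (h0 : 0 < h) (S : ℕ) (hS : ∑ i, n i = S)
    (hgrp : ∀ a : J, Realizable fun i : {i // f i = some a} => n i.1)
    (hle : ∀ a : J, ((∑ i ∈ univ.filter (fun i => f i = some a), n i : ℕ) : ℝ) ≤
      (1 / 4 - θ) * S)
    (hge : ∀ a : J, (S : ℝ) / Λ ≤ ((∑ i ∈ univ.filter (fun i => f i = some a), n i : ℕ) : ℝ))
    (u v w : J) (huv : u ≠ v) (hvw : v ≠ w) (huw : u ≠ w)
    (hu : h ≤ ((∑ i ∈ univ.filter (fun i => f i = some u), n i : ℕ) : ℝ))
    (hv : h ≤ ((∑ i ∈ univ.filter (fun i => f i = some v), n i : ℕ) : ℝ))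
    (hw : h ≤ ((∑ i ∈ univ.filter (fun i => f i = some w), n i : ℕ) : ℝ))
    (hs : ((∑ i ∈ univ.filter (fun i => f i = none), n i : ℕ) : ℝ) ≤ θ ^ 2 / 9 * h ^ 2 / S)
    (hbig : 117 * Λ ^ 3 / θ ^ 2 ≤ S) : Realizable n := by
  classical
  set N : J → ℕ := fun a => ∑ i ∈ univ.filter (fun i => f i = some a), n i with hN
  set s : ℕ := ∑ i ∈ univ.filter (fun i => f i = none), n i with hsdef
  have hθ2 : 0 < θ ^ 2 := by positivity
  have hSr : (0 : ℝ) < S := lt_of_lt_of_le (by positivity) hbig
  have hS0 : 0 < S := by exact_mod_cast hSr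
  have hNs : s + ∑ a, N a = S := by
    rw [← hS, ← Finset.sum_fiberwise_of_maps_to (t := univ) (g := f) (fun _ _ => mem_univ _),
      Fintype.sum_option]
  -- number of classes
  have hcardJ : (Fintype.card J : ℝ) ≤ Λ := by
    have h1 : (Fintype.card J : ℝ) * (S / Λ) ≤ S := by
      calc (Fintype.card J : ℝ) * (S / Λ) = ∑ _a : J, (S : ℝ) / Λ := by simp
        _ ≤ ∑ a, (N a : ℝ) := Finset.sum_le_sum fun a _ => hge a
        _ ≤ (S : ℝ) := by
          have : ∑ a, N a ≤ S := by omega
          exact_mod_cast this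
    rw [mul_div_assoc', div_le_iff₀ (by linarith)] at h1
    exact le_of_mul_le_mul_right (by linarith) hSr
  have hbig' : 117 * Λ ^ 3 ≤ S * θ ^ 2 := (div_le_iff₀ hθ2).1 hbig
  -- slack between large classes
  have hΛ0 : 0 < Λ := by linarith
  have hNbig : ∀ a b d, 2 * (2 * (Λ + 1) + 9) ≤ 2 * θ ^ 2 / 9 * ((N a : ℝ) * N b * N d) / S := by
    intro a b d
    have h1 : ((S : ℝ) / Λ) * (S / Λ) * (S / Λ) ≤ (N a : ℝ) * N b * N d := by
      have ha := hge a
      have hb := hge b
      have hd := hge d
      have h2 : 0 ≤ (S : ℝ) / Λ := by positivity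
      gcongr
    rw [le_div_iff₀ hSr]
    have h3 : 2 * (2 * (Λ + 1) + 9) * S ≤ 2 * θ ^ 2 / 9 * (((S : ℝ) / Λ) * (S / Λ) * (S / Λ)) := by
      have e : 2 * θ ^ 2 / 9 * (((S : ℝ) / Λ) * (S / Λ) * (S / Λ)) =
        (2 * S ^ 2 / (9 * Λ ^ 3)) * (S * θ ^ 2) := by field_simp
      rw [e]
      have h4 : 2 * (S : ℝ) ^ 2 / (9 * Λ ^ 3) * (117 * Λ ^ 3) ≤
          2 * S ^ 2 / (9 * Λ ^ 3) * (S * θ ^ 2) := mul_le_mul_of_nonneg_left hbig' (by positivity)
      have e2 : 2 * (S : ℝ) ^ 2 / (9 * Λ ^ 3) * (117 * Λ ^ 3) = 26 * S * S := by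
        field_simp
        ring
      rw [e2] at h4
      refine le_trans ?_ h4
      have h5 : Λ ≤ S := by
        have h6 : Λ ≤ Λ ^ 3 := by
          calc Λ = Λ ^ 1 := (pow_one _).symm
            _ ≤ Λ ^ 3 := pow_le_pow_right₀ hΛ (by norm_num)
        have h7 : θ ^ 2 ≤ 1 := by nlinarith
        nlinarith
      have h6 : 1 ≤ (S : ℝ) := by exact_mod_cast hS0
      have h7 : 2 * (2 * (Λ + 1) + 9) ≤ 26 * S := by linarith
      exact mul_le_mul_of_nonneg_right h7 hSr.le
    refine h3.trans ?_
    exact mul_le_mul_of_nonneg_left h1 (by positivity)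
  -- realizability of the coarse family
  have hcoarse : Realizable (Sum.elim N (fun k : {i // f i = none} => n k.1)) := by
    rcases Nat.eq_zero_or_pos s with hs0 | hs0
    · -- no rest
      have hemp : IsEmpty {i // f i = none} := by
        refine ⟨fun k => ?_⟩
        have h1 : n k.1 ≤ s := Finset.single_le_sum (f := n) (fun i _ => Nat.zero_le _)
          (by simp [k.2])
        have := hn k.1
        omega
      obtain ⟨x, hx, -⟩ := exists_nat_outline N S (by omega) hS0 θ hθ0 hθ hle fun a b d _ _ _ => by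
        have := hNbig a b d
        linarith
      have hR : Realizable N := Realizable.of_outline N (fun a => by
        have h1 : (0 : ℝ) < N a := lt_of_lt_of_le (by positivity) (hge a)
        exact_mod_cast h1) x hx
      refine Realizable.reindex (Equiv.sumEmpty J {i // f i = none}).symm ?_
      exact hR
    · -- with rest
      have hs1 : (1 : ℝ) ≤ s := by exact_mod_cast hs0
      let N' : Option J → ℕ := fun a => a.elim s N
      have hN'sum : ∑ a, N' a = S := by
        rw [Fintype.sum_option]
        exact hNs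
      have hsS : (s : ℝ) * S ≤ θ ^ 2 / 9 * h ^ 2 := (le_div_iff₀ hSr).1 hs
      have hhS : h ≤ (1 / 4 - θ) * S := hu.trans (hle u)
      have hsle : (s : ℝ) ≤ (1 / 4 - θ) * S := by
        have h1 : 0 < (1 / 4 - θ) * S := lt_of_lt_of_le h0 hhS
        have h2 : h ^ 2 ≤ ((1 / 4 - θ) * S) * ((1 / 4 - θ) * S) := by
          rw [pow_two]
          exact mul_le_mul hhS hhS h0.le h1.le
        have h3 : (1 / 4 - θ) * S ≤ S := by nlinarith
        have h4 : h ^ 2 ≤ ((1 / 4 - θ) * S) * S := h2.trans (mul_le_mul_of_nonneg_left h3 h1.le)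
        have h5 : θ ^ 2 / 9 ≤ 1 := by nlinarith
        have h6 : (s : ℝ) * S ≤ ((1 / 4 - θ) * S) * S := by
          calc (s : ℝ) * S ≤ θ ^ 2 / 9 * h ^ 2 := hsS
            _ ≤ 1 * (((1 / 4 - θ) * S) * S) := by gcongr
            _ = _ := one_mul _
        exact le_of_mul_le_mul_right h6 hSr
      have hcardO : (Fintype.card (Option J) : ℝ) ≤ Λ + 1 := by
        rw [Fintype.card_option]
        push_cast
        linarith
      -- slack for triples with the rest class
      have hmix : ∀ a b : J, 2 * (2 * (Λ + 1) + 9) ≤ 2 * θ ^ 2 / 9 * ((N a : ℝ) * N b * s) / S := by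
        intro a b
        have ha := hge a
        have hb := hge b
        have h1 : ((S : ℝ) / Λ) * (S / Λ) * 1 ≤ (N a : ℝ) * N b * s := by
          have h2 : 0 ≤ (S : ℝ) / Λ := by positivity
          gcongr
        rw [le_div_iff₀ hSr]
        have e : 2 * θ ^ 2 / 9 * (((S : ℝ) / Λ) * (S / Λ) * 1) =
          (2 * S / (9 * Λ ^ 2)) * (S * θ ^ 2) := by field_simp
        have h4 : 2 * (S : ℝ) / (9 * Λ ^ 2) * (117 * Λ ^ 3) ≤
            2 * S / (9 * Λ ^ 2) * (S * θ ^ 2) := mul_le_mul_of_nonneg_left hbig' (by positivity)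
        have e2 : 2 * (S : ℝ) / (9 * Λ ^ 2) * (117 * Λ ^ 3) = 26 * Λ * S := by
          field_simp
          ring
        rw [e2, ← e] at h4
        have h5 : 2 * (2 * (Λ + 1) + 9) * S ≤ 26 * Λ * S := by
          have : 2 * (2 * (Λ + 1) + 9) ≤ 26 * Λ := by linarith
          exact mul_le_mul_of_nonneg_right this hSr.le
        exact (h5.trans h4).trans (mul_le_mul_of_nonneg_left h1 (by positivity))
      obtain ⟨x, hx, hxl⟩ := exists_nat_outline N' S hN'sum hS0 θ hθ0 hθ (by
        rintro (_ | a)
        · exact hsle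
        · exact hle a) (by
        intro a b d hab hbd had
        have hc : 2 * (Fintype.card (Option J) : ℝ) + 9 ≤ 2 * (2 * (Λ + 1) + 9) := by linarith
        refine hc.trans ?_
        rcases a with _ | a <;> rcases b with _ | b <;> rcases d with _ | d
        · exact absurd rfl hab
        · exact absurd rfl hab
        · exact absurd rfl had
        · refine (hmix b d).trans (le_of_eq ?_)
          simp only [N', Option.elim]
          ring
        · exact absurd rfl hbd
        · refine (hmix a d).trans (le_of_eq ?_)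
          simp only [N', Option.elim]
          ring
        · refine (hmix a b).trans (le_of_eq ?_)
          simp only [N', Option.elim]
        · exact hNbig a b d)
      have hsK : ∑ k : {i // f i = none}, n k.1 = s := by
        rw [hsdef]
        exact (Finset.sum_subtype _ (fun i => by simp) _).symm
      -- the three corner entries
      have hcorner : ∀ a b : J, h ≤ N a → h ≤ N b → ((s * s : ℕ) : ℝ) ≤
          2 * θ ^ 2 / 9 * ((N a : ℝ) * N b * s) / S - (2 * Fintype.card (Option J) + 9) := by
        intro a b ha hb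
        have h1 : 2 * ((s : ℝ) * s) ≤ 2 * θ ^ 2 / 9 * ((N a : ℝ) * N b * s) / S := by
          rw [le_div_iff₀ hSr]
          have h2 : h ^ 2 ≤ (N a : ℝ) * N b := by
            rw [pow_two]
            exact mul_le_mul ha hb h0.le (Nat.cast_nonneg _)
          have h3 : (s : ℝ) * S ≤ θ ^ 2 / 9 * ((N a : ℝ) * N b) :=
            hsS.trans (mul_le_mul_of_nonneg_left h2 (by positivity))
          have h4 := mul_le_mul_of_nonneg_right h3 (by linarith : (0 : ℝ) ≤ s)
          linarith
        have h2 := hmix a b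
        push_cast
        linarith
      obtain ⟨x', hx'⟩ := refine_class N (fun k : {i // f i = none} => n k.1) x (by
          rw [hsK]
          exact hx) u v w huv hvw huw (by
          rw [hsK]
          have h1 := hxl none (some v) (some w) (by simp) (by simpa using hvw) (by simp)
          have h2 := hcorner v w hv hw
          have h3 : ((s * s : ℕ) : ℝ) ≤ x none (some v) (some w) := by
            refine h2.trans (le_trans (le_of_eq ?_) h1)
            simp only [N', Option.elim]
            ring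
          exact_mod_cast h3) (by
          rw [hsK]
          have h1 := hxl (some u) none (some w) (by simp) (by simp) (by simpa using huw)
          have h2 := hcorner u w hu hw
          have h3 : ((s * s : ℕ) : ℝ) ≤ x (some u) none (some w) := by
            refine h2.trans (le_trans (le_of_eq ?_) h1)
            simp only [N', Option.elim]
            ring
          exact_mod_cast h3) (by
          rw [hsK]
          have h1 := hxl (some u) (some v) none (by simpa using huv) (by simp) (by simp)
          have h2 := hcorner u v hu hv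
          have h3 : ((s * s : ℕ) : ℝ) ≤ x (some u) (some v) none := by
            refine h2.trans (le_trans (le_of_eq ?_) h1)
            simp only [N', Option.elim]
          exact_mod_cast h3)
      refine Realizable.of_outline _ ?_ x' hx'
      rintro (a | k)
      · have h1 : (0 : ℝ) < N a := lt_of_lt_of_le (by positivity) (hge a)
        exact_mod_cast h1
      · exact hn k.1
  -- merge
  let φ : I → J ⊕ {i // f i = none} := fun i =>
    if hi : f i = none then Sum.inr ⟨i, hi⟩ else Sum.inl ((f i).get (Option.ne_none_iff_isSome.1 hi))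
  have hφ1 : ∀ i a, φ i = Sum.inl a ↔ f i = some a := by
    intro i a
    simp only [φ]
    by_cases hi : f i = none
    · rw [dif_pos hi, hi]
      simp
    · rw [dif_neg hi, Sum.inl.injEq]
      constructor
      · intro h1
        rw [← h1, Option.some_get]
      · intro h1
        simp [h1]
  have hφ2 : ∀ i k, φ i = Sum.inr k ↔ i = k.1 := by
    intro i k
    simp only [φ]
    by_cases hi : f i = none
    · rw [dif_pos hi]
      constructor
      · intro h1
        exact congrArg Subtype.val (Sum.inr_injective h1)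
      · rintro rfl
        rfl
    · rw [dif_neg hi]
      constructor
      · intro h1
        exact absurd h1 (by simp)
      · rintro rfl
        exact absurd k.2 hi
  refine Realizable.merge hn φ ?_ ?_
  · have he : (fun a : J ⊕ {i // f i = none} => ∑ i ∈ univ.filter (fun i => φ i = a), n i) =
        Sum.elim N (fun k : {i // f i = none} => n k.1) := by
      funext a
      rcases a with a | k
      · simp only [Sum.elim_inl, hφ1, hN]
      · simp only [Sum.elim_inr, hφ2]
        rw [Finset.filter_eq' univ k.1, if_pos (mem_univ _), Finset.sum_singleton]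
    rw [he]
    exact hcoarse
  · rintro (a | k)
    · exact realizable_congr n (fun i => (hφ1 i a).symm) (hgrp a)
    · have : Unique {i // φ i = Sum.inr k} :=
        { default := ⟨k.1, (hφ2 _ _).2 rfl⟩
          uniq := fun i => Subtype.ext ((hφ2 _ _).1 i.2) }
      exact realizable_unique fun i => hn i.1

end Pool.Agent.MP_dd827d_co
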