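import Pool.Agent.Lib.MP_dd827d_co.Merge

/-!
Four classes of sizes `(h, m, m, m)` with `h ≤ 2 m`.
-/

namespace Pool.Agent.MP_dd827d_co

open Finset Function

/-- the outline for `(h, m, m, m)` -/
def k4x (lo hi p q : ℕ) : Fin 4 → Fin 4 → Fin 4 → ℕ :=
  ![![![0, 0, 0, 0], ![0, 0, lo, hi], ![0, hi, 0, lo], ![0, lo, hi, 0]],
    ![![0, 0, hi, lo], ![0, 0, 0, 0], ![lo, 0, 0, p], ![hi, 0, q, 0]],
    ![![0, lo, 0, hi], ![hi, 0, 0, q], ![0, 0, 0, 0], ![lo, p, 0, 0]],
    ![![0, hi, lo, 0], ![lo, 0, p, 0], ![hi, q, 0, 0], ![0, 0, 0, 0]]]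

theorem isOutline_k4x {h m lo hi p q : ℕ} (h1 : lo + hi = h * m) (h2 : lo + p = m * m)
    (h3 : hi + q = m * m) : IsOutline (![h, m, m, m] : Fin 4 → ℕ) (k4x lo hi p q) where
  off12 := by
    intro a c
    fin_cases a <;> fin_cases c <;> rfl
  off23 := by
    intro a c
    fin_cases a <;> fin_cases c <;> rfl
  off13 := by
    intro a c
    fin_cases a <;> fin_cases c <;> rfl
  s3 := by
    have h4 := Nat.mul_comm h m
    intro a c hac
    fin_cases a <;> fin_cases c <;> simp [k4x, Fin.sum_univ_four] at hac ⊢ <;> omega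
  s2 := by
    have h4 := Nat.mul_comm h m
    intro a c hac
    fin_cases a <;> fin_cases c <;> simp [k4x, Fin.sum_univ_four] at hac ⊢ <;> omega
  s1 := by
    have h4 := Nat.mul_comm h m
    intro a c hac
    fin_cases a <;> fin_cases c <;> simp [k4x, Fin.sum_univ_four] at hac ⊢ <;> omega

theorem realizable_k4 {h m : ℕ} (h0 : 0 < h) (m0 : 0 < m) (hm : h ≤ 2 * m) :
    Realizable (![h, m, m, m] : Fin 4 → ℕ) := by
  have h1 : h * m ≤ 2 * (m * m) := by nlinarith
  obtain ⟨lo, hi, hlh, hhi⟩ : ∃ lo hi, lo + hi = h * m ∧ lo ≤ m * m ∧ hi ≤ m * m :=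
    ⟨h * m / 2, h * m - h * m / 2, by omega, by omega, by omega⟩
  refine Realizable.of_outline _ (fun i => ?_) (k4x lo hi (m * m - lo) (m * m - hi))
    (isOutline_k4x hlh (by omega) (by omega))
  fin_cases i <;> simp [h0, m0]

/-- Four classes, all but one of the same size. -/
theorem realizable_four {J : Type} [Fintype J] [DecidableEq J] (hJ : Fintype.card J = 4)
    (N : J → ℕ) (p : J) (h m : ℕ) (h0 : 0 < h) (m0 : 0 < m) (hm : h ≤ 2 * m) (hp : N p = h)
    (hN : ∀ a, a ≠ p → N a = m) : Realizable N := by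
  let e := (Fintype.equivOfCardEq (by rw [hJ, Fintype.card_fin]) : J ≃ Fin 4)
  let e' : J ≃ Fin 4 := e.trans (Equiv.swap (e p) 0)
  refine Realizable.reindex e'.symm ?_
  have : (fun j : Fin 4 => N (e'.symm j)) = ![h, m, m, m] := by
    have hp' : e'.symm 0 = p := by
      rw [Equiv.symm_apply_eq]
      simp [e']
    have hj : ∀ j : Fin 4, j ≠ 0 → N (e'.symm j) = m := by
      intro j hj
      refine hN _ fun h' => hj ?_
      rw [Equiv.symm_apply_eq] at h'
      rw [h']
      simp [e']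
    funext j
    fin_cases j
    · simp only [Fin.zero_eta, hp', hp]
      rfl
    · exact hj 1 (by decide)
    · exact hj 2 (by decide)
    · exact hj 3 (by decide)
  rw [this]
  exact realizable_k4 h0 m0 hm

end Pool.Agent.MP_dd827d_co
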