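import Pool.Agent.Lib.MP_dd827d_co.LPSharp
import Pool.Agent.Lib.MP_dd827d_co.K4
import Pool.Agent.Lib.MP_dd827d_co.Core

/-!
The core theorem with one large class allowed.
-/

namespace Pool.Agent.MP_dd827d_co

open Finset Function

section
variable {J : Type*} [Fintype J] [DecidableEq J]

/-- admissible sizes, without a rest class -/
def AdmJ (N : J → ℝ) (S ε : ℝ) : Prop :=
  (∀ a, 4 * N a ≤ S) ∨ ∃ p, S ≤ 4 * N p ∧ N p ≤ (5 / 14 - ε) * S ∧
    ∀ a, a ≠ p → 3 * N a ≤ S - N p

omit [Fintype J] [DecidableEq J] in
theorem AdmJ.adm {N : J → ℝ} {S ε s : ℝ} (h : AdmJ N S ε) :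
    Adm (fun a : Option J => a.elim s N) S ε none := by
  rcases h with h | ⟨p, h1, h2, h3⟩
  · left
    rintro (_ | a) ha
    · exact absurd rfl ha
    · exact h a
  · right
    refine ⟨some p, by simp, h1, h2, ?_⟩
    rintro (_ | a) ha ha'
    · exact absurd rfl ha
    · exact h3 a (fun h => ha' (by rw [h]))

omit [Fintype J] [DecidableEq J] in
theorem AdmJ.le {N : J → ℝ} {S ε : ℝ} (hε : 0 ≤ ε) (hS : 0 ≤ S) (h : AdmJ N S ε) (a : J) :
    N a ≤ 5 / 14 * S := by
  have h0 : 0 ≤ ε * S := mul_nonneg hε hS
  rcases h with h | ⟨p, h1, h2, h3⟩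
  · have := h a
    linarith
  · by_cases hap : a = p
    · rw [hap]
      linarith
    · have := h3 a hap
      linarith

theorem AdmJ.card {N : J → ℝ} {S ε s : ℝ} (hS0 : 0 < S) (hε0 : 0 < ε)
    (h : AdmJ N S ε) (hS : ∑ a, N a + s = S) (hs : s < 3 / 14 * S) : 4 ≤ Fintype.card J := by
  by_contra hcon
  push Not at hcon
  have hεS : 0 < ε * S := mul_pos hε0 hS0
  have hc : (Fintype.card J : ℝ) ≤ 3 := by
    have : Fintype.card J ≤ 3 := by omega
    exact_mod_cast this
  rcases h with h | ⟨p, h1, h2, h3⟩
  · have h4 : ∑ a, N a ≤ Fintype.card J * (S / 4) := by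
      calc ∑ a, N a ≤ ∑ _a : J, S / 4 := Finset.sum_le_sum fun a _ => by linarith [h a]
        _ = _ := by simp
    have h5 : (Fintype.card J : ℝ) * (S / 4) ≤ 3 * (S / 4) :=
      mul_le_mul_of_nonneg_right hc (by positivity)
    linarith
  · have h4 : ∑ a ∈ univ.erase p, N a ≤ ((univ.erase p).card : ℝ) * ((S - N p) / 3) := by
      calc ∑ a ∈ univ.erase p, N a ≤ ∑ _a ∈ univ.erase p, (S - N p) / 3 :=
            Finset.sum_le_sum fun a ha => by
              have := h3 a (Finset.ne_of_mem_erase ha)
              linarith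
        _ = _ := by rw [Finset.sum_const, nsmul_eq_mul]
    have h5 : (univ.erase p).card = Fintype.card J - 1 := by
      rw [Finset.card_erase_of_mem (mem_univ p), Finset.card_univ]
    have h6 : ((univ.erase p).card : ℝ) ≤ 2 := by
      have : (univ.erase p).card ≤ 2 := by omega
      exact_mod_cast this
    have h7 : 0 < (S - N p) / 3 := by linarith
    have h8 : ((univ.erase p).card : ℝ) * ((S - N p) / 3) ≤ 2 * ((S - N p) / 3) :=
      mul_le_mul_of_nonneg_right h6 h7.le
    have h9 : ∑ a, N a = N p + ∑ a ∈ univ.erase p, N a := by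
      rw [Finset.add_sum_erase _ _ (mem_univ p)]
    linarith

/-- Real outlines without a rest class. -/
theorem exists_real_outline3 (N : J → ℝ) (h0 : ∀ a, 0 ≤ N a) (S : ℝ) (hS : ∑ a, N a = S)
    (hS0 : 0 < S) (ε : ℝ) (hε0 : 0 < ε) (hε : ε ≤ 1 / 10) (hadm : AdmJ N S ε) :
    ∃ y : J → J → J → ℝ, IsOutline N y ∧ ∀ a b d, a ≠ b → b ≠ d → a ≠ d →
      ε / 20 * S ^ 2 * ((N a / S) ^ 2 * (N b / S) ^ 2 * (N d / S) ^ 2) ≤ y a b d := by
  obtain ⟨y, hy, hyl⟩ := exists_real_outline2 (J := Option J) (fun a => a.elim 0 N)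
    (by rintro (_ | a); exacts [le_rfl, h0 a]) S (by rw [Fintype.sum_option]; simp [hS]) hS0 ε hε0
    hε none (by simp only [Option.elim]; positivity) hadm.adm
  have hy0 : ∀ a b d, 0 ≤ y a b d := by
    intro a b d
    by_cases hD : Dist3 a b d
    · refine le_trans ?_ (hyl a b d hD.1 hD.2.1 hD.2.2)
      have hk : ∀ a, 0 ≤ kvec (fun a : Option J => a.elim 0 N) S none a :=
        kvec_nonneg (by rintro (_ | a); exacts [le_rfl, h0 a]) hS0 none
      have := hk a
      have := hk b
      have := hk d
      positivity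
    · unfold Dist3 at hD
      by_cases h1 : a = b
      · subst h1
        rw [hy.off12]
      · by_cases h2 : b = d
        · subst h2
          rw [hy.off23]
        · have h3 : a = d := by
            by_contra h3
            exact hD ⟨h1, h2, h3⟩
          subst h3
          rw [hy.off13]
  have z3 : ∀ a b : J, a ≠ b → y (some a) (some b) none = 0 := by
    intro a b hab
    have h1 := hy.s2 (some a) none (by simp)
    simp only [Option.elim, mul_zero] at h1
    exact (Finset.sum_eq_zero_iff_of_nonneg fun b _ => hy0 _ _ _).1 h1 (some b) (mem_univ _)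
  have z2 : ∀ a b : J, a ≠ b → y (some a) none (some b) = 0 := by
    intro a b hab
    have h1 := hy.s3 (some a) none (by simp)
    simp only [Option.elim, mul_zero] at h1
    exact (Finset.sum_eq_zero_iff_of_nonneg fun b _ => hy0 _ _ _).1 h1 (some b) (mem_univ _)
  have z1 : ∀ a b : J, a ≠ b → y none (some a) (some b) = 0 := by
    intro a b hab
    have h1 := hy.s3 none (some a) (by simp)
    simp only [Option.elim, zero_mul] at h1
    exact (Finset.sum_eq_zero_iff_of_nonneg fun b _ => hy0 _ _ _).1 h1 (some b) (mem_univ _)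
  refine ⟨fun a b d => y (some a) (some b) (some d), ⟨fun a c => hy.off12 _ _,
    fun a b => hy.off23 _ _, fun a b => hy.off13 _ _, fun a b hab => ?_, fun a c hac => ?_,
    fun b c hbc => ?_⟩, fun a b d h1 h2 h3 => ?_⟩
  · have h1 := hy.s3 (some a) (some b) (by simpa using hab)
    rw [Fintype.sum_option, z3 a b hab, zero_add] at h1
    exact h1
  · have h1 := hy.s2 (some a) (some c) (by simpa using hac)
    rw [Fintype.sum_option, z2 a c hac, zero_add] at h1
    exact h1
  · have h1 := hy.s1 (some b) (some c) (by simpa using hbc)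
    rw [Fintype.sum_option, z1 b c hbc, zero_add] at h1
    exact h1
  · refine le_trans (le_of_eq ?_) (hyl (some a) (some b) (some d) (by simpa using h1)
      (by simpa using h2) (by simpa using h3))
    simp [kvec]

end

/-- **Core theorem, sharp version.** -/
theorem core2 {I J : Type} [Fintype I] [DecidableEq I] [Fintype J] [DecidableEq J] (n : I → ℕ)
    (hn : ∀ i, 0 < n i) (f : I → Option J) (ε Λ h : ℝ) (hε0 : 0 < ε) (hε : ε ≤ 1 / 10)
    (hΛ : 1 ≤ Λ) (h0 : 0 < h) (S : ℕ) (hS : ∑ i, n i = S)
    (hgrp : ∀ a : J, Realizable fun i : {i // f i = some a} => n i.1)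
    (hadm : AdmJ (fun a : J => ((∑ i ∈ univ.filter (fun i => f i = some a), n i : ℕ) : ℝ)) S ε)
    (hge : ∀ a : J, (S : ℝ) / Λ ≤ ((∑ i ∈ univ.filter (fun i => f i = some a), n i : ℕ) : ℝ))
    (u v w : J) (huv : u ≠ v) (hvw : v ≠ w) (huw : u ≠ w)
    (hu : h ≤ ((∑ i ∈ univ.filter (fun i => f i = some u), n i : ℕ) : ℝ))
    (hv : h ≤ ((∑ i ∈ univ.filter (fun i => f i = some v), n i : ℕ) : ℝ))
    (hw : h ≤ ((∑ i ∈ univ.filter (fun i => f i = some w), n i : ℕ) : ℝ))
    (hs : ((∑ i ∈ univ.filter (fun i => f i = none), n i : ℕ) : ℝ) ≤ ε / 40 * h ^ 4 / S ^ 3)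
    (hbig : 520 * Λ ^ 5 / ε ≤ S) : Realizable n := by
  classical
  set N : J → ℕ := fun a => ∑ i ∈ univ.filter (fun i => f i = some a), n i with hN
  set s : ℕ := ∑ i ∈ univ.filter (fun i => f i = none), n i with hsdef
  have hΛ0 : 0 < Λ := by linarith
  have hSr : (0 : ℝ) < S := lt_of_lt_of_le (by positivity) hbig
  have hS0 : 0 < S := by exact_mod_cast hSr
  have hNs : s + ∑ a, N a = S := by
    rw [← hS, ← Finset.sum_fiberwise_of_maps_to (t := univ) (g := f) (fun _ _ => mem_univ _),
      Fintype.sum_option]
  have hNsr : ∑ a, (N a : ℝ) + (s : ℝ) = S := by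
    have : ∑ a, N a + s = S := by omega
    exact_mod_cast this
  -- number of classes
  have hcardJ : (Fintype.card J : ℝ) ≤ Λ := by
    have h1 : (Fintype.card J : ℝ) * (S / Λ) ≤ S := by
      calc (Fintype.card J : ℝ) * (S / Λ) = ∑ _a : J, (S : ℝ) / Λ := by simp
        _ ≤ ∑ a, (N a : ℝ) := Finset.sum_le_sum fun a _ => hge a
        _ ≤ (S : ℝ) := by
          have : ∑ a, N a ≤ S := by omega
          exact_mod_cast this
    rw [mul_div_assoc', div_le_iff₀ (by linarith)] at h1
    exact le_of_mul_le_mul_right (by linarith) hSr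
  have hbig' : 520 * Λ ^ 5 ≤ S * ε := (div_le_iff₀ hε0).1 hbig
  have hN0 : ∀ a, 0 < N a := fun a => by
    have h1 : (0 : ℝ) < N a := lt_of_lt_of_le (by positivity) (hge a)
    exact_mod_cast h1
  have hNle : ∀ a, (N a : ℝ) ≤ 5 / 14 * S := fun a => hadm.le hε0.le hSr.le a
  have hhS : h ≤ 5 / 14 * S := hu.trans (hNle u)
  have hsS : (s : ℝ) * S ^ 3 ≤ ε / 40 * h ^ 4 := (le_div_iff₀ (by positivity)).1 hs
  have hssmall : (s : ℝ) ≤ ε * S / 60 := by
    have h1 : h ^ 4 ≤ (5 / 14 * S) ^ 4 := pow_le_pow_left₀ h0.le hhS 4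
    have h2 : (s : ℝ) * S ^ 3 ≤ ε / 40 * (5 / 14 * S) ^ 4 :=
      hsS.trans (mul_le_mul_of_nonneg_left h1 (by positivity))
    have h3 : ε / 40 * (5 / 14 * S) ^ 4 ≤ ε * S / 60 * S ^ 3 := by
      have h4 : 0 < ε * (S : ℝ) ^ 4 := by positivity
      have e1 : ε / 40 * (5 / 14 * (S : ℝ)) ^ 4 = 625 / 1536640 * (ε * (S : ℝ) ^ 4) := by ring
      have e2 : ε * S / 60 * (S : ℝ) ^ 3 = 1 / 60 * (ε * (S : ℝ) ^ 4) := by ring
      rw [e1, e2]
      exact mul_le_mul_of_nonneg_right (by norm_num) h4.le
    exact le_of_mul_le_mul_right (h2.trans h3) (by positivity)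
  have hcard4 : 4 ≤ Fintype.card J := by
    refine AdmJ.card hSr hε0 hadm hNsr ?_
    have : 0 < ε * S := mul_pos hε0 hSr
    nlinarith
  -- slack between large classes
  have hΛS : Λ ≤ S := by
    have h6 : Λ ≤ Λ ^ 5 := by
      calc Λ = Λ ^ 1 := (pow_one _).symm
        _ ≤ Λ ^ 5 := pow_le_pow_right₀ hΛ (by norm_num)
    nlinarith
  have hratio : ∀ a, 1 / Λ ≤ (N a : ℝ) / S := by
    intro a
    rw [le_div_iff₀ hSr]
    refine le_trans (le_of_eq ?_) (hge a)
    ring
  have hmixpre : 26 * Λ ≤ ε / 20 * S * (1 / Λ) ^ 4 := by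
    have e : ε / 20 * S * (1 / Λ) ^ 4 = (1 / (20 * Λ ^ 4)) * (S * ε) := by field_simp
    rw [e]
    have h4 : 1 / (20 * Λ ^ 4) * (520 * Λ ^ 5) ≤ 1 / (20 * Λ ^ 4) * (S * ε) :=
      mul_le_mul_of_nonneg_left hbig' (by positivity)
    have e2 : 1 / (20 * Λ ^ 4) * (520 * Λ ^ 5) = 26 * Λ := by
      field_simp
      ring
    linarith
  have hΛ26 : 2 * (2 * (Λ + 1) + 9) ≤ 26 * Λ := by linarith
  have hNbig : ∀ a b d, 2 * (2 * (Λ + 1) + 9) ≤
      ε / 20 * (S : ℝ) ^ 2 * (((N a : ℝ) / S) ^ 2 * ((N b : ℝ) / S) ^ 2 * ((N d : ℝ) / S) ^ 2) := by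
    intro a b d
    have h1 : (1 / Λ) ^ 2 * (1 / Λ) ^ 2 * (1 / Λ) ^ 2 ≤
        ((N a : ℝ) / S) ^ 2 * ((N b : ℝ) / S) ^ 2 * ((N d : ℝ) / S) ^ 2 := by
      have ha := hratio a
      have hb := hratio b
      have hd := hratio d
      have h2 : 0 ≤ 1 / Λ := by positivity
      gcongr
    have h3 := mul_le_mul_of_nonneg_left h1 (by positivity : 0 ≤ ε / 20 * (S : ℝ) ^ 2)
    refine le_trans ?_ h3
    have e : ε / 20 * (S : ℝ) ^ 2 * ((1 / Λ) ^ 2 * (1 / Λ) ^ 2 * (1 / Λ) ^ 2) =
      (ε / 20 * S * (1 / Λ) ^ 4) * (S * (1 / Λ) ^ 2) := by ring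
    rw [e]
    have h5 : 1 ≤ (S : ℝ) * (1 / Λ) ^ 2 := by
      have e2 : (S : ℝ) * (1 / Λ) ^ 2 = S / Λ ^ 2 := by field_simp
      rw [e2, one_le_div (by positivity)]
      have h6 : Λ ^ 2 ≤ Λ ^ 5 := pow_le_pow_right₀ hΛ (by norm_num)
      nlinarith
    have h6 : (ε / 20 * S * (1 / Λ) ^ 4) * 1 ≤ (ε / 20 * S * (1 / Λ) ^ 4) * (S * (1 / Λ) ^ 2) :=
      mul_le_mul_of_nonneg_left h5 (by positivity)
    linarith
  -- realizability of the coarse family
  have hcoarse : Realizable (Sum.elim N (fun k : {i // f i = none} => n k.1)) := by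
    rcases Nat.eq_zero_or_pos s with hs0 | hs0
    · -- no rest
      have hemp : IsEmpty {i // f i = none} := by
        refine ⟨fun k => ?_⟩
        have h1 : n k.1 ≤ s := Finset.single_le_sum (f := n) (fun i _ => Nat.zero_le _)
          (by simp [k.2])
        have := hn k.1
        omega
      have hsum : ∑ a, N a = S := by omega
      have hsumr : ∑ a, (N a : ℝ) = S := by exact_mod_cast hsum
      refine Realizable.reindex (Equiv.sumEmpty J {i // f i = none}).symm ?_
      show Realizable N
      by_cases hc5 : 5 ≤ Fintype.card J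
      · obtain ⟨y, hy, hyl⟩ := exists_real_outline3 (fun a => (N a : ℝ))
          (fun a => Nat.cast_nonneg _) S hsumr hSr ε hε0 hε hadm
        obtain ⟨x, hx, -⟩ := round3 hc5 N y hy fun a b d h1 h2 h3 => by
          have h4 := hyl a b d h1 h2 h3
          have h5 := hNbig a b d
          linarith
        exact Realizable.of_outline N hN0 x hx
      · have hc4 : Fintype.card J = 4 := by omega
        have hadm' : AdmJ (fun a => (N a : ℝ)) S ε := hadm
        rcases hadm' with hadm' | ⟨p, hp1, hp2, hp3⟩
        · have h4 : ∀ a, 4 * N a ≤ S := fun a => by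
            have h8 := hadm' a
            beta_reduce at h8
            exact_mod_cast h8
          have h5 : ∀ a ∈ univ, S - 4 * N a = 0 := by
            refine (Finset.sum_eq_zero_iff (s := (univ : Finset J))).1 ?_
            have h6 : ∑ a, (S - 4 * N a) + ∑ a, 4 * N a = ∑ _a : J, S := by
              rw [← Finset.sum_add_distrib]
              exact Finset.sum_congr rfl fun a _ => Nat.sub_add_cancel (h4 a)
            rw [← Finset.mul_sum, hsum, Finset.sum_const, Finset.card_univ, hc4,
              smul_eq_mul] at h6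
            omega
          have h6 : ∀ a, 4 * N a = S := fun a => by
            have := h5 a (mem_univ a)
            have := h4 a
            omega
          refine realizable_four hc4 N u (N u) (N u) (hN0 u) (hN0 u) (by omega) rfl ?_
          intro a _
          have := h6 a
          have := h6 u
          omega
        · have q1 : S ≤ 4 * N p := by
            beta_reduce at hp1
            exact_mod_cast hp1
          have q2 : N p ≤ S := by
            rw [← hsum]
            exact Finset.single_le_sum (f := N) (fun i _ => Nat.zero_le _) (mem_univ p)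
          have q3 : ∀ a, a ≠ p → 3 * N a + N p ≤ S := fun a ha => by
            have := hp3 a ha
            have h7 : (3 : ℝ) * N a + N p ≤ S := by
              have h8 := hp3 a ha
              beta_reduce at h8
              linarith
            exact_mod_cast h7
          have q4 : 14 * N p ≤ 5 * S := by
            have h8 := hp2
            beta_reduce at h8
            have h9 : 0 < ε * S := mul_pos hε0 hSr
            have h7 : (14 : ℝ) * N p ≤ 5 * S := by linarith
            exact_mod_cast h7
          have h9 : N p + ∑ a ∈ univ.erase p, N a = S := by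
            rw [Finset.add_sum_erase _ _ (mem_univ p), hsum]
          have hce : (univ.erase p : Finset J).card = 3 := by
            rw [Finset.card_erase_of_mem (mem_univ p), Finset.card_univ, hc4]
          have h5 : ∀ a ∈ univ.erase p, S - N p - 3 * N a = 0 := by
            refine (Finset.sum_eq_zero_iff (s := (univ.erase p : Finset J))).1 ?_
            have h6 : ∑ a ∈ univ.erase p, (S - N p - 3 * N a) + ∑ a ∈ univ.erase p, 3 * N a =
                ∑ _a ∈ (univ.erase p : Finset J), (S - N p) := by
              rw [← Finset.sum_add_distrib]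
              refine Finset.sum_congr rfl fun a ha => Nat.sub_add_cancel ?_
              have := q3 a (Finset.ne_of_mem_erase ha)
              omega
            rw [← Finset.mul_sum, Finset.sum_const, hce, smul_eq_mul] at h6
            omega
          have h6 : ∀ a, a ≠ p → N p + 3 * N a = S := fun a ha => by
            have := h5 a (Finset.mem_erase.2 ⟨ha, mem_univ a⟩)
            have := q3 a ha
            omega
          obtain ⟨t, ht⟩ : ∃ t, t ≠ p := by
            by_cases hup : u = p
            · exact ⟨v, fun h => huv (hup.trans h.symm)⟩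
            · exact ⟨u, hup⟩
          have h7 := h6 t ht
          refine realizable_four hc4 N p (N p) (N t) (hN0 p) (hN0 t) (by omega) rfl ?_
          intro a ha
          have := h6 a ha
          omega
    · -- with rest
      have hs1 : (1 : ℝ) ≤ s := by exact_mod_cast hs0
      let N' : Option J → ℕ := fun a => a.elim s N
      have hN'r : (fun a : Option J => (N' a : ℝ)) = fun a => a.elim (s : ℝ) fun a => (N a : ℝ) := by
        funext a
        rcases a with _ | a <;> rfl
      have hN'sum : ∑ a, (N' a : ℝ) = S := by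
        rw [Fintype.sum_option]
        simp only [N', Option.elim]
        linarith
      have hcardO : (Fintype.card (Option J) : ℝ) ≤ Λ + 1 := by
        rw [Fintype.card_option]
        push_cast
        linarith
      have hc5 : 5 ≤ Fintype.card (Option J) := by
        rw [Fintype.card_option]
        omega
      obtain ⟨y, hy, hyl⟩ := exists_real_outline2 (J := Option J) (fun a => (N' a : ℝ))
        (fun a => Nat.cast_nonneg _) S hN'sum hSr ε hε0 hε none hssmall (by
          rw [hN'r]
          exact hadm.adm)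
      have hk0 : kvec (fun a : Option J => (N' a : ℝ)) S none none = (s : ℝ) / S := by
        simp [kvec, N']
      have hk1 : ∀ a : J, kvec (fun a : Option J => (N' a : ℝ)) S none (some a) =
          ((N a : ℝ) / S) ^ 2 := by
        intro a
        simp [kvec, N']
      -- slack for triples with the rest class
      have hmix : ∀ a b : J, 2 * (2 * (Λ + 1) + 9) ≤
          ε / 20 * (S : ℝ) ^ 2 * (((s : ℝ) / S) * ((N a : ℝ) / S) ^ 2 * ((N b : ℝ) / S) ^ 2) := by
        intro a b
        have ha := hratio a
        have hb := hratio b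
        have h2 : 0 ≤ 1 / Λ := by positivity
        have h1 : (1 / (S : ℝ)) * (1 / Λ) ^ 2 * (1 / Λ) ^ 2 ≤
            ((s : ℝ) / S) * ((N a : ℝ) / S) ^ 2 * ((N b : ℝ) / S) ^ 2 := by
          gcongr
        have h3 := mul_le_mul_of_nonneg_left h1 (by positivity : 0 ≤ ε / 20 * (S : ℝ) ^ 2)
        refine le_trans ?_ h3
        have e : ε / 20 * (S : ℝ) ^ 2 * ((1 / (S : ℝ)) * (1 / Λ) ^ 2 * (1 / Λ) ^ 2) =
          ε / 20 * S * (1 / Λ) ^ 4 := by field_simp
        rw [e]
        linarith
      have hsl : ∀ a b d : Option J, a ≠ b → b ≠ d → a ≠ d → 2 * (2 * (Λ + 1) + 9) ≤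
          ε / 20 * (S : ℝ) ^ 2 * (kvec (fun a : Option J => (N' a : ℝ)) S none a *
            kvec (fun a : Option J => (N' a : ℝ)) S none b *
            kvec (fun a : Option J => (N' a : ℝ)) S none d) := by
        intro a b d hab hbd had
        rcases a with _ | a <;> rcases b with _ | b <;> rcases d with _ | d
        · exact absurd rfl hab
        · exact absurd rfl hab
        · exact absurd rfl had
        · rw [hk0, hk1, hk1]
          exact hmix b d
        · exact absurd rfl hbd
        · rw [hk0, hk1, hk1]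
          refine (hmix a d).trans (le_of_eq ?_)
          ring
        · rw [hk0, hk1, hk1]
          refine (hmix a b).trans (le_of_eq ?_)
          ring
        · rw [hk1, hk1, hk1]
          exact hNbig a b d
      obtain ⟨x, hx, hxl⟩ := round3 hc5 N' y hy fun a b d h1 h2 h3 => by
        have h4 := hyl a b d h1 h2 h3
        have h5 := hsl a b d h1 h2 h3
        linarith
      have hsK : ∑ k : {i // f i = none}, n k.1 = s := by
        rw [hsdef]
        exact (Finset.sum_subtype _ (fun i => by simp) _).symm
      -- the corner entries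
      have hcorner : ∀ a b : J, h ≤ N a → h ≤ N b → ((s * s : ℕ) : ℝ) ≤
          ε / 20 * (S : ℝ) ^ 2 * (((s : ℝ) / S) * ((N a : ℝ) / S) ^ 2 * ((N b : ℝ) / S) ^ 2) -
            (2 * Fintype.card (Option J) + 9) := by
        intro a b ha hb
        have h1 : 2 * ((s : ℝ) * s) ≤
            ε / 20 * (S : ℝ) ^ 2 * (((s : ℝ) / S) * ((N a : ℝ) / S) ^ 2 * ((N b : ℝ) / S) ^ 2) := by
          have e : ε / 20 * (S : ℝ) ^ 2 * (((s : ℝ) / S) * ((N a : ℝ) / S) ^ 2 *
              ((N b : ℝ) / S) ^ 2) = s * (ε / 20 * ((N a : ℝ) ^ 2 * (N b : ℝ) ^ 2)) / S ^ 3 := by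
            field_simp
          rw [e, le_div_iff₀ (by positivity)]
          have h2 : h ^ 4 ≤ (N a : ℝ) ^ 2 * (N b : ℝ) ^ 2 := by
            have e2 : h ^ 4 = h ^ 2 * h ^ 2 := by ring
            rw [e2]
            gcongr
          have h3 : (s : ℝ) * S ^ 3 ≤ ε / 40 * ((N a : ℝ) ^ 2 * (N b : ℝ) ^ 2) :=
            hsS.trans (mul_le_mul_of_nonneg_left h2 (by positivity))
          have h4 := mul_le_mul_of_nonneg_left h3 (by linarith : (0 : ℝ) ≤ s)
          linarith
        have h2 := hmix a b
        push_cast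
        linarith
      obtain ⟨x', hx'⟩ := refine_class N (fun k : {i // f i = none} => n k.1) x (by
          rw [hsK]
          exact hx) u v w huv hvw huw (by
          rw [hsK]
          have h1 := hxl none (some v) (some w) (by simp) (by simpa using hvw) (by simp)
          have h1' := hyl none (some v) (some w) (by simp) (by simpa using hvw) (by simp)
          have h2 := hcorner v w hv hw
          rw [hk0, hk1, hk1] at h1'
          have h3 : ((s * s : ℕ) : ℝ) ≤ x none (some v) (some w) := by
            refine h2.trans (le_trans ?_ h1)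
            linarith
          exact_mod_cast h3) (by
          rw [hsK]
          have h1 := hxl (some u) none (some w) (by simp) (by simp) (by simpa using huw)
          have h1' := hyl (some u) none (some w) (by simp) (by simp) (by simpa using huw)
          have h2 := hcorner u w hu hw
          rw [hk0, hk1, hk1] at h1'
          have h3 : ((s * s : ℕ) : ℝ) ≤ x (some u) none (some w) := by
            refine h2.trans (le_trans ?_ h1)
            linarith
          exact_mod_cast h3) (by
          rw [hsK]
          have h1 := hxl (some u) (some v) none (by simpa using huv) (by simp) (by simp)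
          have h1' := hyl (some u) (some v) none (by simpa using huv) (by simp) (by simp)
          have h2 := hcorner u v hu hv
          rw [hk0, hk1, hk1] at h1'
          have h3 : ((s * s : ℕ) : ℝ) ≤ x (some u) (some v) none := by
            refine h2.trans (le_trans ?_ h1)
            linarith
          exact_mod_cast h3)
      refine Realizable.of_outline _ ?_ x' hx'
      rintro (a | k)
      · exact hN0 a
      · exact hn k.1
  -- merge
  let φ : I → J ⊕ {i // f i = none} := fun i =>
    if hi : f i = none then Sum.inr ⟨i, hi⟩ else Sum.inl ((f i).get (Option.ne_none_iff_isSome.1 hi))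
  have hφ1 : ∀ i a, φ i = Sum.inl a ↔ f i = some a := by
    intro i a
    simp only [φ]
    by_cases hi : f i = none
    · rw [dif_pos hi, hi]
      simp
    · rw [dif_neg hi, Sum.inl.injEq]
      constructor
      · intro h1
        rw [← h1, Option.some_get]
      · intro h1
        simp [h1]
  have hφ2 : ∀ i k, φ i = Sum.inr k ↔ i = k.1 := by
    intro i k
    simp only [φ]
    by_cases hi : f i = none
    · rw [dif_pos hi]
      constructor
      · intro h1
        exact congrArg Subtype.val (Sum.inr_injective h1)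
      · rintro rfl
        rfl
    · rw [dif_neg hi]
      constructor
      · intro h1
        exact absurd h1 (by simp)
      · rintro rfl
        exact absurd k.2 hi
  refine Realizable.merge hn φ ?_ ?_
  · have he : (fun a : J ⊕ {i // f i = none} => ∑ i ∈ univ.filter (fun i => φ i = a), n i) =
        Sum.elim N (fun k : {i // f i = none} => n k.1) := by
      funext a
      rcases a with a | k
      · simp only [Sum.elim_inl, hφ1, hN]
      · simp only [Sum.elim_inr, hφ2]
        rw [Finset.filter_eq' univ k.1, if_pos (mem_univ _), Finset.sum_singleton]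
    rw [he]
    exact hcoarse
  · rintro (a | k)
    · exact realizable_congr n (fun i => (hφ1 i a).symm) (hgrp a)
    · have : Unique {i // φ i = Sum.inr k} :=
        { default := ⟨k.1, (hφ2 _ _).2 rfl⟩
          uniq := fun i => Subtype.ext ((hφ2 _ _).1 i.2) }
      exact realizable_unique fun i => hn i.1

end Pool.Agent.MP_dd827d_co
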