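import Pool.Agent.Lib.MP_dd827d_co.Slk

/-!
The cut conditions.
-/

namespace Pool.Agent.MP_dd827d_co

open Finset Function

theorem cut_le {J : Type*} [Fintype J] [DecidableEq J] {N : J → ℝ} {y : J → J → J → ℝ}
    (hy : IsOutline N y) (h0 : ∀ a b c, 0 ≤ y a b c) (D : J → Prop) [DecidablePred D] {A B : ℝ}
    (hA : ∑ a, (if D a then N a else 0) = A) (hB : ∑ a, (if D a then 0 else N a) = B) :
    A * B + ∑ a, N a * N a ≤ A * A + B * B := by
  have hslk : Slk N (0 / 3) := slk_of_outline hy fun a b d _ _ _ => by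
    rw [zero_mul]
    exact h0 a b d
  have h1 := hslk (fun a b => if a = b then 0 else if (D a ↔ D b) then 2 else -1)
    (fun a b => by
      by_cases h : a = b
      · rw [if_pos h, if_pos h.symm]
      · rw [if_neg h, if_neg (Ne.symm h)]
        by_cases h1 : D a ↔ D b
        · rw [if_pos h1, if_pos h1.symm]
        · rw [if_neg h1, if_neg fun h2 => h1 h2.symm]) (fun a => if_pos rfl)
    (fun a b d hab hbd had => by
      simp only [if_neg hab, if_neg hbd, if_neg had]
      by_cases ha : D a <;> by_cases hb : D b <;> by_cases hd : D d <;>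
        simp only [ha, hb, hd, iff_true, iff_false, not_true_eq_false, if_true, if_false] <;>
        norm_num)
  rw [zero_div, zero_mul] at h1
  have h2 : bil (fun a b => if a = b then 0 else if (D a ↔ D b) then 2 else -1) N N =
      2 * (A * A) + 2 * (B * B) - 2 * (A * B) - 2 * ∑ a, N a * N a := by
    have e : ∀ a b : J, (if a = b then (0 : ℝ) else if (D a ↔ D b) then 2 else -1) * N a * N b =
        2 * ((if D a then N a else 0) * (if D b then N b else 0)) +
        2 * ((if D a then 0 else N a) * (if D b then 0 else N b)) -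
        (if D a then N a else 0) * (if D b then 0 else N b) -
        (if D a then 0 else N a) * (if D b then N b else 0) -
        (if a = b then 2 * (N a * N b) else 0) := by
      intro a b
      by_cases h : a = b
      · subst h
        by_cases ha : D a <;> simp [ha]
      · rw [if_neg h, if_neg h]
        by_cases ha : D a <;> by_cases hb : D b <;> simp [ha, hb] <;> ring
    unfold bil
    simp only [e, Finset.sum_sub_distrib, Finset.sum_add_distrib, ← Finset.mul_sum,
      ← Finset.sum_mul, hA, hB, Finset.sum_ite_eq, mem_univ, if_true]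
    ring
  rw [h2] at h1
  linarith

/-- no part exceeds half the order -/
theorem half_le {J : Type*} [Fintype J] [DecidableEq J] {N : J → ℝ} {y : J → J → J → ℝ}
    (hy : IsOutline N y) (h0 : ∀ a b c, 0 ≤ y a b c) (p : J) {B : ℝ}
    (hB : ∑ a, (if a = p then 0 else N a) = B) (hB0 : 0 < B) : N p ≤ B := by
  have h1 := cut_le hy h0 (fun a => a = p) (A := N p) (by
    rw [Finset.sum_ite_eq' univ p]
    simp) hB
  have h2 : ∑ a, N a * N a = N p * N p + ∑ a, (if a = p then 0 else N a * N a) := by
    have h3 : ∀ a, N a * N a = (if a = p then N a * N a else 0) +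
        (if a = p then 0 else N a * N a) := fun a => by split_ifs <;> ring
    rw [Finset.sum_congr rfl fun a _ => h3 a, Finset.sum_add_distrib, Finset.sum_ite_eq' univ p]
    simp
  have h4 : 0 ≤ ∑ a, (if a = p then 0 else N a * N a) :=
    Finset.sum_nonneg fun a _ => by
      split_ifs
      · exact le_rfl
      · exact mul_self_nonneg _
  have h5 : N p * B ≤ B * B := by linarith
  exact le_of_mul_le_mul_right h5 hB0

/-- the necessary condition for three parts `a, b, c` and the others `d` -/
theorem three_cut {R : Type*} [Fintype R] [DecidableEq R] (a b c : ℝ) (d : R → ℝ)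
    {y : Fin 3 ⊕ R → Fin 3 ⊕ R → Fin 3 ⊕ R → ℝ} (hy : IsOutline (Sum.elim ![a, b, c] d) y)
    (h0 : ∀ x₁ x₂ x₃, 0 ≤ y x₁ x₂ x₃) (t : ℝ) (ht : ∑ i, d i = t) :
    (a - b) * (c - t) + (a - c) * (b - t) + ∑ i, d i * d i ≤ t * t := by
  have h1 := cut_le hy h0 (fun x => x ≠ Sum.inl 1 ∧ x ≠ Sum.inl 2) (A := a + t) (B := b + c) (by
    rw [Fintype.sum_sum_type, Fin.sum_univ_three, ← ht]
    simp) (by
    rw [Fintype.sum_sum_type, Fin.sum_univ_three]
    simp)
  rw [Fintype.sum_sum_type, Fin.sum_univ_three] at h1
  simp only [Sum.elim_inl, Sum.elim_inr] at h1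
  have e0 : (![a, b, c] : Fin 3 → ℝ) 0 = a := rfl
  have e1 : (![a, b, c] : Fin 3 → ℝ) 1 = b := rfl
  have e2 : (![a, b, c] : Fin 3 → ℝ) 2 = c := rfl
  rw [e0, e1, e2] at h1
  linarith

end Pool.Agent.MP_dd827d_co
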