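import Pool.Agent.Lib.MP_dd827d_co.Merge

/-!
The dual necessary condition for realizability, and some families violating it.
-/

namespace Pool.Agent.MP_dd827d_co

open Finset Function

theorem Realizable.dual {I : Type} [Fintype I] [DecidableEq I] {n : I → ℕ} (h : Realizable n)
    (c : I → I → ℤ)
    (hT : ∀ a b d, a ≠ b → b ≠ d → a ≠ d → 0 ≤ c a b + c b d + c a d) :
    0 ≤ ∑ a, ∑ b, if a = b then 0 else c a b * (n a * n b : ℤ) := by
  obtain ⟨x, hx⟩ := h.exists_outline
  have h3 : ∀ a b, a ≠ b → ∑ d, (x a b d : ℤ) = n a * n b := fun a b hab => by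
    exact_mod_cast hx.s3 a b hab
  have h2 : ∀ a d, a ≠ d → ∑ b, (x a b d : ℤ) = n a * n d := fun a d had => by
    exact_mod_cast hx.s2 a d had
  have h1 : ∀ b d, b ≠ d → ∑ a, (x a b d : ℤ) = n b * n d := fun b d hbd => by
    exact_mod_cast hx.s1 b d hbd
  set B : ℤ := ∑ a, ∑ b, if a = b then 0 else c a b * (n a * n b : ℤ) with hB
  have e3 : B = ∑ a, ∑ b, ∑ d, c a b * x a b d := by
    rw [hB]
    refine Finset.sum_congr rfl fun a _ => Finset.sum_congr rfl fun b _ => ?_
    rw [← Finset.mul_sum]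
    by_cases hab : a = b
    · subst hab
      rw [if_pos rfl]
      simp [hx.off12]
    · rw [if_neg hab, h3 a b hab]
  have e2 : B = ∑ a, ∑ b, ∑ d, c a d * x a b d := by
    have h4 : ∑ a, ∑ b, ∑ d, c a d * (x a b d : ℤ) = ∑ a, ∑ d, ∑ b, c a d * (x a b d : ℤ) :=
      Finset.sum_congr rfl fun a _ => Finset.sum_comm
    rw [h4, hB]
    refine Finset.sum_congr rfl fun a _ => Finset.sum_congr rfl fun b _ => ?_
    rw [← Finset.mul_sum]
    by_cases hab : a = b
    · subst hab
      rw [if_pos rfl]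
      simp [hx.off13]
    · rw [if_neg hab, h2 a b hab]
  have e1 : B = ∑ a, ∑ b, ∑ d, c b d * x a b d := by
    have h4 : ∑ a, ∑ b, ∑ d, c b d * (x a b d : ℤ) = ∑ b, ∑ d, ∑ a, c b d * (x a b d : ℤ) := by
      rw [Finset.sum_comm]
      exact Finset.sum_congr rfl fun a _ => Finset.sum_comm
    rw [h4, hB]
    refine Finset.sum_congr rfl fun a _ => Finset.sum_congr rfl fun b _ => ?_
    rw [← Finset.mul_sum]
    by_cases hab : a = b
    · subst hab
      rw [if_pos rfl]
      simp [hx.off23]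
    · rw [if_neg hab, h1 a b hab]
  have hsum : 3 * B = ∑ a, ∑ b, ∑ d, (c a b + c b d + c a d) * (x a b d : ℤ) := by
    have h5 : ∀ a b d, (c a b + c b d + c a d) * (x a b d : ℤ) =
        c a b * x a b d + c b d * x a b d + c a d * x a b d := fun a b d => by ring
    simp only [h5, Finset.sum_add_distrib]
    rw [← e3, ← e2, ← e1]
    ring
  have hnn : 0 ≤ ∑ a, ∑ b, ∑ d, (c a b + c b d + c a d) * (x a b d : ℤ) := by
    refine Finset.sum_nonneg fun a _ => Finset.sum_nonneg fun b _ =>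
      Finset.sum_nonneg fun d _ => ?_
    by_cases hab : a = b
    · subst hab
      simp [hx.off12]
    by_cases hbd : b = d
    · subst hbd
      simp [hx.off23]
    by_cases had : a = d
    · subst had
      simp [hx.off13]
    exact mul_nonneg (hT a b d hab hbd had) (Nat.cast_nonneg _)
  linarith

/-- a weight on `K₄` -/
def c4 : Fin 4 → Fin 4 → ℤ := ![![0, 1, -1, 0], ![1, 0, 0, -1], ![-1, 0, 0, 1], ![0, -1, 1, 0]]

theorem realizable_four_eq {a b c d : ℕ} (h : Realizable (![a, b, c, d] : Fin 4 → ℕ)) :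
    ((a : ℤ) - d) * (b - c) = 0 := by
  have h1 := h.dual c4 (by decide)
  have h2 := h.dual (fun i j => - c4 i j) (by decide)
  simp [Fin.sum_univ_four, c4] at h1 h2
  nlinarith

/-- another weight on `K₄` -/
def c4b : Fin 4 → Fin 4 → ℤ := ![![0, 1, 0, -1], ![1, 0, -1, 0], ![0, -1, 0, 1], ![-1, 0, 1, 0]]

theorem realizable_four_eq' {a b c d : ℕ} (h : Realizable (![a, b, c, d] : Fin 4 → ℕ)) :
    ((a : ℤ) - c) * (b - d) = 0 := by
  have h1 := h.dual c4b (by decide)
  have h2 := h.dual (fun i j => - c4b i j) (by decide)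
  simp [Fin.sum_univ_four, c4b] at h1 h2
  nlinarith

/-- a weight on `K₅` -/
def c5 : Fin 5 → Fin 5 → ℤ := ![![0, -1, -1, 2, -1], ![-1, 0, 2, -1, 2], ![-1, 2, 0, -1, 2],
  ![2, -1, -1, 0, -1], ![-1, 2, 2, -1, 0]]

theorem realizable_five_le {h m : ℕ} (hr : Realizable (![h, m + 1, m + 1, m, 1] : Fin 5 → ℕ)) :
    3 * h ≤ 5 * m + 6 := by
  have h1 := hr.dual c5 (by decide)
  simp [Fin.sum_univ_five, c5] at h1
  have h2 : (3 : ℤ) * h ≤ 5 * m + 6 := by nlinarith
  exact_mod_cast h2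

end Pool.Agent.MP_dd827d_co
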