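import Pool.Agent.Lib.MP_dd827d_co.Ryser

/-!
Evans' embedding theorem for partial latin squares, with an additional disjoint subsquare.
-/

namespace Pool.Agent.MP_dd827d_co

open Finset Function

/-- Every finite type carries a latin square. -/
theorem exists_latin (F : Type*) [Finite F] : ∃ L : F → F → F, Latin L := by
  classical
  have := Fintype.ofFinite F
  rcases isEmpty_or_nonempty F with hF | hF
  · exact ⟨fun a => hF.elim a, fun a => hF.elim a, fun a => hF.elim a⟩
  · have : NeZero (Fintype.card F) := ⟨Fintype.card_ne_zero⟩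
    let e := Fintype.equivFin F
    refine ⟨fun a b => e.symm (e a + e b), fun a b c h => ?_, fun b a c h => ?_⟩
    · simpa using h
    · simpa using h

/-- Latin squares between types of equal cardinality. -/
theorem exists_latin' (A B D : Type*) [Fintype A] [Fintype B] [Fintype D]
    (h1 : Fintype.card A = Fintype.card B) (h2 : Fintype.card A = Fintype.card D) :
    ∃ L : A → B → D, Latin L := by
  obtain ⟨L, hL⟩ := exists_latin A
  let e1 := (Fintype.equivOfCardEq h1).symm
  let e2 := Fintype.equivOfCardEq h2
  exact ⟨fun a b => e2 (L a (e1 b)), fun a => e2.injective.comp ((hL.1 a).comp e1.injective),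
    fun b => e2.injective.comp (hL.2 (e1 b))⟩

theorem evans_hole {X W1 W2 W3 E1 E2 E3 : Type*} [Fintype X] [Fintype W1] [Fintype W2]
    [Fintype W3] [Fintype E1] [Fintype E2] [Fintype E3]
    (hW12 : Fintype.card W1 = Fintype.card W2) (hW13 : Fintype.card W1 = Fintype.card W3)
    (hE12 : Fintype.card E1 = Fintype.card E2) (hE13 : Fintype.card E1 = Fintype.card E3)
    (hXE : Fintype.card X ≤ Fintype.card E1) (hWE : Fintype.card W1 ≤ Fintype.card E1)
    (r : X → X → Prop) (v : X → X → X)
    (hvr : ∀ x y y', r x y → r x y' → v x y = v x y' → y = y')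
    (hvc : ∀ x x' y, r x y → r x' y → v x y = v x' y → x = x')
    {h : W1 → W2 → W3} (hh : Latin h) :
    ∃ M : X ⊕ (W1 ⊕ E1) → X ⊕ (W2 ⊕ E2) → X ⊕ (W3 ⊕ E3), Latin M ∧
      (∀ x y, r x y → M (Sum.inl x) (Sum.inl y) = Sum.inl (v x y)) ∧
      ∀ w w', M (Sum.inr (Sum.inl w)) (Sum.inr (Sum.inl w')) = Sum.inr (Sum.inl (h w w')) := by
  classical
  obtain ⟨L, hL⟩ := exists_latin X
  obtain ⟨θ⟩ : Nonempty (X ↪ E3) := Function.Embedding.nonempty_of_card_le (by omega)
  obtain ⟨α⟩ : Nonempty (W2 ↪ E2) := Function.Embedding.nonempty_of_card_le (by omega)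
  obtain ⟨β⟩ : Nonempty (W1 ↪ E1) := Function.Embedding.nonempty_of_card_le (by omega)
  set MX : X → X → X ⊕ E3 := fun x y => if r x y then Sum.inl (v x y) else Sum.inr (θ (L x y))
    with hMX
  have hMXl : Latin MX := by
    constructor
    · intro x y y' hy
      simp only [hMX] at hy
      split_ifs at hy with h1 h2 h2
      · exact hvr x y y' h1 h2 (Sum.inl_injective hy)
      · exact hL.1 x (θ.injective (Sum.inr_injective hy))
    · intro y x x' hx
      simp only [hMX] at hx
      split_ifs at hx with h1 h2 h2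
      · exact hvc x x' y h1 h2 (Sum.inl_injective hx)
      · exact hL.2 y (θ.injective (Sum.inr_injective hx))
  obtain ⟨M1, h1, hM1⟩ := Latin.extend (Y' := E2) (by simp; omega) hMXl (by
    intro s; simp only [Fintype.card_sum]; omega)
  obtain ⟨M2, h2, hM2⟩ := Latin.extend (Y' := E1) (by simp; omega) hMXl.swap (by
    intro s; simp only [Fintype.card_sum]; omega)
  let ψ : X ⊕ E3 → X ⊕ (W3 ⊕ E3) := Sum.map id Sum.inr
  have hψ : Injective ψ := Sum.map_injective.2 ⟨injective_id, Sum.inr_injective⟩
  have hψW : ∀ d w, ψ d ≠ Sum.inr (Sum.inl w) := by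
    rintro (d | d) w <;> simp [ψ]
  let M0 : X ⊕ W1 → X ⊕ W2 → X ⊕ (W3 ⊕ E3) := fun a b =>
    match a, b with
    | Sum.inl x, Sum.inl y => ψ (MX x y)
    | Sum.inl x, Sum.inr w => ψ (M1 x (Sum.inr (α w)))
    | Sum.inr w, Sum.inl y => ψ (M2 y (Sum.inr (β w)))
    | Sum.inr w, Sum.inr w' => Sum.inr (Sum.inl (h w w'))
  have e1 : ∀ x b, M0 (Sum.inl x) b = ψ (M1 x (Sum.map id α b)) := by
    rintro x (y | w)
    · simp only [M0, Sum.map_inl, id, hM1]
    · rfl
  have e2 : ∀ y a, M0 a (Sum.inl y) = ψ (M2 y (Sum.map id β a)) := by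
    rintro y (x | w)
    · simp only [M0, Sum.map_inl, id, hM2]
    · rfl
  have hα : Injective (Sum.map (id : X → X) α) := Sum.map_injective.2 ⟨injective_id, α.injective⟩
  have hβ : Injective (Sum.map (id : X → X) β) := Sum.map_injective.2 ⟨injective_id, β.injective⟩
  have hM0 : Latin M0 := by
    constructor
    · rintro (x | w)
      · intro b b' hb
        rw [e1, e1] at hb
        exact hα (h1.1 x (hψ hb))
      · rintro (y | w1) (y' | w2) hb
        · have hb' : ψ (M2 y (Sum.inr (β w))) = ψ (M2 y' (Sum.inr (β w))) := hb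
          exact congrArg _ (h2.2 _ (hψ hb'))
        · exact absurd hb (hψW _ _)
        · exact absurd hb.symm (hψW _ _)
        · simp only [M0] at hb
          exact congrArg _ (hh.1 w (Sum.inl_injective (Sum.inr_injective hb)))
    · rintro (y | w)
      · intro a a' ha
        simp only at ha
        rw [e2, e2] at ha
        exact hβ (h2.1 y (hψ ha))
      · rintro (x | w1) (x' | w2) hb
        · have hb' : ψ (M1 x (Sum.inr (α w))) = ψ (M1 x' (Sum.inr (α w))) := hb
          exact congrArg _ (h1.2 _ (hψ hb'))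
        · exact absurd hb (hψW _ _)
        · exact absurd hb.symm (hψW _ _)
        · simp only [M0] at hb
          exact congrArg _ (hh.2 w (Sum.inl_injective (Sum.inr_injective hb)))
  have hcount : ∀ s, Fintype.card (X ⊕ W1) + Fintype.card (X ⊕ W2) ≤
      Fintype.card (X ⊕ (W3 ⊕ E3)) +
        (univ.filter fun p : (X ⊕ W1) × (X ⊕ W2) => M0 p.1 p.2 = s).card := by
    intro s
    simp only [Fintype.card_sum]
    have hcase : (∃ w, s = Sum.inr (Sum.inl w)) ∨ ∃ d, s = ψ d := by
      rcases s with x | w | e
      · exact Or.inr ⟨Sum.inl x, rfl⟩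
      · exact Or.inl ⟨w, rfl⟩
      · exact Or.inr ⟨Sum.inr e, rfl⟩
    rcases hcase with ⟨w, rfl⟩ | ⟨d, rfl⟩
    · have h3 := hh.count_of_card_eq (hW12.symm.trans hW13) w
      have h4 : (univ.filter fun p : W1 × W2 => h p.1 p.2 = w).card ≤
          (univ.filter fun p : (X ⊕ W1) × (X ⊕ W2) =>
            M0 p.1 p.2 = Sum.inr (Sum.inl w)).card := by
        refine Finset.card_le_card_of_injOn (fun p => (Sum.inr p.1, Sum.inr p.2))
          (fun p hp => ?_) (fun p _ q _ hpq => ?_)
        · simp only [mem_coe, mem_filter, mem_univ, true_and] at hp ⊢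
          simp only [M0, hp]
        · simpa [Prod.ext_iff] using hpq
      omega
    · have h3 := h1.count_of_card_eq (by simp only [Fintype.card_sum]; omega) d
      have h4 := Finset.card_filter_add_card_filter_not
        (s := univ.filter fun p : X × (X ⊕ E2) => M1 p.1 p.2 = d)
        (fun p => ∃ b, Sum.map (id : X → X) α b = p.2)
      have h5 : ((univ.filter fun p : X × (X ⊕ E2) => M1 p.1 p.2 = d).filter
          fun p => ∃ b, Sum.map (id : X → X) α b = p.2).card ≤
          (univ.filter fun p : (X ⊕ W1) × (X ⊕ W2) => M0 p.1 p.2 = ψ d).card := by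
        have h7 : ((univ.filter fun p : X × (X ⊕ E2) => M1 p.1 p.2 = d).filter
            fun p => ∃ b, Sum.map (id : X → X) α b = p.2) ⊆
            (univ.filter fun q : X × (X ⊕ W2) => M1 q.1 (Sum.map id α q.2) = d).image
              (fun q => (q.1, Sum.map id α q.2)) := by
          intro p hp
          simp only [mem_filter, mem_univ, true_and] at hp
          obtain ⟨hp1, b, hb⟩ := hp
          simp only [mem_image, mem_filter, mem_univ, true_and]
          exact ⟨(p.1, b), by simpa only [hb] using hp1, Prod.ext rfl hb⟩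
        refine (Finset.card_le_card h7).trans (Finset.card_image_le.trans ?_)
        refine Finset.card_le_card_of_injOn (fun q => (Sum.inl q.1, q.2))
          (fun q hq => ?_) (fun q _ q' _ hqq => ?_)
        · simp only [mem_coe, mem_filter, mem_univ, true_and] at hq ⊢
          rw [e1, hq]
        · simpa [Prod.ext_iff] using hqq
      have h6 : ((univ.filter fun p : X × (X ⊕ E2) => M1 p.1 p.2 = d).filter
          fun p => ¬ ∃ b, Sum.map (id : X → X) α b = p.2).card + Fintype.card W2 ≤
          Fintype.card E2 := by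
        have h7 : ((univ.filter fun p : X × (X ⊕ E2) => M1 p.1 p.2 = d).filter
            fun p => ¬ ∃ b, Sum.map (id : X → X) α b = p.2).card ≤
            (univ.filter fun z : X ⊕ E2 => ¬ ∃ b, Sum.map (id : X → X) α b = z).card := by
          refine Finset.card_le_card_of_injOn (fun p => p.2) (fun p hp => ?_)
            (fun p hp q hq hpq => ?_)
          · simp only [mem_coe, mem_filter, mem_univ, true_and] at hp ⊢
            exact hp.2
          · simp only [mem_coe, mem_filter, mem_univ, true_and] at hp hq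
            simp only at hpq
            refine Prod.ext ?_ hpq
            have h8 := hp.1.trans hq.1.symm
            rw [hpq] at h8
            exact h1.2 _ h8
        have h8 := Finset.card_filter_add_card_filter_not (s := (univ : Finset (X ⊕ E2)))
          (fun z => ∃ b, Sum.map (id : X → X) α b = z)
        have h9 : (univ.filter fun z : X ⊕ E2 => ∃ b, Sum.map (id : X → X) α b = z)
            = univ.image (Sum.map (id : X → X) α) := by
          ext z; simp
        rw [h9, Finset.card_image_of_injective _ hα, Finset.card_univ, Finset.card_univ,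
          Fintype.card_sum, Fintype.card_sum] at h8
        omega
      omega
  obtain ⟨M, hM, hMM⟩ := Latin.ryser (X' := E1) (Y' := E2)
    (by simp only [Fintype.card_sum]; omega) (by simp only [Fintype.card_sum]; omega) hM0 hcount
  let ρ1 := (Equiv.sumAssoc X W1 E1).symm
  let ρ2 := (Equiv.sumAssoc X W2 E2).symm
  refine ⟨fun a b => M (ρ1 a) (ρ2 b), ⟨fun a => (hM.1 _).comp ρ2.injective,
    fun b => (hM.2 _).comp ρ1.injective⟩, fun x y hxy => ?_, fun w w' => ?_⟩
  · have : M (ρ1 (Sum.inl x)) (ρ2 (Sum.inl y)) = M0 (Sum.inl x) (Sum.inl y) := hMM _ _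
    refine this.trans ?_
    simp [M0, hMX, hxy, ψ]
  · exact hMM (Sum.inr w) (Sum.inr w')

end Pool.Agent.MP_dd827d_co
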