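import Pool.Agent.Lib.MP_dd827d_co.Evans

/-!
Evans' theorem inside a finite ambient set.
-/

namespace Pool.Agent.MP_dd827d_co

open Finset Function

/-- `M` is a latin square with rows `A`, columns `B`, symbols `D` (subsets of `Q`). -/
def LatinOn {Q : Type*} (M : Q → Q → Q) (A B D : Finset Q) : Prop :=
  (∀ a ∈ A, ∀ b ∈ B, M a b ∈ D) ∧
  (∀ a ∈ A, ∀ b ∈ B, ∀ b' ∈ B, M a b = M a b' → b = b') ∧
  (∀ b ∈ B, ∀ a ∈ A, ∀ a' ∈ A, M a b = M a' b → a = a')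

section
variable {Q : Type*} [DecidableEq Q]

/-- cut a finite set into three parts -/
def cut (A X W : Finset Q) (a : {a // a ∈ A}) :
    {x // x ∈ X} ⊕ ({x // x ∈ W} ⊕ {x // x ∈ A \ (X ∪ W)}) :=
  if hx : a.1 ∈ X then Sum.inl ⟨a.1, hx⟩
  else if hw : a.1 ∈ W then Sum.inr (Sum.inl ⟨a.1, hw⟩)
  else Sum.inr (Sum.inr ⟨a.1, by simp [a.2, hx, hw]⟩)

/-- forget -/
def uncut (A X W : Finset Q) :
    {x // x ∈ X} ⊕ ({x // x ∈ W} ⊕ {x // x ∈ A \ (X ∪ W)}) → Q :=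
  Sum.elim Subtype.val (Sum.elim Subtype.val Subtype.val)

theorem uncut_cut (A X W : Finset Q) (a : {a // a ∈ A}) : uncut A X W (cut A X W a) = a.1 := by
  unfold cut
  split_ifs <;> rfl

theorem cut_injective (A X W : Finset Q) : Injective (cut A X W) := by
  intro a b hab
  have := congrArg (uncut A X W) hab
  rw [uncut_cut, uncut_cut] at this
  exact Subtype.ext this

theorem uncut_injective {A X W : Finset Q} (hXW : Disjoint X W) : Injective (uncut A X W) := by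
  rw [Finset.disjoint_left] at hXW
  rintro (⟨a, ha⟩ | ⟨a, ha⟩ | ⟨a, ha⟩) (⟨b, hb⟩ | ⟨b, hb⟩ | ⟨b, hb⟩) h <;>
    simp only [uncut, Sum.elim_inl, Sum.elim_inr] at h <;> subst h
  · rfl
  · exact absurd hb (hXW ha)
  · simp only [mem_sdiff, mem_union, not_or] at hb
    exact absurd ha hb.2.1
  · exact absurd ha (hXW hb)
  · rfl
  · simp only [mem_sdiff, mem_union, not_or] at hb
    exact absurd ha hb.2.2
  · simp only [mem_sdiff, mem_union, not_or] at ha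
    exact absurd hb ha.2.1
  · simp only [mem_sdiff, mem_union, not_or] at ha
    exact absurd hb ha.2.2
  · rfl

theorem uncut_mem {A X W : Finset Q} (hX : X ⊆ A) (hW : W ⊆ A)
    (z : {x // x ∈ X} ⊕ ({x // x ∈ W} ⊕ {x // x ∈ A \ (X ∪ W)})) : uncut A X W z ∈ A := by
  rcases z with ⟨a, ha⟩ | ⟨a, ha⟩ | ⟨a, ha⟩
  · exact hX ha
  · exact hW ha
  · exact (mem_sdiff.1 ha).1

theorem evans_set (A B D X W1 W2 W3 : Finset Q)
    (hXA : X ⊆ A) (hXB : X ⊆ B) (hXD : X ⊆ D) (hWA : W1 ⊆ A) (hWB : W2 ⊆ B) (hWD : W3 ⊆ D)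
    (hd1 : Disjoint X W1) (hd2 : Disjoint X W2) (hd3 : Disjoint X W3)
    (hAB : A.card = B.card) (hAD : A.card = D.card)
    (hW12 : W1.card = W2.card) (hW13 : W1.card = W3.card)
    (hc1 : 2 * X.card + W1.card ≤ A.card) (hc2 : X.card + 2 * W1.card ≤ A.card)
    (r : Q → Q → Prop) (v : Q → Q → Q)
    (hv : ∀ x ∈ X, ∀ y ∈ X, r x y → v x y ∈ X)
    (hvr : ∀ x ∈ X, ∀ y ∈ X, ∀ y' ∈ X, r x y → r x y' → v x y = v x y' → y = y')
    (hvc : ∀ x ∈ X, ∀ x' ∈ X, ∀ y ∈ X, r x y → r x' y → v x y = v x' y → x = x')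
    {h : Q → Q → Q} (hh : LatinOn h W1 W2 W3) :
    ∃ M : Q → Q → Q, LatinOn M A B D ∧ (∀ x ∈ X, ∀ y ∈ X, r x y → M x y = v x y) ∧
      ∀ w ∈ W1, ∀ w' ∈ W2, M w w' = h w w' := by
  classical
  have hcard : ∀ (A X W : Finset Q), X ⊆ A → W ⊆ A → Disjoint X W →
      (A \ (X ∪ W)).card + X.card + W.card = A.card := by
    intro A X W h1 h2 h3
    have h4 := Finset.card_sdiff_add_card_eq_card (Finset.union_subset h1 h2)
    rw [Finset.card_union_of_disjoint h3] at h4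
    omega
  have cA := hcard A X W1 hXA hWA hd1
  have cB := hcard B X W2 hXB hWB hd2
  have cD := hcard D X W3 hXD hWD hd3
  obtain ⟨M, hM, hMv, hMh⟩ := evans_hole (X := {x // x ∈ X}) (W1 := {x // x ∈ W1})
    (W2 := {x // x ∈ W2}) (W3 := {x // x ∈ W3}) (E1 := {x // x ∈ A \ (X ∪ W1)})
    (E2 := {x // x ∈ B \ (X ∪ W2)}) (E3 := {x // x ∈ D \ (X ∪ W3)})
    (by simpa using hW12) (by simpa using hW13) (by simp only [Fintype.card_coe]; omega)
    (by simp only [Fintype.card_coe]; omega) (by simp only [Fintype.card_coe]; omega)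
    (by simp only [Fintype.card_coe]; omega)
    (fun x y => r x.1 y.1)
    (fun x y => if hxy : r x.1 y.1 then ⟨v x.1 y.1, hv _ x.2 _ y.2 hxy⟩ else x)
    (by
      intro x y y' h1 h2 h3
      rw [dif_pos h1, dif_pos h2] at h3
      exact Subtype.ext (hvr _ x.2 _ y.2 _ y'.2 h1 h2 (congrArg Subtype.val h3)))
    (by
      intro x x' y h1 h2 h3
      rw [dif_pos h1, dif_pos h2] at h3
      exact Subtype.ext (hvc _ x.2 _ x'.2 _ y.2 h1 h2 (congrArg Subtype.val h3)))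
    (h := fun w w' => ⟨h w.1 w'.1, hh.1 _ w.2 _ w'.2⟩)
    ⟨fun w y y' h1 => Subtype.ext (hh.2.1 _ w.2 _ y.2 _ y'.2 (congrArg Subtype.val h1)),
      fun y w w' h1 => Subtype.ext (hh.2.2 _ y.2 _ w.2 _ w'.2 (congrArg Subtype.val h1))⟩
  refine ⟨fun a b => if hab : a ∈ A ∧ b ∈ B then
    uncut D X W3 (M (cut A X W1 ⟨a, hab.1⟩) (cut B X W2 ⟨b, hab.2⟩)) else a, ⟨?_, ?_, ?_⟩, ?_, ?_⟩
  · intro a ha b hb
    beta_reduce
    rw [dif_pos ⟨ha, hb⟩]
    exact uncut_mem hXD hWD _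
  · intro a ha b hb b' hb' h1
    beta_reduce at h1
    rw [dif_pos ⟨ha, hb⟩, dif_pos ⟨ha, hb'⟩] at h1
    have h2 := cut_injective _ _ _ (hM.1 _ (uncut_injective hd3 h1))
    exact congrArg Subtype.val h2
  · intro b hb a ha a' ha' h1
    beta_reduce at h1
    rw [dif_pos ⟨ha, hb⟩, dif_pos ⟨ha', hb⟩] at h1
    have h2 := cut_injective _ _ _ (hM.2 _ (uncut_injective hd3 h1))
    exact congrArg Subtype.val h2
  · intro x hx y hy hxy
    beta_reduce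
    rw [dif_pos ⟨hXA hx, hXB hy⟩]
    have e1 : cut A X W1 ⟨x, hXA hx⟩ = Sum.inl ⟨x, hx⟩ := dif_pos hx
    have e2 : cut B X W2 ⟨y, hXB hy⟩ = Sum.inl ⟨y, hy⟩ := dif_pos hy
    rw [e1, e2, hMv _ _ hxy]
    simp [uncut, hxy]
  · intro w hw w' hw'
    beta_reduce
    rw [dif_pos ⟨hWA hw, hWB hw'⟩]
    have e1 : cut A X W1 ⟨w, hWA hw⟩ = Sum.inr (Sum.inl ⟨w, hw⟩) := by
      unfold cut
      rw [dif_neg (fun hx => (Finset.disjoint_left.1 hd1) hx hw), dif_pos hw]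
    have e2 : cut B X W2 ⟨w', hWB hw'⟩ = Sum.inr (Sum.inl ⟨w', hw'⟩) := by
      unfold cut
      rw [dif_neg (fun hx => (Finset.disjoint_left.1 hd2) hx hw'), dif_pos hw']
    rw [e1, e2, hMh]
    rfl

end

end Pool.Agent.MP_dd827d_co
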