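import Pool.Agent.Lib.MP_dd827d_co.Tri3

/-!
The exchange principle: a function which is superharmonic for exchanges inside triples of
exchangeable coordinates attains its minimum at a point with at most two interior coordinates.
-/

namespace Pool.Agent.MP_dd827d_co

open Finset Function

variable {J : Type*} [Fintype J] [DecidableEq J]

/-- squares on `E` -/
def hsq (E : Finset J) (f : J → ℝ) : J → ℝ := fun i => if i ∈ E then f i ^ 2 else f i

omit [Fintype J] in
theorem dir_left {i j : J} (h : i ≠ j) : dir i j i = 1 := by simp [dir, unit, h]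

omit [Fintype J] in
theorem dir_right {i j : J} (h : i ≠ j) : dir i j j = -1 := by simp [dir, unit, h.symm]

omit [Fintype J] in
theorem dir_other {i j x : J} (h : x ≠ i) (h' : x ≠ j) : dir i j x = 0 := by
  simp [dir, unit, h, h']

omit [Fintype J] in
theorem hsq_decomp (E : Finset J) {i j l : J} (hi : i ∈ E) (hj : j ∈ E) (hl : l ∈ E)
    (hij : i ≠ j) (hjl : j ≠ l) (hil : i ≠ l) (f g : J → ℝ)
    (hg : ∀ x, x ≠ i → x ≠ j → x ≠ l → g x = f x) :
    hsq E g = (fun x => if x = i ∨ x = j ∨ x = l then 0 else hsq E f x) +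
      ((g i ^ 2) • unit i + (g j ^ 2) • unit j + (g l ^ 2) • unit l) := by
  funext x
  simp only [Pi.add_apply, Pi.smul_apply, smul_eq_mul, unit, hsq]
  by_cases h1 : x = i
  · subst h1
    simp [hi, hij, hil]
  · by_cases h2 : x = j
    · subst h2
      simp [hj, h1, hjl]
    · by_cases h3 : x = l
      · subst h3
        simp [hl, h1, h2]
      · simp [h1, h2, h3, hg x h1 h2 h3]

theorem superharm {c : J → J → ℝ} (hs : ∀ a b, c a b = c b a)
    (hT : ∀ a b d, a ≠ b → b ≠ d → a ≠ d → 0 ≤ c a b + c b d + c a d)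
    (E : Finset J) {i j l : J} (hi : i ∈ E) (hj : j ∈ E) (hl : l ∈ E)
    (hij : i ≠ j) (hjl : j ≠ l) (hil : i ≠ l) (f : J → ℝ) (hf : ∀ x, 0 ≤ f x)
    (fi : f i ≤ 1) (fj : f j ≤ 1) (fl : f l ≤ 1) (t : ℝ) (P : (J → ℝ) → ℝ)
    (hP : ∀ g, P g = tri3 (tau c) (hsq E g) (hsq E g) (hsq E g)) :
    6 * P f - 72 * t ^ 2 * tau c i j l ≤
      P (f + t • dir i j) + P (f + (-t) • dir i j) + (P (f + t • dir j l) +
        P (f + (-t) • dir j l)) + (P (f + t • dir i l) + P (f + (-t) • dir i l)) := by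
  set u : J → ℝ := fun x => if x = i ∨ x = j ∨ x = l then 0 else hsq E f x with hu
  have hu0 : ∀ x, 0 ≤ u x := by
    intro x
    simp only [hu, hsq]
    have := hf x
    split_ifs <;> positivity
  have hun : ∀ y x : J, 0 ≤ unit y x := by
    intro y x
    unfold unit
    split_ifs <;> norm_num
  have hτ := tau_nonneg hT
  set P0 := tri3 (tau c) u u u
  set A := tri3 (tau c) (unit i) u u with hA
  set B := tri3 (tau c) (unit j) u u with hB
  set C := tri3 (tau c) (unit l) u u with hC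
  set D1 := tri3 (tau c) (unit i) (unit j) u with hD1
  set D2 := tri3 (tau c) (unit j) (unit l) u with hD2
  set D3 := tri3 (tau c) (unit i) (unit l) u with hD3
  have hA0 : 0 ≤ A := tri3_nonneg hτ (hun i) hu0 hu0
  have hB0 : 0 ≤ B := tri3_nonneg hτ (hun j) hu0 hu0
  have hC0 : 0 ≤ C := tri3_nonneg hτ (hun l) hu0 hu0
  have hD10 : 0 ≤ D1 := tri3_nonneg hτ (hun i) (hun j) hu0
  have hD20 : 0 ≤ D2 := tri3_nonneg hτ (hun j) (hun l) hu0
  have hD30 : 0 ≤ D3 := tri3_nonneg hτ (hun i) (hun l) hu0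
  have hτ0 : 0 ≤ tau c i j l := hτ i j l
  have key : ∀ g : J → ℝ, (∀ x, x ≠ i → x ≠ j → x ≠ l → g x = f x) → P g =
      P0 + 3 * (g i ^ 2 * A + g j ^ 2 * B + g l ^ 2 * C) +
      3 * (2 * g i ^ 2 * g j ^ 2 * D1 + 2 * g j ^ 2 * g l ^ 2 * D2 + 2 * g i ^ 2 * g l ^ 2 * D3) +
      6 * g i ^ 2 * g j ^ 2 * g l ^ 2 * tau c i j l := by
    intro g hg
    rw [hP, hsq_decomp E hi hj hl hij hjl hil f g hg, tri3_expand hs]
  have o : ∀ (p q x : J) (s : ℝ), (f + s • dir p q) x = f x + s * dir p q x := fun p q x s => rfl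
  rw [key f fun _ _ _ _ => rfl,
    key (f + t • dir i j) (fun x h1 h2 h3 => by rw [o, dir_other h1 h2]; ring),
    key (f + (-t) • dir i j) (fun x h1 h2 h3 => by rw [o, dir_other h1 h2]; ring),
    key (f + t • dir j l) (fun x h1 h2 h3 => by rw [o, dir_other h2 h3]; ring),
    key (f + (-t) • dir j l) (fun x h1 h2 h3 => by rw [o, dir_other h2 h3]; ring),
    key (f + t • dir i l) (fun x h1 h2 h3 => by rw [o, dir_other h1 h3]; ring),
    key (f + (-t) • dir i l) (fun x h1 h2 h3 => by rw [o, dir_other h1 h3]; ring)]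
  simp only [o, dir_left hij, dir_right hij, dir_left hjl, dir_right hjl, dir_left hil,
    dir_right hil, dir_other hil.symm hjl.symm, dir_other hij hil, dir_other hij.symm hjl]
  have x0 := hf i
  have y0 := hf j
  have z0 := hf l
  set x := f i
  set y := f j
  set z := f l
  have h1 : 0 ≤ 12 * t ^ 2 * (A + B + C) + 24 * t ^ 2 * ((x - y) ^ 2 * D1 + (y - z) ^ 2 * D2 +
        (x - z) ^ 2 * D3) + 12 * t ^ 4 * (D1 + D2 + D3) +
        12 * t ^ 2 * (z ^ 2 * (x - y) ^ 2 + x ^ 2 * (y - z) ^ 2 + y ^ 2 * (x - z) ^ 2) *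
          tau c i j l + 12 * t ^ 4 * (x ^ 2 + y ^ 2 + z ^ 2) * tau c i j l := by positivity
  have h2 : x * y * z * (x + y + z) ≤ 3 := by
    have a1 : x * y ≤ 1 := by nlinarith
    have a2 : x * y * z ≤ 1 := by nlinarith [mul_nonneg x0 y0]
    have a3 : 0 ≤ x * y * z := by positivity
    nlinarith
  have h3 : 24 * t ^ 2 * (x * y * z * (x + y + z)) * tau c i j l ≤ 72 * t ^ 2 * tau c i j l := by
    have h4 : 0 ≤ 24 * t ^ 2 * tau c i j l := by positivity
    nlinarith
  linarith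

/-- the box with exchangeable coordinates `E`, prescribed values elsewhere -/
def ebox (E : Finset J) (g : J → ℝ) (R : ℝ) : Set (J → ℝ) :=
  {f | (∀ i, i ∉ E → f i = g i) ∧ (∀ i ∈ E, 0 ≤ f i ∧ f i ≤ 1) ∧ ∑ i ∈ E, f i = R}

omit [Fintype J] in
theorem isCompact_ebox (E : Finset J) (g : J → ℝ) (R : ℝ) : IsCompact (ebox E g R) := by
  have h : ebox E g R = Set.pi Set.univ (fun i : J => if i ∈ E then Set.Icc (0 : ℝ) 1
      else {g i}) ∩ {f | ∑ i ∈ E, f i = R} := by
    ext f
    constructor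
    · rintro ⟨h1, h2, h3⟩
      refine ⟨fun i _ => ?_, h3⟩
      show f i ∈ (if i ∈ E then Set.Icc (0 : ℝ) 1 else {g i})
      by_cases hi : i ∈ E
      · rw [if_pos hi]
        exact h2 i hi
      · rw [if_neg hi]
        exact h1 i hi
    · rintro ⟨h1, h2⟩
      refine ⟨fun i hi => ?_, fun i hi => ?_, h2⟩
      · have : f i ∈ (if i ∈ E then Set.Icc (0 : ℝ) 1 else {g i}) := h1 i trivial
        rw [if_neg hi] at this
        exact this
      · have : f i ∈ (if i ∈ E then Set.Icc (0 : ℝ) 1 else {g i}) := h1 i trivial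
        rw [if_pos hi] at this
        exact this
  rw [h]
  refine (isCompact_univ_pi fun i => ?_).inter_right ?_
  · split_ifs
    · exact isCompact_Icc
    · exact isCompact_singleton
  · exact isClosed_eq (continuous_finsetSum _ fun a _ => continuous_apply a) continuous_const

omit [Fintype J] in
theorem move_mem_ebox {E : Finset J} {g : J → ℝ} {R : ℝ} {f : J → ℝ} (hf : f ∈ ebox E g R)
    {i j : J} (hi : i ∈ E) (hj : j ∈ E) (hij : i ≠ j) {t : ℝ}
    (h1 : |t| ≤ f i) (h2 : |t| ≤ 1 - f i) (h3 : |t| ≤ f j) (h4 : |t| ≤ 1 - f j) :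
    f + t • dir i j ∈ ebox E g R := by
  have ht := abs_le.1 (le_refl |t|)
  have o : ∀ x : J, (f + t • dir i j) x = f x + t * dir i j x := fun x => rfl
  refine ⟨fun x hx => ?_, fun x hx => ?_, ?_⟩
  · rw [o, dir_other (fun h => hx (by rw [h]; exact hi)) (fun h => hx (by rw [h]; exact hj)),
      hf.1 x hx]
    ring
  · rw [o]
    by_cases hxi : x = i
    · subst hxi
      rw [dir_left hij]
      constructor <;> linarith
    · by_cases hxj : x = j
      · subst hxj
        rw [dir_right hij]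
        constructor <;> linarith
      · rw [dir_other hxi hxj]
        have := hf.2.1 x hx
        constructor <;> linarith
  · have h5 : ∑ x ∈ E, dir i j x = 0 := by
      simp only [dir, unit, Pi.add_apply, Pi.smul_apply, smul_eq_mul, Finset.sum_add_distrib,
        ← Finset.mul_sum, Finset.sum_ite_eq', if_pos hi, if_pos hj]
      ring
    simp only [o, Finset.sum_add_distrib, ← Finset.mul_sum, h5, hf.2.2]
    ring

theorem exists_min_ebox (E : Finset J) (g : J → ℝ) (R : ℝ) (G : (J → ℝ) → ℝ)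
    (hG : Continuous G)
    (hsup : ∀ f ∈ ebox E g R, ∀ i j l, i ∈ E → j ∈ E → l ∈ E → i ≠ j → j ≠ l → i ≠ l →
      ∀ t : ℝ, G (f + t • dir i j) + G (f + (-t) • dir i j) + (G (f + t • dir j l) +
        G (f + (-t) • dir j l)) + (G (f + t • dir i l) + G (f + (-t) • dir i l)) ≤ 6 * G f)
    (hne : (ebox E g R).Nonempty) :
    ∃ f ∈ ebox E g R, (∀ f' ∈ ebox E g R, G f ≤ G f') ∧
      ∀ i j l, i ∈ E → j ∈ E → l ∈ E → i ≠ j → j ≠ l → i ≠ l →
        ¬ ((0 < f i ∧ f i < 1) ∧ (0 < f j ∧ f j < 1) ∧ (0 < f l ∧ f l < 1)) := by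
  obtain ⟨m, hm, hmin⟩ := (isCompact_ebox E g R).exists_isMinOn hne hG.continuousOn
  have hK : IsCompact {f ∈ ebox E g R | G f ≤ G m} :=
    (isCompact_ebox E g R).inter_right (isClosed_le hG continuous_const)
  obtain ⟨f, hf, hmax⟩ := hK.exists_isMaxOn (f := fun f : J → ℝ => ∑ a, f a ^ 2) ⟨m, hm, le_rfl⟩
    (by fun_prop)
  have hfmin : ∀ f' ∈ ebox E g R, G f ≤ G f' := fun f' hf' => hf.2.trans (hmin hf')
  refine ⟨f, hf.1, hfmin, ?_⟩
  rintro i j l hi hj hl hij hjl hil ⟨⟨i1, i2⟩, ⟨j1, j2⟩, ⟨l1, l2⟩⟩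
  obtain ⟨t, ht0, ht⟩ : ∃ t : ℝ, 0 < t ∧ t ≤ f i ∧ t ≤ 1 - f i ∧ t ≤ f j ∧ t ≤ 1 - f j ∧
      t ≤ f l ∧ t ≤ 1 - f l := by
    refine ⟨min (f i) (min (1 - f i) (min (f j) (min (1 - f j) (min (f l) (1 - f l))))), ?_, ?_⟩
    · simp only [lt_min_iff]
      refine ⟨i1, by linarith, j1, by linarith, l1, by linarith⟩
    · refine ⟨min_le_left _ _, ?_, ?_, ?_, ?_, ?_⟩
      · exact (min_le_right _ _).trans (min_le_left _ _)
      · exact (min_le_right _ _).trans ((min_le_right _ _).trans (min_le_left _ _))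
      · exact (min_le_right _ _).trans ((min_le_right _ _).trans ((min_le_right _ _).trans
          (min_le_left _ _)))
      · exact (min_le_right _ _).trans ((min_le_right _ _).trans ((min_le_right _ _).trans
          ((min_le_right _ _).trans (min_le_left _ _))))
      · exact (min_le_right _ _).trans ((min_le_right _ _).trans ((min_le_right _ _).trans
          ((min_le_right _ _).trans (min_le_right _ _))))
  obtain ⟨t1, t2, t3, t4, t5, t6⟩ := ht
  have ha : |t| = t := abs_of_pos ht0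
  have ha' : |-t| = t := by rw [abs_neg, ha]
  have b1 := move_mem_ebox hf.1 hi hj hij (t := t) (by rwa [ha]) (by rwa [ha]) (by rwa [ha])
    (by rwa [ha])
  have b2 := move_mem_ebox hf.1 hi hj hij (t := -t) (by rwa [ha']) (by rwa [ha']) (by rwa [ha'])
    (by rwa [ha'])
  have b3 := move_mem_ebox hf.1 hj hl hjl (t := t) (by rwa [ha]) (by rwa [ha]) (by rwa [ha])
    (by rwa [ha])
  have b4 := move_mem_ebox hf.1 hj hl hjl (t := -t) (by rwa [ha']) (by rwa [ha']) (by rwa [ha'])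
    (by rwa [ha'])
  have b5 := move_mem_ebox hf.1 hi hl hil (t := t) (by rwa [ha]) (by rwa [ha]) (by rwa [ha])
    (by rwa [ha])
  have b6 := move_mem_ebox hf.1 hi hl hil (t := -t) (by rwa [ha']) (by rwa [ha']) (by rwa [ha'])
    (by rwa [ha'])
  have hsum := hsup f hf.1 i j l hi hj hl hij hjl hil t
  have m1 := hfmin _ b1
  have m2 := hfmin _ b2
  have m3 := hfmin _ b3
  have m4 := hfmin _ b4
  have m5 := hfmin _ b5
  have m6 := hfmin _ b6
  have ht2 : 0 < t ^ 2 := by positivity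
  have k1 : G (f + t • dir i j) ≤ G f := by linarith
  have k2 : G (f + (-t) • dir i j) ≤ G f := by linarith
  have q1 : ∑ a, (f + t • dir i j) a ^ 2 ≤ ∑ a, f a ^ 2 :=
    hmax (show f + t • dir i j ∈ {f ∈ ebox E g R | G f ≤ G m} from ⟨b1, k1.trans hf.2⟩)
  have q2 : ∑ a, (f + (-t) • dir i j) a ^ 2 ≤ ∑ a, f a ^ 2 :=
    hmax (show f + (-t) • dir i j ∈ {f ∈ ebox E g R | G f ≤ G m} from ⟨b2, k2.trans hf.2⟩)
  have q3 := sq_move f hij t
  linarith

/-- the function to be minimized -/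
theorem exists_min_slack {c : J → J → ℝ} (hs : ∀ a b, c a b = c b a) (hd : ∀ a, c a a = 0)
    (hT : ∀ a b d, a ≠ b → b ≠ d → a ≠ d → 0 ≤ c a b + c b d + c a d)
    (E : Finset J) (g : J → ℝ) (hg : ∀ i, i ∉ E → 0 ≤ g i) (R κ : ℝ) (hκ0 : 0 ≤ κ)
    (hκ : κ ≤ 1 / 18) (hne : (ebox E g R).Nonempty) :
    ∃ f ∈ ebox E g R, (∀ f' ∈ ebox E g R,
      bil c f f - κ * tri3 (tau c) (hsq E f) (hsq E f) (hsq E f) ≤
        bil c f' f' - κ * tri3 (tau c) (hsq E f') (hsq E f') (hsq E f')) ∧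
      ∀ i j l, i ∈ E → j ∈ E → l ∈ E → i ≠ j → j ≠ l → i ≠ l →
        ¬ ((0 < f i ∧ f i < 1) ∧ (0 < f j ∧ f j < 1) ∧ (0 < f l ∧ f l < 1)) := by
  refine exists_min_ebox E g R
    (fun f => bil c f f - κ * tri3 (tau c) (hsq E f) (hsq E f) (hsq E f)) ?_ ?_ hne
  · refine (continuous_bil c).sub (continuous_const.mul ?_)
    have h1 : ∀ a, Continuous fun f : J → ℝ => hsq E f a := by
      intro a
      unfold hsq
      split_ifs <;> fun_prop
    unfold tri3
    refine continuous_finsetSum _ fun a _ => continuous_finsetSum _ fun b _ =>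
      continuous_finsetSum _ fun d _ => ?_
    exact ((continuous_const.mul (h1 a)).mul (h1 b)).mul (h1 d)
  · intro f hf i j l hi hj hl hij hjl hil t
    have hf0 : ∀ x, 0 ≤ f x := by
      intro x
      by_cases hx : x ∈ E
      · exact (hf.2.1 x hx).1
      · rw [hf.1 x hx]
        exact hg x hx
    have h1 := superharm hs hT E hi hj hl hij hjl hil f hf0 (hf.2.1 i hi).2 (hf.2.1 j hj).2
      (hf.2.1 l hl).2 t (fun g => tri3 (tau c) (hsq E g) (hsq E g) (hsq E g)) (fun _ => rfl)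
    have e1 := bil_move c hs hd f i j t
    have e2 := bil_move c hs hd f j l t
    have e3 := bil_move c hs hd f i l t
    have hτ : tau c i j l = c i j + c j l + c i l := tau_pos hij hjl hil
    have hτ0 : 0 ≤ tau c i j l := tau_nonneg hT i j l
    have h2 := mul_le_mul_of_nonneg_left h1 hκ0
    have h3 : κ * (72 * t ^ 2 * tau c i j l) ≤ 4 * t ^ 2 * tau c i j l := by
      have h4 : 0 ≤ 72 * t ^ 2 * tau c i j l := by positivity
      have h5 := mul_le_mul_of_nonneg_right hκ h4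
      linarith
    have h6 : 4 * t ^ 2 * c i j + 4 * t ^ 2 * c j l + 4 * t ^ 2 * c i l =
        4 * t ^ 2 * tau c i j l := by rw [hτ]; ring
    beta_reduce at h2 ⊢
    linarith

end Pool.Agent.MP_dd827d_co
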