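import Pool.Agent.Lib.MP_dd827d_co.EvansSet

/-!
Gluing latin squares along inflated latin squares (frames).
-/

namespace Pool.Agent.MP_dd827d_co

open Finset Function

section
variable {Q ι : Type*} [DecidableEq Q]

/-- there is a latin square on the set `X` in which every part of `X` (fibre of `c`) is closed -/
def GoodOn (c : Q → ι) (X : Finset Q) : Prop :=
  ∃ g : Q → Q → Q, LatinOn g X X X ∧ ∀ x ∈ X, ∀ y ∈ X, c x = c y → c (g x y) = c x

/-- A choice of latin squares on all parts. -/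
theorem exists_parts_op [Finite Q] (c : Q → ι) : ∃ v : Q → Q → Q,
    (∀ x y, c x = c y → c (v x y) = c x) ∧
    (∀ x y y', c x = c y → c x = c y' → v x y = v x y' → y = y') ∧
    (∀ x x' y, c x = c y → c x' = c y → v x y = v x' y → x = x') := by
  classical
  have := fun t : ι => exists_latin {x // c x = t}
  choose L hL using this
  have key : ∀ t (x y : Q) (hx : c x = t) (hy : c y = t),
      c x = c y ∧ True := fun t x y hx hy => ⟨hx.trans hy.symm, trivial⟩
  let v : Q → Q → Q := fun x y => if h : c x = c y then (L (c y) ⟨x, h⟩ ⟨y, rfl⟩).1 else x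
  have hv : ∀ t x y (hx : c x = t) (hy : c y = t), v x y = (L t ⟨x, hx⟩ ⟨y, hy⟩).1 := by
    intro t x y hx hy
    subst hy
    exact dif_pos hx
  refine ⟨v, fun x y h => ?_, fun x y y' h h' hh => ?_, fun x x' y h h' hh => ?_⟩
  · rw [hv (c x) x y rfl h.symm]
    exact (L (c x) ⟨x, rfl⟩ ⟨y, h.symm⟩).2
  · rw [hv (c x) x y rfl h.symm, hv (c x) x y' rfl h'.symm] at hh
    exact congrArg Subtype.val ((hL (c x)).1 _ (Subtype.ext hh))
  · rw [hv (c y) x y h rfl, hv (c y) x' y h' rfl] at hh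
    exact congrArg Subtype.val ((hL (c y)).2 _ (Subtype.ext hh))

theorem LatinOn.surj {g : Q → Q → Q} {A B D : Finset Q} (h : LatinOn g A B D)
    (hc : D.card ≤ B.card) {a : Q} (ha : a ∈ A) {d : Q} (hd : d ∈ D) : ∃ b ∈ B, g a b = d := by
  have := Finset.surj_on_of_inj_on_of_card_le (fun b (_ : b ∈ B) => g a b)
    (fun b hb => h.1 a ha b hb) (fun b b' hb hb' hbb => h.2.1 a ha b hb b' hb' hbb) hc d hd
  obtain ⟨b, hb, hbd⟩ := this
  exact ⟨b, hb, hbd.symm⟩

theorem LatinOn.surj' {g : Q → Q → Q} {A B D : Finset Q} (h : LatinOn g A B D)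
    (hc : D.card ≤ A.card) {b : Q} (hb : b ∈ B) {d : Q} (hd : d ∈ D) : ∃ a ∈ A, g a b = d := by
  have := Finset.surj_on_of_inj_on_of_card_le (fun a (_ : a ∈ A) => g a b)
    (fun a ha => h.1 a ha b hb) (fun a a' ha ha' haa => h.2.2 b hb a ha a' ha' haa) hc d hd
  obtain ⟨a, ha, had⟩ := this
  exact ⟨a, ha, had.symm⟩

/-- Filling a hole. -/
theorem hole_fill [Fintype Q] {c : Q → ι} {op g : Q → Q → Q} {H : Finset Q}
    (h : LatinOn op univ univ univ) (hH : ∀ x ∈ H, ∀ y ∈ H, op x y ∈ H)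
    (hg : LatinOn g H H H) (hc : ∀ x ∈ H, ∀ y, c x = c y → y ∈ H)
    (hgc : ∀ x ∈ H, ∀ y ∈ H, c x = c y → c (g x y) = c x)
    (hoc : ∀ x, x ∉ H → ∀ y, y ∉ H → c x = c y → c (op x y) = c x) :
    GoodOn c univ := by
  have hHH : LatinOn op H H H := ⟨hH, fun a _ b _ b' _ hb => h.2.1 a (mem_univ _) b (mem_univ _) b'
    (mem_univ _) hb, fun b _ a _ a' _ ha => h.2.2 b (mem_univ _) a (mem_univ _) a' (mem_univ _) ha⟩
  have h1 : ∀ x ∈ H, ∀ y, y ∉ H → op x y ∉ H := by
    intro x hx y hy hm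
    obtain ⟨b, hb, hbd⟩ := hHH.surj le_rfl hx hm
    exact hy (h.2.1 x (mem_univ _) b (mem_univ _) y (mem_univ _) hbd ▸ hb)
  have h2 : ∀ y ∈ H, ∀ x, x ∉ H → op x y ∉ H := by
    intro y hy x hx hm
    obtain ⟨a, ha, had⟩ := hHH.surj' le_rfl hy hm
    exact hx (h.2.2 y (mem_univ _) a (mem_univ _) x (mem_univ _) had ▸ ha)
  refine ⟨fun x y => if x ∈ H ∧ y ∈ H then g x y else op x y,
    ⟨fun _ _ _ _ => mem_univ _, ?_, ?_⟩, ?_⟩
  · intro x _ y _ y' _ hyy
    beta_reduce at hyy
    by_cases hx : x ∈ H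
    · by_cases hy : y ∈ H <;> by_cases hy' : y' ∈ H
      · rw [if_pos ⟨hx, hy⟩, if_pos ⟨hx, hy'⟩] at hyy
        exact hg.2.1 x hx y hy y' hy' hyy
      · rw [if_pos ⟨hx, hy⟩, if_neg (fun h => hy' h.2)] at hyy
        exact absurd (hyy ▸ hg.1 x hx y hy) (h1 x hx y' hy')
      · rw [if_neg (fun h => hy h.2), if_pos ⟨hx, hy'⟩] at hyy
        exact absurd (hyy ▸ hg.1 x hx y' hy') (h1 x hx y hy)
      · rw [if_neg (fun h => hy h.2), if_neg (fun h => hy' h.2)] at hyy
        exact h.2.1 x (mem_univ _) y (mem_univ _) y' (mem_univ _) hyy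
    · rw [if_neg (fun h => hx h.1), if_neg (fun h => hx h.1)] at hyy
      exact h.2.1 x (mem_univ _) y (mem_univ _) y' (mem_univ _) hyy
  · intro y _ x _ x' _ hxx
    beta_reduce at hxx
    by_cases hy : y ∈ H
    · by_cases hx : x ∈ H <;> by_cases hx' : x' ∈ H
      · rw [if_pos ⟨hx, hy⟩, if_pos ⟨hx', hy⟩] at hxx
        exact hg.2.2 y hy x hx x' hx' hxx
      · rw [if_pos ⟨hx, hy⟩, if_neg (fun h => hx' h.1)] at hxx
        exact absurd (hxx ▸ hg.1 x hx y hy) (h2 y hy x' hx')
      · rw [if_neg (fun h => hx h.1), if_pos ⟨hx', hy⟩] at hxx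
        exact absurd (hxx ▸ hg.1 x' hx' y hy) (h2 y hy x hx)
      · rw [if_neg (fun h => hx h.1), if_neg (fun h => hx' h.1)] at hxx
        exact h.2.2 y (mem_univ _) x (mem_univ _) x' (mem_univ _) hxx
    · rw [if_neg (fun h => hy h.2), if_neg (fun h => hy h.2)] at hxx
      exact h.2.2 y (mem_univ _) x (mem_univ _) x' (mem_univ _) hxx
  · intro x _ y _ hxy
    beta_reduce
    by_cases hx : x ∈ H
    · have hy := hc x hx y hxy
      rw [if_pos ⟨hx, hy⟩]
      exact hgc x hx y hy hxy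
    · have hy : y ∉ H := fun hy => hx (hc y hy x hxy.symm)
      rw [if_neg (fun h => hx h.1)]
      exact hoc x hx y hy hxy

/-- **Frame theorem without transversal.** Rows, columns and symbols are divided into blocks
(coordinates `i`, `j`, `l`) of size `N`, indexed by a latin square `Λ`. A hole `H`, compatible with
the blocks, is filled with any good latin square; every other part lies in a diagonal bin
`i = a, j = b`, and the bins have size at most `N / 2` (more precisely see `hb1`, `hb2`). -/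
theorem frame_hole [Fintype Q] {S : Type*} [DecidableEq S] {Λ : S → S → S} (hΛ : Latin Λ)
    {N : ℕ} (i j l : Q → S)
    (hi : ∀ a, (univ.filter fun x => i x = a).card = N)
    (hj : ∀ b, (univ.filter fun x => j x = b).card = N)
    (hl : ∀ s, (univ.filter fun x => l x = s).card = N)
    (H : Finset Q) {h : Q → Q → Q} (hh : LatinOn h H H H)
    (hhl : ∀ w ∈ H, ∀ w' ∈ H, l (h w w') = Λ (i w) (j w'))
    {ρ : ℕ} (hHi : ∀ a, (H.filter fun x => i x = a).card = ρ)
    (hHj : ∀ b, (H.filter fun x => j x = b).card = ρ)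
    (hHl : ∀ s, (H.filter fun x => l x = s).card = ρ)
    (hlx : ∀ x, x ∉ H → l x = Λ (i x) (j x))
    (hb1 : ∀ a b, 2 * (univ.filter fun x => x ∉ H ∧ i x = a ∧ j x = b).card + ρ ≤ N)
    (hb2 : ∀ a b, (univ.filter fun x => x ∉ H ∧ i x = a ∧ j x = b).card + 2 * ρ ≤ N)
    (c : Q → ι) (hcH : ∀ x ∈ H, ∀ y, c x = c y → y ∈ H)
    (hci : ∀ x y, x ∉ H → c x = c y → i x = i y) (hcj : ∀ x y, x ∉ H → c x = c y → j x = j y)
    (hGH : GoodOn c H) : GoodOn c univ := by
  obtain ⟨v, hv, hvr, hvc⟩ := exists_parts_op c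
  have hM : ∀ a b : S, ∃ M : Q → Q → Q,
      LatinOn M (univ.filter fun x => i x = a) (univ.filter fun x => j x = b)
        (univ.filter fun x => l x = Λ a b) ∧
      (∀ x ∈ (univ.filter fun x => x ∉ H ∧ i x = a ∧ j x = b),
        ∀ y ∈ (univ.filter fun x => x ∉ H ∧ i x = a ∧ j x = b), c x = c y → M x y = v x y) ∧
      ∀ w ∈ H.filter (fun x => i x = a), ∀ w' ∈ H.filter (fun x => j x = b), M w w' = h w w' := by
    intro a b
    refine evans_set _ _ _ _ _ _ (H.filter fun x => l x = Λ a b) ?_ ?_ ?_ ?_ ?_ ?_ ?_ ?_ ?_ ?_ ?_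
      ?_ ?_ ?_ ?_ (fun x y => c x = c y) v ?_ ?_ ?_ (h := h) ?_
    · intro x hx
      simp only [mem_filter, mem_univ, true_and] at hx ⊢
      exact hx.2.1
    · intro x hx
      simp only [mem_filter, mem_univ, true_and] at hx ⊢
      exact hx.2.2
    · intro x hx
      simp only [mem_filter, mem_univ, true_and] at hx ⊢
      rw [hlx x hx.1, hx.2.1, hx.2.2]
    · intro x hx
      simp only [mem_filter, mem_univ, true_and] at hx ⊢
      exact hx.2
    · intro x hx
      simp only [mem_filter, mem_univ, true_and] at hx ⊢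
      exact hx.2
    · intro x hx
      simp only [mem_filter, mem_univ, true_and] at hx ⊢
      exact hx.2
    · rw [Finset.disjoint_left]
      intro x hx hx'
      simp only [mem_filter, mem_univ, true_and] at hx hx'
      exact hx.1 hx'.1
    · rw [Finset.disjoint_left]
      intro x hx hx'
      simp only [mem_filter, mem_univ, true_and] at hx hx'
      exact hx.1 hx'.1
    · rw [Finset.disjoint_left]
      intro x hx hx'
      simp only [mem_filter, mem_univ, true_and] at hx hx'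
      exact hx.1 hx'.1
    · rw [hi, hj]
    · rw [hi, hl]
    · rw [hHi, hHj]
    · rw [hHi, hHl]
    · rw [hi, hHi]; exact hb1 a b
    · rw [hi, hHi]; exact hb2 a b
    · intro x hx y hy hxy
      simp only [mem_filter, mem_univ, true_and] at hx ⊢
      have h1 := hv x y hxy
      refine ⟨fun hm => hx.1 (hcH _ hm x h1), ?_, ?_⟩
      · rw [← hx.2.1]; exact (hci x _ hx.1 h1.symm).symm
      · rw [← hx.2.2]; exact (hcj x _ hx.1 h1.symm).symm
    · intro x _ y _ y' _ h1 h2 h3
      exact hvr x y y' h1 h2 h3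
    · intro x _ x' _ y _ h1 h2 h3
      exact hvc x x' y h1 h2 h3
    · refine ⟨fun w hw w' hw' => ?_, fun w hw y hy y' hy' hyy => ?_, fun y hy w hw w' hw' hww => ?_⟩
      · simp only [mem_filter] at hw hw' ⊢
        refine ⟨hh.1 w hw.1 w' hw'.1, ?_⟩
        rw [hhl w hw.1 w' hw'.1, hw.2, hw'.2]
      · simp only [mem_filter] at hw hy hy'
        exact hh.2.1 w hw.1 y hy.1 y' hy'.1 hyy
      · simp only [mem_filter] at hw hw' hy
        exact hh.2.2 y hy.1 w hw.1 w' hw'.1 hww
  choose M hMl hMv hMh using hM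
  obtain ⟨g, hg, hgc⟩ := hGH
  have hmem : ∀ x y, l (M (i x) (j y) x y) = Λ (i x) (j y) := by
    intro x y
    have := (hMl (i x) (j y)).1 x (by simp) y (by simp)
    simpa using this
  refine hole_fill (op := fun x y => M (i x) (j y) x y) (g := g) (H := H)
    ⟨fun _ _ _ _ => mem_univ _, ?_, ?_⟩ ?_ hg hcH hgc ?_
  · intro x _ y _ y' _ hyy
    beta_reduce at hyy
    have h1 := hmem x y
    rw [hyy, hmem x y'] at h1
    have h2 : j y' = j y := hΛ.1 _ h1
    rw [h2] at hyy
    exact (hMl (i x) (j y)).2.1 x (by simp) y (by simp) y' (by simp [h2]) hyy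
  · intro y _ x _ x' _ hxx
    beta_reduce at hxx
    have h1 := hmem x y
    rw [hxx, hmem x' y] at h1
    have h2 : i x' = i x := hΛ.2 _ h1
    rw [h2] at hxx
    exact (hMl (i x) (j y)).2.2 y (by simp) x (by simp) x' (by simp [h2]) hxx
  · intro x hx y hy
    beta_reduce
    rw [hMh (i x) (j y) x (by simp [hx]) y (by simp [hy])]
    exact hh.1 x hx y hy
  · intro x hx y hy hxy
    beta_reduce
    have h1 := hci x y hx hxy
    have h2 := hcj x y hx hxy
    rw [← h2, hMv (i x) (j x) x (by simp [hx]) y (by simp [hy, h1, h2]) hxy]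
    exact hv x y hxy

end

end Pool.Agent.MP_dd827d_co
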