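import Pool.Agent.Lib.MP_dd827d_co.Frame

/-!
Frames extended along a transversal.
-/

namespace Pool.Agent.MP_dd827d_co

open Finset Function

variable {Q ι : Type*} [DecidableEq Q]

/-- **Frame theorem with transversal.** The elements outside `W` are divided into diagonal bins
`(i, j)` with block sizes `N`; the set `W`, of size at most `N`, is attached along the transversal
`a ↦ (a, τ a)` of `Λ`. The bins have size at most `N / 2`, or size `N` and are good; the partition
of `W` is arbitrary. -/
theorem frame_transversal [Fintype Q] {S : Type*} [DecidableEq S] {Λ : S → S → S}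
    (hΛ : Latin Λ) (τ : S ≃ S) (hτ : Injective fun a => Λ a (τ a)) (a0 : S)
    {N : ℕ} (i j : Q → S) (W : Finset Q)
    (hi : ∀ a, (univ.filter fun x => x ∉ W ∧ i x = a).card = N)
    (hj : ∀ b, (univ.filter fun x => x ∉ W ∧ j x = b).card = N)
    (hl : ∀ s, (univ.filter fun x => x ∉ W ∧ Λ (i x) (j x) = s).card = N)
    (hW : W.card ≤ N) (hτ0 : ∀ x, x ∉ W → j x ≠ τ (i x))
    (c : Q → ι) (hcW : ∀ x ∈ W, ∀ y, c x = c y → y ∈ W)
    (hci : ∀ x y, x ∉ W → c x = c y → i x = i y) (hcj : ∀ x y, x ∉ W → c x = c y → j x = j y)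
    (hb : ∀ a b, b ≠ τ a → 2 * (univ.filter fun x => x ∉ W ∧ i x = a ∧ j x = b).card ≤ N ∨
      (univ.filter fun x => x ∉ W ∧ i x = a ∧ j x = b).card = N ∧
        GoodOn c (univ.filter fun x => x ∉ W ∧ i x = a ∧ j x = b)) :
    GoodOn c univ := by
  obtain ⟨v, hv, hvr, hvc⟩ := exists_parts_op c
  have hcW' : ∀ x, x ∉ W → ∀ y, c x = c y → y ∉ W := fun x hx y hxy hy => hx (hcW y hy x hxy.symm)
  -- the plain blocks
  have hM : ∀ a b : S, ∃ M : Q → Q → Q, b ≠ τ a →
      LatinOn M (univ.filter fun x => x ∉ W ∧ i x = a) (univ.filter fun x => x ∉ W ∧ j x = b)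
        (univ.filter fun x => x ∉ W ∧ Λ (i x) (j x) = Λ a b) ∧
      (∀ x ∈ (univ.filter fun x => x ∉ W ∧ i x = a ∧ j x = b),
        ∀ y ∈ (univ.filter fun x => x ∉ W ∧ i x = a ∧ j x = b), c x = c y →
          c (M x y) = c x) := by
    intro a b
    by_cases hab : b ≠ τ a
    swap
    · exact ⟨fun x _ => x, fun h => absurd h hab⟩
    have hXA : (univ.filter fun x => x ∉ W ∧ i x = a ∧ j x = b) ⊆
        (univ.filter fun x => x ∉ W ∧ i x = a) := by
      intro x hx
      simp only [mem_filter, mem_univ, true_and] at hx ⊢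
      exact ⟨hx.1, hx.2.1⟩
    have hXB : (univ.filter fun x => x ∉ W ∧ i x = a ∧ j x = b) ⊆
        (univ.filter fun x => x ∉ W ∧ j x = b) := by
      intro x hx
      simp only [mem_filter, mem_univ, true_and] at hx ⊢
      exact ⟨hx.1, hx.2.2⟩
    have hXD : (univ.filter fun x => x ∉ W ∧ i x = a ∧ j x = b) ⊆
        (univ.filter fun x => x ∉ W ∧ Λ (i x) (j x) = Λ a b) := by
      intro x hx
      simp only [mem_filter, mem_univ, true_and] at hx ⊢
      exact ⟨hx.1, by rw [hx.2.1, hx.2.2]⟩
    rcases hb a b hab with h2 | ⟨h2, g, hg, hgc⟩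
    · obtain ⟨M, h3, h4, -⟩ := evans_set _ _ _ _ ∅ ∅ ∅ hXA hXB hXD (by simp) (by simp) (by simp)
        (by simp) (by simp) (by simp) (by rw [hi, hj]) (by rw [hi, hl]) rfl rfl
        (by rw [hi]; simpa using h2)
        (by rw [hi]; simp only [card_empty]; omega) (fun x y => c x = c y) v
        (by
          intro x hx y hy hxy
          simp only [mem_filter, mem_univ, true_and] at hx ⊢
          have h1 := hv x y hxy
          refine ⟨hcW' x hx.1 _ h1.symm, ?_, ?_⟩
          · rw [← hx.2.1]; exact (hci x _ hx.1 h1.symm).symm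
          · rw [← hx.2.2]; exact (hcj x _ hx.1 h1.symm).symm)
        (fun x _ y _ y' _ h1 h2 h3 => hvr x y y' h1 h2 h3)
        (fun x _ x' _ y _ h1 h2 h3 => hvc x x' y h1 h2 h3)
        (h := fun x _ => x) ⟨by simp, by simp, by simp⟩
      refine ⟨M, fun _ => ⟨h3, fun x hx y hy hxy => ?_⟩⟩
      rw [h4 x hx y hy hxy]
      exact hv x y hxy
    · have eA := Finset.eq_of_subset_of_card_le hXA (by rw [h2, hi])
      have eB := Finset.eq_of_subset_of_card_le hXB (by rw [h2, hj])
      have eD := Finset.eq_of_subset_of_card_le hXD (by rw [h2, hl])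
      refine ⟨g, fun _ => ⟨?_, hgc⟩⟩
      rw [← eA, ← eB, ← eD]
      exact hg
  choose M hMM using hM
  -- the blocks on the transversal
  have hdisj : ∀ p : Q → Prop, [DecidablePred p] → Disjoint (univ.filter fun x => x ∉ W ∧ p x) W := by
    intro p _
    rw [Finset.disjoint_left]
    intro x hx hx'
    simp only [mem_filter, mem_univ, true_and] at hx
    exact hx.1 hx'
  have hT : ∀ a : S, ∃ T : Q → Q → Q,
      LatinOn T ((univ.filter fun x => x ∉ W ∧ i x = a) ∪ W)
        ((univ.filter fun x => x ∉ W ∧ j x = τ a) ∪ W)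
        ((univ.filter fun x => x ∉ W ∧ Λ (i x) (j x) = Λ a (τ a)) ∪ W) ∧
      (a ≠ a0 → ∀ w ∈ W, ∀ w' ∈ W, T w w' ∈ W) ∧
      (a = a0 → ∀ w ∈ W, ∀ w' ∈ W, c w = c w' → c (T w w') = c w) := by
    intro a
    obtain ⟨L, hL⟩ := exists_latin {x // x ∈ W}
    set r : Q → Q → Prop := fun x y => a ≠ a0 ∨ c x = c y with hr
    set v' : Q → Q → Q := fun x y => if a = a0 then v x y else
      if h : x ∈ W ∧ y ∈ W then (L ⟨x, h.1⟩ ⟨y, h.2⟩).1 else x with hv'
    obtain ⟨T, h3, h4, -⟩ := evans_set ((univ.filter fun x => x ∉ W ∧ i x = a) ∪ W)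
        ((univ.filter fun x => x ∉ W ∧ j x = τ a) ∪ W)
        ((univ.filter fun x => x ∉ W ∧ Λ (i x) (j x) = Λ a (τ a)) ∪ W) W ∅ ∅ ∅
        (by simp) (by simp) (by simp) (by simp) (by simp) (by simp)
        (by simp) (by simp) (by simp)
        (by rw [Finset.card_union_of_disjoint (hdisj _), Finset.card_union_of_disjoint (hdisj _),
          hi, hj])
        (by rw [Finset.card_union_of_disjoint (hdisj _), Finset.card_union_of_disjoint (hdisj _),
          hi, hl]) rfl rfl
        (by rw [Finset.card_union_of_disjoint (hdisj _), hi]; simp only [card_empty]; omega)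
        (by rw [Finset.card_union_of_disjoint (hdisj _), hi]; simp only [card_empty]; omega)
        r v'
        (by
          intro x hx y hy hxy
          simp only [hv']
          split_ifs with h1 h2
          · have h5 : c x = c y := hxy.resolve_left (by simp [h1])
            exact hcW x hx _ (hv x y h5).symm
          · exact (L _ _).2
          · exact hx)
        (by
          intro x hx y hy y' hy' h1 h2 h5
          simp only [hv'] at h5
          by_cases h6 : a = a0
          · rw [if_pos h6, if_pos h6] at h5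
            exact hvr x y y' (h1.resolve_left (by simp [h6])) (h2.resolve_left (by simp [h6])) h5
          · rw [if_neg h6, if_neg h6, dif_pos ⟨hx, hy⟩, dif_pos ⟨hx, hy'⟩] at h5
            exact congrArg Subtype.val (hL.1 _ (Subtype.ext h5)))
        (by
          intro x hx x' hx' y hy h1 h2 h5
          simp only [hv'] at h5
          by_cases h6 : a = a0
          · rw [if_pos h6, if_pos h6] at h5
            exact hvc x x' y (h1.resolve_left (by simp [h6])) (h2.resolve_left (by simp [h6])) h5
          · rw [if_neg h6, if_neg h6, dif_pos ⟨hx, hy⟩, dif_pos ⟨hx', hy⟩] at h5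
            exact congrArg Subtype.val (hL.2 _ (Subtype.ext h5)))
        (h := fun x _ => x) ⟨by simp, by simp, by simp⟩
    refine ⟨T, h3, fun ha w hw w' hw' => ?_, fun ha w hw w' hw' hww => ?_⟩
    · rw [h4 w hw w' hw' (Or.inl ha)]
      simp only [hv']
      rw [if_neg ha, dif_pos ⟨hw, hw'⟩]
      exact (L _ _).2
    · rw [h4 w hw w' hw' (Or.inr hww)]
      simp only [hv']
      rw [if_pos ha]
      exact hv w w' hww
  choose T hTl hTW hTc using hT
  have hTr : ∀ a, a ≠ a0 → ∀ w ∈ W, ∀ y ∉ W, j y = τ a → T a w y ∉ W := by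
    intro a ha w hw y hy hjy hm
    have hLW : LatinOn (T a) W W W := ⟨hTW a ha, fun x hx y hy y' hy' h1 =>
      (hTl a).2.1 x (mem_union_right _ hx) y (mem_union_right _ hy) y' (mem_union_right _ hy') h1,
      fun y hy x hx x' hx' h1 => (hTl a).2.2 y (mem_union_right _ hy) x (mem_union_right _ hx) x'
        (mem_union_right _ hx') h1⟩
    obtain ⟨b, hb', hbd⟩ := hLW.surj le_rfl hw hm
    have := (hTl a).2.1 w (mem_union_right _ hw) b (mem_union_right _ hb') y
      (mem_union_left _ (by simp [hy, hjy])) hbd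
    exact hy (this ▸ hb')
  have hTcol : ∀ a, a ≠ a0 → ∀ w ∈ W, ∀ x ∉ W, i x = a → T a x w ∉ W := by
    intro a ha w hw x hx hix hm
    have hLW : LatinOn (T a) W W W := ⟨hTW a ha, fun x hx y hy y' hy' h1 =>
      (hTl a).2.1 x (mem_union_right _ hx) y (mem_union_right _ hy) y' (mem_union_right _ hy') h1,
      fun y hy x hx x' hx' h1 => (hTl a).2.2 y (mem_union_right _ hy) x (mem_union_right _ hx) x'
        (mem_union_right _ hx') h1⟩
    obtain ⟨b, hb', hbd⟩ := hLW.surj' le_rfl hw hm
    have := (hTl a).2.2 w (mem_union_right _ hw) b (mem_union_right _ hb') x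
      (mem_union_left _ (by simp [hx, hix])) hbd
    exact hx (this ▸ hb')
  -- the operation
  set κ : Q → Q → S := fun x y => if x ∈ W then (if y ∈ W then a0 else τ.symm (j y)) else i x
    with hκ
  set op : Q → Q → Q := fun x y =>
    if x ∉ W ∧ y ∉ W ∧ j y ≠ τ (i x) then M (i x) (j y) x y else T (κ x y) x y with hop
  -- location of the entries
  have locM : ∀ x y, x ∉ W → y ∉ W → j y ≠ τ (i x) →
      op x y = M (i x) (j y) x y ∧ op x y ∉ W ∧ Λ (i (op x y)) (j (op x y)) = Λ (i x) (j y) := by
    intro x y hx hy hxy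
    have h1 : op x y = M (i x) (j y) x y := if_pos ⟨hx, hy, hxy⟩
    have h2 := (hMM (i x) (j y) hxy).1.1 x (by simp [hx]) y (by simp [hy])
    rw [← h1] at h2
    simp only [mem_filter, mem_univ, true_and] at h2
    exact ⟨h1, h2.1, h2.2⟩
  have locT : ∀ x y, ¬ (x ∉ W ∧ y ∉ W ∧ j y ≠ τ (i x)) →
      op x y = T (κ x y) x y ∧
      x ∈ (univ.filter fun z => z ∉ W ∧ i z = κ x y) ∪ W ∧
      y ∈ (univ.filter fun z => z ∉ W ∧ j z = τ (κ x y)) ∪ W ∧
      (op x y ∈ W ∨ Λ (i (op x y)) (j (op x y)) = Λ (κ x y) (τ (κ x y))) := by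
    intro x y hxy
    have h1 : op x y = T (κ x y) x y := if_neg hxy
    have hx : x ∈ (univ.filter fun z => z ∉ W ∧ i z = κ x y) ∪ W := by
      by_cases hxW : x ∈ W
      · exact mem_union_right _ hxW
      · refine mem_union_left _ ?_
        simp only [mem_filter, mem_univ, true_and, hκ]
        exact ⟨hxW, by rw [if_neg hxW]⟩
    have hy : y ∈ (univ.filter fun z => z ∉ W ∧ j z = τ (κ x y)) ∪ W := by
      by_cases hyW : y ∈ W
      · exact mem_union_right _ hyW
      · refine mem_union_left _ ?_
        simp only [mem_filter, mem_univ, true_and, hκ]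
        refine ⟨hyW, ?_⟩
        by_cases hxW : x ∈ W
        · rw [if_pos hxW, if_neg hyW, Equiv.apply_symm_apply]
        · rw [if_neg hxW]
          by_contra h
          exact hxy ⟨hxW, hyW, h⟩
    refine ⟨h1, hx, hy, ?_⟩
    have h2 := (hTl (κ x y)).1 x hx y hy
    rw [← h1] at h2
    simp only [mem_union, mem_filter, mem_univ, true_and] at h2
    tauto
  refine ⟨op, ⟨fun _ _ _ _ => mem_univ _, ?_, ?_⟩, ?_⟩
  · -- rows
    intro x _ y _ y' _ hyy
    by_cases h1 : x ∉ W ∧ y ∉ W ∧ j y ≠ τ (i x) <;> by_cases h2 : x ∉ W ∧ y' ∉ W ∧ j y' ≠ τ (i x)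
    · obtain ⟨e1, -, l1⟩ := locM x y h1.1 h1.2.1 h1.2.2
      obtain ⟨e2, -, l2⟩ := locM x y' h2.1 h2.2.1 h2.2.2
      rw [hyy, l2] at l1
      have h3 := hΛ.1 _ l1
      rw [e1, e2, h3] at hyy
      exact (hMM (i x) (j y) h1.2.2).1.2.1 x (by simp [h1.1]) y (by simp [h1.2.1]) y'
        (by simp [h2.2.1, h3]) hyy
    · exfalso
      obtain ⟨-, w1, l1⟩ := locM x y h1.1 h1.2.1 h1.2.2
      obtain ⟨-, -, -, l2⟩ := locT x y' h2
      have hk : κ x y' = i x := if_neg h1.1
      rw [← hyy, hk] at l2
      rcases l2 with l2 | l2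
      · exact w1 l2
      · rw [l1] at l2
        exact h1.2.2 (hΛ.1 _ l2)
    · exfalso
      obtain ⟨-, w1, l1⟩ := locM x y' h2.1 h2.2.1 h2.2.2
      obtain ⟨-, -, -, l2⟩ := locT x y h1
      have hk : κ x y = i x := if_neg h2.1
      rw [hyy, hk] at l2
      rcases l2 with l2 | l2
      · exact w1 l2
      · rw [l1] at l2
        exact h2.2.2 (hΛ.1 _ l2)
    · obtain ⟨e1, x1, y1, l1⟩ := locT x y h1
      obtain ⟨e2, x2, y2, l2⟩ := locT x y' h2
      have hk : κ x y = κ x y' := by
        by_cases hx : x ∈ W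
        · by_contra hne
          -- one of the indices is not a0
          have key : ∀ z z', ¬ (x ∉ W ∧ z ∉ W ∧ j z ≠ τ (i x)) →
              ¬ (x ∉ W ∧ z' ∉ W ∧ j z' ≠ τ (i x)) → op x z = op x z' → κ x z ≠ κ x z' →
              κ x z ≠ a0 → False := by
            intro z z' hz hz' hzz hκne hne0
            obtain ⟨f1, -, -, m1⟩ := locT x z hz
            obtain ⟨-, -, -, m2⟩ := locT x z' hz'
            have hzW : z ∉ W := by
              intro hzW
              exact hne0 (by simp only [hκ]; rw [if_pos hx, if_pos hzW])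
            have hjz : j z = τ (κ x z) := by
              simp only [hκ]
              rw [if_pos hx, if_neg hzW, Equiv.apply_symm_apply]
            have h5 := hTr (κ x z) hne0 x hx z hzW hjz
            rw [← f1] at h5
            have m1' := m1.resolve_left h5
            have m2' := m2.resolve_left (by rw [← hzz]; exact h5)
            rw [← hzz, m1'] at m2'
            exact hκne (hτ m2')
          by_cases h3 : κ x y = a0
          · exact key y' y h2 h1 hyy.symm (Ne.symm hne) (by rw [← h3]; exact Ne.symm hne)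
          · exact key y y' h1 h2 hyy hne h3
        · simp only [hκ]
          rw [if_neg hx, if_neg hx]
      rw [← hk] at y2 e2
      rw [e1, e2] at hyy
      exact (hTl (κ x y)).2.1 x x1 y y1 y' y2 hyy
  · -- columns
    intro y _ x _ x' _ hxx
    by_cases h1 : x ∉ W ∧ y ∉ W ∧ j y ≠ τ (i x) <;> by_cases h2 : x' ∉ W ∧ y ∉ W ∧ j y ≠ τ (i x')
    · obtain ⟨e1, -, l1⟩ := locM x y h1.1 h1.2.1 h1.2.2
      obtain ⟨e2, -, l2⟩ := locM x' y h2.1 h2.2.1 h2.2.2
      rw [hxx, l2] at l1
      have h3 : i x' = i x := hΛ.2 _ l1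
      rw [e1, e2, h3] at hxx
      exact (hMM (i x) (j y) h1.2.2).1.2.2 y (by simp [h1.2.1]) x (by simp [h1.1]) x'
        (by simp [h2.1, h3]) hxx
    · exfalso
      obtain ⟨-, w1, l1⟩ := locM x y h1.1 h1.2.1 h1.2.2
      obtain ⟨-, -, y2, l2⟩ := locT x' y h2
      have hy : j y = τ (κ x' y) := by
        simp only [mem_union, mem_filter, mem_univ, true_and] at y2
        exact (y2.resolve_right h1.2.1).2
      rw [← hxx] at l2
      rcases l2 with l2 | l2
      · exact w1 l2
      · rw [l1, hy] at l2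
        have h3 : i x = κ x' y := hΛ.2 _ l2
        exact h1.2.2 (by rw [hy, h3])
    · exfalso
      obtain ⟨-, w1, l1⟩ := locM x' y h2.1 h2.2.1 h2.2.2
      obtain ⟨-, -, y2, l2⟩ := locT x y h1
      have hy : j y = τ (κ x y) := by
        simp only [mem_union, mem_filter, mem_univ, true_and] at y2
        exact (y2.resolve_right h2.2.1).2
      rw [hxx] at l2
      rcases l2 with l2 | l2
      · exact w1 l2
      · rw [l1, hy] at l2
        have h3 : i x' = κ x y := hΛ.2 _ l2
        exact h2.2.2 (by rw [hy, h3])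
    · obtain ⟨e1, x1, y1, l1⟩ := locT x y h1
      obtain ⟨e2, x2, y2, l2⟩ := locT x' y h2
      have hk : κ x y = κ x' y := by
        by_cases hy : y ∈ W
        · by_contra hne
          have key : ∀ z z', ¬ (z ∉ W ∧ y ∉ W ∧ j y ≠ τ (i z)) →
              ¬ (z' ∉ W ∧ y ∉ W ∧ j y ≠ τ (i z')) → op z y = op z' y → κ z y ≠ κ z' y →
              κ z y ≠ a0 → False := by
            intro z z' hz hz' hzz hκne hne0
            obtain ⟨f1, -, -, m1⟩ := locT z y hz
            obtain ⟨-, -, -, m2⟩ := locT z' y hz'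
            have hzW : z ∉ W := by
              intro hzW
              exact hne0 (by simp only [hκ]; rw [if_pos hzW, if_pos hy])
            have hiz : i z = κ z y := by
              simp only [hκ]
              rw [if_neg hzW]
            have h5 := hTcol (κ z y) hne0 y hy z hzW hiz
            rw [← f1] at h5
            have m1' := m1.resolve_left h5
            have m2' := m2.resolve_left (by rw [← hzz]; exact h5)
            rw [← hzz, m1'] at m2'
            exact hκne (hτ m2')
          by_cases h3 : κ x y = a0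
          · exact key x' x h2 h1 hxx.symm (Ne.symm hne) (by rw [← h3]; exact Ne.symm hne)
          · exact key x x' h1 h2 hxx hne h3
        · have h5 : ∀ z, ¬ (z ∉ W ∧ y ∉ W ∧ j y ≠ τ (i z)) → κ z y = τ.symm (j y) := by
            intro z hz
            simp only [hκ]
            by_cases hzW : z ∈ W
            · rw [if_pos hzW, if_neg hy]
            · rw [if_neg hzW]
              have : j y = τ (i z) := by
                by_contra h
                exact hz ⟨hzW, hy, h⟩
              rw [this, Equiv.symm_apply_apply]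
          rw [h5 x h1, h5 x' h2]
      rw [← hk] at x2 e2
      rw [e1, e2] at hxx
      exact (hTl (κ x y)).2.2 y y1 x x1 x' x2 hxx
  · -- parts
    intro x _ y _ hxy
    by_cases hx : x ∈ W
    · have hy := hcW x hx y hxy
      have h1 : op x y = T a0 x y := by
        simp only [hop, hκ]
        rw [if_neg (fun h => h.1 hx), if_pos hx, if_pos hy]
      rw [h1]
      exact hTc a0 rfl x hx y hy hxy
    · have hy := hcW' x hx y hxy
      have h1 := hci x y hx hxy
      have h2 := hcj x y hx hxy
      have h3 : j y ≠ τ (i x) := by rw [← h2]; exact hτ0 x hx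
      obtain ⟨e1, -, -⟩ := locM x y hx hy h3
      rw [e1]
      exact (hMM (i x) (j y) h3).2 x (by simp [hx, h2]) y (by simp [hy, h1]) hxy

end Pool.Agent.MP_dd827d_co
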