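import Mathlib

/-!
Decomposition of regular nonnegative integer matrices into permutation matrices (König), and
its version for matrices with constant row sums and bounded column sums.
-/

namespace Pool.Agent.MP_dd827d_co

open Finset Function

variable {U V : Type*} [Fintype U] [Fintype V] [DecidableEq U] [DecidableEq V]

omit [DecidableEq U] in
/-- Hall: a nonnegative integer matrix with all row and column sums equal to `r > 0` dominates a
permutation matrix. -/
theorem exists_perm_of_regular (m : U → V → ℕ) {r : ℕ} (hr : 0 < r)
    (hrow : ∀ u, ∑ v, m u v = r) (hcol : ∀ v, ∑ u, m u v = r) :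
    ∃ π : U ≃ V, ∀ u, 0 < m u (π u) := by
  have hcard : Fintype.card U = Fintype.card V := by
    have h1 : ∑ u, ∑ v, m u v = Fintype.card U * r := by simp [hrow]
    have h2 : ∑ v, ∑ u, m u v = Fintype.card V * r := by simp [hcol]
    rw [Finset.sum_comm] at h1
    exact Nat.eq_of_mul_eq_mul_right hr (h1.symm.trans h2)
  have hall : ∀ s : Finset U, s.card ≤ (s.biUnion fun u => univ.filter fun v => 0 < m u v).card := by
    intro s
    set t := s.biUnion fun u => univ.filter fun v => 0 < m u v with ht
    have h1 : s.card * r = ∑ u ∈ s, ∑ v ∈ t, m u v := by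
      rw [← smul_eq_mul, ← Finset.sum_const]
      refine Finset.sum_congr rfl fun u hu => ?_
      rw [← hrow u]
      symm
      refine Finset.sum_subset (Finset.subset_univ _) fun v _ hv => ?_
      by_contra h
      exact hv (Finset.mem_biUnion.2 ⟨u, hu, by simp [Nat.pos_of_ne_zero h]⟩)
    have h2 : ∑ v ∈ t, ∑ u ∈ s, m u v ≤ ∑ v ∈ t, r := by
      refine Finset.sum_le_sum fun v _ => ?_
      rw [← hcol v]
      exact Finset.sum_le_sum_of_subset (Finset.subset_univ _)
    rw [Finset.sum_comm, ← h1, Finset.sum_const, smul_eq_mul] at h2
    exact Nat.le_of_mul_le_mul_right h2 hr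
  obtain ⟨f, hf, hmem⟩ := (Finset.all_card_le_biUnion_card_iff_exists_injective _).1 hall
  have hbij : Bijective f := (Fintype.bijective_iff_injective_and_card f).2 ⟨hf, hcard⟩
  refine ⟨Equiv.ofBijective f hbij, fun u => ?_⟩
  have := hmem u
  simpa using this

/-- A nonnegative integer matrix with all row and column sums equal to `r` is a sum of `r`
permutation matrices. -/
theorem exists_perms_of_regular (r : ℕ) : ∀ (m : U → V → ℕ),
    (∀ u, ∑ v, m u v = r) → (∀ v, ∑ u, m u v = r) →
    ∃ f : Fin r → (U ≃ V), ∀ u v, (univ.filter fun k => f k u = v).card = m u v := by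
  induction r with
  | zero =>
    intro m hrow _
    refine ⟨fun k => k.elim0, fun u v => ?_⟩
    have := hrow u
    rw [Finset.sum_eq_zero_iff] at this
    simp [this v (mem_univ v)]
  | succ r ih =>
    intro m hrow hcol
    obtain ⟨π, hπ⟩ := exists_perm_of_regular m (Nat.succ_pos r) hrow hcol
    have hm : ∀ u v, m u v = (m u v - if π u = v then 1 else 0) + if π u = v then 1 else 0 := by
      intro u v
      split_ifs with h
      · subst h
        have := hπ u
        omega
      · simp
    obtain ⟨f, hf⟩ := ih (fun u v => m u v - if π u = v then 1 else 0)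
      (fun u => by
        have h := hrow u
        rw [Finset.sum_congr rfl fun v _ => hm u v, Finset.sum_add_distrib] at h
        simpa using h)
      (fun v => by
        have h := hcol v
        rw [Finset.sum_congr rfl fun u _ => hm u v, Finset.sum_add_distrib] at h
        have h1 : ∑ u, (if π u = v then 1 else 0) = 1 := by
          rw [Finset.sum_eq_single (π.symm v)]
          · simp
          · intro b _ hb
            rw [if_neg]
            rintro rfl
            simp at hb
          · simp
        omega)
    refine ⟨Fin.cons π f, fun u v => ?_⟩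
    rw [hm u v, ← hf u v, Finset.card_filter, Finset.card_filter, Fin.sum_univ_succ]
    simp [add_comm]

/-- Existence of a nonnegative integer matrix with prescribed row and column sums. -/
theorem exists_matrix_of_sums (p : U → ℕ) (q : V → ℕ) (h : ∑ u, p u = ∑ v, q v) :
    ∃ D : U → V → ℕ, (∀ u, ∑ v, D u v = p u) ∧ (∀ v, ∑ u, D u v = q v) := by
  have hc : Fintype.card (Σ u, Fin (p u)) = Fintype.card (Σ v, Fin (q v)) := by
    simp [Fintype.card_sigma, h]
  let e := Fintype.equivOfCardEq hc
  refine ⟨fun u v => (univ.filter fun i : Fin (p u) => (e ⟨u, i⟩).1 = v).card, fun u => ?_,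
    fun v => ?_⟩
  · have := Finset.card_eq_sum_card_fiberwise (s := (univ : Finset (Fin (p u))))
      (t := (univ : Finset V)) (f := fun i => (e ⟨u, i⟩).1) (fun _ _ => by simp)
    simpa using this.symm
  · have h1 : ∑ u, (univ.filter fun i : Fin (p u) => (e ⟨u, i⟩).1 = v).card
        = (univ.filter fun z : (Σ u, Fin (p u)) => (e z).1 = v).card := by
      simp only [Finset.card_filter]
      rw [Fintype.sum_sigma]
    have h2 : (univ.filter fun z : (Σ u, Fin (p u)) => (e z).1 = v).card
        = (univ.filter fun z : (Σ v, Fin (q v)) => z.1 = v).card := by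
      refine Finset.card_bij (fun z _ => e z) (fun z hz => by simpa using hz)
        (fun a _ b _ hab => e.injective hab) (fun b hb => ⟨e.symm b, by simpa using hb, by simp⟩)
    rw [h1, h2, Finset.card_filter, Fintype.sum_sigma, Finset.sum_eq_single v]
    · simp
    · intro b _ hb
      simp [hb]
    · simp

/-- König for constant row sums: a nonnegative integer matrix with row sums `r` and column
sums at most `r` is a sum of `r` row-saturating partial permutation matrices. -/
theorem exists_inj_of_rowRegular (r : ℕ) (m : U → V → ℕ)
    (hrow : ∀ u, ∑ v, m u v = r) (hcol : ∀ v, ∑ u, m u v ≤ r) :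
    ∃ f : Fin r → U → V, (∀ k, Injective (f k)) ∧
      ∀ u v, (univ.filter fun k => f k u = v).card = m u v := by
  rcases Nat.eq_zero_or_pos r with rfl | hr
  · refine ⟨fun k => k.elim0, fun k => k.elim0, fun u v => ?_⟩
    have := hrow u
    rw [Finset.sum_eq_zero_iff] at this
    simp [this v (mem_univ v)]
  · have hcard : Fintype.card U ≤ Fintype.card V := by
      have h1 : ∑ u, ∑ v, m u v = Fintype.card U * r := by simp [hrow]
      have h2 : ∑ v, ∑ u, m u v ≤ Fintype.card V * r := by
        calc _ ≤ ∑ _v : V, r := Finset.sum_le_sum fun v _ => hcol v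
          _ = _ := by simp
      rw [Finset.sum_comm, h1] at h2
      exact Nat.le_of_mul_le_mul_right h2 hr
    obtain ⟨w, hw⟩ := Nat.exists_eq_add_of_le hcard
    obtain ⟨D, hD1, hD2⟩ := exists_matrix_of_sums (U := Fin w) (V := V) (fun _ => r)
      (fun v => r - ∑ u, m u v) (by
        have h3 : ∑ v, ((r - ∑ u, m u v) + ∑ u, m u v) = ∑ _v : V, r :=
          Finset.sum_congr rfl fun v _ => Nat.sub_add_cancel (hcol v)
        rw [Finset.sum_add_distrib, Finset.sum_comm (f := fun v u => m u v)] at h3
        simp only [hrow, Finset.sum_const, Finset.card_univ, smul_eq_mul, hw, add_mul] at h3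
        simp only [Finset.sum_const, Finset.card_univ, Fintype.card_fin, smul_eq_mul]
        omega)
    obtain ⟨f, hf⟩ := exists_perms_of_regular (U := U ⊕ Fin w) (V := V) r
      (Sum.elim m D) (by
        rintro (u | u)
        · simpa using hrow u
        · simpa using hD1 u) (by
        intro v
        rw [Fintype.sum_sum_type]
        simp only [Sum.elim_inl, Sum.elim_inr, hD2]
        have := hcol v
        omega)
    refine ⟨fun k u => f k (Sum.inl u), fun k a b hab => ?_, fun u v => ?_⟩
    · exact Sum.inl_injective ((f k).injective hab)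
    · exact hf (Sum.inl u) v

end Pool.Agent.MP_dd827d_co
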