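import Pool.Agent.Lib.MP_dd827d_co.Split
import Pool.Agent.Lib.MP_dd827d_co.Cor

/-!
Outline squares (Hilton): a partition is realizable if and only if it has an integral outline.
-/

namespace Pool.Agent.MP_dd827d_co

open Finset Function

/-- An outline with sizes `N`: `y a b c` is the number of cells in rows of class `a`, columns of
class `b` with symbol in class `c`, for distinct classes. -/
structure IsOutline {J R : Type*} [Fintype J] [CommSemiring R] (N : J → R)
    (y : J → J → J → R) : Prop where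
  off12 : ∀ a c, y a a c = 0
  off23 : ∀ a b, y a b b = 0
  off13 : ∀ a b, y a b a = 0
  s3 : ∀ a b, a ≠ b → ∑ c, y a b c = N a * N b
  s2 : ∀ a c, a ≠ c → ∑ b, y a b c = N a * N c
  s1 : ∀ b c, b ≠ c → ∑ a, y a b c = N b * N c

variable {I : Type} [Fintype I] [DecidableEq I] (n : I → ℕ)

omit [DecidableEq I] in
theorem sum_pt {β : Type*} [AddCommMonoid β] (f : Pt n → β) :
    ∑ p, f p = ∑ i, ∑ k, f ⟨i, k⟩ := Fintype.sum_sigma _

/-- An integral outline gives a realization. -/
theorem Realizable.of_outline (hn : ∀ i, 0 < n i) (x : I → I → I → ℕ) (hx : IsOutline n x) :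
    Realizable n := by
  -- fill the diagonal
  let X : I → I → I → ℕ := fun a b c => x a b c + if a = b ∧ b = c then n a * n a else 0
  have X3 : ∀ a b, ∑ c, X a b c = n a * n b := by
    intro a b
    rw [Finset.sum_add_distrib]
    by_cases h : a = b
    · subst h
      simp [hx.off12]
    · simp [h, hx.s3 a b h]
  have X2 : ∀ a c, ∑ b, X a b c = n a * n c := by
    intro a c
    rw [Finset.sum_add_distrib]
    by_cases h : a = c
    · subst h
      have : ∀ b, (if a = b ∧ b = a then n a * n a else 0) = if a = b then n a * n a else 0 := by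
        intro b
        by_cases hb : a = b
        · subst hb; simp
        · simp [hb]
      simp [hx.off13, this]
    · have : ∀ b, (if a = b ∧ b = c then n a * n a else 0) = 0 := by
        intro b
        rw [if_neg]
        rintro ⟨rfl, rfl⟩
        exact h rfl
      simp [hx.s2 a c h, this]
  have X1 : ∀ b c, ∑ a, X a b c = n b * n c := by
    intro b c
    rw [Finset.sum_add_distrib]
    by_cases h : b = c
    · subst h
      simp [hx.off23]
    · simp [h, hx.s1 b c h]
  have Xd : ∀ a c, a ≠ c → X a a c = 0 := by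
    intro a c h
    simp only [X]
    rw [hx.off12, if_neg (fun h' => h h'.2)]
  -- rows
  have hY : ∀ a, ∃ Y : Fin (n a) → I → I → ℕ, (∀ t b, ∑ c, Y t b c = n b) ∧
      (∀ t c, ∑ b, Y t b c = n c) ∧ (∀ b c, ∑ t, Y t b c = X a b c) ∧
      ∀ t b c, 0 ≤ Y t b c := fun a =>
    exists_split (T := Fin (n a)) (X a) (fun _ _ => 0) n n (by simpa using X3 a)
      (by simpa using X2 a) (by simp)
  choose Y0 hY1 hY2 hY3 _ using hY
  let Y : Pt n → I → I → ℕ := fun p => Y0 p.1 p.2
  have Y3 : ∀ p b, ∑ c, Y p b c = n b := fun p b => hY1 p.1 p.2 b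
  have Y2 : ∀ p c, ∑ b, Y p b c = n c := fun p c => hY2 p.1 p.2 c
  have Y1 : ∀ b c, ∑ p, Y p b c = n b * n c := by
    intro b c
    rw [sum_pt, ← X1 b c]
    exact Finset.sum_congr rfl fun a _ => hY3 a b c
  have Yd : ∀ (p : Pt n) c, p.1 ≠ c → Y p p.1 c = 0 := by
    intro p c h
    have h1 := hY3 p.1 p.1 c
    rw [Xd _ _ h, Finset.sum_eq_zero_iff] at h1
    exact h1 p.2 (mem_univ _)
  -- columns
  have hZ : ∀ b, ∃ Z : Fin (n b) → Pt n → I → ℕ, (∀ t p, ∑ c, Z t p c = 1) ∧
      (∀ t c, ∑ p, Z t p c = n c) ∧ (∀ p c, ∑ t, Z t p c = Y p b c) ∧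
      ∀ t p c, 0 ≤ Z t p c := fun b =>
    exists_split (T := Fin (n b)) (fun p c => Y p b c) (fun _ _ => 0) (fun _ => 1) n
      (by simpa using fun p => Y3 p b) (by simpa using fun c => Y1 b c) (by simp)
  choose Z0 hZ1 hZ2 hZ3 _ using hZ
  let Z : Pt n → Pt n → I → ℕ := fun p q c => Z0 q.1 q.2 p c
  have Z3 : ∀ p q, ∑ c, Z p q c = 1 := fun p q => hZ1 q.1 q.2 p
  have Z1 : ∀ q c, ∑ p, Z p q c = n c := fun q c => hZ2 q.1 q.2 c
  have Z2 : ∀ p c, ∑ q, Z p q c = n c := by
    intro p c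
    rw [sum_pt, ← Y2 p c]
    exact Finset.sum_congr rfl fun b _ => hZ3 b p c
  have Zd : ∀ (p q : Pt n) c, p.1 = q.1 → p.1 ≠ c → Z p q c = 0 := by
    intro p q c hpq h
    have h1 := hZ3 q.1 p c
    rw [← hpq, Yd p c h, hpq, Finset.sum_eq_zero_iff] at h1
    exact h1 q.2 (mem_univ _)
  -- symbols
  have hW : ∀ c, ∃ W : Fin (n c) → Pt n → Pt n → ℕ, (∀ t p, ∑ q, W t p q = 1) ∧
      (∀ t q, ∑ p, W t p q = 1) ∧ (∀ p q, ∑ t, W t p q = Z p q c) ∧
      ∀ t p q, 0 ≤ W t p q := fun c =>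
    exists_split (T := Fin (n c)) (fun p q => Z p q c) (fun _ _ => 0) (fun _ => 1) (fun _ => 1)
      (by simpa using fun p => Z2 p c) (by simpa using fun q => Z1 q c) (by simp)
  choose W0 hW1 hW2 hW3 _ using hW
  let W : Pt n → Pt n → Pt n → ℕ := fun p q s => W0 s.1 s.2 p q
  have W2 : ∀ p s, ∑ q, W p q s = 1 := fun p s => hW1 s.1 s.2 p
  have W1 : ∀ q s, ∑ p, W p q s = 1 := fun q s => hW2 s.1 s.2 q
  have W3 : ∀ p q, ∑ s, W p q s = 1 := by
    intro p q
    rw [sum_pt, ← Z3 p q]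
    exact Finset.sum_congr rfl fun c _ => hW3 c p q
  have hg : ∀ p q, ∃ s, W p q s ≠ 0 := by
    intro p q
    by_contra h
    push Not at h
    have := W3 p q
    rw [Finset.sum_eq_zero fun s _ => h s] at this
    exact absurd this (by norm_num)
  choose g hg using hg
  have huniq : ∀ (F : Pt n → ℕ), ∑ q, F q = 1 → ∀ q q', F q ≠ 0 → F q' ≠ 0 → q = q' := by
    intro F hF q q' h h'
    by_contra hne
    have h1 : ∑ t ∈ {q, q'}, F t ≤ ∑ t, F t :=
      Finset.sum_le_sum_of_subset (Finset.subset_univ _)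
    rw [Finset.sum_pair hne, hF] at h1
    omega
  refine Realizable.of_goodOn n hn ⟨g, ⟨fun p _ q _ => mem_univ _, ?_, ?_⟩, ?_⟩
  · intro p _ q _ q' _ h
    refine huniq (fun t => W p t (g p q)) (W2 p (g p q)) q q' (hg p q) ?_
    rw [h]
    exact hg p q'
  · intro q _ p _ p' _ h
    refine huniq (fun t => W t q (g p q)) (W1 q (g p q)) p p' (hg p q) ?_
    rw [h]
    exact hg p' q
  · intro p _ q _ hpq
    by_contra hne
    have h1 := Zd p q (g p q).1 hpq (Ne.symm hne)
    rw [← hW3 (g p q).1 p q, Finset.sum_eq_zero_iff] at h1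
    exact hg p q (h1 (g p q).2 (mem_univ _))

end Pool.Agent.MP_dd827d_co
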