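import Pool.Agent.Lib.MP_dd827d_co.QuadSlack
import Pool.Agent.Lib.MP_dd827d_co.Outline

/-!
Existence of real outlines with slack (a Farkas argument).
-/

namespace Pool.Agent.MP_dd827d_co

open Finset Function

/-- Farkas' lemma for generators of constant total weight. -/
theorem farkas {T E : Type*} [Fintype T] [Fintype E] (A : T → E → ℝ) (w : E → ℝ) (κ : ℝ)
    (hκ : 0 < κ) (hA : ∀ t, A t = 0 ∨ ∑ e, A t e = κ) (hw : ∀ e, 0 ≤ w e)
    (h : ∀ c : E → ℝ, (∀ t, 0 ≤ ∑ e, c e * A t e) → 0 ≤ ∑ e, c e * w e) :
    ∃ z : T → ℝ, (∀ t, 0 ≤ z t) ∧ ∀ e, ∑ t, z t * A t e = w e := by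
  classical
  have hW0 : 0 ≤ ∑ e, w e := Finset.sum_nonneg fun e _ => hw e
  rcases eq_or_lt_of_le hW0 with hW | hW
  · refine ⟨0, fun _ => le_rfl, fun e => ?_⟩
    have := (Finset.sum_eq_zero_iff_of_nonneg fun e _ => hw e).1 hW.symm e (mem_univ e)
    rw [this]
    simp
  · set W := ∑ e, w e with hWdef
    let Φ : (T → ℝ) →ₗ[ℝ] (E → ℝ) :=
      { toFun := fun z e => ∑ t, z t * A t e
        map_add' := by
          intro z z'
          funext e
          simp only [Pi.add_apply, ← Finset.sum_add_distrib]
          exact Finset.sum_congr rfl fun t _ => by ring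
        map_smul' := by
          intro r z
          funext e
          simp only [Pi.smul_apply, smul_eq_mul, RingHom.id_apply, Finset.mul_sum]
          exact Finset.sum_congr rfl fun t _ => by ring }
    have hΦ : ∀ z e, Φ z e = ∑ t, z t * A t e := fun z e => rfl
    have hΦc : Continuous Φ := by
      refine continuous_pi fun e => ?_
      simp only [hΦ]
      fun_prop
    by_cases hmem : (κ / W) • w ∈ Φ '' stdSimplex ℝ T
    · obtain ⟨z, hz, hzw⟩ := hmem
      refine ⟨fun t => W / κ * z t, fun t => mul_nonneg (by positivity) (hz.1 t), fun e => ?_⟩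
      have h1 : Φ z e = κ / W * w e := by rw [hzw]; rfl
      have h2 : ∑ t, W / κ * z t * A t e = W / κ * Φ z e := by
        rw [hΦ, Finset.mul_sum]
        exact Finset.sum_congr rfl fun t _ => by ring
      rw [h2, h1]
      field_simp
    · exfalso
      obtain ⟨f, u, hfu, huf⟩ := geometric_hahn_banach_point_closed
        ((convex_stdSimplex ℝ T).linear_image Φ)
        ((isCompact_stdSimplex ℝ T).image hΦc).isClosed hmem
      have hfx : ∀ x : E → ℝ, f x = ∑ e, f (fun j => if e = j then 1 else 0) * x e := by
        intro x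
        have := LinearMap.pi_apply_eq_sum_univ (f : (E → ℝ) →ₗ[ℝ] ℝ) x
        simp only [smul_eq_mul] at this
        rw [show f x = (f : (E → ℝ) →ₗ[ℝ] ℝ) x from rfl, this]
        exact Finset.sum_congr rfl fun e _ => mul_comm _ _
      have hAt : ∀ t, u < f (A t) := by
        intro t
        refine huf _ ⟨Pi.single t 1, single_mem_stdSimplex ℝ t, ?_⟩
        funext e
        rw [hΦ, Finset.sum_eq_single t]
        · simp
        · intro b _ hb
          simp [Pi.single_eq_of_ne hb]
        · simp
      have h1 := h (fun e => f (fun j => if e = j then 1 else 0) - u / κ) (by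
        intro t
        rcases hA t with h0 | h0
        · simp [h0]
        · simp only [sub_mul, Finset.sum_sub_distrib, ← hfx, ← Finset.mul_sum, h0]
          rw [div_mul_cancel₀ _ hκ.ne']
          linarith [hAt t])
      simp only [sub_mul, Finset.sum_sub_distrib, ← hfx, ← Finset.mul_sum, ← hWdef] at h1
      rw [map_smul, smul_eq_mul] at hfu
      have h2 : κ / W * f w < κ / W * (u / κ * W) := by
        have : κ / W * (u / κ * W) = u := by field_simp
        rw [this]
        exact hfu
      have h3 := lt_of_mul_lt_mul_left h2 (by positivity)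
      linarith

variable {J : Type*} [Fintype J] [DecidableEq J]

/-- the triangle weight -/
def tri (t : J × J × J) (e : J × J) : ℝ :=
  if Dist3 t.1 t.2.1 t.2.2 then
    (if e = (t.1, t.2.1) then 1 else 0) + (if e = (t.2.1, t.1) then 1 else 0) +
    (if e = (t.2.1, t.2.2) then 1 else 0) + (if e = (t.2.2, t.2.1) then 1 else 0) +
    (if e = (t.1, t.2.2) then 1 else 0) + (if e = (t.2.2, t.1) then 1 else 0)
  else 0

theorem sum_tri (c : J × J → ℝ) (t : J × J × J) : ∑ e, c e * tri t e =
    if Dist3 t.1 t.2.1 t.2.2 then c (t.1, t.2.1) + c (t.2.1, t.1) + c (t.2.1, t.2.2) +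
      c (t.2.2, t.2.1) + c (t.1, t.2.2) + c (t.2.2, t.1) else 0 := by
  unfold tri
  split_ifs with h
  · simp only [mul_add, Finset.sum_add_distrib, mul_ite, mul_one, mul_zero, Finset.sum_ite_eq',
      mem_univ, if_true]
  · simp

/-- A symmetric nonnegative weight with the right sums exists, if the dual condition holds. -/
theorem exists_triangle_weights (w : J → J → ℝ) (hw : ∀ a b, 0 ≤ w a b)
    (hws : ∀ a b, w a b = w b a) (hwd : ∀ a, w a a = 0)
    (h : ∀ c : J → J → ℝ, (∀ a b, c a b = c b a) → (∀ a, c a a = 0) →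
      (∀ a b d, a ≠ b → b ≠ d → a ≠ d → 0 ≤ c a b + c b d + c a d) →
      0 ≤ ∑ a, ∑ b, c a b * w a b) :
    ∃ y : J → J → J → ℝ, (∀ a b d, 0 ≤ y a b d) ∧ (∀ a b d, ¬ Dist3 a b d → y a b d = 0) ∧
      (∀ a b d, y a b d = y b a d) ∧ (∀ a b d, y a b d = y a d b) ∧
      ∀ a b, ∑ d, y a b d = w a b := by
  obtain ⟨z, hz0, hz⟩ := farkas (T := J × J × J) (E := J × J) tri (fun e => w e.1 e.2) 6
    (by norm_num) (by
      intro t
      have h1 := sum_tri (fun _ => 1) t
      simp only [one_mul] at h1
      rw [h1]
      split_ifs with h2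
      · right
        norm_num
      · left
        funext e
        simp [tri, h2]) (fun e => hw _ _) (by
      intro c hc
      let c' : J → J → ℝ := fun a b => if a = b then 0 else (c (a, b) + c (b, a)) / 2
      have h1 := h c' (by
        intro a b
        simp only [c']
        by_cases hab : a = b
        · subst hab; simp
        · rw [if_neg hab, if_neg (Ne.symm hab), add_comm]) (by intro a; simp [c']) (by
        intro a b d hab hbd had
        simp only [c']
        rw [if_neg hab, if_neg hbd, if_neg had]
        have h2 := hc (a, b, d)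
        rw [sum_tri, if_pos ⟨hab, hbd, had⟩] at h2
        simp only at h2
        linarith)
      have h3 : ∑ e : J × J, c e * w e.1 e.2 = ∑ a, ∑ b, c' a b * w a b := by
        rw [Fintype.sum_prod_type]
        have h4 : ∑ a, ∑ b, c (a, b) * w a b = ∑ a, ∑ b, c (b, a) * w a b := by
          rw [Finset.sum_comm]
          refine Finset.sum_congr rfl fun a _ => Finset.sum_congr rfl fun b _ => ?_
          rw [hws]
        have h5 : ∀ a b, c' a b * w a b = (c (a, b) * w a b + c (b, a) * w a b) / 2 := by
          intro a b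
          simp only [c']
          by_cases hab : a = b
          · subst hab
            rw [hwd]
            simp
          · rw [if_neg hab]
            ring
        simp only [h5, ← Finset.sum_div, Finset.sum_add_distrib]
        rw [← h4]
        ring
      rw [h3]
      exact h1)
  -- symmetrise
  let Z : J → J → J → ℝ := fun a b d => if Dist3 a b d then z (a, b, d) else 0
  have hZ0 : ∀ a b d, 0 ≤ Z a b d := by
    intro a b d
    simp only [Z]
    split_ifs
    · exact hz0 _
    · exact le_rfl
  have hZd : ∀ a b d, ¬ Dist3 a b d → Z a b d = 0 := fun a b d h => if_neg h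
  refine ⟨fun a b d => Z a b d + Z b a d + Z b d a + Z d b a + Z a d b + Z d a b,
    fun a b d => ?_, fun a b d hd => ?_, fun a b d => by ring, fun a b d => by ring,
    fun a b => ?_⟩
  · have := hZ0 a b d
    have := hZ0 b a d
    have := hZ0 b d a
    have := hZ0 d b a
    have := hZ0 a d b
    have := hZ0 d a b
    positivity
  · beta_reduce
    rw [hZd _ _ _ hd, hZd b a d fun h => hd ⟨h.1.symm, h.2.2, h.2.1⟩,
      hZd b d a fun h => hd ⟨h.2.2.symm, h.1, h.2.1.symm⟩,
      hZd d b a fun h => hd ⟨h.2.1.symm, h.1.symm, h.2.2.symm⟩,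
      hZd a d b fun h => hd ⟨h.2.2, h.2.1.symm, h.1⟩,
      hZd d a b fun h => hd ⟨h.2.1, h.2.2.symm, h.1.symm⟩]
    ring
  · have h1 := hz (a, b)
    simp only at h1
    rw [← h1, Fintype.sum_prod_type]
    simp only [Fintype.sum_prod_type]
    have h2 : ∀ p q r, z (p, q, r) * tri (p, q, r) (a, b) =
        (if p = a then if q = b then Z p q r else 0 else 0) +
        (if p = b then if q = a then Z p q r else 0 else 0) +
        (if q = a then if r = b then Z p q r else 0 else 0) +
        (if q = b then if r = a then Z p q r else 0 else 0) +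
        (if p = a then if r = b then Z p q r else 0 else 0) +
        (if p = b then if r = a then Z p q r else 0 else 0) := by
      intro p q r
      simp only [tri, Z]
      by_cases hD : Dist3 p q r
      · simp only [hD, if_true, Prod.mk.injEq]
        have e1 : ∀ (s t u v : J), (if s = t ∧ u = v then (1 : ℝ) else 0) =
            if t = s then if v = u then 1 else 0 else 0 := by
          intro s t u v
          by_cases h3 : s = t
          · by_cases h4 : u = v
            · simp [h3, h4]
            · simp [h3, h4, Ne.symm h4]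
          · simp [h3, Ne.symm h3]
        rw [e1 a p b q, e1 a q b p, e1 a q b r, e1 a r b q, e1 a p b r, e1 a r b p]
        have e2 : ∀ (P Q : Prop) [Decidable P] [Decidable Q],
            z (p, q, r) * (if P then if Q then (1 : ℝ) else 0 else 0) =
            if P then if Q then z (p, q, r) else 0 else 0 := by
          intro P Q _ _
          split_ifs <;> ring
        have e3 : ∀ (P Q : Prop) [Decidable P] [Decidable Q],
            (if P then if Q then z (p, q, r) else 0 else 0) =
            if Q then if P then z (p, q, r) else 0 else 0 := by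
          intro P Q _ _
          split_ifs <;> rfl
        simp only [mul_add, e2]
        rw [e3 (q = a) (p = b), e3 (r = a) (q = b), e3 (r = a) (p = b)]
      · simp [hD]
    simp only [h2, Finset.sum_add_distrib]
    have s1 : ∑ p, ∑ q, ∑ r, (if p = a then if q = b then Z p q r else 0 else 0) =
        ∑ d, Z a b d := by
      simp
    have s2 : ∑ p, ∑ q, ∑ r, (if p = b then if q = a then Z p q r else 0 else 0) =
        ∑ d, Z b a d := by
      simp
    have s3 : ∑ p, ∑ q, ∑ r, (if q = a then if r = b then Z p q r else 0 else 0) =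
        ∑ d, Z d a b := by
      simp
    have s4 : ∑ p, ∑ q, ∑ r, (if q = b then if r = a then Z p q r else 0 else 0) =
        ∑ d, Z d b a := by
      simp
    have s5 : ∑ p, ∑ q, ∑ r, (if p = a then if r = b then Z p q r else 0 else 0) =
        ∑ d, Z a d b := by
      simp
    have s6 : ∑ p, ∑ q, ∑ r, (if p = b then if r = a then Z p q r else 0 else 0) =
        ∑ d, Z b d a := by
      simp
    rw [s1, s2, s3, s4, s5, s6]
    ring

/-- **Existence of real outlines with slack**, if every size is at most `(1/4 - θ)` of the sum. -/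
theorem exists_real_outline (N : J → ℝ) (h0 : ∀ a, 0 ≤ N a) (S : ℝ) (hS : ∑ a, N a = S)
    (hS0 : 0 < S) (θ : ℝ) (hθ0 : 0 ≤ θ) (hθ : θ ≤ 1 / 4) (h4 : ∀ a, N a ≤ (1 / 4 - θ) * S) :
    ∃ y : J → J → J → ℝ, IsOutline N y ∧ ∀ a b d, a ≠ b → b ≠ d → a ≠ d →
      2 * θ ^ 2 / 9 * (N a * N b * N d) / S ≤ y a b d := by
  set η : ℝ := 2 * θ ^ 2 / 9 with hη
  have hη0 : 0 ≤ η := by positivity
  have hη1 : η ≤ 1 := by rw [hη]; nlinarith
  let g : J → J → J → ℝ := fun a b d => if Dist3 a b d then η * (N a * N b * N d) / S else 0
  have hg0 : ∀ a b d, 0 ≤ g a b d := by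
    intro a b d
    simp only [g]
    have := h0 a
    have := h0 b
    have := h0 d
    split_ifs
    · positivity
    · exact le_rfl
  have hDs1 : ∀ a b d : J, Dist3 a b d ↔ Dist3 b a d := fun a b d =>
    ⟨fun h => ⟨h.1.symm, h.2.2, h.2.1⟩, fun h => ⟨h.1.symm, h.2.2, h.2.1⟩⟩
  have hDs2 : ∀ a b d : J, Dist3 a b d ↔ Dist3 a d b := fun a b d =>
    ⟨fun h => ⟨h.2.2, h.2.1.symm, h.1⟩, fun h => ⟨h.2.2, h.2.1.symm, h.1⟩⟩
  have hgs1 : ∀ a b d, g a b d = g b a d := by
    intro a b d
    simp only [g]
    by_cases h : Dist3 a b d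
    · rw [if_pos h, if_pos ((hDs1 a b d).1 h)]
      ring
    · rw [if_neg h, if_neg fun h' => h ((hDs1 a b d).2 h')]
  have hgs2 : ∀ a b d, g a b d = g a d b := by
    intro a b d
    simp only [g]
    by_cases h : Dist3 a b d
    · rw [if_pos h, if_pos ((hDs2 a b d).1 h)]
      ring
    · rw [if_neg h, if_neg fun h' => h ((hDs2 a b d).2 h')]
  have hgle : ∀ a b, ∑ d, g a b d ≤ N a * N b := by
    intro a b
    have h1 : ∑ d, g a b d ≤ ∑ d, η * (N a * N b) / S * N d := by
      refine Finset.sum_le_sum fun d _ => ?_
      simp only [g]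
      have := h0 a
      have := h0 b
      have := h0 d
      split_ifs
      · refine le_of_eq ?_
        ring
      · positivity
    rw [← Finset.mul_sum, hS, div_mul_cancel₀ _ hS0.ne'] at h1
    have h2 : 0 ≤ N a * N b := mul_nonneg (h0 a) (h0 b)
    nlinarith
  obtain ⟨y, hy0, hyd, hys1, hys2, hysum⟩ := exists_triangle_weights
    (fun a b => if a = b then 0 else N a * N b - ∑ d, g a b d) (by
      intro a b
      split_ifs
      · exact le_rfl
      · linarith [hgle a b]) (by
      intro a b
      by_cases h : a = b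
      · subst h; rfl
      · rw [if_neg h, if_neg (Ne.symm h), mul_comm, Finset.sum_congr rfl fun d _ => hgs1 a b d])
    (by intro a; simp) (by
      intro c hcs hcd hcT
      have h1 : ∀ a b, c a b * (if a = b then 0 else N a * N b - ∑ d, g a b d) =
          c a b * N a * N b - ∑ d, g a b d * c a b := by
        intro a b
        by_cases h : a = b
        · subst h
          simp [hcd]
        · rw [if_neg h, ← Finset.sum_mul]
          ring
      simp only [h1, Finset.sum_sub_distrib]
      have h2 : ∑ a, ∑ b, ∑ d, g a b d * c a d = ∑ a, ∑ b, ∑ d, g a b d * c a b := by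
        refine Finset.sum_congr rfl fun a _ => ?_
        rw [Finset.sum_comm]
        refine Finset.sum_congr rfl fun b _ => Finset.sum_congr rfl fun d _ => ?_
        rw [hgs2]
      have h3 : ∑ a, ∑ b, ∑ d, g a b d * c b d = ∑ a, ∑ b, ∑ d, g a b d * c a b := by
        rw [← h2, Finset.sum_comm]
        refine Finset.sum_congr rfl fun a _ => Finset.sum_congr rfl fun b _ =>
          Finset.sum_congr rfl fun d _ => ?_
        rw [hgs1]
      have h5 := bil_slack c hcs hcd hcT N h0 S hS hS0 θ hθ0 hθ h4
      have h6 : ∑ a, ∑ b, ∑ d, g a b d * (c a b + c b d + c a d) =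
          3 / S * (2 * θ ^ 2 / 27 * ∑ a, ∑ b, ∑ d, (if Dist3 a b d then N a * N b * N d *
            (c a b + c b d + c a d) else 0)) := by
        simp only [Finset.mul_sum]
        refine Finset.sum_congr rfl fun a _ => Finset.sum_congr rfl fun b _ =>
          Finset.sum_congr rfl fun d _ => ?_
        simp only [g, hη]
        split_ifs
        · field_simp
          ring
        · ring
      have h7 : ∑ a, ∑ b, ∑ d, g a b d * (c a b + c b d + c a d) =
          3 * ∑ a, ∑ b, ∑ d, g a b d * c a b := by
        simp only [mul_add, Finset.sum_add_distrib]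
        rw [h2, h3]
        ring
      have h8 : 3 * ∑ a, ∑ b, ∑ d, g a b d * c a b ≤ 3 * bil c N N := by
        rw [← h7, h6]
        calc 3 / S * _ ≤ 3 / S * (S * bil c N N) := mul_le_mul_of_nonneg_left h5 (by positivity)
          _ = 3 * bil c N N := by field_simp
      unfold bil at h8
      linarith)
  have hsum : ∀ a b, a ≠ b → ∑ d, (y a b d + g a b d) = N a * N b := by
    intro a b hab
    rw [Finset.sum_add_distrib, hysum, if_neg hab]
    ring
  have hs1 : ∀ a b d, y a b d + g a b d = y b a d + g b a d := fun a b d => by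
    rw [hys1, hgs1]
  have hs2 : ∀ a b d, y a b d + g a b d = y a d b + g a d b := fun a b d => by
    rw [hys2, hgs2]
  refine ⟨fun a b d => y a b d + g a b d, ⟨fun a c => ?_, fun a b => ?_, fun a b => ?_,
    fun a b hab => hsum a b hab, fun a c hac => ?_, fun b c hbc => ?_⟩, fun a b d h1 h2 h3 => ?_⟩
  · have : ¬ Dist3 a a c := fun h => h.1 rfl
    simp [hyd _ _ _ this, g, this]
  · have : ¬ Dist3 a b b := fun h => h.2.1 rfl
    simp [hyd _ _ _ this, g, this]
  · have : ¬ Dist3 a b a := fun h => h.2.2 rfl
    simp [hyd _ _ _ this, g, this]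
  · rw [← hsum a c hac]
    exact Finset.sum_congr rfl fun b _ => hs2 a b c
  · rw [← hsum b c hbc]
    refine Finset.sum_congr rfl fun a _ => ?_
    rw [hs1 a b c, hs2 b a c]
  · have h4 := hy0 a b d
    have h5 : g a b d = η * (N a * N b * N d) / S := if_pos ⟨h1, h2, h3⟩
    rw [← h5]
    linarith

end Pool.Agent.MP_dd827d_co
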