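import Pool.Agent.Lib.MP_dd827d_co.SlackBox
import Pool.Agent.Lib.MP_dd827d_co.LP

/-!
Real outlines with slack, with one large coordinate allowed.
-/

namespace Pool.Agent.MP_dd827d_co

open Finset Function

variable {J : Type*} [Fintype J] [DecidableEq J]

/-- A general form of the existence of real outlines. -/
theorem exists_real_outline_of (N : J → ℝ) (K : J → ℝ) (K0 : ∀ a, 0 ≤ K a) (η : ℝ)
    (hη0 : 0 ≤ η) (hK : ∀ a b, η * (K a * K b) * ∑ d, K d ≤ N a * N b)
    (hbil : ∀ c : J → J → ℝ, (∀ a b, c a b = c b a) → (∀ a, c a a = 0) →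
      (∀ a b d, a ≠ b → b ≠ d → a ≠ d → 0 ≤ c a b + c b d + c a d) →
      η / 3 * tri3 (tau c) K K K ≤ bil c N N) :
    ∃ y : J → J → J → ℝ, IsOutline N y ∧ ∀ a b d, a ≠ b → b ≠ d → a ≠ d →
      η * (K a * K b * K d) ≤ y a b d := by
  let g : J → J → J → ℝ := fun a b d => if Dist3 a b d then η * (K a * K b * K d) else 0
  have hg0 : ∀ a b d, 0 ≤ g a b d := by
    intro a b d
    simp only [g]
    have := K0 a
    have := K0 b
    have := K0 d
    split_ifs
    · positivity
    · exact le_rfl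
  have hDs1 : ∀ a b d : J, Dist3 a b d ↔ Dist3 b a d := fun a b d =>
    ⟨fun h => ⟨h.1.symm, h.2.2, h.2.1⟩, fun h => ⟨h.1.symm, h.2.2, h.2.1⟩⟩
  have hDs2 : ∀ a b d : J, Dist3 a b d ↔ Dist3 a d b := fun a b d =>
    ⟨fun h => ⟨h.2.2, h.2.1.symm, h.1⟩, fun h => ⟨h.2.2, h.2.1.symm, h.1⟩⟩
  have hgs1 : ∀ a b d, g a b d = g b a d := by
    intro a b d
    simp only [g]
    by_cases h : Dist3 a b d
    · rw [if_pos h, if_pos ((hDs1 a b d).1 h)]
      ring
    · rw [if_neg h, if_neg fun h' => h ((hDs1 a b d).2 h')]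
  have hgs2 : ∀ a b d, g a b d = g a d b := by
    intro a b d
    simp only [g]
    by_cases h : Dist3 a b d
    · rw [if_pos h, if_pos ((hDs2 a b d).1 h)]
      ring
    · rw [if_neg h, if_neg fun h' => h ((hDs2 a b d).2 h')]
  have hgle : ∀ a b, ∑ d, g a b d ≤ N a * N b := by
    intro a b
    have h1 : ∑ d, g a b d ≤ ∑ d, η * (K a * K b) * K d := by
      refine Finset.sum_le_sum fun d _ => ?_
      simp only [g]
      have := K0 a
      have := K0 b
      have := K0 d
      split_ifs
      · refine le_of_eq ?_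
        ring
      · positivity
    rw [← Finset.mul_sum] at h1
    exact h1.trans (hK a b)
  obtain ⟨y, hy0, hyd, hys1, hys2, hysum⟩ := exists_triangle_weights
    (fun a b => if a = b then 0 else N a * N b - ∑ d, g a b d) (by
      intro a b
      split_ifs
      · exact le_rfl
      · linarith [hgle a b]) (by
      intro a b
      by_cases h : a = b
      · subst h; rfl
      · rw [if_neg h, if_neg (Ne.symm h), mul_comm, Finset.sum_congr rfl fun d _ => hgs1 a b d])
    (by intro a; simp) (by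
      intro c hcs hcd hcT
      have h1 : ∀ a b, c a b * (if a = b then 0 else N a * N b - ∑ d, g a b d) =
          c a b * N a * N b - ∑ d, g a b d * c a b := by
        intro a b
        by_cases h : a = b
        · subst h
          simp [hcd]
        · rw [if_neg h, ← Finset.sum_mul]
          ring
      simp only [h1, Finset.sum_sub_distrib]
      have h2 : ∑ a, ∑ b, ∑ d, g a b d * c a d = ∑ a, ∑ b, ∑ d, g a b d * c a b := by
        refine Finset.sum_congr rfl fun a _ => ?_
        rw [Finset.sum_comm]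
        refine Finset.sum_congr rfl fun b _ => Finset.sum_congr rfl fun d _ => ?_
        rw [hgs2]
      have h3 : ∑ a, ∑ b, ∑ d, g a b d * c b d = ∑ a, ∑ b, ∑ d, g a b d * c a b := by
        rw [← h2, Finset.sum_comm]
        refine Finset.sum_congr rfl fun a _ => Finset.sum_congr rfl fun b _ =>
          Finset.sum_congr rfl fun d _ => ?_
        rw [hgs1]
      have h5 := hbil c hcs hcd hcT
      have h6 : ∑ a, ∑ b, ∑ d, g a b d * (c a b + c b d + c a d) =
          η * tri3 (tau c) K K K := by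
        simp only [tri3, Finset.mul_sum]
        refine Finset.sum_congr rfl fun a _ => Finset.sum_congr rfl fun b _ =>
          Finset.sum_congr rfl fun d _ => ?_
        simp only [g, tau]
        split_ifs
        · ring
        · ring
      have h7 : ∑ a, ∑ b, ∑ d, g a b d * (c a b + c b d + c a d) =
          3 * ∑ a, ∑ b, ∑ d, g a b d * c a b := by
        simp only [mul_add, Finset.sum_add_distrib]
        rw [h2, h3]
        ring
      have h8 : 3 * ∑ a, ∑ b, ∑ d, g a b d * c a b ≤ 3 * bil c N N := by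
        rw [← h7, h6]
        linarith
      unfold bil at h8
      linarith)
  have hsum : ∀ a b, a ≠ b → ∑ d, (y a b d + g a b d) = N a * N b := by
    intro a b hab
    rw [Finset.sum_add_distrib, hysum, if_neg hab]
    ring
  have hs1 : ∀ a b d, y a b d + g a b d = y b a d + g b a d := fun a b d => by
    rw [hys1, hgs1]
  have hs2 : ∀ a b d, y a b d + g a b d = y a d b + g a d b := fun a b d => by
    rw [hys2, hgs2]
  refine ⟨fun a b d => y a b d + g a b d, ⟨fun a c => ?_, fun a b => ?_, fun a b => ?_,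
    fun a b hab => hsum a b hab, fun a c hac => ?_, fun b c hbc => ?_⟩, fun a b d h1 h2 h3 => ?_⟩
  · have : ¬ Dist3 a a c := fun h => h.1 rfl
    simp [hyd _ _ _ this, g, this]
  · have : ¬ Dist3 a b b := fun h => h.2.1 rfl
    simp [hyd _ _ _ this, g, this]
  · have : ¬ Dist3 a b a := fun h => h.2.2 rfl
    simp [hyd _ _ _ this, g, this]
  · rw [← hsum a c hac]
    exact Finset.sum_congr rfl fun b _ => hs2 a b c
  · rw [← hsum b c hbc]
    refine Finset.sum_congr rfl fun a _ => ?_
    rw [hs1 a b c, hs2 b a c]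
  · have h4 := hy0 a b d
    have h5 : g a b d = η * (K a * K b * K d) := if_pos ⟨h1, h2, h3⟩
    rw [← h5]
    linarith

/-- the admissible size vectors -/
def Adm (N : J → ℝ) (S ε : ℝ) (M : J) : Prop :=
  (∀ a, a ≠ M → 4 * N a ≤ S) ∨ ∃ p, p ≠ M ∧ S ≤ 4 * N p ∧ N p ≤ (5 / 14 - ε) * S ∧
    ∀ a, a ≠ M → a ≠ p → 3 * N a ≤ S - N p

/-- the slack vector -/
noncomputable def kvec (N : J → ℝ) (S : ℝ) (M : J) : J → ℝ := fun a => if a = M then N a / S else (N a / S) ^ 2

omit [Fintype J] in
theorem kvec_nonneg {N : J → ℝ} (h0 : ∀ a, 0 ≤ N a) {S : ℝ} (hS0 : 0 < S) (M a : J) :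
    0 ≤ kvec N S M a := by
  unfold kvec
  have := h0 a
  split_ifs <;> positivity

omit [DecidableEq J] in
theorem bil_scale (c : J → J → ℝ) (N : J → ℝ) {L : ℝ} (hL : 0 < L) :
    bil c N N = L ^ 2 * bil c (fun a => N a / L) (fun a => N a / L) := by
  have h : N = L • (fun a => N a / L) := by
    funext a
    simp only [Pi.smul_apply, smul_eq_mul]
    field_simp
  have h2 : bil c N N = bil c (L • fun a => N a / L) (L • fun a => N a / L) := by rw [← h]
  rw [h2, bil_smul_left, bil_smul_right]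
  ring

theorem bil_slack2 {c : J → J → ℝ} (hs : ∀ a b, c a b = c b a) (hd : ∀ a, c a a = 0)
    (hT : ∀ a b d, a ≠ b → b ≠ d → a ≠ d → 0 ≤ c a b + c b d + c a d)
    (N : J → ℝ) (h0 : ∀ a, 0 ≤ N a) (S : ℝ) (hS : ∑ a, N a = S) (hS0 : 0 < S) (ε : ℝ)
    (hε0 : 0 < ε) (hε : ε ≤ 1 / 10) (M : J) (hM : N M ≤ ε * S / 60) (hadm : Adm N S ε M) :
    ε / 60 * S ^ 2 * tri3 (tau c) (kvec N S M) (kvec N S M) (kvec N S M) ≤ bil c N N := by
  have hτ := tau_nonneg hT
  have hNS : ∀ a, N a / S ≤ 1 := by
    intro a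
    rw [div_le_one hS0, ← hS]
    exact Finset.single_le_sum (fun b _ => h0 b) (mem_univ a)
  have hNS0 : ∀ a, 0 ≤ N a / S := fun a => div_nonneg (h0 a) hS0.le
  -- comparison of vectors
  have hcmp : ∀ (L : ℝ) (E : Finset J), 0 < L → L ≤ S → M ∉ E → ∀ a,
      kvec N S M a ≤ hsq E (fun a => N a / L) a := by
    intro L E hL hLS hME a
    have h1 : N a / S ≤ N a / L := div_le_div_of_nonneg_left (h0 a) hL hLS
    have h2 := hNS0 a
    have h3 := hNS a
    unfold kvec hsq
    by_cases ha : a = M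
    · subst ha
      rw [if_pos rfl, if_neg hME]
      exact h1
    · rw [if_neg ha]
      split_ifs
      · exact pow_le_pow_left₀ h2 h1 2
      · nlinarith
  have hK0 : ∀ a, 0 ≤ kvec N S M a := kvec_nonneg h0 hS0 M
  have hT0 : 0 ≤ tri3 (tau c) (kvec N S M) (kvec N S M) (kvec N S M) := tri3_nonneg hτ hK0 hK0 hK0
  rcases hadm with h4 | ⟨p, hpM, hp1, hp2, hp3⟩
  · -- no large coordinate
    have hL : 0 < S / 4 := by positivity
    have h1 := slack_box1 hs hd hT (M := M) (fun a => N a / (S / 4)) (N M / (S / 4)) (ε / 2)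
      (by positivity) (by linarith) rfl (div_nonneg (h0 M) hL.le)
      (by
        rw [div_le_iff₀ hL]
        nlinarith) (fun i hi => ⟨div_nonneg (h0 i) hL.le, by
          rw [div_le_one hL]
          linarith [h4 i hi]⟩) (by
        rw [← Finset.sum_div, hS]
        field_simp)
    have h2 := tri3_mono hτ hK0 (hcmp (S / 4) (univ.erase M) hL (by linarith) (by simp))
    rw [bil_scale c N hL]
    have h3 : ε / 2 * tri3 (tau c) (kvec N S M) (kvec N S M) (kvec N S M) ≤
        bil c (fun a => N a / (S / 4)) (fun a => N a / (S / 4)) :=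
      (mul_le_mul_of_nonneg_left h2 (by positivity)).trans h1
    have h5 := mul_le_mul_of_nonneg_left h3 (by positivity : 0 ≤ (S / 4) ^ 2)
    refine le_trans ?_ h5
    have h6 : (S / 4) ^ 2 * (ε / 2 * tri3 (tau c) (kvec N S M) (kvec N S M) (kvec N S M)) =
      ε / 32 * S ^ 2 * tri3 (tau c) (kvec N S M) (kvec N S M) (kvec N S M) := by ring
    rw [h6]
    refine mul_le_mul_of_nonneg_right ?_ hT0
    refine mul_le_mul_of_nonneg_right ?_ (by positivity)
    linarith
  · set L : ℝ := (S - N p) / 3 with hL'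
    have hεS : 0 < ε * S := mul_pos hε0 hS0
    have hL1 : 3 / 14 * S ≤ L := by
      rw [hL']
      linarith
    have hL2 : L ≤ S / 4 := by
      rw [hL']
      linarith
    have hL : 0 < L := by linarith
    have ha : 1 ≤ N p / L := by
      rw [le_div_iff₀ hL]
      linarith
    have ha' : 5 - 3 * (N p / L) = (5 * L - 3 * N p) / L := by
      field_simp
    have h5 : 18 * ε ≤ 5 - 3 * (N p / L) := by
      rw [ha', le_div_iff₀ hL]
      have h6 : 18 * ε * L ≤ 18 * ε * (S / 4) := mul_le_mul_of_nonneg_left hL2 (by positivity)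
      have h7 : 5 * L - 3 * N p = (5 * S - 14 * N p) / 3 := by rw [hL']; ring
      rw [h7]
      linarith
    have h1 := slack_box2 hs hd hT hpM (fun a => N a / L) (N p / L) (N M / L) (ε / 2) ha
      (by linarith) (by positivity) (by linarith) (by linarith) rfl rfl
      (div_nonneg (h0 M) hL.le) (by
        rw [div_le_iff₀ hL]
        nlinarith) (fun i hi hi' => ⟨div_nonneg (h0 i) hL.le, by
          rw [div_le_one hL]
          linarith [hp3 i hi' hi]⟩) (by
        rw [← Finset.sum_div, hS]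
        field_simp
        rw [hL']
        ring)
    have h2 := tri3_mono hτ hK0 (hcmp L (univ.filter fun i => i ≠ p ∧ i ≠ M) hL (by linarith)
      (by simp))
    rw [bil_scale c N hL]
    have h3 : ε / 2 * tri3 (tau c) (kvec N S M) (kvec N S M) (kvec N S M) ≤
        bil c (fun a => N a / L) (fun a => N a / L) :=
      (mul_le_mul_of_nonneg_left h2 (by positivity)).trans h1
    have h5 := mul_le_mul_of_nonneg_left h3 (by positivity : 0 ≤ L ^ 2)
    refine le_trans ?_ h5
    have h6 : ε / 60 * S ^ 2 ≤ L ^ 2 * (ε / 2) := by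
      have h7 : (3 / 14 * S) ^ 2 ≤ L ^ 2 := pow_le_pow_left₀ (by positivity) hL1 2
      have h8 := mul_le_mul_of_nonneg_right h7 (by positivity : 0 ≤ ε / 2)
      have h9 : 0 ≤ S ^ 2 * ε := by positivity
      nlinarith
    calc ε / 60 * S ^ 2 * tri3 (tau c) (kvec N S M) (kvec N S M) (kvec N S M)
        ≤ L ^ 2 * (ε / 2) * tri3 (tau c) (kvec N S M) (kvec N S M) (kvec N S M) :=
          mul_le_mul_of_nonneg_right h6 hT0
      _ = _ := by ring

/-- **Real outlines with slack.** -/
theorem exists_real_outline2 (N : J → ℝ) (h0 : ∀ a, 0 ≤ N a) (S : ℝ) (hS : ∑ a, N a = S)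
    (hS0 : 0 < S) (ε : ℝ) (hε0 : 0 < ε) (hε : ε ≤ 1 / 10) (M : J) (hM : N M ≤ ε * S / 60)
    (hadm : Adm N S ε M) :
    ∃ y : J → J → J → ℝ, IsOutline N y ∧ ∀ a b d, a ≠ b → b ≠ d → a ≠ d →
      ε / 20 * S ^ 2 * (kvec N S M a * kvec N S M b * kvec N S M d) ≤ y a b d := by
  have hK0 : ∀ a, 0 ≤ kvec N S M a := kvec_nonneg h0 hS0 M
  have hNS : ∀ a, N a / S ≤ 1 := by
    intro a
    rw [div_le_one hS0, ← hS]
    exact Finset.single_le_sum (fun b _ => h0 b) (mem_univ a)
  have hNS0 : ∀ a, 0 ≤ N a / S := fun a => div_nonneg (h0 a) hS0.le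
  have hKle : ∀ a, kvec N S M a ≤ N a / S := by
    intro a
    have h2 := hNS0 a
    have h3 := hNS a
    unfold kvec
    split_ifs
    · exact le_rfl
    · nlinarith
  have hKsum : ∑ d, kvec N S M d ≤ 1 := by
    calc ∑ d, kvec N S M d ≤ ∑ d, N d / S := Finset.sum_le_sum fun d _ => hKle d
      _ = 1 := by rw [← Finset.sum_div, hS, div_self hS0.ne']
  refine exists_real_outline_of N (kvec N S M) hK0 (ε / 20 * S ^ 2) (by positivity) ?_ ?_
  · intro a b
    have h1 : kvec N S M a * kvec N S M b ≤ (N a / S) * (N b / S) :=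
      mul_le_mul (hKle a) (hKle b) (hK0 b) (hNS0 a)
    have h2 : ε / 20 * S ^ 2 * (kvec N S M a * kvec N S M b) ≤
        1 * S ^ 2 * ((N a / S) * (N b / S)) := by
      have := hNS0 a
      have := hNS0 b
      have := hK0 a
      have := hK0 b
      gcongr
      linarith
    have h3 : 1 * S ^ 2 * ((N a / S) * (N b / S)) = N a * N b := by field_simp
    have h4 : 0 ≤ ε / 20 * S ^ 2 * (kvec N S M a * kvec N S M b) := by
      have := hK0 a
      have := hK0 b
      positivity
    calc ε / 20 * S ^ 2 * (kvec N S M a * kvec N S M b) * ∑ d, kvec N S M d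
        ≤ ε / 20 * S ^ 2 * (kvec N S M a * kvec N S M b) * 1 :=
          mul_le_mul_of_nonneg_left hKsum h4
      _ ≤ N a * N b := by rw [mul_one, ← h3]; exact h2
  · intro c hcs hcd hcT
    have h1 := bil_slack2 hcs hcd hcT N h0 S hS hS0 ε hε0 hε M hM hadm
    refine le_trans (le_of_eq ?_) h1
    ring

end Pool.Agent.MP_dd827d_co
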