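import Pool.Agent.Lib.MP_dd827d_co.Real

/-!
Frame theorems for partitions.
-/

namespace Pool.Agent.MP_dd827d_co

open Finset Function

variable {I : Type} [Fintype I] [DecidableEq I] (n : I → ℕ)

theorem frames_transversal (hn : ∀ i, 0 < n i) {S : Type} [DecidableEq S] {Λ : S → S → S}
    (hΛ : Latin Λ) (τ : S ≃ S) (hτ : Injective fun a => Λ a (τ a)) (a0 : S)
    (f : I → Option (S × S)) (N : ℕ)
    (hrow : ∀ a, ∑ i ∈ univ.filter (fun i => (f i).map Prod.fst = some a), n i = N)
    (hcol : ∀ b, ∑ i ∈ univ.filter (fun i => (f i).map Prod.snd = some b), n i = N)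
    (hsym : ∀ s, ∑ i ∈ univ.filter (fun i => (f i).map (fun p => Λ p.1 p.2) = some s), n i = N)
    (hW : ∑ i ∈ univ.filter (fun i => f i = none), n i ≤ N)
    (hτ0 : ∀ i a, f i ≠ some (a, τ a))
    (hb : ∀ a b, b ≠ τ a → 2 * ∑ i ∈ univ.filter (fun i => f i = some (a, b)), n i ≤ N ∨
      ∑ i ∈ univ.filter (fun i => f i = some (a, b)), n i = N ∧
        Realizable (fun i : {i // f i = some (a, b)} => n i.1)) :
    Realizable n := by
  classical
  refine Realizable.of_goodOn n hn ?_
  set i : Pt n → S := fun x => (f x.1).elim a0 Prod.fst with hi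
  set j : Pt n → S := fun x => (f x.1).elim a0 Prod.snd with hj
  set W : Finset (Pt n) := univ.filter fun x => f x.1 = none with hWdef
  have hmem : ∀ x : Pt n, x ∈ W ↔ f x.1 = none := fun x => by simp [hWdef]
  have e1 : ∀ (x : Pt n) a, (x ∉ W ∧ i x = a) ↔ (f x.1).map Prod.fst = some a := by
    intro x a
    rw [hmem]
    simp only [hi]
    cases f x.1 <;> simp
  have e2 : ∀ (x : Pt n) a, (x ∉ W ∧ j x = a) ↔ (f x.1).map Prod.snd = some a := by
    intro x a
    rw [hmem]
    simp only [hj]
    cases f x.1 <;> simp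
  have e3 : ∀ (x : Pt n) a, (x ∉ W ∧ Λ (i x) (j x) = a) ↔
      (f x.1).map (fun p => Λ p.1 p.2) = some a := by
    intro x a
    rw [hmem]
    simp only [hi, hj]
    cases f x.1 <;> simp
  have e4 : ∀ (x : Pt n) a b, (x ∉ W ∧ i x = a ∧ j x = b) ↔ f x.1 = some (a, b) := by
    intro x a b
    rw [hmem]
    simp only [hi, hj]
    cases f x.1 <;> simp [Prod.ext_iff]
  refine frame_transversal (Q := Pt n) hΛ τ hτ a0 (N := N) i j W ?_ ?_ ?_ ?_ ?_ _ ?_ ?_ ?_ ?_
  · intro a
    simp only [e1]
    rw [card_pt n (fun t => (f t).map Prod.fst = some a), hrow]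
  · intro a
    simp only [e2]
    rw [card_pt n (fun t => (f t).map Prod.snd = some a), hcol]
  · intro a
    simp only [e3]
    rw [card_pt n (fun t => (f t).map (fun p => Λ p.1 p.2) = some a), hsym]
  · rw [hWdef, card_pt n (fun t => f t = none)]
    exact hW
  · intro x hx h
    exact hτ0 x.1 (i x) ((e4 x _ _).1 ⟨hx, rfl, h⟩)
  · intro x hx y hxy
    rw [hmem] at hx ⊢
    rw [← hxy]; exact hx
  · intro x y _ hxy
    simp only [hi] at hxy ⊢
    rw [hxy]
  · intro x y _ hxy
    simp only [hj] at hxy ⊢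
    rw [hxy]
  · intro a b hab
    simp only [e4]
    rw [card_pt n (fun t => f t = some (a, b))]
    rcases hb a b hab with h | ⟨h, h'⟩
    · exact Or.inl h
    · exact Or.inr ⟨h, Realizable.goodOn n h'⟩

theorem frames_hole (hn : ∀ i, 0 < n i) {S : Type} [Fintype S] [DecidableEq S] {Λ : S → S → S}
    (hΛ : Latin Λ) (f : I → Option (S × S)) (N ρ : ℕ)
    (hrow : ∀ a, ∑ i ∈ univ.filter (fun i => (f i).map Prod.fst = some a), n i + ρ = N)
    (hcol : ∀ b, ∑ i ∈ univ.filter (fun i => (f i).map Prod.snd = some b), n i + ρ = N)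
    (hsym : ∀ s, ∑ i ∈ univ.filter (fun i => (f i).map (fun p => Λ p.1 p.2) = some s), n i + ρ = N)
    (hb1 : ∀ a b, 2 * ∑ i ∈ univ.filter (fun i => f i = some (a, b)), n i + ρ ≤ N)
    (hb2 : ∀ a b, ∑ i ∈ univ.filter (fun i => f i = some (a, b)), n i + 2 * ρ ≤ N)
    (hH : ∑ i ∈ univ.filter (fun i => f i = none), n i = Fintype.card S * ρ)
    (hreal : Realizable (fun i : {i // f i = none} => n i.1)) :
    Realizable n := by
  classical
  refine Realizable.of_goodOn n hn ?_
  set W : Finset (Pt n) := univ.filter fun x => f x.1 = none with hWdef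
  have hmem : ∀ x : Pt n, x ∈ W ↔ f x.1 = none := fun x => by simp [hWdef]
  have hcardW : Fintype.card {x : Pt n // f x.1 = none} = Fintype.card (S × Fin ρ) := by
    rw [Fintype.card_subtype, card_pt n (fun t => f t = none), hH, Fintype.card_prod,
      Fintype.card_fin]
  let eH := Fintype.equivOfCardEq hcardW
  let hc : Pt n → S := fun x => if h : f x.1 = none then (eH ⟨x, h⟩).1
    else ((f x.1).get (Option.ne_none_iff_isSome.1 h)).1
  have hhc : ∀ x (h : f x.1 = none), hc x = (eH ⟨x, h⟩).1 := fun x h => dif_pos h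
  set i : Pt n → S := fun x => (f x.1).elim (hc x) Prod.fst with hi
  set j : Pt n → S := fun x => (f x.1).elim (hc x) Prod.snd with hj
  set l : Pt n → S := fun x => (f x.1).elim (hc x) (fun p => Λ p.1 p.2) with hl
  have iW : ∀ x (h : f x.1 = none), i x = (eH ⟨x, h⟩).1 := by
    intro x h; rw [← hhc x h]; simp only [hi, h, Option.elim]
  have jW : ∀ x (h : f x.1 = none), j x = (eH ⟨x, h⟩).1 := by
    intro x h; rw [← hhc x h]; simp only [hj, h, Option.elim]
  have lW : ∀ x (h : f x.1 = none), l x = (eH ⟨x, h⟩).1 := by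
    intro x h; rw [← hhc x h]; simp only [hl, h, Option.elim]
  -- number of elements of the hole with given coordinate
  have cW : ∀ (g : Pt n → S), (∀ x (h : f x.1 = none), g x = (eH ⟨x, h⟩).1) → ∀ a,
      (W.filter fun x => g x = a).card = ρ := by
    intro g hg a
    have h1 : (W.filter fun x => g x = a).card
        = (univ.filter fun z : S × Fin ρ => z.1 = a).card := by
      refine Finset.card_bij (fun x hx => eH ⟨x, (hmem x).1 (mem_filter.1 hx).1⟩) ?_ ?_ ?_
      · intro x hx
        simp only [mem_filter, mem_univ, true_and]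
        rw [← hg x ((hmem x).1 (mem_filter.1 hx).1)]
        exact (mem_filter.1 hx).2
      · intro x hx y hy hxy
        exact congrArg Subtype.val (eH.injective hxy)
      · intro z hz
        simp only [mem_filter, mem_univ, true_and] at hz
        refine ⟨(eH.symm z).1, ?_, ?_⟩
        · rw [mem_filter, hmem]
          refine ⟨(eH.symm z).2, ?_⟩
          rw [hg _ (eH.symm z).2]
          simp [hz]
        · simp
    rw [h1, Finset.card_filter, Fintype.sum_prod_type, Finset.sum_eq_single a]
    · simp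
    · intro b _ hb
      simp [hb]
    · simp
  -- total number with given coordinate
  have cT : ∀ (g : Pt n → S) (u : S × S → S), (∀ x, g x = (f x.1).elim (hc x) u) →
      (∀ a, ∑ i ∈ univ.filter (fun i => (f i).map u = some a), n i + ρ = N) →
      ∀ a, (univ.filter fun x => g x = a).card = N := by
    intro g u hg hs a
    have hgW : ∀ x (h : f x.1 = none), g x = (eH ⟨x, h⟩).1 := by
      intro x h; rw [← hhc x h, hg x]; simp only [h, Option.elim]
    have h1 := Finset.card_filter_add_card_filter_not (s := univ.filter fun x => g x = a)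
      (fun x => x ∈ W)
    have h2 : (univ.filter fun x => g x = a).filter (fun x => x ∈ W) =
        W.filter fun x => g x = a := by
      ext x; simp only [mem_filter, mem_univ, true_and]; tauto
    have h3 : (univ.filter fun x => g x = a).filter (fun x => ¬ x ∈ W) =
        univ.filter fun x : Pt n => (f x.1).map u = some a := by
      ext x
      simp only [mem_filter, mem_univ, true_and]
      rw [hg x, hmem]
      cases f x.1 <;> simp
    rw [h2, h3, cW g hgW a, card_pt n (fun t => (f t).map u = some a)] at h1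
    rw [← h1, add_comm]
    exact hs a
  obtain ⟨L, hL⟩ := exists_latin (Fin ρ)
  let h : Pt n → Pt n → Pt n := fun x y =>
    if hxy : f x.1 = none ∧ f y.1 = none then
      (eH.symm (Λ (eH ⟨x, hxy.1⟩).1 (eH ⟨y, hxy.2⟩).1, L (eH ⟨x, hxy.1⟩).2 (eH ⟨y, hxy.2⟩).2)).1
    else x
  have hh : ∀ x y (hx : f x.1 = none) (hy : f y.1 = none), h x y =
      (eH.symm (Λ (eH ⟨x, hx⟩).1 (eH ⟨y, hy⟩).1, L (eH ⟨x, hx⟩).2 (eH ⟨y, hy⟩).2)).1 :=
    fun x y hx hy => dif_pos ⟨hx, hy⟩
  have hhL : LatinOn h W W W := by
    refine ⟨fun x hx y hy => ?_, fun x hx y hy y' hy' h1 => ?_, fun y hy x hx x' hx' h1 => ?_⟩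
    · rw [hmem] at hx hy ⊢
      rw [hh x y hx hy]
      exact (eH.symm _).2
    · rw [hmem] at hx hy hy'
      rw [hh x y hx hy, hh x y' hx hy'] at h1
      have h2 := eH.symm.injective (Subtype.ext h1)
      rw [Prod.ext_iff] at h2
      have h3 := hΛ.1 _ h2.1
      have h4 := hL.1 _ h2.2
      exact congrArg Subtype.val (eH.injective (Prod.ext h3 h4))
    · rw [hmem] at hx hy hx'
      rw [hh x y hx hy, hh x' y hx' hy] at h1
      have h2 := eH.symm.injective (Subtype.ext h1)
      rw [Prod.ext_iff] at h2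
      have h3 := hΛ.2 _ h2.1
      have h4 := hL.2 _ h2.2
      exact congrArg Subtype.val (eH.injective (Prod.ext h3 h4))
  have e4 : ∀ (x : Pt n) a b, (x ∉ W ∧ i x = a ∧ j x = b) ↔ f x.1 = some (a, b) := by
    intro x a b
    rw [hmem]
    simp only [hi, hj]
    cases f x.1 <;> simp [Prod.ext_iff]
  refine frame_hole (Q := Pt n) hΛ (N := N) i j l (cT i Prod.fst (fun _ => rfl) hrow)
    (cT j Prod.snd (fun _ => rfl) hcol) (cT l _ (fun _ => rfl) hsym) W hhL ?_
    (ρ := ρ) (cW i iW) (cW j jW) (cW l lW) ?_ ?_ ?_ _ ?_ ?_ ?_ ?_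
  · intro w hw w' hw'
    rw [hmem] at hw hw'
    rw [iW w hw, jW w' hw', hh w w' hw hw', lW _ (eH.symm _).2]
    simp
  · intro x hx
    rw [hmem] at hx
    simp only [hi, hj, hl]
    cases hfx : f x.1 with
    | none => exact absurd hfx hx
    | some p => rfl
  · intro a b
    simp only [e4]
    rw [card_pt n (fun t => f t = some (a, b))]
    exact hb1 a b
  · intro a b
    simp only [e4]
    rw [card_pt n (fun t => f t = some (a, b))]
    exact hb2 a b
  · intro x hx y hxy
    rw [hmem] at hx ⊢
    rw [← hxy]; exact hx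
  · intro x y hx hxy
    rw [hmem] at hx
    simp only [hi]
    rw [← hxy]
    cases hfx : f x.1 with
    | none => exact absurd hfx hx
    | some p => rfl
  · intro x y hx hxy
    rw [hmem] at hx
    simp only [hj]
    rw [← hxy]
    cases hfx : f x.1 with
    | none => exact absurd hfx hx
    | some p => rfl
  · exact Realizable.goodOn n hreal

end Pool.Agent.MP_dd827d_co
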