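import Pool.Agent.Lib.MP_dd827d_co.Cor

/-!
Frames over the cyclic groups of odd order.
-/

namespace Pool.Agent.MP_dd827d_co

open Finset Function

variable {I : Type} [Fintype I] [DecidableEq I] (n : I → ℕ)

theorem odd_frames (hn : ∀ i, 0 < n i) (s r : ℕ) (hs : Odd s) (hr1 : 1 ≤ r) (hrs : r < s)
    (f : I → Option (ZMod s × Fin r)) (g : ℕ)
    (hf : ∀ p : ZMod s × Fin r, ∑ i ∈ univ.filter (fun i => f i = some p), n i = g)
    (hr : r = 1 → ∀ p : ZMod s × Fin r, Realizable (fun i : {i // f i = some p} => n i.1))
    (hf' : ∑ i ∈ univ.filter (fun i => f i = none), n i ≤ r * g) : Realizable n := by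
  have : Fact (1 < s) := ⟨by omega⟩
  have : NeZero s := ⟨by omega⟩
  have h2 : Bijective fun a : ZMod s => a + a := by
    rw [← Finite.injective_iff_bijective]
    intro a b hab
    have h2u : IsUnit (2 : ZMod s) := by
      have := (ZMod.unitOfCoprime 2 (Nat.coprime_two_left.2 hs)).isUnit
      simpa using this
    simp only [← two_mul] at hab
    exact h2u.mul_left_cancel hab
  let d : Fin r → ZMod s := fun c => 1 + (c : ℕ)
  have hd : Injective d := by
    intro c c' h
    simp only [d, add_right_inj] at h
    rw [ZMod.natCast_eq_natCast_iff'] at h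
    rw [Nat.mod_eq_of_lt (c.2.trans hrs), Nat.mod_eq_of_lt (c'.2.trans hrs)] at h
    exact Fin.ext h
  have hd0 : ∀ c, d c ≠ 0 := by
    intro c h
    have h' : (((1 + (c : ℕ)) : ℕ) : ZMod s) = 0 := by
      push_cast
      exact h
    rw [ZMod.natCast_eq_zero_iff] at h'
    have := Nat.le_of_dvd (by omega) h'
    have := c.2
    omega
  let φ : ZMod s × Fin r → ZMod s × ZMod s := fun p => (p.1, p.1 + d p.2)
  have hφ : Injective φ := by
    rintro ⟨a, c⟩ ⟨a', c'⟩ h
    simp only [φ, Prod.mk.injEq] at h
    obtain ⟨rfl, h⟩ := h
    rw [hd (add_left_cancel h)]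
  have key : ∀ (u : ZMod s × ZMod s → ZMod s) (a : ZMod s),
      (∀ c, Bijective fun b => u (φ (b, c))) →
      ∑ i ∈ univ.filter (fun i => ((f i).map φ).map u = some a), n i = r * g := by
    intro u a hu
    rw [sum_fiber n f (fun t => (t.map φ).map u = some a)]
    have hcard : ((univ : Finset (Option (ZMod s × Fin r))).filter
        (fun t => (t.map φ).map u = some a)).card = r := by
      rw [Finset.card_filter, Fintype.sum_option]
      simp only [Option.map_none, reduceCtorEq, if_false, zero_add, Option.map_some,
        Option.some.injEq]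
      rw [Fintype.sum_prod_type_right]
      have : ∀ c, ∑ b, (if u (φ (b, c)) = a then 1 else 0) = 1 := by
        intro c
        obtain ⟨b, hb⟩ := (hu c).2 a
        rw [Finset.sum_eq_single b]
        · rw [if_pos hb]
        · intro b' _ hb'
          rw [if_neg]
          intro h
          exact hb' ((hu c).1 (h.trans hb.symm))
        · intro h
          exact absurd (mem_univ b) h
      rw [Finset.sum_congr rfl fun c _ => this c]
      simp
    have hsum : ∑ t ∈ (univ : Finset (Option (ZMod s × Fin r))).filter
        (fun t => (t.map φ).map u = some a), ∑ i ∈ univ.filter (fun i => f i = t), n i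
        = ∑ t ∈ (univ : Finset (Option (ZMod s × Fin r))).filter
        (fun t => (t.map φ).map u = some a), g := by
      refine Finset.sum_congr rfl fun t ht => ?_
      cases t with
      | none => simp at ht
      | some t => exact hf t
    rw [hsum, Finset.sum_const, hcard, smul_eq_mul]
  refine frames_transversal n hn (S := ZMod s) (Λ := fun a b => a + b)
    ⟨fun a b c h => add_left_cancel h, fun b a c h => add_right_cancel h⟩
    (Equiv.refl _) h2.1 0 (fun i => (f i).map φ) (r * g) (fun a => key _ a fun c => ?_)
    (fun a => key _ a fun c => ?_) (fun a => key (fun p => p.1 + p.2) a fun c => ?_) ?_ ?_ ?_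
  · exact bijective_id
  · exact (Equiv.addRight (d c)).bijective
  · have : (fun b : ZMod s => (fun p : ZMod s × ZMod s => p.1 + p.2) (φ (b, c)))
        = (Equiv.addRight (d c)) ∘ fun a : ZMod s => a + a := by
      funext b
      simp [φ, add_assoc]
    rw [this]
    exact (Equiv.addRight (d c)).bijective.comp h2
  · simpa using hf'
  · intro i a h
    simp only [Option.map_eq_some_iff, φ, Prod.mk.injEq, Equiv.refl_apply] at h
    obtain ⟨t, -, rfl, ht⟩ := h
    exact hd0 t.2 (by simpa using ht)
  · intro a b hab
    by_cases hb : ∃ p, φ p = (a, b)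
    · obtain ⟨p, hp⟩ := hb
      have he : ∀ i, f i = some p ↔ (f i).map φ = some (a, b) := by
        intro i
        rw [← hp, Option.map_eq_some_iff]
        constructor
        · intro h; exact ⟨p, h, rfl⟩
        · rintro ⟨q, h, hq⟩
          rw [h, hφ hq]
      have hsum : ∑ i ∈ univ.filter (fun i => (f i).map φ = some (a, b)), n i = g := by
        rw [← hf p]
        refine Finset.sum_congr ?_ fun _ _ => rfl
        ext i
        simp only [mem_filter, mem_univ, true_and]
        exact (he i).symm
      rw [hsum]
      rcases Nat.lt_or_ge 1 r with h1 | h1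
      · left
        exact Nat.mul_le_mul_right g h1
      · right
        have h1' : r = 1 := le_antisymm h1 hr1
        refine ⟨by rw [h1', one_mul], realizable_congr n he (hr h1' p)⟩
    · left
      have : univ.filter (fun i => (f i).map φ = some (a, b)) = ∅ := by
        ext i
        simp only [mem_filter, mem_univ, true_and, notMem_empty, iff_false,
          Option.map_eq_some_iff, not_exists, not_and]
        intro p _ hp
        exact hb ⟨p, hp⟩
      rw [this]
      simp

end Pool.Agent.MP_dd827d_co
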