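import Pool.Agent.Lib.MP_dd827d_co.Cor

/-!
Greedy packing of a partition with many ones.
-/

namespace Pool.Agent.MP_dd827d_co

open Finset Function

variable {I : Type} [Fintype I] [DecidableEq I] (n : I → ℕ)

theorem pack {q : ℕ} (hq : 0 < q) (m M : ℕ) (hM : 1 ≤ M) (s : Finset (I))
    (hs : ∀ i ∈ s, n i ≤ M) (hsum : ∑ i ∈ s, n i + (q - 1) * (M - 1) ≤ q * m) :
    ∃ f : I → Fin q, ∀ a, ∑ i ∈ s.filter (fun i => f i = a), n i ≤ m := by
  classical
  induction s using Finset.induction_on with
  | empty => exact ⟨fun _ => ⟨0, hq⟩, fun a => by simp⟩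
  | insert i s hi ih =>
    rw [Finset.sum_insert hi] at hsum
    obtain ⟨f, hf⟩ := ih (fun j hj => hs j (mem_insert_of_mem hj)) (by omega)
    have hex : ∃ a, ∑ j ∈ s.filter (fun j => f j = a), n j + n i ≤ m := by
      by_contra hcon
      push Not at hcon
      have h1 : ∑ a : Fin q, (m + 1) ≤ ∑ a : Fin q, (∑ j ∈ s.filter (fun j => f j = a), n j + n i) :=
        Finset.sum_le_sum fun a _ => hcon a
      have h0 : ∑ a : Fin q, (∑ j ∈ s.filter (fun j => f j = a), n j + n i)
          = ∑ j ∈ s, n j + q * n i := by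
        rw [Finset.sum_add_distrib, Finset.sum_fiberwise]
        simp
      rw [h0] at h1
      simp only [Finset.sum_const, Finset.card_univ, Fintype.card_fin, smul_eq_mul] at h1
      have h2 := hs i (mem_insert_self i s)
      obtain ⟨q', rfl⟩ := Nat.exists_eq_succ_of_ne_zero hq.ne'
      obtain ⟨M', rfl⟩ := Nat.exists_eq_add_of_le' hM
      simp only [Nat.succ_eq_add_one, Nat.add_sub_cancel] at hsum h1
      have h3 : q' * n i ≤ q' * (M' + 1) := Nat.mul_le_mul_left _ h2
      nlinarith
    obtain ⟨a, ha⟩ := hex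
    refine ⟨update f i a, fun b => ?_⟩
    rw [Finset.filter_insert]
    have hfi : s.filter (fun j => update f i a j = b) = s.filter (fun j => f j = b) := by
      refine Finset.filter_congr fun j hj => ?_
      rw [update_of_ne (ne_of_mem_of_not_mem hj hi)]
    by_cases hab : update f i a i = b
    · rw [if_pos hab, hfi, Finset.sum_insert (fun h => hi (mem_filter.1 h).1)]
      rw [update_self] at hab
      rw [← hab, add_comm]
      exact ha
    · rw [if_neg hab, hfi]
      exact hf b

theorem exists_fibers {q : ℕ} (O : Finset (I)) (d : Fin q → ℕ) (h : ∑ a, d a ≤ O.card) :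
    ∃ g : I → Option (Fin q), ∀ a, (O.filter fun i => g i = some a).card = d a := by
  classical
  obtain ⟨E⟩ : Nonempty ((Σ a, Fin (d a)) ↪ {i // i ∈ O}) :=
    Function.Embedding.nonempty_of_card_le (by simpa [Fintype.card_sigma] using h)
  refine ⟨fun i => if hi : ∃ z, (E z).1 = i then some hi.choose.1 else none, fun a => ?_⟩
  have hg : ∀ z, (if hi : ∃ z', (E z').1 = (E z).1 then some hi.choose.1 else none) = some z.1 := by
    intro z
    have hz : ∃ z', (E z').1 = (E z).1 := ⟨z, rfl⟩
    rw [dif_pos hz]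
    have := E.injective (Subtype.ext hz.choose_spec)
    rw [this]
  rw [← Fintype.card_fin (d a), ← Finset.card_univ]
  symm
  refine Finset.card_bij (fun t _ => (E ⟨a, t⟩).1) (fun t _ => ?_) (fun t _ t' _ h => ?_)
    (fun i hi => ?_)
  · rw [mem_filter]
    exact ⟨(E ⟨a, t⟩).2, hg ⟨a, t⟩⟩
  · have := E.injective (Subtype.ext h)
    simpa using this
  · rw [mem_filter] at hi
    obtain ⟨hiO, hi2⟩ := hi
    beta_reduce at hi2
    split_ifs at hi2 with h1
    obtain ⟨z, rfl⟩ := h1
    have h2 := (hg z).symm.trans ((dif_pos ⟨z, rfl⟩).trans hi2)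
    obtain ⟨a', t⟩ := z
    simp only [Option.some.injEq] at h2
    subst h2
    exact ⟨t, mem_univ _, rfl⟩

/-- If all parts are at most `M ≤ m` and there are enough ones, then the parts can be grouped in
`q` groups of sum exactly `m` and some left-over ones. -/
theorem pack_ones {q : ℕ} (hq : 0 < q) (m M w : ℕ) (hM : ∀ i, n i ≤ M) (hM1 : 1 ≤ M)
    (hsum : ∑ i, n i = q * m + w)
    (hones : (q - 1) * (M - 1) + w ≤ (univ.filter fun i => n i = 1).card) :
    ∃ f : I → Option (Fin q),
      (∀ a, ∑ i ∈ univ.filter (fun i => f i = some a), n i = m) ∧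
      ∑ i ∈ univ.filter (fun i => f i = none), n i = w := by
  classical
  set O := univ.filter fun i => n i = 1 with hO
  set s := univ.filter fun i => n i ≠ 1 with hs
  have hOsum : ∑ i ∈ O, n i = O.card := by
    rw [Finset.card_eq_sum_ones]
    exact Finset.sum_congr rfl fun i hi => (mem_filter.1 hi).2
  have htot : ∑ i ∈ O, n i + ∑ i ∈ s, n i = ∑ i, n i :=
    Finset.sum_filter_add_sum_filter_not _ _ _
  obtain ⟨f, hf⟩ := pack n hq m M hM1 s (fun i _ => hM i) (by omega)
  have hfs : ∑ a, ∑ i ∈ s.filter (fun i => f i = a), n i = ∑ i ∈ s, n i :=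
    Finset.sum_fiberwise _ _ _
  have hd : ∑ a, (m - ∑ i ∈ s.filter (fun i => f i = a), n i) + ∑ i ∈ s, n i = q * m := by
    rw [← hfs, ← Finset.sum_add_distrib]
    rw [Finset.sum_congr rfl fun a _ => Nat.sub_add_cancel (hf a)]
    simp
  obtain ⟨g, hg⟩ := exists_fibers O (fun a => m - ∑ i ∈ s.filter (fun i => f i = a), n i)
    (by omega)
  set F : I → Option (Fin q) := fun i => if n i = 1 then g i else some (f i) with hF
  have h1 : ∀ a, ∑ i ∈ univ.filter (fun i => F i = some a), n i = m := by
    intro a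
    rw [← Finset.sum_filter_add_sum_filter_not (univ.filter (fun i => F i = some a))
      (fun i => n i = 1)]
    have e1 : (univ.filter (fun i => F i = some a)).filter (fun i => n i = 1)
        = O.filter fun i => g i = some a := by
      ext i
      simp only [mem_filter, mem_univ, true_and, hF, hO]
      constructor
      · rintro ⟨h, h'⟩
        rw [if_pos h'] at h
        exact ⟨h', h⟩
      · rintro ⟨h, h'⟩
        rw [if_pos h]
        exact ⟨h', h⟩
    have e2 : (univ.filter (fun i => F i = some a)).filter (fun i => ¬ n i = 1)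
        = s.filter fun i => f i = a := by
      ext i
      simp only [mem_filter, mem_univ, true_and, hF, hs]
      constructor
      · rintro ⟨h, h'⟩
        rw [if_neg h'] at h
        exact ⟨h', Option.some.inj h⟩
      · rintro ⟨h, h'⟩
        rw [if_neg h, h']
        exact ⟨rfl, h⟩
    have e3 : ∑ i ∈ O.filter (fun i => g i = some a), n i
        = (O.filter fun i => g i = some a).card := by
      rw [Finset.card_eq_sum_ones]
      exact Finset.sum_congr rfl fun i hi => (mem_filter.1 (mem_filter.1 hi).1).2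
    rw [e1, e2, e3, hg a]
    exact Nat.sub_add_cancel (hf a)
  refine ⟨F, h1, ?_⟩
  have h2 : ∑ i, n i = ∑ t : Option (Fin q), ∑ i ∈ univ.filter (fun i => F i = t), n i :=
    (Finset.sum_fiberwise _ _ _).symm
  rw [Fintype.sum_option] at h2
  simp only [h1, Finset.sum_const, Finset.card_univ, Fintype.card_fin, smul_eq_mul] at h2
  omega

/-- `4 ∣ n`, all parts at most `n / 4`, and at least `3 (M - 1)` ones, `M` the largest part. -/
theorem ones_four (hn : ∀ i, 0 < n i) (m M : ℕ) (hM : ∀ i, n i ≤ M) (hM1 : 1 ≤ M)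
    (hsum : ∑ i, n i = 4 * m)
    (hones : 3 * (M - 1) ≤ (univ.filter fun i => n i = 1).card) : Realizable n := by
  obtain ⟨f, hf, hf'⟩ := pack_ones n (q := 4) (by norm_num) m M 0 hM hM1 (by simpa using hsum)
    (by simpa using hones)
  refine four_groups n hn f m 0 (Nat.zero_le _) hf (by simpa using hf') ?_
  refine realizable_empty n fun i hi => ?_
  rw [Finset.sum_eq_zero_iff] at hf'
  have := hf' i (by simp [hi])
  have := hn i
  omega

/-- `6 g ≤ n ≤ 8 g` and at least `5 (M - 1) + (n - 6 g)` ones, `M` the largest part. -/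
theorem ones_six (hn : ∀ i, 0 < n i) (g w M : ℕ) (hM : ∀ i, n i ≤ M) (hM1 : 1 ≤ M)
    (hsum : ∑ i, n i = 6 * g + w) (hw : w ≤ 2 * g)
    (hones : 5 * (M - 1) + w ≤ (univ.filter fun i => n i = 1).card) : Realizable n := by
  obtain ⟨f, hf, hf'⟩ := pack_ones n (q := 6) (by norm_num) g M w hM hM1 hsum
    (by simpa using hones)
  exact six_groups n hn f g hf (by omega)

end Pool.Agent.MP_dd827d_co
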