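import Mathlib

/-!
A quadratic inequality: if `c a b + c b d + c a d ≥ 0` on all triangles, then
`∑ c a b N a N b ≥ 0` for all `N ≥ 0` with every `N a` at most a quarter of the sum.
-/

namespace Pool.Agent.MP_dd827d_co

open Finset Function

variable {J : Type*} [Fintype J] [DecidableEq J]

/-- bilinear form -/
def bil (c : J → J → ℝ) (f g : J → ℝ) : ℝ := ∑ a, ∑ b, c a b * f a * g b

omit [DecidableEq J] in
theorem bil_add_left (c : J → J → ℝ) (f f' g : J → ℝ) :
    bil c (f + f') g = bil c f g + bil c f' g := by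
  simp only [bil, Pi.add_apply, ← Finset.sum_add_distrib]
  refine Finset.sum_congr rfl fun a _ => Finset.sum_congr rfl fun b _ => ?_
  ring

omit [DecidableEq J] in
theorem bil_add_right (c : J → J → ℝ) (f g g' : J → ℝ) :
    bil c f (g + g') = bil c f g + bil c f g' := by
  simp only [bil, Pi.add_apply, ← Finset.sum_add_distrib]
  refine Finset.sum_congr rfl fun a _ => Finset.sum_congr rfl fun b _ => ?_
  ring

omit [DecidableEq J] in
theorem bil_smul_left (c : J → J → ℝ) (t : ℝ) (f g : J → ℝ) :
    bil c (t • f) g = t * bil c f g := by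
  simp only [bil, Pi.smul_apply, smul_eq_mul, Finset.mul_sum]
  refine Finset.sum_congr rfl fun a _ => Finset.sum_congr rfl fun b _ => ?_
  ring

omit [DecidableEq J] in
theorem bil_smul_right (c : J → J → ℝ) (t : ℝ) (f g : J → ℝ) :
    bil c f (t • g) = t * bil c f g := by
  simp only [bil, Pi.smul_apply, smul_eq_mul, Finset.mul_sum]
  refine Finset.sum_congr rfl fun a _ => Finset.sum_congr rfl fun b _ => ?_
  ring

/-- unit vector -/
def unit (i : J) : J → ℝ := fun a => if a = i then 1 else 0

theorem bil_unit_unit (c : J → J → ℝ) (i j : J) : bil c (unit i) (unit j) = c i j := by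
  simp [bil, unit]

theorem bil_unit_left (c : J → J → ℝ) (i : J) (f : J → ℝ) :
    bil c (unit i) f = ∑ b, c i b * f b := by
  simp [bil, unit]

omit [DecidableEq J] in
theorem bil_symm (c : J → J → ℝ) (hs : ∀ a b, c a b = c b a) (f g : J → ℝ) :
    bil c f g = bil c g f := by
  unfold bil
  rw [Finset.sum_comm]
  refine Finset.sum_congr rfl fun a _ => Finset.sum_congr rfl fun b _ => ?_
  rw [hs b a]
  ring

theorem sum_unit (i : J) : ∑ a, unit i a = 1 := by simp [unit]

/-- exchange direction -/
def dir (i j : J) : J → ℝ := unit i + (-1 : ℝ) • unit j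

theorem sum_dir (i j : J) : ∑ a, dir i j a = 0 := by
  simp [dir, Finset.sum_add_distrib, unit]

theorem bil_dir (c : J → J → ℝ) (hs : ∀ a b, c a b = c b a) (hd : ∀ a, c a a = 0) (i j : J) :
    bil c (dir i j) (dir i j) = -2 * c i j := by
  simp only [dir, bil_add_left, bil_add_right, bil_smul_left, bil_smul_right, bil_unit_unit, hd,
    hs j i]
  ring

theorem bil_move (c : J → J → ℝ) (hs : ∀ a b, c a b = c b a) (hd : ∀ a, c a a = 0) (f : J → ℝ)
    (i j : J) (t : ℝ) :
    bil c (f + t • dir i j) (f + t • dir i j) + bil c (f + (-t) • dir i j) (f + (-t) • dir i j) =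
      2 * bil c f f - 4 * t ^ 2 * c i j := by
  simp only [bil_add_left, bil_add_right, bil_smul_left, bil_smul_right]
  rw [bil_dir c hs hd]
  ring

/-- the box -/
def box (J : Type*) [Fintype J] : Set (J → ℝ) := {f | (∀ a, 0 ≤ f a ∧ f a ≤ 1) ∧ ∑ a, f a = 4}

omit [DecidableEq J] in
theorem isCompact_box : IsCompact (box J) := by
  have h : box J = Set.pi Set.univ (fun _ : J => Set.Icc (0 : ℝ) 1) ∩ {f | ∑ a, f a = 4} := by
    ext f
    constructor
    · rintro ⟨h1, h2⟩
      exact ⟨fun a _ => h1 a, h2⟩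
    · rintro ⟨h1, h2⟩
      exact ⟨fun a => h1 a trivial, h2⟩
  rw [h]
  refine (isCompact_univ_pi fun _ => isCompact_Icc).inter_right ?_
  exact isClosed_eq (continuous_finsetSum _ fun a _ => continuous_apply a) continuous_const

omit [DecidableEq J] in
theorem continuous_bil (c : J → J → ℝ) : Continuous fun f : J → ℝ => bil c f f := by
  unfold bil
  fun_prop

/-- moving along `dir i j` stays in the box -/
theorem move_mem_box {f : J → ℝ} (hf : f ∈ box J) {i j : J} (hij : i ≠ j) {t : ℝ}
    (h1 : |t| ≤ f i) (h2 : |t| ≤ 1 - f i) (h3 : |t| ≤ f j) (h4 : |t| ≤ 1 - f j) :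
    f + t • dir i j ∈ box J := by
  refine ⟨fun a => ?_, ?_⟩
  · have ht := abs_le.1 (le_refl |t|)
    simp only [Pi.add_apply, Pi.smul_apply, dir, unit, smul_eq_mul]
    by_cases hai : a = i
    · subst hai
      rw [if_pos rfl, if_neg hij]
      constructor <;> linarith
    · by_cases haj : a = j
      · subst haj
        rw [if_pos rfl, if_neg hai]
        constructor <;> linarith
      · rw [if_neg hai, if_neg haj]
        have := hf.1 a
        constructor <;> linarith
  · simp only [Pi.add_apply, Pi.smul_apply, smul_eq_mul, Finset.sum_add_distrib, ← Finset.mul_sum,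
      sum_dir, hf.2]
    ring

theorem sq_move (f : J → ℝ) {i j : J} (hij : i ≠ j) (t : ℝ) :
    ∑ a, (f + t • dir i j) a ^ 2 + ∑ a, (f + (-t) • dir i j) a ^ 2 =
      2 * ∑ a, f a ^ 2 + 4 * t ^ 2 := by
  have h : ∀ a, (f + t • dir i j) a ^ 2 + (f + (-t) • dir i j) a ^ 2 =
      2 * f a ^ 2 + 2 * t ^ 2 * (unit i a + unit j a) := by
    intro a
    simp only [Pi.add_apply, Pi.smul_apply, dir, unit, smul_eq_mul]
    by_cases hai : a = i
    · subst hai
      rw [if_pos rfl, if_neg hij]
      ring
    · by_cases haj : a = j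
      · subst haj
        rw [if_pos rfl, if_neg hai]
        ring
      · rw [if_neg hai, if_neg haj]
        ring
  rw [← Finset.sum_add_distrib, Finset.sum_congr rfl fun a _ => h a, Finset.sum_add_distrib,
    ← Finset.mul_sum, ← Finset.mul_sum, Finset.sum_add_distrib, sum_unit, sum_unit]
  ring

/-- At a suitable minimum at most two coordinates are interior. -/
theorem exists_good_min (c : J → J → ℝ) (hs : ∀ a b, c a b = c b a) (hd : ∀ a, c a a = 0)
    (hT : ∀ a b d, a ≠ b → b ≠ d → a ≠ d → 0 ≤ c a b + c b d + c a d)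
    (hne : (box J).Nonempty) :
    ∃ f ∈ box J, (∀ g ∈ box J, bil c f f ≤ bil c g g) ∧
      ∀ i j l, i ≠ j → j ≠ l → i ≠ l → ¬ ((0 < f i ∧ f i < 1) ∧ (0 < f j ∧ f j < 1) ∧
        (0 < f l ∧ f l < 1)) := by
  obtain ⟨m, hm, hmin⟩ := isCompact_box.exists_isMinOn hne (continuous_bil c).continuousOn
  have hK : IsCompact {f ∈ box J | bil c f f ≤ bil c m m} :=
    isCompact_box.inter_right (isClosed_le (continuous_bil c) continuous_const)
  obtain ⟨f, hf, hmax⟩ := hK.exists_isMaxOn (f := fun f : J → ℝ => ∑ a, f a ^ 2) ⟨m, hm, le_rfl⟩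
    (by fun_prop)
  have hfmin : ∀ g ∈ box J, bil c f f ≤ bil c g g := fun g hg => hf.2.trans (hmin hg)
  refine ⟨f, hf.1, hfmin, ?_⟩
  rintro i j l hij hjl hil ⟨⟨i1, i2⟩, ⟨j1, j2⟩, ⟨l1, l2⟩⟩
  obtain ⟨t, ht0, ht⟩ : ∃ t : ℝ, 0 < t ∧ t ≤ f i ∧ t ≤ 1 - f i ∧ t ≤ f j ∧ t ≤ 1 - f j ∧
      t ≤ f l ∧ t ≤ 1 - f l := by
    refine ⟨min (f i) (min (1 - f i) (min (f j) (min (1 - f j) (min (f l) (1 - f l))))), ?_, ?_⟩
    · simp only [lt_min_iff]
      refine ⟨i1, by linarith, j1, by linarith, l1, by linarith⟩
    · refine ⟨min_le_left _ _, ?_, ?_, ?_, ?_, ?_⟩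
      · exact (min_le_right _ _).trans (min_le_left _ _)
      · exact (min_le_right _ _).trans ((min_le_right _ _).trans (min_le_left _ _))
      · exact (min_le_right _ _).trans ((min_le_right _ _).trans ((min_le_right _ _).trans
          (min_le_left _ _)))
      · exact (min_le_right _ _).trans ((min_le_right _ _).trans ((min_le_right _ _).trans
          ((min_le_right _ _).trans (min_le_left _ _))))
      · exact (min_le_right _ _).trans ((min_le_right _ _).trans ((min_le_right _ _).trans
          ((min_le_right _ _).trans (min_le_right _ _))))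
  obtain ⟨t1, t2, t3, t4, t5, t6⟩ := ht
  have ha : |t| = t := abs_of_pos ht0
  have ha' : |-t| = t := by rw [abs_neg, ha]
  have b1 := move_mem_box hf.1 hij (t := t) (by rwa [ha]) (by rwa [ha]) (by rwa [ha]) (by rwa [ha])
  have b2 := move_mem_box hf.1 hij (t := -t) (by rwa [ha']) (by rwa [ha']) (by rwa [ha'])
    (by rwa [ha'])
  have b3 := move_mem_box hf.1 hjl (t := t) (by rwa [ha]) (by rwa [ha]) (by rwa [ha]) (by rwa [ha])
  have b4 := move_mem_box hf.1 hjl (t := -t) (by rwa [ha']) (by rwa [ha']) (by rwa [ha'])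
    (by rwa [ha'])
  have b5 := move_mem_box hf.1 hil (t := t) (by rwa [ha]) (by rwa [ha]) (by rwa [ha]) (by rwa [ha])
  have b6 := move_mem_box hf.1 hil (t := -t) (by rwa [ha']) (by rwa [ha']) (by rwa [ha'])
    (by rwa [ha'])
  have e1 := bil_move c hs hd f i j t
  have e2 := bil_move c hs hd f j l t
  have e3 := bil_move c hs hd f i l t
  have m1 := hfmin _ b1
  have m2 := hfmin _ b2
  have m3 := hfmin _ b3
  have m4 := hfmin _ b4
  have m5 := hfmin _ b5
  have m6 := hfmin _ b6
  have hc := hT i j l hij hjl hil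
  have ht2 : 0 < t ^ 2 := by positivity
  have hc2 : 0 ≤ 4 * t ^ 2 * (c i j + c j l + c i l) := by positivity
  have k1 : bil c (f + t • dir i j) (f + t • dir i j) ≤ bil c f f := by linarith
  have k2 : bil c (f + (-t) • dir i j) (f + (-t) • dir i j) ≤ bil c f f := by linarith
  have q1 : ∑ a, (f + t • dir i j) a ^ 2 ≤ ∑ a, f a ^ 2 := hmax (show f + t • dir i j ∈ {f ∈ box J | bil c f f ≤ bil c m m} from
    ⟨b1, k1.trans hf.2⟩)
  have q2 : ∑ a, (f + (-t) • dir i j) a ^ 2 ≤ ∑ a, f a ^ 2 := hmax (show f + (-t) • dir i j ∈ {f ∈ box J | bil c f f ≤ bil c m m} from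
    ⟨b2, k2.trans hf.2⟩)
  have q3 := sq_move f hij t
  linarith

/-- **Quarter inequality** on the box. -/
theorem bil_nonneg_box (c : J → J → ℝ) (hs : ∀ a b, c a b = c b a) (hd : ∀ a, c a a = 0)
    (hT : ∀ a b d, a ≠ b → b ≠ d → a ≠ d → 0 ≤ c a b + c b d + c a d)
    (g : J → ℝ) (hg : g ∈ box J) : 0 ≤ bil c g g := by
  obtain ⟨f, hf, hmin, hint⟩ := exists_good_min c hs hd hT ⟨g, hg⟩
  refine le_trans ?_ (hmin g hg)
  -- the set of ones and the set of interior coordinates
  set O : Finset J := univ.filter fun a => f a = 1 with hO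
  set P : Finset J := univ.filter fun a => 0 < f a ∧ f a < 1 with hP
  have hmO : ∀ a, a ∈ O ↔ f a = 1 := fun a => by simp [hO]
  have hmP : ∀ a, a ∈ P ↔ 0 < f a ∧ f a < 1 := fun a => by simp [hP]
  have hz : ∀ a, a ∉ O → a ∉ P → f a = 0 := by
    intro a h1 h2
    rw [hmO] at h1
    rw [hmP] at h2
    have h3 := hf.1 a
    by_contra h4
    exact h2 ⟨lt_of_le_of_ne h3.1 (Ne.symm h4), lt_of_le_of_ne h3.2 h1⟩
  have hdisj : Disjoint O P := by
    rw [Finset.disjoint_left]
    intro a h1 h2
    rw [hmO] at h1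
    rw [hmP] at h2
    linarith [h2.2]
  have hsum : (O.card : ℝ) + ∑ a ∈ P, f a = 4 := by
    rw [← hf.2, ← Finset.sum_subset (Finset.subset_univ (O ∪ P))
      (fun a _ h => by
        rw [Finset.mem_union, not_or] at h
        exact hz a h.1 h.2), Finset.sum_union hdisj]
    congr 1
    rw [Finset.sum_congr rfl fun a ha => (hmO a).1 ha]
    simp
  have hP2 : P.card ≤ 2 := by
    by_contra h
    push Not at h
    obtain ⟨i, hi, j, hj, l, hl, hij, hil, hjl⟩ := Finset.two_lt_card.1 h
    exact hint i j l hij hjl hil ⟨(hmP i).1 hi, (hmP j).1 hj, (hmP l).1 hl⟩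
  have hcases : P.card = 0 ∨ P.card = 1 ∨ P.card = 2 := by omega
  rcases hcases with h0 | h1 | h2
  · -- four ones
    rw [Finset.card_eq_zero] at h0
    rw [h0, Finset.sum_empty, add_zero] at hsum
    have hO4 : O.card = 4 := by exact_mod_cast hsum
    obtain ⟨i, hi⟩ := Finset.card_pos.1 (by omega : 0 < O.card)
    have hO3 : (O.erase i).card = 3 := by rw [Finset.card_erase_of_mem hi, hO4]
    obtain ⟨a, b, d, hab, had, hbd, hE⟩ := Finset.card_eq_three.1 hO3
    have hOe : O = {i, a, b, d} := by rw [← Finset.insert_erase hi, hE]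
    have hia : i ≠ a := fun h => by
      have : a ∈ O.erase i := by rw [hE]; simp
      exact Finset.ne_of_mem_erase this h.symm
    have hib : i ≠ b := fun h => by
      have : b ∈ O.erase i := by rw [hE]; simp
      exact Finset.ne_of_mem_erase this h.symm
    have hid : i ≠ d := fun h => by
      have : d ∈ O.erase i := by rw [hE]; simp
      exact Finset.ne_of_mem_erase this h.symm
    have hfe : f = unit i + unit a + unit b + unit d := by
      funext t
      simp only [Pi.add_apply, unit]
      by_cases ht : t ∈ O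
      · rw [(hmO t).1 ht]
        rw [hOe] at ht
        simp only [Finset.mem_insert, Finset.mem_singleton] at ht
        rcases ht with rfl | rfl | rfl | rfl
        · simp [hia, hib, hid]
        · simp [hia.symm, hab, had]
        · simp [hib.symm, hab.symm, hbd]
        · simp [hid.symm, had.symm, hbd.symm]
      · rw [hz t ht (by rw [h0]; simp)]
        rw [hOe] at ht
        simp only [Finset.mem_insert, Finset.mem_singleton, not_or] at ht
        simp [ht]
    rw [hfe]
    simp only [bil_add_left, bil_add_right, bil_unit_unit, hd]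
    have t1 := hT i a b hia hab hib
    have t2 := hT i a d hia had hid
    have t3 := hT i b d hib hbd hid
    have t4 := hT a b d hab hbd had
    rw [hs a i, hs b i, hs d i, hs b a, hs d a, hs d b]
    linarith
  · -- one interior coordinate is impossible
    exfalso
    obtain ⟨i, hi⟩ := Finset.card_eq_one.1 h1
    rw [hi, Finset.sum_singleton] at hsum
    have hi' := (hmP i).1 (by rw [hi]; simp)
    have h3 : (3 : ℝ) < O.card := by linarith [hi'.2]
    have h4 : (O.card : ℝ) < 4 := by linarith [hi'.1]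
    have h5 : 3 < O.card := by exact_mod_cast h3
    have h6 : O.card < 4 := by exact_mod_cast h4
    omega
  · obtain ⟨i, j, hij, hPe⟩ := Finset.card_eq_two.1 h2
    have hi := (hmP i).1 (by rw [hPe]; simp)
    have hj := (hmP j).1 (by rw [hPe]; simp)
    rw [hPe, Finset.sum_pair hij] at hsum
    have hO3 : O.card = 3 := by
      have h3 : (2 : ℝ) < O.card := by linarith [hi.2, hj.2]
      have h4 : (O.card : ℝ) < 4 := by linarith [hi.1, hj.1]
      have h5 : 2 < O.card := by exact_mod_cast h3
      have h6 : O.card < 4 := by exact_mod_cast h4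
      omega
    rw [hO3] at hsum
    have hj1 : f j = 1 - f i := by
      push_cast at hsum
      linarith
    obtain ⟨a, b, d, hab, had, hbd, hOe⟩ := Finset.card_eq_three.1 hO3
    have hnO : ∀ t, t ∈ P → t ∉ O := fun t h h' => Finset.disjoint_left.1 hdisj h' h
    have hiO : i ∉ O := hnO i (by rw [hPe]; simp)
    have hjO : j ∉ O := hnO j (by rw [hPe]; simp)
    rw [hOe] at hiO hjO
    simp only [Finset.mem_insert, Finset.mem_singleton, not_or] at hiO hjO
    obtain ⟨hia, hib, hid⟩ := hiO
    obtain ⟨hja, hjb, hjd⟩ := hjO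
    have hfe : f = unit a + unit b + unit d + f i • unit i + (1 - f i) • unit j := by
      funext t
      simp only [Pi.add_apply, Pi.smul_apply, unit, smul_eq_mul]
      by_cases ht : t ∈ O
      · rw [(hmO t).1 ht]
        rw [hOe] at ht
        simp only [Finset.mem_insert, Finset.mem_singleton] at ht
        rcases ht with rfl | rfl | rfl
        · simp [hab, had, Ne.symm hia, Ne.symm hja]
        · simp [hab.symm, hbd, Ne.symm hib, Ne.symm hjb]
        · simp [had.symm, hbd.symm, Ne.symm hid, Ne.symm hjd]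
      · by_cases htP : t ∈ P
        · rw [hPe] at htP
          simp only [Finset.mem_insert, Finset.mem_singleton] at htP
          rcases htP with rfl | rfl
          · simp [hia, hib, hid, hij]
          · rw [hj1]
            simp [hja, hjb, hjd, hij.symm]
        · rw [hz t ht htP]
          rw [hOe] at ht
          rw [hPe] at htP
          simp only [Finset.mem_insert, Finset.mem_singleton, not_or] at ht htP
          simp [ht, htP]
    set x : ℝ := f i with hx
    rw [hfe]
    simp only [bil_add_left, bil_add_right, bil_smul_left, bil_smul_right, bil_unit_unit, hd]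
    have t1 := hT a b d hab hbd had
    have t2 := hT a b i hab (Ne.symm hib) (Ne.symm hia)
    have t3 := hT a d i had (Ne.symm hid) (Ne.symm hia)
    have t4 := hT b d i hbd (Ne.symm hid) (Ne.symm hib)
    have t5 := hT a b j hab (Ne.symm hjb) (Ne.symm hja)
    have t6 := hT a d j had (Ne.symm hjd) (Ne.symm hja)
    have t7 := hT b d j hbd (Ne.symm hjd) (Ne.symm hjb)
    have t8 := hT a i j (Ne.symm hia) hij (Ne.symm hja)
    have t9 := hT b i j (Ne.symm hib) hij (Ne.symm hjb)
    have t10 := hT d i j (Ne.symm hid) hij (Ne.symm hjd)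
    rw [hs b a, hs d a, hs d b, hs i a, hs i b, hs i d, hs j a, hs j b, hs j d, hs j i]
    have x0 : 0 ≤ x := hi.1.le
    have x1 : 0 ≤ 1 - x := by linarith [hi.2]
    -- weights
    have w1 : 0 ≤ x * (1 - x) := mul_nonneg x0 x1
    have w2 : 0 ≤ x - x * (1 - x) / 3 := by nlinarith
    have w3 : 0 ≤ (1 - x) - x * (1 - x) / 3 := by nlinarith
    have v1 := mul_nonneg (by linarith : 0 ≤ 1 + 2 * (x * (1 - x)) / 3) t1
    have v2 := mul_nonneg w2 t2
    have v3 := mul_nonneg w2 t3
    have v4 := mul_nonneg w2 t4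
    have v5 := mul_nonneg w3 t5
    have v6 := mul_nonneg w3 t6
    have v7 := mul_nonneg w3 t7
    have v8 := mul_nonneg w1 t8
    have v9 := mul_nonneg w1 t9
    have v10 := mul_nonneg w1 t10
    have key : (1 + 2 * (x * (1 - x)) / 3) * (c a b + c b d + c a d) +
        (x - x * (1 - x) / 3) * (c a b + c b i + c a i) +
        (x - x * (1 - x) / 3) * (c a d + c d i + c a i) +
        (x - x * (1 - x) / 3) * (c b d + c d i + c b i) +
        ((1 - x) - x * (1 - x) / 3) * (c a b + c b j + c a j) +
        ((1 - x) - x * (1 - x) / 3) * (c a d + c d j + c a j) +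
        ((1 - x) - x * (1 - x) / 3) * (c b d + c d j + c b j) +
        2 / 3 * (x * (1 - x) * (c a i + c i j + c a j)) +
        2 / 3 * (x * (1 - x) * (c b i + c i j + c b j)) +
        2 / 3 * (x * (1 - x) * (c d i + c i j + c d j)) =
        2 * (c a b + c a d + c b d) + 2 * x * (c a i + c b i + c d i) +
        2 * (1 - x) * (c a j + c b j + c d j) + 2 * x * (1 - x) * c i j := by ring
    have final : 0 ≤ 2 * (c a b + c a d + c b d) + 2 * x * (c a i + c b i + c d i) +
        2 * (1 - x) * (c a j + c b j + c d j) + 2 * x * (1 - x) * c i j := by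
      rw [← key]
      linarith
    refine le_of_le_of_eq final ?_
    ring

/-- **Quarter inequality.** -/
theorem bil_nonneg (c : J → J → ℝ) (hs : ∀ a b, c a b = c b a) (hd : ∀ a, c a a = 0)
    (hT : ∀ a b d, a ≠ b → b ≠ d → a ≠ d → 0 ≤ c a b + c b d + c a d)
    (N : J → ℝ) (h0 : ∀ a, 0 ≤ N a) (h4 : ∀ a, 4 * N a ≤ ∑ b, N b) : 0 ≤ bil c N N := by
  set S := ∑ b, N b with hS
  have hS0 : 0 ≤ S := Finset.sum_nonneg fun b _ => h0 b
  rcases eq_or_lt_of_le hS0 with h | h
  · have : ∀ a, N a = 0 := by
      intro a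
      have h1 := h0 a
      have h2 := h4 a
      linarith
    simp [bil, this]
  · have hg : (4 / S) • N ∈ box J := by
      refine ⟨fun a => ⟨?_, ?_⟩, ?_⟩
      · simp only [Pi.smul_apply, smul_eq_mul]
        have := h0 a
        positivity
      · simp only [Pi.smul_apply, smul_eq_mul]
        rw [div_mul_eq_mul_div, div_le_one h]
        exact h4 a
      · simp only [Pi.smul_apply, smul_eq_mul, ← Finset.mul_sum, ← hS]
        field_simp
    have := bil_nonneg_box c hs hd hT _ hg
    rw [bil_smul_left, bil_smul_right] at this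
    have h5 : 0 < 4 / S := by positivity
    have h6 := nonneg_of_mul_nonneg_right this h5
    exact nonneg_of_mul_nonneg_right h6 h5

end Pool.Agent.MP_dd827d_co
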