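import Pool.Agent.Lib.MP_dd827d_co.Quad

/-!
The quarter inequality with slack.
-/

namespace Pool.Agent.MP_dd827d_co

open Finset Function

variable {J : Type*} [Fintype J] [DecidableEq J]

/-- One move downwards: for distinct `A, B, C` with enough room, the quadratic form is at least
the triangle term. -/
theorem bil_ge_triangle (c : J → J → ℝ) (hs : ∀ a b, c a b = c b a) (hd : ∀ a, c a a = 0)
    (hT : ∀ a b d, a ≠ b → b ≠ d → a ≠ d → 0 ≤ c a b + c b d + c a d)
    (N : J → ℝ) (h0 : ∀ a, 0 ≤ N a) {i j l : J} (hij : i ≠ j) (hjl : j ≠ l) (hil : i ≠ l)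
    (t : ℝ) (ht : 0 ≤ t) (hi : t ≤ N i) (hj : t ≤ N j) (hl : t ≤ N l)
    (h4 : ∀ a, 4 * N a ≤ ∑ b, N b) (h4i : 4 * (N i + t) ≤ ∑ b, N b)
    (h4j : 4 * (N j + t) ≤ ∑ b, N b) (h4l : 4 * (N l + t) ≤ ∑ b, N b) :
    2 / 3 * t ^ 2 * (c i j + c j l + c i l) ≤ bil c N N := by
  have key : ∀ p q, p ≠ q → t ≤ N p → t ≤ N q → 4 * (N p + t) ≤ ∑ b, N b →
      4 * (N q + t) ≤ ∑ b, N b → ∀ s : ℝ, |s| = t →
      0 ≤ bil c (N + s • dir p q) (N + s • dir p q) := by
    intro p q hpq hp hq h4p h4q s hst
    have hs1 := abs_le.1 hst.le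
    have hsum : ∑ b, (N + s • dir p q) b = ∑ b, N b := by
      simp only [Pi.add_apply, Pi.smul_apply, smul_eq_mul, Finset.sum_add_distrib,
        ← Finset.mul_sum, sum_dir]
      ring
    refine bil_nonneg c hs hd hT _ (fun a => ?_) (fun a => ?_)
    · simp only [Pi.add_apply, Pi.smul_apply, dir, unit, smul_eq_mul]
      by_cases hai : a = p
      · subst hai
        rw [if_pos rfl, if_neg hpq]
        linarith
      · by_cases haj : a = q
        · subst haj
          rw [if_pos rfl, if_neg hai]
          linarith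
        · rw [if_neg hai, if_neg haj]
          have := h0 a
          linarith
    · rw [hsum]
      simp only [Pi.add_apply, Pi.smul_apply, dir, unit, smul_eq_mul]
      by_cases hai : a = p
      · subst hai
        rw [if_pos rfl, if_neg hpq]
        linarith
      · by_cases haj : a = q
        · subst haj
          rw [if_pos rfl, if_neg hai]
          linarith
        · rw [if_neg hai, if_neg haj]
          have := h4 a
          linarith
  have ha : |t| = t := abs_of_nonneg ht
  have ha' : |-t| = t := by rw [abs_neg, ha]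
  have m1 := key i j hij hi hj h4i h4j t ha
  have m2 := key i j hij hi hj h4i h4j (-t) ha'
  have m3 := key j l hjl hj hl h4j h4l t ha
  have m4 := key j l hjl hj hl h4j h4l (-t) ha'
  have m5 := key i l hil hi hl h4i h4l t ha
  have m6 := key i l hil hi hl h4i h4l (-t) ha'
  have e1 := bil_move c hs hd N i j t
  have e2 := bil_move c hs hd N j l t
  have e3 := bil_move c hs hd N i l t
  linarith

/-- all three distinct -/
def Dist3 (a b d : J) : Prop := a ≠ b ∧ b ≠ d ∧ a ≠ d

instance (a b d : J) : Decidable (Dist3 a b d) := by unfold Dist3; infer_instance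

/-- **Quarter inequality with slack.** -/
theorem bil_slack (c : J → J → ℝ) (hs : ∀ a b, c a b = c b a) (hd : ∀ a, c a a = 0)
    (hT : ∀ a b d, a ≠ b → b ≠ d → a ≠ d → 0 ≤ c a b + c b d + c a d)
    (N : J → ℝ) (h0 : ∀ a, 0 ≤ N a) (S : ℝ) (hS : ∑ a, N a = S) (hS0 : 0 < S) (θ : ℝ)
    (hθ0 : 0 ≤ θ) (hθ : θ ≤ 1 / 4) (h4 : ∀ a, N a ≤ (1 / 4 - θ) * S) :
    2 * θ ^ 2 / 27 * ∑ a, ∑ b, ∑ d, (if Dist3 a b d then N a * N b * N d *
      (c a b + c b d + c a d) else 0) ≤ S * bil c N N := by
  -- the perturbed vectors
  let P : J → J → J → J → ℝ := fun a b d =>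
    (1 - θ) • N + (θ * S / 3) • (unit a + unit b + unit d)
  have hPsum : ∀ a b d, ∑ e, P a b d e = S := by
    intro a b d
    simp only [P, Pi.add_apply, Pi.smul_apply, smul_eq_mul, Finset.sum_add_distrib,
      ← Finset.mul_sum, sum_unit, hS]
    ring
  have hP0 : ∀ a b d e, 0 ≤ P a b d e := by
    intro a b d e
    simp only [P, Pi.add_apply, Pi.smul_apply, smul_eq_mul, unit]
    have := h0 e
    have h1 : 0 ≤ 1 - θ := by linarith
    positivity
  have hunit : ∀ a b : J, unit a b ≤ 1 := by
    intro a b
    unfold unit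
    split_ifs <;> norm_num
  have hunit0 : ∀ a b : J, 0 ≤ unit a b := by
    intro a b
    unfold unit
    split_ifs <;> norm_num
  have hexp : ∀ a b d, bil c (P a b d) (P a b d) = (1 - θ) ^ 2 * bil c N N +
      2 * (1 - θ) * (θ * S / 3) * (bil c N (unit a) + bil c N (unit b) + bil c N (unit d)) +
      2 * (θ * S / 3) ^ 2 * (c a b + c b d + c a d) := by
    intro a b d
    simp only [P, bil_add_left, bil_add_right, bil_smul_left, bil_smul_right, bil_unit_unit, hd,
      bil_symm c hs (unit a) N, bil_symm c hs (unit b) N, bil_symm c hs (unit d) N, hs b a, hs d a,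
      hs d b]
    ring
  have hlow : ∀ a b d, (if Dist3 a b d then 2 / 3 * (θ * S / 3) ^ 2 * (c a b + c b d + c a d)
      else 0) ≤ bil c (P a b d) (P a b d) := by
    intro a b d
    have hθS : 0 ≤ θ * S := by positivity
    split_ifs with h
    · have hbig : ∀ e, 4 * P a b d e ≤ S ∧ ((e = a ∨ e = b ∨ e = d) →
          4 * (P a b d e + θ * S / 3) ≤ S ∧ θ * S / 3 ≤ P a b d e) := by
        intro e
        have h1 := h0 e
        have h2 := h4 e
        have h3 : unit a e + unit b e + unit d e ≤ 1 := by
          simp only [unit]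
          by_cases hea : e = a
          · subst hea
            rw [if_pos rfl, if_neg h.1, if_neg h.2.2]
            norm_num
          · by_cases heb : e = b
            · subst heb
              rw [if_neg hea, if_pos rfl, if_neg h.2.1]
              norm_num
            · rw [if_neg hea, if_neg heb]
              split_ifs <;> norm_num
        have h5 : P a b d e = (1 - θ) * N e + θ * S / 3 * (unit a e + unit b e + unit d e) := by
          simp only [P, Pi.add_apply, Pi.smul_apply, smul_eq_mul]
        have h6 : (1 - θ) * N e ≤ (1 - θ) * ((1 / 4 - θ) * S) :=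
          mul_le_mul_of_nonneg_left h2 (by linarith)
        have h7 : θ * S / 3 * (unit a e + unit b e + unit d e) ≤ θ * S / 3 * 1 :=
          mul_le_mul_of_nonneg_left h3 (by positivity)
        have h8 : θ ^ 2 * S ≤ 1 / 4 * (θ * S) := by
          have : θ ^ 2 * S = θ * (θ * S) := by ring
          rw [this]
          exact mul_le_mul_of_nonneg_right hθ hθS
        refine ⟨?_, fun he => ⟨?_, ?_⟩⟩
        · rw [h5]
          nlinarith
        · rw [h5]
          nlinarith
        · rw [h5]
          have h9 : 1 ≤ unit a e + unit b e + unit d e := by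
            have u1 := hunit0 a e
            have u2 := hunit0 b e
            have u3 := hunit0 d e
            rcases he with rfl | rfl | rfl
            · have : unit e e = 1 := by simp [unit]
              linarith
            · have : unit e e = 1 := by simp [unit]
              linarith
            · have : unit e e = 1 := by simp [unit]
              linarith
          have h10 : θ * S / 3 * 1 ≤ θ * S / 3 * (unit a e + unit b e + unit d e) :=
            mul_le_mul_of_nonneg_left h9 (by positivity)
          have h11 : 0 ≤ (1 - θ) * N e := mul_nonneg (by linarith) h1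
          linarith
      refine bil_ge_triangle c hs hd hT (P a b d) (hP0 a b d) h.1 h.2.1 h.2.2 (θ * S / 3)
        (by positivity) ?_ ?_ ?_ ?_ ?_ ?_ ?_
      · exact ((hbig a).2 (Or.inl rfl)).2
      · exact ((hbig b).2 (Or.inr (Or.inl rfl))).2
      · exact ((hbig d).2 (Or.inr (Or.inr rfl))).2
      · rw [hPsum]; exact fun e => (hbig e).1
      · rw [hPsum]; exact ((hbig a).2 (Or.inl rfl)).1
      · rw [hPsum]; exact ((hbig b).2 (Or.inr (Or.inl rfl))).1
      · rw [hPsum]; exact ((hbig d).2 (Or.inr (Or.inr rfl))).1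
    · refine bil_nonneg c hs hd hT _ (hP0 a b d) fun e => ?_
      rw [hPsum]
      have h1 := h0 e
      have h2 := h4 e
      have u1 := hunit a e
      have u2 := hunit b e
      have u3 := hunit d e
      have h5 : P a b d e = (1 - θ) * N e + θ * S / 3 * (unit a e + unit b e + unit d e) := by
        simp only [P, Pi.add_apply, Pi.smul_apply, smul_eq_mul]
      have h6 : (1 - θ) * N e ≤ (1 - θ) * ((1 / 4 - θ) * S) :=
        mul_le_mul_of_nonneg_left h2 (by linarith)
      have h7 : θ * S / 3 * (unit a e + unit b e + unit d e) ≤ θ * S / 3 * 3 :=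
        mul_le_mul_of_nonneg_left (by linarith) (by positivity)
      have h8 : θ ^ 2 * S ≤ 1 / 4 * (θ * S) := by
        have : θ ^ 2 * S = θ * (θ * S) := by ring
        rw [this]
        exact mul_le_mul_of_nonneg_right hθ hθS
      rw [h5]
      nlinarith
  -- sum up
  have hsumN : ∀ f : J → ℝ, ∑ a, ∑ _b : J, ∑ _d : J, N a * N _b * N _d * f a =
      S ^ 2 * ∑ a, N a * f a := by
    intro f
    have : ∀ a, ∑ _b : J, ∑ _d : J, N a * N _b * N _d * f a = S ^ 2 * (N a * f a) := by
      intro a
      have h1 : ∀ b d, N a * N b * N d * f a = N a * f a * (N b * N d) := fun b d => by ring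
      simp only [h1, ← Finset.mul_sum, ← Finset.sum_mul, hS]
      ring
    simp only [this, ← Finset.mul_sum]
  have hBN : ∑ a, N a * bil c N (unit a) = bil c N N := by
    have : ∀ a, bil c N (unit a) = ∑ b, c b a * N b := by
      intro a
      simp [bil, unit]
    rw [Finset.sum_congr rfl fun a _ => by rw [this a, Finset.mul_sum]]
    unfold bil
    rw [Finset.sum_comm]
    refine Finset.sum_congr rfl fun a _ => Finset.sum_congr rfl fun b _ => ?_
    ring
  have hT1 : ∑ a, ∑ b, ∑ d, N a * N b * N d * bil c N (unit a) = S ^ 2 * bil c N N := by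
    rw [hsumN fun a => bil c N (unit a), hBN]
  have hT2 : ∑ a, ∑ b, ∑ d, N a * N b * N d * bil c N (unit b) = S ^ 2 * bil c N N := by
    rw [← hT1, Finset.sum_comm]
    refine Finset.sum_congr rfl fun a _ => Finset.sum_congr rfl fun b _ =>
      Finset.sum_congr rfl fun d _ => ?_
    ring
  have hT3 : ∑ a, ∑ b, ∑ d, N a * N b * N d * bil c N (unit d) = S ^ 2 * bil c N N := by
    rw [← hT2]
    refine Finset.sum_congr rfl fun a _ => ?_
    rw [Finset.sum_comm]
    refine Finset.sum_congr rfl fun b _ => Finset.sum_congr rfl fun d _ => ?_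
    ring
  have hC1 : ∑ a, ∑ b, ∑ d, N a * N b * N d * c a b = S * bil c N N := by
    have : ∀ a b, ∑ d, N a * N b * N d * c a b = S * (c a b * N a * N b) := by
      intro a b
      have h1 : ∀ d, N a * N b * N d * c a b = c a b * N a * N b * N d := fun d => by ring
      simp only [h1, ← Finset.mul_sum, hS]
      ring
    simp only [this, ← Finset.mul_sum, bil]
  have hC2 : ∑ a, ∑ b, ∑ d, N a * N b * N d * c a d = S * bil c N N := by
    rw [← hC1]
    refine Finset.sum_congr rfl fun a _ => ?_
    rw [Finset.sum_comm]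
    refine Finset.sum_congr rfl fun b _ => Finset.sum_congr rfl fun d _ => ?_
    ring
  have hC3 : ∑ a, ∑ b, ∑ d, N a * N b * N d * c b d = S * bil c N N := by
    rw [← hC2, Finset.sum_comm]
    refine Finset.sum_congr rfl fun a _ => Finset.sum_congr rfl fun b _ =>
      Finset.sum_congr rfl fun d _ => ?_
    ring
  have hC0 : ∑ a, ∑ b, ∑ d, N a * N b * N d * bil c N N = S ^ 3 * bil c N N := by
    have h1 : ∀ a b d, N a * N b * N d * bil c N N = bil c N N * (N a * (N b * N d)) :=
      fun a b d => by ring
    simp only [h1, ← Finset.mul_sum, ← Finset.sum_mul, hS]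
    ring
  have htotal : ∑ a, ∑ b, ∑ d, N a * N b * N d * bil c (P a b d) (P a b d) =
      S ^ 3 * (1 - θ ^ 2 / 3) * bil c N N := by
    have h1 : ∀ a b d, N a * N b * N d * bil c (P a b d) (P a b d) =
        (1 - θ) ^ 2 * (N a * N b * N d * bil c N N) +
        2 * (1 - θ) * (θ * S / 3) * (N a * N b * N d * bil c N (unit a) +
          N a * N b * N d * bil c N (unit b) + N a * N b * N d * bil c N (unit d)) +
        2 * (θ * S / 3) ^ 2 * (N a * N b * N d * c a b + N a * N b * N d * c b d +
          N a * N b * N d * c a d) := by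
      intro a b d
      rw [hexp]
      ring
    simp only [h1, Finset.sum_add_distrib, ← Finset.mul_sum, hT1, hT2, hT3, hC0, hC1, hC2, hC3]
    ring
  have hineq : ∑ a, ∑ b, ∑ d, N a * N b * N d * (if Dist3 a b d then
      2 / 3 * (θ * S / 3) ^ 2 * (c a b + c b d + c a d) else 0) ≤
      ∑ a, ∑ b, ∑ d, N a * N b * N d * bil c (P a b d) (P a b d) := by
    refine Finset.sum_le_sum fun a _ => Finset.sum_le_sum fun b _ =>
      Finset.sum_le_sum fun d _ => ?_
    exact mul_le_mul_of_nonneg_left (hlow a b d)
      (mul_nonneg (mul_nonneg (h0 a) (h0 b)) (h0 d))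
  rw [htotal] at hineq
  have hB0 : 0 ≤ bil c N N := by
    refine bil_nonneg c hs hd hT N h0 fun a => ?_
    rw [hS]
    have := h4 a
    nlinarith
  have hlhs : ∑ a, ∑ b, ∑ d, N a * N b * N d * (if Dist3 a b d then
      2 / 3 * (θ * S / 3) ^ 2 * (c a b + c b d + c a d) else 0) =
      S ^ 2 * (2 * θ ^ 2 / 27 * ∑ a, ∑ b, ∑ d, (if Dist3 a b d then N a * N b * N d *
        (c a b + c b d + c a d) else 0)) := by
    simp only [Finset.mul_sum]
    refine Finset.sum_congr rfl fun a _ => Finset.sum_congr rfl fun b _ =>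
      Finset.sum_congr rfl fun d _ => ?_
    split_ifs
    · ring
    · ring
  rw [hlhs] at hineq
  have hθ2 : S ^ 3 * (1 - θ ^ 2 / 3) * bil c N N ≤ S ^ 2 * (S * bil c N N) := by
    have : 0 ≤ S ^ 3 * (θ ^ 2 / 3) * bil c N N := by positivity
    nlinarith
  have hS2 : 0 < S ^ 2 := by positivity
  exact le_of_mul_le_mul_left (hineq.trans hθ2) hS2

end Pool.Agent.MP_dd827d_co
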