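import Pool.Agent.Lib.MP_dd827d_co.FrameT

/-!
Realizable partitions and their translation to good colourings.
-/

namespace Pool.Agent.MP_dd827d_co

open Finset Function

/-- `(Q, op)` is a quasigroup: `a x = b` and `y a = b` have unique solutions. -/
def IsQuasigroup {Q : Type} (op : Q → Q → Q) : Prop :=
  (∀ a b, ∃! x, op a x = b) ∧ ∀ a b, ∃! y, op y a = b

/-- `S` is a subquasigroup of the finite quasigroup `(Q, op)`: nonempty and closed. -/
def IsSubquasigroup {Q : Type} (op : Q → Q → Q) (S : Set Q) : Prop :=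
  S.Nonempty ∧ ∀ x ∈ S, ∀ y ∈ S, op x y ∈ S

/-- The family of orders `n i` (`i : ι`) is realizable: there is a quasigroup of order `∑ n i` which
is the union of subquasigroups of orders `n i`. -/
def Realizable {ι : Type} [Fintype ι] (n : ι → ℕ) : Prop :=
  ∃ (Q : Type) (_ : Fintype Q) (op : Q → Q → Q), IsQuasigroup op ∧
    Fintype.card Q = ∑ i, n i ∧
    ∃ S : ι → Set Q, (∀ i, IsSubquasigroup op (S i) ∧ (S i).ncard = n i) ∧ ⋃ i, S i = Set.univ

variable {I : Type} [Fintype I] [DecidableEq I] (n : I → ℕ)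

/-- the standard set with parts of sizes `n i` -/
abbrev Pt {I : Type} (n : I → ℕ) : Type := Σ i : I, Fin (n i)

theorem card_pt (p : I → Prop) [DecidablePred p] :
    (univ.filter fun x : Pt n => p x.1).card = ∑ i ∈ univ.filter p, n i := by
  rw [Finset.card_filter, Fintype.sum_sigma, Finset.sum_filter]
  refine Finset.sum_congr rfl fun i _ => ?_
  by_cases h : p i <;> simp [h]

theorem Realizable.of_goodOn (hn : ∀ i, 0 < n i)
    (h : GoodOn (fun x : Pt n => x.1) univ) : Realizable n := by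
  obtain ⟨g, hg, hgc⟩ := h
  have hr : ∀ a, Bijective (g a) := fun a => Finite.injective_iff_bijective.1
    fun x y hxy => hg.2.1 a (mem_univ _) x (mem_univ _) y (mem_univ _) hxy
  have hc : ∀ a, Bijective (fun y => g y a) := fun a => Finite.injective_iff_bijective.1
    fun x y hxy => hg.2.2 a (mem_univ _) x (mem_univ _) y (mem_univ _) hxy
  refine ⟨Pt n, inferInstance, g, ⟨fun a b => (hr a).existsUnique b,
    fun a b => (hc a).existsUnique b⟩, by simp [Fintype.card_sigma],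
    fun i => {x | x.1 = i}, fun i => ⟨⟨⟨⟨i, ⟨0, hn i⟩⟩, rfl⟩, ?_⟩, ?_⟩, ?_⟩
  · intro x hx y hy
    have hx' : x.1 = i := hx
    have hy' : y.1 = i := hy
    exact (hgc x (mem_univ _) y (mem_univ _) (hx'.trans hy'.symm)).trans hx'
  · have h1 := card_pt n (fun t => t = i)
    rw [Finset.filter_eq' univ i, if_pos (mem_univ i), Finset.sum_singleton] at h1
    rw [← h1, ← Set.ncard_coe_finset]
    congr 1
    ext x
    simp
  · ext x
    simp

theorem Realizable.goodOn {p : I → Prop} [DecidablePred p]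
    (h : Realizable (fun i : {i // p i} => n i.1)) :
    GoodOn (fun x : Pt n => x.1) (univ.filter fun x => p x.1) := by
  classical
  obtain ⟨Q, _, op, hop, hcard, S, hS, hcov⟩ := h
  have he : ∀ i : {i // p i}, Nonempty (Fin (n i.1) ≃ S i) := by
    intro i
    refine ⟨(Fintype.equivOfCardEq ?_)⟩
    have h1 : (S i).ncard = n i.1 := (hS i).2
    rw [Fintype.card_fin, ← h1, ← Nat.card_coe_set_eq, Nat.card_eq_fintype_card]
  let e : ∀ i : {i // p i}, Fin (n i.1) ≃ S i := fun i => (he i).some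
  let F : {x : Pt n // p x.1} → Q := fun x => (e ⟨x.1.1, x.2⟩ x.1.2).1
  have hF : ∀ (i : {i // p i}) (q : Q) (_ : q ∈ S i), ∃ t : Fin (n i.1), F ⟨⟨i.1, t⟩, i.2⟩ = q := by
    intro i q hq
    refine ⟨(e i).symm ⟨q, hq⟩, ?_⟩
    exact congrArg Subtype.val (Equiv.apply_symm_apply (e i) ⟨q, hq⟩)
  have hFS : ∀ x, F x ∈ S ⟨x.1.1, x.2⟩ := fun x => (e ⟨x.1.1, x.2⟩ x.1.2).2
  have hFs : Surjective F := by
    intro q
    have hq : q ∈ ⋃ i, S i := by rw [hcov]; trivial
    obtain ⟨i, hi⟩ := Set.mem_iUnion.1 hq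
    obtain ⟨t, ht⟩ := hF i q hi
    exact ⟨_, ht⟩
  have hFb : Bijective F := by
    rw [Fintype.bijective_iff_surjective_and_card]
    refine ⟨hFs, ?_⟩
    rw [hcard, Fintype.card_subtype, card_pt n p, ← Finset.sum_subtype_eq_sum_filter,
      Finset.subtype_univ]
  let E := Equiv.ofBijective F hFb
  refine ⟨fun x y => if h : p x.1 ∧ p y.1 then
    (E.symm (op (E ⟨x, h.1⟩) (E ⟨y, h.2⟩))).1 else x, ⟨?_, ?_, ?_⟩, ?_⟩
  · intro x hx y hy
    simp only [mem_filter, mem_univ, true_and] at hx hy ⊢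
    rw [dif_pos ⟨hx, hy⟩]
    exact (E.symm _).2
  · intro x hx y hy y' hy' h
    simp only [mem_filter, mem_univ, true_and] at hx hy hy'
    beta_reduce at h
    rw [dif_pos ⟨hx, hy⟩, dif_pos ⟨hx, hy'⟩] at h
    have h1 := E.symm.injective (Subtype.ext h)
    have h2 := (hop.1 (E ⟨x, hx⟩) (op (E ⟨x, hx⟩) (E ⟨y, hy⟩))).unique rfl h1.symm
    exact congrArg Subtype.val (E.injective h2)
  · intro y hy x hx x' hx' h
    simp only [mem_filter, mem_univ, true_and] at hx hy hx'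
    beta_reduce at h
    rw [dif_pos ⟨hx, hy⟩, dif_pos ⟨hx', hy⟩] at h
    have h1 := E.symm.injective (Subtype.ext h)
    have h2 := (hop.2 (E ⟨y, hy⟩) (op (E ⟨x, hx⟩) (E ⟨y, hy⟩))).unique rfl h1.symm
    exact congrArg Subtype.val (E.injective h2)
  · intro x hx y hy hxy
    simp only [mem_filter, mem_univ, true_and] at hx hy
    beta_reduce
    rw [dif_pos ⟨hx, hy⟩]
    obtain ⟨i, t⟩ := x
    obtain ⟨j, u⟩ := y
    simp only at hxy hx hy
    subst hxy
    set z := E.symm (op (E ⟨⟨i, t⟩, hx⟩) (E ⟨⟨i, u⟩, hy⟩)) with hz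
    have h1 : E z ∈ S ⟨i, hx⟩ := by
      rw [hz, Equiv.apply_symm_apply]
      exact (hS ⟨i, hx⟩).1.2 _ (hFS ⟨⟨i, t⟩, hx⟩) _ (hFS ⟨⟨i, u⟩, hy⟩)
    obtain ⟨w, hw⟩ := hF ⟨i, hx⟩ _ h1
    have h2 : (⟨⟨i, w⟩, hx⟩ : {x : Pt n // p x.1}) = z := E.injective hw
    rw [← h2]

end Pool.Agent.MP_dd827d_co
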