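import Pool.Agent.Lib.MP_dd827d_co.Hall

/-!
Rounding of real matrices with integral row and column sums.
-/

namespace Pool.Agent.MP_dd827d_co

open Finset Function

variable {U V : Type*} [Fintype U] [Fintype V] [DecidableEq U] [DecidableEq V]

omit [DecidableEq U] in
/-- A nonnegative real matrix with integral row and column sums has an integral companion with the
same sums and a smaller support. -/
theorem exists_nat_matrix (F : U → V → ℝ) (hF : ∀ u v, 0 ≤ F u v) (r : U → ℕ) (c : V → ℕ)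
    (hr : ∀ u, ∑ v, F u v = r u) (hc : ∀ v, ∑ u, F u v = c v) :
    ∃ X : U → V → ℕ, (∀ u, ∑ v, X u v = r u) ∧ (∀ v, ∑ u, X u v = c v) ∧
      ∀ u v, F u v = 0 → X u v = 0 := by
  classical
  have hcard : ∑ u, r u = ∑ v, c v := by
    have h1 : ((∑ u, r u : ℕ) : ℝ) = ((∑ v, c v : ℕ) : ℝ) := by
      push_cast
      rw [← Finset.sum_congr rfl fun u _ => hr u, ← Finset.sum_congr rfl fun v _ => hc v,
        Finset.sum_comm]
    exact_mod_cast h1
  let t : (Σ u, Fin (r u)) → Finset (Σ v, Fin (c v)) := fun x => univ.filter fun y => F x.1 y.1 ≠ 0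
  let G : (Σ u, Fin (r u)) → (Σ v, Fin (c v)) → ℝ := fun x y => F x.1 y.1 / (r x.1 * c y.1)
  have hG : ∀ x y, 0 ≤ G x y := fun x y => div_nonneg (hF _ _) (by positivity)
  have hrow : ∀ x, ∑ y, G x y = 1 := by
    rintro ⟨u, i⟩
    have hru : (0 : ℝ) < r u := by exact_mod_cast i.pos
    rw [Fintype.sum_sigma]
    have h1 : ∀ v, ∑ _j : Fin (c v), G ⟨u, i⟩ ⟨v, _j⟩ = F u v / r u := by
      intro v
      simp only [G, Finset.sum_const, Finset.card_univ, Fintype.card_fin, nsmul_eq_mul]
      rcases Nat.eq_zero_or_pos (c v) with h | h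
      · have h2 := hc v
        rw [h, Nat.cast_zero, Finset.sum_eq_zero_iff_of_nonneg (fun u _ => hF u v)] at h2
        rw [h, h2 u (mem_univ u)]
        simp
      · have h3 : (0 : ℝ) < c v := by exact_mod_cast h
        field_simp
    rw [Finset.sum_congr rfl fun v _ => h1 v, ← Finset.sum_div, hr, div_self hru.ne']
  have hcol : ∀ y, ∑ x, G x y = 1 := by
    rintro ⟨v, j⟩
    have hcv : (0 : ℝ) < c v := by exact_mod_cast j.pos
    rw [Fintype.sum_sigma]
    have h1 : ∀ u, ∑ _i : Fin (r u), G ⟨u, _i⟩ ⟨v, j⟩ = F u v / c v := by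
      intro u
      simp only [G, Finset.sum_const, Finset.card_univ, Fintype.card_fin, nsmul_eq_mul]
      rcases Nat.eq_zero_or_pos (r u) with h | h
      · have h2 := hr u
        rw [h, Nat.cast_zero, Finset.sum_eq_zero_iff_of_nonneg (fun v _ => hF u v)] at h2
        rw [h, h2 v (mem_univ v)]
        simp
      · have h3 : (0 : ℝ) < r u := by exact_mod_cast h
        field_simp
    rw [Finset.sum_congr rfl fun u _ => h1 u, ← Finset.sum_div, hc, div_self hcv.ne']
  have hall : ∀ s : Finset (Σ u, Fin (r u)), s.card ≤ (s.biUnion t).card := by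
    intro s
    have h1 : (s.card : ℝ) = ∑ x ∈ s, ∑ y ∈ s.biUnion t, G x y := by
      rw [← nsmul_one, ← Finset.sum_const]
      refine Finset.sum_congr rfl fun x hx => ?_
      rw [← hrow x]
      symm
      refine Finset.sum_subset (Finset.subset_univ _) fun y _ hy => ?_
      have : F x.1 y.1 = 0 := by
        by_contra h
        exact hy (Finset.mem_biUnion.2 ⟨x, hx, by simp [t, h]⟩)
      simp [G, this]
    have h2 : ∑ y ∈ s.biUnion t, ∑ x ∈ s, G x y ≤ ∑ y ∈ s.biUnion t, 1 := by
      refine Finset.sum_le_sum fun y _ => ?_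
      rw [← hcol y]
      exact Finset.sum_le_sum_of_subset_of_nonneg (Finset.subset_univ _) fun x _ _ => hG x y
    rw [Finset.sum_comm, ← h1, Finset.sum_const, nsmul_one] at h2
    exact_mod_cast h2
  obtain ⟨f, hf, hmem⟩ := (Finset.all_card_le_biUnion_card_iff_exists_injective t).1 hall
  have hbij : Bijective f := (Fintype.bijective_iff_injective_and_card f).2
    ⟨hf, by simp [Fintype.card_sigma, hcard]⟩
  refine ⟨fun u v => (univ.filter fun i : Fin (r u) => (f ⟨u, i⟩).1 = v).card, fun u => ?_,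
    fun v => ?_, fun u v h => ?_⟩
  · have := Finset.card_eq_sum_card_fiberwise (s := (univ : Finset (Fin (r u))))
      (t := (univ : Finset V)) (f := fun i => (f ⟨u, i⟩).1) (fun _ _ => by simp)
    simpa using this.symm
  · have h1 : ∑ u, (univ.filter fun i : Fin (r u) => (f ⟨u, i⟩).1 = v).card
        = (univ.filter fun z : (Σ u, Fin (r u)) => (f z).1 = v).card := by
      simp only [Finset.card_filter]
      rw [Fintype.sum_sigma]
    have h2 : (univ.filter fun z : (Σ u, Fin (r u)) => (f z).1 = v).card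
        = (univ.filter fun z : (Σ v, Fin (c v)) => z.1 = v).card := by
      refine Finset.card_bij (fun z _ => f z) (fun z hz => by simpa using hz)
        (fun a _ b _ hab => hf hab) (fun b hb => ?_)
      obtain ⟨a, rfl⟩ := hbij.2 b
      exact ⟨a, by simpa using hb, rfl⟩
    rw [h1, h2, Finset.card_filter, Fintype.sum_sigma, Finset.sum_eq_single v]
    · simp
    · intro b _ hb
      simp [hb]
    · simp
  · rw [Finset.card_eq_zero, Finset.filter_eq_empty_iff]
    intro i _ hi
    have := hmem ⟨u, i⟩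
    simp only [t, mem_filter, mem_univ, true_and, hi] at this
    exact this h

omit [DecidableEq V] [DecidableEq U] in
/-- Rounding: a real matrix with integral row and column sums can be rounded, each entry to its
floor or its ceiling, with the same row and column sums. -/
theorem exists_round (F : U → V → ℝ) (r : U → ℤ) (c : V → ℤ)
    (hr : ∀ u, ∑ v, F u v = r u) (hc : ∀ v, ∑ u, F u v = c v) :
    ∃ X : U → V → ℤ, (∀ u, ∑ v, X u v = r u) ∧ (∀ v, ∑ u, X u v = c v) ∧
      ∀ u v, ⌊F u v⌋ ≤ X u v ∧ X u v ≤ ⌈F u v⌉ := by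
  classical
  -- gadget
  let φ : U → V → ℝ := fun u v => Int.fract (F u v)
  have hφ0 : ∀ u v, 0 ≤ φ u v := fun u v => Int.fract_nonneg _
  have hφ1 : ∀ u v, φ u v < 1 := fun u v => Int.fract_lt_one _
  have hFφ : ∀ u v, F u v = ⌊F u v⌋ + φ u v := fun u v => (Int.floor_add_fract _).symm
  have hrφ : ∀ u, ∑ v, φ u v = ((r u - ∑ v, ⌊F u v⌋ : ℤ) : ℝ) := by
    intro u
    have h := hr u
    rw [Finset.sum_congr rfl fun v _ => hFφ u v, Finset.sum_add_distrib] at h
    push_cast
    linarith
  have hcφ : ∀ v, ∑ u, φ u v = ((c v - ∑ u, ⌊F u v⌋ : ℤ) : ℝ) := by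
    intro v
    have h := hc v
    rw [Finset.sum_congr rfl fun u _ => hFφ u v, Finset.sum_add_distrib] at h
    push_cast
    linarith
  have hr0 : ∀ u, 0 ≤ r u - ∑ v, ⌊F u v⌋ := by
    intro u
    have h : (0 : ℝ) ≤ ((r u - ∑ v, ⌊F u v⌋ : ℤ) : ℝ) := by
      rw [← hrφ]; exact Finset.sum_nonneg fun v _ => hφ0 u v
    exact_mod_cast h
  have hc0 : ∀ v, 0 ≤ c v - ∑ u, ⌊F u v⌋ := by
    intro v
    have h : (0 : ℝ) ≤ ((c v - ∑ u, ⌊F u v⌋ : ℤ) : ℝ) := by
      rw [← hcφ]; exact Finset.sum_nonneg fun u _ => hφ0 u v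
    exact_mod_cast h
  have hr1 : ∀ u, r u - ∑ v, ⌊F u v⌋ ≤ Fintype.card V := by
    intro u
    have h : ((r u - ∑ v, ⌊F u v⌋ : ℤ) : ℝ) ≤ ((Fintype.card V : ℤ) : ℝ) := by
      rw [← hrφ]
      calc ∑ v, φ u v ≤ ∑ _v : V, (1 : ℝ) := Finset.sum_le_sum fun v _ => (hφ1 u v).le
        _ = _ := by simp
    exact_mod_cast h
  -- rows = cells, columns = V ⊕ U
  let M : U × V → V ⊕ U → ℝ := fun p => Sum.elim (fun v => if v = p.2 then φ p.1 p.2 else 0)
    (fun u => if u = p.1 then 1 - φ p.1 p.2 else 0)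
  obtain ⟨X, hX1, hX2, hX3⟩ := exists_nat_matrix M (by
      rintro ⟨u, v⟩ (v' | u')
      · simp only [M, Sum.elim_inl]
        split_ifs
        · exact hφ0 _ _
        · exact le_rfl
      · simp only [M, Sum.elim_inr]
        split_ifs
        · have := hφ1 u v; linarith
        · exact le_rfl)
    (fun _ => 1)
    (Sum.elim (fun v => (c v - ∑ u, ⌊F u v⌋).toNat)
      (fun u => (Fintype.card V - (r u - ∑ v, ⌊F u v⌋)).toNat))
    (by
      rintro ⟨u, v⟩
      rw [Fintype.sum_sum_type]
      simp [M])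
    (by
      rintro (v | u)
      · rw [Fintype.sum_prod_type]
        simp only [M, Sum.elim_inl, Finset.sum_ite_eq, mem_univ, if_true]
        rw [hcφ]
        have := Int.toNat_of_nonneg (hc0 v)
        exact_mod_cast this.symm
      · rw [Fintype.sum_prod_type]
        simp only [M, Sum.elim_inr]
        rw [Finset.sum_eq_single u]
        · simp only [if_true, Finset.sum_sub_distrib, hrφ]
          have := Int.toNat_of_nonneg (sub_nonneg.2 (hr1 u))
          have h2 : (((Fintype.card V - (r u - ∑ v, ⌊F u v⌋)).toNat : ℤ) : ℝ) =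
            (((Fintype.card V : ℤ) - (r u - ∑ v, ⌊F u v⌋) : ℤ) : ℝ) := by rw [this]
          rw [Int.cast_natCast] at h2
          rw [h2]
          simp
        · intro u' _ hu'
          simp [Ne.symm hu']
        · simp)
  -- facts about X
  have hz1 : ∀ u v v', v' ≠ v → X (u, v) (Sum.inl v') = 0 := fun u v v' h =>
    hX3 _ _ (by simp [M, h])
  have hz2 : ∀ u v u', u' ≠ u → X (u, v) (Sum.inr u') = 0 := fun u v u' h =>
    hX3 _ _ (by simp [M, h])
  have hX1' : ∀ u v, X (u, v) (Sum.inl v) + X (u, v) (Sum.inr u) = 1 := by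
    intro u v
    have h := hX1 (u, v)
    rw [Fintype.sum_sum_type, Finset.sum_eq_single v (fun v' _ h => hz1 u v v' h) (by simp),
      Finset.sum_eq_single u (fun u' _ h => hz2 u v u' h) (by simp)] at h
    exact h
  have hXc : ∀ v, ((∑ u, X (u, v) (Sum.inl v) : ℕ) : ℤ) = c v - ∑ u, ⌊F u v⌋ := by
    intro v
    have h := hX2 (Sum.inl v)
    rw [Fintype.sum_prod_type] at h
    have h2 : ∀ u, ∑ v', X (u, v') (Sum.inl v) = X (u, v) (Sum.inl v) := fun u =>
      Finset.sum_eq_single v (fun v' _ h => hz1 u v' v (Ne.symm h)) (by simp)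
    rw [Finset.sum_congr rfl fun u _ => h2 u] at h
    rw [h, Sum.elim_inl]
    exact Int.toNat_of_nonneg (hc0 v)
  have hXr : ∀ u, ((∑ v, X (u, v) (Sum.inl v) : ℕ) : ℤ) = r u - ∑ v, ⌊F u v⌋ := by
    intro u
    have h := hX2 (Sum.inr u)
    rw [Fintype.sum_prod_type, Finset.sum_eq_single u
      (fun u' _ h => Finset.sum_eq_zero fun v _ => hz2 u' v u (Ne.symm h)) (by simp)] at h
    have h2 : ∑ v, X (u, v) (Sum.inl v) + ∑ v, X (u, v) (Sum.inr u) = Fintype.card V := by
      rw [← Finset.sum_add_distrib, Finset.sum_congr rfl fun v _ => hX1' u v]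
      simp
    have h3 := Int.toNat_of_nonneg (sub_nonneg.2 (hr1 u))
    simp only [Sum.elim_inr] at h
    rw [← h] at h3
    have h4 : ((∑ v, X (u, v) (Sum.inl v) : ℕ) : ℤ) + ((∑ v, X (u, v) (Sum.inr u) : ℕ) : ℤ) =
      (Fintype.card V : ℤ) := by exact_mod_cast h2
    linarith
  refine ⟨fun u v => ⌊F u v⌋ + X (u, v) (Sum.inl v), fun u => ?_, fun v => ?_, fun u v => ⟨?_, ?_⟩⟩
  · rw [Finset.sum_add_distrib]
    have := hXr u
    push_cast at this
    linarith
  · rw [Finset.sum_add_distrib]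
    have := hXc v
    push_cast at this
    linarith
  · have : (0 : ℤ) ≤ X (u, v) (Sum.inl v) := Int.natCast_nonneg _
    linarith
  · beta_reduce
    by_cases h : φ u v = 0
    · rw [hX3 (u, v) (Sum.inl v) (by simp [M, h])]
      simp only [Nat.cast_zero, add_zero]
      exact Int.floor_le_ceil _
    · have h1 : (X (u, v) (Sum.inl v) : ℤ) ≤ 1 := by
        have := hX1' u v
        omega
      have h2 : ⌊F u v⌋ + 1 ≤ ⌈F u v⌉ := by
        refine Int.add_one_le_iff.2 (Int.lt_ceil.2 ?_)
        have : 0 < φ u v := lt_of_le_of_ne (hφ0 u v) (Ne.symm h)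
        have := hFφ u v
        linarith
      linarith

end Pool.Agent.MP_dd827d_co
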