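import Pool.Agent.Lib.MP_dd827d_co.Outline

/-!
Rounding of a real outline with slack to an integral outline.
-/

namespace Pool.Agent.MP_dd827d_co

open Finset Function

variable {J : Type*} [Fintype J] [DecidableEq J]

/-- indicator difference -/
def dif (s t j : J) : ℝ := (if j = s then 1 else 0) - if j = t then 1 else 0

omit [Fintype J] in
theorem dif_left {s t : J} (h : s ≠ t) : dif s t s = 1 := by simp [dif, h]

omit [Fintype J] in
theorem dif_zero {s t j : J} (h : j ≠ s) (h' : j ≠ t) : dif s t j = 0 := by simp [dif, h, h']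

theorem sum_dif (s t : J) : ∑ j, dif s t j = 0 := by simp [dif]

omit [Fintype J] in
theorem abs_dif_le (s t j : J) : |dif s t j| ≤ 1 := by
  unfold dif
  split_ifs <;> norm_num

omit [Fintype J] in
theorem abs_dif_add {s t s' t' : J} (h1 : s ≠ s') (h2 : s ≠ t') (h3 : t ≠ s') (h4 : t ≠ t')
    (j : J) : |dif s t j| + |dif s' t' j| ≤ 1 := by
  by_cases hs : j = s
  · subst hs
    rw [dif_zero h1 h2, abs_zero, add_zero]
    exact abs_dif_le _ _ _
  · by_cases ht : j = t
    · subst ht
      rw [dif_zero h3 h4, abs_zero, add_zero]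
      exact abs_dif_le _ _ _
    · rw [dif_zero hs ht, abs_zero, zero_add]
      exact abs_dif_le _ _ _

/-- Rounding of one slice with two prescribed entries. -/
theorem slice (i p q j0 l0 : J) (hip : i ≠ p) (hiq : i ≠ q) (hpq : p ≠ q) (hij : i ≠ j0)
    (hil : i ≠ l0) (hjl : j0 ≠ l0) (hpj : p ≠ j0) (hpl : p ≠ l0) (hqj : q ≠ j0) (hql : q ≠ l0)
    (Y : J → J → ℝ) (n : J → ℕ)
    (hY1 : ∀ l, Y i l = 0) (hY2 : ∀ j, Y j i = 0) (hYd : ∀ j, Y j j = 0)
    (hrow : ∀ j, j ≠ i → ∑ l, Y j l = n i * n j) (hcol : ∀ l, l ≠ i → ∑ j, Y j l = n i * n l)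
    (a b : ℤ) (ha : |(a : ℝ) - Y p q| < 1) (hb : |(b : ℝ) - Y q p| < 1) :
    ∃ M : J → J → ℤ, (∀ l, M i l = 0) ∧ (∀ j, M j i = 0) ∧ (∀ j, M j j = 0) ∧
      (∀ j, j ≠ i → ∑ l, M j l = n i * n j) ∧ (∀ l, l ≠ i → ∑ j, M j l = n i * n l) ∧
      M p q = a ∧ M q p = b ∧ ∀ j l, |(M j l : ℝ) - Y j l| < 2 := by
  let Z : J → J → ℝ := fun j l => Y j l + (a - Y p q) * (dif p j0 j * dif q l0 l) +
    (b - Y q p) * (dif q l0 j * dif p j0 l)
  have hZr : ∀ j, ∑ l, Z j l = ∑ l, Y j l := by
    intro j
    simp only [Z, Finset.sum_add_distrib, ← Finset.mul_sum, sum_dif]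
    ring
  have hZc : ∀ l, ∑ j, Z j l = ∑ j, Y j l := by
    intro l
    simp only [Z, Finset.sum_add_distrib, ← Finset.mul_sum, ← Finset.sum_mul, sum_dif]
    ring
  have hZi1 : ∀ l, Z i l = 0 := by
    intro l
    simp only [Z, hY1, dif_zero hip hij, dif_zero hiq hil]
    ring
  have hZi2 : ∀ j, Z j i = 0 := by
    intro j
    simp only [Z, hY2, dif_zero hip hij, dif_zero hiq hil]
    ring
  have hZd : ∀ j, Z j j = 0 := by
    intro j
    simp only [Z, hYd]
    by_cases h1 : j = p
    · subst h1
      rw [dif_zero hpq hpl]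
      ring
    · by_cases h2 : j = j0
      · subst h2
        rw [dif_zero hqj.symm hjl]
        ring
      · rw [dif_zero h1 h2]
        ring
  have hZpq : Z p q = a := by
    simp only [Z]
    rw [dif_left hpj, dif_left hql, dif_zero hpq hpl]
    ring
  have hZqp : Z q p = b := by
    simp only [Z]
    rw [dif_left hpj, dif_left hql, dif_zero hpq.symm hqj]
    ring
  have hZY : ∀ j l, |Z j l - Y j l| ≤ 1 := by
    intro j l
    have e : Z j l - Y j l = (a - Y p q) * (dif p j0 j * dif q l0 l) +
      (b - Y q p) * (dif q l0 j * dif p j0 l) := by simp only [Z]; ring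
    rw [e]
    refine (abs_add_le _ _).trans ?_
    rw [abs_mul, abs_mul, abs_mul, abs_mul]
    have h1 := abs_dif_add hpq hpl hqj.symm hjl j
    have h2 := abs_dif_le q l0 l
    have h3 := abs_dif_le p j0 l
    have h4 := abs_nonneg (dif p j0 j)
    have h5 := abs_nonneg (dif q l0 j)
    have h6 := abs_nonneg (dif q l0 l)
    have h7 := abs_nonneg (dif p j0 l)
    have h8 : |(a : ℝ) - Y p q| * (|dif p j0 j| * |dif q l0 l|) ≤ |dif p j0 j| := by
      calc _ ≤ 1 * (|dif p j0 j| * 1) := by gcongr
        _ = _ := by ring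
    have h9 : |(b : ℝ) - Y q p| * (|dif q l0 j| * |dif p j0 l|) ≤ |dif q l0 j| := by
      calc _ ≤ 1 * (|dif q l0 j| * 1) := by gcongr
        _ = _ := by ring
    linarith
  obtain ⟨M, hM1, hM2, hM3⟩ := exists_round Z (fun j => if j = i then 0 else n i * n j)
    (fun l => if l = i then 0 else n i * n l) (by
      intro j
      split_ifs with h
      · subst h
        simp [hZi1]
      · rw [hZr, hrow j h]
        push_cast
        ring) (by
      intro l
      split_ifs with h
      · subst h
        simp [hZi2]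
      · rw [hZc, hcol l h]
        push_cast
        ring)
  have hM0 : ∀ j l (z : ℤ), Z j l = z → M j l = z := by
    intro j l z h
    have := hM3 j l
    rw [h, Int.floor_intCast, Int.ceil_intCast] at this
    omega
  refine ⟨M, fun l => hM0 _ _ 0 (by simp [hZi1]), fun j => hM0 _ _ 0 (by simp [hZi2]),
    fun j => hM0 _ _ 0 (by simp [hZd]), fun j hj => ?_, fun l hl => ?_, hM0 _ _ a hZpq,
    hM0 _ _ b hZqp, fun j l => ?_⟩
  · rw [hM1, if_neg hj]
  · rw [hM2, if_neg hl]
  · have h1 := hM3 j l
    have h2 : (M j l : ℝ) - Z j l < 1 := by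
      have h3 : M j l - 1 < ⌈Z j l⌉ := by linarith [h1.2]
      rw [Int.lt_ceil] at h3
      push_cast at h3
      linarith
    have h4 : -1 < (M j l : ℝ) - Z j l := by
      have h3 : ⌊Z j l⌋ < M j l + 1 := by linarith [h1.1]
      rw [Int.floor_lt] at h3
      push_cast at h3
      linarith
    have h5 := abs_le.1 (hZY j l)
    rw [abs_lt]
    constructor <;> linarith

omit [DecidableEq J] in
/-- Rounding of a vector. -/
theorem round1 (F : J → ℝ) (z : ℤ) (h : ∑ i, F i = z) :
    ∃ a : J → ℤ, ∑ i, a i = z ∧ ∀ i, |(a i : ℝ) - F i| < 1 := by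
  classical
  obtain ⟨X, hX1, -, hX3⟩ := exists_round (U := Bool) (V := J)
    (fun t i => if t then F i else - F i) (fun t => if t then z else -z) (fun _ => 0)
    (by
      rintro (_ | _)
      · simp [h]
      · simp [h])
    (by intro i; simp)
  refine ⟨X true, by simpa using hX1 true, fun i => ?_⟩
  have h1 := hX3 true i
  simp only [if_true] at h1
  have h2 : (X true i : ℝ) - F i < 1 := by
    have h3 : X true i - 1 < ⌈F i⌉ := by linarith [h1.2]
    rw [Int.lt_ceil] at h3
    push_cast at h3
    linarith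
  have h4 : -1 < (X true i : ℝ) - F i := by
    have h3 : ⌊F i⌋ < X true i + 1 := by linarith [h1.1]
    rw [Int.floor_lt] at h3
    push_cast at h3
    linarith
  exact abs_lt.2 ⟨h4, h2⟩

theorem sum_split_two {β : Type*} [AddCommMonoid β] {p q : J} (hpq : p ≠ q) (f : J → β) :
    ∑ i, f i = f p + f q + ∑ i ∈ univ.filter (fun i => i ≠ p ∧ i ≠ q), f i := by
  rw [← Finset.sum_pair hpq, ← Finset.sum_filter_add_sum_filter_not univ
    (fun i => i ∈ ({p, q} : Finset J))]
  congr 1
  · refine Finset.sum_congr ?_ fun _ _ => rfl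
    ext i; simp
  · refine Finset.sum_congr ?_ fun _ _ => rfl
    ext i; simp

omit [DecidableEq J] in
theorem isOutline_toNat {n : J → ℕ} {x : J → J → J → ℤ}
    (hx : IsOutline (fun a => (n a : ℤ)) x) (h0 : ∀ a b c, 0 ≤ x a b c) :
    IsOutline n fun a b c => (x a b c).toNat := by
  have hc : ∀ a b c, (((x a b c).toNat : ℕ) : ℤ) = x a b c := fun a b c =>
    Int.toNat_of_nonneg (h0 a b c)
  refine ⟨fun a c => by simp [hx.off12], fun a b => by simp [hx.off23],
    fun a b => by simp [hx.off13], fun a b h => ?_, fun a c h => ?_, fun b c h => ?_⟩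
  · have h1 := hx.s3 a b h
    rw [← Finset.sum_congr rfl fun c _ => hc a b c] at h1
    exact_mod_cast h1
  · have h1 := hx.s2 a c h
    rw [← Finset.sum_congr rfl fun b _ => hc a b c] at h1
    exact_mod_cast h1
  · have h1 := hx.s1 b c h
    rw [← Finset.sum_congr rfl fun a _ => hc a b c] at h1
    exact_mod_cast h1

/-- **Rounding theorem**: a real outline with slack `2 |J| + 9` on distinct triples is close to an
integral outline. -/
theorem round3 (hJ : 5 ≤ Fintype.card J) (n : J → ℕ) (y : J → J → J → ℝ)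
    (hy : IsOutline (fun a => (n a : ℝ)) y)
    (hs : ∀ a b c, a ≠ b → b ≠ c → a ≠ c → 2 * (Fintype.card J : ℝ) + 9 ≤ y a b c) :
    ∃ x : J → J → J → ℕ, IsOutline n x ∧
      ∀ a b c, a ≠ b → b ≠ c → a ≠ c → y a b c - (2 * Fintype.card J + 9) ≤ x a b c := by
  classical
  obtain ⟨p, q, hpq⟩ := Fintype.one_lt_card_iff.1 (by omega : 1 < Fintype.card J)
  set C : Finset J := univ.filter (fun i => i ≠ p ∧ i ≠ q) with hC
  have hmC : ∀ i, i ∈ C ↔ i ≠ p ∧ i ≠ q := fun i => by simp [hC]
  have hpC : p ∉ C := by simp [hC]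
  have hqC : q ∉ C := by simp [hC]
  have hsR : ∀ f : J → ℝ, ∑ i, f i = f p + f q + ∑ i ∈ C, f i := fun f => sum_split_two hpq f
  have hsZ : ∀ f : J → ℤ, ∑ i, f i = f p + f q + ∑ i ∈ C, f i := fun f => sum_split_two hpq f
  have hcardC : Fintype.card J = C.card + 2 := by
    have := sum_split_two hpq (fun _ : J => (1 : ℕ))
    simp only [Finset.sum_const, Finset.card_univ, smul_eq_mul, mul_one] at this
    rw [this, ← hC]
    omega
  -- the entries (p, q) and (q, p) of the slices
  obtain ⟨a, ha1, ha2⟩ := round1 (fun i => y i p q) (n p * n q)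
    (by push_cast; exact hy.s1 p q hpq)
  obtain ⟨b, hb1, hb2⟩ := round1 (fun i => y i q p) (n q * n p)
    (by push_cast; exact hy.s1 q p hpq.symm)
  have hzero : ∀ z : ℤ, |(z : ℝ)| < 1 → z = 0 := by
    intro z hz
    have : |z| < 1 := by exact_mod_cast hz
    exact Int.abs_lt_one_iff.1 this
  have hap : a p = 0 := hzero _ (by have := ha2 p; simpa [hy.off12] using this)
  have haq : a q = 0 := hzero _ (by have := ha2 q; simpa [hy.off13] using this)
  have hbp : b p = 0 := hzero _ (by have := hb2 p; simpa [hy.off13] using this)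
  have hbq : b q = 0 := hzero _ (by have := hb2 q; simpa [hy.off12] using this)
  -- the slices
  have hM : ∀ i, ∃ M : J → J → ℤ, i ∈ C → (∀ l, M i l = 0) ∧ (∀ j, M j i = 0) ∧
      (∀ j, M j j = 0) ∧ (∀ j, j ≠ i → ∑ l, M j l = n i * n j) ∧
      (∀ l, l ≠ i → ∑ j, M j l = n i * n l) ∧
      M p q = a i ∧ M q p = b i ∧ ∀ j l, |(M j l : ℝ) - y i j l| < 2 := by
    intro i
    by_cases hi : i ∈ C
    · obtain ⟨hip, hiq⟩ := (hmC i).1 hi
      have h2 : 1 < (C.erase i).card := by rw [Finset.card_erase_of_mem hi]; omega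
      obtain ⟨j0, hj0, l0, hl0, hjl⟩ := Finset.one_lt_card.1 h2
      rw [Finset.mem_erase, hmC] at hj0 hl0
      obtain ⟨M, h⟩ := slice i p q j0 l0 hip hiq hpq hj0.1.symm hl0.1.symm hjl hj0.2.1.symm
        hl0.2.1.symm hj0.2.2.symm hl0.2.2.symm (y i) n (hy.off12 i) (fun j => hy.off13 i j)
        (fun j => hy.off23 i j) (fun j hj => hy.s3 i j hj.symm) (fun l hl => hy.s2 i l hl.symm)
        (a i) (b i) (ha2 i) (hb2 i)
      exact ⟨M, fun _ => h⟩
    · exact ⟨0, fun h => absurd h hi⟩
  choose M hM using hM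
  -- the error and the rest
  let E : J → J → ℝ := fun j l => ∑ i ∈ C, ((M i j l : ℝ) - y i j l)
  let R : J → J → ℤ := fun j l => if j = l then 0 else n j * n l - ∑ i ∈ C, M i j l
  have hEd : ∀ j, E j j = 0 := by
    intro j
    refine Finset.sum_eq_zero fun i hi => ?_
    rw [(hM i hi).2.2.1 j, hy.off23]
    simp
  have hR : ∀ j l, (R j l : ℝ) = y p j l + y q j l - E j l := by
    intro j l
    by_cases h : j = l
    · subst h
      rw [hEd]
      simp [R, hy.off23]
    · simp only [R, if_neg h, E]
      push_cast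
      have h1 : (n j : ℝ) * n l = _ := (hy.s1 j l h).symm
      rw [h1, hsR, Finset.sum_sub_distrib]
      ring
  have hEpq : E p q = 0 := by
    have h1 : E p q = ∑ i ∈ C, (a i : ℝ) - ∑ i ∈ C, y i p q := by
      simp only [E, Finset.sum_sub_distrib]
      congr 1
      exact Finset.sum_congr rfl fun i hi => by rw [(hM i hi).2.2.2.2.2.1]
    have h2 := hsZ a
    rw [ha1, hap, haq] at h2
    have h3 := hsR fun i => y i p q
    have h4 : ∑ i, y i p q = n p * n q := hy.s1 p q hpq
    rw [h4, hy.off12, hy.off13] at h3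
    have h5 : ((n p * n q : ℤ) : ℝ) = ((0 + 0 + ∑ i ∈ C, a i : ℤ) : ℝ) := by rw [h2]
    push_cast at h5
    rw [h1]
    linarith
  have hEqp : E q p = 0 := by
    have h1 : E q p = ∑ i ∈ C, (b i : ℝ) - ∑ i ∈ C, y i q p := by
      simp only [E, Finset.sum_sub_distrib]
      congr 1
      exact Finset.sum_congr rfl fun i hi => by rw [(hM i hi).2.2.2.2.2.2.1]
    have h2 := hsZ b
    rw [hb1, hbp, hbq] at h2
    have h3 := hsR fun i => y i q p
    have h4 : ∑ i, y i q p = n q * n p := hy.s1 q p hpq.symm
    rw [h4, hy.off12, hy.off13] at h3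
    have h5 : ((n q * n p : ℤ) : ℝ) = ((0 + 0 + ∑ i ∈ C, b i : ℤ) : ℝ) := by rw [h2]
    push_cast at h5
    rw [h1]
    linarith
  have hRpq : R p q = 0 := by
    have := hR p q
    rw [hEpq, hy.off12, hy.off13] at this
    simpa using this
  have hRqp : R q p = 0 := by
    have := hR q p
    rw [hEqp, hy.off12, hy.off13] at this
    simpa using this
  have hRd : ∀ j, R j j = 0 := fun j => by simp [R]
  have hRrow : ∀ j, ∑ l, R j l = n j * ∑ l, (n l : ℤ) - n j * n j -
      ∑ i ∈ C, ∑ l, M i j l := by
    intro j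
    have h1 : ∀ l, R j l = (n j * n l - ∑ i ∈ C, M i j l) - if j = l then (n j : ℤ) * n j else 0 := by
      intro l
      by_cases h : j = l
      · subst h
        simp only [R, if_true]
        rw [Finset.sum_eq_zero fun i hi => (hM i hi).2.2.1 j]
        ring
      · simp [R, h]
    rw [Finset.sum_congr rfl fun l _ => h1 l, Finset.sum_sub_distrib, Finset.sum_sub_distrib,
      Finset.sum_comm, ← Finset.mul_sum]
    simp
    ring
  have hRcol : ∀ l, ∑ j, R j l = n l * ∑ j, (n j : ℤ) - n l * n l -
      ∑ i ∈ C, ∑ j, M i j l := by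
    intro l
    have h1 : ∀ j, R j l = (n l * n j - ∑ i ∈ C, M i j l) - if l = j then (n l : ℤ) * n l else 0 := by
      intro j
      by_cases h : j = l
      · subst h
        simp only [R, if_true]
        rw [Finset.sum_eq_zero fun i hi => (hM i hi).2.2.1 j]
        ring
      · simp [R, h, Ne.symm h, mul_comm]
    rw [Finset.sum_congr rfl fun l _ => h1 l, Finset.sum_sub_distrib, Finset.sum_sub_distrib,
      Finset.sum_comm, ← Finset.mul_sum]
    simp
    ring
  -- row sums of `R`
  have hR1 : ∀ j, j ∈ C → ∑ l, R j l = n j * (n p + n q) := by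
    intro j hj
    have h1 : ∑ i ∈ C, ∑ l, M i j l = ∑ i ∈ C, ((n i : ℤ) * n j - if i = j then (n j : ℤ) * n j
        else 0) := by
      refine Finset.sum_congr rfl fun i hi => ?_
      by_cases h : i = j
      · subst h
        rw [Finset.sum_eq_zero fun l _ => (hM i hi).1 l]
        simp
      · rw [(hM i hi).2.2.2.1 j (Ne.symm h), if_neg h, sub_zero]
    rw [hRrow, h1, Finset.sum_sub_distrib, Finset.sum_ite_eq', if_pos hj, ← Finset.sum_mul,
      hsZ fun l => (n l : ℤ)]
    ring
  have hR1' : ∀ l, l ∈ C → ∑ j, R j l = n l * (n p + n q) := by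
    intro j hj
    have h1 : ∑ i ∈ C, ∑ l, M i l j = ∑ i ∈ C, ((n i : ℤ) * n j - if i = j then (n j : ℤ) * n j
        else 0) := by
      refine Finset.sum_congr rfl fun i hi => ?_
      by_cases h : i = j
      · subst h
        rw [Finset.sum_eq_zero fun l _ => (hM i hi).2.1 l]
        simp
      · rw [(hM i hi).2.2.2.2.1 j (Ne.symm h), if_neg h, sub_zero]
    rw [hRcol, h1, Finset.sum_sub_distrib, Finset.sum_ite_eq', if_pos hj, ← Finset.sum_mul,
      hsZ fun l => (n l : ℤ)]
    ring
  have hR2 : ∀ j, j = p ∨ j = q → ∑ l, R j l = n p * n q := by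
    intro j hj
    have h1 : ∑ i ∈ C, ∑ l, M i j l = ∑ i ∈ C, ((n i : ℤ) * n j) := by
      refine Finset.sum_congr rfl fun i hi => ?_
      refine (hM i hi).2.2.2.1 j ?_
      rintro rfl
      rcases hj with rfl | rfl
      · exact hpC hi
      · exact hqC hi
    rw [hRrow, h1, ← Finset.sum_mul, hsZ fun l => (n l : ℤ)]
    rcases hj with rfl | rfl <;> ring
  have hR2' : ∀ l, l = p ∨ l = q → ∑ j, R j l = n p * n q := by
    intro j hj
    have h1 : ∑ i ∈ C, ∑ l, M i l j = ∑ i ∈ C, ((n i : ℤ) * n j) := by
      refine Finset.sum_congr rfl fun i hi => ?_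
      refine (hM i hi).2.2.2.2.1 j ?_
      rintro rfl
      rcases hj with rfl | rfl
      · exact hpC hi
      · exact hqC hi
    rw [hRcol, h1, ← Finset.sum_mul, hsZ fun l => (n l : ℤ)]
    rcases hj with rfl | rfl <;> ring
  -- bounds on `E`
  have hEb : ∀ j l, |E j l| ≤ 2 * (C.card : ℝ) := by
    intro j l
    calc |E j l| ≤ ∑ i ∈ C, |(M i j l : ℝ) - y i j l| := Finset.abs_sum_le_sum_abs _ _
      _ ≤ ∑ _i ∈ C, (2 : ℝ) := Finset.sum_le_sum fun i hi => ((hM i hi).2.2.2.2.2.2.2 j l).le
      _ = _ := by rw [Finset.sum_const, nsmul_eq_mul]; ring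
  have hρ : ∑ j ∈ C, E j q = 0 := by
    have h1 : ∑ j, E j q = 0 := by
      simp only [E]
      rw [Finset.sum_comm]
      refine Finset.sum_eq_zero fun i hi => ?_
      have hne : q ≠ i := fun h => hqC (h ▸ hi)
      have h2 := (hM i hi).2.2.2.2.1 q hne
      have h3 : ∑ j, y i j q = n i * n q := hy.s2 i q hne.symm
      have h4 : ((∑ j, M i j q : ℤ) : ℝ) = ((n i * n q : ℤ) : ℝ) := by rw [h2]
      push_cast at h4
      rw [Finset.sum_sub_distrib, h4, h3]
      ring
    have h5 := hsR fun j => E j q
    rw [h1, hEpq, hEd] at h5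
    linarith
  have hγ : ∑ l ∈ C, E q l = 0 := by
    have h1 : ∑ l, E q l = 0 := by
      simp only [E]
      rw [Finset.sum_comm]
      refine Finset.sum_eq_zero fun i hi => ?_
      have hne : q ≠ i := fun h => hqC (h ▸ hi)
      have h2 := (hM i hi).2.2.2.1 q hne
      have h3 : ∑ l, y i q l = n i * n q := hy.s3 i q hne.symm
      have h4 : ((∑ l, M i q l : ℤ) : ℝ) = ((n i * n q : ℤ) : ℝ) := by rw [h2]
      push_cast at h4
      rw [Finset.sum_sub_distrib, h4, h3]
      ring
    have h5 := hsR fun l => E q l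
    rw [h1, hEqp, hEd] at h5
    linarith
  have hN : (3 : ℝ) ≤ C.card := by
    have : 3 ≤ C.card := by omega
    exact_mod_cast this
  set N : ℝ := (C.card : ℝ) with hNdef
  have hN0 : N ≠ 0 := by linarith
  have hN2 : N - 2 ≠ 0 := by
    intro h
    linarith
  set α : ℝ := (N - 1) / (N * (N - 2)) with hα
  set β : ℝ := 1 / (N * (N - 2)) with hβ
  have hα1 : N * α - α - β = 1 := by
    rw [hα, hβ]
    field_simp
    ring
  have hβ1 : N * β - β - α = 0 := by
    rw [hα, hβ]
    field_simp
    ring
  have hαβ : α + β = 1 / (N - 2) := by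
    rw [hα, hβ]
    field_simp
    ring
  have hα0 : 0 ≤ α := div_nonneg (by linarith) (mul_nonneg (by linarith) (by linarith))
  have hβ0 : 0 ≤ β := div_nonneg (by linarith) (mul_nonneg (by linarith) (by linarith))
  let g : J → J → ℝ := fun j l => α * (E j q + E q l) + β * (E l q + E q j)
  have hgb : ∀ j l, |g j l| ≤ 12 := by
    intro j l
    have h1 := abs_le.1 (hEb j q)
    have h2 := abs_le.1 (hEb q l)
    have h3 := abs_le.1 (hEb l q)
    have h4 := abs_le.1 (hEb q j)
    have h5 : (α + β) * (4 * N) ≤ 12 := by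
      rw [hαβ, one_div_mul_eq_div, div_le_iff₀ (by linarith)]
      linarith
    rw [abs_le]
    constructor
    · have : -((α + β) * (4 * N)) ≤ g j l := by
        have e : -((α + β) * (4 * N)) = α * (-(2 * N) + -(2 * N)) + β * (-(2 * N) + -(2 * N)) := by
          ring
        rw [e]
        exact add_le_add (mul_le_mul_of_nonneg_left (add_le_add h1.1 h2.1) hα0)
          (mul_le_mul_of_nonneg_left (add_le_add h3.1 h4.1) hβ0)
      linarith
    · have : g j l ≤ (α + β) * (4 * N) := by
        have e : (α + β) * (4 * N) = α * (2 * N + 2 * N) + β * (2 * N + 2 * N) := by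
          ring
        rw [e]
        exact add_le_add (mul_le_mul_of_nonneg_left (add_le_add h1.2 h2.2) hα0)
          (mul_le_mul_of_nonneg_left (add_le_add h3.2 h4.2) hβ0)
      linarith
  let Z' : J → J → ℝ := fun j l => if j ∈ C ∧ l ∈ C then
    y p j l + g j l - (if j = l then g j j else 0) else 0
  have hZ'r : ∀ j, ∑ l, Z' j l = ((if j ∈ C then n p * n j - R j q else 0 : ℤ) : ℝ) := by
    intro j
    by_cases hj : j ∈ C
    · rw [if_pos hj, hsR]
      have h1 : Z' j p = 0 := if_neg fun h => hpC h.2
      have h2 : Z' j q = 0 := if_neg fun h => hqC h.2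
      have h3 : ∑ l ∈ C, Z' j l = ∑ l ∈ C, y p j l + ∑ l ∈ C, g j l - g j j := by
        rw [Finset.sum_congr rfl fun l hl => if_pos ⟨hj, hl⟩, Finset.sum_sub_distrib,
          Finset.sum_add_distrib, Finset.sum_ite_eq, if_pos hj]
      have h4 : ∑ l ∈ C, y p j l = n p * n j - y p j q := by
        have h5 := hsR fun l => y p j l
        have h6 : ∑ l, y p j l = n p * n j := hy.s3 p j fun h => hpC (h ▸ hj)
        rw [h6, hy.off13] at h5
        linarith
      have h7 : ∑ l ∈ C, g j l = N * α * E j q + N * β * E q j := by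
        simp only [g, mul_add, Finset.sum_add_distrib, Finset.sum_const, nsmul_eq_mul,
          ← Finset.mul_sum, hρ, hγ]
        ring
      have h8 := hR j q
      rw [hy.off13] at h8
      push_cast
      rw [h1, h2, h3, h4, h7, h8]
      simp only [g]
      have e : N * α * E j q + N * β * E q j - (α * (E j q + E q j) + β * (E j q + E q j)) =
        (N * α - α - β) * E j q + (N * β - β - α) * E q j := by ring
      rw [hα1, hβ1] at e
      linarith
    · rw [if_neg hj, Finset.sum_eq_zero fun l _ => if_neg fun h => hj h.1]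
      simp
  have hZ'c : ∀ l, ∑ j, Z' j l = ((if l ∈ C then n p * n l - R q l else 0 : ℤ) : ℝ) := by
    intro l
    by_cases hl : l ∈ C
    · rw [if_pos hl, hsR]
      have h1 : Z' p l = 0 := if_neg fun h => hpC h.1
      have h2 : Z' q l = 0 := if_neg fun h => hqC h.1
      have h3 : ∑ j ∈ C, Z' j l = ∑ j ∈ C, y p j l + ∑ j ∈ C, g j l - g l l := by
        rw [Finset.sum_congr rfl fun j hj => if_pos ⟨hj, hl⟩, Finset.sum_sub_distrib,
          Finset.sum_add_distrib]
        congr 1
        rw [Finset.sum_ite_eq' C l fun j => g j j, if_pos hl]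
      have h4 : ∑ j ∈ C, y p j l = n p * n l - y p q l := by
        have h5 := hsR fun j => y p j l
        have h6 : ∑ j, y p j l = n p * n l := hy.s2 p l fun h => hpC (h ▸ hl)
        rw [h6, hy.off12] at h5
        linarith
      have h7 : ∑ j ∈ C, g j l = N * α * E q l + N * β * E l q := by
        simp only [g, mul_add, Finset.sum_add_distrib, Finset.sum_const, nsmul_eq_mul,
          ← Finset.mul_sum, hρ, hγ]
        ring
      have h8 := hR q l
      rw [hy.off12] at h8
      push_cast
      rw [h1, h2, h3, h4, h7, h8]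
      simp only [g]
      have e : N * α * E q l + N * β * E l q - (α * (E l q + E q l) + β * (E l q + E q l)) =
        (N * α - α - β) * E q l + (N * β - β - α) * E l q := by ring
      rw [hα1, hβ1] at e
      linarith
    · rw [if_neg hl, Finset.sum_eq_zero fun j _ => if_neg fun h => hl h.2]
      simp
  obtain ⟨Z, hZ1, hZ2, hZ3⟩ := exists_round Z' _ _ hZ'r hZ'c
  have hZ0 : ∀ j l, Z' j l = 0 → Z j l = 0 := by
    intro j l h
    have := hZ3 j l
    rw [h, Int.floor_zero, Int.ceil_zero] at this
    omega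
  have hZd : ∀ j, Z j j = 0 := by
    intro j
    refine hZ0 _ _ ?_
    simp only [Z', hy.off23]
    split_ifs <;> simp
  have hZC1 : ∀ j l, j ∉ C → Z j l = 0 := fun j l h => hZ0 _ _ (if_neg fun h' => h h'.1)
  have hZC2 : ∀ j l, l ∉ C → Z j l = 0 := fun j l h => hZ0 _ _ (if_neg fun h' => h h'.2)
  have hZb : ∀ j l, j ∈ C → l ∈ C → j ≠ l → |(Z j l : ℝ) - y p j l| ≤ 13 := by
    intro j l hj hl hjl
    have h1 := hZ3 j l
    have e : Z' j l = y p j l + g j l := by
      simp only [Z']
      rw [if_pos ⟨hj, hl⟩, if_neg hjl, sub_zero]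
    have h2 : (Z j l : ℝ) - Z' j l < 1 := by
      have h3 : Z j l - 1 < ⌈Z' j l⌉ := by linarith [h1.2]
      rw [Int.lt_ceil] at h3
      push_cast at h3
      linarith
    have h4 : -1 < (Z j l : ℝ) - Z' j l := by
      have h3 : ⌊Z' j l⌋ < Z j l + 1 := by linarith [h1.1]
      rw [Int.floor_lt] at h3
      push_cast at h3
      linarith
    have h5 := abs_le.1 (hgb j l)
    rw [e] at h2 h4
    rw [abs_le]
    constructor <;> linarith
  -- the outline
  let x : J → J → J → ℤ := fun i j l => if i = p then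
      Z j l + (if j = q then R q l else 0) + (if l = q then R j q else 0)
    else if i = q then
      (if j ∈ C ∧ l ∈ C then R j l - Z j l else 0) + (if j = p then R p l else 0) +
        (if l = p then R j p else 0)
    else M i j l
  have xp : ∀ j l, x p j l = Z j l + (if j = q then R q l else 0) + (if l = q then R j q else 0) :=
    fun j l => if_pos rfl
  have xq : ∀ j l, x q j l = (if j ∈ C ∧ l ∈ C then R j l - Z j l else 0) +
      (if j = p then R p l else 0) + (if l = p then R j p else 0) :=
    fun j l => (if_neg hpq.symm).trans (if_pos rfl)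
  have xC : ∀ i j l, i ∈ C → x i j l = M i j l := fun i j l hi =>
    (if_neg ((hmC i).1 hi).1).trans (if_neg ((hmC i).1 hi).2)
  have hCp : ∀ {i}, i ∈ C → i ≠ p := fun hi => ((hmC _).1 hi).1
  have hCq : ∀ {i}, i ∈ C → i ≠ q := fun hi => ((hmC _).1 hi).2
  have hcase : ∀ i, i = p ∨ i = q ∨ i ∈ C := by
    intro i
    rw [hmC]
    tauto
  have hlow : ∀ i j l, i ≠ j → j ≠ l → i ≠ l →
      y i j l - (2 * Fintype.card J + 9) ≤ x i j l := by
    intro i j l hij hjl hil
    have hK : (Fintype.card J : ℝ) = N + 2 := by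
      rw [hcardC, hNdef]
      push_cast
      ring
    rw [hK]
    rcases hcase i with rfl | rfl | hi
    · rw [xp]
      rcases hcase j with rfl | rfl | hj
      · exact absurd rfl hij
      · rw [hZC1 _ _ hqC, if_pos rfl, if_neg hjl.symm]
        push_cast
        rw [hR, hy.off12]
        have := abs_le.1 (hEb j l)
        linarith
      · rcases hcase l with rfl | rfl | hl
        · exact absurd rfl hil
        · rw [hZC2 _ _ hqC, if_neg hjl, if_pos rfl]
          push_cast
          rw [hR, hy.off13]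
          have := abs_le.1 (hEb j l)
          linarith
        · rw [if_neg (hCq hj), if_neg (hCq hl)]
          push_cast
          have := abs_le.1 (hZb j l hj hl hjl)
          linarith
    · rw [xq]
      rcases hcase j with rfl | rfl | hj
      · rw [if_neg (fun h => hpC h.1), if_pos rfl, if_neg hjl.symm]
        push_cast
        rw [hR, hy.off12]
        have := abs_le.1 (hEb j l)
        linarith
      · exact absurd rfl hij
      · rcases hcase l with rfl | rfl | hl
        · rw [if_neg (fun h => hpC h.2), if_neg hjl, if_pos rfl]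
          push_cast
          rw [hR, hy.off13]
          have := abs_le.1 (hEb j l)
          linarith
        · exact absurd rfl hil
        · rw [if_neg (hCp hj), if_neg (hCp hl), if_pos ⟨hj, hl⟩]
          push_cast
          rw [hR]
          have := abs_le.1 (hZb j l hj hl hjl)
          have := abs_le.1 (hEb j l)
          linarith
    · rw [xC i j l hi]
      have := abs_lt.1 ((hM i hi).2.2.2.2.2.2.2 j l)
      linarith
  have hx : IsOutline (fun a => (n a : ℤ)) x := by
    refine ⟨fun i l => ?_, fun i j => ?_, fun i j => ?_, fun i j hij => ?_, fun i l hil => ?_,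
      fun j l hjl => ?_⟩
    · rcases hcase i with rfl | rfl | hi
      · rw [xp, hZC1 _ _ hpC, if_neg hpq]
        split_ifs <;> simp [hRpq]
      · rw [xq, if_neg (fun h => hqC h.1), if_neg hpq.symm]
        split_ifs <;> simp [hRqp]
      · rw [xC _ _ _ hi]
        exact (hM i hi).1 l
    · rcases hcase i with rfl | rfl | hi
      · rw [xp, hZd]
        by_cases h : j = q
        · subst h
          simp [hRd]
        · simp [h]
      · rw [xq, hRd, hZd]
        by_cases h : j = p
        · subst h
          simp [hRd]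
        · simp [h]
      · rw [xC _ _ _ hi]
        exact (hM i hi).2.2.1 j
    · rcases hcase i with rfl | rfl | hi
      · rw [xp, hZC2 _ _ hpC, if_neg hpq]
        split_ifs <;> simp [hRqp]
      · rw [xq, if_neg (fun h => hqC h.2), if_neg hpq.symm]
        split_ifs <;> simp [hRpq]
      · rw [xC _ _ _ hi]
        exact (hM i hi).2.1 j
    · rcases hcase i with rfl | rfl | hi
      · rw [Finset.sum_congr rfl fun l _ => xp j l, Finset.sum_add_distrib,
          Finset.sum_add_distrib, hZ1, Finset.sum_ite_eq', if_pos (mem_univ _)]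
        rcases hcase j with rfl | rfl | hj
        · exact absurd rfl hij
        · simp only [if_pos, if_neg hqC, hRd, hR2 _ (Or.inr rfl)]
          ring
        · rw [if_pos hj, Finset.sum_eq_zero fun l _ => if_neg (hCq hj)]
          ring
      · rw [Finset.sum_congr rfl fun l _ => xq j l, Finset.sum_add_distrib,
          Finset.sum_add_distrib, Finset.sum_ite_eq', if_pos (mem_univ _)]
        rcases hcase j with rfl | rfl | hj
        · rw [Finset.sum_eq_zero fun l _ => if_neg fun h => hpC h.1]
          simp only [if_pos, hRd, hR2 _ (Or.inl rfl)]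
          ring
        · exact absurd rfl hij
        · rw [Finset.sum_eq_zero (f := fun l => if j = p then R p l else 0)
            fun l _ => if_neg (hCp hj)]
          have h1 : ∑ l, (if j ∈ C ∧ l ∈ C then R j l - Z j l else 0) =
              ∑ l, R j l - R j p - R j i - ∑ l, Z j l := by
            rw [hsZ, hsZ (fun l => R j l), hsZ (fun l => Z j l), if_neg (fun h => hpC h.2),
              if_neg (fun h => hqC h.2), hZC2 _ _ hpC, hZC2 _ _ hqC,
              Finset.sum_congr rfl fun l hl => if_pos ⟨hj, hl⟩, Finset.sum_sub_distrib]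
            ring
          rw [h1, hZ1, if_pos hj, hR1 j hj]
          ring
      · rw [Finset.sum_congr rfl fun l _ => xC i j l hi]
        exact (hM i hi).2.2.2.1 j hij.symm
    · rcases hcase i with rfl | rfl | hi
      · rw [Finset.sum_congr rfl fun j _ => xp j l, Finset.sum_add_distrib,
          Finset.sum_add_distrib, hZ2, Finset.sum_ite_eq', if_pos (mem_univ _)]
        rcases hcase l with rfl | rfl | hl
        · exact absurd rfl hil
        · simp only [if_pos, if_neg hqC, hRd, hR2' _ (Or.inr rfl)]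
          ring
        · rw [if_pos hl, Finset.sum_eq_zero fun j _ => if_neg (hCq hl)]
          ring
      · rw [Finset.sum_congr rfl fun j _ => xq j l, Finset.sum_add_distrib,
          Finset.sum_add_distrib, Finset.sum_ite_eq', if_pos (mem_univ _)]
        rcases hcase l with rfl | rfl | hl
        · rw [Finset.sum_eq_zero fun j _ => if_neg fun h => hpC h.2]
          simp only [if_pos, hRd, hR2' _ (Or.inl rfl)]
          ring
        · exact absurd rfl hil
        · rw [Finset.sum_eq_zero (f := fun j => if l = p then R j p else 0)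
            fun j _ => if_neg (hCp hl)]
          have h1 : ∑ j, (if j ∈ C ∧ l ∈ C then R j l - Z j l else 0) =
              ∑ j, R j l - R p l - R i l - ∑ j, Z j l := by
            rw [hsZ, hsZ (fun j => R j l), hsZ (fun j => Z j l), if_neg (fun h => hpC h.1),
              if_neg (fun h => hqC h.1), hZC1 _ _ hpC, hZC1 _ _ hqC,
              Finset.sum_congr rfl fun j hj => if_pos ⟨hj, hl⟩, Finset.sum_sub_distrib]
            ring
          rw [h1, hZ2, if_pos hl, hR1' l hl]
          ring
      · rw [Finset.sum_congr rfl fun j _ => xC i j l hi]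
        exact (hM i hi).2.2.2.2.1 l hil.symm
    · rw [hsZ, Finset.sum_congr rfl fun i hi => xC i j l hi, xp, xq]
      have h1 : ∑ i ∈ C, M i j l = n j * n l - R j l := by
        simp only [R, if_neg hjl]
        ring
      rw [h1]
      rcases hcase j with rfl | rfl | hj
      · simp [hZC1 _ _ hpC, hpC, hpq, hRpq, hjl.symm]
      · simp [hZC1 _ _ hqC, hqC, hpq.symm, hRqp, hjl.symm]
      · rcases hcase l with rfl | rfl | hl
        · simp [hZC2 _ _ hpC, hpC, hpq, hCp hj, hCq hj]
        · simp [hZC2 _ _ hqC, hqC, hpq.symm, hCp hj, hCq hj]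
        · simp [hCp hj, hCq hj, hCp hl, hCq hl, hj, hl]
  have hx0 : ∀ i j l, 0 ≤ x i j l := by
    intro i j l
    by_cases hij : i = j
    · subst hij
      rw [hx.off12]
    · by_cases hjl : j = l
      · subst hjl
        rw [hx.off23]
      · by_cases hil : i = l
        · subst hil
          rw [hx.off13]
        · have h1 := hlow i j l hij hjl hil
          have h2 := hs i j l hij hjl hil
          have h3 : (0 : ℝ) ≤ x i j l := by linarith
          exact_mod_cast h3
  refine ⟨fun i j l => (x i j l).toNat, isOutline_toNat hx hx0, fun i j l h1 h2 h3 => ?_⟩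
  have h4 := hlow i j l h1 h2 h3
  have h5 : (((x i j l).toNat : ℕ) : ℤ) = x i j l := Int.toNat_of_nonneg (hx0 i j l)
  have h6 : (((x i j l).toNat : ℕ) : ℝ) = (x i j l : ℝ) := by
    rw [← h5]
    push_cast
    rfl
  rw [h6]
  exact h4

end Pool.Agent.MP_dd827d_co
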