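import Pool.Agent.Lib.MP_dd827d_co.Hall

/-!
Ryser's and Evans' embedding theorems for (partial) latin rectangles, in a typed form.
-/

namespace Pool.Agent.MP_dd827d_co

open Finset Function

/-- injective in each variable -/
def Latin {A B D : Type*} (M : A → B → D) : Prop :=
  (∀ a, Injective (M a)) ∧ ∀ b, Injective fun a => M a b

theorem Latin.swap {A B D : Type*} {M : A → B → D} (h : Latin M) :
    Latin fun b a => M a b := ⟨h.2, h.1⟩

/-- Extension of a latin rectangle by new columns. -/
theorem Latin.extend {X Y Y' D : Type*} [Fintype X] [Fintype Y] [Fintype Y'] [Fintype D]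
    [DecidableEq D] (hY : Fintype.card Y + Fintype.card Y' = Fintype.card D)
    {M0 : X → Y → D} (h0 : Latin M0)
    (hN : ∀ s, Fintype.card X + Fintype.card Y ≤
      Fintype.card D + (univ.filter fun p : X × Y => M0 p.1 p.2 = s).card) :
    ∃ M : X → Y ⊕ Y' → D, Latin M ∧ ∀ x y, M x (Sum.inl y) = M0 x y := by
  classical
  set m : X → D → ℕ := fun x s => if ∃ y, M0 x y = s then 0 else 1 with hm
  have himg : ∀ x, (univ.filter fun s => ∃ y, M0 x y = s).card = Fintype.card Y := by
    intro x
    have : (univ.filter fun s => ∃ y, M0 x y = s) = univ.image (M0 x) := by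
      ext s; simp
    rw [this, Finset.card_image_of_injective _ (h0.1 x), Finset.card_univ]
  have hrow : ∀ x, ∑ s, m x s = Fintype.card Y' := by
    intro x
    have h1 : ∑ s, m x s = (univ.filter fun s => ¬ ∃ y, M0 x y = s).card := by
      rw [Finset.card_filter]
      refine Finset.sum_congr rfl fun s _ => ?_
      simp only [hm]
      split_ifs <;> simp_all
    have h2 := Finset.card_filter_add_card_filter_not (s := (univ : Finset D))
      (fun s => ∃ y, M0 x y = s)
    rw [himg x, Finset.card_univ] at h2
    rw [h1]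
    omega
  have hcol : ∀ s, ∑ x, m x s ≤ Fintype.card Y' := by
    intro s
    have h1 : ∑ x, m x s = (univ.filter fun x => ¬ ∃ y, M0 x y = s).card := by
      rw [Finset.card_filter]
      refine Finset.sum_congr rfl fun x _ => ?_
      simp only [hm]
      split_ifs <;> simp_all
    have h2 := Finset.card_filter_add_card_filter_not (s := (univ : Finset X))
      (fun x => ∃ y, M0 x y = s)
    have h3 : (univ.filter fun p : X × Y => M0 p.1 p.2 = s).card
        = (univ.filter fun x => ∃ y, M0 x y = s).card := by
      refine Finset.card_bij (fun p _ => p.1) (fun p hp => ?_) (fun p hp q hq h => ?_)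
        (fun x hx => ?_)
      · simp only [mem_filter, mem_univ, true_and] at hp ⊢
        exact ⟨p.2, hp⟩
      · simp only [mem_filter, mem_univ, true_and] at hp hq
        obtain ⟨p1, p2⟩ := p
        obtain ⟨q1, q2⟩ := q
        simp only at h hp hq
        subst h
        rw [h0.1 p1 (hp.trans hq.symm)]
      · simp only [mem_filter, mem_univ, true_and] at hx
        obtain ⟨y, hy⟩ := hx
        exact ⟨(x, y), by simpa using hy, rfl⟩
    have h4 := hN s
    rw [Finset.card_univ] at h2
    rw [h1]
    omega
  obtain ⟨f, hf, hfm⟩ := exists_inj_of_rowRegular (Fintype.card Y') m hrow hcol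
  let e := Fintype.equivFin Y'
  refine ⟨fun x => Sum.elim (M0 x) fun y' => f (e y') x, ⟨fun x => ?_, fun b => ?_⟩,
    fun x y => rfl⟩
  · have hkey : ∀ k s, f k x = s → ¬ ∃ y, M0 x y = s := by
      intro k s hk hy
      have := hfm x s
      rw [show m x s = 0 from if_pos hy, Finset.card_eq_zero] at this
      have h5 : k ∈ (univ.filter fun k => f k x = s) := by simpa using hk
      rw [this] at h5
      simp at h5
    rintro (y | y) (z | z) h
    · exact congrArg _ (h0.1 x h)
    · exact absurd ⟨y, h⟩ (hkey (e z) _ rfl)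
    · exact absurd ⟨z, h.symm⟩ (hkey (e y) _ rfl)
    · simp only [Sum.elim_inr] at h
      have h1 := hfm x (f (e z) x)
      have h2 : (univ.filter fun k => f k x = f (e z) x).card ≤ 1 := by
        rw [h1]
        simp only [hm]
        split_ifs <;> omega
      rw [Finset.card_le_one] at h2
      have := h2 (e y) (by simpa using h) (e z) (by simp)
      exact congrArg _ (e.injective this)
  · rcases b with y | y
    · exact h0.2 y
    · exact hf (e y)

/-- In an `X × Z` latin rectangle on `|Z| = |D|` symbols every symbol occurs `|X|` times. -/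
theorem Latin.count_of_card_eq {X Z D : Type*} [Fintype X] [Fintype Z] [Fintype D]
    [DecidableEq D] (hZ : Fintype.card Z = Fintype.card D)
    {M : X → Z → D} (h : Latin M) (s : D) :
    (univ.filter fun p : X × Z => M p.1 p.2 = s).card = Fintype.card X := by
  classical
  have hb : ∀ x, Bijective (M x) := fun x =>
    (Fintype.bijective_iff_injective_and_card _).2 ⟨h.1 x, hZ⟩
  rw [← Finset.card_univ]
  refine Finset.card_bij (fun p _ => p.1) (fun p _ => mem_univ _) (fun p hp q hq hpq => ?_)
    (fun x _ => ?_)
  · simp only [mem_filter, mem_univ, true_and] at hp hq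
    obtain ⟨p1, p2⟩ := p
    obtain ⟨q1, q2⟩ := q
    simp only at hpq hp hq
    subst hpq
    rw [h.1 p1 (hp.trans hq.symm)]
  · obtain ⟨y, hy⟩ := (hb x).2 s
    exact ⟨(x, y), by simpa using hy, rfl⟩

/-- Ryser's theorem (sufficiency). -/
theorem Latin.ryser {X X' Y Y' D : Type*} [Fintype X] [Fintype X'] [Fintype Y] [Fintype Y']
    [Fintype D] [DecidableEq D] (hX : Fintype.card X + Fintype.card X' = Fintype.card D)
    (hY : Fintype.card Y + Fintype.card Y' = Fintype.card D)
    {M0 : X → Y → D} (h0 : Latin M0)
    (hN : ∀ s, Fintype.card X + Fintype.card Y ≤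
      Fintype.card D + (univ.filter fun p : X × Y => M0 p.1 p.2 = s).card) :
    ∃ M : X ⊕ X' → Y ⊕ Y' → D, Latin M ∧ ∀ x y, M (Sum.inl x) (Sum.inl y) = M0 x y := by
  obtain ⟨M1, h1, hM1⟩ := Latin.extend (Y' := Y') hY h0 hN
  obtain ⟨M2, h2, hM2⟩ := Latin.extend (X := Y ⊕ Y') (Y := X) (Y' := X') (D := D) hX h1.swap (by
    intro s
    have hcard : Fintype.card (Y ⊕ Y') = Fintype.card D := by rw [Fintype.card_sum]; exact hY
    have := h1.count_of_card_eq hcard s
    have h3 : (univ.filter fun p : (Y ⊕ Y') × X => M1 p.2 p.1 = s).card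
        = (univ.filter fun p : X × (Y ⊕ Y') => M1 p.1 p.2 = s).card :=
      Finset.card_bij (fun p _ => (p.2, p.1)) (fun p hp => by simpa using hp)
        (fun p _ q _ hpq => by simpa [Prod.ext_iff, and_comm] using hpq)
        (fun p hp => ⟨(p.2, p.1), by simpa using hp, rfl⟩)
    rw [h3, this]
    omega)
  refine ⟨fun a b => M2 b a, h2.swap, fun x y => ?_⟩
  simp only
  rw [hM2, hM1]

end Pool.Agent.MP_dd827d_co
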