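import Pool.Agent.Lib.MP_dd827d_co.CoreSharp
import Pool.Agent.Lib.MP_dd827d_co.Quarter

/-!
All large partitions with largest part at most `(5/14 - ε) n` and the other parts at most a third
of the remainder are realizable.
-/

namespace Pool.Agent.MP_dd827d_co

open Finset Function

section
variable {I : Type} [Fintype I] [DecidableEq I] (n : I → ℕ)

/-- Transfer of admissibility to the classes. -/
theorem admJ_classes (ε : ℝ) (hε0 : 0 < ε) (S : ℕ) (hS0 : (0 : ℝ) < S)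
    (hadm : AdmJ (fun i => (n i : ℝ)) S ε) (D : Finset I) (hD : ∀ i ∈ D, 4 * (n i : ℝ) < S)
    {ρ : Type} (f : I → Option ({i // i ∉ D} ⊕ ρ)) [DecidableEq ρ]
    (f1 : ∀ (i : {i // i ∉ D}) j, f j = some (Sum.inl i) ↔ j = i.1)
    (f3 : ∀ p, ((∑ i ∈ univ.filter (fun i => f i = some (Sum.inr p)), n i : ℕ) : ℝ) ≤
      3 * S / 32) :
    AdmJ (fun a : {i // i ∉ D} ⊕ ρ =>
      ((∑ i ∈ univ.filter (fun i => f i = some a), n i : ℕ) : ℝ)) S ε := by
  rcases hadm with h | ⟨p, h1, h2, h3⟩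
  · left
    rintro (i | q)
    · beta_reduce
      rw [sum_of_iff_eq n i.1 (f1 i)]
      exact h i.1
    · have := f3 q
      beta_reduce
      linarith
  · have hεS : 0 < ε * S := mul_pos hε0 hS0
    beta_reduce at h1 h2 h3
    have hp : p ∉ D := fun hp => by
      have := hD p hp
      linarith
    right
    refine ⟨Sum.inl ⟨p, hp⟩, ?_, ?_, ?_⟩
    · beta_reduce
      rw [sum_of_iff_eq n p (f1 ⟨p, hp⟩)]
      exact h1
    · beta_reduce
      rw [sum_of_iff_eq n p (f1 ⟨p, hp⟩)]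
      exact h2
    · beta_reduce
      rw [sum_of_iff_eq n p (f1 ⟨p, hp⟩)]
      rintro (i | q) hne
      · rw [sum_of_iff_eq n i.1 (f1 i)]
        exact h3 i.1 fun h => hne (congrArg Sum.inl (Subtype.ext h))
      · have := f3 q
        linarith

/-- Few large parts. -/
theorem sharp_few (hn : ∀ i, 0 < n i) (ε : ℝ) (hε0 : 0 < ε) (hε : ε ≤ 1 / 10) (S : ℕ)
    (hS : ∑ i, n i = S) (hadm : AdmJ (fun i => (n i : ℝ)) S ε) (L : ℕ) (hL : S + 1 < 2 ^ L)
    (Λ : ℝ) (hΛ : 50000000 * ((L : ℝ) * L) / ε = Λ) (hL1 : 1 ≤ L)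
    (hbig : 520 * Λ ^ 5 / ε ≤ S)
    (hfew : (univ.filter fun i => (S : ℝ) / Λ ≤ n i).card ≤ 2) : Realizable n := by
  classical
  have hK : (1 : ℝ) ≤ (L : ℝ) * L := by
    have : (1 : ℝ) ≤ L := by exact_mod_cast hL1
    nlinarith
  have hΛ1 : 50000000 ≤ Λ := by
    rw [← hΛ, le_div_iff₀ hε0]
    nlinarith
  have hΛ0 : 0 < Λ := by linarith
  have hKS : ((L : ℝ) * L) * (S / Λ) = ε * S / 50000000 := by
    rw [← hΛ]
    field_simp
  have hSΛ : Λ ≤ S := by
    refine le_trans ?_ hbig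
    rw [le_div_iff₀ hε0]
    have h1 : Λ ≤ Λ ^ 5 := by
      calc Λ = Λ ^ 1 := (pow_one _).symm
        _ ≤ Λ ^ 5 := pow_le_pow_right₀ (by linarith) (by norm_num)
    nlinarith
  have hSr : (50000000 : ℝ) ≤ S := by linarith
  have hS0 : (0 : ℝ) < S := by linarith
  have hεS : 0 < ε * S := mul_pos hε0 hS0
  set D : Finset I := univ.filter fun i => ¬ (S : ℝ) / Λ ≤ n i with hD
  have hmD : ∀ i, i ∉ D ↔ (S : ℝ) / Λ ≤ n i := fun i => by simp [hD]
  have hD4 : ∀ i ∈ D, 4 * (n i : ℝ) < S := by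
    intro i hi
    have h1 : ¬ (S : ℝ) / Λ ≤ n i := fun h => (hmD i).2 h hi
    push Not at h1
    have h2 : (S : ℝ) / Λ ≤ S / 4 := div_le_div_of_nonneg_left hS0.le (by norm_num) (by linarith)
    linarith
  have hsplit : ∑ i ∈ univ.filter (fun i => (S : ℝ) / Λ ≤ n i), n i + ∑ i ∈ D, n i = S := by
    rw [hD, ← hS]
    exact Finset.sum_filter_add_sum_filter_not univ _ _
  have hpair : ∀ i j, i ≠ j → (n i : ℝ) + n j ≤ 4 / 7 * S := by
    intro i j hij
    rcases hadm with h | ⟨p, h1, h2, h3⟩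
    · have := h i
      have := h j
      beta_reduce at *
      linarith
    · beta_reduce at h1 h2 h3
      by_cases hip : i = p
      · subst hip
        have := h3 j hij.symm
        linarith
      · by_cases hjp : j = p
        · subst hjp
          have := h3 i hij
          linarith
        · have := h3 i hip
          have := h3 j hjp
          linarith
  have hsingle : ∀ i, (n i : ℝ) ≤ 5 / 14 * S := fun i => hadm.le hε0.le hS0.le i
  have hH : ((∑ i ∈ univ.filter (fun i => (S : ℝ) / Λ ≤ n i), n i : ℕ) : ℝ) ≤ 4 / 7 * S := by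
    set F : Finset I := univ.filter fun i => (S : ℝ) / Λ ≤ n i with hF
    have hc : F.card = 0 ∨ F.card = 1 ∨ F.card = 2 := by omega
    rcases hc with h | h | h
    · rw [Finset.card_eq_zero.1 h]
      simp
    · obtain ⟨i, hi⟩ := Finset.card_eq_one.1 h
      rw [hi, Finset.sum_singleton]
      have := hsingle i
      linarith
    · obtain ⟨i, j, hij, hi⟩ := Finset.card_eq_two.1 h
      rw [hi, Finset.sum_pair hij]
      push_cast
      exact hpair i j hij
  have hDmass : 3 / 7 * (S : ℝ) ≤ ((∑ i ∈ D, n i : ℕ) : ℝ) := by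
    have h1 : ((∑ i ∈ univ.filter (fun i => (S : ℝ) / Λ ≤ n i), n i : ℕ) : ℝ) +
      ((∑ i ∈ D, n i : ℕ) : ℝ) = S := by exact_mod_cast hsplit
    linarith
  set T : ℕ := ⌊(S : ℝ) / Λ⌋₊ with hT
  have hTle : (T : ℝ) ≤ S / Λ := Nat.floor_le (by positivity)
  set A : ℕ := S / 32 with hA
  have hA1 : (A : ℝ) ≤ S / 32 := by
    rw [le_div_iff₀ (by norm_num)]
    have : A * 32 ≤ S := by omega
    exact_mod_cast this
  have hA2 : (S : ℝ) / 33 ≤ A := by
    have h1 : S ≤ 32 * A + 31 := by omega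
    have h2 : (S : ℝ) ≤ 32 * A + 31 := by exact_mod_cast h1
    rw [div_le_iff₀ (by norm_num)]
    linarith
  have hKT : ((L * L * T : ℕ) : ℝ) ≤ ε * S / 50000000 := by
    rw [← hKS]
    push_cast
    exact mul_le_mul_of_nonneg_left hTle (by positivity)
  have hKTA : L * L * T ≤ A := by
    have : ((L * L * T : ℕ) : ℝ) ≤ A := by
      refine hKT.trans (le_trans ?_ hA2)
      nlinarith
    exact_mod_cast this
  have hA0 : 0 < A := by
    have : (0 : ℝ) < A := lt_of_lt_of_le (by positivity) hA2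
    exact_mod_cast this
  obtain ⟨ρ, _, _, f, f1, f2, f3, f4, f5, f6⟩ := exists_classes n hn L S T A hL hS.le D
    (fun i hi => Nat.le_floor (by
      have : ¬ (S : ℝ) / Λ ≤ n i := fun h => (hmD i).2 h hi
      exact (not_le.1 this).le)) hKTA hA0
  have hs : ((∑ i ∈ univ.filter (fun i => f i = none), n i : ℕ) : ℝ) ≤ ε * S / 50000000 :=
    le_trans (by exact_mod_cast f4) hKT
  have h3A : ∀ p, ((∑ i ∈ univ.filter (fun i => f i = some (Sum.inr p)), n i : ℕ) : ℝ) ≤
      3 * S / 32 := by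
    intro p
    have h1 : ((∑ i ∈ univ.filter (fun i => f i = some (Sum.inr p)), n i : ℕ) : ℝ) ≤
      ((3 * A : ℕ) : ℝ) := by exact_mod_cast f3 p
    push_cast at h1 ⊢
    linarith
  have hpA : ∀ p, (S : ℝ) / 33 ≤
      ((∑ i ∈ univ.filter (fun i => f i = some (Sum.inr p)), n i : ℕ) : ℝ) := by
    intro p
    rcases f5 p with h | h
    · refine hA2.trans ?_
      exact_mod_cast h
    · exfalso
      have h1 : ((∑ i ∈ univ.filter (fun i => f i = some (Sum.inr p)), n i : ℕ) : ℝ) +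
          ((∑ i ∈ univ.filter (fun i => f i = none), n i : ℕ) : ℝ) =
          ((∑ i ∈ D, n i : ℕ) : ℝ) := by exact_mod_cast h
      have h2 := h3A p
      nlinarith
  have hcard : 2 < Fintype.card ρ := by
    by_contra hcon
    push Not at hcon
    have h1 : ((∑ p, ∑ i ∈ univ.filter (fun i => f i = some (Sum.inr p)), n i : ℕ) : ℝ) +
        ((∑ i ∈ univ.filter (fun i => f i = none), n i : ℕ) : ℝ) =
        ((∑ i ∈ D, n i : ℕ) : ℝ) := by exact_mod_cast f6
    have h2 : ((∑ p, ∑ i ∈ univ.filter (fun i => f i = some (Sum.inr p)), n i : ℕ) : ℝ) ≤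
        2 * (3 * S / 32) := by
      rw [Nat.cast_sum]
      calc ∑ p, ((∑ i ∈ univ.filter (fun i => f i = some (Sum.inr p)), n i : ℕ) : ℝ)
          ≤ ∑ _p : ρ, (3 * (S : ℝ) / 32) := Finset.sum_le_sum fun p _ => h3A p
        _ = (Fintype.card ρ : ℝ) * (3 * S / 32) := by simp
        _ ≤ 2 * (3 * S / 32) := by
          have : (Fintype.card ρ : ℝ) ≤ 2 := by exact_mod_cast hcon
          exact mul_le_mul_of_nonneg_right this (by positivity)
    nlinarith
  obtain ⟨p1, p2, p3, h12, h13, h23⟩ := Fintype.two_lt_card_iff.1 hcard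
  refine core2 n hn f ε Λ (S / 33) hε0 hε (by linarith) (by positivity) S hS ?_
    (admJ_classes n ε hε0 S hS0 hadm D hD4 f f1 h3A) ?_
    (Sum.inr p1) (Sum.inr p2) (Sum.inr p3) (by simpa using h12) (by simpa using h23)
    (by simpa using h13) (hpA p1) (hpA p2) (hpA p3) ?_ hbig
  · rintro (i | p)
    · exact realizable_of_iff_eq n hn i.1 (f1 i)
    · exact f2 p
  · rintro (i | p)
    · rw [sum_of_iff_eq n i.1 (f1 i)]
      exact (hmD i.1).1 i.2
    · refine le_trans ?_ (hpA p)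
      exact div_le_div_of_nonneg_left hS0.le (by norm_num) (by linarith)
  · refine hs.trans ?_
    have e1 : ε / 40 * ((S : ℝ) / 33) ^ 4 / S ^ 3 = ε * S / 47436840 := by
      field_simp
      ring
    rw [e1]
    exact div_le_div_of_nonneg_left hεS.le (by norm_num) (by norm_num)

/-- At least three large parts. -/
theorem sharp_many (hn : ∀ i, 0 < n i) (ε : ℝ) (hε0 : 0 < ε) (hε : ε ≤ 1 / 10) (S : ℕ)
    (hS : ∑ i, n i = S) (hadm : AdmJ (fun i => (n i : ℝ)) S ε) (L : ℕ) (hL : S + 1 < 2 ^ L)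
    (Λ Λ' : ℝ) (hΛ : 50000000 * ((L : ℝ) * L) / ε = Λ)
    (hΛ' : 80 * ((L : ℝ) * L) * Λ ^ 4 / ε = Λ')
    (hL1 : 1 ≤ L) (hbig : 520 * Λ' ^ 5 / ε ≤ S)
    (hmany : 2 < (univ.filter fun i => (S : ℝ) / Λ ≤ n i).card) : Realizable n := by
  classical
  have hK : (1 : ℝ) ≤ (L : ℝ) * L := by
    have : (1 : ℝ) ≤ L := by exact_mod_cast hL1
    nlinarith
  have hΛ1 : 50000000 ≤ Λ := by
    rw [← hΛ, le_div_iff₀ hε0]
    nlinarith
  have hΛ0 : 0 < Λ := by linarith
  have hΛ4 : Λ ≤ Λ ^ 4 := by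
    calc Λ = Λ ^ 1 := (pow_one _).symm
      _ ≤ Λ ^ 4 := pow_le_pow_right₀ (by linarith) (by norm_num)
  have hΛ40 : 0 < Λ ^ 4 := by positivity
  have hΛ3 : Λ ≤ Λ' := by
    rw [← hΛ', le_div_iff₀ hε0]
    nlinarith
  have hΛ'0 : 0 < Λ' := by linarith
  have hKS : ((L : ℝ) * L) * (S / Λ') = ε * S / (80 * Λ ^ 4) := by
    rw [← hΛ']
    field_simp
  have hSΛ : Λ' ≤ S := by
    refine le_trans ?_ hbig
    rw [le_div_iff₀ hε0]
    have h1 : Λ' ≤ Λ' ^ 5 := by
      calc Λ' = Λ' ^ 1 := (pow_one _).symm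
        _ ≤ Λ' ^ 5 := pow_le_pow_right₀ (by linarith) (by norm_num)
    nlinarith
  have hSr : (50000000 : ℝ) ≤ S := by linarith
  have hS0 : (0 : ℝ) < S := by linarith
  have hεS : 0 < ε * S := mul_pos hε0 hS0
  set D : Finset I := univ.filter fun i => ¬ (S : ℝ) / Λ' ≤ n i with hD
  have hmD : ∀ i, i ∉ D ↔ (S : ℝ) / Λ' ≤ n i := fun i => by simp [hD]
  have hD4 : ∀ i ∈ D, 4 * (n i : ℝ) < S := by
    intro i hi
    have h1 : ¬ (S : ℝ) / Λ' ≤ n i := fun h => (hmD i).2 h hi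
    push Not at h1
    have h2 : (S : ℝ) / Λ' ≤ S / 4 := div_le_div_of_nonneg_left hS0.le (by norm_num) (by linarith)
    linarith
  obtain ⟨u, hu, v, hv, w, hw, huv, huw, hvw⟩ := Finset.two_lt_card.1 hmany
  simp only [mem_filter, mem_univ, true_and] at hu hv hw
  have hmono : (S : ℝ) / Λ' ≤ S / Λ := div_le_div_of_nonneg_left hS0.le hΛ0 hΛ3
  have huD : u ∉ D := (hmD u).2 (hmono.trans hu)
  have hvD : v ∉ D := (hmD v).2 (hmono.trans hv)
  have hwD : w ∉ D := (hmD w).2 (hmono.trans hw)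
  have hΘ : ε / 40 * ((S : ℝ) / Λ) ^ 4 / S ^ 3 = ε * S / (40 * Λ ^ 4) := by
    field_simp
  by_cases hDm : ((∑ i ∈ D, n i : ℕ) : ℝ) ≤ ε * S / (40 * Λ ^ 4)
  · -- small total mass of the small parts
    let f : I → Option ({i // i ∉ D} ⊕ Empty) := fun i =>
      if hi : i ∉ D then some (Sum.inl ⟨i, hi⟩) else none
    have f1 : ∀ (i : {i // i ∉ D}) j, f j = some (Sum.inl i) ↔ j = i.1 := by
      intro i j
      simp only [f]
      by_cases hj : j ∈ D
      · rw [dif_neg (not_not.2 hj)]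
        constructor
        · intro h
          exact absurd h (by simp)
        · intro h
          exact absurd (h ▸ hj) i.2
      · rw [dif_pos hj]
        constructor
        · intro h
          exact congrArg Subtype.val (Sum.inl_injective (Option.some_injective _ h))
        · rintro rfl
          rfl
    have fn : ∀ i, f i = none ↔ i ∈ D := by
      intro i
      simp only [f]
      by_cases hi : i ∈ D
      · rw [dif_neg (not_not.2 hi)]
        simp [hi]
      · rw [dif_pos hi]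
        simp [hi]
    have hfn : univ.filter (fun i => f i = none) = D := by
      ext i
      simp [fn]
    refine core2 n hn f ε Λ' (S / Λ) hε0 hε (by linarith) (by positivity) S hS ?_
      (admJ_classes n ε hε0 S hS0 hadm D hD4 f f1 (fun p => p.elim)) ?_
      (Sum.inl ⟨u, huD⟩) (Sum.inl ⟨v, hvD⟩) (Sum.inl ⟨w, hwD⟩) (by simpa using huv)
      (by simpa using hvw) (by simpa using huw) ?_ ?_ ?_ ?_ hbig
    · rintro (i | p)
      · exact realizable_of_iff_eq n hn i.1 (f1 i)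
      · exact p.elim
    · rintro (i | p)
      · rw [sum_of_iff_eq n i.1 (f1 i)]
        exact (hmD i.1).1 i.2
      · exact p.elim
    · rw [sum_of_iff_eq n u (f1 ⟨u, huD⟩)]
      exact hu
    · rw [sum_of_iff_eq n v (f1 ⟨v, hvD⟩)]
      exact hv
    · rw [sum_of_iff_eq n w (f1 ⟨w, hwD⟩)]
      exact hw
    · rw [hfn, hΘ]
      exact hDm
  · push Not at hDm
    set T : ℕ := ⌊(S : ℝ) / Λ'⌋₊ with hT
    have hTle : (T : ℝ) ≤ S / Λ' := Nat.floor_le (by positivity)
    set A : ℕ := S / 32 with hA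
    have hA1 : (A : ℝ) ≤ S / 32 := by
      rw [le_div_iff₀ (by norm_num)]
      have : A * 32 ≤ S := by omega
      exact_mod_cast this
    have hA2 : (S : ℝ) / 33 ≤ A := by
      have h1 : S ≤ 32 * A + 31 := by omega
      have h2 : (S : ℝ) ≤ 32 * A + 31 := by exact_mod_cast h1
      rw [div_le_iff₀ (by norm_num)]
      linarith
    have hKT : ((L * L * T : ℕ) : ℝ) ≤ ε * S / (80 * Λ ^ 4) := by
      rw [← hKS]
      push_cast
      exact mul_le_mul_of_nonneg_left hTle (by positivity)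
    have hsmall : ε * S / (80 * Λ ^ 4) ≤ S / 33 := by
      rw [div_le_div_iff₀ (by positivity) (by norm_num)]
      have h1 : (1 : ℝ) ≤ Λ ^ 4 := by linarith
      nlinarith
    have hKTA : L * L * T ≤ A := by
      have : ((L * L * T : ℕ) : ℝ) ≤ A := hKT.trans (hsmall.trans hA2)
      exact_mod_cast this
    have hA0 : 0 < A := by
      have : (0 : ℝ) < A := lt_of_lt_of_le (by positivity) hA2
      exact_mod_cast this
    obtain ⟨ρ, _, _, f, f1, f2, f3, f4, f5, f6⟩ := exists_classes n hn L S T A hL hS.le D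
      (fun i hi => Nat.le_floor (by
        have : ¬ (S : ℝ) / Λ' ≤ n i := fun h => (hmD i).2 h hi
        exact (not_le.1 this).le)) hKTA hA0
    have hs : ((∑ i ∈ univ.filter (fun i => f i = none), n i : ℕ) : ℝ) ≤
        ε * S / (80 * Λ ^ 4) := le_trans (by exact_mod_cast f4) hKT
    have hhalf : ε * (S : ℝ) / (40 * Λ ^ 4) = 2 * (ε * S / (80 * Λ ^ 4)) := by
      field_simp
      ring
    have hΛS : (S : ℝ) / Λ' ≤ ε * S / (80 * Λ ^ 4) := by
      rw [← hKS]
      have h1 : 0 ≤ (S : ℝ) / Λ' := by positivity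
      calc (S : ℝ) / Λ' = 1 * (S / Λ') := (one_mul _).symm
        _ ≤ ((L : ℝ) * L) * (S / Λ') := mul_le_mul_of_nonneg_right hK h1
    have h3A : ∀ p, ((∑ i ∈ univ.filter (fun i => f i = some (Sum.inr p)), n i : ℕ) : ℝ) ≤
        3 * S / 32 := by
      intro p
      have h1 : ((∑ i ∈ univ.filter (fun i => f i = some (Sum.inr p)), n i : ℕ) : ℝ) ≤
        ((3 * A : ℕ) : ℝ) := by exact_mod_cast f3 p
      push_cast at h1 ⊢
      linarith
    refine core2 n hn f ε Λ' (S / Λ) hε0 hε (by linarith) (by positivity) S hS ?_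
      (admJ_classes n ε hε0 S hS0 hadm D hD4 f f1 h3A) ?_
      (Sum.inl ⟨u, huD⟩) (Sum.inl ⟨v, hvD⟩) (Sum.inl ⟨w, hwD⟩) (by simpa using huv)
      (by simpa using hvw) (by simpa using huw) ?_ ?_ ?_ ?_ hbig
    · rintro (i | p)
      · exact realizable_of_iff_eq n hn i.1 (f1 i)
      · exact f2 p
    · rintro (i | p)
      · rw [sum_of_iff_eq n i.1 (f1 i)]
        exact (hmD i.1).1 i.2
      · refine hΛS.trans ?_
        rcases f5 p with h | h
        · refine hsmall.trans (hA2.trans ?_)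
          exact_mod_cast h
        · have h1 : ((∑ i ∈ univ.filter (fun i => f i = some (Sum.inr p)), n i : ℕ) : ℝ) +
              ((∑ i ∈ univ.filter (fun i => f i = none), n i : ℕ) : ℝ) =
              ((∑ i ∈ D, n i : ℕ) : ℝ) := by exact_mod_cast h
          linarith
    · rw [sum_of_iff_eq n u (f1 ⟨u, huD⟩)]
      exact hu
    · rw [sum_of_iff_eq n v (f1 ⟨v, hvD⟩)]
      exact hv
    · rw [sum_of_iff_eq n w (f1 ⟨w, hwD⟩)]
      exact hw
    · rw [hΘ]
      have h1 : 0 ≤ ε * (S : ℝ) / (80 * Λ ^ 4) := by positivity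
      linarith

end

/-- **The sharp theorem.** -/
theorem sharp (ε : ℝ) (hε : 0 < ε) : ∃ n₀ : ℕ, ∀ (I : Type) [Fintype I] (n : I → ℕ),
    (∀ i, 0 < n i) → n₀ ≤ ∑ i, n i → AdmJ (fun i => (n i : ℝ)) ((∑ j, n j : ℕ) : ℝ) ε →
    Realizable n := by
  classical
  -- reduce to small `ε`
  wlog hε' : ε ≤ 1 / 10 with H
  · obtain ⟨n₀, h⟩ := H (1 / 10) (by norm_num) le_rfl
    refine ⟨n₀, fun I _ n hn h0 hadm => h I n hn h0 ?_⟩
    push Not at hε'
    rcases hadm with hadm | ⟨p, h1, h2, h3⟩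
    · exact Or.inl hadm
    · refine Or.inr ⟨p, h1, h2.trans ?_, h3⟩
      exact mul_le_mul_of_nonneg_right (by linarith) (Nat.cast_nonneg _)
  set C : ℝ := 520 * (80 * (50000000 / ε) ^ 4 / ε) ^ 5 / ε with hC
  have hlim := tendsto_pow_const_div_const_pow_of_one_lt 50 (one_lt_two : (1 : ℝ) < 2)
  have hev : ∀ᶠ L : ℕ in Filter.atTop, 4 * C * (L : ℝ) ^ 50 ≤ 2 ^ L := by
    have h1 : ∀ᶠ L : ℕ in Filter.atTop, (L : ℝ) ^ 50 / 2 ^ L < 1 / (4 * C) := by
      refine hlim.eventually_lt_const ?_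
      positivity
    filter_upwards [h1] with L hL
    have h2 : 0 < 4 * C := by positivity
    rw [div_lt_div_iff₀ (by positivity) h2] at hL
    linarith
  obtain ⟨L0, hL0⟩ := Filter.eventually_atTop.1 hev
  refine ⟨2 ^ L0, fun I _ n hn h0 hadm => ?_⟩
  set S : ℕ := ∑ j, n j with hS
  set L : ℕ := Nat.log 2 S + 2 with hL
  have hSpos : 0 < S := lt_of_lt_of_le (by positivity) h0
  have hlog : L0 ≤ Nat.log 2 S := by
    rw [Nat.le_log_iff_pow_le (by norm_num) hSpos.ne']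
    exact h0
  have hSL : 2 ^ (Nat.log 2 S) ≤ S := Nat.pow_log_le_self 2 hSpos.ne'
  have hSL2 : S + 1 < 2 ^ L := by
    have h1 : S < 2 ^ (Nat.log 2 S + 1) := Nat.lt_pow_succ_log_self (by norm_num) S
    have h2 : 2 ^ L = 2 * 2 ^ (Nat.log 2 S + 1) := by rw [hL]; ring
    omega
  have hbig1 : C * (L : ℝ) ^ 50 ≤ S := by
    have h1 := hL0 L (by omega)
    have h2 : (2 : ℝ) ^ L = 4 * 2 ^ (Nat.log 2 S) := by rw [hL]; ring
    have h3 : (2 : ℝ) ^ (Nat.log 2 S) ≤ S := by exact_mod_cast hSL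
    linarith
  have hL1 : 1 ≤ L := by omega
  have hLr : (1 : ℝ) ≤ L := by exact_mod_cast hL1
  have hbig : 520 * (80 * ((L : ℝ) * L) * (50000000 * ((L : ℝ) * L) / ε) ^ 4 / ε) ^ 5 /
      ε ≤ S := by
    refine le_trans (le_of_eq ?_) hbig1
    rw [hC]
    field_simp
  by_cases hcase : (univ.filter fun i =>
      (S : ℝ) / (50000000 * ((L : ℝ) * L) / ε) ≤ n i).card ≤ 2
  · refine sharp_few n hn ε hε hε' S rfl hadm L hSL2 _ rfl hL1 (le_trans ?_ hbig) hcase
    have hK : (1 : ℝ) ≤ (L : ℝ) * L := by nlinarith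
    set Λ : ℝ := 50000000 * ((L : ℝ) * L) / ε with hΛ
    have hΛ1 : 50000000 ≤ Λ := by
      rw [hΛ, le_div_iff₀ hε]
      nlinarith
    have h1 : Λ ≤ 80 * ((L : ℝ) * L) * Λ ^ 4 / ε := by
      rw [le_div_iff₀ hε]
      have h2 : Λ ≤ Λ ^ 4 := by
        calc Λ = Λ ^ 1 := (pow_one _).symm
          _ ≤ Λ ^ 4 := pow_le_pow_right₀ (by linarith) (by norm_num)
      have h3 : 0 < Λ ^ 4 := by positivity
      nlinarith
    have h4 : Λ ^ 5 ≤ (80 * ((L : ℝ) * L) * Λ ^ 4 / ε) ^ 5 :=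
      pow_le_pow_left₀ (by linarith) h1 5
    exact div_le_div_of_nonneg_right (by linarith) hε.le
  · push Not at hcase
    exact sharp_many n hn ε hε hε' S rfl hadm L hSL2 _ _ rfl rfl hL1 hbig hcase

end Pool.Agent.MP_dd827d_co
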