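import Pool.Agent.Lib.MP_dd827d_co.Special

/-!
The slack inequality on boxes with one large coordinate and one fixed small coordinate.
-/

namespace Pool.Agent.MP_dd827d_co

open Finset Function

variable {J : Type*} [Fintype J] [DecidableEq J]
  {c : J → J → ℝ} (hs : ∀ a b, c a b = c b a) (hd : ∀ a, c a a = 0)
  (hT : ∀ a b d, a ≠ b → b ≠ d → a ≠ d → 0 ≤ c a b + c b d + c a d)
include hs hd hT

theorem slack_point {p M : J} (hpM : p ≠ M) (f : J → ℝ) (a m κ : ℝ) (ha : 1 ≤ a)
    (ha' : a ≤ 5 / 3) (hκ0 : 0 ≤ κ) (hκ : κ ≤ 1 / 18) (hκ' : κ ≤ (5 - 3 * a) / 36)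
    (fp : f p = a) (fM : f M = m) (m0 : 0 ≤ m) (m1 : m ≤ 1 / 12)
    (h01 : ∀ i, i ≠ p → i ≠ M → 0 ≤ f i ∧ f i ≤ 1) (hsum : ∑ i, f i = a + 3)
    (hint : ∀ i j l, i ≠ p → i ≠ M → j ≠ p → j ≠ M → l ≠ p → l ≠ M → i ≠ j → j ≠ l → i ≠ l →
      ¬ ((0 < f i ∧ f i < 1) ∧ (0 < f j ∧ f j < 1) ∧ (0 < f l ∧ f l < 1))) :
    κ * tri3 (tau c) f f f ≤ bil c f f := by
  set O : Finset J := univ.filter fun i => i ≠ p ∧ i ≠ M ∧ f i = 1 with hO
  set P : Finset J := univ.filter fun i => i ≠ p ∧ i ≠ M ∧ 0 < f i ∧ f i < 1 with hP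
  have mO : ∀ i, i ∈ O ↔ i ≠ p ∧ i ≠ M ∧ f i = 1 := fun i => by simp [hO]
  have mP : ∀ i, i ∈ P ↔ i ≠ p ∧ i ≠ M ∧ 0 < f i ∧ f i < 1 := fun i => by simp [hP]
  have hz : ∀ i, i ≠ p → i ≠ M → i ∉ O → i ∉ P → f i = 0 := by
    intro i h1 h2 h3 h4
    rw [mO] at h3
    rw [mP] at h4
    have h5 := h01 i h1 h2
    by_contra h6
    exact h4 ⟨h1, h2, lt_of_le_of_ne h5.1 (Ne.symm h6),
      lt_of_le_of_ne h5.2 fun h => h3 ⟨h1, h2, h⟩⟩
  have hdec : ∀ i, f i = (if i = p then a else 0) + (if i = M then m else 0) +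
      (if i ∈ O then 1 else 0) + (if i ∈ P then f i else 0) := by
    intro i
    by_cases h1 : i = p
    · have h2 : i ∉ O := fun h => ((mO i).1 h).1 h1
      have h3 : i ∉ P := fun h => ((mP i).1 h).1 h1
      rw [if_pos h1, if_neg h2, if_neg h3, h1, if_neg hpM, fp]
      ring
    · by_cases h1' : i = M
      · have h2 : i ∉ O := fun h => ((mO i).1 h).2.1 h1'
        have h3 : i ∉ P := fun h => ((mP i).1 h).2.1 h1'
        rw [if_neg h1, if_pos h1', if_neg h2, if_neg h3, h1', fM]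
        ring
      · rw [if_neg h1, if_neg h1']
        by_cases h2 : i ∈ O
        · have h3 : i ∉ P := fun h => by
            have e1 := ((mP i).1 h).2.2.2
            have e2 := ((mO i).1 h2).2.2
            linarith
          rw [if_pos h2, if_neg h3, ((mO i).1 h2).2.2]
          ring
        · by_cases h3 : i ∈ P
          · rw [if_neg h2, if_pos h3]
            ring
          · rw [if_neg h2, if_neg h3, hz i h1 h1' h2 h3]
            ring
  have hcount : a + m + (O.card : ℝ) + ∑ i ∈ P, f i = a + 3 := by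
    have h1 : ∑ i, f i = ∑ i, ((if i = p then a else 0) + (if i = M then m else 0) +
      (if i ∈ O then 1 else 0) + (if i ∈ P then f i else 0)) :=
      Finset.sum_congr rfl fun i _ => hdec i
    rw [← hsum, h1]
    simp only [Finset.sum_add_distrib, Finset.sum_ite_eq', mem_univ, if_true,
      Finset.sum_ite_mem, Finset.univ_inter, Finset.sum_const, nsmul_eq_mul, mul_one]
  have hPle : ∑ i ∈ P, f i ≤ P.card := by
    calc ∑ i ∈ P, f i ≤ ∑ _i ∈ P, (1 : ℝ) :=
          Finset.sum_le_sum fun i hi => ((mP i).1 hi).2.2.2.le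
      _ = P.card := by simp
  have hP2 : P.card ≤ 2 := by
    by_contra h
    push Not at h
    obtain ⟨i, hi, j, hj, l, hl, hij, hil, hjl⟩ := Finset.two_lt_card.1 h
    have hi' := (mP i).1 hi
    have hj' := (mP j).1 hj
    have hl' := (mP l).1 hl
    exact hint i j l hi'.1 hi'.2.1 hj'.1 hj'.2.1 hl'.1 hl'.2.1 hij hjl hil
      ⟨hi'.2.2, hj'.2.2, hl'.2.2⟩
  by_cases hO2 : 1 < O.card
  · obtain ⟨b, hb, e, he, hbe⟩ := Finset.one_lt_card.1 hO2
    obtain ⟨bp, bM, b1⟩ := (mO b).1 hb
    obtain ⟨ep, eM, e1⟩ := (mO e).1 he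
    set r : J → ℝ := fun i => if i = p ∨ i = b ∨ i = e then 0 else f i with hr
    have hfr : f = r + (a • unit p + (1 : ℝ) • unit b + (1 : ℝ) • unit e) := by
      funext i
      simp only [Pi.add_apply, Pi.smul_apply, smul_eq_mul, unit, hr]
      by_cases h1 : i = p
      · subst h1
        simp [bp.symm, ep.symm, fp]
      · by_cases h2 : i = b
        · subst h2
          simp [h1, hbe, b1]
        · by_cases h3 : i = e
          · subst h3
            simp [h1, h2, e1]
          · simp [h1, h2, h3]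
    have hr1 : ∑ i, r i = 1 := by
      have h1 : ∑ i, f i = ∑ i, r i + (a + 1 + 1) := by
        rw [hfr]
        simp only [Pi.add_apply, Pi.smul_apply, smul_eq_mul, Finset.sum_add_distrib,
          ← Finset.mul_sum, sum_unit]
        simp only [hr]
        ring
      linarith
    refine special1 hs hd hT bp.symm hbe ep.symm r (fun i => ?_) (by simp [hr]) (by simp [hr])
      (by simp [hr]) hr1 a κ ha ha' hκ0 hκ (by linarith) f hfr
    simp only [hr]
    split_ifs with h
    · exact le_rfl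
    · push Not at h
      by_cases hM : i = M
      · rw [hM, fM]
        exact m0
      · exact (h01 i h.1 hM).1
  · have hO1 : O.card = 1 := by
      have h2 : (P.card : ℝ) ≤ 2 := by exact_mod_cast hP2
      have h3 : (0 : ℝ) < O.card := by linarith
      have h4 : 0 < O.card := by exact_mod_cast h3
      omega
    rw [hO1] at hcount
    push_cast at hcount
    have hPc : P.card = 2 := by
      have h3 : (1 : ℝ) < P.card := by linarith
      have h4 : 1 < P.card := by exact_mod_cast h3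
      omega
    obtain ⟨b, hb⟩ := Finset.card_eq_one.1 hO1
    obtain ⟨d, e, hde, hPe⟩ := Finset.card_eq_two.1 hPc
    rw [hPe, Finset.sum_pair hde] at hcount
    obtain ⟨bp, bM, b1⟩ := (mO b).1 (by rw [hb]; simp)
    obtain ⟨dp, dM, d0, d1⟩ := (mP d).1 (by rw [hPe]; simp)
    obtain ⟨ep, eM, e0, e1⟩ := (mP e).1 (by rw [hPe]; simp)
    have hbd : b ≠ d := by
      rintro rfl
      linarith
    have hbe : b ≠ e := by
      rintro rfl
      linarith
    have hfe : f = ((1 - (1 - f e)) • unit e + ((1 - f d) + (1 - f e)) • unit M) +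
        (a • unit p + (1 : ℝ) • unit b + (1 - (1 - f d)) • unit d) := by
      funext i
      simp only [Pi.add_apply, Pi.smul_apply, smul_eq_mul, unit]
      by_cases h1 : i = p
      · subst h1
        simp [bp.symm, dp.symm, ep.symm, hpM, fp]
      · by_cases h2 : i = M
        · subst h2
          simp only [eM.symm, dM.symm, bM.symm, h1, if_true, if_false, fM]
          linarith
        · by_cases h3 : i = b
          · subst h3
            simp [h1, h2, hbd, hbe, b1]
          · by_cases h4 : i = d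
            · subst h4
              simp [h1, h2, h3, hde]
            · by_cases h5 : i = e
              · subst h5
                simp [h1, h2, h3, h4]
              · have h6 : i ∉ O := by
                  rw [hb]
                  simpa using h3
                have h7 : i ∉ P := by
                  rw [hPe]
                  simp [h4, h5]
                rw [hz i h1 h2 h6 h7]
                simp [h1, h2, h3, h4, h5]
    exact special2 hs hd hT bp.symm dp.symm ep.symm hpM hbd hbe bM hde dM eM a κ (1 - f d)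
      (1 - f e) ha ha' hκ hκ' (by linarith) (by linarith) (by linarith) f hfe

omit hd hs in
theorem tri3_hsq_le (E : Finset J) (f : J → ℝ) (hf : ∀ i, 0 ≤ f i) (hE : ∀ i ∈ E, f i ≤ 1) :
    tri3 (tau c) (hsq E f) (hsq E f) (hsq E f) ≤ tri3 (tau c) f f f := by
  refine tri3_mono (tau_nonneg hT) (fun a => ?_) (fun a => ?_)
  · unfold hsq
    have := hf a
    split_ifs <;> positivity
  · unfold hsq
    have h1 := hf a
    split_ifs with h
    · have := hE a h
      nlinarith
    · exact le_rfl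

/-- **Slack inequality, one large coordinate.** -/
theorem slack_box2 {p M : J} (hpM : p ≠ M) (f : J → ℝ) (a m κ : ℝ) (ha : 1 ≤ a)
    (ha' : a ≤ 5 / 3) (hκ0 : 0 ≤ κ) (hκ : κ ≤ 1 / 18) (hκ' : κ ≤ (5 - 3 * a) / 36)
    (fp : f p = a) (fM : f M = m) (m0 : 0 ≤ m) (m1 : m ≤ 1 / 12)
    (h01 : ∀ i, i ≠ p → i ≠ M → 0 ≤ f i ∧ f i ≤ 1) (hsum : ∑ i, f i = a + 3) :
    κ * tri3 (tau c) (hsq (univ.filter fun i => i ≠ p ∧ i ≠ M) f)
      (hsq (univ.filter fun i => i ≠ p ∧ i ≠ M) f)
      (hsq (univ.filter fun i => i ≠ p ∧ i ≠ M) f) ≤ bil c f f := by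
  set E : Finset J := univ.filter fun i => i ≠ p ∧ i ≠ M with hE
  have mE : ∀ i, i ∈ E ↔ i ≠ p ∧ i ≠ M := fun i => by simp [hE]
  have hf0 : ∀ i, 0 ≤ f i := by
    intro i
    by_cases h1 : i = p
    · rw [h1, fp]; linarith
    · by_cases h2 : i = M
      · rw [h2, fM]; exact m0
      · exact (h01 i h1 h2).1
  obtain ⟨g, hg, hmin, hint⟩ := exists_min_slack hs hd hT E f (fun i _ => hf0 i) (∑ i ∈ E, f i) κ
    hκ0 hκ ⟨f, fun _ _ => rfl, fun i hi => h01 i ((mE i).1 hi).1 ((mE i).1 hi).2, rfl⟩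
  have h1 := hmin f ⟨fun _ _ => rfl, fun i hi => h01 i ((mE i).1 hi).1 ((mE i).1 hi).2, rfl⟩
  have gp : g p = a := by rw [hg.1 p (fun h => ((mE p).1 h).1 rfl), fp]
  have gM : g M = m := by rw [hg.1 M (fun h => ((mE M).1 h).2 rfl), fM]
  have hgsum : ∑ i, g i = a + 3 := by
    rw [← hsum, ← Finset.sum_filter_add_sum_filter_not univ (fun i => i ∈ E),
      ← Finset.sum_filter_add_sum_filter_not univ (fun i => i ∈ E) f]
    congr 1
    · rw [Finset.filter_mem_eq_inter, Finset.univ_inter]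
      exact hg.2.2
    · exact Finset.sum_congr rfl fun i hi => hg.1 i (by simpa using hi)
  have hg0 : ∀ i, 0 ≤ g i := by
    intro i
    by_cases h : i ∈ E
    · exact (hg.2.1 i h).1
    · rw [hg.1 i h]
      exact hf0 i
  have h2 := slack_point hs hd hT hpM g a m κ ha ha' hκ0 hκ hκ' gp gM m0 m1
    (fun i hi hi' => hg.2.1 i ((mE i).2 ⟨hi, hi'⟩)) hgsum
    (fun i j l a1 a2 a3 a4 a5 a6 hij hjl hil => hint i j l ((mE i).2 ⟨a1, a2⟩)
      ((mE j).2 ⟨a3, a4⟩) ((mE l).2 ⟨a5, a6⟩) hij hjl hil)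
  have h3 := tri3_hsq_le (c := c) hT E g hg0 fun i hi => (hg.2.1 i hi).2
  have h4 := mul_le_mul_of_nonneg_left h3 hκ0
  linarith

/-- **Slack inequality, no large coordinate.** -/
theorem slack_box1 {M : J} (f : J → ℝ) (m κ : ℝ) (hκ0 : 0 ≤ κ) (hκ : κ ≤ 1 / 18)
    (fM : f M = m) (m0 : 0 ≤ m) (m1 : m ≤ 1 / 12)
    (h01 : ∀ i, i ≠ M → 0 ≤ f i ∧ f i ≤ 1) (hsum : ∑ i, f i = 4) :
    κ * tri3 (tau c) (hsq (univ.erase M) f) (hsq (univ.erase M) f)
      (hsq (univ.erase M) f) ≤ bil c f f := by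
  set E : Finset J := univ.erase M with hE
  have mE : ∀ i, i ∈ E ↔ i ≠ M := fun i => by simp [hE]
  have hf0 : ∀ i, 0 ≤ f i := by
    intro i
    by_cases h2 : i = M
    · rw [h2, fM]; exact m0
    · exact (h01 i h2).1
  obtain ⟨g, hg, hmin, hint⟩ := exists_min_slack hs hd hT E f (fun i _ => hf0 i) (∑ i ∈ E, f i) κ
    hκ0 hκ ⟨f, fun _ _ => rfl, fun i hi => h01 i ((mE i).1 hi), rfl⟩
  have h1 := hmin f ⟨fun _ _ => rfl, fun i hi => h01 i ((mE i).1 hi), rfl⟩
  have gM : g M = m := by rw [hg.1 M (fun h => ((mE M).1 h) rfl), fM]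
  have hgsum : ∑ i, g i = 4 := by
    rw [← hsum, ← Finset.sum_filter_add_sum_filter_not univ (fun i => i ∈ E),
      ← Finset.sum_filter_add_sum_filter_not univ (fun i => i ∈ E) f]
    congr 1
    · rw [Finset.filter_mem_eq_inter, Finset.univ_inter]
      exact hg.2.2
    · exact Finset.sum_congr rfl fun i hi => hg.1 i (by simpa using hi)
  have hg0 : ∀ i, 0 ≤ g i := by
    intro i
    by_cases h : i ∈ E
    · exact (hg.2.1 i h).1
    · rw [hg.1 i h]
      exact hf0 i
  obtain ⟨p, hpM, gp⟩ : ∃ p, p ≠ M ∧ g p = 1 := by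
    by_contra hcon
    push Not at hcon
    set P : Finset J := univ.filter fun i => i ≠ M ∧ 0 < g i ∧ g i < 1 with hP
    have mP : ∀ i, i ∈ P ↔ i ≠ M ∧ 0 < g i ∧ g i < 1 := fun i => by simp [hP]
    have hP2 : P.card ≤ 2 := by
      by_contra h
      push Not at h
      obtain ⟨i, hi, j, hj, l, hl, hij, hil, hjl⟩ := Finset.two_lt_card.1 h
      have hi' := (mP i).1 hi
      have hj' := (mP j).1 hj
      have hl' := (mP l).1 hl
      exact hint i j l ((mE i).2 hi'.1) ((mE j).2 hj'.1) ((mE l).2 hl'.1) hij hjl hil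
        ⟨hi'.2, hj'.2, hl'.2⟩
    have hdec : ∀ i, g i = (if i = M then m else 0) + (if i ∈ P then g i else 0) := by
      intro i
      by_cases h1' : i = M
      · have h3 : i ∉ P := fun h => ((mP i).1 h).1 h1'
        rw [if_pos h1', if_neg h3, h1', gM]
        ring
      · rw [if_neg h1']
        by_cases h3 : i ∈ P
        · rw [if_pos h3]
          ring
        · rw [if_neg h3]
          have h4 := hg.2.1 i ((mE i).2 h1')
          have h5 := hcon i h1'
          by_contra h6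
          rw [mP] at h3
          exact h3 ⟨h1', lt_of_le_of_ne h4.1 fun h => h6 (by rw [← h]; ring),
            lt_of_le_of_ne h4.2 h5⟩
    have h2 : ∑ i, g i = ∑ i, ((if i = M then m else 0) + (if i ∈ P then g i else 0)) :=
      Finset.sum_congr rfl fun i _ => hdec i
    simp only [Finset.sum_add_distrib, Finset.sum_ite_eq', mem_univ, if_true,
      Finset.sum_ite_mem, Finset.univ_inter] at h2
    have hPle : ∑ i ∈ P, g i ≤ P.card := by
      calc ∑ i ∈ P, g i ≤ ∑ _i ∈ P, (1 : ℝ) :=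
            Finset.sum_le_sum fun i hi => ((mP i).1 hi).2.2.le
        _ = P.card := by simp
    have h3 : (P.card : ℝ) ≤ 2 := by exact_mod_cast hP2
    linarith
  have h2 := slack_point hs hd hT hpM g 1 m κ le_rfl (by norm_num) hκ0 hκ (by linarith) gp gM m0
    m1 (fun i hi hi' => hg.2.1 i ((mE i).2 hi')) (by rw [hgsum]; norm_num)
    (fun i j l a1 a2 a3 a4 a5 a6 hij hjl hil => hint i j l ((mE i).2 a2)
      ((mE j).2 a4) ((mE l).2 a6) hij hjl hil)
  have h3 := tri3_hsq_le (c := c) hT E g hg0 fun i hi => (hg.2.1 i hi).2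
  have h4 := mul_le_mul_of_nonneg_left h3 hκ0
  linarith

end Pool.Agent.MP_dd827d_co
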