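import Pool.Agent.Lib.MP_dd827d_co.LPSharp

/-!
The dual inequality with relative slack, and its averaging consequences.
-/

namespace Pool.Agent.MP_dd827d_co

open Finset Function

section
variable {J : Type*} [Fintype J] [DecidableEq J]

/-- the dual inequality with slack `β` -/
def Slk (N : J → ℝ) (β : ℝ) : Prop :=
  ∀ c : J → J → ℝ, (∀ a b, c a b = c b a) → (∀ a, c a a = 0) →
    (∀ a b d, a ≠ b → b ≠ d → a ≠ d → 0 ≤ c a b + c b d + c a d) →
    β * tri3 (tau c) N N N ≤ bil c N N

theorem Slk.reindex {J' : Type*} [Fintype J'] [DecidableEq J'] {N : J → ℝ} {β : ℝ}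
    (h : Slk N β) (e : J' ≃ J) : Slk (fun j => N (e j)) β := by
  intro c hs hd hT
  have h1 := h (fun a b => c (e.symm a) (e.symm b)) (fun a b => hs _ _) (fun a => hd _)
    (fun a b d h1 h2 h3 => hT _ _ _ (fun h => h1 (e.symm.injective h))
      (fun h => h2 (e.symm.injective h)) (fun h => h3 (e.symm.injective h)))
  have e1 : bil (fun a b => c (e.symm a) (e.symm b)) N N =
      bil c (fun j => N (e j)) (fun j => N (e j)) := by
    unfold bil
    rw [← Equiv.sum_comp e]
    refine Finset.sum_congr rfl fun a _ => ?_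
    rw [← Equiv.sum_comp e]
    refine Finset.sum_congr rfl fun b _ => ?_
    simp
  have e2 : tri3 (tau fun a b => c (e.symm a) (e.symm b)) N N N =
      tri3 (tau c) (fun j => N (e j)) (fun j => N (e j)) (fun j => N (e j)) := by
    unfold tri3
    rw [← Equiv.sum_comp e]
    refine Finset.sum_congr rfl fun a _ => ?_
    rw [← Equiv.sum_comp e]
    refine Finset.sum_congr rfl fun b _ => ?_
    rw [← Equiv.sum_comp e]
    refine Finset.sum_congr rfl fun d _ => ?_
    have : tau (fun a b => c (e.symm a) (e.symm b)) (e a) (e b) (e d) = tau c a b d := by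
      unfold tau
      by_cases hD : Dist3 a b d
      · rw [if_pos hD, if_pos (show Dist3 (e a) (e b) (e d) from
          ⟨e.injective.ne hD.1, e.injective.ne hD.2.1, e.injective.ne hD.2.2⟩)]
        simp
      · rw [if_neg hD, if_neg fun h : Dist3 (e a) (e b) (e d) =>
          hD ⟨fun h' => h.1 (by rw [h']), fun h' => h.2.1 (by rw [h']),
            fun h' => h.2.2 (by rw [h'])⟩]
    rw [this]
  rw [← e1, ← e2]
  exact h1

/-- From a primal solution with slack to the dual inequality with slack. -/
theorem slk_of_outline {N : J → ℝ} {y : J → J → J → ℝ} (hy : IsOutline N y) {β : ℝ}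
    (hl : ∀ a b d, a ≠ b → b ≠ d → a ≠ d → β * (N a * N b * N d) ≤ y a b d) :
    Slk N (β / 3) := by
  intro c hs hd hT
  have e3 : bil c N N = ∑ a, ∑ b, ∑ d, c a b * y a b d := by
    unfold bil
    refine Finset.sum_congr rfl fun a _ => Finset.sum_congr rfl fun b _ => ?_
    rw [← Finset.mul_sum]
    by_cases hab : a = b
    · subst hab
      simp [hy.off12, hd]
    · rw [hy.s3 a b hab]
      ring
  have e2 : bil c N N = ∑ a, ∑ b, ∑ d, c a d * y a b d := by
    have h4 : ∑ a, ∑ b, ∑ d, c a d * y a b d = ∑ a, ∑ d, ∑ b, c a d * y a b d :=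
      Finset.sum_congr rfl fun a _ => Finset.sum_comm
    rw [h4]
    unfold bil
    refine Finset.sum_congr rfl fun a _ => Finset.sum_congr rfl fun b _ => ?_
    rw [← Finset.mul_sum]
    by_cases hab : a = b
    · subst hab
      simp [hy.off13, hd]
    · rw [hy.s2 a b hab]
      ring
  have e1 : bil c N N = ∑ a, ∑ b, ∑ d, c b d * y a b d := by
    have h4 : ∑ a, ∑ b, ∑ d, c b d * y a b d = ∑ b, ∑ d, ∑ a, c b d * y a b d := by
      rw [Finset.sum_comm]
      exact Finset.sum_congr rfl fun a _ => Finset.sum_comm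
    rw [h4]
    unfold bil
    refine Finset.sum_congr rfl fun a _ => Finset.sum_congr rfl fun b _ => ?_
    rw [← Finset.mul_sum]
    by_cases hab : a = b
    · subst hab
      simp [hy.off23, hd]
    · rw [hy.s1 a b hab]
      ring
  have hsum : 3 * bil c N N = ∑ a, ∑ b, ∑ d, (c a b + c b d + c a d) * y a b d := by
    have h5 : ∀ a b d, (c a b + c b d + c a d) * y a b d =
        c a b * y a b d + c b d * y a b d + c a d * y a b d := fun a b d => by ring
    simp only [h5, Finset.sum_add_distrib]
    rw [← e3, ← e2, ← e1]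
    ring
  have hle : β * tri3 (tau c) N N N ≤ ∑ a, ∑ b, ∑ d, (c a b + c b d + c a d) * y a b d := by
    unfold tri3
    simp only [Finset.mul_sum]
    refine Finset.sum_le_sum fun a _ => Finset.sum_le_sum fun b _ =>
      Finset.sum_le_sum fun d _ => ?_
    by_cases hD : Dist3 a b d
    · rw [tau_pos hD.1 hD.2.1 hD.2.2]
      have h1 := mul_le_mul_of_nonneg_left (hl a b d hD.1 hD.2.1 hD.2.2)
        (hT a b d hD.1 hD.2.1 hD.2.2)
      linarith
    · have h0 : tau c a b d = 0 := if_neg hD
      rw [h0]
      unfold Dist3 at hD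
      have hy0 : y a b d = 0 := by
        by_cases h1 : a = b
        · subst h1
          rw [hy.off12]
        · by_cases h2 : b = d
          · subst h2
            rw [hy.off23]
          · have h3 : a = d := by
              by_contra h3
              exact hD ⟨h1, h2, h3⟩
            subst h3
            rw [hy.off13]
      rw [hy0]
      simp
  linarith

/-- distinct elements outside `{a, b}` -/
def Out (a b x y z : J) : Prop :=
  (x ≠ a ∧ x ≠ b) ∧ (y ≠ a ∧ y ≠ b) ∧ (z ≠ a ∧ z ≠ b) ∧ x ≠ y ∧ y ≠ z ∧ x ≠ z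

instance (a b x y z : J) : Decidable (Out a b x y z) := by unfold Out; infer_instance

/-- the number of helpers -/
def helpers (N : J → ℝ) (a b : J) : ℝ :=
  ∑ x, ∑ y, ∑ z, if Out a b x y z then N x * N y * N z else 0

theorem sum_outside (N : J → ℝ) (h0 : ∀ a, 0 ≤ N a) (S : ℝ) (hS : ∑ a, N a = S)
    (E : Finset J) (t : ℝ) (hE : ∑ a ∈ E, N a ≤ t) :
    S - t ≤ ∑ z, if z ∈ E then 0 else N z := by
  have h1 : ∑ z, (if z ∈ E then 0 else N z) + ∑ z, (if z ∈ E then N z else 0) = S := by
    rw [← Finset.sum_add_distrib, ← hS]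
    refine Finset.sum_congr rfl fun z _ => ?_
    split_ifs <;> ring
  have h2 : ∑ z, (if z ∈ E then N z else 0) = ∑ z ∈ E, N z := by
    rw [Finset.sum_ite_mem, Finset.univ_inter]
  linarith

theorem sum_le_four (N : J → ℝ) (h0 : ∀ a, 0 ≤ N a) (a b x y : J) :
    ∑ i ∈ ({a, b, x, y} : Finset J), N i ≤ N a + N b + N x + N y := by
  have h1 : ∀ (s : Finset J) (i : J), ∑ j ∈ insert i s, N j ≤ N i + ∑ j ∈ s, N j := by
    intro s i
    by_cases hi : i ∈ s
    · rw [Finset.insert_eq_of_mem hi]
      linarith [h0 i]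
    · rw [Finset.sum_insert hi]
  have h2 := h1 {b, x, y} a
  have h3 := h1 {x, y} b
  have h4 := h1 {y} x
  rw [Finset.sum_singleton] at h4
  linarith

theorem helpers_ge (N : J → ℝ) (h0 : ∀ a, 0 ≤ N a) (S : ℝ) (hS : ∑ a, N a = S) (a b : J)
    (t : ℝ) (ht : 0 ≤ t)
    (h1 : N a + N b ≤ S - t) (h2 : ∀ x, x ≠ a → x ≠ b → N a + N b + N x ≤ S - t)
    (h3 : ∀ x y, x ≠ a → x ≠ b → y ≠ a → y ≠ b → x ≠ y → N a + N b + N x + N y ≤ S - t) :
    t ^ 3 ≤ helpers N a b := by
  have z3 : ∀ x y, ((x ≠ a ∧ x ≠ b) ∧ (y ≠ a ∧ y ≠ b) ∧ x ≠ y) → N x * N y * t ≤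
      ∑ z, if Out a b x y z then N x * N y * N z else 0 := by
    rintro x y ⟨hx, hy, hxy⟩
    have h4 := sum_outside N h0 S hS {a, b, x, y} (S - t)
      ((sum_le_four N h0 a b x y).trans (h3 x y hx.1 hx.2 hy.1 hy.2 hxy))
    have h5 : ∑ z, (if Out a b x y z then N x * N y * N z else 0) =
        N x * N y * ∑ z, if z ∈ ({a, b, x, y} : Finset J) then 0 else N z := by
      rw [Finset.mul_sum]
      refine Finset.sum_congr rfl fun z _ => ?_
      by_cases hz : z ∈ ({a, b, x, y} : Finset J)
      · rw [if_pos hz, if_neg]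
        · ring
        · rintro ⟨-, -, hz1, -, hz2, hz3⟩
          simp only [mem_insert, mem_singleton] at hz
          rcases hz with h | h | h | h
          · exact hz1.1 h
          · exact hz1.2 h
          · exact hz3 h.symm
          · exact hz2 h.symm
      · rw [if_neg hz, if_pos]
        simp only [mem_insert, mem_singleton, not_or] at hz
        exact ⟨hx, hy, ⟨hz.1, hz.2.1⟩, hxy, fun h => hz.2.2.2 h.symm, fun h => hz.2.2.1 h.symm⟩
    rw [h5]
    exact mul_le_mul_of_nonneg_left (by linarith) (mul_nonneg (h0 x) (h0 y))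
  have z2 : ∀ x, (x ≠ a ∧ x ≠ b) → N x * t ^ 2 ≤
      ∑ y, ∑ z, if Out a b x y z then N x * N y * N z else 0 := by
    intro x hx
    have h4 := sum_outside N h0 S hS {a, b, x, x} (S - t) (by
      have h5 : ({a, b, x, x} : Finset J) = {a, b, x} := by simp
      rw [h5]
      have h6 := sum_le_four N h0 a b x x
      rw [h5] at h6
      have h7 : ∑ i ∈ ({a, b, x} : Finset J), N i ≤ N a + N b + N x := by
        have h1 : ∀ (s : Finset J) (i : J), ∑ j ∈ insert i s, N j ≤ N i + ∑ j ∈ s, N j := by
          intro s i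
          by_cases hi : i ∈ s
          · rw [Finset.insert_eq_of_mem hi]
            linarith [h0 i]
          · rw [Finset.sum_insert hi]
        have h2 := h1 {b, x} a
        have h3 := h1 {x} b
        rw [Finset.sum_singleton] at h3
        linarith
      exact h7.trans (h2 x hx.1 hx.2))
    calc N x * t ^ 2 = (N x * t) * t := by ring
      _ ≤ (N x * t) * ∑ y, (if y ∈ ({a, b, x, x} : Finset J) then 0 else N y) :=
          mul_le_mul_of_nonneg_left (by linarith) (mul_nonneg (h0 x) ht)
      _ = ∑ y, if y ∈ ({a, b, x, x} : Finset J) then 0 else N x * N y * t := by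
          rw [Finset.mul_sum]
          refine Finset.sum_congr rfl fun y _ => ?_
          split_ifs <;> ring
      _ ≤ _ := by
          refine Finset.sum_le_sum fun y _ => ?_
          split_ifs with hy
          · refine Finset.sum_nonneg fun z _ => ?_
            split_ifs
            · exact mul_nonneg (mul_nonneg (h0 x) (h0 y)) (h0 z)
            · exact le_rfl
          · simp only [mem_insert, mem_singleton, not_or] at hy
            exact z3 x y ⟨hx, ⟨hy.1, hy.2.1⟩, fun h => hy.2.2.1 h.symm⟩
  have h4 := sum_outside N h0 S hS {a, b, a, b} (S - t) (by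
    have h5 : ({a, b, a, b} : Finset J) = {a, b} := by
      ext z
      simp only [mem_insert, mem_singleton]
      tauto
    rw [h5]
    have h7 : ∑ i ∈ ({a, b} : Finset J), N i ≤ N a + N b := by
      have h1 : ∀ (s : Finset J) (i : J), ∑ j ∈ insert i s, N j ≤ N i + ∑ j ∈ s, N j := by
        intro s i
        by_cases hi : i ∈ s
        · rw [Finset.insert_eq_of_mem hi]
          linarith [h0 i]
        · rw [Finset.sum_insert hi]
      have h2 := h1 {b} a
      rw [Finset.sum_singleton] at h2
      linarith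
    exact h7.trans h1)
  calc t ^ 3 = t * t ^ 2 := by ring
    _ ≤ (∑ x, if x ∈ ({a, b, a, b} : Finset J) then 0 else N x) * t ^ 2 :=
        mul_le_mul_of_nonneg_right (by linarith) (by positivity)
    _ = ∑ x, if x ∈ ({a, b, a, b} : Finset J) then 0 else N x * t ^ 2 := by
        rw [Finset.sum_mul]
        refine Finset.sum_congr rfl fun x _ => ?_
        split_ifs <;> ring
    _ ≤ helpers N a b := by
        refine Finset.sum_le_sum fun x _ => ?_
        split_ifs with hx
        · refine Finset.sum_nonneg fun y _ => Finset.sum_nonneg fun z _ => ?_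
          split_ifs
          · exact mul_nonneg (mul_nonneg (h0 x) (h0 y)) (h0 z)
          · exact le_rfl
        · simp only [mem_insert, mem_singleton, not_or] at hx
          exact z2 x ⟨hx.1, hx.2.1⟩

section avg
variable {c : J → J → ℝ} (hs : ∀ a b, c a b = c b a)
  (hT : ∀ a b d, a ≠ b → b ≠ d → a ≠ d → 0 ≤ c a b + c b d + c a d)
  {N : J → ℝ} (h0 : ∀ a, 0 ≤ N a) {S : ℝ} (hS : ∑ a, N a = S)
include hs hT h0 hS

/-- upper bound of an edge weight -/
theorem edge_upper {a b : J} (hab : a ≠ b) :
    3 * (helpers N a b * c a b) ≤ 3 * S ^ 2 * tri3 (tau c) (unit a) (unit b) N +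
      tri3 (tau c) N N N := by
  have hτ := tau_nonneg hT
  have hpt : ∀ x y z, (if Out a b x y z then N x * N y * N z else 0) * (3 * c a b) ≤
      tau c a b x * N x * N y * N z + tau c a b y * N x * N y * N z +
        tau c a b z * N x * N y * N z + tau c x y z * N x * N y * N z := by
    intro x y z
    have hn : 0 ≤ N x * N y * N z := mul_nonneg (mul_nonneg (h0 x) (h0 y)) (h0 z)
    have hr : tau c a b x * N x * N y * N z + tau c a b y * N x * N y * N z +
        tau c a b z * N x * N y * N z + tau c x y z * N x * N y * N z =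
        (N x * N y * N z) * (tau c a b x + tau c a b y + tau c a b z + tau c x y z) := by ring
    rw [hr]
    by_cases h : Out a b x y z
    · rw [if_pos h]
      refine mul_le_mul_of_nonneg_left ?_ hn
      obtain ⟨hx, hy, hz, hxy, hyz, hxz⟩ := h
      rw [tau_pos hab hx.2.symm hx.1.symm, tau_pos hab hy.2.symm hy.1.symm,
        tau_pos hab hz.2.symm hz.1.symm, tau_pos hxy hyz hxz]
      have t1 := hT a x y hx.1.symm hxy hy.1.symm
      have t2 := hT a x z hx.1.symm hxz hz.1.symm
      have t3 := hT a y z hy.1.symm hyz hz.1.symm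
      have t4 := hT b x y hx.2.symm hxy hy.2.symm
      have t5 := hT b x z hx.2.symm hxz hz.2.symm
      have t6 := hT b y z hy.2.symm hyz hz.2.symm
      linarith
    · rw [if_neg h, zero_mul]
      have := hτ a b x
      have := hτ a b y
      have := hτ a b z
      have := hτ x y z
      positivity
  have hsum : helpers N a b * (3 * c a b) ≤ ∑ x, ∑ y, ∑ z, (tau c a b x * N x * N y * N z +
      tau c a b y * N x * N y * N z + tau c a b z * N x * N y * N z +
        tau c x y z * N x * N y * N z) := by
    unfold helpers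
    simp only [Finset.sum_mul]
    exact Finset.sum_le_sum fun x _ => Finset.sum_le_sum fun y _ =>
      Finset.sum_le_sum fun z _ => hpt x y z
  have e1 : ∑ x, ∑ y, ∑ z, tau c a b x * N x * N y * N z =
      S ^ 2 * tri3 (tau c) (unit a) (unit b) N := by
    rw [tri3_unit12, Finset.mul_sum]
    refine Finset.sum_congr rfl fun x _ => ?_
    simp only [← Finset.mul_sum, hS]
    rw [← Finset.sum_mul, ← Finset.mul_sum, hS]
    ring
  have e2 : ∑ x, ∑ y, ∑ z, tau c a b y * N x * N y * N z =
      S ^ 2 * tri3 (tau c) (unit a) (unit b) N := by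
    rw [← e1, Finset.sum_comm]
    refine Finset.sum_congr rfl fun x _ => Finset.sum_congr rfl fun y _ =>
      Finset.sum_congr rfl fun z _ => ?_
    ring
  have e3 : ∑ x, ∑ y, ∑ z, tau c a b z * N x * N y * N z =
      S ^ 2 * tri3 (tau c) (unit a) (unit b) N := by
    rw [← e2]
    refine Finset.sum_congr rfl fun x _ => ?_
    rw [Finset.sum_comm]
    refine Finset.sum_congr rfl fun y _ => Finset.sum_congr rfl fun z _ => ?_
    ring
  have e4 : ∑ x, ∑ y, ∑ z, tau c x y z * N x * N y * N z = tri3 (tau c) N N N := rfl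
  simp only [Finset.sum_add_distrib] at hsum
  rw [e1, e2, e3, e4] at hsum
  linarith

/-- lower bound of an edge weight -/
theorem edge_lower {a b : J} (hab : a ≠ b) :
    - (2 * (helpers N a b * c a b)) ≤ S * (tri3 (tau c) (unit a) N N +
      tri3 (tau c) (unit b) N N) := by
  have hτ := tau_nonneg hT
  have hpt : ∀ x y z, (if Out a b x y z then N x * N y * N z else 0) * (-(6 * c a b)) ≤
      (tau c a x y + tau c b x y) * N x * N y * N z +
        (tau c a x z + tau c b x z) * N x * N y * N z +
        (tau c a y z + tau c b y z) * N x * N y * N z := by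
    intro x y z
    have hn : 0 ≤ N x * N y * N z := mul_nonneg (mul_nonneg (h0 x) (h0 y)) (h0 z)
    have hr : (tau c a x y + tau c b x y) * N x * N y * N z +
        (tau c a x z + tau c b x z) * N x * N y * N z +
        (tau c a y z + tau c b y z) * N x * N y * N z =
        (N x * N y * N z) * (tau c a x y + tau c b x y + (tau c a x z + tau c b x z) +
          (tau c a y z + tau c b y z)) := by ring
    rw [hr]
    by_cases h : Out a b x y z
    · rw [if_pos h]
      refine mul_le_mul_of_nonneg_left ?_ hn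
      obtain ⟨hx, hy, hz, hxy, hyz, hxz⟩ := h
      rw [tau_pos hx.1.symm hxy hy.1.symm, tau_pos hx.1.symm hxz hz.1.symm,
        tau_pos hy.1.symm hyz hz.1.symm, tau_pos hx.2.symm hxy hy.2.symm,
        tau_pos hx.2.symm hxz hz.2.symm, tau_pos hy.2.symm hyz hz.2.symm]
      have t1 := hT a b x hab hx.2.symm hx.1.symm
      have t2 := hT a b y hab hy.2.symm hy.1.symm
      have t3 := hT a b z hab hz.2.symm hz.1.symm
      have t4 := hT x y z hxy hyz hxz
      linarith
    · rw [if_neg h, zero_mul]
      have := hτ a x y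
      have := hτ b x y
      have := hτ a x z
      have := hτ b x z
      have := hτ a y z
      have := hτ b y z
      positivity
  have hsum : helpers N a b * (-(6 * c a b)) ≤ ∑ x, ∑ y, ∑ z,
      ((tau c a x y + tau c b x y) * N x * N y * N z +
        (tau c a x z + tau c b x z) * N x * N y * N z +
        (tau c a y z + tau c b y z) * N x * N y * N z) := by
    unfold helpers
    simp only [Finset.sum_mul]
    exact Finset.sum_le_sum fun x _ => Finset.sum_le_sum fun y _ =>
      Finset.sum_le_sum fun z _ => hpt x y z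
  have e1 : ∑ x, ∑ y, ∑ z, (tau c a x y + tau c b x y) * N x * N y * N z =
      S * (tri3 (tau c) (unit a) N N + tri3 (tau c) (unit b) N N) := by
    rw [tri3_unit1, tri3_unit1, ← Finset.sum_add_distrib, Finset.mul_sum]
    refine Finset.sum_congr rfl fun x _ => ?_
    rw [← Finset.sum_add_distrib, Finset.mul_sum]
    refine Finset.sum_congr rfl fun y _ => ?_
    rw [← Finset.mul_sum, hS]
    ring
  have e2 : ∑ x, ∑ y, ∑ z, (tau c a x z + tau c b x z) * N x * N y * N z =
      S * (tri3 (tau c) (unit a) N N + tri3 (tau c) (unit b) N N) := by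
    rw [← e1]
    refine Finset.sum_congr rfl fun x _ => ?_
    rw [Finset.sum_comm]
    refine Finset.sum_congr rfl fun y _ => Finset.sum_congr rfl fun z _ => ?_
    ring
  have e3 : ∑ x, ∑ y, ∑ z, (tau c a y z + tau c b y z) * N x * N y * N z =
      S * (tri3 (tau c) (unit a) N N + tri3 (tau c) (unit b) N N) := by
    rw [← e2, Finset.sum_comm]
    refine Finset.sum_congr rfl fun x _ => Finset.sum_congr rfl fun y _ =>
      Finset.sum_congr rfl fun z _ => ?_
    ring
  simp only [Finset.sum_add_distrib] at hsum e1 e2 e3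
  linarith

end avg

end

end Pool.Agent.MP_dd827d_co
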