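import Pool.Agent.Lib.MP_dd827d_co.Slk

/-!
Merging many small classes into `M` equal classes keeps the dual inequality with slack.
-/

namespace Pool.Agent.MP_dd827d_co

open Finset Function

section sums
variable {K D : Type*} [Fintype K] [DecidableEq K] [Fintype D] [DecidableEq D]

omit [DecidableEq K] [DecidableEq D] in
theorem bil_elim (c : K ⊕ D → K ⊕ D → ℝ) (hs : ∀ a b, c a b = c b a) (N : K → ℝ) (m : D → ℝ) :
    bil c (Sum.elim N m) (Sum.elim N m) =
      ∑ k, ∑ l, c (.inl k) (.inl l) * N k * N l + 2 * ∑ k, ∑ d, c (.inl k) (.inr d) * N k * m d +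
      ∑ d, ∑ d', c (.inr d) (.inr d') * m d * m d' := by
  unfold bil
  simp only [Fintype.sum_sum_type, Sum.elim_inl, Sum.elim_inr, Finset.sum_add_distrib]
  have h : ∑ d, ∑ k, c (.inr d) (.inl k) * m d * N k = ∑ k, ∑ d, c (.inl k) (.inr d) * N k * m d := by
    rw [Finset.sum_comm]
    refine Finset.sum_congr rfl fun k _ => Finset.sum_congr rfl fun d _ => ?_
    rw [hs]
    ring
  rw [h]
  ring

theorem tri3_elim (c : K ⊕ D → K ⊕ D → ℝ) (hs : ∀ a b, c a b = c b a) (N : K → ℝ) (m : D → ℝ) :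
    tri3 (tau c) (Sum.elim N m) (Sum.elim N m) (Sum.elim N m) =
      ∑ k, ∑ l, ∑ p, tau c (.inl k) (.inl l) (.inl p) * N k * N l * N p +
      3 * ∑ d, ∑ k, ∑ l, tau c (.inr d) (.inl k) (.inl l) * m d * N k * N l +
      3 * ∑ d, ∑ d', ∑ k, tau c (.inr d) (.inr d') (.inl k) * m d * m d' * N k +
      ∑ d, ∑ d', ∑ d'', tau c (.inr d) (.inr d') (.inr d'') * m d * m d' * m d'' := by
  have h : Sum.elim N m = Sum.elim N (fun _ => 0) + Sum.elim (fun _ => 0) m := by
    funext x
    rcases x with x | x <;> simp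
  rw [h, tri3_cube hs]
  simp [tri3, Fintype.sum_sum_type]

omit [Fintype K] [Fintype D] in
theorem tau_lll (c : K ⊕ D → K ⊕ D → ℝ) (k l p : K) : tau c (.inl k) (.inl l) (.inl p) =
    if Dist3 k l p then c (.inl k) (.inl l) + c (.inl l) (.inl p) + c (.inl k) (.inl p) else 0 := by
  unfold tau
  by_cases h : Dist3 k l p
  · rw [if_pos h, if_pos]
    exact ⟨by simpa using h.1, by simpa using h.2.1, by simpa using h.2.2⟩
  · rw [if_neg h, if_neg]
    rintro ⟨h1, h2, h3⟩
    exact h ⟨by simpa using h1, by simpa using h2, by simpa using h3⟩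

omit [Fintype K] [Fintype D] in
theorem tau_rrr (c : K ⊕ D → K ⊕ D → ℝ) (k l p : D) : tau c (.inr k) (.inr l) (.inr p) =
    if Dist3 k l p then c (.inr k) (.inr l) + c (.inr l) (.inr p) + c (.inr k) (.inr p) else 0 := by
  unfold tau
  by_cases h : Dist3 k l p
  · rw [if_pos h, if_pos]
    exact ⟨by simpa using h.1, by simpa using h.2.1, by simpa using h.2.2⟩
  · rw [if_neg h, if_neg]
    rintro ⟨h1, h2, h3⟩
    exact h ⟨by simpa using h1, by simpa using h2, by simpa using h3⟩

omit [Fintype K] [Fintype D] in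
theorem tau_rll (c : K ⊕ D → K ⊕ D → ℝ) (d : D) (k l : K) : tau c (.inr d) (.inl k) (.inl l) =
    if k = l then 0 else c (.inr d) (.inl k) + c (.inl k) (.inl l) + c (.inr d) (.inl l) := by
  unfold tau
  by_cases h : k = l
  · subst h
    rw [if_pos rfl, if_neg fun h => h.2.1 rfl]
  · rw [if_neg h, if_pos]
    exact ⟨by simp, by simpa using h, by simp⟩

omit [Fintype K] [Fintype D] in
theorem tau_rrl (c : K ⊕ D → K ⊕ D → ℝ) (d d' : D) (k : K) : tau c (.inr d) (.inr d') (.inl k) =
    if d = d' then 0 else c (.inr d) (.inr d') + c (.inr d') (.inl k) + c (.inr d) (.inl k) := by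
  unfold tau
  by_cases h : d = d'
  · subst h
    rw [if_pos rfl, if_neg fun h => h.1 rfl]
  · rw [if_neg h, if_pos]
    exact ⟨by simpa using h, by simp, by simp⟩

theorem sum_dist3_le (m : D → ℝ) (m0 : ∀ d, 0 ≤ m d) :
    (∑ d, m d) ^ 3 - 3 * (∑ d, m d) * ∑ d, m d ^ 2 ≤
      ∑ d, ∑ d', ∑ d'', if Dist3 d d' d'' then m d * m d' * m d'' else 0 := by
  have h : ∀ d d' d'', m d * m d' * m d'' - (if d = d' then m d * m d' * m d'' else 0) -
      (if d' = d'' then m d * m d' * m d'' else 0) -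
      (if d = d'' then m d * m d' * m d'' else 0) ≤
      if Dist3 d d' d'' then m d * m d' * m d'' else 0 := by
    intro d d' d''
    have hn : 0 ≤ m d * m d' * m d'' := mul_nonneg (mul_nonneg (m0 d) (m0 d')) (m0 d'')
    by_cases h1 : d = d'
    · have : ¬ Dist3 d d' d'' := fun h => h.1 h1
      rw [if_pos h1, if_neg this]
      split_ifs <;> linarith
    · by_cases h2 : d' = d''
      · have : ¬ Dist3 d d' d'' := fun h => h.2.1 h2
        rw [if_neg h1, if_pos h2, if_neg this]
        split_ifs <;> linarith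
      · by_cases h3 : d = d''
        · have : ¬ Dist3 d d' d'' := fun h => h.2.2 h3
          rw [if_neg h1, if_neg h2, if_pos h3, if_neg this]
          linarith
        · rw [if_neg h1, if_neg h2, if_neg h3, if_pos ⟨h1, h2, h3⟩]
          linarith
  have h1 := Finset.sum_le_sum fun d (_ : d ∈ (univ : Finset D)) =>
    Finset.sum_le_sum fun d' (_ : d' ∈ (univ : Finset D)) =>
      Finset.sum_le_sum fun d'' (_ : d'' ∈ (univ : Finset D)) => h d d' d''
  refine le_trans (le_of_eq ?_) h1
  simp only [Finset.sum_sub_distrib]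
  have e0 : ∑ d, ∑ d', ∑ d'', m d * m d' * m d'' = (∑ d, m d) ^ 3 := by
    simp only [← Finset.mul_sum, ← Finset.sum_mul]
    ring
  have e1 : ∑ d, ∑ d', ∑ d'', (if d = d' then m d * m d' * m d'' else 0) =
      (∑ d, m d) * ∑ d, m d ^ 2 := by
    have : ∀ d d', ∑ d'', (if d = d' then m d * m d' * m d'' else 0) =
        if d = d' then m d * m d' * ∑ d'', m d'' else 0 := by
      intro d d'
      split_ifs
      · rw [Finset.mul_sum]
      · simp
    simp only [this, Finset.sum_ite_eq, mem_univ, if_true]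
    rw [← Finset.sum_mul, mul_comm]
    congr 1
    refine Finset.sum_congr rfl fun d _ => ?_
    ring
  have e2 : ∑ d, ∑ d', ∑ d'', (if d' = d'' then m d * m d' * m d'' else 0) =
      (∑ d, m d) * ∑ d, m d ^ 2 := by
    simp only [Finset.sum_ite_eq, mem_univ, if_true]
    have : ∀ d d', m d * m d' * m d' = m d * m d' ^ 2 := fun d d' => by ring
    simp only [this, ← Finset.mul_sum, ← Finset.sum_mul]
  have e3 : ∑ d, ∑ d', ∑ d'', (if d = d'' then m d * m d' * m d'' else 0) =
      (∑ d, m d) * ∑ d, m d ^ 2 := by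
    simp only [Finset.sum_ite_eq, mem_univ, if_true]
    have : ∀ d d', m d * m d' * m d = m d ^ 2 * m d' := fun d d' => by ring
    simp only [this, ← Finset.mul_sum, ← Finset.sum_mul]
    ring
  rw [e0, e1, e2, e3]
  ring

end sums

theorem tri3_mono' {J : Type*} [Fintype J] {τ : J → J → J → ℝ} (hτ : ∀ a b d, 0 ≤ τ a b d)
    {u v w u' v' w' : J → ℝ} (hu : ∀ a, 0 ≤ u a) (hv : ∀ a, 0 ≤ v a) (hw : ∀ a, 0 ≤ w a)
    (huu : ∀ a, u a ≤ u' a) (hvv : ∀ a, v a ≤ v' a) (hww : ∀ a, w a ≤ w' a) :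
    tri3 τ u v w ≤ tri3 τ u' v' w' := by
  unfold tri3
  refine Finset.sum_le_sum fun a _ => Finset.sum_le_sum fun b _ =>
    Finset.sum_le_sum fun d _ => ?_
  have := hτ a b d
  have ha := hu a
  have hb := hv b
  have hd := hw d
  have ha' := huu a
  have hb' := hvv b
  have hd' := hww d
  have va := ha.trans ha'
  have vb := hb.trans hb'
  gcongr

section fin
variable {M : ℕ}

theorem sum_fin_ne (x : Fin M → Fin M → ℝ) (B : Fin M → ℝ) (hx : ∀ j, x j j = 0) :
    ∑ j, ∑ j', (if j = j' then 0 else x j j' + B j' + B j) =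
      ∑ j, ∑ j', x j j' + 2 * ((M : ℝ) - 1) * ∑ j, B j := by
  have h : ∀ j j', (if j = j' then 0 else x j j' + B j' + B j) =
      x j j' + B j' + B j - (if j = j' then 2 * B j else 0) := by
    intro j j'
    by_cases hj : j = j'
    · subst hj
      rw [if_pos rfl, if_pos rfl, hx]
      ring
    · rw [if_neg hj, if_neg hj]
      ring
  simp only [h, Finset.sum_sub_distrib, Finset.sum_add_distrib, Finset.sum_ite_eq, mem_univ,
    if_true, Finset.sum_const, Finset.card_univ, Fintype.card_fin, nsmul_eq_mul,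
    ← Finset.mul_sum]
  ring

theorem sum_fin_dist3 (x : Fin M → Fin M → ℝ) (hx : ∀ j, x j j = 0) :
    ∑ j, ∑ j', ∑ j'', (if Dist3 j j' j'' then x j j' + x j' j'' + x j j'' else 0) =
      3 * ((M : ℝ) - 2) * ∑ j, ∑ j', x j j' := by
  have e1 : ∑ j, ∑ j', ∑ j'', (if Dist3 j j' j'' then x j j' else 0) =
      ((M : ℝ) - 2) * ∑ j, ∑ j', x j j' := by
    rw [Finset.mul_sum]
    refine Finset.sum_congr rfl fun j _ => ?_
    rw [Finset.mul_sum]
    refine Finset.sum_congr rfl fun j' _ => ?_
    by_cases hj : j = j'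
    · subst hj
      have : ∀ j'', (if Dist3 j j j'' then x j j else 0) = 0 := by
        intro j''
        rw [hx]
        simp
      simp only [this, hx]
      simp
    · have : ∀ j'', (if Dist3 j j' j'' then x j j' else 0) =
          x j j' - (if j'' = j then x j j' else 0) - (if j'' = j' then x j j' else 0) := by
        intro j''
        by_cases h1 : j'' = j
        · subst h1
          rw [if_neg fun h => h.2.2 rfl, if_pos rfl, if_neg hj]
          ring
        · by_cases h2 : j'' = j'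
          · subst h2
            rw [if_neg fun h => h.2.1 rfl, if_neg h1, if_pos rfl]
            ring
          · rw [if_pos ⟨hj, Ne.symm h2, Ne.symm h1⟩, if_neg h1, if_neg h2]
            ring
      simp only [this, Finset.sum_sub_distrib, Finset.sum_ite_eq', mem_univ, if_true,
        Finset.sum_const, Finset.card_univ, Fintype.card_fin, nsmul_eq_mul]
      ring
  have hD : ∀ j j' j'' : Fin M, Dist3 j j' j'' ↔ Dist3 j' j'' j := fun j j' j'' =>
    ⟨fun h => ⟨h.2.1, h.2.2.symm, h.1.symm⟩, fun h => ⟨h.2.2.symm, h.1, h.2.1.symm⟩⟩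
  have hD2 : ∀ j j' j'' : Fin M, Dist3 j j' j'' ↔ Dist3 j j'' j' := fun j j' j'' =>
    ⟨fun h => ⟨h.2.2, h.2.1.symm, h.1⟩, fun h => ⟨h.2.2, h.2.1.symm, h.1⟩⟩
  have e3 : ∑ j, ∑ j', ∑ j'', (if Dist3 j j' j'' then x j j'' else 0) =
      ((M : ℝ) - 2) * ∑ j, ∑ j', x j j' := by
    rw [← e1]
    refine Finset.sum_congr rfl fun j _ => ?_
    rw [Finset.sum_comm]
    refine Finset.sum_congr rfl fun j' _ => Finset.sum_congr rfl fun j'' _ => ?_
    by_cases h : Dist3 j j' j''
    · rw [if_pos h, if_pos ((hD2 _ _ _).1 h)]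
    · rw [if_neg h, if_neg fun h' => h ((hD2 _ _ _).2 h')]
  have e2 : ∑ j, ∑ j', ∑ j'', (if Dist3 j j' j'' then x j' j'' else 0) =
      ((M : ℝ) - 2) * ∑ j, ∑ j', x j j' := by
    rw [← e1, Finset.sum_comm]
    refine Finset.sum_congr rfl fun j _ => ?_
    rw [Finset.sum_comm]
    refine Finset.sum_congr rfl fun j' _ => Finset.sum_congr rfl fun j'' _ => ?_
    by_cases h : Dist3 j'' j j'
    · rw [if_pos h, if_pos ((hD _ _ _).1 h)]
    · rw [if_neg h, if_neg fun h' => h ((hD _ _ _).2 h')]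
  have hsplit : ∀ j j' j'', (if Dist3 j j' j'' then x j j' + x j' j'' + x j j'' else 0) =
      (if Dist3 j j' j'' then x j j' else 0) + (if Dist3 j j' j'' then x j' j'' else 0) +
        (if Dist3 j j' j'' then x j j'' else 0) := by
    intro j j' j''
    split_ifs <;> ring
  simp only [hsplit, Finset.sum_add_distrib]
  rw [e1, e2, e3]
  ring

end fin

theorem Slk.mergeA {K D : Type*} [Fintype K] [DecidableEq K] [Fintype D] [DecidableEq D]
    {N : K → ℝ} {m : D → ℝ} (N0 : ∀ k, 0 ≤ N k) (m0 : ∀ d, 0 ≤ m d) {M : ℕ} (hM : 3 ≤ M)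
    {ν : ℝ} (hν : 0 < ν) (hsum : ∑ d, m d = M * ν) (hm : ∀ d, 2 * m d ≤ ν) {β : ℝ} (hβ : 0 ≤ β)
    (h : Slk (Sum.elim N m) β) {S : ℝ} (hS : ∑ k, N k + M * ν = S) {κ : ℝ} (hκ0 : 0 < κ)
    (hκ : ∀ j j' : Fin M, j ≠ j' → κ ≤ helpers (Sum.elim N fun _ : Fin M => ν)
      (Sum.inr j) (Sum.inr j')) (hbig : 8 * S ^ 2 ≤ 3 * κ * β * (M - 1)) :
    Slk (Sum.elim N fun _ : Fin M => ν) (β / 2) := by
  intro c hs hd hT
  have hMr : (3 : ℝ) ≤ M := by exact_mod_cast hM
  have hM0 : (0 : ℝ) < M := by linarith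
  have hM1 : (0 : ℝ) < M - 1 := by linarith
  have hM2 : (0 : ℝ) < M - 2 := by linarith
  set P : ℝ := ∑ d, m d with hP
  set Q2 : ℝ := ∑ d, m d ^ 2 with hQ2
  have hP0 : 0 < P := by rw [hsum]; positivity
  have hQ20 : 0 ≤ Q2 := Finset.sum_nonneg fun d _ => sq_nonneg _
  have hQ2le : Q2 ≤ ν / 2 * P := by
    rw [hQ2, hP, Finset.mul_sum]
    refine Finset.sum_le_sum fun d _ => ?_
    have h1 := m0 d
    have h2 := hm d
    nlinarith
  set A : K → ℝ := fun k => (∑ j, c (.inl k) (.inr j)) / M with hA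
  set c0 : ℝ := (∑ j : Fin M, ∑ j' : Fin M, c (.inr j) (.inr j')) / (M * (M - 1)) with hc0
  have hAs : ∀ k, ∑ j, c (.inl k) (.inr j) = M * A k := by
    intro k
    simp only [hA]
    field_simp
  have hc0s : ∑ j : Fin M, ∑ j' : Fin M, c (.inr j) (.inr j') = M * (M - 1) * c0 := by
    rw [hc0]
    field_simp
  -- three facts
  have F1 : ∀ k l, k ≠ l → 0 ≤ A k + c (.inl k) (.inl l) + A l := by
    intro k l hkl
    have h1 : 0 ≤ ∑ j : Fin M, (c (.inl k) (.inl l) + c (.inl l) (.inr j) + c (.inl k) (.inr j)) :=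
      Finset.sum_nonneg fun j _ => hT _ _ _ (by simpa using hkl) (by simp) (by simp)
    simp only [Finset.sum_add_distrib, hAs, Finset.sum_const, Finset.card_univ, Fintype.card_fin,
      nsmul_eq_mul] at h1
    have h2 : (M : ℝ) * c (.inl k) (.inl l) + M * A l + M * A k =
        M * (A k + c (.inl k) (.inl l) + A l) := by ring
    rw [h2] at h1
    exact nonneg_of_mul_nonneg_right h1 hM0
  have hKjj : ∀ k, ∑ j : Fin M, ∑ j' : Fin M, tau c (.inr j) (.inr j') (.inl k) =
      M * (M - 1) * (c0 + 2 * A k) := by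
    intro k
    have h1 : ∀ j j' : Fin M, tau c (.inr j) (.inr j') (.inl k) =
        if j = j' then 0 else c (.inr j) (.inr j') + c (.inl k) (.inr j') + c (.inl k) (.inr j) := by
      intro j j'
      rw [tau_rrl, hs (.inr j') (.inl k), hs (.inr j) (.inl k)]
    simp only [h1]
    rw [sum_fin_ne (fun j j' => c (.inr j) (.inr j')) (fun j => c (.inl k) (.inr j))
      (fun j => hd _), hc0s, hAs]
    ring
  have F2 : ∀ k, 0 ≤ c0 + 2 * A k := by
    intro k
    have h1 : 0 ≤ ∑ j : Fin M, ∑ j' : Fin M, tau c (.inr j) (.inr j') (.inl k) :=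
      Finset.sum_nonneg fun j _ => Finset.sum_nonneg fun j' _ => tau_nonneg hT _ _ _
    rw [hKjj] at h1
    exact nonneg_of_mul_nonneg_right h1 (by positivity)
  have hjjj : ∑ j : Fin M, ∑ j' : Fin M, ∑ j'' : Fin M, tau c (.inr j) (.inr j') (.inr j'') =
      3 * (M - 2) * (M * (M - 1) * c0) := by
    simp only [tau_rrr]
    rw [sum_fin_dist3 (fun j j' => c (.inr j) (.inr j')) (fun j => hd _), hc0s]
  have F3 : 0 ≤ c0 := by
    have h1 : 0 ≤ ∑ j : Fin M, ∑ j' : Fin M, ∑ j'' : Fin M,
        tau c (.inr j) (.inr j') (.inr j'') :=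
      Finset.sum_nonneg fun j _ => Finset.sum_nonneg fun j' _ => Finset.sum_nonneg fun j'' _ =>
        tau_nonneg hT _ _ _
    rw [hjjj] at h1
    have h2 : 3 * ((M : ℝ) - 2) * (M * (M - 1) * c0) = (3 * (M - 2) * (M * (M - 1))) * c0 := by
      ring
    rw [h2] at h1
    exact nonneg_of_mul_nonneg_right h1 (by positivity)
  -- the lifted weight
  obtain ⟨ct, ct1, ct2, ct3, ct4⟩ : ∃ ct : K ⊕ D → K ⊕ D → ℝ,
      (∀ k l, ct (.inl k) (.inl l) = c (.inl k) (.inl l)) ∧ (∀ k d, ct (.inl k) (.inr d) = A k) ∧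
      (∀ k d, ct (.inr d) (.inl k) = A k) ∧
      ∀ d d', ct (.inr d) (.inr d') = if d = d' then 0 else c0 :=
    ⟨fun x y =>
      match x, y with
      | .inl k, .inl l => c (.inl k) (.inl l)
      | .inl k, .inr _ => A k
      | .inr _, .inl k => A k
      | .inr d, .inr d' => if d = d' then 0 else c0,
      fun _ _ => rfl, fun _ _ => rfl, fun _ _ => rfl, fun _ _ => rfl⟩
  have cts : ∀ a b, ct a b = ct b a := by
    rintro (a | a) (b | b)
    · rw [ct1, ct1]
      exact hs _ _
    · rw [ct2, ct3]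
    · rw [ct2, ct3]
    · rw [ct4, ct4]
      by_cases h1 : a = b
      · rw [if_pos h1, if_pos h1.symm]
      · rw [if_neg h1, if_neg (Ne.symm h1)]
  have ctd : ∀ a, ct a a = 0 := by
    rintro (a | a)
    · rw [ct1]
      exact hd _
    · rw [ct4, if_pos rfl]
  have ctT : ∀ a b d, a ≠ b → b ≠ d → a ≠ d → 0 ≤ ct a b + ct b d + ct a d := by
    rintro (a | a) (b | b) (d | d) hab hbd had
    · rw [ct1, ct1, ct1]
      exact hT _ _ _ (by simpa using hab) (by simpa using hbd) (by simpa using had)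
    · rw [ct1, ct2, ct2]
      have := F1 a b (by simpa using hab)
      linarith
    · rw [ct1, ct2, ct3]
      have := F1 a d (by simpa using had)
      linarith
    · rw [ct2, ct2, ct4 b d, if_neg (by simpa using hbd)]
      have := F2 a
      linarith
    · rw [ct1, ct3, ct3]
      have := F1 b d (by simpa using hbd)
      linarith
    · rw [ct3, ct2, ct4 a d, if_neg (by simpa using had)]
      have := F2 b
      linarith
    · rw [ct3, ct3, ct4 a b, if_neg (by simpa using hab)]
      have := F2 d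
      linarith
    · rw [ct4 a b, ct4 b d, ct4 a d, if_neg (by simpa using hab), if_neg (by simpa using hbd),
        if_neg (by simpa using had)]
      linarith
  have key := h ct cts ctd ctT
  -- bilinear forms
  set X : ℝ := ∑ k, ∑ l, c (.inl k) (.inl l) * N k * N l with hX
  set Y : ℝ := ∑ k, A k * N k with hY
  have hb1 : bil ct (Sum.elim N m) (Sum.elim N m) = X + 2 * (P * Y) + c0 * (P ^ 2 - Q2) := by
    rw [bil_elim ct cts]
    simp only [ct1, ct2, ct4]
    have e1 : ∑ k, ∑ d, A k * N k * m d = P * Y := by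
      simp only [← Finset.mul_sum]
      rw [← Finset.sum_mul, mul_comm]
    have e2 : ∑ d, ∑ d', (if d = d' then 0 else c0) * m d * m d' = c0 * (P ^ 2 - Q2) := by
      have : ∀ d d', (if d = d' then 0 else c0) * m d * m d' =
          c0 * m d * m d' - (if d = d' then c0 * m d * m d' else 0) := by
        intro d d'
        split_ifs <;> ring
      simp only [this, Finset.sum_sub_distrib, Finset.sum_ite_eq, mem_univ, if_true,
        ← Finset.mul_sum, ← Finset.sum_mul]
      have e3 : ∑ d, c0 * m d * m d = c0 * Q2 := by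
        rw [hQ2, Finset.mul_sum]
        exact Finset.sum_congr rfl fun d _ => by ring
      rw [e3, ← hP]
      ring
    rw [e1, e2]
  have hb2 : bil c (Sum.elim N fun _ : Fin M => ν) (Sum.elim N fun _ : Fin M => ν) =
      X + 2 * (P * Y) + c0 * (M * (M - 1) * ν ^ 2) := by
    rw [bil_elim c hs]
    have e1 : ∑ k, ∑ j : Fin M, c (.inl k) (.inr j) * N k * ν = P * Y := by
      simp only [← Finset.sum_mul, hAs]
      rw [hY, hsum, Finset.mul_sum, Finset.sum_mul]
      exact Finset.sum_congr rfl fun k _ => by ring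
    have e2 : ∑ j : Fin M, ∑ j' : Fin M, c (.inr j) (.inr j') * ν * ν =
        c0 * (M * (M - 1) * ν ^ 2) := by
      simp only [← Finset.sum_mul, hc0s]
      ring
    rw [e1, e2]
  -- trilinear forms
  set U : ℝ := ∑ k, ∑ l, ∑ p, tau c (.inl k) (.inl l) (.inl p) * N k * N l * N p with hU
  set G : ℝ := ∑ k, ∑ l, (if k = l then 0 else A k + c (.inl k) (.inl l) + A l) * N k * N l
    with hG
  set H : ℝ := ∑ k, (c0 + 2 * A k) * N k with hH
  have hH0 : 0 ≤ H := Finset.sum_nonneg fun k _ => mul_nonneg (F2 k) (N0 k)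
  have ht1 : tri3 (tau ct) (Sum.elim N m) (Sum.elim N m) (Sum.elim N m) =
      U + 3 * (P * G) + 3 * ((P ^ 2 - Q2) * H) +
        3 * c0 * ∑ d, ∑ d', ∑ d'', if Dist3 d d' d'' then m d * m d' * m d'' else 0 := by
    rw [tri3_elim ct cts]
    have e0 : ∑ k, ∑ l, ∑ p, tau ct (.inl k) (.inl l) (.inl p) * N k * N l * N p = U := by
      rw [hU]
      refine Finset.sum_congr rfl fun k _ => Finset.sum_congr rfl fun l _ =>
        Finset.sum_congr rfl fun p _ => ?_
      rw [tau_lll, tau_lll, ct1, ct1, ct1]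
    have e1 : ∑ d, ∑ k, ∑ l, tau ct (.inr d) (.inl k) (.inl l) * m d * N k * N l = P * G := by
      have : ∀ d, ∑ k, ∑ l, tau ct (.inr d) (.inl k) (.inl l) * m d * N k * N l = m d * G := by
        intro d
        rw [hG, Finset.mul_sum]
        refine Finset.sum_congr rfl fun k _ => ?_
        rw [Finset.mul_sum]
        refine Finset.sum_congr rfl fun l _ => ?_
        rw [tau_rll, ct3, ct1, ct3]
        ring
      simp only [this, ← Finset.sum_mul]
      rw [← hP]
    have e2 : ∑ d, ∑ d', ∑ k, tau ct (.inr d) (.inr d') (.inl k) * m d * m d' * N k =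
        (P ^ 2 - Q2) * H := by
      have : ∀ d d', ∑ k, tau ct (.inr d) (.inr d') (.inl k) * m d * m d' * N k =
          m d * m d' * H - (if d = d' then m d * m d' * H else 0) := by
        intro d d'
        have h1 : ∀ k, tau ct (.inr d) (.inr d') (.inl k) * m d * m d' * N k =
            (if d = d' then 0 else m d * m d') * ((c0 + 2 * A k) * N k) := by
          intro k
          rw [tau_rrl, ct4, ct3, ct3]
          split_ifs <;> ring
        simp only [h1, ← Finset.mul_sum]
        rw [← hH]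
        split_ifs <;> ring
      simp only [this, Finset.sum_sub_distrib, Finset.sum_ite_eq, mem_univ, if_true,
        ← Finset.mul_sum, ← Finset.sum_mul]
      have e3 : ∑ d, m d * m d = Q2 := Finset.sum_congr rfl fun d _ => by ring
      rw [e3, ← hP]
      ring
    have e3 : ∑ d, ∑ d', ∑ d'', tau ct (.inr d) (.inr d') (.inr d'') * m d * m d' * m d'' =
        3 * c0 * ∑ d, ∑ d', ∑ d'', if Dist3 d d' d'' then m d * m d' * m d'' else 0 := by
      rw [Finset.mul_sum]
      refine Finset.sum_congr rfl fun d _ => ?_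
      rw [Finset.mul_sum]
      refine Finset.sum_congr rfl fun d' _ => ?_
      rw [Finset.mul_sum]
      refine Finset.sum_congr rfl fun d'' _ => ?_
      rw [tau_rrr]
      by_cases hD : Dist3 d d' d''
      · rw [if_pos hD, if_pos hD, ct4, ct4, ct4, if_neg hD.1, if_neg hD.2.1, if_neg hD.2.2]
        ring
      · rw [if_neg hD, if_neg hD]
        ring
    rw [e0, e1, e2, e3]
  have ht2 : tri3 (tau c) (Sum.elim N fun _ : Fin M => ν) (Sum.elim N fun _ : Fin M => ν)
      (Sum.elim N fun _ : Fin M => ν) = U + 3 * (P * G) + 3 * (M * (M - 1) * ν ^ 2 * H) +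
        3 * c0 * (M * (M - 1) * (M - 2) * ν ^ 3) := by
    rw [tri3_elim c hs]
    have e1 : ∑ j : Fin M, ∑ k, ∑ l, tau c (.inr j) (.inl k) (.inl l) * ν * N k * N l =
        P * G := by
      have h1 : ∀ k l, ∑ j : Fin M, tau c (.inr j) (.inl k) (.inl l) * ν * N k * N l =
          P * ((if k = l then 0 else A k + c (.inl k) (.inl l) + A l) * N k * N l) := by
        intro k l
        by_cases hkl : k = l
        · rw [if_pos hkl]
          have : ∀ j : Fin M, tau c (.inr j) (.inl k) (.inl l) * ν * N k * N l = 0 := by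
            intro j
            rw [tau_rll, if_pos hkl]
            ring
          simp [this]
        · rw [if_neg hkl]
          have : ∀ j : Fin M, tau c (.inr j) (.inl k) (.inl l) * ν * N k * N l =
              (c (.inl k) (.inr j) + c (.inl k) (.inl l) + c (.inl l) (.inr j)) *
                (ν * N k * N l) := by
            intro j
            rw [tau_rll, if_neg hkl, hs (.inr j) (.inl k), hs (.inr j) (.inl l)]
            ring
          simp only [this, ← Finset.sum_mul, Finset.sum_add_distrib, hAs, Finset.sum_const,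
            Finset.card_univ, Fintype.card_fin, nsmul_eq_mul]
          rw [hsum]
          ring
      rw [Finset.sum_comm, hG, Finset.mul_sum]
      refine Finset.sum_congr rfl fun k _ => ?_
      rw [Finset.sum_comm, Finset.mul_sum]
      exact Finset.sum_congr rfl fun l _ => h1 k l
    have e2 : ∑ j : Fin M, ∑ j' : Fin M, ∑ k, tau c (.inr j) (.inr j') (.inl k) * ν * ν * N k =
        M * (M - 1) * ν ^ 2 * H := by
      have h1 : ∑ j : Fin M, ∑ j' : Fin M, ∑ k, tau c (.inr j) (.inr j') (.inl k) * ν * ν * N k =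
          ∑ k, (∑ j : Fin M, ∑ j' : Fin M, tau c (.inr j) (.inr j') (.inl k)) * (ν ^ 2 * N k) := by
        have h2 : ∀ j : Fin M, ∑ j' : Fin M, ∑ k, tau c (.inr j) (.inr j') (.inl k) * ν * ν * N k =
            ∑ k, ∑ j' : Fin M, tau c (.inr j) (.inr j') (.inl k) * ν * ν * N k := fun j =>
          Finset.sum_comm
        simp only [h2]
        rw [Finset.sum_comm]
        refine Finset.sum_congr rfl fun k _ => ?_
        rw [Finset.sum_mul]
        refine Finset.sum_congr rfl fun j _ => ?_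
        rw [Finset.sum_mul]
        exact Finset.sum_congr rfl fun j' _ => by ring
      rw [h1, hH, Finset.mul_sum]
      refine Finset.sum_congr rfl fun k _ => ?_
      rw [hKjj]
      ring
    have e3 : ∑ j : Fin M, ∑ j' : Fin M, ∑ j'' : Fin M,
        tau c (.inr j) (.inr j') (.inr j'') * ν * ν * ν =
        3 * c0 * (M * (M - 1) * (M - 2) * ν ^ 3) := by
      simp only [← Finset.sum_mul, hjjj]
      ring
    rw [e1, e2, e3]
  set W : ℝ := tri3 (tau c) (Sum.elim N fun _ : Fin M => ν) (Sum.elim N fun _ : Fin M => ν)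
      (Sum.elim N fun _ : Fin M => ν) with hW
  have hcmp : W ≤ tri3 (tau ct) (Sum.elim N m) (Sum.elim N m) (Sum.elim N m) := by
    rw [ht1, ht2]
    have g1 : (M : ℝ) * (M - 1) * ν ^ 2 ≤ P ^ 2 - Q2 := by
      rw [hsum] at hQ2le ⊢
      have : 0 ≤ (M : ℝ) * ν ^ 2 := by positivity
      nlinarith
    have g2 : (M : ℝ) * (M - 1) * (M - 2) * ν ^ 3 ≤
        ∑ d, ∑ d', ∑ d'', if Dist3 d d' d'' then m d * m d' * m d'' else 0 := by
      refine le_trans ?_ (sum_dist3_le m m0)
      rw [← hP, ← hQ2]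
      have h1 : 3 * P * Q2 ≤ 3 * P * (ν / 2 * P) := mul_le_mul_of_nonneg_left hQ2le (by positivity)
      refine le_trans ?_ (sub_le_sub_left h1 _)
      rw [hsum]
      have h2 : ((M : ℝ) * ν) ^ 3 - 3 * (M * ν) * (ν / 2 * (M * ν)) -
          M * (M - 1) * (M - 2) * ν ^ 3 = M * ν ^ 3 * (3 / 2 * M - 2) := by ring
      have h3 : 0 ≤ (M : ℝ) * ν ^ 3 * (3 / 2 * M - 2) :=
        mul_nonneg (by positivity) (by linarith)
      linarith
    have g3 := mul_le_mul_of_nonneg_right g1 hH0
    have g4 := mul_le_mul_of_nonneg_left g2 (by positivity : 0 ≤ 3 * c0)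
    linarith
  -- the cost
  have hN1 : ∀ x, 0 ≤ Sum.elim N (fun _ : Fin M => ν) x := by
    rintro (x | x)
    · exact N0 x
    · exact hν.le
  have hS1 : ∑ x, Sum.elim N (fun _ : Fin M => ν) x = S := by
    rw [Fintype.sum_sum_type]
    simp only [Sum.elim_inl, Sum.elim_inr, Finset.sum_const, Finset.card_univ, Fintype.card_fin,
      nsmul_eq_mul]
    exact hS
  have hτ := tau_nonneg hT
  have u0 : ∀ (y x : K ⊕ Fin M), 0 ≤ unit y x := by
    intro y x
    unfold unit
    split_ifs <;> norm_num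
  have hW0 : 0 ≤ W := tri3_nonneg hτ hN1 hN1 hN1
  have hedge : ∀ j j' : Fin M, 3 * κ * c (.inr j) (.inr j') ≤
      3 * S ^ 2 * tri3 (tau c) (unit (.inr j)) (unit (.inr j')) (Sum.elim N fun _ : Fin M => ν) +
        W := by
    intro j j'
    have hr : 0 ≤ tri3 (tau c) (unit (.inr j)) (unit (.inr j'))
      (Sum.elim N fun _ : Fin M => ν) := tri3_nonneg hτ (u0 _) (u0 _) hN1
    have hr2 : 0 ≤ 3 * S ^ 2 * tri3 (tau c) (unit (.inr j)) (unit (.inr j'))
      (Sum.elim N fun _ : Fin M => ν) + W := by positivity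
    by_cases hjj : j = j'
    · subst hjj
      rw [hd]
      linarith
    · have h1 := edge_upper hs hT hN1 hS1 (a := Sum.inr j) (b := Sum.inr j') (by simpa using hjj)
      have h2 := hκ j j' hjj
      by_cases hc : 0 ≤ c (.inr j) (.inr j')
      · have h3 := mul_le_mul_of_nonneg_right h2 hc
        linarith
      · push Not at hc
        have h3 : 3 * κ * c (.inr j) (.inr j') ≤ 0 :=
          mul_nonpos_of_nonneg_of_nonpos (by positivity) hc.le
        linarith
  have hsumedge : 3 * κ * (M * (M - 1) * c0) ≤ 3 * S ^ 2 * (∑ j : Fin M, ∑ j' : Fin M,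
      tri3 (tau c) (unit (.inr j)) (unit (.inr j')) (Sum.elim N fun _ : Fin M => ν)) +
        M ^ 2 * W := by
    have h1 := Finset.sum_le_sum fun j (_ : j ∈ (univ : Finset (Fin M))) =>
      Finset.sum_le_sum fun j' (_ : j' ∈ (univ : Finset (Fin M))) => hedge j j'
    simp only [Finset.sum_add_distrib, ← Finset.mul_sum, hc0s, Finset.sum_const,
      Finset.card_univ, Fintype.card_fin, nsmul_eq_mul] at h1
    linarith
  have hsub : ν ^ 2 * (∑ j : Fin M, ∑ j' : Fin M,
      tri3 (tau c) (unit (.inr j)) (unit (.inr j')) (Sum.elim N fun _ : Fin M => ν)) ≤ W := by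
    have e1 : ν ^ 2 * (∑ j : Fin M, ∑ j' : Fin M,
        tri3 (tau c) (unit (.inr j)) (unit (.inr j')) (Sum.elim N fun _ : Fin M => ν)) =
        tri3 (tau c) (Sum.elim (fun _ : K => 0) fun _ : Fin M => ν)
          (Sum.elim (fun _ : K => 0) fun _ : Fin M => ν) (Sum.elim N fun _ : Fin M => ν) := by
      simp only [tri3_unit12]
      unfold tri3
      rw [Fintype.sum_sum_type]
      simp only [Sum.elim_inl, Sum.elim_inr, mul_zero, zero_mul, Finset.sum_const_zero, zero_add]
      rw [Finset.mul_sum]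
      refine Finset.sum_congr rfl fun j _ => ?_
      rw [Fintype.sum_sum_type]
      simp only [Sum.elim_inl, Sum.elim_inr, mul_zero, zero_mul, Finset.sum_const_zero, zero_add]
      rw [Finset.mul_sum]
      refine Finset.sum_congr rfl fun j' _ => ?_
      rw [Finset.mul_sum]
      exact Finset.sum_congr rfl fun x _ => by ring
    rw [e1]
    have hle : ∀ x, Sum.elim (fun _ : K => (0 : ℝ)) (fun _ : Fin M => ν) x ≤
        Sum.elim N (fun _ : Fin M => ν) x := by
      rintro (x | x)
      · exact N0 x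
      · exact le_rfl
    have hnn : ∀ x, 0 ≤ Sum.elim (fun _ : K => (0 : ℝ)) (fun _ : Fin M => ν) x := by
      rintro (x | x)
      · exact le_rfl
      · exact hν.le
    exact tri3_mono' hτ hnn hnn hN1 hle hle fun _ => le_rfl
  have hcost : c0 * (M * ν ^ 2) ≤ β / 2 * W := by
    have hPS : (M : ℝ) * ν ≤ S := by
      have := Finset.sum_nonneg fun k (_ : k ∈ (univ : Finset K)) => N0 k
      linarith
    have h1 := mul_le_mul_of_nonneg_left hsumedge (by positivity : 0 ≤ ν ^ 2)
    have h2 := mul_le_mul_of_nonneg_left hsub (by positivity : 0 ≤ 3 * S ^ 2)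
    have h3 : ((M : ℝ) * ν) ^ 2 * W ≤ S ^ 2 * W :=
      mul_le_mul_of_nonneg_right (pow_le_pow_left₀ (by positivity) hPS 2) hW0
    have h4 : 3 * κ * (M - 1) * (c0 * (M * ν ^ 2)) ≤ 4 * S ^ 2 * W := by linarith
    have h5 : 4 * S ^ 2 * W ≤ 3 * κ * (M - 1) * (β / 2 * W) := by
      have := mul_le_mul_of_nonneg_right hbig hW0
      linarith
    have h6 : 0 < 3 * κ * ((M : ℝ) - 1) := by positivity
    exact le_of_mul_le_mul_left (h4.trans h5) h6
  have h1 := mul_le_mul_of_nonneg_left hcmp hβ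
  rw [hb1] at key
  rw [hb2]
  have h2 : c0 * (P ^ 2 - Q2) ≤ c0 * (M * (M - 1) * ν ^ 2) + c0 * (M * ν ^ 2) := by
    have h3 : c0 * (P ^ 2 - Q2) ≤ c0 * (P ^ 2) := mul_le_mul_of_nonneg_left (by linarith) F3
    have h4 : c0 * P ^ 2 = c0 * (M * (M - 1) * ν ^ 2) + c0 * (M * ν ^ 2) := by
      rw [hsum]
      ring
    linarith
  linarith

end Pool.Agent.MP_dd827d_co
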