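import Pool.Agent.Lib.MP_dd827d_co.SlkA

/-!
Merging a tiny set of classes into one class keeps the dual inequality with slack.
-/

namespace Pool.Agent.MP_dd827d_co

open Finset Function

theorem Slk.mergeB {K D : Type*} [Fintype K] [DecidableEq K] [Fintype D] [DecidableEq D]
    [Nonempty K] {N : K → ℝ} {m : D → ℝ} (N0 : ∀ k, 0 < N k) (m0 : ∀ d, 0 ≤ m d)
    {s : ℝ} (hsum : ∑ d, m d = s) {β : ℝ} (hβ : 0 ≤ β)
    (h : Slk (Sum.elim N m) β) {S : ℝ} (hS : ∑ k, N k + s = S) {κ : ℝ} (hκ0 : 0 < κ)
    (hκ : ∀ k : K, κ ≤ helpers (Sum.elim N fun _ : Unit => s) (Sum.inr ()) (Sum.inl k))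
    (hbig : ∀ k, 2 * S * (s + s ^ 2 / N k) ≤ κ * β) :
    Slk (Sum.elim N fun _ : Unit => s) (β / 2) := by
  intro c hs hd hT
  set Q2 : ℝ := ∑ d, m d ^ 2 with hQ2
  have hs0 : 0 ≤ s := by rw [← hsum]; exact Finset.sum_nonneg fun d _ => m0 d
  have hQ20 : 0 ≤ Q2 := Finset.sum_nonneg fun d _ => sq_nonneg _
  have hQ2le : Q2 ≤ s ^ 2 := by
    rw [hQ2]
    calc ∑ d, m d ^ 2 ≤ ∑ d, s * m d := by
          refine Finset.sum_le_sum fun d _ => ?_
          have h1 : m d ≤ s := by
            rw [← hsum]
            exact Finset.single_le_sum (fun e _ => m0 e) (mem_univ d)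
          have h2 := m0 d
          nlinarith
      _ = s ^ 2 := by rw [← Finset.mul_sum, hsum]; ring
  set A : K → ℝ := fun k => c (.inl k) (.inr ()) with hA
  obtain ⟨k0, hk0⟩ := Finite.exists_min A
  set c0 : ℝ := max 0 (-(2 * A k0)) with hc0
  have F3 : 0 ≤ c0 := le_max_left _ _
  have F2 : ∀ k, 0 ≤ c0 + 2 * A k := by
    intro k
    have h1 := hk0 k
    have h2 : -(2 * A k0) ≤ c0 := le_max_right _ _
    linarith
  have F1 : ∀ k l, k ≠ l → 0 ≤ A k + c (.inl k) (.inl l) + A l := by
    intro k l hkl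
    have h1 := hT (.inl k) (.inl l) (.inr ()) (by simpa using hkl) (by simp) (by simp)
    simp only [hA]
    linarith
  obtain ⟨ct, ct1, ct2, ct3, ct4⟩ : ∃ ct : K ⊕ D → K ⊕ D → ℝ,
      (∀ k l, ct (.inl k) (.inl l) = c (.inl k) (.inl l)) ∧ (∀ k d, ct (.inl k) (.inr d) = A k) ∧
      (∀ k d, ct (.inr d) (.inl k) = A k) ∧
      ∀ d d', ct (.inr d) (.inr d') = if d = d' then 0 else c0 :=
    ⟨fun x y =>
      match x, y with
      | .inl k, .inl l => c (.inl k) (.inl l)
      | .inl k, .inr _ => A k
      | .inr _, .inl k => A k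
      | .inr d, .inr d' => if d = d' then 0 else c0,
      fun _ _ => rfl, fun _ _ => rfl, fun _ _ => rfl, fun _ _ => rfl⟩
  have cts : ∀ a b, ct a b = ct b a := by
    rintro (a | a) (b | b)
    · rw [ct1, ct1]
      exact hs _ _
    · rw [ct2, ct3]
    · rw [ct2, ct3]
    · rw [ct4, ct4]
      by_cases h1 : a = b
      · rw [if_pos h1, if_pos h1.symm]
      · rw [if_neg h1, if_neg (Ne.symm h1)]
  have ctd : ∀ a, ct a a = 0 := by
    rintro (a | a)
    · rw [ct1]
      exact hd _
    · rw [ct4, if_pos rfl]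
  have ctT : ∀ a b d, a ≠ b → b ≠ d → a ≠ d → 0 ≤ ct a b + ct b d + ct a d := by
    rintro (a | a) (b | b) (d | d) hab hbd had
    · rw [ct1, ct1, ct1]
      exact hT _ _ _ (by simpa using hab) (by simpa using hbd) (by simpa using had)
    · rw [ct1, ct2, ct2]
      have := F1 a b (by simpa using hab)
      linarith
    · rw [ct1, ct2, ct3]
      have := F1 a d (by simpa using had)
      linarith
    · rw [ct2, ct2, ct4 b d, if_neg (by simpa using hbd)]
      have := F2 a
      linarith
    · rw [ct1, ct3, ct3]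
      have := F1 b d (by simpa using hbd)
      linarith
    · rw [ct3, ct2, ct4 a d, if_neg (by simpa using had)]
      have := F2 b
      linarith
    · rw [ct3, ct3, ct4 a b, if_neg (by simpa using hab)]
      have := F2 d
      linarith
    · rw [ct4 a b, ct4 b d, ct4 a d, if_neg (by simpa using hab), if_neg (by simpa using hbd),
        if_neg (by simpa using had)]
      linarith
  have key := h ct cts ctd ctT
  -- bilinear forms
  set X : ℝ := ∑ k, ∑ l, c (.inl k) (.inl l) * N k * N l with hX
  set Y : ℝ := ∑ k, A k * N k with hY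
  have hb1 : bil ct (Sum.elim N m) (Sum.elim N m) = X + 2 * (s * Y) + c0 * (s ^ 2 - Q2) := by
    rw [bil_elim ct cts]
    simp only [ct1, ct2, ct4]
    have e1 : ∑ k, ∑ d, A k * N k * m d = s * Y := by
      simp only [← Finset.mul_sum]
      rw [← Finset.sum_mul, mul_comm, hsum]
    have e2 : ∑ d, ∑ d', (if d = d' then 0 else c0) * m d * m d' = c0 * (s ^ 2 - Q2) := by
      have : ∀ d d', (if d = d' then 0 else c0) * m d * m d' =
          c0 * m d * m d' - (if d = d' then c0 * m d * m d' else 0) := by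
        intro d d'
        split_ifs <;> ring
      simp only [this, Finset.sum_sub_distrib, Finset.sum_ite_eq, mem_univ, if_true,
        ← Finset.mul_sum, ← Finset.sum_mul]
      have e3 : ∑ d, c0 * m d * m d = c0 * Q2 := by
        rw [hQ2, Finset.mul_sum]
        exact Finset.sum_congr rfl fun d _ => by ring
      rw [e3, hsum]
      ring
    rw [e1, e2]
  have hb2 : bil c (Sum.elim N fun _ : Unit => s) (Sum.elim N fun _ : Unit => s) =
      X + 2 * (s * Y) := by
    rw [bil_elim c hs]
    simp only [Finset.univ_unique, Finset.sum_singleton, PUnit.default_eq_unit, hd]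
    have e1 : ∑ k, c (.inl k) (.inr ()) * N k * s = s * Y := by
      rw [← Finset.sum_mul, mul_comm]
    rw [e1]
    ring
  -- trilinear forms
  set U : ℝ := ∑ k, ∑ l, ∑ p, tau c (.inl k) (.inl l) (.inl p) * N k * N l * N p with hU
  set G : ℝ := ∑ k, ∑ l, (if k = l then 0 else A k + c (.inl k) (.inl l) + A l) * N k * N l
    with hG
  set H : ℝ := ∑ k, (c0 + 2 * A k) * N k with hH
  have hH0 : 0 ≤ H := Finset.sum_nonneg fun k _ => mul_nonneg (F2 k) (N0 k).le
  have ht1 : tri3 (tau ct) (Sum.elim N m) (Sum.elim N m) (Sum.elim N m) =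
      U + 3 * (s * G) + 3 * ((s ^ 2 - Q2) * H) +
        3 * c0 * ∑ d, ∑ d', ∑ d'', if Dist3 d d' d'' then m d * m d' * m d'' else 0 := by
    rw [tri3_elim ct cts]
    have e0 : ∑ k, ∑ l, ∑ p, tau ct (.inl k) (.inl l) (.inl p) * N k * N l * N p = U := by
      rw [hU]
      refine Finset.sum_congr rfl fun k _ => Finset.sum_congr rfl fun l _ =>
        Finset.sum_congr rfl fun p _ => ?_
      rw [tau_lll, tau_lll, ct1, ct1, ct1]
    have e1 : ∑ d, ∑ k, ∑ l, tau ct (.inr d) (.inl k) (.inl l) * m d * N k * N l = s * G := by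
      have : ∀ d, ∑ k, ∑ l, tau ct (.inr d) (.inl k) (.inl l) * m d * N k * N l = m d * G := by
        intro d
        rw [hG, Finset.mul_sum]
        refine Finset.sum_congr rfl fun k _ => ?_
        rw [Finset.mul_sum]
        refine Finset.sum_congr rfl fun l _ => ?_
        rw [tau_rll, ct3, ct1, ct3]
        ring
      simp only [this, ← Finset.sum_mul]
      rw [hsum]
    have e2 : ∑ d, ∑ d', ∑ k, tau ct (.inr d) (.inr d') (.inl k) * m d * m d' * N k =
        (s ^ 2 - Q2) * H := by
      have : ∀ d d', ∑ k, tau ct (.inr d) (.inr d') (.inl k) * m d * m d' * N k =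
          m d * m d' * H - (if d = d' then m d * m d' * H else 0) := by
        intro d d'
        have h1 : ∀ k, tau ct (.inr d) (.inr d') (.inl k) * m d * m d' * N k =
            (if d = d' then 0 else m d * m d') * ((c0 + 2 * A k) * N k) := by
          intro k
          rw [tau_rrl, ct4, ct3, ct3]
          split_ifs <;> ring
        simp only [h1, ← Finset.mul_sum]
        rw [← hH]
        split_ifs <;> ring
      simp only [this, Finset.sum_sub_distrib, Finset.sum_ite_eq, mem_univ, if_true,
        ← Finset.mul_sum, ← Finset.sum_mul]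
      have e3 : ∑ d, m d * m d = Q2 := Finset.sum_congr rfl fun d _ => by ring
      rw [e3, hsum]
      ring
    have e3 : ∑ d, ∑ d', ∑ d'', tau ct (.inr d) (.inr d') (.inr d'') * m d * m d' * m d'' =
        3 * c0 * ∑ d, ∑ d', ∑ d'', if Dist3 d d' d'' then m d * m d' * m d'' else 0 := by
      rw [Finset.mul_sum]
      refine Finset.sum_congr rfl fun d _ => ?_
      rw [Finset.mul_sum]
      refine Finset.sum_congr rfl fun d' _ => ?_
      rw [Finset.mul_sum]
      refine Finset.sum_congr rfl fun d'' _ => ?_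
      rw [tau_rrr]
      by_cases hD : Dist3 d d' d''
      · rw [if_pos hD, if_pos hD, ct4, ct4, ct4, if_neg hD.1, if_neg hD.2.1, if_neg hD.2.2]
        ring
      · rw [if_neg hD, if_neg hD]
        ring
    rw [e0, e1, e2, e3]
  have ht2 : tri3 (tau c) (Sum.elim N fun _ : Unit => s) (Sum.elim N fun _ : Unit => s)
      (Sum.elim N fun _ : Unit => s) = U + 3 * (s * G) := by
    rw [tri3_elim c hs]
    simp only [Finset.univ_unique, Finset.sum_singleton, PUnit.default_eq_unit]
    have e1 : ∑ k, ∑ l, tau c (.inr ()) (.inl k) (.inl l) * s * N k * N l = s * G := by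
      rw [hG, Finset.mul_sum]
      refine Finset.sum_congr rfl fun k _ => ?_
      rw [Finset.mul_sum]
      refine Finset.sum_congr rfl fun l _ => ?_
      rw [tau_rll, hs (.inr ()) (.inl k), hs (.inr ()) (.inl l)]
      ring
    rw [e1, tau_rrr, if_neg fun h => h.1 rfl]
    have e2 : ∑ k, tau c (.inr ()) (.inr ()) (.inl k) * s * s * N k = 0 :=
      Finset.sum_eq_zero fun k _ => by rw [tau_rrl, if_pos rfl]; ring
    rw [e2]
    ring
  set W : ℝ := tri3 (tau c) (Sum.elim N fun _ : Unit => s) (Sum.elim N fun _ : Unit => s)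
      (Sum.elim N fun _ : Unit => s) with hW
  have hcmp : W ≤ tri3 (tau ct) (Sum.elim N m) (Sum.elim N m) (Sum.elim N m) := by
    rw [ht1, ht2]
    have g1 : 0 ≤ (s ^ 2 - Q2) * H := mul_nonneg (by linarith) hH0
    have g2 : 0 ≤ ∑ d, ∑ d', ∑ d'', if Dist3 d d' d'' then m d * m d' * m d'' else 0 := by
      refine Finset.sum_nonneg fun d _ => Finset.sum_nonneg fun d' _ =>
        Finset.sum_nonneg fun d'' _ => ?_
      split_ifs
      · exact mul_nonneg (mul_nonneg (m0 d) (m0 d')) (m0 d'')
      · exact le_rfl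
    have g3 := mul_nonneg (by positivity : 0 ≤ 3 * c0) g2
    linarith
  -- the cost
  have hN1 : ∀ x, 0 ≤ Sum.elim N (fun _ : Unit => s) x := by
    rintro (x | x)
    · exact (N0 x).le
    · exact hs0
  have hS1 : ∑ x, Sum.elim N (fun _ : Unit => s) x = S := by
    rw [Fintype.sum_sum_type]
    simp only [Sum.elim_inl, Sum.elim_inr, Finset.univ_unique, Finset.sum_singleton]
    exact hS
  have hτ := tau_nonneg hT
  have u0 : ∀ (y x : K ⊕ Unit), 0 ≤ unit y x := by
    intro y x
    unfold unit
    split_ifs <;> norm_num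
  have hW0 : 0 ≤ W := tri3_nonneg hτ hN1 hN1 hN1
  have hunit : ∀ x, Sum.elim N (fun _ : Unit => s) x * tri3 (tau c) (unit x)
      (Sum.elim N fun _ : Unit => s) (Sum.elim N fun _ : Unit => s) ≤ W := by
    intro x
    rw [← tri3_smul_left]
    refine tri3_mono' hτ (fun a => ?_) hN1 hN1 (fun a => ?_) (fun _ => le_rfl) fun _ => le_rfl
    · simp only [Pi.smul_apply, smul_eq_mul]
      exact mul_nonneg (hN1 x) (u0 x a)
    · simp only [Pi.smul_apply, smul_eq_mul, unit]
      split_ifs with hax
      · rw [hax]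
        linarith
      · have := hN1 a
        linarith
  have hcost : c0 * s ^ 2 ≤ β / 2 * W := by
    by_cases hneg : 0 ≤ A k0
    · have : c0 = 0 := max_eq_left (by linarith)
      rw [this]
      have : 0 ≤ β / 2 * W := by positivity
      linarith
    · push Not at hneg
      have hc0' : c0 = -(2 * A k0) := max_eq_right (by linarith)
      have h1 := edge_lower hs hT hN1 hS1 (a := Sum.inr ()) (b := Sum.inl k0) (by simp)
      rw [hs (.inr ()) (.inl k0)] at h1
      have h2 : κ * c0 ≤ -(2 * (helpers (Sum.elim N fun _ : Unit => s) (Sum.inr ())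
          (Sum.inl k0) * c (.inl k0) (.inr ()))) := by
        have h3 := mul_le_mul_of_nonneg_right (hκ k0) F3
        refine h3.trans (le_of_eq ?_)
        rw [hc0']
        simp only [hA]
        ring
      have g1 := hunit (.inr ())
      have g2 := hunit (.inl k0)
      simp only [Sum.elim_inl, Sum.elim_inr] at g1 g2
      set WR := tri3 (tau c) (unit (.inr ())) (Sum.elim N fun _ : Unit => s)
        (Sum.elim N fun _ : Unit => s)
      set WK := tri3 (tau c) (unit (.inl k0)) (Sum.elim N fun _ : Unit => s)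
        (Sum.elim N fun _ : Unit => s)
      have hNk := N0 k0
      have h4 : s ^ 2 * WR ≤ s * W := by
        have := mul_le_mul_of_nonneg_left g1 hs0
        linarith
      have h5 : s ^ 2 * WK ≤ s ^ 2 / N k0 * W := by
        have h6 := mul_le_mul_of_nonneg_left g2 (by positivity : 0 ≤ s ^ 2 / N k0)
        refine le_trans (le_of_eq ?_) h6
        field_simp
      have hS0 : 0 ≤ S := by
        rw [← hS]
        have := Finset.sum_nonneg fun k (_ : k ∈ (univ : Finset K)) => (N0 k).le
        linarith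
      have h7 : κ * (c0 * s ^ 2) ≤ S * ((s + s ^ 2 / N k0) * W) := by
        have h8 := mul_le_mul_of_nonneg_right (h2.trans h1) (sq_nonneg s)
        have h9 := mul_le_mul_of_nonneg_left (add_le_add h4 h5) hS0
        linarith
      have h8 : S * ((s + s ^ 2 / N k0) * W) ≤ κ * (β / 2 * W) := by
        have := mul_le_mul_of_nonneg_right (hbig k0) hW0
        linarith
      exact le_of_mul_le_mul_left (h7.trans h8) hκ0
  have h1 := mul_le_mul_of_nonneg_left hcmp hβ
  rw [hb1] at key
  rw [hb2]
  have h2 : c0 * (s ^ 2 - Q2) ≤ c0 * s ^ 2 := mul_le_mul_of_nonneg_left (by linarith) F3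
  linarith

end Pool.Agent.MP_dd827d_co
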