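import Pool.Agent.Lib.MP_dd827d_co.Exchange

/-!
The slack inequality at special points.
-/

namespace Pool.Agent.MP_dd827d_co

open Finset Function

variable {J : Type*} [Fintype J] [DecidableEq J]

section
variable {a κ u w : ℝ}

theorem ar1 (ha : 1 ≤ a) (hκ : 6 * κ ≤ 1 / 3) (hu : 0 ≤ u) (hw : 0 ≤ w)
    (hm : u + w ≤ 1 / 12) :
    0 ≤ (3 * a - 3 * u - 3 * a * u + u ^ 2 + 2 * (u + w) * (1 - w)) / 3 -
      6 * κ * (a * (1 - u)) := by
  have hu1 : 0 ≤ 1 - u := by linarith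
  have h1 : 6 * κ * (a * (1 - u)) ≤ 1 / 3 * (a * (1 - u)) :=
    mul_le_mul_of_nonneg_right hκ (mul_nonneg (by linarith) hu1)
  have h2 : 0 ≤ (u + w) * (1 - w) := mul_nonneg (by linarith) (by linarith)
  have h3 : 0 ≤ (a - 1) * (1 - u) := mul_nonneg (by linarith) hu1
  have h4 : 0 ≤ u ^ 2 := sq_nonneg u
  linarith

theorem ar3 (ha : 1 ≤ a) (hκ : 6 * κ ≤ 1 / 3) (hu : 0 ≤ u) (hw : 0 ≤ w) :
    0 ≤ ((u + w) * (3 * a - 1 + (u + w)) + 2 * u * w) / 3 - 6 * κ * (a * (u + w)) := by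
  have h0 : 0 ≤ u + w := by linarith
  have h1 : 6 * κ * (a * (u + w)) ≤ 1 / 3 * (a * (u + w)) :=
    mul_le_mul_of_nonneg_right hκ (mul_nonneg (by linarith) h0)
  have h2 : 0 ≤ (a - 1) * (u + w) := mul_nonneg (by linarith) h0
  have h3 : 0 ≤ u * w := mul_nonneg hu hw
  have h4 : 0 ≤ (u + w) ^ 2 := sq_nonneg _
  linarith

theorem ar4 (ha : 1 ≤ a) (hκ : 6 * κ ≤ 1 / 3) (hu : 0 ≤ u) (hw : 0 ≤ w)
    (hm : u + w ≤ 1 / 12) :
    0 ≤ (3 * a - 3 * a * (u + w) + 2 * u * w - (u + w) + (u + w) ^ 2) / 3 -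
      6 * κ * (a * (1 - u) * (1 - w)) := by
  have a0 : 0 ≤ a := by linarith
  have hu1 : 0 ≤ 1 - u := by linarith
  have hw1 : 0 ≤ 1 - w := by linarith
  have h1 : 6 * κ * (a * (1 - u) * (1 - w)) ≤ 1 / 3 * (a * (1 - u) * (1 - w)) :=
    mul_le_mul_of_nonneg_right hκ (mul_nonneg (mul_nonneg a0 hu1) hw1)
  have h2 : a * (1 - u) * (1 - w) ≤ a * 1 * 1 := by
    gcongr
    · linarith
    · linarith
  have h3 : 0 ≤ u * w := mul_nonneg hu hw
  have h4 : a * (u + w) ≤ a * (1 / 12) := mul_le_mul_of_nonneg_left hm a0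
  have h5 : 0 ≤ (u + w) ^ 2 := sq_nonneg _
  linarith

theorem ar5 (ha : 1 ≤ a) (hκ : 6 * κ * a ≤ 1 / 3) (hu : 0 ≤ u) (hw : 0 ≤ w)
    (hm : u + w ≤ 1 / 12) :
    0 ≤ (w * (3 * a - 1) + 2 * u - 2 * u ^ 2 - 2 * u * w + w ^ 2) / 3 -
      6 * κ * (a * (1 - u) * (u + w)) := by
  have h1 : 6 * κ * a * ((1 - u) * (u + w)) ≤ 1 / 3 * ((1 - u) * (u + w)) :=
    mul_le_mul_of_nonneg_right hκ (mul_nonneg (by linarith) (by linarith))
  have h2 : 0 ≤ w * (a - 1) := mul_nonneg hw (by linarith)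
  have h3 : 0 ≤ u * (1 / 12 - (u + w)) := mul_nonneg hu (by linarith)
  have h4 : 0 ≤ w ^ 2 := sq_nonneg w
  have h5 : 0 ≤ w * u := mul_nonneg hw hu
  linarith

theorem ar7 (ha' : a ≤ 5 / 3) (hκ : 6 * κ ≤ (5 - 3 * a) / 6) (ha : 1 ≤ a)
    (hu : 0 ≤ u) (hw : 0 ≤ w) (hm : u + w ≤ 1 / 12) :
    0 ≤ (6 - 3 * a - 7 * (u + w) + 3 * a * (u + w) + 2 * u * w + (u + w) ^ 2) / 3 -
      6 * κ * ((1 - u) * (1 - w)) := by
  have hu1 : 0 ≤ 1 - u := by linarith
  have hw1 : 0 ≤ 1 - w := by linarith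
  have h1 : 6 * κ * ((1 - u) * (1 - w)) ≤ (5 - 3 * a) / 6 * ((1 - u) * (1 - w)) :=
    mul_le_mul_of_nonneg_right hκ (mul_nonneg hu1 hw1)
  have h0 : (1 - u) * (1 - w) ≤ 1 * 1 := mul_le_mul (by linarith) (by linarith) hw1 (by norm_num)
  have h2 : (5 - 3 * a) / 6 * ((1 - u) * (1 - w)) ≤ (5 - 3 * a) / 6 * (1 * 1) :=
    mul_le_mul_of_nonneg_left h0 (by linarith)
  have h3 : 0 ≤ (a - 1) * (u + w) := mul_nonneg (by linarith) (by linarith)
  have h4 : 0 ≤ u * w := mul_nonneg hu hw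
  have h5 : 0 ≤ (u + w) ^ 2 := sq_nonneg _
  linarith

theorem ar8 (ha' : a ≤ 5 / 3) (hκ : 6 * κ ≤ (5 - 3 * a) / 6) (ha : 1 ≤ a)
    (hu : 0 ≤ u) (hw : 0 ≤ w) (hm : u + w ≤ 1 / 12) :
    0 ≤ (3 * w * (1 - a) + 2 * (u + w) * (1 - u) + w ^ 2) / 3 -
      6 * κ * ((1 - u) * (u + w)) := by
  have hu1 : 0 ≤ 1 - u := by linarith
  have h1 : 6 * κ * ((1 - u) * (u + w)) ≤ (5 - 3 * a) / 6 * ((1 - u) * (u + w)) :=
    mul_le_mul_of_nonneg_right hκ (mul_nonneg hu1 (by linarith))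
  have h2 : 0 ≤ w * (5 - 3 * a) := mul_nonneg hw (by linarith)
  have h3 : 0 ≤ (3 * a - 1) * (u * (1 - u - w)) := by
    refine mul_nonneg (by linarith) (mul_nonneg hu (by linarith))
  have h4 : 0 ≤ w ^ 2 := sq_nonneg _
  linarith

theorem ar10 (hκ : 6 * κ ≤ 1 / 3) (hu : 0 ≤ u) (hw : 0 ≤ w) (hm : u + w ≤ 1 / 12) :
    0 ≤ 2 * ((u + w) * (1 - (u + w)) + u * w) / 3 -
      6 * κ * ((1 - u) * (1 - w) * (u + w)) := by
  have hu1 : 0 ≤ 1 - u := by linarith
  have hw1 : 0 ≤ 1 - w := by linarith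
  have huw : 0 ≤ u * w := mul_nonneg hu hw
  have h0 : 0 ≤ u + w := by linarith
  have h1 : 6 * κ * ((1 - u) * (1 - w) * (u + w)) ≤ 1 / 3 * ((1 - u) * (1 - w) * (u + w)) :=
    mul_le_mul_of_nonneg_right hκ (mul_nonneg (mul_nonneg hu1 hw1) h0)
  have h2 : 0 ≤ u * w * (u + w) := mul_nonneg huw h0
  have h3 : 0 ≤ (u + w) * (1 - (u + w)) := mul_nonneg h0 (by linarith)
  have h4 : u * w * (u + w) ≤ u * w * 1 := mul_le_mul_of_nonneg_left (by linarith) huw
  linarith

end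

section sp1
variable {c : J → J → ℝ} (hs : ∀ a b, c a b = c b a) (hd : ∀ a, c a a = 0)
  (hT : ∀ a b d, a ≠ b → b ≠ d → a ≠ d → 0 ≤ c a b + c b d + c a d)
include hs hT

omit hs in
/-- `T7` estimate -/
theorem tri3_le_of_support {p b e : J} (hpb : p ≠ b) (hbe : b ≠ e) (hpe : p ≠ e) (r : J → ℝ)
    (r0 : ∀ i, 0 ≤ r i) (rp : r p = 0) (rb : r b = 0) (re : r e = 0) (r1 : ∑ i, r i = 1) :
    tri3 (tau c) r r r ≤ tri3 (tau c) (unit p) r r + tri3 (tau c) (unit b) r r +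
      tri3 (tau c) (unit e) r r + tau c p b e := by
  set ρ : J → J → ℝ := fun i j => tau c p i j + tau c b i j + tau c e i j with hρ
  have hτ := tau_nonneg hT
  have hρ0 : ∀ i j, 0 ≤ ρ i j := fun i j => add_nonneg (add_nonneg (hτ _ _ _) (hτ _ _ _)) (hτ _ _ _)
  have hpt : ∀ i j l, tau c i j l * r i * r j * r l ≤
      (1 / 3 * (ρ i j + ρ j l + ρ i l) + tau c p b e) * r i * r j * r l := by
    intro i j l
    by_cases h0 : r i = 0 ∨ r j = 0 ∨ r l = 0
    · rcases h0 with h | h | h <;> rw [h] <;> simp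
    · push Not at h0
      obtain ⟨hi, hj, hl⟩ := h0
      have hne : ∀ x, r x ≠ 0 → x ≠ p ∧ x ≠ b ∧ x ≠ e := by
        intro x hx
        refine ⟨?_, ?_, ?_⟩ <;> rintro rfl <;> contradiction
      obtain ⟨ip, ib, ie⟩ := hne i hi
      obtain ⟨jp, jb, je⟩ := hne j hj
      obtain ⟨lp, lb, le⟩ := hne l hl
      have key : tau c i j l ≤ 1 / 3 * (ρ i j + ρ j l + ρ i l) + tau c p b e := by
        by_cases hD : Dist3 i j l
        · obtain ⟨hij, hjl, hil⟩ := hD
          have e0 : tau c i j l = c i j + c j l + c i l := tau_pos hij hjl hil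
          have e1 : tau c p b e = c p b + c b e + c p e := tau_pos hpb hbe hpe
          have g : ∀ x y z : J, x ≠ y → y ≠ z → x ≠ z → tau c x y z = c x y + c y z + c x z :=
            fun x y z h1 h2 h3 => tau_pos h1 h2 h3
          simp only [hρ]
          rw [e0, e1, g p i j ip.symm hij jp.symm, g b i j ib.symm hij jb.symm,
            g e i j ie.symm hij je.symm, g p j l jp.symm hjl lp.symm, g b j l jb.symm hjl lb.symm,
            g e j l je.symm hjl le.symm, g p i l ip.symm hil lp.symm, g b i l ib.symm hil lb.symm,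
            g e i l ie.symm hil le.symm]
          have q : ∀ x, x ≠ p → x ≠ b → x ≠ e → 0 ≤ (c p b + c b x + c p x) +
              (c p e + c e x + c p x) + (c b e + c e x + c b x) := by
            intro x h1 h2 h3
            have := hT p b x hpb h2.symm h1.symm
            have := hT p e x hpe h3.symm h1.symm
            have := hT b e x hbe h3.symm h2.symm
            linarith
          have q1 := q i ip ib ie
          have q2 := q j jp jb je
          have q3 := q l lp lb le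
          linarith
        · have : tau c i j l = 0 := if_neg hD
          rw [this]
          have := hρ0 i j
          have := hρ0 j l
          have := hρ0 i l
          have := hτ p b e
          positivity
      have h1 := r0 i
      have h2 := r0 j
      have h3 := r0 l
      gcongr
  have hsum : tri3 (tau c) r r r ≤ ∑ i, ∑ j, ∑ l,
      (1 / 3 * (ρ i j + ρ j l + ρ i l) + tau c p b e) * r i * r j * r l := by
    unfold tri3
    exact Finset.sum_le_sum fun i _ => Finset.sum_le_sum fun j _ =>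
      Finset.sum_le_sum fun l _ => hpt i j l
  have s1 : ∑ i, ∑ j, ∑ l, ρ i j * r i * r j * r l = ∑ i, ∑ j, ρ i j * r i * r j := by
    refine Finset.sum_congr rfl fun i _ => Finset.sum_congr rfl fun j _ => ?_
    rw [← Finset.mul_sum, r1, mul_one]
  have s2 : ∑ i, ∑ j, ∑ l, ρ i l * r i * r j * r l = ∑ i, ∑ j, ρ i j * r i * r j := by
    rw [← s1]
    refine Finset.sum_congr rfl fun i _ => ?_
    rw [Finset.sum_comm]
    refine Finset.sum_congr rfl fun j _ => Finset.sum_congr rfl fun l _ => ?_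
    ring
  have s3 : ∑ i, ∑ j, ∑ l, ρ j l * r i * r j * r l = ∑ i, ∑ j, ρ i j * r i * r j := by
    have : ∀ i, ∑ j, ∑ l, ρ j l * r i * r j * r l = r i * ∑ j, ∑ l, ρ j l * r j * r l := by
      intro i
      simp only [Finset.mul_sum]
      refine Finset.sum_congr rfl fun j _ => Finset.sum_congr rfl fun l _ => ?_
      ring
    simp only [this]
    rw [← Finset.sum_mul, r1, one_mul]
  have s4 : ∑ i, ∑ j, ∑ l, tau c p b e * r i * r j * r l = tau c p b e := by
    have : ∀ i j, ∑ l, tau c p b e * r i * r j * r l = tau c p b e * r i * r j := by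
      intro i j
      rw [← Finset.mul_sum, r1, mul_one]
    simp only [this]
    have : ∀ i, ∑ j, tau c p b e * r i * r j = tau c p b e * r i := by
      intro i
      rw [← Finset.mul_sum, r1, mul_one]
    simp only [this]
    rw [← Finset.mul_sum, r1, mul_one]
  have s5 : ∑ i, ∑ j, ρ i j * r i * r j = tri3 (tau c) (unit p) r r +
      tri3 (tau c) (unit b) r r + tri3 (tau c) (unit e) r r := by
    rw [tri3_unit1, tri3_unit1, tri3_unit1, ← Finset.sum_add_distrib, ← Finset.sum_add_distrib]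
    refine Finset.sum_congr rfl fun i _ => ?_
    rw [← Finset.sum_add_distrib, ← Finset.sum_add_distrib]
    refine Finset.sum_congr rfl fun j _ => ?_
    simp only [hρ]
    ring
  have s6 : ∑ i, ∑ j, ∑ l, (1 / 3 * (ρ i j + ρ j l + ρ i l) + tau c p b e) * r i * r j * r l =
      1 / 3 * (∑ i, ∑ j, ∑ l, ρ i j * r i * r j * r l + ∑ i, ∑ j, ∑ l, ρ j l * r i * r j * r l +
        ∑ i, ∑ j, ∑ l, ρ i l * r i * r j * r l) + ∑ i, ∑ j, ∑ l, tau c p b e * r i * r j * r l := by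
    simp only [Finset.mul_sum, ← Finset.sum_add_distrib]
    refine Finset.sum_congr rfl fun i _ => Finset.sum_congr rfl fun j _ =>
      Finset.sum_congr rfl fun l _ => ?_
    ring
  rw [s6, s1, s2, s3, s4, s5] at hsum
  linarith

omit [Fintype J] [DecidableEq J] hs hT in
theorem special1_arith {a κ P0 P1 P2 P3 P4 P5 P6 P7 Q X F G : ℝ} (ha : 1 ≤ a) (ha' : a ≤ 5 / 3)
    (hκ0 : 0 ≤ κ) (hκ : κ ≤ 1 / 18) (hκ' : κ ≤ (5 - 3 * a) / 18) (z0 : 0 ≤ P0) (z1 : 0 ≤ P1)
    (z2 : 0 ≤ P2) (z3 : 0 ≤ P3) (z4 : 0 ≤ P4) (z5 : 0 ≤ P5) (z6 : 0 ≤ P6) (hQ1 : Q ≤ 1)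
    (hX : 0 ≤ X) (h7 : P7 ≤ P4 + P5 + P6 + P0)
    (hG : G = P7 + 3 * (a * P4 + 1 * P5 + 1 * P6) + 3 * (2 * a * 1 * P1 + 2 * 1 * 1 * P3 +
      2 * a * 1 * P2) + 6 * a * 1 * 1 * P0)
    (hid : 3 * F = (1 + 3 * a - Q) * P0 + (3 * a - 1) * (P1 + P2) +
      (5 - 3 * a) * P3 + (P4 + P5 + P6) + X) : κ * G ≤ F := by
  have hGle : G ≤ (6 * a + 1) * P0 + 6 * a * (P1 + P2) + 6 * P3 +
      (3 * a + 1) * P4 + 4 * (P5 + P6) := by
    rw [hG]
    linarith
  have hG2 : κ * G ≤ κ * ((6 * a + 1) * P0 + 6 * a * (P1 + P2) + 6 * P3 +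
      (3 * a + 1) * P4 + 4 * (P5 + P6)) := mul_le_mul_of_nonneg_left hGle hκ0
  have w0 : κ * (6 * a + 1) * P0 ≤ a * P0 := by
    refine mul_le_mul_of_nonneg_right ?_ z0
    nlinarith
  have w1 : κ * (6 * a) * (P1 + P2) ≤ (3 * a - 1) / 3 * (P1 + P2) := by
    refine mul_le_mul_of_nonneg_right ?_ (by linarith)
    nlinarith
  have w3 : κ * 6 * P3 ≤ (5 - 3 * a) / 3 * P3 := by
    refine mul_le_mul_of_nonneg_right ?_ z3
    linarith
  have w4 : κ * (3 * a + 1) * P4 ≤ 1 / 3 * P4 := by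
    refine mul_le_mul_of_nonneg_right ?_ z4
    nlinarith
  have w5 : κ * 4 * (P5 + P6) ≤ 1 / 3 * (P5 + P6) := by
    refine mul_le_mul_of_nonneg_right ?_ (by linarith)
    linarith
  have wQ : Q * P0 ≤ 1 * P0 := mul_le_mul_of_nonneg_right hQ1 z0
  linarith

include hd

/-- **Special point 1.** -/
theorem special1 {p b e : J} (hpb : p ≠ b) (hbe : b ≠ e) (hpe : p ≠ e) (r : J → ℝ)
    (r0 : ∀ i, 0 ≤ r i) (rp : r p = 0) (rb : r b = 0) (re : r e = 0) (r1 : ∑ i, r i = 1)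
    (a κ : ℝ) (ha : 1 ≤ a) (ha' : a ≤ 5 / 3) (hκ0 : 0 ≤ κ) (hκ : κ ≤ 1 / 18)
    (hκ' : κ ≤ (5 - 3 * a) / 18) (v : J → ℝ)
    (hv : v = r + (a • unit p + (1 : ℝ) • unit b + (1 : ℝ) • unit e)) :
    κ * tri3 (tau c) v v v ≤ bil c v v := by
  have hτ := tau_nonneg hT
  have h7 := tri3_le_of_support hT hpb hbe hpe r r0 rp rb re r1
  have hne : ∀ x, r x ≠ 0 → x ≠ p ∧ x ≠ b ∧ x ≠ e := by
    intro x hx
    refine ⟨?_, ?_, ?_⟩ <;> rintro rfl <;> contradiction
  have rle : ∀ i, r i ≤ 1 := fun i => by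
    rw [← r1]
    exact Finset.single_le_sum (fun j _ => r0 j) (mem_univ i)
  -- abbreviations
  set A := ∑ i, c p i * r i with hA
  set B := ∑ i, c b i * r i with hB
  set C := ∑ i, c e i * r i with hC
  set A2 := ∑ i, c p i * r i ^ 2 with hA2
  set B2 := ∑ i, c b i * r i ^ 2 with hB2
  set C2 := ∑ i, c e i * r i ^ 2 with hC2
  set Q := ∑ i, r i ^ 2 with hQ
  set E2 := bil c r r with hE2
  have t_1 : ∀ x y : J, x ≠ y → (∀ i, r i ≠ 0 → i ≠ x ∧ i ≠ y) →
      tri3 (tau c) (unit x) (unit y) r = c x y + ∑ i, c x i * r i + ∑ i, c y i * r i := by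
    intro x y hxy hx
    rw [tri3_unit12]
    have : ∀ i, tau c x y i * r i = c x y * r i + c x i * r i + c y i * r i := by
      intro i
      by_cases hi : r i = 0
      · rw [hi]; ring
      · rw [tau_pos hxy (hx i hi).2.symm (hx i hi).1.symm]
        ring
    simp only [this, Finset.sum_add_distrib, ← Finset.mul_sum, r1, mul_one]
  have q_1 : ∀ x y : J, x ≠ y → (∀ i, r i ≠ 0 → i ≠ x ∧ i ≠ y) →
      0 ≤ c x y * Q + ∑ i, c x i * r i ^ 2 + ∑ i, c y i * r i ^ 2 := by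
    intro x y hxy hx
    rw [hQ, Finset.mul_sum, ← Finset.sum_add_distrib, ← Finset.sum_add_distrib]
    refine Finset.sum_nonneg fun i _ => ?_
    by_cases hi : r i = 0
    · rw [hi]; simp
    · have h1 := hT x y i hxy (hx i hi).2.symm (hx i hi).1.symm
      have h2 : c x y * r i ^ 2 + c x i * r i ^ 2 + c y i * r i ^ 2 =
        (c x y + c y i + c x i) * r i ^ 2 := by ring
      rw [h2]
      positivity
  have t_4 : ∀ x : J, (∀ i, r i ≠ 0 → i ≠ x) →
      tri3 (tau c) (unit x) r r = 2 * ∑ i, c x i * r i - 2 * ∑ i, c x i * r i ^ 2 + E2 := by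
    intro x hx
    rw [tri3_unit1]
    have h1 : ∀ i j, tau c x i j * r i * r j = (c x i * r i) * r j + (c x j * r j) * r i +
        c i j * r i * r j - (if i = j then 2 * (c x i * r i ^ 2) else 0) := by
      intro i j
      by_cases hi : r i = 0
      · rw [hi]
        split_ifs <;> ring
      · by_cases hj : r j = 0
        · rw [hj]
          by_cases hij : i = j
          · subst hij
            rw [if_pos rfl, hj]
            ring
          · rw [if_neg hij]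
            ring
        · by_cases hij : i = j
          · subst hij
            rw [if_pos rfl, tau_abb, hd]
            ring
          · rw [if_neg hij, tau_pos (hx i hi).symm hij (hx j hj).symm]
            ring
    simp only [h1, Finset.sum_sub_distrib, Finset.sum_add_distrib, ← Finset.mul_sum, r1, mul_one,
      ← Finset.sum_mul, Finset.sum_ite_eq, mem_univ, if_true]
    simp only [hE2, bil]
    ring
  have hT0 : tau c p b e = c p b + c b e + c p e := tau_pos hpb hbe hpe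
  have n1 := t_1 p b hpb fun i hi => ⟨(hne i hi).1, (hne i hi).2.1⟩
  have n2 := t_1 p e hpe fun i hi => ⟨(hne i hi).1, (hne i hi).2.2⟩
  have n3 := t_1 b e hbe fun i hi => ⟨(hne i hi).2.1, (hne i hi).2.2⟩
  have m1 := q_1 p b hpb fun i hi => ⟨(hne i hi).1, (hne i hi).2.1⟩
  have m2 := q_1 p e hpe fun i hi => ⟨(hne i hi).1, (hne i hi).2.2⟩
  have m3 := q_1 b e hbe fun i hi => ⟨(hne i hi).2.1, (hne i hi).2.2⟩
  have n4 := t_4 p fun i hi => (hne i hi).1
  have n5 := t_4 b fun i hi => (hne i hi).2.1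
  have n6 := t_4 e fun i hi => (hne i hi).2.2
  have u0 : ∀ y x : J, 0 ≤ unit y x := by
    intro y x
    unfold unit
    split_ifs <;> norm_num
  have z1 : 0 ≤ tri3 (tau c) (unit p) (unit b) r := tri3_nonneg hτ (u0 _) (u0 _) r0
  have z2 : 0 ≤ tri3 (tau c) (unit p) (unit e) r := tri3_nonneg hτ (u0 _) (u0 _) r0
  have z3 : 0 ≤ tri3 (tau c) (unit b) (unit e) r := tri3_nonneg hτ (u0 _) (u0 _) r0
  have z4 : 0 ≤ tri3 (tau c) (unit p) r r := tri3_nonneg hτ (u0 _) r0 r0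
  have z5 : 0 ≤ tri3 (tau c) (unit b) r r := tri3_nonneg hτ (u0 _) r0 r0
  have z6 : 0 ≤ tri3 (tau c) (unit e) r r := tri3_nonneg hτ (u0 _) r0 r0
  have z0 : 0 ≤ tau c p b e := hτ _ _ _
  have hQ1 : Q ≤ 1 := by
    rw [hQ, ← r1]
    refine Finset.sum_le_sum fun i _ => ?_
    have := r0 i
    have := rle i
    nlinarith
  -- the forms
  have hF : bil c v v = 2 * a * c p b + 2 * a * c p e + 2 * c b e + 2 * a * A + 2 * B + 2 * C +
      E2 := by
    rw [hv]
    simp only [bil_add_left, bil_add_right, bil_smul_left, bil_smul_right, bil_unit_unit,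
      bil_symm c hs r (unit p), bil_symm c hs r (unit b), bil_symm c hs r (unit e),
      bil_unit_left c p r, bil_unit_left c b r, bil_unit_left c e r, hd, hs b p, hs e p, hs e b]
    simp only [← hA, ← hB, ← hC, ← hE2]
    ring
  have hG := tri3_expand hs p b e a 1 1 r
  rw [← hv] at hG
  have hid : 3 * bil c v v = (1 + 3 * a - Q) * tau c p b e +
      (3 * a - 1) * (tri3 (tau c) (unit p) (unit b) r + tri3 (tau c) (unit p) (unit e) r) +
      (5 - 3 * a) * tri3 (tau c) (unit b) (unit e) r +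
      (tri3 (tau c) (unit p) r r + tri3 (tau c) (unit b) r r + tri3 (tau c) (unit e) r r) +
      (c p b * Q + A2 + B2) + (c p e * Q + A2 + C2) + (c b e * Q + B2 + C2) := by
    rw [hF, hT0, n1, n2, n3, n4, n5, n6]
    ring
  refine special1_arith (P0 := tau c p b e) (P1 := tri3 (tau c) (unit p) (unit b) r)
    (P2 := tri3 (tau c) (unit p) (unit e) r) (P3 := tri3 (tau c) (unit b) (unit e) r)
    (P4 := tri3 (tau c) (unit p) r r) (P5 := tri3 (tau c) (unit b) r r)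
    (P6 := tri3 (tau c) (unit e) r r) (P7 := tri3 (tau c) r r r) (Q := Q)
    (X := (c p b * Q + A2 + B2) + (c p e * Q + A2 + C2) + (c b e * Q + B2 + C2)) ha ha' hκ0 hκ hκ'
    z0 z1 z2 z3 z4 z5 z6 hQ1 (by linarith) ?_ ?_ ?_
  · linarith
  · linarith
  · linarith

/-- **Special point 2.** -/
theorem special2 {p b d e M : J} (hpb : p ≠ b) (hpd : p ≠ d) (hpe : p ≠ e) (hpM : p ≠ M)
    (hbd : b ≠ d) (hbe : b ≠ e) (hbM : b ≠ M) (hde : d ≠ e) (hdM : d ≠ M) (heM : e ≠ M)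
    (a κ u w : ℝ) (ha : 1 ≤ a) (ha' : a ≤ 5 / 3) (hκ : κ ≤ 1 / 18)
    (hκ' : κ ≤ (5 - 3 * a) / 36) (hu : 0 ≤ u) (hw : 0 ≤ w) (hm : u + w ≤ 1 / 12) (v : J → ℝ)
    (hv : v = ((1 - w) • unit e + (u + w) • unit M) +
      (a • unit p + (1 : ℝ) • unit b + (1 - u) • unit d)) :
    κ * tri3 (tau c) v v v ≤ bil c v v := by
  have hG := tri3_expand hs p b d a 1 (1 - u) ((1 - w) • unit e + (u + w) • unit M)
  rw [← hv] at hG
  have s12 := fun u v w => tri3_swap12 (tau c) (tau_swap12 hs) u v w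
  have s23 := fun u v w => tri3_swap23 (tau c) (tau_swap23 hs) u v w
  have g2 : ∀ x y : J, tri3 (tau c) (unit x) (unit y) ((1 - w) • unit e + (u + w) • unit M) =
      (1 - w) * tau c x y e + (u + w) * tau c x y M := by
    intro x y
    rw [tri3_add_right, s23 _ _ ((1 - w) • unit e), s12 _ ((1 - w) • unit e),
      tri3_smul_left, s23 _ _ ((u + w) • unit M), s12 _ ((u + w) • unit M), tri3_smul_left,
      tri3_unit123, tri3_unit123, tau_swap12 hs e x y, tau_swap23 hs x e y,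
      tau_swap12 hs M x y, tau_swap23 hs x M y]
  have g1 : ∀ x : J, tri3 (tau c) (unit x) ((1 - w) • unit e + (u + w) • unit M)
      ((1 - w) • unit e + (u + w) • unit M) = 2 * (1 - w) * (u + w) * tau c x e M := by
    intro x
    rw [s12, tri3_add_left, tri3_smul_left, tri3_smul_left, s12 (unit e), s12 (unit M), g2, g2,
      tau_abb, tau_abb, tau_swap23 hs x M e]
    ring
  have g0 : tri3 (tau c) ((1 - w) • unit e + (u + w) • unit M)
      ((1 - w) • unit e + (u + w) • unit M) ((1 - w) • unit e + (u + w) • unit M) = 0 := by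
    rw [tri3_add_left, tri3_smul_left, tri3_smul_left, g1, g1, tau_aab, tau_aba]
    ring
  rw [g0, g1, g1, g1, g2, g2, g2] at hG
  have hτ := tau_nonneg hT
  have T1 := tau_pos (c := c) hpb hbd hpd
  have T2 := tau_pos (c := c) hpb hbe hpe
  have T3 := tau_pos (c := c) hpb hbM hpM
  have T4 := tau_pos (c := c) hpd hde hpe
  have T5 := tau_pos (c := c) hpd hdM hpM
  have T6 := tau_pos (c := c) hpe heM hpM
  have T7 := tau_pos (c := c) hbd hde hbe
  have T8 := tau_pos (c := c) hbd hdM hbM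
  have T9 := tau_pos (c := c) hbe heM hbM
  have T10 := tau_pos (c := c) hde heM hdM
  have hF : bil c v v = 2 * (a * c p b + a * (1 - u) * c p d + a * (1 - w) * c p e +
      a * (u + w) * c p M + (1 - u) * c b d + (1 - w) * c b e + (u + w) * c b M +
      (1 - u) * (1 - w) * c d e + (1 - u) * (u + w) * c d M + (1 - w) * (u + w) * c e M) := by
    rw [hv]
    simp only [bil_add_left, bil_add_right, bil_smul_left, bil_smul_right, bil_unit_unit, hd,
      hs b p, hs d p, hs e p, hs M p, hs d b, hs e b, hs M b, hs e d, hs M d, hs M e]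
    ring
  have a0 : 0 ≤ a := by linarith
  have hκa : 6 * κ * a ≤ 1 / 3 := by
    have h1 : 6 * κ * a ≤ 6 * ((5 - 3 * a) / 36) * a :=
      mul_le_mul_of_nonneg_right (by linarith) a0
    nlinarith
  have hk6 : 6 * κ ≤ 1 / 3 := by linarith
  have hk' : 6 * κ ≤ (5 - 3 * a) / 6 := by linarith
  have hm' : w + u ≤ 1 / 12 := by linarith
  have k1 := ar1 ha hk6 hu hw hm
  have k2 := ar1 ha hk6 hw hu hm'
  have k3 := ar3 ha hk6 hu hw
  have k4 := ar4 ha hk6 hu hw hm
  have k5 := ar5 ha hκa hu hw hm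
  have k6 := ar5 ha hκa hw hu hm'
  have k7 := ar7 ha' hk' ha hu hw hm
  have k8 := ar8 ha' hk' ha hu hw hm
  have k9 := ar8 ha' hk' ha hw hu hm'
  have k10 := ar10 hk6 hu hw hm
  have l1 := mul_nonneg k1 (hτ p b d)
  have l2 := mul_nonneg k2 (hτ p b e)
  have l3 := mul_nonneg k3 (hτ p b M)
  have l4 := mul_nonneg k4 (hτ p d e)
  have l5 := mul_nonneg k5 (hτ p d M)
  have l6 := mul_nonneg k6 (hτ p e M)
  have l7 := mul_nonneg k7 (hτ b d e)
  have l8 := mul_nonneg k8 (hτ b d M)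
  have l9 := mul_nonneg k9 (hτ b e M)
  have l10 := mul_nonneg k10 (hτ d e M)
  rw [T1] at l1 hG
  rw [T2] at l2 hG
  rw [T3] at l3 hG
  rw [T4] at l4 hG
  rw [T5] at l5 hG
  rw [T6] at l6 hG
  rw [T7] at l7 hG
  rw [T8] at l8 hG
  rw [T9] at l9 hG
  rw [T10] at l10 hG
  rw [hF, hG]
  linarith

end sp1

end Pool.Agent.MP_dd827d_co
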