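import Pool.Agent.Lib.MP_dd827d_co.Round

/-!
Splitting a matrix with row sums `D r u` and column sums `D c v` into `D` matrices with row sums
`r u` and column sums `c v`, as evenly as wanted from below.
-/

namespace Pool.Agent.MP_dd827d_co

open Finset Function

variable {U V : Type*} [Fintype U] [Fintype V]

theorem exists_split_fin (D : ℕ) : ∀ (m : U → V → ℕ) (a : U → V → ℕ) (r : U → ℕ) (c : V → ℕ),
    (∀ u, ∑ v, m u v = D * r u) → (∀ v, ∑ u, m u v = D * c v) → (∀ u v, D * a u v ≤ m u v) →
    ∃ X : Fin D → U → V → ℕ, (∀ t u, ∑ v, X t u v = r u) ∧ (∀ t v, ∑ u, X t u v = c v) ∧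
      (∀ u v, ∑ t, X t u v = m u v) ∧ ∀ t u v, a u v ≤ X t u v := by
  induction D with
  | zero =>
    intro m a r c hr _ _
    refine ⟨fun t => t.elim0, fun t => t.elim0, fun t => t.elim0, fun u v => ?_,
      fun t => t.elim0⟩
    have := hr u
    rw [Nat.zero_mul, Finset.sum_eq_zero_iff] at this
    simp [this v (mem_univ v)]
  | succ D ih =>
    intro m a r c hr hc ha
    have hD : (0 : ℝ) < ((D + 1 : ℕ) : ℝ) := by positivity
    obtain ⟨Y, hY1, hY2, hY3⟩ := exists_round (fun u v => (m u v : ℝ) / ((D + 1 : ℕ) : ℝ))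
      (fun u => (r u : ℤ)) (fun v => (c v : ℤ)) (by
        intro u
        rw [← Finset.sum_div, ← Nat.cast_sum, hr, div_eq_iff hD.ne']
        push_cast
        ring) (by
        intro v
        rw [← Finset.sum_div, ← Nat.cast_sum, hc, div_eq_iff hD.ne']
        push_cast
        ring)
    -- bounds on `Y`
    have hYa : ∀ u v, (a u v : ℤ) ≤ Y u v := by
      intro u v
      refine le_trans (Int.le_floor.2 ?_) (hY3 u v).1
      rw [le_div_iff₀ hD]
      have := ha u v
      have h : (((D + 1) * a u v : ℕ) : ℝ) ≤ m u v := by exact_mod_cast this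
      push_cast at h ⊢
      linarith
    have hYu : ∀ u v, ((D + 1 : ℕ) : ℤ) * (Y u v - 1) < m u v := by
      intro u v
      have h1 : Y u v - 1 < ⌈(m u v : ℝ) / ((D + 1 : ℕ) : ℝ)⌉ := by
        have := (hY3 u v).2
        linarith
      rw [Int.lt_ceil, lt_div_iff₀ hD] at h1
      have h2 : ((((D + 1 : ℕ) : ℤ) * (Y u v - 1) : ℤ) : ℝ) < ((m u v : ℤ) : ℝ) := by
        push_cast at h1 ⊢
        linarith
      exact_mod_cast h2
    have hkey : ∀ u v, Y u v + D * a u v ≤ m u v := by
      intro u v
      have h1 := hYu u v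
      have h2 : (((D + 1) * a u v : ℕ) : ℤ) ≤ m u v := by exact_mod_cast ha u v
      have h3 := hYa u v
      push_cast at h1 h2
      by_contra hcon
      push Not at hcon
      have hDn : (0 : ℤ) ≤ D := by positivity
      have h4 : (D : ℤ) * (Y u v - 1 - a u v) < 0 := by nlinarith
      have h5 : Y u v - 1 - a u v < 0 := by
        by_contra h6
        push Not at h6
        have := mul_nonneg hDn h6
        linarith
      have h7 : Y u v = a u v := by linarith
      rw [h7] at hcon
      nlinarith
    have hY0 : ∀ u v, 0 ≤ Y u v := fun u v => le_trans (by positivity) (hYa u v)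
    have hYm : ∀ u v, (Y u v).toNat + D * a u v ≤ m u v := by
      intro u v
      have := hkey u v
      have h := Int.toNat_of_nonneg (hY0 u v)
      have h2 : (((Y u v).toNat + D * a u v : ℕ) : ℤ) ≤ (m u v : ℤ) := by
        push_cast
        rw [h]
        exact this
      exact_mod_cast h2
    have hYr : ∀ u, ∑ v, (Y u v).toNat = r u := by
      intro u
      have h : ((∑ v, (Y u v).toNat : ℕ) : ℤ) = (r u : ℤ) := by
        rw [← hY1 u, Nat.cast_sum]
        exact Finset.sum_congr rfl fun v _ => Int.toNat_of_nonneg (hY0 u v)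
      exact_mod_cast h
    have hYc : ∀ v, ∑ u, (Y u v).toNat = c v := by
      intro v
      have h : ((∑ u, (Y u v).toNat : ℕ) : ℤ) = (c v : ℤ) := by
        rw [← hY2 v, Nat.cast_sum]
        exact Finset.sum_congr rfl fun u _ => Int.toNat_of_nonneg (hY0 u v)
      exact_mod_cast h
    obtain ⟨X, hX1, hX2, hX3, hX4⟩ := ih (fun u v => m u v - (Y u v).toNat) a r c (by
        intro u
        have h1 : ∑ v, (m u v - (Y u v).toNat) + ∑ v, (Y u v).toNat = ∑ v, m u v := by
          rw [← Finset.sum_add_distrib]
          refine Finset.sum_congr rfl fun v _ => Nat.sub_add_cancel ?_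
          have := hYm u v
          omega
        rw [hYr, hr, Nat.succ_mul] at h1
        exact Nat.add_right_cancel h1) (by
        intro v
        have h1 : ∑ u, (m u v - (Y u v).toNat) + ∑ u, (Y u v).toNat = ∑ u, m u v := by
          rw [← Finset.sum_add_distrib]
          refine Finset.sum_congr rfl fun u _ => Nat.sub_add_cancel ?_
          have := hYm u v
          omega
        rw [hYc, hc, Nat.succ_mul] at h1
        exact Nat.add_right_cancel h1) (by
        intro u v
        have := hYm u v
        omega)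
    refine ⟨Fin.cons (fun u v => (Y u v).toNat) X, fun t u => ?_, fun t v => ?_, fun u v => ?_,
      fun t u v => ?_⟩
    · refine Fin.cases ?_ (fun t => ?_) t
      · simpa using hYr u
      · simpa using hX1 t u
    · refine Fin.cases ?_ (fun t => ?_) t
      · simpa using hYc v
      · simpa using hX2 t v
    · rw [Fin.sum_univ_succ]
      simp only [Fin.cons_zero, Fin.cons_succ]
      rw [hX3]
      have := hYm u v
      omega
    · refine Fin.cases ?_ (fun t => ?_) t
      · simp only [Fin.cons_zero]
        have h1 := hYa u v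
        omega
      · simpa using hX4 t u v

/-- Splitting lemma. -/
theorem exists_split {T : Type*} [Fintype T] (m : U → V → ℕ) (a : U → V → ℕ) (r : U → ℕ)
    (c : V → ℕ) (hr : ∀ u, ∑ v, m u v = Fintype.card T * r u)
    (hc : ∀ v, ∑ u, m u v = Fintype.card T * c v)
    (ha : ∀ u v, Fintype.card T * a u v ≤ m u v) :
    ∃ X : T → U → V → ℕ, (∀ t u, ∑ v, X t u v = r u) ∧ (∀ t v, ∑ u, X t u v = c v) ∧
      (∀ u v, ∑ t, X t u v = m u v) ∧ ∀ t u v, a u v ≤ X t u v := by
  classical
  obtain ⟨X, h1, h2, h3, h4⟩ := exists_split_fin (Fintype.card T) m a r c hr hc ha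
  let e := Fintype.equivFin T
  refine ⟨fun t => X (e t), fun t u => h1 _ _, fun t v => h2 _ _, fun u v => ?_,
    fun t u v => h4 _ _ _⟩
  rw [← h3 u v]
  exact Fintype.sum_equiv e _ _ fun t => rfl

end Pool.Agent.MP_dd827d_co
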