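import Pool.Agent.Lib.MP_dd827d_co.Round3
import Pool.Agent.Lib.MP_dd827d_co.Merge
import Pool.Agent.Lib.MP_dd827d_co.Slk

/-!
Exact classification of the partitions in which three parts dominate.
-/

namespace Pool.Agent.MP_dd827d_co

open Finset Function

namespace Three

/-- a function below `w` with a given sum -/
theorem exists_sub {P : Type*} [DecidableEq P] (s : Finset P) (w : P → ℕ) :
    ∀ E : ℕ, E ≤ ∑ p ∈ s, w p → ∃ e : P → ℕ, (∀ p, e p ≤ w p) ∧ ∑ p ∈ s, e p = E := by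
  induction s using Finset.induction_on with
  | empty =>
    intro E hE
    refine ⟨fun _ => 0, fun _ => Nat.zero_le _, ?_⟩
    simp only [Finset.sum_empty] at hE ⊢
    omega
  | insert a s ha ih =>
    intro E hE
    rw [Finset.sum_insert ha] at hE
    by_cases h : E ≤ ∑ p ∈ s, w p
    · obtain ⟨e, he, hs⟩ := ih E h
      refine ⟨fun p => if p = a then 0 else e p, fun p => ?_, ?_⟩
      · by_cases hp : p = a
        · simp [hp]
        · simp [hp, he p]
      · rw [Finset.sum_insert ha, if_pos rfl, zero_add, ← hs]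
        refine Finset.sum_congr rfl fun p hp => ?_
        rw [if_neg]
        rintro rfl
        exact ha hp
    · refine ⟨fun p => if p = a then E - ∑ p ∈ s, w p else w p, fun p => ?_, ?_⟩
      · show (if p = a then E - ∑ p ∈ s, w p else w p) ≤ w p
        by_cases hp : p = a
        · rw [if_pos hp, hp]
          omega
        · rw [if_neg hp]
      · rw [Finset.sum_insert ha, if_pos rfl]
        have h1 : ∑ p ∈ s, (if p = a then E - ∑ p ∈ s, w p else w p) = ∑ p ∈ s, w p := by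
          refine Finset.sum_congr rfl fun p hp => ?_
          rw [if_neg]
          rintro rfl
          exact ha hp
        rw [h1]
        omega

/-- integers between bounds with a given sum -/
theorem exists_between {P : Type*} [Fintype P] [DecidableEq P] (lo hi : P → ℤ)
    (hle : ∀ i, lo i ≤ hi i) (X : ℤ) (h1 : ∑ i, lo i ≤ X) (h2 : X ≤ ∑ i, hi i) :
    ∃ x : P → ℤ, (∀ i, lo i ≤ x i ∧ x i ≤ hi i) ∧ ∑ i, x i = X := by
  have hw : ∀ i, ((hi i - lo i).toNat : ℤ) = hi i - lo i := fun i =>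
    Int.toNat_of_nonneg (by linarith [hle i])
  obtain ⟨e, he, hs⟩ := exists_sub univ (fun i => (hi i - lo i).toNat) (X - ∑ i, lo i).toNat (by
    have h3 : (((∑ i, (hi i - lo i).toNat : ℕ)) : ℤ) = ∑ i, hi i - ∑ i, lo i := by
      push_cast
      rw [← Finset.sum_sub_distrib]
      exact Finset.sum_congr rfl fun i _ => hw i
    omega)
  refine ⟨fun i => lo i + e i, fun i => ⟨?_, ?_⟩, ?_⟩
  · show lo i ≤ lo i + e i
    omega
  · show lo i + e i ≤ hi i
    have h3 := he i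
    have h4 := hw i
    have h5 : (e i : ℤ) ≤ ((hi i - lo i).toNat : ℤ) := by exact_mod_cast h3
    linarith
  · rw [Finset.sum_add_distrib]
    have h3 : ∑ i, ((e i : ℕ) : ℤ) = (((X - ∑ i, lo i).toNat : ℕ) : ℤ) := by
      rw [← hs]
      push_cast
      rfl
    rw [h3, Int.toNat_of_nonneg (by linarith)]
    ring

/-- splitting into three functions with given sums -/
theorem split3 {P : Type*} [Fintype P] [DecidableEq P] (w : P → ℤ) (hw : ∀ p, 0 ≤ w p)
    (E : Fin 3 → ℤ) (hE : ∀ u, 0 ≤ E u) (hs : ∑ u, E u = ∑ p, w p) :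
    ∃ e : Fin 3 → P → ℤ, (∀ u p, 0 ≤ e u p) ∧ (∀ p, ∑ u, e u p = w p) ∧
      ∀ u, ∑ p, e u p = E u := by
  rw [Fin.sum_univ_three] at hs
  have h0 := hE 0
  have h1 := hE 1
  have h2 := hE 2
  obtain ⟨x, hx, hxs⟩ := exists_between (fun _ => 0) w hw (E 0) (by simpa using h0) (by linarith)
  obtain ⟨y, hy, hys⟩ := exists_between (fun _ => 0) (fun p => w p - x p)
    (fun p => by linarith [(hx p).2]) (E 1) (by simpa using h1) (by
      rw [Finset.sum_sub_distrib, hxs]
      linarith)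
  refine ⟨![x, y, fun p => w p - x p - y p], fun u p => ?_, fun p => ?_, fun u => ?_⟩
  · fin_cases u
    · exact (hx p).1
    · exact (hy p).1
    · show 0 ≤ w p - x p - y p
      linarith [(hy p).2]
  · rw [Fin.sum_univ_three]
    show x p + y p + (w p - x p - y p) = w p
    ring
  · fin_cases u
    · exact hxs
    · exact hys
    · show ∑ p, (w p - x p - y p) = E 2
      rw [Finset.sum_sub_distrib, Finset.sum_sub_distrib, hxs, hys]
      linarith

/-- filling the blocks of the rest classes against the three large classes -/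
theorem hex {R : Type*} [Fintype R] [DecidableEq R] (N : Fin 3 → ℤ) (hab : N 1 ≤ N 0)
    (hbc : N 2 ≤ N 1) (d w : R → ℤ) (hd : ∀ i, 0 ≤ d i) (hw0 : ∀ i, 0 ≤ w i)
    (hw : ∀ i, 2 * w i ≤ d i * (N 1 + N 2 - N 0)) (α β : Fin 3 → R → ℤ)
    (hα0 : ∀ u i, 0 ≤ α u i) (hβ0 : ∀ u i, 0 ≤ β u i) (hα : ∀ i, ∑ u, α u i = w i)
    (hβ : ∀ i, ∑ u, β u i = w i) (X : Fin 3 → Fin 3 → ℤ) (hX0 : ∀ u, X u u = 0)
    (hX1 : ∀ u, ∑ v, X u v = ∑ i, (d i * N u - α u i))
    (hX2 : ∀ v, ∑ u, X u v = ∑ i, (d i * N v - β v i))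
    (hlo : ∑ i, w i ≤ X 1 2) (hhi : X 1 2 ≤ ∑ i, (d i * (N 1 + N 2 - N 0) - w i)) :
    ∃ h : R → Fin 3 → Fin 3 → ℤ, (∀ i u v, 0 ≤ h i u v) ∧ (∀ i u, h i u u = 0) ∧
      (∀ i u, ∑ v, h i u v = d i * N u - α u i) ∧ (∀ i v, ∑ u, h i u v = d i * N v - β v i) ∧
      ∀ u v, ∑ i, h i u v = X u v := by
  obtain ⟨x, hx, hxs⟩ := exists_between w (fun i => d i * (N 1 + N 2 - N 0) - w i)
    (fun i => by linarith [hw i]) (X 1 2) hlo hhi
  -- row and column sums
  have hα3 : ∀ i, α 0 i + α 1 i + α 2 i = w i := fun i => by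
    rw [← hα i, Fin.sum_univ_three]
  have hβ3 : ∀ i, β 0 i + β 1 i + β 2 i = w i := fun i => by
    rw [← hβ i, Fin.sum_univ_three]
  have hsplit : ∀ (u : Fin 3) (γ : Fin 3 → R → ℤ), ∑ i, (d i * N u - γ u i) =
      (∑ i, d i) * N u - ∑ i, γ u i := by
    intro u γ
    rw [Finset.sum_sub_distrib, Finset.sum_mul]
  have hX1' : ∀ u, X u 0 + X u 1 + X u 2 = (∑ i, d i) * N u - ∑ i, α u i := fun u => by
    rw [← hsplit u α, ← hX1 u, Fin.sum_univ_three]
  have hX2' : ∀ v, X 0 v + X 1 v + X 2 v = (∑ i, d i) * N v - ∑ i, β v i := fun v => by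
    rw [← hsplit v β, ← hX2 v, Fin.sum_univ_three]
  have hsα : ∑ i, α 0 i + ∑ i, α 1 i + ∑ i, α 2 i = ∑ i, w i := by
    rw [← Finset.sum_add_distrib, ← Finset.sum_add_distrib]
    exact Finset.sum_congr rfl fun i _ => hα3 i
  have hsβ : ∑ i, β 0 i + ∑ i, β 1 i + ∑ i, β 2 i = ∑ i, w i := by
    rw [← Finset.sum_add_distrib, ← Finset.sum_add_distrib]
    exact Finset.sum_congr rfl fun i _ => hβ3 i
  refine ⟨fun i => ![![0, (d i * N 0 - α 0 i) - (d i * N 2 - β 2 i - x i), d i * N 2 - β 2 i - x i],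
    ![d i * N 1 - α 1 i - x i, 0, x i],
    ![(d i * N 0 - β 0 i) - (d i * N 1 - α 1 i - x i),
      (d i * N 1 - β 1 i) - ((d i * N 0 - α 0 i) - (d i * N 2 - β 2 i - x i)), 0]],
    fun i u v => ?_, fun i u => ?_, fun i u => ?_, fun i v => ?_, fun u v => ?_⟩
  · -- nonnegativity
    have a0 := hα0 0 i
    have a1 := hα0 1 i
    have a2 := hα0 2 i
    have b0 := hβ0 0 i
    have b1 := hβ0 1 i
    have b2 := hβ0 2 i
    have s1 := hα3 i
    have s2 := hβ3 i
    have x1 := (hx i).1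
    have x2 := (hx i).2
    have w0 := hw0 i
    have n1 : d i * N 1 ≤ d i * N 0 := mul_le_mul_of_nonneg_left hab (hd i)
    have n2 : d i * N 2 ≤ d i * N 1 := mul_le_mul_of_nonneg_left hbc (hd i)
    have e1 : d i * (N 1 + N 2 - N 0) = d i * N 1 + d i * N 2 - d i * N 0 := by ring
    rw [e1] at x2
    fin_cases u <;> fin_cases v
    · exact le_rfl
    · show 0 ≤ (d i * N 0 - α 0 i) - (d i * N 2 - β 2 i - x i)
      linarith
    · show 0 ≤ d i * N 2 - β 2 i - x i
      linarith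
    · show 0 ≤ d i * N 1 - α 1 i - x i
      linarith
    · exact le_rfl
    · show 0 ≤ x i
      linarith
    · show 0 ≤ (d i * N 0 - β 0 i) - (d i * N 1 - α 1 i - x i)
      linarith
    · show 0 ≤ (d i * N 1 - β 1 i) - ((d i * N 0 - α 0 i) - (d i * N 2 - β 2 i - x i))
      linarith
    · exact le_rfl
  · fin_cases u <;> rfl
  · rw [Fin.sum_univ_three]
    have s1 := hα3 i
    have s2 := hβ3 i
    fin_cases u
    · show 0 + ((d i * N 0 - α 0 i) - (d i * N 2 - β 2 i - x i)) + (d i * N 2 - β 2 i - x i) =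
        d i * N 0 - α 0 i
      ring
    · show d i * N 1 - α 1 i - x i + 0 + x i = d i * N 1 - α 1 i
      ring
    · show (d i * N 0 - β 0 i) - (d i * N 1 - α 1 i - x i) +
        ((d i * N 1 - β 1 i) - ((d i * N 0 - α 0 i) - (d i * N 2 - β 2 i - x i))) + 0 =
        d i * N 2 - α 2 i
      linarith
  · rw [Fin.sum_univ_three]
    fin_cases v
    · show 0 + (d i * N 1 - α 1 i - x i) + ((d i * N 0 - β 0 i) - (d i * N 1 - α 1 i - x i)) =
        d i * N 0 - β 0 i
      ring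
    · show ((d i * N 0 - α 0 i) - (d i * N 2 - β 2 i - x i)) + 0 +
        ((d i * N 1 - β 1 i) - ((d i * N 0 - α 0 i) - (d i * N 2 - β 2 i - x i))) =
        d i * N 1 - β 1 i
      ring
    · show (d i * N 2 - β 2 i - x i) + x i + 0 = d i * N 2 - β 2 i
      ring
  · have r0 := hX1' 0
    have r1 := hX1' 1
    have r2 := hX1' 2
    have c0 := hX2' 0
    have c1 := hX2' 1
    have c2 := hX2' 2
    have z0 := hX0 0
    have z1 := hX0 1
    have z2 := hX0 2
    fin_cases u <;> fin_cases v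
    · show ∑ i : R, (0 : ℤ) = X 0 0
      rw [z0]
      simp
    · show ∑ i, ((d i * N 0 - α 0 i) - (d i * N 2 - β 2 i - x i)) = X 0 1
      simp only [Finset.sum_sub_distrib, ← Finset.sum_mul, hxs]
      linarith
    · show ∑ i, (d i * N 2 - β 2 i - x i) = X 0 2
      simp only [Finset.sum_sub_distrib, ← Finset.sum_mul, hxs]
      linarith
    · show ∑ i, (d i * N 1 - α 1 i - x i) = X 1 0
      simp only [Finset.sum_sub_distrib, ← Finset.sum_mul, hxs]
      linarith
    · show ∑ i : R, (0 : ℤ) = X 1 1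
      rw [z1]
      simp
    · exact hxs
    · show ∑ i, ((d i * N 0 - β 0 i) - (d i * N 1 - α 1 i - x i)) = X 2 0
      simp only [Finset.sum_sub_distrib, ← Finset.sum_mul, hxs]
      linarith
    · show ∑ i, ((d i * N 1 - β 1 i) - ((d i * N 0 - α 0 i) - (d i * N 2 - β 2 i - x i))) = X 2 1
      simp only [Finset.sum_sub_distrib, ← Finset.sum_mul, hxs]
      linarith
    · show ∑ i : R, (0 : ℤ) = X 2 2
      rw [z2]
      simp

/-- the array assembled from its parts -/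
def Y {R : Type*} (p : Fin 3 → Fin 3 → Fin 3 → ℤ) (hr hc hs : R → Fin 3 → Fin 3 → ℤ)
    (e f g : Fin 3 → R → R → ℤ) : Fin 3 ⊕ R → Fin 3 ⊕ R → Fin 3 ⊕ R → ℤ
  | .inl u, .inl v, .inl w => p u v w
  | .inr i, .inl u, .inl v => hr i u v
  | .inl u, .inr i, .inl v => hc i u v
  | .inl u, .inl v, .inr i => hs i u v
  | .inr i, .inr j, .inl u => e u i j
  | .inr i, .inl u, .inr j => f u i j
  | .inl u, .inr i, .inr j => g u i j
  | .inr _, .inr _, .inr _ => 0

theorem outline_of_data {R : Type*} [Fintype R] (N : Fin 3 → ℤ) (d : R → ℤ)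
    (p : Fin 3 → Fin 3 → Fin 3 → ℤ) (hr hc hs : R → Fin 3 → Fin 3 → ℤ)
    (e f g : Fin 3 → R → R → ℤ)
    (p12 : ∀ u w, p u u w = 0) (p23 : ∀ u v, p u v v = 0) (p13 : ∀ u v, p u v u = 0)
    (hr0 : ∀ i u, hr i u u = 0) (hc0 : ∀ i u, hc i u u = 0) (hs0 : ∀ i u, hs i u u = 0)
    (e0 : ∀ u i, e u i i = 0) (f0 : ∀ u i, f u i i = 0) (g0 : ∀ u i, g u i i = 0)
    (e1 : ∀ i j, i ≠ j → ∑ u, e u i j = d i * d j) (f1 : ∀ i j, i ≠ j → ∑ u, f u i j = d i * d j)
    (g1 : ∀ i j, i ≠ j → ∑ u, g u i j = d i * d j)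
    (r1 : ∀ i u, ∑ v, hr i u v + ∑ j, f u i j = d i * N u)
    (r2 : ∀ i v, ∑ u, hr i u v + ∑ j, e v i j = d i * N v)
    (r3 : ∀ u v, u ≠ v → ∑ x, p x u v + ∑ i, hr i u v = N u * N v)
    (c1 : ∀ i u, ∑ v, hc i u v + ∑ j, g u i j = N u * d i)
    (c2 : ∀ i v, ∑ u, hc i u v + ∑ j, e v j i = d i * N v)
    (c3 : ∀ u v, u ≠ v → ∑ x, p u x v + ∑ i, hc i u v = N u * N v)
    (s1 : ∀ i u, ∑ v, hs i u v + ∑ j, g u j i = N u * d i)
    (s2 : ∀ i v, ∑ u, hs i u v + ∑ j, f v j i = N v * d i)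
    (s3 : ∀ u v, u ≠ v → ∑ w, p u v w + ∑ i, hs i u v = N u * N v) :
    IsOutline (Sum.elim N d) (Y p hr hc hs e f g) := by
  refine ⟨?_, ?_, ?_, ?_, ?_, ?_⟩
  · rintro (u | i) (v | j)
    · exact p12 _ _
    · exact hs0 _ _
    · exact e0 _ _
    · rfl
  · rintro (u | i) (v | j)
    · exact p23 _ _
    · exact g0 _ _
    · exact hr0 _ _
    · rfl
  · rintro (u | i) (v | j)
    · exact p13 _ _
    · exact hc0 _ _
    · exact f0 _ _
    · rfl
  · rintro (u | i) (v | j) h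
    · rw [Fintype.sum_sum_type]
      exact s3 u v (fun h' => h (by rw [h']))
    · rw [Fintype.sum_sum_type]
      exact c1 j u
    · rw [Fintype.sum_sum_type]
      exact r1 i v
    · rw [Fintype.sum_sum_type]
      show ∑ u, e u i j + ∑ _k : R, (0 : ℤ) = d i * d j
      rw [Finset.sum_const_zero, add_zero]
      exact e1 i j (fun h' => h (by rw [h']))
  · rintro (u | i) (v | j) h
    · rw [Fintype.sum_sum_type]
      exact c3 u v (fun h' => h (by rw [h']))
    · rw [Fintype.sum_sum_type]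
      exact s1 j u
    · rw [Fintype.sum_sum_type]
      exact r2 i v
    · rw [Fintype.sum_sum_type]
      show ∑ u, f u i j + ∑ _k : R, (0 : ℤ) = d i * d j
      rw [Finset.sum_const_zero, add_zero]
      exact f1 i j (fun h' => h (by rw [h']))
  · rintro (u | i) (v | j) h
    · rw [Fintype.sum_sum_type]
      exact r3 u v (fun h' => h (by rw [h']))
    · rw [Fintype.sum_sum_type]
      exact s2 j u
    · rw [Fintype.sum_sum_type]
      exact c2 i v
    · rw [Fintype.sum_sum_type]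
      show ∑ u, g u i j + ∑ _k : R, (0 : ℤ) = d i * d j
      rw [Finset.sum_const_zero, add_zero]
      exact g1 i j (fun h' => h (by rw [h']))

/-- the six large entries -/
def pp (x y z x' y' z' : ℤ) : Fin 3 → Fin 3 → Fin 3 → ℤ :=
  ![![![0, 0, 0], ![0, 0, x], ![0, y, 0]], ![![0, 0, z], ![0, 0, 0], ![x', 0, 0]],
    ![![0, y', 0], ![z', 0, 0], ![0, 0, 0]]]

theorem pp_nonneg {x y z x' y' z' : ℤ} (h1 : 0 ≤ x) (h2 : 0 ≤ y) (h3 : 0 ≤ z) (h4 : 0 ≤ x')
    (h5 : 0 ≤ y') (h6 : 0 ≤ z') (u v w : Fin 3) : 0 ≤ pp x y z x' y' z' u v w := by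
  fin_cases u <;> fin_cases v <;> fin_cases w <;> first | exact le_rfl | assumption

/-- rows of a matrix of pairs -/
theorem sum_pairs {R : Type*} [Fintype R] (e : Fin 3 → R × R → ℤ) (u : Fin 3) :
    ∑ i, ∑ j, e u (i, j) = ∑ q, e u q := (Fintype.sum_prod_type (fun q => e u q)).symm

/-- the arithmetic of the condition -/
theorem bounds (a b c t W : ℤ) (hab : b ≤ a) (hbc : c ≤ b) (hc : 0 < c) (ht0 : 0 ≤ t)
    (htc : 4 * t ≤ c) (hW0 : 0 ≤ W) (hWt : W ≤ t * t - t)
    (hC : (a - b) * (c - t) + (a - c) * (b - t) ≤ W) (P : ℤ)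
    (hP : P = W + 2 * (a * b + a * c + b * c) - (t * a + t * b + t * c)) :
    3 * (a * b + a * c - t * a) ≤ P ∧ a * b + b * c - t * b ≤ a * b + a * c - t * a ∧
      a * c + b * c - t * c ≤ a * b + a * c - t * a ∧ 0 ≤ P ∧ 2 * t ≤ b + c - a ∧
      ∀ q : ℤ, P - 5 ≤ 6 * q → 6 * q ≤ P + 5 →
        W ≤ b * c - q ∧ b * c - q ≤ t * (b + c - a) - W := by
  have q1 : 0 ≤ (a - b) * (c - t) := mul_nonneg (by linarith) (by linarith)
  have q2 : 0 ≤ (a - c) * (b - t) := mul_nonneg (by linarith) (by linarith)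
  have hα0 : 0 ≤ a * (b + c - t) := mul_nonneg (by linarith) (by linarith)
  have hα : 3 * (a * b + a * c - t * a) ≤ P := by rw [hP]; linarith
  have hsmall : 3 * (2 * a - b - c) ≤ t := by
    by_contra hcon
    push Not at hcon
    have h3 : (a - b) * (3 * t) ≤ (a - b) * (c - t) :=
      mul_le_mul_of_nonneg_left (by linarith) (by linarith)
    have h4 : (a - c) * (3 * t) ≤ (a - c) * (b - t) :=
      mul_le_mul_of_nonneg_left (by linarith) (by linarith)
    rcases eq_or_lt_of_le ht0 with h0 | h0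
    · have t0 : t = 0 := h0.symm
      rw [t0] at hcon hC hWt
      have e1 : (a - b) * c + (a - c) * b ≤ 0 := by linarith
      have h5 : 0 ≤ (a - b) * c := mul_nonneg (by linarith) hc.le
      have h6 : 0 ≤ (a - c) * b := mul_nonneg (by linarith) (by linarith)
      have h7 : (a - b) * c = 0 := by linarith
      have h8 : (a - c) * b = 0 := by linarith
      rcases mul_eq_zero.1 h7 with h | h
      · rcases mul_eq_zero.1 h8 with h' | h'
        · linarith
        · linarith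
      · linarith
    · have h5 : t * t < t * (3 * (2 * a - b - c)) := mul_lt_mul_of_pos_left hcon h0
      have h6 : t * (3 * (2 * a - b - c)) = (a - b) * (3 * t) + (a - c) * (3 * t) := by ring
      linarith
  refine ⟨hα, by linarith, by linarith, by linarith, by linarith, fun q h1 h2 => ?_⟩
  have hg3 : 3 * t ≤ b + c - a := by linarith
  have hg5 : 5 * t ≤ 5 * b + 5 * c - 7 * a := by linarith
  rcases eq_or_lt_of_le ht0 with h0 | h0
  · have t0 : t = 0 := h0.symm
    rw [t0] at hsmall hC hWt hP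
    have h7 : a = b := by linarith
    have h8 : a = c := by linarith
    have hW' : W = 0 := by linarith
    rw [← h7, ← h8, hW'] at hP
    rw [t0, hW', ← h7, ← h8]
    have h9 : P = 6 * (a * a) := by linarith
    constructor <;> omega
  · have m1 : t * (3 * t) ≤ t * (b + c - a) := mul_le_mul_of_nonneg_left hg3 ht0
    have m2 : t * (5 * t) ≤ t * (5 * b + 5 * c - 7 * a) := mul_le_mul_of_nonneg_left hg5 ht0
    have h1t : 1 ≤ t := h0
    have q4 : 0 ≤ (a - b) * c := mul_nonneg (by linarith) hc.le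
    have q5 : 0 ≤ (a - c) * b := mul_nonneg (by linarith) (by linarith)
    constructor
    · have : 6 * W ≤ 6 * (b * c - q) := by
        rw [hP] at h2
        linarith
      linarith
    · have : 6 * (b * c - q) ≤ 6 * (t * (b + c - a) - W) := by
        rw [hP] at h1
        linarith
      linarith

/-- sums of two of the six entries -/
theorem floors (P α : ℤ) (h : 3 * α ≤ P) : α ≤ (P + 5) / 6 + (P + 2) / 6 ∧
    α ≤ (P + 5) / 6 + (P + 1) / 6 ∧ α ≤ (P + 5) / 6 + P / 6 ∧ α ≤ (P + 4) / 6 + (P + 2) / 6 ∧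
    α ≤ (P + 4) / 6 + (P + 1) / 6 ∧ α ≤ (P + 4) / 6 + P / 6 ∧ α ≤ (P + 3) / 6 + (P + 2) / 6 ∧
    α ≤ (P + 3) / 6 + (P + 1) / 6 ∧ α ≤ (P + 3) / 6 + P / 6 := by
  omega

theorem floors_sum (P : ℤ) : (P + 5) / 6 + (P + 2) / 6 + (P + 1) / 6 + (P + 4) / 6 + (P + 3) / 6 +
    P / 6 = P := by
  omega

section fill
variable {R : Type} [Fintype R] [DecidableEq R]

/-- off-diagonal products -/
def w (d : R → ℤ) (q : R × R) : ℤ := if q.1 = q.2 then 0 else d q.1 * d q.2

omit [Fintype R] in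
theorem w_nonneg {d : R → ℤ} (hd0 : ∀ i, 0 ≤ d i) (q : R × R) : 0 ≤ w d q := by
  unfold w
  split_ifs
  · exact le_rfl
  · exact mul_nonneg (hd0 _) (hd0 _)

theorem w_row (d : R → ℤ) (i : R) : ∑ j, w d (i, j) = d i * ∑ j, d j - d i * d i := by
  have h1 : ∀ j, w d (i, j) = d i * d j - if i = j then d i * d j else 0 := by
    intro j
    show (if i = j then 0 else d i * d j) = _
    split_ifs <;> ring
  simp only [h1, Finset.sum_sub_distrib, ← Finset.mul_sum, Finset.sum_ite_eq, mem_univ, if_true]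

omit [Fintype R] in
theorem w_symm (d : R → ℤ) (i j : R) : w d (j, i) = w d (i, j) := by
  show (if j = i then 0 else d j * d i) = if i = j then 0 else d i * d j
  by_cases h : j = i
  · rw [if_pos h, if_pos h.symm]
  · rw [if_neg h, if_neg (Ne.symm h), mul_comm]

theorem w_col (d : R → ℤ) (i : R) : ∑ j, w d (j, i) = d i * ∑ j, d j - d i * d i := by
  rw [← w_row]
  exact Finset.sum_congr rfl fun j _ => w_symm d i j

theorem w_sum (d : R → ℤ) : ∑ q, w d q = (∑ j, d j) * (∑ j, d j) - ∑ j, d j * d j := by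
  rw [Fintype.sum_prod_type]
  simp only [w_row, Finset.sum_sub_distrib, ← Finset.sum_mul]

/-- a splitting of the off-diagonal products -/
structure Spl (d : R → ℤ) (e : Fin 3 → R × R → ℤ) (E : Fin 3 → ℤ) : Prop where
  nn : ∀ u q, 0 ≤ e u q
  sm : ∀ q, ∑ u, e u q = w d q
  tt : ∀ u, ∑ q, e u q = E u

theorem Spl.row {d : R → ℤ} {e : Fin 3 → R × R → ℤ} {E : Fin 3 → ℤ} (h : Spl d e E) (i : R) :
    ∑ u, ∑ j, e u (i, j) = d i * ∑ j, d j - d i * d i := by
  rw [Finset.sum_comm, ← w_row]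
  exact Finset.sum_congr rfl fun j _ => h.sm _

theorem Spl.col {d : R → ℤ} {e : Fin 3 → R × R → ℤ} {E : Fin 3 → ℤ} (h : Spl d e E) (i : R) :
    ∑ u, ∑ j, e u (j, i) = d i * ∑ j, d j - d i * d i := by
  rw [Finset.sum_comm, ← w_col]
  exact Finset.sum_congr rfl fun j _ => h.sm _

theorem Spl.tot {d : R → ℤ} {e : Fin 3 → R × R → ℤ} {E : Fin 3 → ℤ} (h : Spl d e E) (u : Fin 3) :
    ∑ i, ∑ j, e u (i, j) = E u :=
  ((Fintype.sum_prod_type (fun q => e u q)).symm).trans (h.tt u)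

theorem Spl.tot' {d : R → ℤ} {e : Fin 3 → R × R → ℤ} {E : Fin 3 → ℤ} (h : Spl d e E)
    (u : Fin 3) : ∑ i, ∑ j, e u (j, i) = E u := by
  rw [Finset.sum_comm]
  exact h.tot u

theorem Spl.diag {d : R → ℤ} {e : Fin 3 → R × R → ℤ} {E : Fin 3 → ℤ} (h : Spl d e E) (u : Fin 3)
    (i : R) : e u (i, i) = 0 := by
  have h1 := h.sm (i, i)
  have h2 : w d (i, i) = 0 := if_pos rfl
  rw [h2] at h1
  exact (Finset.sum_eq_zero_iff_of_nonneg fun u _ => h.nn u _).1 h1 u (mem_univ _)

theorem Spl.off {d : R → ℤ} {e : Fin 3 → R × R → ℤ} {E : Fin 3 → ℤ} (h : Spl d e E) (i j : R)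
    (hij : i ≠ j) : ∑ u, e u (i, j) = d i * d j := by
  rw [h.sm (i, j)]
  exact if_neg hij

theorem exists_spl {d : R → ℤ} (hd0 : ∀ i, 0 ≤ d i) {W : ℤ}
    (hW : (∑ j, d j) * (∑ j, d j) - ∑ j, d j * d j = W) (x y z : ℤ) (hx : 0 ≤ x) (hy : 0 ≤ y)
    (hz : 0 ≤ z) (hs : x + y + z = W) : ∃ e, Spl d e ![x, y, z] := by
  obtain ⟨e, e0, e1, e2⟩ := split3 (w d) (w_nonneg hd0) ![x, y, z] (by
    intro u
    fin_cases u
    · exact hx
    · exact hy
    · exact hz) (by
    rw [w_sum, hW, ← hs, Fin.sum_univ_three]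
    rfl)
  exact ⟨e, e0, e1, e2⟩

/-- the blocks of the rest classes against the large classes -/
theorem key (a b c t W : ℤ) (hab : b ≤ a) (hbc : c ≤ b) {d : R → ℤ} (hd0 : ∀ i, 0 ≤ d i)
    (ht : ∑ i, d i = t) (hW : t * t - ∑ j, d j * d j = W) (hg : 2 * t ≤ b + c - a)
    (α β : Fin 3 → R → ℤ) (A B : Fin 3 → ℤ) (x01 x02 x10 x12 x20 x21 : ℤ)
    (hα0 : ∀ u i, 0 ≤ α u i) (hβ0 : ∀ u i, 0 ≤ β u i)
    (hα1 : ∀ i, ∑ u, α u i = d i * ∑ j, d j - d i * d i)
    (hβ1 : ∀ i, ∑ u, β u i = d i * ∑ j, d j - d i * d i) (hA : ∀ u, ∑ i, α u i = A u)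
    (hB : ∀ u, ∑ i, β u i = B u) (r0 : x01 + x02 = t * a - A 0) (r1 : x10 + x12 = t * b - A 1)
    (r2 : x20 + x21 = t * c - A 2) (c0 : x10 + x20 = t * a - B 0) (c1 : x01 + x21 = t * b - B 1)
    (c2 : x02 + x12 = t * c - B 2) (hlo : W ≤ x12) (hhi : x12 ≤ t * (b + c - a) - W) :
    ∃ h : R → Fin 3 → Fin 3 → ℤ, (∀ i u v, 0 ≤ h i u v) ∧ (∀ i u, h i u u = 0) ∧
      (∀ i u, ∑ v, h i u v = d i * (![a, b, c] : Fin 3 → ℤ) u - α u i) ∧
      (∀ i v, ∑ u, h i u v = d i * (![a, b, c] : Fin 3 → ℤ) v - β v i) ∧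
      ∀ u v, ∑ i, h i u v =
        (![![0, x01, x02], ![x10, 0, x12], ![x20, x21, 0]] : Fin 3 → Fin 3 → ℤ) u v := by
  rw [ht] at hα1 hβ1
  have hsw : ∑ i, (d i * t - d i * d i) = W := by
    rw [Finset.sum_sub_distrib, ← Finset.sum_mul, ht]
    exact hW
  have hdt : ∀ i, d i ≤ t := by
    intro i
    rw [← ht]
    exact Finset.single_le_sum (f := d) (fun i _ => hd0 i) (mem_univ i)
  refine hex ![a, b, c] hab hbc d (fun i => d i * t - d i * d i) hd0 ?_ ?_ α β hα0 hβ0 hα1 hβ1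
    ![![0, x01, x02], ![x10, 0, x12], ![x20, x21, 0]] ?_ ?_ ?_ ?_ ?_
  · intro i
    have h2 : 0 ≤ d i * (t - d i) := mul_nonneg (hd0 i) (by linarith [hdt i])
    linarith
  · intro i
    show 2 * (d i * t - d i * d i) ≤ d i * (b + c - a)
    have h2 : 2 * (t - d i) ≤ b + c - a := by linarith [hd0 i]
    have h4 := mul_le_mul_of_nonneg_left h2 (hd0 i)
    linarith
  · intro u
    fin_cases u <;> rfl
  · intro u
    rw [Finset.sum_sub_distrib, ← Finset.sum_mul, ht, hA u, Fin.sum_univ_three]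
    fin_cases u
    · show 0 + x01 + x02 = t * a - A 0
      linarith
    · show x10 + 0 + x12 = t * b - A 1
      linarith
    · show x20 + x21 + 0 = t * c - A 2
      linarith
  · intro v
    rw [Finset.sum_sub_distrib, ← Finset.sum_mul, ht, hB v, Fin.sum_univ_three]
    fin_cases v
    · show 0 + x10 + x20 = t * a - B 0
      linarith
    · show x01 + 0 + x21 = t * b - B 1
      linarith
    · show x02 + x12 + 0 = t * c - B 2
      linarith
  · rw [hsw]
    exact hlo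
  · show x12 ≤ ∑ i, (d i * (b + c - a) - (d i * t - d i * d i))
    rw [Finset.sum_sub_distrib, ← Finset.sum_mul, ht, hsw]
    exact hhi

/-- the assembly of the outline -/
theorem assemble (a b c t W : ℤ) (hab : b ≤ a) (hbc : c ≤ b) {d : R → ℤ} (hd0 : ∀ i, 0 ≤ d i)
    (ht : ∑ i, d i = t) (hW : t * t - ∑ j, d j * d j = W) (hg : 2 * t ≤ b + c - a)
    (p1 p2 p3 p4 p5 p6 : ℤ) (n1 : 0 ≤ p1) (n2 : 0 ≤ p2) (n3 : 0 ≤ p3) (n4 : 0 ≤ p4) (n5 : 0 ≤ p5)
    (n6 : 0 ≤ p6)
    (hs : p1 + p2 + p3 + p4 + p5 + p6 =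
      W + 2 * (a * b + a * c + b * c) - (t * a + t * b + t * c))
    (E1 : a * b + a * c - t * a ≤ p4 + p6) (E2 : a * b + b * c - t * b ≤ p5 + p2)
    (E3 : a * c + b * c - t * c ≤ p1 + p3) (F1 : a * b + a * c - t * a ≤ p5 + p3)
    (F2 : a * b + b * c - t * b ≤ p1 + p6) (F3 : a * c + b * c - t * c ≤ p4 + p2)
    (G1 : a * b + a * c - t * a ≤ p1 + p2) (G2 : a * b + b * c - t * b ≤ p4 + p3)
    (G3 : a * c + b * c - t * c ≤ p5 + p6)
    (X1 : W ≤ b * c - p1 ∧ b * c - p1 ≤ t * (b + c - a) - W)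
    (X3 : W ≤ b * c - p3 ∧ b * c - p3 ≤ t * (b + c - a) - W)
    (X4 : W ≤ b * c - p4 ∧ b * c - p4 ≤ t * (b + c - a) - W) :
    ∃ y : Fin 3 ⊕ R → Fin 3 ⊕ R → Fin 3 ⊕ R → ℤ,
      IsOutline (Sum.elim ![a, b, c] d) y ∧ ∀ x₁ x₂ x₃, 0 ≤ y x₁ x₂ x₃ := by
  have hW' : (∑ j, d j) * (∑ j, d j) - ∑ j, d j * d j = W := by
    rw [ht]
    exact hW
  obtain ⟨e, he⟩ := exists_spl hd0 hW' (p4 + p6 - (a * b + a * c - t * a))
    (p5 + p2 - (a * b + b * c - t * b)) (p1 + p3 - (a * c + b * c - t * c)) (by linarith)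
    (by linarith) (by linarith) (by linarith)
  obtain ⟨f, hf⟩ := exists_spl hd0 hW' (p5 + p3 - (a * b + a * c - t * a))
    (p1 + p6 - (a * b + b * c - t * b)) (p4 + p2 - (a * c + b * c - t * c)) (by linarith)
    (by linarith) (by linarith) (by linarith)
  obtain ⟨g, hg'⟩ := exists_spl hd0 hW' (p1 + p2 - (a * b + a * c - t * a))
    (p4 + p3 - (a * b + b * c - t * b)) (p5 + p6 - (a * c + b * c - t * c)) (by linarith)
    (by linarith) (by linarith) (by linarith)
  obtain ⟨hr, hr0, hr1, hr2, hr3, hr4⟩ := key a b c t W hab hbc hd0 ht hW hg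
    (fun u i => ∑ j, f u (i, j)) (fun u i => ∑ j, e u (i, j)) _ _
    (a * b - p5) (a * c - p3) (a * b - p6) (b * c - p1) (a * c - p4) (b * c - p2)
    (fun u i => Finset.sum_nonneg fun j _ => hf.nn _ _)
    (fun u i => Finset.sum_nonneg fun j _ => he.nn _ _) hf.row he.row hf.tot he.tot
    (show a * b - p5 + (a * c - p3) = t * a - (p5 + p3 - (a * b + a * c - t * a)) by ring)
    (show a * b - p6 + (b * c - p1) = t * b - (p1 + p6 - (a * b + b * c - t * b)) by ring)
    (show a * c - p4 + (b * c - p2) = t * c - (p4 + p2 - (a * c + b * c - t * c)) by ring)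
    (show a * b - p6 + (a * c - p4) = t * a - (p4 + p6 - (a * b + a * c - t * a)) by ring)
    (show a * b - p5 + (b * c - p2) = t * b - (p5 + p2 - (a * b + b * c - t * b)) by ring)
    (show a * c - p3 + (b * c - p1) = t * c - (p1 + p3 - (a * c + b * c - t * c)) by ring)
    X1.1 X1.2
  obtain ⟨hc, hc0, hc1, hc2, hc3, hc4⟩ := key a b c t W hab hbc hd0 ht hW hg
    (fun u i => ∑ j, g u (i, j)) (fun u i => ∑ j, e u (j, i)) _ _
    (a * b - p2) (a * c - p1) (a * b - p4) (b * c - p3) (a * c - p6) (b * c - p5)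
    (fun u i => Finset.sum_nonneg fun j _ => hg'.nn _ _)
    (fun u i => Finset.sum_nonneg fun j _ => he.nn _ _) hg'.row he.col hg'.tot he.tot'
    (show a * b - p2 + (a * c - p1) = t * a - (p1 + p2 - (a * b + a * c - t * a)) by ring)
    (show a * b - p4 + (b * c - p3) = t * b - (p4 + p3 - (a * b + b * c - t * b)) by ring)
    (show a * c - p6 + (b * c - p5) = t * c - (p5 + p6 - (a * c + b * c - t * c)) by ring)
    (show a * b - p4 + (a * c - p6) = t * a - (p4 + p6 - (a * b + a * c - t * a)) by ring)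
    (show a * b - p2 + (b * c - p5) = t * b - (p5 + p2 - (a * b + b * c - t * b)) by ring)
    (show a * c - p1 + (b * c - p3) = t * c - (p1 + p3 - (a * c + b * c - t * c)) by ring)
    X3.1 X3.2
  obtain ⟨hs', hs0, hs1, hs2, hs3, hs4⟩ := key a b c t W hab hbc hd0 ht hW hg
    (fun u i => ∑ j, g u (j, i)) (fun u i => ∑ j, f u (j, i)) _ _
    (a * b - p1) (a * c - p2) (a * b - p3) (b * c - p4) (a * c - p5) (b * c - p6)
    (fun u i => Finset.sum_nonneg fun j _ => hg'.nn _ _)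
    (fun u i => Finset.sum_nonneg fun j _ => hf.nn _ _) hg'.col hf.col hg'.tot' hf.tot'
    (show a * b - p1 + (a * c - p2) = t * a - (p1 + p2 - (a * b + a * c - t * a)) by ring)
    (show a * b - p3 + (b * c - p4) = t * b - (p4 + p3 - (a * b + b * c - t * b)) by ring)
    (show a * c - p5 + (b * c - p6) = t * c - (p5 + p6 - (a * c + b * c - t * c)) by ring)
    (show a * b - p3 + (a * c - p5) = t * a - (p5 + p3 - (a * b + a * c - t * a)) by ring)
    (show a * b - p1 + (b * c - p6) = t * b - (p1 + p6 - (a * b + b * c - t * b)) by ring)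
    (show a * c - p2 + (b * c - p4) = t * c - (p4 + p2 - (a * c + b * c - t * c)) by ring)
    X4.1 X4.2
  refine ⟨Y (pp p1 p2 p3 p4 p5 p6) hr hc hs' (fun u i j => e u (i, j)) (fun u i j => f u (i, j))
    (fun u i j => g u (i, j)), ?_, ?_⟩
  · refine outline_of_data _ _ _ _ _ _ _ _ _ ?_ ?_ ?_ hr1 hc1 hs1 he.diag hf.diag
      hg'.diag he.off hf.off hg'.off ?_ ?_ ?_ ?_ ?_ ?_ ?_ ?_ ?_
    · intro u w
      fin_cases u <;> fin_cases w <;> rfl
    · intro u w
      fin_cases u <;> fin_cases w <;> rfl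
    · intro u w
      fin_cases u <;> fin_cases w <;> rfl
    · intro i u
      rw [hr2 i u]
      ring
    · intro i v
      rw [hr3 i v]
      ring
    · intro u v huv
      rw [hr4 u v, Fin.sum_univ_three]
      fin_cases u <;> fin_cases v
      · exact absurd rfl huv
      · show 0 + 0 + p5 + (a * b - p5) = a * b
        ring
      · show 0 + p3 + 0 + (a * c - p3) = a * c
        ring
      · show 0 + 0 + p6 + (a * b - p6) = b * a
        ring
      · exact absurd rfl huv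
      · show p1 + 0 + 0 + (b * c - p1) = b * c
        ring
      · show 0 + p4 + 0 + (a * c - p4) = c * a
        ring
      · show p2 + 0 + 0 + (b * c - p2) = c * b
        ring
      · exact absurd rfl huv
    · intro i u
      rw [hc2 i u]
      ring
    · intro i v
      rw [hc3 i v]
      ring
    · intro u v huv
      rw [hc4 u v, Fin.sum_univ_three]
      fin_cases u <;> fin_cases v
      · exact absurd rfl huv
      · show 0 + 0 + p2 + (a * b - p2) = a * b
        ring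
      · show 0 + p1 + 0 + (a * c - p1) = a * c
        ring
      · show 0 + 0 + p4 + (a * b - p4) = b * a
        ring
      · exact absurd rfl huv
      · show p3 + 0 + 0 + (b * c - p3) = b * c
        ring
      · show 0 + p6 + 0 + (a * c - p6) = c * a
        ring
      · show p5 + 0 + 0 + (b * c - p5) = c * b
        ring
      · exact absurd rfl huv
    · intro i u
      rw [hs2 i u]
      ring
    · intro i v
      rw [hs3 i v]
      ring
    · intro u v huv
      rw [hs4 u v, Fin.sum_univ_three]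
      fin_cases u <;> fin_cases v
      · exact absurd rfl huv
      · show 0 + 0 + p1 + (a * b - p1) = a * b
        ring
      · show 0 + p2 + 0 + (a * c - p2) = a * c
        ring
      · show 0 + 0 + p3 + (a * b - p3) = b * a
        ring
      · exact absurd rfl huv
      · show p4 + 0 + 0 + (b * c - p4) = b * c
        ring
      · show 0 + p5 + 0 + (a * c - p5) = c * a
        ring
      · show p6 + 0 + 0 + (b * c - p6) = c * b
        ring
      · exact absurd rfl huv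
  · rintro (u | i) (v | j) (z | k)
    · exact pp_nonneg n1 n2 n3 n4 n5 n6 _ _ _
    · exact hs0 _ _ _
    · exact hc0 _ _ _
    · exact hg'.nn _ _
    · exact hr0 _ _ _
    · exact hf.nn _ _
    · exact he.nn _ _
    · exact le_rfl

/-- **The construction.** -/
theorem exists_outline_three (a b c : ℤ) (d : R → ℤ)
    (hd : ∀ i, 1 ≤ d i) (hab : b ≤ a) (hbc : c ≤ b) (hc : 0 < c) (t : ℤ) (ht : ∑ i, d i = t)
    (htc : 4 * t ≤ c)
    (hC : (a - b) * (c - t) + (a - c) * (b - t) + ∑ i, d i * d i ≤ t * t) :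
    ∃ y : Fin 3 ⊕ R → Fin 3 ⊕ R → Fin 3 ⊕ R → ℤ,
      IsOutline (Sum.elim ![a, b, c] d) y ∧ ∀ x₁ x₂ x₃, 0 ≤ y x₁ x₂ x₃ := by
  have hd0 : ∀ i, 0 ≤ d i := fun i => by linarith [hd i]
  have ht0 : 0 ≤ t := by rw [← ht]; exact Finset.sum_nonneg fun i _ => hd0 i
  have hQt : t ≤ ∑ i, d i * d i := by
    rw [← ht]
    exact Finset.sum_le_sum fun i _ => by nlinarith [hd i]
  obtain ⟨W, hW⟩ : ∃ W, t * t - ∑ i, d i * d i = W := ⟨_, rfl⟩
  have h1 : 0 ≤ (a - b) * (c - t) := mul_nonneg (by linarith) (by linarith)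
  have h2 : 0 ≤ (a - c) * (b - t) := mul_nonneg (by linarith) (by linarith)
  obtain ⟨P, hP⟩ : ∃ P, P = W + 2 * (a * b + a * c + b * c) - (t * a + t * b + t * c) := ⟨_, rfl⟩
  obtain ⟨b1, b2, b3, b4, b5, b6⟩ := bounds a b c t W hab hbc hc ht0 htc (by linarith)
    (by linarith) (by linarith) P hP
  obtain ⟨f1, f2, f3, f4, f5, f6, f7, f8, f9⟩ := floors P _ b1
  refine assemble a b c t W hab hbc hd0 ht hW b5 ((P + 5) / 6) ((P + 2) / 6) ((P + 1) / 6)
    ((P + 4) / 6) ((P + 3) / 6) (P / 6) (by omega) (by omega) (by omega) (by omega) (by omega)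
    (by omega) ((floors_sum P).trans hP) f6 (b2.trans f7) (b3.trans f2) f8 (b2.trans f3)
    (b3.trans f4) f1 (b2.trans f5) (b3.trans f9) (b6 _ (by omega) (by omega))
    (b6 _ (by omega) (by omega)) (b6 _ (by omega) (by omega))

end fill

end Three

end Pool.Agent.MP_dd827d_co
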