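import Pool.Agent.Lib.MP_dd827d_co.Three
import Pool.Agent.Lib.MP_dd827d_co.Cut
import Pool.Agent.Lib.MP_dd827d_co.Asymp

/-!
The classification for three dominating parts, and the asymptotic criterion for all partitions.
-/

namespace Pool.Agent.MP_dd827d_co

open Finset Function

theorem three_suff {R : Type} [Fintype R] (a b c : ℕ) (d : R → ℕ) (hd : ∀ i, 0 < d i)
    (hab : b ≤ a) (hbc : c ≤ b) (hc : 0 < c) (htc : 4 * ∑ i, d i ≤ c)
    (h : ((a : ℤ) - b) * ((c : ℤ) - (∑ i, d i : ℕ)) + ((a : ℤ) - c) * ((b : ℤ) - (∑ i, d i : ℕ)) +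
      ∑ i, (d i : ℤ) * d i ≤ ((∑ i, d i : ℕ) : ℤ) * (∑ i, d i : ℕ)) :
    Realizable (Sum.elim ![a, b, c] d) := by
  classical
  obtain ⟨y, hy, h0⟩ := Three.exists_outline_three (a : ℤ) b c (fun i => (d i : ℤ))
    (fun i => by exact_mod_cast hd i) (by exact_mod_cast hab) (by exact_mod_cast hbc)
    (by exact_mod_cast hc) (∑ i, d i : ℕ) (by push_cast; rfl) (by exact_mod_cast htc) h
  have hfun : (fun x => ((Sum.elim ![a, b, c] d x : ℕ) : ℤ)) =
      Sum.elim ![(a : ℤ), b, c] (fun i => (d i : ℤ)) := by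
    funext x
    rcases x with x | x
    · fin_cases x <;> rfl
    · rfl
  refine Realizable.of_outline (Sum.elim ![a, b, c] d) ?_ _
    (isOutline_toNat (x := y) (by rw [hfun]; exact hy) h0)
  rintro (x | x)
  · fin_cases x
    · exact lt_of_lt_of_le hc (hbc.trans hab)
    · exact lt_of_lt_of_le hc hbc
    · exact hc
  · exact hd x

theorem three_nec {R : Type} [Fintype R] [DecidableEq R] (a b c : ℕ) (d : R → ℕ)
    {y : Fin 3 ⊕ R → Fin 3 ⊕ R → Fin 3 ⊕ R → ℝ}
    (hy : IsOutline (fun x => ((Sum.elim ![a, b, c] d x : ℕ) : ℝ)) y)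
    (h0 : ∀ x₁ x₂ x₃, 0 ≤ y x₁ x₂ x₃) :
    ((a : ℤ) - b) * ((c : ℤ) - (∑ i, d i : ℕ)) + ((a : ℤ) - c) * ((b : ℤ) - (∑ i, d i : ℕ)) +
      ∑ i, (d i : ℤ) * d i ≤ ((∑ i, d i : ℕ) : ℤ) * (∑ i, d i : ℕ) := by
  have hfun : (fun x => ((Sum.elim ![a, b, c] d x : ℕ) : ℝ)) =
      Sum.elim ![(a : ℝ), b, c] (fun i => (d i : ℝ)) := by
    funext x
    rcases x with x | x
    · fin_cases x <;> rfl
    · rfl
  rw [hfun] at hy
  have h1 := three_cut (a : ℝ) b c (fun i => (d i : ℝ)) hy h0 ((∑ i, d i : ℕ) : ℝ)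
    (by push_cast; rfl)
  exact_mod_cast h1

/-- **Three dominating parts.** -/
theorem three_iff {R : Type} [Fintype R] (a b c : ℕ) (d : R → ℕ) (hd : ∀ i, 0 < d i)
    (hab : b ≤ a) (hbc : c ≤ b) (hc : 0 < c) (htc : 4 * ∑ i, d i ≤ c) :
    Realizable (Sum.elim ![a, b, c] d) ↔
      ((a : ℤ) - b) * ((c : ℤ) - (∑ i, d i : ℕ)) + ((a : ℤ) - c) * ((b : ℤ) - (∑ i, d i : ℕ)) +
        ∑ i, (d i : ℤ) * d i ≤ ((∑ i, d i : ℕ) : ℤ) * (∑ i, d i : ℕ) := by
  classical
  refine ⟨fun h => ?_, fun h => three_suff a b c d hd hab hbc hc htc h⟩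
  obtain ⟨x, hx⟩ := h.exists_outline
  refine three_nec a b c d (y := fun p q r => (x p q r : ℝ)) ⟨fun a c => by simp [hx.off12],
    fun a b => by simp [hx.off23], fun a b => by simp [hx.off13], fun a b hab => ?_,
    fun a c hac => ?_, fun b c hbc => ?_⟩ fun a b c => Nat.cast_nonneg _
  · exact_mod_cast hx.s3 a b hab
  · exact_mod_cast hx.s2 a c hac
  · exact_mod_cast hx.s1 b c hbc

theorem IsOutline.reindex {J J' : Type*} [Fintype J] [Fintype J'] {N : J → ℝ}
    {y : J → J → J → ℝ} (hy : IsOutline N y) (e : J' ≃ J) :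
    IsOutline (fun j => N (e j)) fun a b c => y (e a) (e b) (e c) :=
  ⟨fun a c => hy.off12 _ _, fun a b => hy.off23 _ _, fun a b => hy.off13 _ _,
    fun a b hab => by
      rw [Equiv.sum_comp e fun c => y (e a) (e b) c]
      exact hy.s3 _ _ (e.injective.ne hab),
    fun a c hac => by
      rw [Equiv.sum_comp e fun b => y (e a) b (e c)]
      exact hy.s2 _ _ (e.injective.ne hac),
    fun b c hbc => by
      rw [Equiv.sum_comp e fun a => y a (e b) (e c)]
      exact hy.s1 _ _ (e.injective.ne hbc)⟩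

/-- sorting three elements -/
theorem sort3 {I : Type} (n : I → ℕ) {i j k : I} (hij : i ≠ j) (hjk : j ≠ k) (hik : i ≠ k) :
    ∃ A B C : I, A ≠ B ∧ B ≠ C ∧ A ≠ C ∧ n B ≤ n A ∧ n C ≤ n B ∧
      n A + n B + n C = n i + n j + n k := by
  rcases le_total (n i) (n j) with h1 | h1 <;> rcases le_total (n j) (n k) with h2 | h2 <;>
    rcases le_total (n i) (n k) with h3 | h3
  · exact ⟨k, j, i, hjk.symm, hij.symm, hik.symm, h2, h1, by omega⟩
  · exact ⟨k, j, i, hjk.symm, hij.symm, hik.symm, h2, h1, by omega⟩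
  · exact ⟨j, k, i, hjk, hik.symm, hij.symm, h2, h3, by omega⟩
  · exact ⟨j, i, k, hij.symm, hik, hjk, h1, h3, by omega⟩
  · exact ⟨k, i, j, hik.symm, hij, hjk.symm, h3, h1, by omega⟩
  · exact ⟨i, k, j, hik, hjk.symm, hij, h3, h2, by omega⟩
  · exact ⟨i, j, k, hij, hjk, hik, h1, h2, by omega⟩
  · exact ⟨i, j, k, hij, hjk, hik, h1, h2, by omega⟩

/-- three parts with almost the whole mass -/
theorem three_large {I : Type} [Fintype I] [DecidableEq I] (n : I → ℕ) (hn : ∀ i, 0 < n i)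
    {y : I → I → I → ℝ} (hy : IsOutline (fun i => (n i : ℝ)) y)
    (h0 : ∀ a b c, 0 ≤ y a b c) {i j k : I} (hij : i ≠ j) (hjk : j ≠ k) (hik : i ≠ k)
    (hbig : (1 - 1 / 100) * ((∑ i, n i : ℕ) : ℝ) < (n i : ℝ) + n j + n k) : Realizable n := by
  classical
  obtain ⟨A, B, C, hAB, hBC, hAC, h1, h2, h3⟩ := sort3 n hij hjk hik
  let φ : Fin 3 ⊕ {x : I // x ≠ A ∧ x ≠ B ∧ x ≠ C} → I := Sum.elim ![A, B, C] Subtype.val
  have hφ : Bijective φ := by
    constructor
    · rintro (x | x) (z | z) hxz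
      · fin_cases x <;> fin_cases z
        · rfl
        · exact absurd hxz hAB
        · exact absurd hxz hAC
        · exact absurd hxz hAB.symm
        · rfl
        · exact absurd hxz hBC
        · exact absurd hxz hAC.symm
        · exact absurd hxz hBC.symm
        · rfl
      · exfalso
        have hz := z.2
        fin_cases x
        · exact hz.1 hxz.symm
        · exact hz.2.1 hxz.symm
        · exact hz.2.2 hxz.symm
      · exfalso
        have hx := x.2
        fin_cases z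
        · exact hx.1 hxz
        · exact hx.2.1 hxz
        · exact hx.2.2 hxz
      · exact congrArg Sum.inr (Subtype.ext hxz)
    · intro x
      by_cases hA : x = A
      · exact ⟨Sum.inl 0, hA.symm⟩
      · by_cases hB : x = B
        · exact ⟨Sum.inl 1, hB.symm⟩
        · by_cases hC : x = C
          · exact ⟨Sum.inl 2, hC.symm⟩
          · exact ⟨Sum.inr ⟨x, hA, hB, hC⟩, rfl⟩
  let e := Equiv.ofBijective φ hφ
  have hne : (fun x => n (e x)) = Sum.elim ![n A, n B, n C] fun x => n x.1 := by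
    funext x
    rcases x with x | x
    · fin_cases x <;> rfl
    · rfl
  have hsum : n A + n B + n C + ∑ x : {x : I // x ≠ A ∧ x ≠ B ∧ x ≠ C}, n x.1 = ∑ i, n i := by
    rw [← Equiv.sum_comp e n, Fintype.sum_sum_type, Fin.sum_univ_three]
    rfl
  set t : ℕ := ∑ x : {x : I // x ≠ A ∧ x ≠ B ∧ x ≠ C}, n x.1 with ht
  set S : ℕ := ∑ i, n i with hS
  have hyr := hy.reindex e
  have hfun : (fun j => ((n (e j) : ℕ) : ℝ)) =
      fun x => ((Sum.elim ![n A, n B, n C] (fun x => n x.1) x : ℕ) : ℝ) := by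
    funext x
    rw [← congrFun hne x]
  have hnec := three_nec (n A) (n B) (n C) (fun x : {x : I // x ≠ A ∧ x ≠ B ∧ x ≠ C} => n x.1)
    (by rw [← hfun]; exact hyr) (fun _ _ _ => h0 _ _ _)
  refine Realizable.reindex e ?_
  rw [hne]
  have hSr : (n A : ℝ) + n B + n C + t = S := by exact_mod_cast hsum
  have h3r : (n A : ℝ) + n B + n C = n i + n j + n k := by exact_mod_cast h3
  have hnA : (0 : ℝ) < n A := by exact_mod_cast hn A
  have hS0 : (0 : ℝ) < S := by
    have : (0 : ℝ) ≤ n B := Nat.cast_nonneg _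
    have : (0 : ℝ) ≤ n C := Nat.cast_nonneg _
    have : (0 : ℝ) ≤ t := Nat.cast_nonneg _
    linarith
  have ht100 : (t : ℝ) ≤ S / 100 := by linarith
  -- the largest part is at most one half
  have hhalf : (n A : ℝ) ≤ S - n A := by
    refine half_le hy h0 A ?_ ?_
    · have h4 : ∀ a, (if a = A then (0 : ℝ) else n a) = n a - if a = A then (n a : ℝ) else 0 :=
        fun a => by split_ifs <;> ring
      simp only [h4, Finset.sum_sub_distrib, Finset.sum_ite_eq', mem_univ, if_true]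
      rw [hS]
      push_cast
      rfl
    · have : (0 : ℝ) < n B := by exact_mod_cast hn B
      have : (0 : ℝ) ≤ n C := Nat.cast_nonneg _
      have : (0 : ℝ) ≤ t := Nat.cast_nonneg _
      linarith
  have hnecr : ((n A : ℝ) - n B) * ((n C : ℝ) - t) + ((n A : ℝ) - n C) * ((n B : ℝ) - t) +
      ∑ x : {x : I // x ≠ A ∧ x ≠ B ∧ x ≠ C}, (n x.1 : ℝ) * n x.1 ≤ (t : ℝ) * t := by
    exact_mod_cast hnec
  have hsq : (0 : ℝ) ≤ ∑ x : {x : I // x ≠ A ∧ x ≠ B ∧ x ≠ C}, (n x.1 : ℝ) * n x.1 :=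
    Finset.sum_nonneg fun _ _ => mul_self_nonneg _
  have h1r : (n B : ℝ) ≤ n A := by exact_mod_cast h1
  have h2r : (n C : ℝ) ≤ n B := by exact_mod_cast h2
  have hC0 : (0 : ℝ) ≤ n C := Nat.cast_nonneg _
  have ht0 : (0 : ℝ) ≤ t := Nat.cast_nonneg _
  have h4t : 4 * (t : ℝ) ≤ n C := by
    by_contra hcon
    push Not at hcon
    have hB45 : 45 / 100 * (S : ℝ) ≤ n B := by linarith
    have m1 : (40 / 100 * (S : ℝ)) * (40 / 100 * S) ≤ ((n A : ℝ) - n C) * ((n B : ℝ) - t) :=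
      mul_le_mul (by linarith) (by linarith) (by positivity) (by linarith)
    have m2 : ((n A : ℝ) - n B) * t ≤ (10 / 100 * S) * (S / 100) :=
      mul_le_mul (by linarith) ht100 ht0 (by positivity)
    have m3 : 0 ≤ ((n A : ℝ) - n B) * n C := mul_nonneg (by linarith) hC0
    have m4 : (t : ℝ) * t ≤ (S / 100) * (S / 100) := mul_le_mul ht100 ht100 ht0 (by positivity)
    have m5 : 0 < (S : ℝ) * S := by positivity
    linarith
  refine three_suff (n A) (n B) (n C) _ (fun x => hn x.1) h1 h2 (hn C) ?_ hnec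
  exact_mod_cast h4t

/-- **The asymptotic criterion, all partitions.** -/
theorem asymptotic_all (ε : ℝ) (hε0 : 0 < ε) : ∃ n₀ : ℕ, ∀ (I : Type) [Fintype I] (n : I → ℕ),
    (∀ i, 0 < n i) → 5 ≤ Fintype.card I → n₀ ≤ ∑ i, n i →
    (∃ y : I → I → I → ℝ, IsOutline (fun i => (n i : ℝ)) y ∧
      ∀ a b c, a ≠ b → b ≠ c → a ≠ c →
        ε * ((n a : ℝ) * n b * n c) / ((∑ i, n i : ℕ) : ℝ) ≤ y a b c) → Realizable n := by
  classical
  obtain ⟨n₀, h⟩ := asymptotic (min ε (1 / 100)) (lt_min hε0 (by norm_num))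
  refine ⟨n₀, fun I _ n hn hI hS ⟨y, hy, hl⟩ => ?_⟩
  by_cases htri : ∀ i j k, i ≠ j → j ≠ k → i ≠ k →
      (n i : ℝ) + n j + n k ≤ (1 - min ε (1 / 100)) * ((∑ i, n i : ℕ) : ℝ)
  · refine h I n hn hI hS htri ⟨y, hy, fun a b c hab hbc hac => le_trans ?_ (hl a b c hab hbc hac)⟩
    have h4 : (0 : ℝ) ≤ (n a : ℝ) * n b * n c := by positivity
    exact div_le_div_of_nonneg_right (mul_le_mul_of_nonneg_right (min_le_left _ _) h4)
      (Nat.cast_nonneg _)
  · push Not at htri
    obtain ⟨i, j, k, hij, hjk, hik, hbig⟩ := htri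
    refine three_large n hn hy (fun a b c => ?_) hij hjk hik (lt_of_le_of_lt ?_ hbig)
    · by_cases hD : Dist3 a b c
      · refine le_trans ?_ (hl a b c hD.1 hD.2.1 hD.2.2)
        positivity
      · unfold Dist3 at hD
        by_cases h1 : a = b
        · subst h1
          rw [hy.off12]
        · by_cases h2 : b = c
          · subst h2
            rw [hy.off23]
          · have h3 : a = c := by
              by_contra h3
              exact hD ⟨h1, h2, h3⟩
            subst h3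
            rw [hy.off13]
    · exact mul_le_mul_of_nonneg_right (by linarith [min_le_right ε (1 / 100)])
        (Nat.cast_nonneg _)

end Pool.Agent.MP_dd827d_co
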