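import Pool.Agent.Lib.MP_dd827d_co.QuadSlack

/-!
A trilinear form and its behaviour under exchanges.
-/

namespace Pool.Agent.MP_dd827d_co

open Finset Function

variable {J : Type*} [Fintype J] [DecidableEq J]

/-- trilinear form -/
def tri3 (τ : J → J → J → ℝ) (u v w : J → ℝ) : ℝ := ∑ a, ∑ b, ∑ d, τ a b d * u a * v b * w d

section
variable (τ : J → J → J → ℝ)

omit [DecidableEq J] in
theorem tri3_add_left (u u' v w : J → ℝ) :
    tri3 τ (u + u') v w = tri3 τ u v w + tri3 τ u' v w := by
  simp only [tri3, Pi.add_apply, ← Finset.sum_add_distrib]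
  refine Finset.sum_congr rfl fun a _ => Finset.sum_congr rfl fun b _ =>
    Finset.sum_congr rfl fun d _ => ?_
  ring

omit [DecidableEq J] in
theorem tri3_smul_left (t : ℝ) (u v w : J → ℝ) : tri3 τ (t • u) v w = t * tri3 τ u v w := by
  simp only [tri3, Pi.smul_apply, smul_eq_mul, Finset.mul_sum]
  refine Finset.sum_congr rfl fun a _ => Finset.sum_congr rfl fun b _ =>
    Finset.sum_congr rfl fun d _ => ?_
  ring

omit [DecidableEq J] in
theorem tri3_swap12 (h : ∀ a b d, τ a b d = τ b a d) (u v w : J → ℝ) :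
    tri3 τ u v w = tri3 τ v u w := by
  unfold tri3
  rw [Finset.sum_comm]
  refine Finset.sum_congr rfl fun a _ => Finset.sum_congr rfl fun b _ =>
    Finset.sum_congr rfl fun d _ => ?_
  rw [h]
  ring

omit [DecidableEq J] in
theorem tri3_swap23 (h : ∀ a b d, τ a b d = τ a d b) (u v w : J → ℝ) :
    tri3 τ u v w = tri3 τ u w v := by
  unfold tri3
  refine Finset.sum_congr rfl fun a _ => ?_
  rw [Finset.sum_comm]
  refine Finset.sum_congr rfl fun b _ => Finset.sum_congr rfl fun d _ => ?_
  rw [h]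
  ring

theorem tri3_unit1 (i : J) (v w : J → ℝ) : tri3 τ (unit i) v w = ∑ b, ∑ d, τ i b d * v b * w d := by
  simp [tri3, unit]

theorem tri3_unit12 (i j : J) (w : J → ℝ) : tri3 τ (unit i) (unit j) w = ∑ d, τ i j d * w d := by
  rw [tri3_unit1]
  simp [unit]

theorem tri3_unit123 (i j l : J) : tri3 τ (unit i) (unit j) (unit l) = τ i j l := by
  rw [tri3_unit12]
  simp [unit]

end

/-- the triangle sums -/
def tau (c : J → J → ℝ) (a b d : J) : ℝ := if Dist3 a b d then c a b + c b d + c a d else 0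

omit [Fintype J] in
theorem tau_swap12 {c : J → J → ℝ} (hs : ∀ a b, c a b = c b a) (a b d : J) :
    tau c a b d = tau c b a d := by
  unfold tau
  by_cases h : Dist3 a b d
  · rw [if_pos h, if_pos (show Dist3 b a d from ⟨h.1.symm, h.2.2, h.2.1⟩), hs b a]
    ring
  · rw [if_neg h, if_neg (show ¬ Dist3 b a d from fun h' => h ⟨h'.1.symm, h'.2.2, h'.2.1⟩)]

omit [Fintype J] in
theorem tau_swap23 {c : J → J → ℝ} (hs : ∀ a b, c a b = c b a) (a b d : J) :
    tau c a b d = tau c a d b := by
  unfold tau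
  by_cases h : Dist3 a b d
  · rw [if_pos h, if_pos (show Dist3 a d b from ⟨h.2.2, h.2.1.symm, h.1⟩), hs d b]
    ring
  · rw [if_neg h, if_neg (show ¬ Dist3 a d b from fun h' => h ⟨h'.2.2, h'.2.1.symm, h'.1⟩)]

omit [Fintype J] in
theorem tau_nonneg {c : J → J → ℝ}
    (hT : ∀ a b d, a ≠ b → b ≠ d → a ≠ d → 0 ≤ c a b + c b d + c a d) (a b d : J) :
    0 ≤ tau c a b d := by
  unfold tau
  split_ifs with h
  · exact hT a b d h.1 h.2.1 h.2.2
  · exact le_rfl

omit [Fintype J] in
theorem tau_aab (c : J → J → ℝ) (a d : J) : tau c a a d = 0 := if_neg fun h => h.1 rfl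

omit [Fintype J] in
theorem tau_abb (c : J → J → ℝ) (a d : J) : tau c a d d = 0 := if_neg fun h => h.2.1 rfl

omit [Fintype J] in
theorem tau_aba (c : J → J → ℝ) (a d : J) : tau c a d a = 0 := if_neg fun h => h.2.2 rfl

omit [Fintype J] in
theorem tau_pos {c : J → J → ℝ} {a b d : J} (h1 : a ≠ b) (h2 : b ≠ d) (h3 : a ≠ d) :
    tau c a b d = c a b + c b d + c a d := if_pos ⟨h1, h2, h3⟩

section expand
variable {c : J → J → ℝ} (hs : ∀ a b, c a b = c b a)
include hs

omit [DecidableEq J] hs in
theorem tri3_add_right0 (τ : J → J → J → ℝ) (u v w w' : J → ℝ) :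
    tri3 τ u v (w + w') = tri3 τ u v w + tri3 τ u v w' := by
  simp only [tri3, Pi.add_apply, ← Finset.sum_add_distrib]
  refine Finset.sum_congr rfl fun a _ => Finset.sum_congr rfl fun b _ =>
    Finset.sum_congr rfl fun d _ => ?_
  ring

omit hs in
theorem tri3_add_right (u v w w' : J → ℝ) :
    tri3 (tau c) u v (w + w') = tri3 (tau c) u v w + tri3 (tau c) u v w' := by
  simp only [tri3, Pi.add_apply, ← Finset.sum_add_distrib]
  refine Finset.sum_congr rfl fun a _ => Finset.sum_congr rfl fun b _ =>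
    Finset.sum_congr rfl fun d _ => ?_
  ring

/-- cube of a sum -/
theorem tri3_cube (u v : J → ℝ) : tri3 (tau c) (u + v) (u + v) (u + v) =
    tri3 (tau c) u u u + 3 * tri3 (tau c) v u u + 3 * tri3 (tau c) v v u +
      tri3 (tau c) v v v := by
  have s12 := fun u v w => tri3_swap12 (tau c) (tau_swap12 hs) u v w
  have s23 := fun u v w => tri3_swap23 (tau c) (tau_swap23 hs) u v w
  have e1 : ∀ x y, tri3 (tau c) x y (u + v) = tri3 (tau c) x y u + tri3 (tau c) x y v :=
    fun x y => tri3_add_right x y u v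
  have e2 : ∀ x z, tri3 (tau c) x (u + v) z = tri3 (tau c) x u z + tri3 (tau c) x v z := by
    intro x z
    rw [s23, e1, s23 x z u, s23 x z v]
  have e3 : ∀ y z, tri3 (tau c) (u + v) y z = tri3 (tau c) u y z + tri3 (tau c) v y z :=
    fun y z => tri3_add_left _ _ _ _ _
  rw [e3, e2, e2, e1, e1, e1, e1]
  have h1 : tri3 (tau c) u u v = tri3 (tau c) v u u := by rw [s23, s12]
  have h2 : tri3 (tau c) u v u = tri3 (tau c) v u u := s12 _ _ _
  have h3 : tri3 (tau c) u v v = tri3 (tau c) v v u := by rw [s12, s23]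
  have h4 : tri3 (tau c) v u v = tri3 (tau c) v v u := s23 _ _ _
  rw [h1, h2, h3, h4]
  ring

omit hs in
/-- three unit vectors in the first slot -/
theorem tri3_three1 (i j l : J) (X Y Z : ℝ) (v w : J → ℝ) :
    tri3 (tau c) (X • unit i + Y • unit j + Z • unit l) v w =
      X * tri3 (tau c) (unit i) v w + Y * tri3 (tau c) (unit j) v w +
        Z * tri3 (tau c) (unit l) v w := by
  rw [tri3_add_left, tri3_add_left, tri3_smul_left, tri3_smul_left, tri3_smul_left]

theorem tri3_three2 (i j l : J) (X Y Z : ℝ) (w : J → ℝ) :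
    tri3 (tau c) (X • unit i + Y • unit j + Z • unit l) (X • unit i + Y • unit j + Z • unit l) w =
      2 * X * Y * tri3 (tau c) (unit i) (unit j) w + 2 * Y * Z * tri3 (tau c) (unit j) (unit l) w +
        2 * X * Z * tri3 (tau c) (unit i) (unit l) w := by
  have s12 := fun u v w => tri3_swap12 (tau c) (tau_swap12 hs) u v w
  have z : ∀ i : J, tri3 (tau c) (unit i) (unit i) w = 0 := by
    intro i
    rw [tri3_unit12]
    exact Finset.sum_eq_zero fun d _ => by rw [tau_aab]; ring
  rw [tri3_three1, s12 (unit i), s12 (unit j), s12 (unit l), tri3_three1, tri3_three1,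
    tri3_three1, z, z, z, s12 (unit j) (unit i), s12 (unit l) (unit i), s12 (unit l) (unit j)]
  ring

theorem tri3_three3 (i j l : J) (X Y Z : ℝ) :
    tri3 (tau c) (X • unit i + Y • unit j + Z • unit l) (X • unit i + Y • unit j + Z • unit l)
      (X • unit i + Y • unit j + Z • unit l) = 6 * X * Y * Z * tau c i j l := by
  rw [tri3_three2 hs]
  have e : ∀ a b : J, tri3 (tau c) (unit a) (unit b) (X • unit i + Y • unit j + Z • unit l) =
      X * tau c a b i + Y * tau c a b j + Z * tau c a b l := by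
    intro a b
    rw [tri3_unit12]
    simp only [Pi.add_apply, Pi.smul_apply, smul_eq_mul, unit]
    have h : ∀ d, tau c a b d * (X * (if d = i then 1 else 0) + Y * (if d = j then 1 else 0) +
        Z * (if d = l then 1 else 0)) = (if d = i then X * tau c a b d else 0) +
        (if d = j then Y * tau c a b d else 0) + (if d = l then Z * tau c a b d else 0) := by
      intro d
      split_ifs <;> ring
    simp only [h, Finset.sum_add_distrib, Finset.sum_ite_eq', mem_univ, if_true]
  rw [e, e, e, tau_aba, tau_abb, tau_aba, tau_abb, tau_aba, tau_abb]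
  rw [tau_swap12 hs j l i, tau_swap23 hs l j i, tau_swap12 hs l i j, tau_swap23 hs i l j]
  ring

/-- full expansion -/
theorem tri3_expand (i j l : J) (X Y Z : ℝ) (u : J → ℝ) :
    tri3 (tau c) (u + (X • unit i + Y • unit j + Z • unit l))
      (u + (X • unit i + Y • unit j + Z • unit l)) (u + (X • unit i + Y • unit j + Z • unit l)) =
    tri3 (tau c) u u u + 3 * (X * tri3 (tau c) (unit i) u u + Y * tri3 (tau c) (unit j) u u +
        Z * tri3 (tau c) (unit l) u u) +
      3 * (2 * X * Y * tri3 (tau c) (unit i) (unit j) u +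
        2 * Y * Z * tri3 (tau c) (unit j) (unit l) u +
        2 * X * Z * tri3 (tau c) (unit i) (unit l) u) + 6 * X * Y * Z * tau c i j l := by
  rw [tri3_cube hs, tri3_three1, tri3_three2 hs, tri3_three3 hs]

end expand

omit [DecidableEq J] in
theorem tri3_mono {τ : J → J → J → ℝ} (hτ : ∀ a b d, 0 ≤ τ a b d) {u v : J → ℝ}
    (hu : ∀ a, 0 ≤ u a) (huv : ∀ a, u a ≤ v a) : tri3 τ u u u ≤ tri3 τ v v v := by
  unfold tri3
  refine Finset.sum_le_sum fun a _ => Finset.sum_le_sum fun b _ =>
    Finset.sum_le_sum fun d _ => ?_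
  have := hτ a b d
  have ha := hu a
  have hb := hu b
  have hd := hu d
  have ha' := huv a
  have hb' := huv b
  have hd' := huv d
  have va := ha.trans ha'
  have vb := hb.trans hb'
  gcongr

omit [DecidableEq J] in
theorem tri3_nonneg {τ : J → J → J → ℝ} (hτ : ∀ a b d, 0 ≤ τ a b d) {u v w : J → ℝ}
    (hu : ∀ a, 0 ≤ u a) (hv : ∀ a, 0 ≤ v a) (hw : ∀ a, 0 ≤ w a) : 0 ≤ tri3 τ u v w := by
  unfold tri3
  refine Finset.sum_nonneg fun a _ => Finset.sum_nonneg fun b _ =>
    Finset.sum_nonneg fun d _ => ?_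
  have := hτ a b d
  have ha := hu a
  have hb := hv b
  have hd := hw d
  positivity

end Pool.Agent.MP_dd827d_co
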